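import Pool.Agent.OR.QDefs

/-!
# MP_6c3636_al, OR, module D01: dimensions of orthogonal complements (helper96)

`finrank_oc`: `ω` is nondegenerate, so `v ↦ ω v ·` restricted to `W` is a surjective map from `V` to the dual of `W` (e.g. `V ≃ Dual V` by `v ↦ ω v`, injective by `nd`, and `Dual V → Dual W` is surjective),
its kernel is `oc ω W` (`v ∈ oc ω W ↔ ∀ w ∈ W, ω v w = 0`). Or use Mathlib's `LinearMap.BilinForm.finrank_orthogonal` (note the symmetry `ω v w = - ω w v`, `Sy.neg` in P03). `oc_oc`: `W ≤ oc ω (oc ω W)` and dimensions.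
`finrank_inf_oc`: `X ⊓ oc ω P = oc ω X ⊓ oc ω P = oc ω (X ⊔ P)` (`TSi.oc_eq`), `finrank (X ⊔ P) + finrank (X ⊓ P) = finrank X + finrank P` and `finrank V = 2 * finrank X`.
-/

namespace OR

noncomputable section

open Classical

open LieP.PS (Sy Iso adj rsf oc)

set_option linter.unusedSectionVars false

variable {F : Type} [Field F] {V : Type} [AddCommGroup V] [Module F V] [FiniteDimensional F V]
  {ω : V →ₗ[F] V →ₗ[F] F} {Q : V → F}

theorem finrank_oc (h : Sy ω) (W : Submodule F V) :
    Module.finrank F (oc ω W) + Module.finrank F W = Module.finrank F V := by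
  have hnd : (ω : LinearMap.BilinForm F V).Nondegenerate :=
    ⟨fun v hv => h.nd v hv, fun v hv => h.nd' v hv⟩
  have e : oc ω W = LinearMap.BilinForm.orthogonal (ω : LinearMap.BilinForm F V) W := by
    ext v
    constructor
    · intro hv w hw
      have h1 : ω w v = 0 := by
        rw [h.neg, hv w hw, neg_zero]
      exact h1
    · intro hv w hw
      have h1 : ω w v = 0 := hv w hw
      rw [h.neg, h1, neg_zero]
  rw [e, LinearMap.BilinForm.finrank_orthogonal hnd]
  have := Submodule.finrank_le W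
  omega

theorem le_oc_oc (h : Sy ω) (W : Submodule F V) : W ≤ oc ω (oc ω W) := by
  intro v hv w hw
  rw [h.neg, hw v hv, neg_zero]

theorem oc_oc (h : Sy ω) (W : Submodule F V) : oc ω (oc ω W) = W := by
  have h1 := finrank_oc h W
  have h2 := finrank_oc h (oc ω W)
  exact (Submodule.eq_of_le_of_finrank_le (le_oc_oc h W) (by omega)).symm

theorem oc_sup (W W' : Submodule F V) : oc ω (W ⊔ W') = oc ω W ⊓ oc ω W' := by
  ext v
  constructor
  · intro hv
    exact ⟨fun w hw => hv w (Submodule.mem_sup_left hw), fun w hw => hv w (Submodule.mem_sup_right hw)⟩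
  · rintro ⟨h1, h2⟩ w hw
    obtain ⟨y, hy, z, hz, rfl⟩ := Submodule.mem_sup.1 hw
    rw [map_add, h1 y hy, h2 z hz, add_zero]

theorem oc_anti {W W' : Submodule F V} (hW : W ≤ W') : oc ω W' ≤ oc ω W :=
  fun _ hv w hw => hv w (hW hw)

variable [CharP F 2]

theorem TSi.le_oc (h : QS ω Q) {X : Submodule F V} (hX : TSi Q X) : X ≤ oc ω X :=
  fun _ hv _ hw => TSi.om h hX hv hw

theorem TSi.oc_eq (h : QS ω Q) {X : Submodule F V} (hX : TSi Q X)
    (hd : 2 * Module.finrank F X = Module.finrank F V) : oc ω X = X := by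
  have h1 := finrank_oc h.sy X
  exact (Submodule.eq_of_le_of_finrank_le (TSi.le_oc h hX) (by omega)).symm

theorem finrank_inf_oc (h : QS ω Q) {X : Submodule F V} (hX : TSi Q X)
    (hd : 2 * Module.finrank F X = Module.finrank F V) (P : Submodule F V) :
    Module.finrank F (X ⊓ oc ω P : Submodule F V) + Module.finrank F P =
      Module.finrank F X + Module.finrank F (X ⊓ P : Submodule F V) := by
  have h1 : (X ⊓ oc ω P : Submodule F V) = oc ω (X ⊔ P) := by
    rw [oc_sup, TSi.oc_eq h hX hd]
  have h2 := finrank_oc h.sy (X ⊔ P)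
  have h3 := Submodule.finrank_sup_add_finrank_inf_eq X P
  rw [h1]
  omega

end

end OR
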