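import Pool.Agent.OR.D01

/-!
# MP_6c3636_al, OR, module D02: adjacent totally singular subspaces (D1) (helper96)

`m := finrank X`, `P := Y ⊓ Y'`, dimension `m - 1`. (1) `oc ω P = Y ⊔ Y'`: `Y, Y' ≤ oc ω P` (`Y ≤ oc ω Y ≤ oc ω P`), and both have dimension `m + 1` (`finrank_oc`, `finrank V = 2 m`).
(2) `finrank (X ⊓ oc ω P) = finrank (X ⊓ P) + 1` (`finrank_inf_oc`). (3) Every `x ∈ X ⊓ oc ω P` is in `Y` or in `Y'`: by (1) `x = y + y'`, `0 = Q x = Q y + Q y' + ω y y' = ω y y'`. If `y ∉ P` and `y' ∉ P` then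
`y' ∉ Y`, `Y' = P ⊔ span {y'}` (dimension), `y` is orthogonal to `P` (`Y ≤ oc ω P`) and to `y'`, so to `Y'`, so `y ∈ oc ω Y' = Y'`, so `y ∈ Y ⊓ Y' = P`, contradiction. So `y ∈ P` or `y' ∈ P`, and `x ∈ Y'` or `x ∈ Y`.
(4) So the subspace `X ⊓ oc ω P` is contained in `Y` or in `Y'` (a vector space is not the union of two proper subspaces), say in `Y` (symmetry): then `X ⊓ Y = X ⊓ oc ω P` (`Y ≤ oc ω P`), and `X ⊓ Y' ≤ X ⊓ oc ω P ≤ Y`,
so `X ⊓ Y' = X ⊓ P`. So the two dimensions are `d + 1` and `d`, `d = finrank (X ⊓ P)`.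
-/

namespace OR

noncomputable section

open Classical

open LieP.PS (Sy Iso adj rsf oc)

variable {F : Type} [Field F] [CharP F 2] {V : Type} [AddCommGroup V] [Module F V] [FiniteDimensional F V]
  {ω : V →ₗ[F] V →ₗ[F] F} {Q : V → F}

namespace D02_aux

/-- the case `X ⊓ oc ω P ≤ Y` -/
theorem half (h : QS ω Q) {X Y Y' : Submodule F V} (hY : TSi Q Y) (hY' : TSi Q Y')
    (hP : Module.finrank F (X ⊓ oc ω (Y ⊓ Y') : Submodule F V) =
      Module.finrank F (X ⊓ (Y ⊓ Y') : Submodule F V) + 1)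
    (hle : X ⊓ oc ω (Y ⊓ Y') ≤ Y) :
    Odd (Module.finrank F (X ⊓ Y : Submodule F V) + Module.finrank F (X ⊓ Y' : Submodule F V)) := by
  have hYP : Y ≤ oc ω (Y ⊓ Y') := (TSi.le_oc h hY).trans (oc_anti inf_le_left)
  have hYP' : Y' ≤ oc ω (Y ⊓ Y') := (TSi.le_oc h hY').trans (oc_anti inf_le_right)
  have e1 : X ⊓ Y = X ⊓ oc ω (Y ⊓ Y') :=
    le_antisymm (le_inf inf_le_left (inf_le_right.trans hYP)) (le_inf inf_le_left hle)
  have e2 : X ⊓ Y' = X ⊓ (Y ⊓ Y') := by
    refine le_antisymm (le_inf inf_le_left (le_inf ?_ inf_le_right)) (le_inf inf_le_left (inf_le_right.trans inf_le_right))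
    exact (le_inf inf_le_left (inf_le_right.trans hYP')).trans hle
  rw [e1, e2, hP]
  exact ⟨Module.finrank F (X ⊓ (Y ⊓ Y') : Submodule F V), by ring⟩

end D02_aux

open D02_aux

theorem adj_step (h : QS ω Q) {X Y Y' : Submodule F V} (hX : TSi Q X) (hY : TSi Q Y) (hY' : TSi Q Y')
    (dX : 2 * Module.finrank F X = Module.finrank F V) (dY : 2 * Module.finrank F Y = Module.finrank F V)
    (dY' : 2 * Module.finrank F Y' = Module.finrank F V)
    (hYY : Module.finrank F (Y ⊓ Y' : Submodule F V) + 1 = Module.finrank F Y) :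
    Odd (Module.finrank F (X ⊓ Y : Submodule F V) + Module.finrank F (X ⊓ Y' : Submodule F V)) := by
  have hYP : Y ≤ oc ω (Y ⊓ Y') := (TSi.le_oc h hY).trans (oc_anti inf_le_left)
  have hYP' : Y' ≤ oc ω (Y ⊓ Y') := (TSi.le_oc h hY').trans (oc_anti inf_le_right)
  have hsup : Y ⊔ Y' = oc ω (Y ⊓ Y') := by
    apply Submodule.eq_of_le_of_finrank_eq (sup_le hYP hYP')
    have e1 := Submodule.finrank_sup_add_finrank_inf_eq Y Y'
    have e2 := finrank_oc h.sy (Y ⊓ Y')
    omega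
  have hP : Module.finrank F (X ⊓ oc ω (Y ⊓ Y') : Submodule F V) =
      Module.finrank F (X ⊓ (Y ⊓ Y') : Submodule F V) + 1 := by
    have e1 := finrank_inf_oc h hX dX (Y ⊓ Y')
    omega
  -- every element is in `Y` or in `Y'`
  have hun : ∀ x ∈ X ⊓ oc ω (Y ⊓ Y'), x ∈ Y ∨ x ∈ Y' := by
    rintro x ⟨hxX, hxP⟩
    have hx : x ∈ Y ⊔ Y' := by rw [hsup]; exact hxP
    obtain ⟨y, hy, y', hy', rfl⟩ := Submodule.mem_sup.mp hx
    by_cases h1 : y ∈ Y'
    · exact Or.inr (Y'.add_mem h1 hy')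
    by_cases h2 : y' ∈ Y
    · exact Or.inl (Y.add_mem hy h2)
    exfalso
    have h0 : ω y y' = 0 := by
      have e1 := hX _ hxX
      rw [h.add, hY _ hy, hY' _ hy', zero_add, zero_add] at e1
      exact e1
    -- `Y'` is spanned by `Y ⊓ Y'` and `y'`
    have hY'eq : (Y ⊓ Y') ⊔ Submodule.span F {y'} = Y' := by
      apply Submodule.eq_of_le_of_finrank_le
      · rw [sup_le_iff, Submodule.span_singleton_le_iff_mem]
        exact ⟨inf_le_right, hy'⟩
      · have hlt : (Y ⊓ Y') < (Y ⊓ Y') ⊔ Submodule.span F {y'} := by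
          refine lt_of_le_of_ne le_sup_left fun he => h2 ?_
          have : y' ∈ Y ⊓ Y' := by
            rw [he]
            exact Submodule.mem_sup_right (Submodule.mem_span_singleton_self y')
          exact this.1
        have e1 := Submodule.finrank_lt_finrank_of_lt hlt
        omega
    have hyo : y ∈ oc ω Y' := by
      rw [← hY'eq, oc_sup]
      refine ⟨hYP hy, ?_⟩
      intro w hw
      obtain ⟨c, rfl⟩ := Submodule.mem_span_singleton.mp hw
      rw [map_smul, h0, smul_zero]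
    rw [TSi.oc_eq h hY' dY'] at hyo
    exact h1 hyo
  -- so the subspace is contained in one of them
  by_cases hc : X ⊓ oc ω (Y ⊓ Y') ≤ Y
  · exact half h hY hY' hP hc
  · have hc' : X ⊓ oc ω (Y ⊓ Y') ≤ Y' := by
      obtain ⟨z, hz, hzY⟩ := SetLike.not_le_iff_exists.mp hc
      have hzY' := (hun z hz).resolve_left hzY
      intro x hx
      rcases hun x hx with hxY | hxY
      · rcases hun (x + z) (Submodule.add_mem _ hx hz) with h1 | h1
        · exact absurd ((Submodule.add_mem_iff_right _ hxY).1 h1) hzY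
        · exact (Submodule.add_mem_iff_left _ hzY').1 h1
      · exact hxY
    have hP' : Module.finrank F (X ⊓ oc ω (Y' ⊓ Y) : Submodule F V) =
        Module.finrank F (X ⊓ (Y' ⊓ Y) : Submodule F V) + 1 := by
      rw [inf_comm Y' Y]
      exact hP
    rw [add_comm]
    refine half h hY' hY hP' ?_
    rw [inf_comm Y' Y]
    exact hc'

end

end OR
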