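import Pool.Agent.OR.D01

/-!
# MP_6c3636_al, OR, module D03: a chain of adjacent totally singular subspaces (D1) (helper96)

`Y` and `Z` have the same dimension `m` and `Y ≠ Z`, so there is `z ∈ Z`, `z ∉ Y`. `H := Y ⊓ oc ω (span {z})`, `Y₁ := H ⊔ span {z}`. `z ∉ Y = oc ω Y` (`TSi.oc_eq`), so `y ↦ ω y z` is not zero on `Y` and `finrank H = m - 1`; `z ∉ H`, so
`finrank Y₁ = m`. `Y₁` is totally singular: `Q (y + c • z) = Q y + c ^ 2 * Q z + c * ω y z = 0`. `Y ⊓ Y₁ = H` (if `y + c • z ∈ Y` then `c = 0`). `Y₁ ⊓ Z = (Y ⊓ Z) ⊔ span {z}`: `Y ⊓ Z ≤ H` as `z ∈ Z` and `Z` is totally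
isotropic (`TSi.om`); if `y + c • z ∈ Z` then `y ∈ Z`. `z ∉ Y ⊓ Z`, so the dimension is `finrank (Y ⊓ Z) + 1`.
-/

namespace OR

noncomputable section

open Classical

open LieP.PS (Sy Iso adj rsf oc)

variable {F : Type} [Field F] [CharP F 2] {V : Type} [AddCommGroup V] [Module F V] [FiniteDimensional F V]
  {ω : V →ₗ[F] V →ₗ[F] F} {Q : V → F}

namespace D03_aux

omit [CharP F 2] in
theorem finrank_sup_span {W : Submodule F V} {z : V} (hz : z ∉ W) :
    Module.finrank F (W ⊔ Submodule.span F {z} : Submodule F V) = Module.finrank F W + 1 := by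
  have hz0 : z ≠ 0 := by
    rintro rfl
    exact hz (Submodule.zero_mem _)
  have h1 := Submodule.finrank_sup_add_finrank_inf_eq W (Submodule.span F {z})
  have h2 : W ⊓ Submodule.span F {z} = ⊥ := by
    rw [eq_bot_iff]
    rintro v ⟨hv1, hv2⟩
    obtain ⟨c, rfl⟩ := Submodule.mem_span_singleton.1 hv2
    rw [Submodule.mem_bot]
    by_cases hc : c = 0
    · rw [hc, zero_smul]
    · exfalso
      apply hz
      have h3 := Submodule.smul_mem W c⁻¹ hv1
      rwa [smul_smul, inv_mul_cancel₀ hc, one_smul] at h3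
  rw [h2, finrank_bot, add_zero, finrank_span_singleton hz0] at h1
  exact h1

omit [CharP F 2] in
theorem mem_sup_span {W : Submodule F V} {z v : V} :
    v ∈ (W ⊔ Submodule.span F {z} : Submodule F V) ↔ ∃ y ∈ W, ∃ c : F, v = y + c • z := by
  rw [Submodule.mem_sup]
  constructor
  · rintro ⟨y, hy, w, hw, rfl⟩
    obtain ⟨c, rfl⟩ := Submodule.mem_span_singleton.1 hw
    exact ⟨y, hy, c, rfl⟩
  · rintro ⟨y, hy, c, rfl⟩
    exact ⟨y, hy, c • z, Submodule.mem_span_singleton.2 ⟨c, rfl⟩, rfl⟩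

omit [CharP F 2] in
theorem finrank_inf_ker {W : Submodule F V} {φ : V →ₗ[F] F} (hφ : ∃ y ∈ W, φ y ≠ 0) :
    Module.finrank F (W ⊓ LinearMap.ker φ : Submodule F V) + 1 = Module.finrank F W := by
  obtain ⟨y, hy, hne⟩ := hφ
  have h1 := LinearMap.finrank_range_add_finrank_ker (φ.domRestrict W)
  have h2 : Module.finrank F (LinearMap.range (φ.domRestrict W)) = 1 := by
    have h3 : LinearMap.range (φ.domRestrict W) = ⊤ := by
      rw [LinearMap.range_eq_top]
      intro c
      refine ⟨(c * (φ y)⁻¹) • ⟨y, hy⟩, ?_⟩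
      rw [map_smul, LinearMap.domRestrict_apply, smul_eq_mul, mul_assoc, inv_mul_cancel₀ hne, mul_one]
    rw [h3, finrank_top, Module.finrank_self]
  have h4 : (W ⊓ LinearMap.ker φ : Submodule F V) = (LinearMap.ker (φ.domRestrict W)).map W.subtype := by
    ext v
    simp only [Submodule.mem_inf, LinearMap.mem_ker, Submodule.mem_map, Submodule.subtype_apply,
      LinearMap.domRestrict_apply]
    constructor
    · rintro ⟨h5, h6⟩
      exact ⟨⟨v, h5⟩, h6, rfl⟩
    · rintro ⟨w, h5, rfl⟩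
      exact ⟨w.2, h5⟩
  rw [h4, Submodule.finrank_map_subtype_eq]
  omega

end D03_aux

theorem exists_adj (h : QS ω Q) {Y Z : Submodule F V} (hY : TSi Q Y) (hZ : TSi Q Z)
    (dY : 2 * Module.finrank F Y = Module.finrank F V) (dZ : 2 * Module.finrank F Z = Module.finrank F V)
    (hne : Y ≠ Z) :
    ∃ Y₁ : Submodule F V, TSi Q Y₁ ∧ 2 * Module.finrank F Y₁ = Module.finrank F V ∧
      Module.finrank F (Y ⊓ Y₁ : Submodule F V) + 1 = Module.finrank F Y ∧
      Module.finrank F (Y₁ ⊓ Z : Submodule F V) = Module.finrank F (Y ⊓ Z : Submodule F V) + 1 := by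
  have hz : ∃ z ∈ Z, z ∉ Y := by
    by_contra hcon
    push Not at hcon
    have h1 : Z ≤ Y := hcon
    exact hne (Submodule.eq_of_le_of_finrank_eq h1 (by omega)).symm
  obtain ⟨z, hzZ, hzY⟩ := hz
  have hφ : ∃ y ∈ Y, ω.flip z y ≠ 0 := by
    by_contra hcon
    push Not at hcon
    apply hzY
    rw [← hY.oc_eq h dY]
    intro y hy
    rw [h.symm]
    exact hcon y hy
  have hH := D03_aux.finrank_inf_ker hφ
  set H : Submodule F V := Y ⊓ LinearMap.ker (ω.flip z) with hHdef
  have hHY : ∀ y ∈ H, y ∈ Y := fun y hy => hy.1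
  have hHz : ∀ y ∈ H, ω y z = 0 := fun y hy => hy.2
  have hzH : z ∉ H := fun hc => hzY hc.1
  have h1 := D03_aux.finrank_sup_span hzH
  refine ⟨H ⊔ Submodule.span F {z}, ?_, by omega, ?_, ?_⟩
  · intro v hv
    obtain ⟨y, hy, c, rfl⟩ := D03_aux.mem_sup_span.1 hv
    rw [h.add, h.smul, hY y (hHY y hy), hZ z hzZ, map_smul, hHz y hy, smul_zero, mul_zero, add_zero, add_zero]
  · have h2 : Y ⊓ (H ⊔ Submodule.span F {z}) = H := by
      apply le_antisymm
      · rintro v ⟨hv1, hv2⟩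
        obtain ⟨y, hy, c, rfl⟩ := D03_aux.mem_sup_span.1 hv2
        have h3 : c • z ∈ Y := by
          have h4 := Submodule.sub_mem Y hv1 (hHY y hy)
          rwa [add_sub_cancel_left] at h4
        by_cases hc : c = 0
        · rw [hc, zero_smul, add_zero]
          exact hy
        · exfalso
          apply hzY
          have h5 := Submodule.smul_mem Y c⁻¹ h3
          rwa [smul_smul, inv_mul_cancel₀ hc, one_smul] at h5
      · exact le_inf inf_le_left le_sup_left
    rw [h2]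
    exact hH
  · have h2 : (H ⊔ Submodule.span F {z}) ⊓ Z = (Y ⊓ Z) ⊔ Submodule.span F {z} := by
      apply le_antisymm
      · rintro v ⟨hv1, hv2⟩
        obtain ⟨y, hy, c, rfl⟩ := D03_aux.mem_sup_span.1 hv1
        have h3 : y ∈ Z := by
          have h4 := Submodule.sub_mem Z hv2 (Submodule.smul_mem Z c hzZ)
          rwa [add_sub_cancel_right] at h4
        exact D03_aux.mem_sup_span.2 ⟨y, ⟨hHY y hy, h3⟩, c, rfl⟩
      · intro v hv
        obtain ⟨y, hy, c, rfl⟩ := D03_aux.mem_sup_span.1 hv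
        refine ⟨D03_aux.mem_sup_span.2 ⟨y, ⟨hy.1, ?_⟩, c, rfl⟩, ?_⟩
        · show ω y z = 0
          exact hZ.om h hy.2 hzZ
        · exact Submodule.add_mem _ hy.2 (Submodule.smul_mem _ _ hzZ)
    rw [h2]
    exact D03_aux.finrank_sup_span (fun hc => hzY hc.1)

end

end OR
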