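import Pool.Agent.OR.D02
import Pool.Agent.OR.D03

/-!
# MP_6c3636_al, OR, module D04: the parity of three maximal totally singular subspaces (D1) (helper96)

Induction on `finrank Z - finrank (Y ⊓ Z)` (for all `Y`). If `Y = Z` then the sum is `2 * finrank (X ⊓ Y) + 2 * finrank X`. (If `finrank Z - finrank (Y ⊓ Z) = 0` then `Y ⊓ Z = Z`, `Z ≤ Y`, `Y = Z` by dimension.)
Otherwise `Y₁` from `exists_adj`: the claim for `Y₁, Z` and `adj_step` for `X, Y, Y₁`: `finrank (X ⊓ Y) + finrank (X ⊓ Y₁)` is odd and `finrank (Y₁ ⊓ Z) = finrank (Y ⊓ Z) + 1`.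
-/

namespace OR

noncomputable section

open Classical

open LieP.PS (Sy Iso adj rsf oc)

variable {F : Type} [Field F] [CharP F 2] {V : Type} [AddCommGroup V] [Module F V] [FiniteDimensional F V]
  {ω : V →ₗ[F] V →ₗ[F] F} {Q : V → F}

theorem parity (h : QS ω Q) {X Y Z : Submodule F V} (hX : TSi Q X) (hY : TSi Q Y) (hZ : TSi Q Z)
    (dX : 2 * Module.finrank F X = Module.finrank F V) (dY : 2 * Module.finrank F Y = Module.finrank F V)
    (dZ : 2 * Module.finrank F Z = Module.finrank F V) :
    Even (Module.finrank F (X ⊓ Y : Submodule F V) + Module.finrank F (Y ⊓ Z : Submodule F V) +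
      Module.finrank F (X ⊓ Z : Submodule F V) + Module.finrank F X) := by
  obtain ⟨n, hn⟩ : ∃ n, n = Module.finrank F Z - Module.finrank F (Y ⊓ Z : Submodule F V) := ⟨_, rfl⟩
  induction n using Nat.strong_induction_on generalizing Y with
  | _ n ih =>
    by_cases hne : Y = Z
    · subst hne
      rw [inf_idem]
      have h1 : Module.finrank F Y = Module.finrank F X := by omega
      rw [h1]
      exact ⟨Module.finrank F (X ⊓ Y : Submodule F V) + Module.finrank F X, by omega⟩
    · obtain ⟨Y₁, h1, h2, h3, h4⟩ := exists_adj h hY hZ dY dZ hne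
      have h5 : Module.finrank F (Y₁ ⊓ Z : Submodule F V) ≤ Module.finrank F Z :=
        Submodule.finrank_mono inf_le_right
      have h6 := ih _ (by omega) h1 h2 rfl
      have h7 := adj_step h hX hY h1 dX dY h2 h3
      rw [Nat.even_iff] at h6 ⊢
      rw [Nat.odd_iff] at h7
      omega

end

end OR
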