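import Pool.Agent.OR.D04

/-!
# MP_6c3636_al, OR, module D05: the Dickson invariant is a homomorphism (D2) (helper96)

On `V × V` with `Q v.1 + Q v.2` (`QS.prod`, polar form `psf ω ω`) the graph `gr g = {(v, g v)}` of an isometry `g` (e.g. the range of the injective linear map `v ↦ (v, g v)`) is totally singular of dimension `finrank V`:
`Q v + Q (g v) = 2 Q v = 0`. `gr g ⊓ gr g'` is isomorphic to the kernel of `g - g'`. `rk_mul`: `parity` for the graphs of `1`, `g`, `g * k`: `finrank (ker (g - 1)) + finrank (ker (g - g * k)) + finrank (ker (1 - g * k)) + finrank V` is even,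
`ker (g - g * k) = ker (k - 1)` (`g` injective, `QS.inj`), `finrank (ker (g - 1)) = finrank V - rk g` etc., so `3 * finrank V - (rk g + rk k + rk (g * k)) + finrank V` is even.
`rk_ts`: `parity` for the graphs of `1`, `g` and `X.prod X` (dimension `2 * finrank X = finrank V`): `gr 1 ⊓ (X.prod X)` is isomorphic to `X`, `gr g ⊓ (X.prod X)` to `{v ∈ X | g v ∈ X} = X ⊓ X.comap g`, which `g` maps onto `X.map g ⊓ X`.
`rk_ts'`: then `X.map g ≤ X`, so `X ⊓ X.map g = X.map g` has dimension `finrank X` and `rk g + 2 * finrank X` is even.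
-/

namespace OR

noncomputable section

open Classical

open LieP.PS (Sy Iso adj rsf oc)

variable {F : Type} [Field F] [CharP F 2] {V : Type} [AddCommGroup V] [Module F V] [FiniteDimensional F V]
  {ω : V →ₗ[F] V →ₗ[F] F} {Q : V → F}

namespace D05_aux

omit [CharP F 2] [FiniteDimensional F V] in
/-- the linear map to the graph -/
theorem gm_inj (g : Module.End F V) : Function.Injective (LinearMap.prod (LinearMap.id : V →ₗ[F] V) g) := by
  intro v w h
  exact congrArg Prod.fst h

/-- the graph -/
def gr (g : Module.End F V) : Submodule F (V × V) := LinearMap.range (LinearMap.prod (LinearMap.id : V →ₗ[F] V) g)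

omit [CharP F 2] [FiniteDimensional F V] in
theorem mem_gr {g : Module.End F V} {p : V × V} : p ∈ gr g ↔ p.2 = g p.1 := by
  unfold gr
  rw [LinearMap.mem_range]
  constructor
  · rintro ⟨v, rfl⟩
    rfl
  · intro h
    exact ⟨p.1, Prod.ext rfl h.symm⟩

omit [CharP F 2] in
theorem gr_dim (g : Module.End F V) : Module.finrank F (gr g) = Module.finrank F V :=
  LinearMap.finrank_range_of_inj (gm_inj g)

omit [FiniteDimensional F V] in
theorem gr_ts {g : Module.End F V} (hg : QI Q g) : TSi (fun v : V × V => Q v.1 + Q v.2) (gr g) := by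
  intro p hp
  rw [mem_gr] at hp
  show Q p.1 + Q p.2 = 0
  rw [hp, hg]
  exact CharTwo.add_self_eq_zero _

omit [CharP F 2] [FiniteDimensional F V] in
theorem map_dim (g : Module.End F V) (W : Submodule F V) :
    Module.finrank F (W.map (LinearMap.prod (LinearMap.id : V →ₗ[F] V) g)) = Module.finrank F W :=
  (Submodule.equivMapOfInjective _ (gm_inj g) W).finrank_eq.symm

omit [CharP F 2] [FiniteDimensional F V] in
theorem gr_inf (g k : Module.End F V) : Module.finrank F (gr g ⊓ gr k : Submodule F (V × V)) =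
    Module.finrank F (LinearMap.ker (g - k)) := by
  rw [← map_dim g (LinearMap.ker (g - k))]
  have e : (gr g ⊓ gr k : Submodule F (V × V)) =
      (LinearMap.ker (g - k)).map (LinearMap.prod (LinearMap.id : V →ₗ[F] V) g) := by
    ext p
    rw [Submodule.mem_inf, mem_gr, mem_gr, Submodule.mem_map]
    constructor
    · rintro ⟨h1, h2⟩
      refine ⟨p.1, ?_, Prod.ext rfl h1.symm⟩
      rw [LinearMap.mem_ker, LinearMap.sub_apply, ← h1, ← h2, sub_self]
    · rintro ⟨v, hv, rfl⟩
      rw [LinearMap.mem_ker, LinearMap.sub_apply, sub_eq_zero] at hv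
      exact ⟨rfl, hv⟩
  rw [e]

omit [CharP F 2] [FiniteDimensional F V] in
theorem gr_prod (g : Module.End F V) (X : Submodule F V) :
    Module.finrank F (gr g ⊓ X.prod X : Submodule F (V × V)) =
    Module.finrank F (X ⊓ X.comap g : Submodule F V) := by
  rw [← map_dim g (X ⊓ X.comap g)]
  have e : (gr g ⊓ X.prod X : Submodule F (V × V)) =
      (X ⊓ X.comap g : Submodule F V).map (LinearMap.prod (LinearMap.id : V →ₗ[F] V) g) := by
    ext p
    rw [Submodule.mem_inf, mem_gr, Submodule.mem_map, Submodule.mem_prod]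
    constructor
    · rintro ⟨h1, h2, h3⟩
      refine ⟨p.1, ?_, Prod.ext rfl h1.symm⟩
      rw [Submodule.mem_inf, Submodule.mem_comap, ← h1]
      exact ⟨h2, h3⟩
    · rintro ⟨v, hv, rfl⟩
      rw [Submodule.mem_inf, Submodule.mem_comap] at hv
      exact ⟨rfl, hv.1, hv.2⟩
  rw [e]

omit [CharP F 2] in
theorem prod_dim (X : Submodule F V) :
    Module.finrank F (X.prod X) = 2 * Module.finrank F X := by
  have e : X.prod X = LinearMap.range (LinearMap.prodMap X.subtype X.subtype) := by
    ext p
    rw [Submodule.mem_prod, LinearMap.mem_range]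
    constructor
    · rintro ⟨h1, h2⟩
      exact ⟨(⟨p.1, h1⟩, ⟨p.2, h2⟩), rfl⟩
    · rintro ⟨q, rfl⟩
      exact ⟨q.1.2, q.2.2⟩
  rw [e, LinearMap.finrank_range_of_inj, Module.finrank_prod]
  · ring
  · intro a b h
    have h1 := congrArg Prod.fst h
    have h2 := congrArg Prod.snd h
    exact Prod.ext (Subtype.ext h1) (Subtype.ext h2)

omit [CharP F 2] in
theorem rk_ker (g : Module.End F V) : rk g + Module.finrank F (LinearMap.ker (g - 1)) = Module.finrank F V :=
  LinearMap.finrank_range_add_finrank_ker (g - 1)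

omit [CharP F 2] [FiniteDimensional F V] in
theorem ker_comm (g k : Module.End F V) : LinearMap.ker (g - k) = LinearMap.ker (k - g) := by
  ext v
  rw [LinearMap.mem_ker, LinearMap.mem_ker, LinearMap.sub_apply, LinearMap.sub_apply, sub_eq_zero, sub_eq_zero]
  exact eq_comm

end D05_aux

open D05_aux

theorem rk_mul (h : QS ω Q) {g k : Module.End F V} (hg : QI Q g) (hk : QI Q k) :
    Even (rk (g * k) + rk g + rk k) := by
  have hp := h.prod h
  have hV : Module.finrank F (V × V) = 2 * Module.finrank F V := by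
    rw [Module.finrank_prod]; ring
  have h1 := parity hp (gr_ts (Q := Q) QI.one) (gr_ts hg) (gr_ts (hg.mul hk)) (by rw [gr_dim, hV])
    (by rw [gr_dim, hV]) (by rw [gr_dim, hV])
  rw [gr_inf, gr_inf, gr_inf, gr_dim] at h1
  have e1 : LinearMap.ker (g - g * k) = LinearMap.ker (k - 1) := by
    ext v
    rw [LinearMap.mem_ker, LinearMap.mem_ker, LinearMap.sub_apply, LinearMap.sub_apply, sub_eq_zero, sub_eq_zero,
      Module.End.mul_apply, Module.End.one_apply]
    constructor
    · intro h2
      exact (h.inj hg h2).symm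
    · intro h2
      rw [h2]
  rw [e1, ker_comm 1 g, ker_comm 1 (g * k)] at h1
  have r1 := rk_ker g
  have r2 := rk_ker k
  have r3 := rk_ker (g * k)
  rw [Nat.even_iff] at h1 ⊢
  omega

theorem rk_ts (h : QS ω Q) {g : Module.End F V} (hg : QI Q g) {X : Submodule F V} (hX : TSi Q X)
    (dX : 2 * Module.finrank F X = Module.finrank F V) :
    Even (rk g + Module.finrank F X + Module.finrank F (X ⊓ X.map g : Submodule F V)) := by
  have hp := h.prod h
  have hV : Module.finrank F (V × V) = 2 * Module.finrank F V := by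
    rw [Module.finrank_prod]; ring
  have hXX : TSi (fun v : V × V => Q v.1 + Q v.2) (X.prod X) := by
    intro p hp
    rw [Submodule.mem_prod] at hp
    show Q p.1 + Q p.2 = 0
    rw [hX _ hp.1, hX _ hp.2, add_zero]
  have h1 := parity hp (gr_ts (Q := Q) QI.one) (gr_ts hg) hXX (by rw [gr_dim, hV])
    (by rw [gr_dim, hV]) (by rw [prod_dim, hV, dX])
  rw [gr_inf, gr_prod, gr_prod, gr_dim, ker_comm 1 g] at h1
  have e1 : (X ⊓ X.comap (1 : Module.End F V) : Submodule F V) = X := by
    apply inf_eq_left.2
    intro v hv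
    exact hv
  have e2 : Module.finrank F (X ⊓ X.comap g : Submodule F V) = Module.finrank F (X ⊓ X.map g : Submodule F V) := by
    rw [(Submodule.equivMapOfInjective g (h.inj hg) (X ⊓ X.comap g)).finrank_eq]
    have e : (X ⊓ X.comap g : Submodule F V).map g = (X ⊓ X.map g : Submodule F V) := by
      ext p
      rw [Submodule.mem_map, Submodule.mem_inf, Submodule.mem_map]
      constructor
      · rintro ⟨v, hv, rfl⟩
        rw [Submodule.mem_inf, Submodule.mem_comap] at hv
        exact ⟨hv.2, v, hv.1, rfl⟩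
      · rintro ⟨h2, v, hv, rfl⟩
        exact ⟨v, Submodule.mem_inf.2 ⟨hv, h2⟩, rfl⟩
    rw [e]
  rw [e1, e2] at h1
  have r1 := rk_ker g
  rw [Nat.even_iff] at h1 ⊢
  omega

theorem rk_ts' (h : QS ω Q) {g : Module.End F V} (hg : QI Q g) {X : Submodule F V} (hX : TSi Q X)
    (dX : 2 * Module.finrank F X = Module.finrank F V) (hgX : ∀ v ∈ X, g v ∈ X) : Even (rk g) := by
  have h1 := rk_ts h hg hX dX
  have e1 : (X ⊓ X.map g : Submodule F V) = X.map g := by
    apply inf_eq_right.2
    intro p hp
    obtain ⟨v, hv, rfl⟩ := Submodule.mem_map.1 hp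
    exact hgX v hv
  rw [e1, ← (Submodule.equivMapOfInjective g (h.inj hg) X).finrank_eq] at h1
  rw [Nat.even_iff] at h1 ⊢
  omega

end

end OR
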