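import Pool.Agent.OR.D05

/-!
# MP_6c3636_al, OR, module D06: the Dickson invariant and Levi subgroups (D3) (helper96)

`W` totally singular and stable under the isometry `g`, `V₀` a complement of `W` in `oc ω W`, `g₀` the endomorphism of `V₀` with `g v - g₀ v ∈ W`. On `V × V₀` with `Q v.1 + Q v.2` (`QS.prod`, `QS.restrict`; `V₀` is nondegenerate: if
`v ∈ V₀` is orthogonal to `V₀` then it is orthogonal to `W ⊔ V₀ = oc ω W`, so in `oc ω (oc ω W) = W` (D01), so `v ∈ W ⊓ V₀ = ⊥`) let `Y := {(w + v, v) : w ∈ W, v ∈ V₀}` = range of the injective linear map `W × V₀ → V × V₀`. `Y` is totally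
singular: `Q (w + v) + Q v = Q w + 2 Q v + ω w v = 0`. Dimension: `finrank Y = finrank W + finrank V₀`, and `finrank W + finrank V₀ = finrank (oc ω W) = finrank V - finrank W`, so `2 * finrank Y = finrank V + finrank V₀`.
`G := LinearMap.prodMap g g₀` is an isometry (`Q (g₀ v) = Q (g v - w) = Q (g v) + Q w + ω (g v) w = Q v`, as `g v ∈ oc ω W`: `ω (g v) w`, `w = g w'` with `w' ∈ W` as `g` is injective on the finite dimensional `W`)
and `G Y ≤ Y`: `(g w + g v, g₀ v) = ((g w + (g v - g₀ v)) + g₀ v, g₀ v)`. So `rk G` is even by `rk_ts'`, and `rk G = rk g + rk g₀` (the range of `prodMap` is the product of the ranges).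
-/

namespace OR

noncomputable section

open Classical

open LieP.PS (Sy Iso adj rsf oc)

variable {F : Type} [Field F] [CharP F 2] {V : Type} [AddCommGroup V] [Module F V] [FiniteDimensional F V]
  {ω : V →ₗ[F] V →ₗ[F] F} {Q : V → F}

namespace D06_aux

theorem finrank_prod' {V' : Type} [AddCommGroup V'] [Module F V'] [FiniteDimensional F V']
    (p : Submodule F V) (q : Submodule F V') :
    Module.finrank F (p.prod q : Submodule F (V × V')) = Module.finrank F p + Module.finrank F q := by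
  have h1 : Function.Injective (LinearMap.prodMap p.subtype q.subtype) := by
    rintro ⟨a, b⟩ ⟨c, d⟩ hab
    rw [LinearMap.prodMap_apply, LinearMap.prodMap_apply, Prod.mk.injEq] at hab
    obtain ⟨h1, h2⟩ := hab
    exact Prod.ext (Subtype.ext h1) (Subtype.ext h2)
  have h2 : p.prod q = LinearMap.range (LinearMap.prodMap p.subtype q.subtype) := by
    rw [LinearMap.range_prodMap, Submodule.range_subtype, Submodule.range_subtype]
  rw [h2, LinearMap.finrank_range_of_inj h1, Module.finrank_prod]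

end D06_aux

theorem rk_prodMap {V' : Type} [AddCommGroup V'] [Module F V'] [FiniteDimensional F V']
    (g : Module.End F V) (g' : Module.End F V') : rk (LinearMap.prodMap g g' : Module.End F (V × V')) = rk g + rk g' := by
  have h1 : (LinearMap.prodMap g g' : Module.End F (V × V')) - 1 = LinearMap.prodMap (g - 1) (g' - 1) := by
    refine LinearMap.ext fun v => ?_
    rw [LinearMap.sub_apply, LinearMap.prodMap_apply, LinearMap.prodMap_apply, LinearMap.sub_apply,
      LinearMap.sub_apply, Module.End.one_apply, Module.End.one_apply, Module.End.one_apply]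
    rfl
  rw [rk, rk, rk, h1, LinearMap.range_prodMap, D06_aux.finrank_prod']

theorem rk_levi (h : QS ω Q) {g : Module.End F V} (hg : QI Q g) {W V₀ : Submodule F V} (hW : TSi Q W)
    (hgW : ∀ w ∈ W, g w ∈ W) (hsup : W ⊔ V₀ = oc ω W) (hinf : W ⊓ V₀ = ⊥) (g₀ : Module.End F V₀)
    (hg₀ : ∀ v : V₀, g v - (g₀ v : V) ∈ W) : Even (rk g + rk g₀) := by
  have hWV : ∀ w ∈ W, ∀ v ∈ V₀, ω v w = 0 := by
    intro w hw v hv
    have h1 : v ∈ oc ω W := by
      rw [← hsup]
      exact Submodule.mem_sup_right hv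
    exact h1 w hw
  -- V₀ is nondegenerate
  have hnd : ∀ w ∈ V₀, (∀ w' ∈ V₀, ω w w' = 0) → w = 0 := by
    intro v hv hv'
    have h1 : v ∈ oc ω (oc ω W) := by
      rw [← hsup]
      intro z hz
      obtain ⟨a, ha, b, hb, rfl⟩ := Submodule.mem_sup.mp hz
      rw [map_add, hWV a ha v hv, hv' b hb, add_zero]
    rw [oc_oc h.sy] at h1
    have h2 : v ∈ W ⊓ V₀ := ⟨h1, hv⟩
    rw [hinf] at h2
    exact (Submodule.mem_bot F).mp h2
  have hS := h.prod (h.restrict hnd)
  -- g is an isometry of the sum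
  have hsurj : ∀ w ∈ W, ∃ w' ∈ W, g w' = w := by
    intro w hw
    have hinj : Function.Injective (g.restrict hgW) := by
      intro a b hab
      have h1 : g (a : V) = g (b : V) := congrArg Subtype.val hab
      exact Subtype.ext (h.inj hg h1)
    obtain ⟨w', hw'⟩ := (LinearMap.injective_iff_surjective.mp hinj) ⟨w, hw⟩
    exact ⟨w', w'.2, congrArg Subtype.val hw'⟩
  have hg₀Q : ∀ v : V₀, Q (g₀ v : V) = Q (v : V) := by
    intro v
    have h1 : (g₀ v : V) = g v - (g v - (g₀ v : V)) := by abel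
    obtain ⟨w', hw', hw''⟩ := hsurj _ (hg₀ v)
    rw [h1, h.sub, hg, hW _ (hg₀ v), add_zero, ← hw'', QI.iso h hg, hWV w' hw' v v.2, add_zero]
  have hG : QI (fun v : V × V₀ => Q v.1 + Q v.2) (LinearMap.prodMap g g₀ : Module.End F (V × V₀)) := by
    intro v
    show Q (g v.1) + Q (g₀ v.2 : V) = Q v.1 + Q v.2
    rw [hg, hg₀Q]
  -- the subspace Y
  let T : (W × V₀) →ₗ[F] (V × V₀) :=
    LinearMap.prod (LinearMap.coprod W.subtype V₀.subtype) (LinearMap.snd F W V₀)
  have hT : ∀ a : W × V₀, T a = ((a.1 : V) + (a.2 : V), a.2) := fun a => rfl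
  have hTi : Function.Injective T := by
    intro a b hab
    rw [hT, hT, Prod.mk.injEq] at hab
    obtain ⟨h1, h2⟩ := hab
    rw [h2] at h1
    exact Prod.ext (Subtype.ext (add_right_cancel h1)) h2
  have hTS : TSi (fun v : V × V₀ => Q v.1 + Q v.2) (LinearMap.range T) := by
    rintro _ ⟨a, rfl⟩
    show Q ((a.1 : V) + (a.2 : V)) + Q (a.2 : V) = 0
    rw [h.add, hW _ a.1.2, h.symm, hWV a.1 a.1.2 a.2 a.2.2, zero_add, add_zero]
    exact CharTwo.add_self_eq_zero _
  have hdim : 2 * Module.finrank F (LinearMap.range T) = Module.finrank F (V × V₀) := by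
    rw [LinearMap.finrank_range_of_inj hTi, Module.finrank_prod, Module.finrank_prod]
    have h1 := Submodule.finrank_sup_add_finrank_inf_eq W V₀
    rw [hinf, finrank_bot, add_zero, hsup] at h1
    have h2 := finrank_oc h.sy W
    omega
  have hGY : ∀ v ∈ LinearMap.range T, (LinearMap.prodMap g g₀ : Module.End F (V × V₀)) v ∈ LinearMap.range T := by
    rintro _ ⟨a, rfl⟩
    refine ⟨(⟨g a.1 + (g a.2 - (g₀ a.2 : V)), W.add_mem (hgW _ a.1.2) (hg₀ a.2)⟩, g₀ a.2), ?_⟩
    rw [hT, hT]
    refine Prod.ext ?_ rfl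
    show g a.1 + (g a.2 - (g₀ a.2 : V)) + (g₀ a.2 : V) = g ((a.1 : V) + (a.2 : V))
    rw [map_add]
    abel
  have h3 := rk_ts' hS hG hTS hdim hGY
  rwa [rk_prodMap] at h3

end

end OR
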