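import Pool.Agent.OR.QDefs

/-!
# MP_6c3636_al, OR, module D07: reflections and Eichler elements (D3) (helper96)

`refl ω Q w : v ↦ v + (Q w)⁻¹ ω(v, w) w`. `qi_refl`: `Q (v + c • w) = Q v + c ^ 2 * Q w + c * ω v w` with `c = (Q w)⁻¹ * ω v w`: the last two terms are equal (characteristic two). `rk_refl`: the range of `refl - 1` is the line of `w`
(`w ≠ 0`, so `ω v w ≠ 0` for some `v`).
`eich ω v b z : x ↦ x + ω(x, v) b + ω(x, b) v + z ω(x, v) v` with `Q v = 0`, `ω v b = 0`, `z = Q b`. `qi_eich`: direct computation with `QS.add`, `QS.smul` (`ω v v = 0 = ω b b`). `rk_eich`: the range of `eich - 1` is contained in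
the span of `v`, `b`. If `v = 0` or `b = c • v` it is `⊥`: `ω x v c v + c ω x v v + 0 = 0`, `Q b = 0`. Otherwise `v`, `b` are linearly independent; by nondegeneracy there is `x` with `ω x v = 0`, `ω x b = 1` and `x'` with `ω x' v = 1`; `(eich - 1) x = v`,
`(eich - 1) x' = b + (..) v`: the range is the plane.
-/

namespace OR

noncomputable section

open Classical

open LieP.PS (Sy Iso adj rsf oc)

variable {F : Type} [Field F] {V : Type} [AddCommGroup V] [Module F V]

/-- the reflection -/
def refl (ω : V →ₗ[F] V →ₗ[F] F) (Q : V → F) (w : V) : Module.End F V :=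
  LinearMap.id + LinearMap.smulRight (ω.flip w) ((Q w)⁻¹ • w)

theorem refl_apply (ω : V →ₗ[F] V →ₗ[F] F) (Q : V → F) (w v : V) :
    refl ω Q w v = v + ω v w • (Q w)⁻¹ • w := rfl

/-- Eichler elements -/
def eich (ω : V →ₗ[F] V →ₗ[F] F) (v b : V) (z : F) : Module.End F V :=
  LinearMap.id + LinearMap.smulRight (ω.flip v) b + LinearMap.smulRight (ω.flip b) v +
    LinearMap.smulRight (ω.flip v) (z • v)

theorem eich_apply (ω : V →ₗ[F] V →ₗ[F] F) (v b : V) (z : F) (x : V) :
    eich ω v b z x = x + ω x v • b + ω x b • v + ω x v • z • v := rfl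

variable [CharP F 2] [FiniteDimensional F V] {ω : V →ₗ[F] V →ₗ[F] F} {Q : V → F}

theorem qi_refl (h : QS ω Q) {w : V} (hw : Q w ≠ 0) : QI Q (refl ω Q w) := by
  intro v
  rw [refl_apply, h.add, h.smul, h.smul, map_smul, map_smul, smul_eq_mul, smul_eq_mul]
  have e : ω v w ^ 2 * ((Q w)⁻¹ ^ 2 * Q w) = ω v w * ((Q w)⁻¹ * ω v w) := by
    field_simp
  rw [e, add_assoc, CharTwo.add_self_eq_zero, add_zero]

namespace D07_aux

theorem ne_zero (h : QS ω Q) {w : V} (hw : Q w ≠ 0) : w ≠ 0 := by
  rintro rfl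
  exact hw h.zero

theorem flip_ne (h : QS ω Q) {w : V} (hw : w ≠ 0) : ω.flip w ≠ 0 := by
  intro h0
  apply hw
  apply h.sy.nd
  intro v
  rw [h.symm]
  have := LinearMap.congr_fun h0 v
  simpa using this

theorem self (h : QS ω Q) (v : V) : ω v v = 0 := h.sy.alt v

end D07_aux

theorem rk_refl (h : QS ω Q) {w : V} (hw : Q w ≠ 0) : rk (refl ω Q w) = 1 := by
  have hw0 := D07_aux.ne_zero h hw
  unfold rk
  have e : refl ω Q w - 1 = LinearMap.smulRight (ω.flip w) ((Q w)⁻¹ • w) := by
    unfold refl
    have : (1 : Module.End F V) = LinearMap.id := rfl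
    rw [this, add_sub_cancel_left]
  rw [e, LinearMap.range_smulRight_apply (D07_aux.flip_ne h hw0)]
  exact finrank_span_singleton (smul_ne_zero (inv_ne_zero hw) hw0)

theorem refl_sq (h : QS ω Q) {w : V} (hw : Q w ≠ 0) : refl ω Q w * refl ω Q w = 1 := by
  apply LinearMap.ext
  intro v
  rw [Module.End.mul_apply, refl_apply, refl_apply, map_add, LinearMap.add_apply, map_smul, map_smul,
    LinearMap.smul_apply, LinearMap.smul_apply, D07_aux.self h, smul_zero, smul_zero, add_zero, add_assoc,
    ← add_smul, CharTwo.add_self_eq_zero, zero_smul, add_zero]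
  rfl

theorem qi_eich (h : QS ω Q) {v b : V} (hv : Q v = 0) (hvb : ω v b = 0) : QI Q (eich ω v b (Q b)) := by
  intro x
  have e : eich ω v b (Q b) x = x + (ω x v • b + (ω x b + ω x v * Q b) • v) := by
    rw [eich_apply, add_smul, mul_smul]
    abel
  have hbv : ω b v = 0 := by rw [h.symm, hvb]
  rw [e, h.add, h.add, h.smul, h.smul, map_smul, map_smul, map_add, map_smul, map_smul, LinearMap.smul_apply, hbv, hv]
  simp only [smul_eq_mul, mul_zero, add_zero]
  have e2 : Q x + ω x v ^ 2 * Q b + (ω x v * ω x b + (ω x b + ω x v * Q b) * ω x v) =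
      Q x + (ω x v ^ 2 * Q b + ω x v ^ 2 * Q b) + (ω x v * ω x b + ω x v * ω x b) := by
    ring
  rw [e2, CharTwo.add_self_eq_zero, CharTwo.add_self_eq_zero, add_zero, add_zero]

namespace D07_aux

theorem sub_apply (v b : V) (z : F) (x : V) :
    (eich ω v b z - 1) x = ω x v • b + ω x b • v + ω x v • z • v := by
  rw [LinearMap.sub_apply, eich_apply, Module.End.one_apply]
  abel

theorem exists_dual (h : QS ω Q) {v b : V} (hb : b ∉ Submodule.span F {v}) :
    ∃ x, ω x v = 0 ∧ ω x b = 1 := by
  obtain ⟨f, hf1, hf2⟩ := Submodule.exists_le_ker_of_notMem hb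
  obtain ⟨w, hw⟩ := h.sy.exists_rep f
  have h1 : ω w v = 0 := by
    rw [h.symm, ← hw]
    exact hf2 (Submodule.mem_span_singleton_self v)
  have h2 : ω w b ≠ 0 := by
    rw [h.symm, ← hw]
    exact hf1
  refine ⟨(ω w b)⁻¹ • w, ?_, ?_⟩
  · rw [map_smul, LinearMap.smul_apply, h1, smul_zero]
  · rw [map_smul, LinearMap.smul_apply, smul_eq_mul, inv_mul_cancel₀ h2]

theorem exists_one (h : QS ω Q) {v : V} (hv : v ≠ 0) : ∃ x, ω x v = 1 := by
  obtain ⟨x, -, hx⟩ := exists_dual (v := (0 : V)) (b := v) h (by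
    rw [Submodule.span_zero_singleton, Submodule.mem_bot]
    exact hv)
  exact ⟨x, hx⟩

end D07_aux

theorem rk_eich (h : QS ω Q) {v b : V} (hv : Q v = 0) (hvb : ω v b = 0) : Even (rk (eich ω v b (Q b))) := by
  unfold rk
  by_cases hv0 : v = 0
  · have e : eich ω v b (Q b) - 1 = 0 := by
      apply LinearMap.ext
      intro x
      rw [D07_aux.sub_apply, hv0]
      simp
    rw [e, LinearMap.range_zero, finrank_bot]
    exact Even.zero
  by_cases hb : b ∈ Submodule.span F {v}
  · obtain ⟨c, rfl⟩ := Submodule.mem_span_singleton.1 hb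
    have e : eich ω v (c • v) (Q (c • v)) - 1 = 0 := by
      apply LinearMap.ext
      intro x
      rw [D07_aux.sub_apply, h.smul, hv, map_smul, smul_eq_mul, mul_zero, zero_smul, smul_zero, add_zero,
        smul_smul, mul_comm, ← add_smul, CharTwo.add_self_eq_zero, zero_smul]
      rfl
    rw [e, LinearMap.range_zero, finrank_bot]
    exact Even.zero
  · obtain ⟨x, hx1, hx2⟩ := D07_aux.exists_dual h hb
    obtain ⟨x', hx'⟩ := D07_aux.exists_one h hv0
    have hv1 : v ∈ LinearMap.range (eich ω v b (Q b) - 1) := by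
      refine ⟨x, ?_⟩
      rw [D07_aux.sub_apply, hx1, hx2]
      simp
    have hb1 : b ∈ LinearMap.range (eich ω v b (Q b) - 1) := by
      have h1 : (eich ω v b (Q b) - 1) x' ∈ LinearMap.range (eich ω v b (Q b) - 1) := ⟨x', rfl⟩
      rw [D07_aux.sub_apply, hx', one_smul, one_smul] at h1
      have h2 := Submodule.sub_mem _ h1 (Submodule.smul_mem _ (Q b) hv1)
      have h3 := Submodule.sub_mem _ h2 (Submodule.smul_mem _ (ω x' b) hv1)
      have e : b + ω x' b • v + Q b • v - Q b • v - ω x' b • v = b := by abel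
      rwa [e] at h3
    have hr : LinearMap.range (eich ω v b (Q b) - 1) = Submodule.span F (Set.range ![v, b]) := by
      apply le_antisymm
      · rintro _ ⟨y, rfl⟩
        rw [D07_aux.sub_apply]
        have m1 : v ∈ Submodule.span F (Set.range ![v, b]) := Submodule.subset_span ⟨0, rfl⟩
        have m2 : b ∈ Submodule.span F (Set.range ![v, b]) := Submodule.subset_span ⟨1, rfl⟩
        exact Submodule.add_mem _ (Submodule.add_mem _ (Submodule.smul_mem _ _ m2) (Submodule.smul_mem _ _ m1))
          (Submodule.smul_mem _ _ (Submodule.smul_mem _ _ m1))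
      · rw [Submodule.span_le]
        rintro _ ⟨i, rfl⟩
        fin_cases i
        · exact hv1
        · exact hb1
    have hli : LinearIndependent F ![v, b] := by
      rw [LinearIndependent.pair_iff]
      intro s t hst
      have h1 : t = 0 := by
        have := congrArg (ω x) hst
        rw [map_add, map_smul, map_smul, hx1, hx2, map_zero] at this
        simpa using this
      refine ⟨?_, h1⟩
      rw [h1, zero_smul, add_zero] at hst
      exact (smul_eq_zero.1 hst).resolve_right hv0
    rw [hr, finrank_span_eq_card hli, Fintype.card_fin]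
    exact even_two

end

end OR
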