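import Pool.Agent.LieP.P05

/-!
# MP_6c3636_al, OR, series D and P: quadratic spaces in characteristic two (helper96)

`QS ω Q`: `Q` is a quadratic form with the nondegenerate polar form `ω` (so the characteristic is two if `V ≠ 0`).
`QI Q g`: `g` is an isometry of `Q`. `rk g = rank (g - 1)`. `TSi Q X`: `X` is totally singular.
`CQ Q x y` / `CO Q x y`: `g x = y g` for an isometry `g` (with `rk g` even).
`Sy`, `Iso`, `adj`, `rsf`, `oc`, `glue` are those of `LieP.PS` (PDefs, P03, P05).
-/

namespace OR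

noncomputable section

open Classical

open LieP.PS (Sy Iso adj rsf oc)

section

variable {F : Type} [Field F] {V : Type} [AddCommGroup V] [Module F V]

/-- quadratic spaces: `Q` has the nondegenerate polar form `ω` -/
structure QS (ω : V →ₗ[F] V →ₗ[F] F) (Q : V → F) : Prop where
  sy : Sy ω
  add : ∀ v w, Q (v + w) = Q v + Q w + ω v w
  smul : ∀ (c : F) (v : V), Q (c • v) = c ^ 2 * Q v

/-- isometries -/
def QI (Q : V → F) (g : Module.End F V) : Prop := ∀ v, Q (g v) = Q v

/-- the rank of `g - 1` -/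
def rk (g : Module.End F V) : ℕ := Module.finrank F (LinearMap.range (g - 1))

/-- totally singular subspaces -/
def TSi (Q : V → F) (X : Submodule F V) : Prop := ∀ v ∈ X, Q v = 0

/-- `x` and `y` are conjugate by an isometry -/
def CQ (Q : V → F) (x y : Module.End F V) : Prop :=
  ∃ g : V ≃ₗ[F] V, (∀ v, Q (g v) = Q v) ∧ ∀ v, g (x v) = y (g v)

/-- `x` and `y` are conjugate by an isometry `g` with `rk g` even -/
def CO (Q : V → F) (x y : Module.End F V) : Prop :=
  ∃ g : V ≃ₗ[F] V, (∀ v, Q (g v) = Q v) ∧ Even (rk (g : Module.End F V)) ∧ ∀ v, g (x v) = y (g v)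

end

section

set_option linter.unusedSectionVars false

variable {F : Type} [Field F] [CharP F 2] {V : Type} [AddCommGroup V] [Module F V] [FiniteDimensional F V]
  {ω : V →ₗ[F] V →ₗ[F] F} {Q : V → F}

theorem QS.zero (h : QS ω Q) : Q 0 = 0 := by
  have h1 := h.smul 0 (0 : V)
  rw [zero_smul] at h1
  rw [h1]; ring

theorem QS.symm (h : QS ω Q) (v w : V) : ω v w = ω w v := by
  have h1 := h.add v w
  have h2 := h.add w v
  rw [add_comm w v, h1, add_comm (Q w) (Q v)] at h2
  exact add_left_cancel h2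

/-- the polar form -/
theorem QS.polar (h : QS ω Q) (v w : V) : ω v w = Q (v + w) + Q v + Q w := by
  rw [h.add]
  have h1 := CharTwo.add_self_eq_zero (Q v)
  have h2 := CharTwo.add_self_eq_zero (Q w)
  calc ω v w = ω v w + (Q v + Q v) + (Q w + Q w) := by rw [h1, h2, add_zero, add_zero]
    _ = _ := by ring

theorem QI.iso (h : QS ω Q) {g : Module.End F V} (hg : QI Q g) : Iso ω g := by
  intro v w
  rw [h.polar, h.polar, ← map_add, hg, hg, hg]

theorem QI.mul {g k : Module.End F V} (hg : QI Q g) (hk : QI Q k) : QI Q (g * k) := by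
  intro v
  rw [Module.End.mul_apply, hg, hk]

theorem QI.one : QI Q (1 : Module.End F V) := fun _ => rfl

theorem QI.pow {g : Module.End F V} (hg : QI Q g) (n : ℕ) : QI Q (g ^ n) := by
  induction n with
  | zero => rw [pow_zero]; exact QI.one
  | succ n ih => rw [pow_succ]; exact ih.mul hg

theorem QS.inj (h : QS ω Q) {g : Module.End F V} (hg : QI Q g) : Function.Injective g :=
  LieP.PS.p05_inj h.sy (QI.iso h hg)

/-- totally singular subspaces are totally isotropic -/
theorem TSi.om (h : QS ω Q) {X : Submodule F V} (hX : TSi Q X) {v w : V} (hv : v ∈ X) (hw : w ∈ X) :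
    ω v w = 0 := by
  rw [h.polar, hX _ (X.add_mem hv hw), hX _ hv, hX _ hw, add_zero, add_zero]

theorem QS.sub (h : QS ω Q) (v w : V) : Q (v - w) = Q v + Q w + ω v w := by
  have h1 : v - w = v + (-1 : F) • w := by rw [neg_one_smul, sub_eq_add_neg]
  rw [h1, h.add, h.smul, map_smul, smul_eq_mul, CharTwo.neg_eq]
  ring

/-- the restriction to a nondegenerate subspace -/
theorem QS.restrict (h : QS ω Q) {W : Submodule F V}
    (hW : ∀ w ∈ W, (∀ w' ∈ W, ω w w' = 0) → w = 0) : QS (rsf ω W) fun w : W => Q w where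
  sy := LieP.PS.sy_rsf h.sy hW
  add _ _ := h.add _ _
  smul _ _ := h.smul _ _

/-- the restriction of an isometry -/
theorem QI.restrict {W : Submodule F V} {g : Module.End F V} (hg : QI Q g) (hgW : ∀ w ∈ W, g w ∈ W) :
    QI (fun w : W => Q w) (g.restrict hgW) := fun w => hg w

theorem CO.cq {x y : Module.End F V} (h : CO Q x y) : CQ Q x y := by
  obtain ⟨g, h1, -, h2⟩ := h
  exact ⟨g, h1, h2⟩

/-- the orthogonal sum -/
def psf {V' : Type} [AddCommGroup V'] [Module F V'] (ω : V →ₗ[F] V →ₗ[F] F) (ω' : V' →ₗ[F] V' →ₗ[F] F) :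
    (V × V') →ₗ[F] (V × V') →ₗ[F] F :=
  LinearMap.mk₂ F (fun v w => ω v.1 w.1 + ω' v.2 w.2)
    (fun a b c => by simp only [Prod.fst_add, Prod.snd_add, map_add, LinearMap.add_apply]; ring)
    (fun r a b => by simp only [Prod.smul_fst, Prod.smul_snd, map_smul, LinearMap.smul_apply, smul_eq_mul]; ring)
    (fun a b c => by simp only [Prod.fst_add, Prod.snd_add, map_add]; ring)
    (fun r a b => by simp only [Prod.smul_fst, Prod.smul_snd, map_smul, smul_eq_mul]; ring)

theorem psf_apply {V' : Type} [AddCommGroup V'] [Module F V'] (ω' : V' →ₗ[F] V' →ₗ[F] F) (v w : V × V') :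
    psf ω ω' v w = ω v.1 w.1 + ω' v.2 w.2 := rfl

theorem QS.prod (h : QS ω Q) {V' : Type} [AddCommGroup V'] [Module F V'] {ω' : V' →ₗ[F] V' →ₗ[F] F}
    {Q' : V' → F} (h' : QS ω' Q') : QS (psf ω ω') fun v : V × V' => Q v.1 + Q' v.2 where
  sy :=
    { alt := fun v => by rw [psf_apply, h.sy.alt, h'.sy.alt, add_zero]
      nd := fun v hv => by
        refine Prod.ext (h.sy.nd _ fun w => ?_) (h'.sy.nd _ fun w => ?_)
        · have := hv (w, 0)
          rwa [psf_apply, map_zero, add_zero] at this
        · have := hv (0, w)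
          rwa [psf_apply, map_zero, zero_add] at this }
  add v w := by
    rw [psf_apply, Prod.fst_add, Prod.snd_add, h.add, h'.add]
    ring
  smul c v := by
    rw [Prod.smul_fst, Prod.smul_snd, h.smul, h'.smul]
    ring

end

end

end OR
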