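import Pool.Agent.OR.Defs
import Pool.Agent.OR.QDefs
import Pool.Agent.LieP.P14

/-!
# MP_6c3636_al, OR, module D08: the quadratic space of `Qa n a` (helper96)

`fo n v w = ∑ v i * w (rev i)` is the form `om` of P14 (there in the namespace `LieP.PS.P14_aux`, with `om_sy` for a fixed point free involution; `Fin.rev` has no fixed point if `n` is even).
`qs_Qa`: `Qa n a (v + w)`: `∑_{i < n/2} (v i * w (rev i) + w i * v (rev i)) = ∑ i, v i * w (rev i)` (split the sum over `Fin n` into `i < n/2` and `i ≥ n/2`, the map `rev` exchanges the two parts when `n` is even), and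
`(v i + w i) ^ 2 = v i ^ 2 + w i ^ 2`. `mem_OQ_iff`: `Matrix.toLin'_apply`, `CF.mv`. `rank_sub_one`: `Matrix.rank` of `g - 1` is the dimension of the range of `toLin' (g - 1) = toLin' g - 1` (`Matrix.rank`, `Matrix.toLin'`).
`exists_GL`: the matrix `LinearMap.toMatrix' g` is invertible.
-/

namespace OR

noncomputable section

open Classical Matrix

open LieP.PS (Sy Iso adj rsf oc)

variable {F : Type} [Field F] {n : ℕ}

/-- the polar form -/
def fo (n : ℕ) : (Fin n → F) →ₗ[F] (Fin n → F) →ₗ[F] F := LieP.PS.P14_aux.om (Fin.rev : Fin n → Fin n)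

theorem fo_apply (v w : Fin n → F) : fo n v w = ∑ i, v i * w (Fin.rev i) := rfl

/-- the linear map of a matrix -/
def tl (g : GL (Fin n) F) : Module.End F (Fin n → F) := Matrix.toLin' (g : Matrix (Fin n) (Fin n) F)

theorem tl_apply (g : GL (Fin n) F) (v : Fin n → F) : tl g v = CF.mv g v := by
  rw [tl, Matrix.toLin'_apply, CF.mv]

theorem tl_mul (g h : GL (Fin n) F) : tl (g * h) = tl g * tl h := by
  apply LinearMap.ext
  intro v
  rw [Module.End.mul_apply, tl_apply, tl_apply, tl_apply, CF.mv_mul]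

theorem tl_one : tl (1 : GL (Fin n) F) = 1 := by
  apply LinearMap.ext
  intro v
  rw [Module.End.one_apply, tl_apply, CF.mv_one]

theorem tl_pow (g : GL (Fin n) F) (k : ℕ) : tl (g ^ k) = tl g ^ k := by
  induction k with
  | zero => rw [pow_zero, pow_zero, tl_one]
  | succ k ih => rw [pow_succ, pow_succ, tl_mul, ih]

theorem rank_sub_one (g : GL (Fin n) F) : ((g : Matrix (Fin n) (Fin n) F) - 1).rank = rk (tl g) := by
  have h1 : tl g - 1 = Matrix.toLin' ((g : Matrix (Fin n) (Fin n) F) - 1) := by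
    rw [map_sub, Matrix.toLin'_one]
    rfl
  rw [rk, h1, Matrix.rank, Matrix.toLin'_apply']

theorem mem_OQ_iff {a : F} {g : GL (Fin n) F} : g ∈ OQ n a ↔ QI (Qa n a) (tl g) := by
  constructor
  · intro h v
    rw [tl_apply]
    exact h v
  · intro h v
    rw [← tl_apply]
    exact h v

theorem exists_GL {g : (Fin n → F) ≃ₗ[F] (Fin n → F)} : ∃ g' : GL (Fin n) F, tl g' = (g : Module.End F (Fin n → F)) := by
  have h1 : ∀ e : (Fin n → F) ≃ₗ[F] (Fin n → F),
      LinearMap.toMatrix' (e : (Fin n → F) →ₗ[F] (Fin n → F)) *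
        LinearMap.toMatrix' (e.symm : (Fin n → F) →ₗ[F] (Fin n → F)) = 1 := by
    intro e
    rw [← LinearMap.toMatrix'_comp]
    have h2 : (e : (Fin n → F) →ₗ[F] (Fin n → F)) ∘ₗ (e.symm : (Fin n → F) →ₗ[F] (Fin n → F)) = LinearMap.id := by
      apply LinearMap.ext
      intro v
      exact e.apply_symm_apply v
    rw [h2, LinearMap.toMatrix'_id]
  refine ⟨⟨LinearMap.toMatrix' (g : (Fin n → F) →ₗ[F] (Fin n → F)),
    LinearMap.toMatrix' (g.symm : (Fin n → F) →ₗ[F] (Fin n → F)), h1 g, ?_⟩, ?_⟩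
  · exact h1 g.symm
  · show Matrix.toLin' (LinearMap.toMatrix' (g : (Fin n → F) →ₗ[F] (Fin n → F))) = _
    rw [Matrix.toLin'_toMatrix']

theorem qs_Qa [CharP F 2] (hn : Even n) (a : F) : QS (fo n) (Qa n a) := by
  obtain ⟨m, hm⟩ := hn
  have hm2 : n / 2 = m := by omega
  refine ⟨?_, ?_, ?_⟩
  · refine LieP.PS.P14_aux.om_sy (fun i => Fin.rev_rev i) fun i h => ?_
    have h1 := congrArg Fin.val h
    rw [Fin.val_rev] at h1
    have h2 := i.isLt
    omega
  · intro v w
    rw [fo_apply]
    have hkey : ∑ i, v i * w (Fin.rev i) = ∑ i : Fin n, (if (i : ℕ) < n / 2 then v i * w (Fin.rev i) else 0) +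
        ∑ i : Fin n, (if (i : ℕ) < n / 2 then w i * v (Fin.rev i) else 0) := by
      have h1 : ∑ i : Fin n, (if (i : ℕ) < n / 2 then w i * v (Fin.rev i) else 0) =
          ∑ i : Fin n, (if (i : ℕ) < n / 2 then 0 else v i * w (Fin.rev i)) := by
        refine Fintype.sum_equiv Fin.revPerm _ _ fun i => ?_
        have h2 := i.isLt
        rw [Fin.revPerm_apply, Fin.val_rev, Fin.rev_rev, hm2]
        by_cases h : (i : ℕ) < m
        · rw [if_pos h, if_neg (by omega), mul_comm]
        · rw [if_neg h, if_pos (by omega)]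
      rw [h1, ← Finset.sum_add_distrib]
      refine Finset.sum_congr rfl fun i _ => ?_
      split_ifs
      · rw [add_zero]
      · rw [zero_add]
    rw [hkey, Qa, Qa, Qa]
    have h3 : ∑ i : Fin n, (if (i : ℕ) < n / 2 then (v + w) i * (v + w) (Fin.rev i) else 0) =
        ∑ i : Fin n, (if (i : ℕ) < n / 2 then v i * v (Fin.rev i) else 0) +
        ∑ i : Fin n, (if (i : ℕ) < n / 2 then w i * w (Fin.rev i) else 0) +
        (∑ i : Fin n, (if (i : ℕ) < n / 2 then v i * w (Fin.rev i) else 0) +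
        ∑ i : Fin n, (if (i : ℕ) < n / 2 then w i * v (Fin.rev i) else 0)) := by
      rw [← Finset.sum_add_distrib, ← Finset.sum_add_distrib, ← Finset.sum_add_distrib]
      refine Finset.sum_congr rfl fun i _ => ?_
      rw [Pi.add_apply, Pi.add_apply]
      split_ifs
      · ring
      · ring
    have h4 : ∑ i : Fin n, (if Mid n i then (v + w) i ^ 2 else 0) =
        ∑ i : Fin n, (if Mid n i then v i ^ 2 else 0) + ∑ i : Fin n, (if Mid n i then w i ^ 2 else 0) := by
      rw [← Finset.sum_add_distrib]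
      refine Finset.sum_congr rfl fun i _ => ?_
      rw [Pi.add_apply]
      split_ifs
      · exact CharTwo.add_sq _ _
      · rw [add_zero]
    rw [h3, h4]
    ring
  · intro c v
    have h1 : ∑ i : Fin n, (if (i : ℕ) < n / 2 then (c • v) i * (c • v) (Fin.rev i) else 0) =
        c ^ 2 * ∑ i : Fin n, (if (i : ℕ) < n / 2 then v i * v (Fin.rev i) else 0) := by
      rw [Finset.mul_sum]
      refine Finset.sum_congr rfl fun i _ => ?_
      rw [Pi.smul_apply, Pi.smul_apply, smul_eq_mul, smul_eq_mul]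
      split_ifs
      · ring
      · rw [mul_zero]
    have h2 : ∑ i : Fin n, (if Mid n i then (c • v) i ^ 2 else 0) =
        c ^ 2 * ∑ i : Fin n, (if Mid n i then v i ^ 2 else 0) := by
      rw [Finset.mul_sum]
      refine Finset.sum_congr rfl fun i _ => ?_
      rw [Pi.smul_apply, smul_eq_mul]
      split_ifs
      · ring
      · rw [mul_zero]
    rw [Qa, Qa, h1, h2]
    ring

end

end OR
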