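import Pool.Agent.OR.D05
import Pool.Agent.OR.D08

/-!
# MP_6c3636_al, OR, module D90: the group Om (helper96)

`rank_mul`: `rk_mul` (D05) for `tl g`, `tl h` (D08). `par_mul`: from `rank_mul` by parity (`Nat.even_add`). `mem_Om`: the right side is closed under products and inverses (`rank_mul`: `rk g⁻¹` has the parity of `rk g` by `rank_mul` for `g`, `g⁻¹`), so the closure consists of such elements
(`Subgroup.closure_induction`).
-/

namespace OR

noncomputable section

open Classical Matrix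

variable {F : Type} [Field F] [CharP F 2] {n : ℕ} {a : F}

theorem rank_mul (hn : Even n) {g h : GL (Fin n) F} (hg : g ∈ OQ n a) (hh : h ∈ OQ n a) :
    Even ((((g * h : GL (Fin n) F) : Matrix (Fin n) (Fin n) F) - 1).rank +
      ((g : Matrix (Fin n) (Fin n) F) - 1).rank + ((h : Matrix (Fin n) (Fin n) F) - 1).rank) := by
  rw [rank_sub_one, rank_sub_one, rank_sub_one, tl_mul]
  exact rk_mul (qs_Qa hn a) (mem_OQ_iff.1 hg) (mem_OQ_iff.1 hh)

/-- the parity of `rank (g - 1)` is a homomorphism -/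
theorem par_mul (hn : Even n) {g h : GL (Fin n) F} (hg : g ∈ OQ n a) (hh : h ∈ OQ n a) :
    Even (((g * h : GL (Fin n) F) : Matrix (Fin n) (Fin n) F) - 1).rank ↔
      (Even ((g : Matrix (Fin n) (Fin n) F) - 1).rank ↔ Even ((h : Matrix (Fin n) (Fin n) F) - 1).rank) := by
  have h1 := rank_mul hn hg hh
  rw [Nat.even_add, Nat.even_add] at h1
  tauto

namespace D90_aux

omit [CharP F 2] in
theorem even_one : Even (((1 : GL (Fin n) F) : Matrix (Fin n) (Fin n) F) - 1).rank := by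
  rw [Units.val_one, sub_self, Matrix.rank_zero]
  exact Even.zero

theorem par_inv (hn : Even n) {g : GL (Fin n) F} (hg : g ∈ OQ n a) :
    Even (((g⁻¹ : GL (Fin n) F) : Matrix (Fin n) (Fin n) F) - 1).rank ↔
      Even ((g : Matrix (Fin n) (Fin n) F) - 1).rank := by
  have h1 := par_mul hn hg ((OQ n a).inv_mem hg)
  rw [mul_inv_cancel] at h1
  have h2 : Even (((1 : GL (Fin n) F) : Matrix (Fin n) (Fin n) F) - 1).rank := even_one
  tauto

end D90_aux

open D90_aux

theorem mem_Om (hn : Even n) {g : GL (Fin n) F} :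
    g ∈ Om n a ↔ g ∈ OQ n a ∧ Even ((g : Matrix (Fin n) (Fin n) F) - 1).rank := by
  constructor
  · intro hg
    refine Subgroup.closure_induction
      (p := fun (x : GL (Fin n) F) _ => x ∈ OQ n a ∧ Even ((x : Matrix (Fin n) (Fin n) F) - 1).rank)
      ?_ ?_ ?_ ?_ hg
    · intro x hx
      exact hx
    · exact ⟨(OQ n a).one_mem, even_one⟩
    · rintro x y _ _ ⟨h1, h2⟩ ⟨h3, h4⟩
      refine ⟨(OQ n a).mul_mem h1 h3, ?_⟩
      rw [par_mul hn h1 h3]
      exact ⟨fun _ => h4, fun _ => h2⟩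
    · rintro x _ ⟨h1, h2⟩
      exact ⟨(OQ n a).inv_mem h1, (par_inv hn h1).2 h2⟩
  · intro hg
    exact Subgroup.subset_closure hg

/-- `Om` is normal of index at most two in the isometry group -/
theorem conj_mem_Om (hn : Even n) {g h : GL (Fin n) F} (hg : g ∈ Om n a) (hh : h ∈ OQ n a) :
    h * g * h⁻¹ ∈ Om n a := by
  obtain ⟨h1, h2⟩ := (mem_Om hn).1 hg
  have h3 := (OQ n a).mul_mem hh h1
  refine (mem_Om hn).2 ⟨(OQ n a).mul_mem h3 ((OQ n a).inv_mem hh), ?_⟩
  have h4 := par_mul hn h3 ((OQ n a).inv_mem hh)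
  have h5 := par_mul hn hh h1
  have h6 := par_inv hn hh
  tauto

theorem mul_mem_Om (hn : Even n) {g h : GL (Fin n) F} (hg : g ∈ OQ n a) (hh : h ∈ OQ n a)
    (hg' : g ∉ Om n a) (hh' : h ∉ Om n a) : g * h ∈ Om n a := by
  refine (mem_Om hn).2 ⟨(OQ n a).mul_mem hg hh, ?_⟩
  have h1 := par_mul hn hg hh
  have h2 : ¬ Even ((g : Matrix (Fin n) (Fin n) F) - 1).rank := fun h => hg' ((mem_Om hn).2 ⟨hg, h⟩)
  have h3 : ¬ Even ((h : Matrix (Fin n) (Fin n) F) - 1).rank := fun h => hh' ((mem_Om hn).2 ⟨hh, h⟩)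
  tauto

end

end OR
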