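import Pool.Agent.OR.D06
import Pool.Agent.OR.D90

/-!
# MP_6c3636_al, OR, module D91: isometries which are block triangular for the levels of `y` (D3) (helper96)

`y (rev i) = - y i`, and `y i = 0` for the middle indices if `a ≠ 0`. `g`, `g'` in `OQ n a`, block triangular (`g i j = 0` if `y i < y j`) with the same block of level `0`. `W := {v | ∀ i, y i ≤ 0 → v i = 0}` is totally singular (in
`Qa n a v` each product `v i * v (rev i)` is zero, as `y i ≤ 0` or `y (rev i) ≤ 0`; the middle squares are zero or `a = 0`) and stable under `g` (`(g v) i = ∑ j, g i j * v j`, `v j ≠ 0` implies `y j > 0`, `g i j ≠ 0` implies `y i ≥ y j`).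
`V₀ := {v | ∀ i, y i ≠ 0 → v i = 0}`. `oc (fo n) W = {v | ∀ i, y i < 0 → v i = 0}` (`fo n v (e_j) = v (rev j)`, `e_j ∈ W` for `y j > 0`), so `W ⊔ V₀ = oc (fo n) W`, `W ⊓ V₀ = ⊥`. `g₀ v := ` the vector with the coordinates `(g v) i` for `y i = 0` and
`0` otherwise. D06 `rk_levi` for `g` and `g'` (the same `g₀`: for `v ∈ V₀`, `y i = 0`: `(g v) i = ∑_{y j = 0} g i j * v j`). `ev_levels`: `g' = 1`.
-/

namespace OR

noncomputable section

open Classical Matrix

set_option linter.unusedSectionVars false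

variable {F : Type} [Field F] [CharP F 2] {n : ℕ} {a : F}

namespace D91_aux

open LieP.PS (Sy Iso adj rsf oc)

/-- the vectors vanishing on `P` -/
def van (P : Fin n → Prop) : Submodule F (Fin n → F) where
  carrier := {v | ∀ i, P i → v i = 0}
  add_mem' := by
    intro v w hv hw i hi
    rw [Pi.add_apply, hv i hi, hw i hi, add_zero]
  zero_mem' := fun _ _ => rfl
  smul_mem' := by
    intro c v hv i hi
    rw [Pi.smul_apply, hv i hi, smul_zero]

theorem mem_van {P : Fin n → Prop} {v : Fin n → F} : v ∈ van (F := F) P ↔ ∀ i, P i → v i = 0 := Iff.rfl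

/-- the projection to the coordinates outside of `P` -/
def cut (P : Fin n → Prop) : (Fin n → F) →ₗ[F] (Fin n → F) where
  toFun v := fun i => if P i then 0 else v i
  map_add' v w := by
    funext i
    simp only [Pi.add_apply]
    split_ifs
    · rw [add_zero]
    · rfl
  map_smul' c v := by
    funext i
    simp only [Pi.smul_apply, RingHom.id_apply]
    split_ifs
    · rw [smul_zero]
    · rfl

theorem cut_apply (P : Fin n → Prop) (v : Fin n → F) (i : Fin n) :
    cut P v i = if P i then 0 else v i := rfl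

theorem tl_coord (g : GL (Fin n) F) (v : Fin n → F) (i : Fin n) :
    tl g v i = ∑ j, (g : Matrix (Fin n) (Fin n) F) i j * v j := by
  rw [tl_apply]
  rfl

theorem tsi_W {y : Fin n → ℝ} (hy : ∀ i, y (Fin.rev i) = - y i) (ha : a ≠ 0 → ∀ i, Mid n i → y i = 0) :
    TSi (Qa n a) (van (F := F) fun i => y i ≤ 0) := by
  intro v hv
  have h1 : (∑ i : Fin n, if (i : ℕ) < n / 2 then v i * v (Fin.rev i) else 0) = 0 := by
    refine Finset.sum_eq_zero fun i _ => ?_
    split_ifs
    · rcases le_total (y i) 0 with h | h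
      · rw [hv i h, zero_mul]
      · rw [hv (Fin.rev i) (by show y (Fin.rev i) ≤ 0; rw [hy]; linarith), mul_zero]
    · rfl
  rw [Qa, h1, zero_add]
  by_cases ha0 : a = 0
  · rw [ha0, zero_mul]
  · have h2 : (∑ i : Fin n, if Mid n i then v i ^ 2 else 0) = 0 := by
      refine Finset.sum_eq_zero fun i _ => ?_
      split_ifs with hm
      · rw [hv i (le_of_eq (ha ha0 i hm))]
        exact zero_pow (by norm_num)
      · rfl
    rw [h2, mul_zero]

theorem stab_W {y : Fin n → ℝ} {g : GL (Fin n) F}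
    (h1 : ∀ i j, y i < y j → (g : Matrix (Fin n) (Fin n) F) i j = 0) :
    ∀ w ∈ van (F := F) fun i => y i ≤ 0, tl g w ∈ van (F := F) fun i => y i ≤ 0 := by
  intro w hw i hi
  rw [tl_coord]
  refine Finset.sum_eq_zero fun j _ => ?_
  rcases le_or_gt (y j) 0 with h | h
  · rw [hw j h, mul_zero]
  · rw [h1 i j (lt_of_le_of_lt hi h), zero_mul]

theorem mem_oc_W {y : Fin n → ℝ} (hy : ∀ i, y (Fin.rev i) = - y i) {v : Fin n → F} :
    v ∈ oc (fo n) (van (F := F) fun i => y i ≤ 0) ↔ ∀ i, y i < 0 → v i = 0 := by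
  rw [LieP.PS.mem_oc]
  constructor
  · intro h i hi
    have h2 := h (Pi.single (Fin.rev i) 1) (by
      intro j hj
      rw [Pi.single_apply]
      split_ifs with hji
      · rw [hji, hy] at hj
        linarith
      · rfl)
    rw [fo_apply, Finset.sum_eq_single i] at h2
    · rw [Pi.single_eq_same, mul_one] at h2
      exact h2
    · intro b _ hb
      rw [Pi.single_eq_of_ne (fun h => hb (Fin.rev_injective h)), mul_zero]
    · intro hb
      exact absurd (Finset.mem_univ _) hb
  · intro h w hw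
    rw [fo_apply]
    refine Finset.sum_eq_zero fun i _ => ?_
    rcases lt_or_ge (y i) 0 with hi | hi
    · rw [h i hi, zero_mul]
    · rw [hw (Fin.rev i) (by show y (Fin.rev i) ≤ 0; rw [hy]; linarith), mul_zero]

theorem sup_W {y : Fin n → ℝ} (hy : ∀ i, y (Fin.rev i) = - y i) :
    (van (F := F) fun i => y i ≤ 0) ⊔ (van fun i => y i ≠ 0) = oc (fo n) (van (F := F) fun i => y i ≤ 0) := by
  apply le_antisymm
  · rw [sup_le_iff]
    constructor
    · intro v hv
      rw [mem_oc_W hy]
      intro i hi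
      exact hv i hi.le
    · intro v hv
      rw [mem_oc_W hy]
      intro i hi
      exact hv i hi.ne
  · intro v hv
    rw [mem_oc_W hy] at hv
    have h1 : v = cut (fun i => y i ≤ 0) v + cut (fun i => y i ≠ 0) v := by
      funext i
      rw [Pi.add_apply, cut_apply, cut_apply]
      rcases lt_trichotomy (y i) 0 with h | h | h
      · rw [if_pos h.le, if_pos h.ne, hv i h, add_zero]
      · rw [if_pos h.le, if_neg (not_not.2 h), zero_add]
      · rw [if_neg (not_le.2 h), if_pos h.ne', add_zero]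
    rw [h1]
    refine Submodule.add_mem_sup ?_ ?_
    · intro i hi
      rw [cut_apply, if_pos hi]
    · intro i hi
      rw [cut_apply, if_pos hi]

theorem inf_W (y : Fin n → ℝ) :
    (van (F := F) fun i => y i ≤ 0) ⊓ (van fun i => y i ≠ 0) = ⊥ := by
  rw [eq_bot_iff]
  rintro v ⟨h1, h2⟩
  rw [Submodule.mem_bot]
  funext i
  by_cases h : y i = 0
  · exact h1 i h.le
  · exact h2 i h

/-- the operator on the level zero -/
def g0 (y : Fin n → ℝ) (g : GL (Fin n) F) : Module.End F (van (F := F) fun i => y i ≠ 0) :=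
  LinearMap.codRestrict _ ((cut fun i => y i ≠ 0).comp ((tl g).comp (Submodule.subtype _))) (by
    intro v i hi
    exact if_pos hi)

theorem g0_apply (y : Fin n → ℝ) (g : GL (Fin n) F) (v : van (F := F) fun i => y i ≠ 0) :
    (g0 y g v : Fin n → F) = cut (fun i => y i ≠ 0) (tl g v) := rfl

theorem even_g0 (hn : Even n) {g : GL (Fin n) F} (hg : g ∈ OQ n a)
    {y : Fin n → ℝ} (hy : ∀ i, y (Fin.rev i) = - y i) (ha : a ≠ 0 → ∀ i, Mid n i → y i = 0)
    (h1 : ∀ i j, y i < y j → (g : Matrix (Fin n) (Fin n) F) i j = 0) :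
    Even (rk (tl g) + rk (g0 y g)) := by
  refine rk_levi (qs_Qa hn a) (mem_OQ_iff.1 hg) (tsi_W hy ha) (stab_W h1) (sup_W hy) (inf_W y) (g0 y g) ?_
  intro v i hi
  rw [Pi.sub_apply, g0_apply, cut_apply]
  by_cases h : y i = 0
  · rw [if_neg (not_not.2 h), sub_self]
  · rw [if_pos h, sub_zero, tl_coord]
    refine Finset.sum_eq_zero fun j _ => ?_
    by_cases hj : y j = 0
    · rw [h1 i j (by rw [hj]; exact lt_of_le_of_ne hi h), zero_mul]
    · rw [v.2 j hj, mul_zero]

theorem g0_eq {g g' : GL (Fin n) F} {y : Fin n → ℝ}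
    (h0 : ∀ i j, y i = 0 → y j = 0 → (g : Matrix (Fin n) (Fin n) F) i j = (g' : Matrix (Fin n) (Fin n) F) i j) :
    g0 y g = g0 y g' := by
  apply LinearMap.ext
  intro v
  apply Subtype.ext
  rw [g0_apply, g0_apply]
  funext i
  rw [cut_apply, cut_apply]
  by_cases h : y i = 0
  · rw [if_neg (not_not.2 h), if_neg (not_not.2 h), tl_coord, tl_coord]
    refine Finset.sum_congr rfl fun j _ => ?_
    by_cases hj : y j = 0
    · rw [h0 i j h hj]
    · rw [v.2 j hj, mul_zero, mul_zero]
  · rw [if_pos h, if_pos h]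

end D91_aux

open D91_aux

theorem ev_levels_iff (hn : Even n) {g g' : GL (Fin n) F} (hg : g ∈ OQ n a) (hg' : g' ∈ OQ n a)
    {y : Fin n → ℝ} (hy : ∀ i, y (Fin.rev i) = - y i) (ha : a ≠ 0 → ∀ i, Mid n i → y i = 0)
    (h1 : ∀ i j, y i < y j → (g : Matrix (Fin n) (Fin n) F) i j = 0)
    (h1' : ∀ i j, y i < y j → (g' : Matrix (Fin n) (Fin n) F) i j = 0)
    (h0 : ∀ i j, y i = 0 → y j = 0 → (g : Matrix (Fin n) (Fin n) F) i j = (g' : Matrix (Fin n) (Fin n) F) i j) :
    g ∈ Om n a ↔ g' ∈ Om n a := by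
  have e1 := even_g0 hn hg hy ha h1
  have e2 := even_g0 hn hg' hy ha h1'
  rw [← g0_eq h0] at e2
  rw [mem_Om hn, mem_Om hn, rank_sub_one, rank_sub_one]
  rw [Nat.even_add] at e1 e2
  constructor
  · rintro ⟨-, h⟩
    exact ⟨hg', e2.2 (e1.1 h)⟩
  · rintro ⟨-, h⟩
    exact ⟨hg, e1.2 (e2.1 h)⟩

theorem ev_levels (hn : Even n) {g : GL (Fin n) F} (hg : g ∈ OQ n a)
    {y : Fin n → ℝ} (hy : ∀ i, y (Fin.rev i) = - y i) (ha : a ≠ 0 → ∀ i, Mid n i → y i = 0)
    (h1 : ∀ i j, y i < y j → (g : Matrix (Fin n) (Fin n) F) i j = 0)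
    (h0 : ∀ i j, y i = 0 → y j = 0 → (g : Matrix (Fin n) (Fin n) F) i j = (1 : Matrix (Fin n) (Fin n) F) i j) :
    g ∈ Om n a := by
  rw [ev_levels_iff hn hg (Subgroup.one_mem (OQ n a)) hy ha h1 ?_ ?_]
  · exact Subgroup.one_mem _
  · intro i j hij
    rw [Units.val_one, Matrix.one_apply_ne]
    rintro rfl
    exact lt_irrefl _ hij
  · intro i j hi hj
    rw [h0 i j hi hj, Units.val_one]

end

end OR
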