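import Pool.Agent.CF.Defs

/-!
# MP_6c3636_al, OR (orthogonal groups in characteristic two): definitions

Design of helper7 (doc proof/MP_6c3636_al_OR) and helper96; file written by helper40. `n` is even in all statements
(`n = 2 * m`), `Mid n i` says that `i` is one of the two middle indices `m - 1`, `m`,
`Qa n a x = ∑_{i < m} x i * x (rev i) + a * (x (m - 1) ^ 2 + x m ^ 2)`, `OQ n a` is the isometry group, `Om n a` is the
subgroup which is generated by the isometries `g` with `rank (g - 1)` even (it consists of these elements: module D90,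
`mem_Om`), `OL n a y` is the Levi subgroup of the elements of `Om n a` which are block diagonal for the level sets of `y`.
The polar form of `Qa n a` is `CF.fm (RingEquiv.refl F)`.
-/

namespace OR

noncomputable section

open Classical Matrix

variable {n : ℕ} {F : Type} [Field F]

/-- the two middle indices -/
def Mid (n : ℕ) (i : Fin n) : Prop := (i : ℕ) + 1 = n / 2 ∨ (i : ℕ) = n / 2

/-- the quadratic form -/
def Qa (n : ℕ) (a : F) (x : Fin n → F) : F :=
  (∑ i : Fin n, if (i : ℕ) < n / 2 then x i * x (Fin.rev i) else 0) +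
    a * ∑ i : Fin n, if Mid n i then x i ^ 2 else 0

/-- the isometry group of the quadratic form -/
def OQ (n : ℕ) (a : F) : Subgroup (GL (Fin n) F) where
  carrier := {g | ∀ x : Fin n → F, Qa n a (CF.mv g x) = Qa n a x}
  mul_mem' := by
    intro g h hg hh x
    rw [CF.mv_mul, hg, hh]
  one_mem' := by
    intro x
    rw [CF.mv_one]
  inv_mem' := by
    intro g hg x
    have h1 := hg (CF.mv g⁻¹ x)
    rw [CF.mv_inv'] at h1
    exact h1.symm

theorem mem_OQ {a : F} {g : GL (Fin n) F} :
    g ∈ OQ n a ↔ ∀ x : Fin n → F, Qa n a (CF.mv g x) = Qa n a x := Iff.rfl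

/-- the group generated by the isometries `g` with `rank (g - 1)` even -/
def Om (n : ℕ) (a : F) : Subgroup (GL (Fin n) F) :=
  Subgroup.closure {g | g ∈ OQ n a ∧ Even ((g : Matrix (Fin n) (Fin n) F) - 1).rank}

theorem Om_le (n : ℕ) (a : F) : Om n a ≤ OQ n a := by
  rw [Om, Subgroup.closure_le]
  intro g hg
  exact hg.1

/-- the elements of `Om n a` which are block diagonal for the level sets of `y` -/
def OL (n : ℕ) (a : F) (y : Fin n → ℝ) : Subgroup (GL (Fin n) F) where
  carrier := {g | g ∈ Om n a ∧ (∀ i j, y i ≠ y j → (g : Matrix (Fin n) (Fin n) F) i j = 0) ∧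
    ∀ i j, y i ≠ y j → ((g⁻¹ : GL (Fin n) F) : Matrix (Fin n) (Fin n) F) i j = 0}
  mul_mem' := by
    have key : ∀ A B : Matrix (Fin n) (Fin n) F, (∀ i j, y i ≠ y j → A i j = 0) →
        (∀ i j, y i ≠ y j → B i j = 0) → ∀ i j, y i ≠ y j → (A * B) i j = 0 := by
      intro A B hA hB i j hij
      rw [Matrix.mul_apply]
      refine Finset.sum_eq_zero fun k _ => ?_
      by_cases h : y i = y k
      · rw [hB k j (fun h' => hij (h.trans h')), mul_zero]
      · rw [hA i k h, zero_mul]
    rintro a b ⟨ha, ha', ha''⟩ ⟨hb, hb', hb''⟩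
    refine ⟨Subgroup.mul_mem _ ha hb, ?_, ?_⟩
    · rw [Units.val_mul]
      exact key _ _ ha' hb'
    · rw [_root_.mul_inv_rev, Units.val_mul]
      exact key _ _ hb'' ha''
  one_mem' := by
    refine ⟨Subgroup.one_mem _, ?_, ?_⟩
    · intro i j h
      rw [Units.val_one, Matrix.one_apply, if_neg (fun h' => h (congrArg y h'))]
    · intro i j h
      rw [inv_one, Units.val_one, Matrix.one_apply, if_neg (fun h' => h (congrArg y h'))]
  inv_mem' := by
    rintro g ⟨h1, h2, h3⟩
    refine ⟨Subgroup.inv_mem _ h1, h3, ?_⟩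
    rw [inv_inv]
    exact h2

theorem mem_OL {a : F} {y : Fin n → ℝ} {g : GL (Fin n) F} :
    g ∈ OL n a y ↔ g ∈ Om n a ∧ (∀ i j, y i ≠ y j → (g : Matrix (Fin n) (Fin n) F) i j = 0) ∧
      ∀ i j, y i ≠ y j → ((g⁻¹ : GL (Fin n) F) : Matrix (Fin n) (Fin n) F) i j = 0 := Iff.rfl

/-- the quadratic form is anisotropic on the middle plane -/
def Aniso (a : F) : Prop := ∀ x y : F, a * (x ^ 2 + y ^ 2) + x * y = 0 → x = 0 ∧ y = 0

end

end OR
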