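import Pool.Agent.OR.Defs
import Pool.Agent.CF.W03

/-!
# MP_6c3636_al, OR, module E01: the quadratic form and its polar form (helper40)

`bf v w = ∑ i, v (rev i) * w i` is the polar form of `Qa n a` (for every `a`).
-/

namespace OR

noncomputable section

open Classical Matrix CF

variable {n : ℕ} {F : Type} [Field F]

/-- the polar form -/
def bf (v w : Fin n → F) : F := ∑ i, v (Fin.rev i) * w i

theorem bf_eq (v w : Fin n → F) : fm (RingEquiv.refl F) v w = bf v w := rfl

theorem bf_add_left (u v w : Fin n → F) : bf (u + v) w = bf u w + bf v w := by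
  unfold bf
  rw [← Finset.sum_add_distrib]
  refine Finset.sum_congr rfl fun i _ => ?_
  rw [Pi.add_apply, add_mul]

theorem bf_add_right (u v w : Fin n → F) : bf u (v + w) = bf u v + bf u w := by
  unfold bf
  rw [← Finset.sum_add_distrib]
  refine Finset.sum_congr rfl fun i _ => ?_
  rw [Pi.add_apply, mul_add]

theorem bf_smul_left (c : F) (v w : Fin n → F) : bf (c • v) w = c * bf v w := by
  unfold bf
  rw [Finset.mul_sum]
  refine Finset.sum_congr rfl fun i _ => ?_
  rw [Pi.smul_apply, smul_eq_mul, mul_assoc]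

theorem bf_smul_right (c : F) (v w : Fin n → F) : bf v (c • w) = c * bf v w := by
  unfold bf
  rw [Finset.mul_sum]
  refine Finset.sum_congr rfl fun i _ => ?_
  rw [Pi.smul_apply, smul_eq_mul]
  ring

theorem bf_zero_left (w : Fin n → F) : bf 0 w = 0 := by
  unfold bf
  refine Finset.sum_eq_zero fun i _ => ?_
  rw [Pi.zero_apply, zero_mul]

theorem bf_zero_right (w : Fin n → F) : bf w 0 = 0 := by
  unfold bf
  refine Finset.sum_eq_zero fun i _ => ?_
  rw [Pi.zero_apply, mul_zero]

theorem bf_comm (v w : Fin n → F) : bf v w = bf w v := by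
  unfold bf
  rw [← Equiv.sum_comp Fin.revPerm]
  refine Finset.sum_congr rfl fun i _ => ?_
  rw [Fin.revPerm_apply, Fin.rev_rev, mul_comm]

theorem bf_sv_left (i : Fin n) (w : Fin n → F) : bf (sv i) w = w (Fin.rev i) := by
  unfold bf sv
  rw [Finset.sum_eq_single (Fin.rev i)]
  · rw [Fin.rev_rev, Pi.single_eq_same, one_mul]
  · intro k _ hk
    have h1 : Fin.rev k ≠ i := fun h => hk (by rw [← h, Fin.rev_rev])
    rw [Pi.single_eq_of_ne h1, zero_mul]
  · intro h
    exact absurd (Finset.mem_univ _) h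

theorem bf_sv_right (v : Fin n → F) (i : Fin n) : bf v (sv i) = v (Fin.rev i) := by
  rw [bf_comm, bf_sv_left]

theorem bf_nd {v : Fin n → F} (h : ∀ w, bf v w = 0) : v = 0 := by
  funext i
  have h1 := h (sv (Fin.rev i))
  rw [bf_sv_right, Fin.rev_rev] at h1
  exact h1

theorem rev_ne (hn : Even n) (i : Fin n) : Fin.rev i ≠ i := by
  intro h
  have h2 : (Fin.rev i : ℕ) = i := by rw [h]
  rw [Fin.val_rev] at h2
  obtain ⟨k, hk⟩ := hn
  have := i.2
  omega

theorem rev_lt (hn : Even n) (i : Fin n) : ((Fin.rev i : Fin n) : ℕ) < n / 2 ↔ ¬ (i : ℕ) < n / 2 := by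
  rw [Fin.val_rev]
  obtain ⟨k, hk⟩ := hn
  have := i.2
  omega

theorem Mid_rev (hn : Even n) {i : Fin n} : Mid n (Fin.rev i) ↔ Mid n i := by
  unfold Mid
  rw [Fin.val_rev]
  obtain ⟨k, hk⟩ := hn
  have := i.2
  omega

section Ch2

variable [CharP F 2]

theorem bf_self (hn : Even n) (v : Fin n → F) : bf v v = 0 := by
  unfold bf
  refine Finset.sum_involution (fun a _ => Fin.rev a) ?_ ?_ ?_ ?_
  · intro a _
    rw [Fin.rev_rev, mul_comm (v a)]
    exact CharTwo.add_self_eq_zero _
  · intro a _ _ hcon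
    exact rev_ne hn a hcon
  · intro a _
    exact Finset.mem_univ _
  · intro a _
    exact Fin.rev_rev a

/-- the sum over the first half -/
theorem half_sum (hn : Even n) (v w : Fin n → F) :
    (∑ i : Fin n, if (i : ℕ) < n / 2 then v i * w (Fin.rev i) + w i * v (Fin.rev i) else 0) = bf v w := by
  have h1 : bf v w = (∑ i : Fin n, if (i : ℕ) < n / 2 then v (Fin.rev i) * w i else 0) +
      ∑ i : Fin n, if (i : ℕ) < n / 2 then 0 else v (Fin.rev i) * w i := by
    unfold bf
    rw [← Finset.sum_add_distrib]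
    refine Finset.sum_congr rfl fun i _ => ?_
    by_cases h : (i : ℕ) < n / 2
    · rw [if_pos h, if_pos h, add_zero]
    · rw [if_neg h, if_neg h, zero_add]
  have h2 : (∑ i : Fin n, if (i : ℕ) < n / 2 then 0 else v (Fin.rev i) * w i) =
      ∑ i : Fin n, if (i : ℕ) < n / 2 then v i * w (Fin.rev i) else 0 := by
    rw [← Equiv.sum_comp Fin.revPerm]
    refine Finset.sum_congr rfl fun i _ => ?_
    rw [Fin.revPerm_apply, Fin.rev_rev]
    by_cases h : (i : ℕ) < n / 2
    · rw [if_pos h, if_neg]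
      rw [rev_lt hn]
      exact not_not.2 h
    · rw [if_neg h, if_pos]
      rw [rev_lt hn]
      exact h
  rw [h1, h2, ← Finset.sum_add_distrib]
  refine Finset.sum_congr rfl fun i _ => ?_
  by_cases h : (i : ℕ) < n / 2
  · rw [if_pos h, if_pos h, if_pos h]
    ring
  · rw [if_neg h, if_neg h, if_neg h, add_zero]

theorem Qa_add (hn : Even n) (a : F) (v w : Fin n → F) :
    Qa n a (v + w) = Qa n a v + Qa n a w + bf v w := by
  have h1 : (∑ i : Fin n, if (i : ℕ) < n / 2 then (v + w) i * (v + w) (Fin.rev i) else 0) =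
      (∑ i : Fin n, if (i : ℕ) < n / 2 then v i * v (Fin.rev i) else 0) +
      (∑ i : Fin n, if (i : ℕ) < n / 2 then w i * w (Fin.rev i) else 0) + bf v w := by
    rw [← half_sum hn, ← Finset.sum_add_distrib, ← Finset.sum_add_distrib]
    refine Finset.sum_congr rfl fun i _ => ?_
    by_cases h : (i : ℕ) < n / 2
    · rw [if_pos h, if_pos h, if_pos h, if_pos h, Pi.add_apply, Pi.add_apply]
      ring
    · rw [if_neg h, if_neg h, if_neg h, if_neg h, add_zero, add_zero]
  have h2 : (∑ i : Fin n, if Mid n i then (v + w) i ^ 2 else 0) =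
      (∑ i : Fin n, if Mid n i then v i ^ 2 else 0) + ∑ i : Fin n, if Mid n i then w i ^ 2 else 0 := by
    rw [← Finset.sum_add_distrib]
    refine Finset.sum_congr rfl fun i _ => ?_
    by_cases h : Mid n i
    · rw [if_pos h, if_pos h, if_pos h, Pi.add_apply]
      exact CharTwo.add_sq _ _
    · rw [if_neg h, if_neg h, if_neg h, add_zero]
  unfold Qa
  rw [h1, h2]
  ring

theorem Qa_smul (a c : F) (v : Fin n → F) : Qa n a (c • v) = c ^ 2 * Qa n a v := by
  unfold Qa
  have h1 : (∑ i : Fin n, if (i : ℕ) < n / 2 then (c • v) i * (c • v) (Fin.rev i) else 0) =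
      c ^ 2 * ∑ i : Fin n, if (i : ℕ) < n / 2 then v i * v (Fin.rev i) else 0 := by
    rw [Finset.mul_sum]
    refine Finset.sum_congr rfl fun i _ => ?_
    by_cases h : (i : ℕ) < n / 2
    · rw [if_pos h, if_pos h, Pi.smul_apply, Pi.smul_apply, smul_eq_mul, smul_eq_mul]
      ring
    · rw [if_neg h, if_neg h, mul_zero]
  have h2 : (∑ i : Fin n, if Mid n i then (c • v) i ^ 2 else 0) =
      c ^ 2 * ∑ i : Fin n, if Mid n i then v i ^ 2 else 0 := by
    rw [Finset.mul_sum]
    refine Finset.sum_congr rfl fun i _ => ?_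
    by_cases h : Mid n i
    · rw [if_pos h, if_pos h, Pi.smul_apply, smul_eq_mul]
      ring
    · rw [if_neg h, if_neg h, mul_zero]
  rw [h1, h2]
  ring

theorem Qa_zero (a : F) : Qa n a 0 = 0 := by
  have h := Qa_smul (n := n) a 0 0
  rw [zero_smul] at h
  rw [h]
  ring

theorem Qa_sv (a : F) {i : Fin n} (hn : Even n) (hi : ¬ Mid n i) : Qa n a (sv i) = 0 := by
  unfold Qa
  have h1 : (∑ j : Fin n, if (j : ℕ) < n / 2 then (sv i : Fin n → F) j * (sv i : Fin n → F) (Fin.rev j) else 0) =
      0 := by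
    refine Finset.sum_eq_zero fun j _ => ?_
    by_cases h : (j : ℕ) < n / 2
    · rw [if_pos h]
      by_cases hj : j = i
      · have h3 : (sv i : Fin n → F) (Fin.rev j) = 0 := by
          rw [hj]
          exact Pi.single_eq_of_ne (rev_ne hn i) 1
        rw [h3, mul_zero]
      · have h3 : (sv i : Fin n → F) j = 0 := Pi.single_eq_of_ne hj 1
        rw [h3, zero_mul]
    · rw [if_neg h]
  have h2 : (∑ j : Fin n, if Mid n j then (sv i : Fin n → F) j ^ 2 else 0) = 0 := by
    refine Finset.sum_eq_zero fun j _ => ?_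
    by_cases h : Mid n j
    · rw [if_pos h]
      have hj : j ≠ i := fun h' => hi (h' ▸ h)
      have h3 : (sv i : Fin n → F) j = 0 := Pi.single_eq_of_ne hj 1
      rw [h3]
      ring
    · rw [if_neg h]
  rw [h1, h2]
  ring

theorem Qa_sv_mid (a : F) {i : Fin n} (hn : Even n) (hi : Mid n i) : Qa n a (sv i) = a := by
  unfold Qa
  have h1 : (∑ j : Fin n, if (j : ℕ) < n / 2 then (sv i : Fin n → F) j * (sv i : Fin n → F) (Fin.rev j) else 0) =
      0 := by
    refine Finset.sum_eq_zero fun j _ => ?_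
    by_cases h : (j : ℕ) < n / 2
    · rw [if_pos h]
      by_cases hj : j = i
      · have h3 : (sv i : Fin n → F) (Fin.rev j) = 0 := by
          rw [hj]
          exact Pi.single_eq_of_ne (rev_ne hn i) 1
        rw [h3, mul_zero]
      · have h3 : (sv i : Fin n → F) j = 0 := Pi.single_eq_of_ne hj 1
        rw [h3, zero_mul]
    · rw [if_neg h]
  have h2 : (∑ j : Fin n, if Mid n j then (sv i : Fin n → F) j ^ 2 else 0) = 1 := by
    rw [Finset.sum_eq_single i]
    · rw [if_pos hi]
      have h3 : (sv i : Fin n → F) i = 1 := Pi.single_eq_same i 1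
      rw [h3]
      ring
    · intro j _ hj
      have h3 : (sv i : Fin n → F) j = 0 := Pi.single_eq_of_ne hj 1
      rw [h3]
      by_cases h : Mid n j
      · rw [if_pos h]
        ring
      · rw [if_neg h]
    · intro h
      exact absurd (Finset.mem_univ _) h
  rw [h1, h2]
  ring

theorem Qa_sv_zero (hn : Even n) (i : Fin n) : Qa n (0 : F) (sv i) = 0 := by
  by_cases h : Mid n i
  · exact Qa_sv_mid 0 hn h
  · exact Qa_sv 0 hn h

/-- the form vanishes on vectors which are supported in the first half -/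
theorem Qa_Fl (hn : Even n) (a : F) {k : ℕ} (hk : 2 * k ≤ n) (ha : a = 0 ∨ 2 * k + 2 ≤ n) {v : Fin n → F}
    (hv : v ∈ Fl n k F) : Qa n a v = 0 := by
  rw [mem_Fl] at hv
  unfold Qa
  have h1 : (∑ j : Fin n, if (j : ℕ) < n / 2 then v j * v (Fin.rev j) else 0) = 0 := by
    refine Finset.sum_eq_zero fun j _ => ?_
    by_cases h : (j : ℕ) < n / 2
    · rw [if_pos h, hv (Fin.rev j), mul_zero]
      rw [Fin.val_rev]
      have := j.2
      omega
    · rw [if_neg h]
  rw [h1, zero_add]
  rcases ha with ha | ha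
  · rw [ha, zero_mul]
  · have h2 : (∑ j : Fin n, if Mid n j then v j ^ 2 else 0) = 0 := by
      refine Finset.sum_eq_zero fun j _ => ?_
      by_cases h : Mid n j
      · rw [if_pos h, hv j]
        · ring
        · unfold Mid at h
          omega
      · rw [if_neg h]
    rw [h2, mul_zero]

/-- the polar form is invariant -/
theorem OQ_bf (hn : Even n) {a : F} {g : GL (Fin n) F} (hg : g ∈ OQ n a) (v w : Fin n → F) :
    bf (mv g v) (mv g w) = bf v w := by
  have h1 := hg (v + w)
  rw [mv_add, Qa_add hn, Qa_add hn, hg v, hg w] at h1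
  exact add_left_cancel h1

end Ch2

section Fin

variable [Finite F] [CharP F 2]

theorem OQ_le_Ug (hn : Even n) (a : F) : OQ n a ≤ Ug n (RingEquiv.refl F) := by
  intro g hg
  rw [mem_Ug]
  intro v w
  exact OQ_bf hn hg v w

end Fin

end

end OR
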