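import Pool.Agent.OR.E01

/-!
# MP_6c3636_al, OR, module E02: Eichler elements (helper40)

`eo a v b : x ↦ x + bf v x • b + bf b x • v + (Qa n a b * bf v x) • v` for `Qa n a v = 0`, `bf v b = 0`; it is `CF.ei`
for the identity automorphism and the scalar `Qa n a b`. `EO n a` is the group generated by these elements, `UO n a` the
group of the upper unitriangular elements of `Om n a`.
-/

namespace OR

noncomputable section

open Classical Matrix CF

variable {n : ℕ} {F : Type} [Field F]

/-- the Eichler element -/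
def eo (a : F) (v b : Fin n → F) : GL (Fin n) F := ei (RingEquiv.refl F) v b (Qa n a b)

/-- the group generated by the Eichler elements -/
def EO (n : ℕ) (a : F) : Subgroup (GL (Fin n) F) :=
  Subgroup.closure {g | ∃ v b : Fin n → F, Qa n a v = 0 ∧ bf v b = 0 ∧ g = eo a v b}

/-- the upper unitriangular elements of `Om n a` -/
def UO (n : ℕ) (a : F) : Subgroup (GL (Fin n) F) := Om n a ⊓ Up n F

/-- diagonal outside of the middle block -/
def IsT (t : GL (Fin n) F) : Prop :=
  ∀ i j, i ≠ j → ¬ (Mid n i ∧ Mid n j) → (t : Matrix (Fin n) (Fin n) F) i j = 0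

/-- the second maximal totally singular subspace for `a = 0` -/
def Fm (n : ℕ) (F : Type) [Field F] : Submodule F (Fin n → F) where
  carrier := {v | ∀ i : Fin n, n / 2 < (i : ℕ) ∨ (i : ℕ) + 1 = n / 2 → v i = 0}
  add_mem' := by
    intro a b ha hb i hi
    rw [Pi.add_apply, ha i hi, hb i hi, add_zero]
  zero_mem' := fun i _ => rfl
  smul_mem' := by
    intro c a ha i hi
    rw [Pi.smul_apply, ha i hi, smul_zero]

theorem mem_Fm {v : Fin n → F} : v ∈ Fm n F ↔ ∀ i : Fin n, n / 2 < (i : ℕ) ∨ (i : ℕ) + 1 = n / 2 → v i = 0 :=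
  Iff.rfl

variable [Finite F] [CharP F 2]

omit [Finite F] [CharP F 2] in
theorem refl_inv (x : F) : (RingEquiv.refl F) ((RingEquiv.refl F) x) = x := rfl

omit [Finite F] in
theorem eo_adm (hn : Even n) (a : F) {v b : Fin n → F} (hb : bf v b = 0) :
    Adm (RingEquiv.refl F) v b (Qa n a b) := by
  refine ⟨bf_self hn v, hb, ?_⟩
  show Qa n a b + Qa n a b = bf b b
  rw [bf_self hn, CharTwo.add_self_eq_zero]

theorem mv_eo (hn : Even n) (a : F) {v b : Fin n → F} (hb : bf v b = 0) (x : Fin n → F) :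
    mv (eo a v b) x = x + bf v x • b + bf b x • v + (Qa n a b * bf v x) • v :=
  mv_ei refl_inv (eo_adm hn a hb) x

theorem eo_mem (hn : Even n) {a : F} {v b : Fin n → F} (hv : Qa n a v = 0) (hb : bf v b = 0) :
    eo a v b ∈ OQ n a := by
  intro x
  rw [mv_eo hn a hb]
  simp only [Qa_add hn, Qa_smul, bf_add_left, bf_smul_left, bf_smul_right, hv, hb, bf_self hn, bf_comm b v]
  have e1 : bf x b = bf b x := bf_comm x b
  have e2 : bf x v = bf v x := bf_comm x v
  have h2 : (2 : F) = 0 := CharTwo.two_eq_zero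
  rw [e1, e2]
  linear_combination (bf b x * bf v x + Qa n a b * bf v x ^ 2) * h2

theorem eo_mem_EO {a : F} {v b : Fin n → F} (hv : Qa n a v = 0) (hb : bf v b = 0) :
    eo a v b ∈ EO n a := Subgroup.subset_closure ⟨v, b, hv, hb, rfl⟩

theorem EO_le_OQ (hn : Even n) (a : F) : EO n a ≤ OQ n a := by
  rw [EO, Subgroup.closure_le]
  rintro g ⟨v, b, hv, hb, rfl⟩
  exact eo_mem hn hv hb

theorem eo_mul (hn : Even n) (a : F) {v b c : Fin n → F} (hb : bf v b = 0) (hc : bf v c = 0) :
    eo a v b * eo a v c = eo a v (b + c) := by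
  unfold eo
  rw [ei_mul refl_inv (eo_adm hn a hb) (eo_adm hn a hc), Qa_add hn]
  rfl

theorem eo_zero_right (a : F) (hn : Even n) (v : Fin n → F) : eo a v 0 = 1 := by
  refine mv_ext fun j => ?_
  rw [mv_eo hn a (bf_zero_right v), mv_one, bf_zero_left, Qa_zero, smul_zero, zero_smul, zero_mul, zero_smul,
    add_zero, add_zero, add_zero]

theorem eo_zero_left (a : F) (hn : Even n) (b : Fin n → F) : eo a 0 b = 1 := by
  refine mv_ext fun j => ?_
  rw [mv_eo hn a (bf_zero_left b), mv_one, bf_zero_left, smul_zero, zero_smul, mul_zero, zero_smul,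
    add_zero, add_zero, add_zero]

theorem vec_add_self (v : Fin n → F) : v + v = 0 := by
  funext i
  exact CharTwo.add_self_eq_zero (v i)

theorem eo_inv (hn : Even n) (a : F) {v b : Fin n → F} (hb : bf v b = 0) : (eo a v b)⁻¹ = eo a v b := by
  rw [inv_eq_iff_mul_eq_one, eo_mul hn a hb hb, vec_add_self, eo_zero_right a hn]

theorem eo_conj (hn : Even n) {a : F} {g : GL (Fin n) F} (hg : g ∈ OQ n a) {v b : Fin n → F} (hb : bf v b = 0) :
    g * eo a v b * g⁻¹ = eo a (mv g v) (mv g b) := by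
  unfold eo
  rw [ei_conj refl_inv (OQ_le_Ug hn a hg) (eo_adm hn a hb), hg b]

theorem eo_smul (hn : Even n) (a : F) {c : F} {v b : Fin n → F} (hb : bf v b = 0) :
    eo a (c • v) b = eo a v (c • b) := by
  have h1 : bf (c • v) b = 0 := by rw [bf_smul_left, hb, mul_zero]
  have h2 : bf v (c • b) = 0 := by rw [bf_smul_right, hb, mul_zero]
  refine mv_ext fun j => ?_
  rw [mv_eo hn a h1, mv_eo hn a h2, bf_smul_left, bf_smul_left, Qa_smul]
  ext i
  simp only [Pi.add_apply, Pi.smul_apply, smul_eq_mul]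
  ring

theorem eo_shift (hn : Even n) {a : F} {v b : Fin n → F} (hv : Qa n a v = 0) (hb : bf v b = 0) (l : F) :
    eo a v (b + l • v) = eo a v b := by
  have h1 : bf v (b + l • v) = 0 := by rw [bf_add_right, bf_smul_right, bf_self hn, hb, mul_zero, add_zero]
  have h2 : (2 : F) = 0 := CharTwo.two_eq_zero
  have h3 : bf b v = 0 := by rw [bf_comm]; exact hb
  refine mv_ext fun j => ?_
  rw [mv_eo hn a h1, mv_eo hn a hb, Qa_add hn, Qa_smul, hv, bf_smul_right, h3, bf_add_left, bf_smul_left]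
  ext i
  simp only [Pi.add_apply, Pi.smul_apply, smul_eq_mul]
  linear_combination (l * bf v (sv j) * v i) * h2

theorem eo_fix (hn : Even n) (a : F) {v b x : Fin n → F} (hb : bf v b = 0) (h1 : bf v x = 0) (h2 : bf b x = 0) :
    mv (eo a v b) x = x := by
  rw [mv_eo hn a hb, h1, h2, zero_smul, zero_smul, mul_zero, zero_smul, add_zero, add_zero, add_zero]

/-- `eo a v ((bf v w)⁻¹ • (w + w'))` maps `w` to `w'` -/
theorem eo_move (hn : Even n) {a : F} {v w w' : Fin n → F} (hw : Qa n a w = Qa n a w') (h : bf v w = bf v w')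
    (h0 : bf v w ≠ 0) : bf v ((bf v w)⁻¹ • (w + w')) = 0 ∧
      mv (eo a v ((bf v w)⁻¹ • (w + w'))) w = w' := by
  have hb : bf v ((bf v w)⁻¹ • (w + w')) = 0 := by
    rw [bf_smul_right, bf_add_right, ← h, CharTwo.add_self_eq_zero, mul_zero]
  refine ⟨hb, ?_⟩
  have h1 : bf (w + w') w = bf w w' := by
    rw [bf_add_left, bf_self hn, zero_add, bf_comm]
  have h2 : Qa n a (w + w') = bf w w' := by
    rw [Qa_add hn, ← hw, CharTwo.add_self_eq_zero, zero_add]
  rw [mv_eo hn a hb, smul_smul, mul_inv_cancel₀ h0, one_smul, bf_smul_left, h1, Qa_smul, h2, add_assoc, ← add_smul]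
  have e : (bf v w)⁻¹ * bf w w' + (bf v w)⁻¹ ^ 2 * bf w w' * bf v w = 0 := by
    have e1 : (bf v w)⁻¹ ^ 2 * bf w w' * bf v w = (bf v w)⁻¹ * bf w w' := by
      field_simp
    rw [e1, CharTwo.add_self_eq_zero]
  rw [e, zero_smul, add_zero, ← add_assoc, vec_add_self, zero_add]

end

end OR
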