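import Pool.Agent.OR.E02
import Pool.Agent.OR.D90

/-!
# MP_6c3636_al, OR, module E03: Eichler elements have an even rank defect (stub of helper40)

`eo_rank`: if `v = 0` the element is `1` (`eo_zero_left`), if `b = l • v` it is `eo a v 0 = 1` (`eo_shift` with `0`, `eo_zero_right`). Otherwise `v`, `b` are linearly independent, and the matrix `M = eo a v b - 1` maps `x` to `bf v x • b + (bf b x + Qa b * bf v x) • v` (`mv_eo`). So the range of `M.mulVecLin` is contained in the span of `v`, `b`, and it contains `v` and `b`: as `v`, `b` are independent there are `x`, `y` with `bf v x = 1`, `bf b x = 0`, `bf v y = 0`, `bf b y = 1` (the polar form is nondegenerate: choose indices `i`, `j` with `v i * b j ≠ v j * b i` and combinations of `sv (rev i)`, `sv (rev j)`), `M y = v`, `M x = b + Qa b • v`. So the rank is two (`Matrix.rank` is the `finrank` of the range of `mulVecLin`; `finrank_span_eq_card` / `LinearIndependent` of `![v, b]`). Alternative: `M = vecMulVec b (..) + vecMulVec v (..)` gives rank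 at most two.
`eo_mem_Om`, `EO_le_Om`: `mem_Om` (D90, or directly `Subgroup.subset_closure`), `eo_mem`.
-/

namespace OR

noncomputable section

open Classical Matrix CF

variable {n : ℕ} {F : Type} [Field F] [Finite F] [CharP F 2]

/-- equations with two independent vectors -/
private theorem E03_sol {v b : Fin n → F} {i j : Fin n} (hD : v i * b j - v j * b i ≠ 0) (s t : F) :
    ∃ x : Fin n → F, bf v x = s ∧ bf b x = t := by
  refine ⟨((s * b j - t * v j) / (v i * b j - v j * b i)) • sv (Fin.rev i) +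
    ((t * v i - s * b i) / (v i * b j - v j * b i)) • sv (Fin.rev j), ?_, ?_⟩
  · rw [bf_add_right, bf_smul_right, bf_smul_right, bf_sv_right, bf_sv_right, Fin.rev_rev, Fin.rev_rev,
      div_mul_eq_mul_div, div_mul_eq_mul_div, ← add_div, div_eq_iff hD]
    ring
  · rw [bf_add_right, bf_smul_right, bf_smul_right, bf_sv_right, bf_sv_right, Fin.rev_rev, Fin.rev_rev,
      div_mul_eq_mul_div, div_mul_eq_mul_div, ← add_div, div_eq_iff hD]
    ring

theorem eo_rank (hn : Even n) {a : F} {v b : Fin n → F} (hv : Qa n a v = 0) (hb : bf v b = 0) :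
    Even ((eo a v b : Matrix (Fin n) (Fin n) F) - 1).rank := by
  by_cases hv0 : v = 0
  · rw [hv0, eo_zero_left a hn b, Units.val_one, sub_self, Matrix.rank_zero]
    exact ⟨0, rfl⟩
  by_cases hbv : ∃ l : F, b = l • v
  · obtain ⟨l, hl⟩ := hbv
    have h := eo_shift hn hv (bf_zero_right v) l
    rw [zero_add, eo_zero_right a hn] at h
    rw [hl, h, Units.val_one, sub_self, Matrix.rank_zero]
    exact ⟨0, rfl⟩
  obtain ⟨i, hi⟩ : ∃ i, v i ≠ 0 := by
    by_contra hcon
    push Not at hcon
    exact hv0 (funext hcon)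
  obtain ⟨j, hj⟩ : ∃ j, v i * b j - v j * b i ≠ 0 := by
    by_contra hcon
    push Not at hcon
    apply hbv
    refine ⟨b i / v i, funext fun j => ?_⟩
    have h1 := hcon j
    rw [Pi.smul_apply, smul_eq_mul, div_mul_eq_mul_div, eq_div_iff hi]
    linear_combination h1
  have hM : ∀ x, ((eo a v b : Matrix (Fin n) (Fin n) F) - 1).mulVecLin x =
      bf v x • b + (bf b x + Qa n a b * bf v x) • v := by
    intro x
    have h1 := mv_eo hn a hb x
    unfold mv at h1
    rw [Matrix.mulVecLin_apply, Matrix.sub_mulVec, Matrix.one_mulVec, h1]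
    ext k
    simp only [Pi.add_apply, Pi.sub_apply, Pi.smul_apply, smul_eq_mul]
    ring
  have hli : LinearIndependent F ![v, b] := by
    rw [LinearIndependent.pair_iff]
    intro s t hst
    have h1 := congrFun hst i
    have h2 := congrFun hst j
    simp only [Pi.add_apply, Pi.smul_apply, smul_eq_mul, Pi.zero_apply] at h1 h2
    have ht : t * (v i * b j - v j * b i) = 0 := by linear_combination v i * h2 - v j * h1
    have ht0 : t = 0 := (mul_eq_zero.1 ht).resolve_right hj
    rw [ht0, zero_mul, add_zero] at h1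
    exact ⟨(mul_eq_zero.1 h1).resolve_right hi, ht0⟩
  have hrange : LinearMap.range ((eo a v b : Matrix (Fin n) (Fin n) F) - 1).mulVecLin =
      Submodule.span F (Set.range ![v, b]) := by
    apply le_antisymm
    · rintro _ ⟨x, rfl⟩
      rw [hM]
      exact Submodule.add_mem _ (Submodule.smul_mem _ _ (Submodule.subset_span ⟨1, rfl⟩))
        (Submodule.smul_mem _ _ (Submodule.subset_span ⟨0, rfl⟩))
    · rw [Submodule.span_le]
      rintro _ ⟨k, rfl⟩
      fin_cases k
      · obtain ⟨y, h1, h2⟩ := E03_sol hj 0 1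
        refine ⟨y, ?_⟩
        rw [hM, h1, h2, zero_smul, mul_zero, add_zero, one_smul, zero_add]
        rfl
      · obtain ⟨x, h1, h2⟩ := E03_sol hj 1 (Qa n a b)
        refine ⟨x, ?_⟩
        rw [hM, h1, h2, one_smul, mul_one, CharTwo.add_self_eq_zero, zero_smul, add_zero]
        rfl
  have hrank : ((eo a v b : Matrix (Fin n) (Fin n) F) - 1).rank = 2 := by
    show Module.finrank F (LinearMap.range ((eo a v b : Matrix (Fin n) (Fin n) F) - 1).mulVecLin) = 2
    rw [hrange, finrank_span_eq_card hli]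
    rfl
  rw [hrank]
  exact ⟨1, rfl⟩

theorem eo_mem_Om (hn : Even n) {a : F} {v b : Fin n → F} (hv : Qa n a v = 0) (hb : bf v b = 0) :
    eo a v b ∈ Om n a :=
  Subgroup.subset_closure ⟨eo_mem hn hv hb, eo_rank hn hv hb⟩

theorem EO_le_Om (hn : Even n) (a : F) : EO n a ≤ Om n a := by
  rw [EO, Subgroup.closure_le]
  rintro g ⟨v, b, hv, hb, rfl⟩
  exact eo_mem_Om hn hv hb

omit [Finite F] in
private theorem E03_inv (hn : Even n) {a : F} {x : GL (Fin n) F} (hx : x ∈ OQ n a) :
    Even (((x⁻¹ : GL (Fin n) F) : Matrix (Fin n) (Fin n) F) - 1).rank ↔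
      Even ((x : Matrix (Fin n) (Fin n) F) - 1).rank := by
  have h := par_mul hn hx (Subgroup.inv_mem _ hx)
  rw [mul_inv_cancel, Units.val_one, sub_self, Matrix.rank_zero] at h
  have h0 : Even 0 := ⟨0, rfl⟩
  have h1 := h.1 h0
  exact h1.symm

/-- the commutators of isometries are in `Om n a` (`par_mul`, `mem_Om`) -/
theorem OQ_comm (hn : Even n) {a : F} {x y : GL (Fin n) F} (hx : x ∈ OQ n a) (hy : y ∈ OQ n a) :
    x * y * x⁻¹ * y⁻¹ ∈ Om n a := by
  have hx' := Subgroup.inv_mem _ hx
  have hy' := Subgroup.inv_mem _ hy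
  have hxy := Subgroup.mul_mem _ hx hy
  have hxyx := Subgroup.mul_mem _ hxy hx'
  rw [mem_Om hn]
  refine ⟨Subgroup.mul_mem _ hxyx hy', ?_⟩
  rw [par_mul hn hxyx hy', par_mul hn hxy hx', par_mul hn hx hy, E03_inv hn hx, E03_inv hn hy]
  tauto

theorem Om_conj (hn : Even n) {a : F} {g x : GL (Fin n) F} (hg : g ∈ OQ n a) (hx : x ∈ Om n a) :
    g * x * g⁻¹ ∈ Om n a := by
  rw [mem_Om hn] at hx ⊢
  obtain ⟨hx1, hx2⟩ := hx
  have hg' := Subgroup.inv_mem _ hg
  have hgx := Subgroup.mul_mem _ hg hx1
  refine ⟨Subgroup.mul_mem _ hgx hg', ?_⟩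
  rw [par_mul hn hgx hg', par_mul hn hg hx1, E03_inv hn hg]
  tauto

end

end OR
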