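import Pool.Agent.OR.E02
import Pool.Agent.CF.W04

/-!
# MP_6c3636_al, OR, module E04: singular vectors (stub of helper40)

`exists_one`: `p i ≠ 0`, `x = (p i)⁻¹ • sv (rev i)` (`W04_aux.exists_ne`, `W04_aux.sv_mem`). `exists_perp`: scale such that `bf p q = 1` (replace `q` by `(bf p q)⁻¹ • q`). For `x ∈ Wk` let `π x = x + bf q x • p + bf p x • q ∈ Wk`; `bf p (π x) = 0 = bf q (π x)` (`bf_self`, `bf_comm`). Suppose `Qa (π x) = 0` for all `x ∈ Wk`; then by `Qa_add` (`π` is additive) `0 = bf (π x) (π y) = bf x y + bf q x * bf p y + bf p x * bf q y` for `x, y ∈ Wk`. Apply this to the pairs out of the four standard vectors `sv i` with `i = k, k + 1, rev k, rev (k + 1)` (all in `Wk` because `2 * k + 4 ≤ n`): with `α i = bf p (sv i)`, `β i = bf q (sv i)`, `M i j = β i * α j + α i * β j` one has `M (k) (rev k) = 1 = M (k+1) (rev (k+1))` and `M (k) (k+1) = M (k) (rev (k+1)) = 0`, ... but `M 1 2 * M 3 4 + M 1 3 * M 2 4 + M 1 4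 * M 2 3 = 0` (`ring` and characteristic two) gives `1 = 0`.
`exists_third_o`: (1) `bf p q = 0`: choose `s ∈ Wk` with `bf s p ≠ 0 ≠ bf s q` (`W04_aux.exists_s` for `RingEquiv.refl F`), `r = s + l • p` with `l = Qa s * (bf s p)⁻¹` (`Qa_add`, `Qa_smul`). (2) `bf p q ≠ 0`: choose `b` by `exists_perp`, `r = l • p + q + b` with `l * bf p q = Qa b`: `Qa r = l * bf p q + Qa b = 0`, `bf r p = bf q p ≠ 0`, `bf r q = l * bf p q = Qa b ≠ 0`.
`exists_partner_o`: `x` with `bf v x = 1`, `v' = x + Qa x • v`.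
-/

namespace OR

noncomputable section

open Classical Matrix CF

variable {n : ℕ} {F : Type} [Field F] [Finite F] [CharP F 2]

theorem exists_one {k : ℕ} {p : Fin n → F} (hp : p ∈ Wk n k F) (hp0 : p ≠ 0) :
    ∃ x ∈ Wk n k F, bf p x = 1 := by
  obtain ⟨i, hi⟩ := W04_aux.exists_ne hp0
  refine ⟨(p i)⁻¹ • sv (Fin.rev i), Submodule.smul_mem _ _ (W04_aux.sv_mem hp hi), ?_⟩
  rw [bf_smul_right, bf_sv_right, Fin.rev_rev, inv_mul_cancel₀ hi]

namespace E04_aux

omit [Finite F] [CharP F 2] in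
theorem sv_memW {k : ℕ} {i : Fin n} (h : k ≤ (i : ℕ) ∧ (i : ℕ) + k < n) : (sv i : Fin n → F) ∈ Wk n k F := by
  intro j hj
  have hne : j ≠ i := by
    rintro rfl
    exact hj h
  exact Pi.single_eq_of_ne hne 1

end E04_aux

theorem exists_perp (hn : Even n) (a : F) {k : ℕ} (hk : 2 * k + 4 ≤ n) {p q : Fin n → F}
    (hp : p ∈ Wk n k F) (hq : q ∈ Wk n k F) (hpq : bf p q ≠ 0) :
    ∃ b ∈ Wk n k F, bf p b = 0 ∧ bf q b = 0 ∧ Qa n a b ≠ 0 := by
  by_contra hcon
  have hc : ∀ b ∈ Wk n k F, bf p b = 0 → bf q b = 0 → Qa n a b = 0 := by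
    intro b hb h1 h2
    by_contra h3
    exact hcon ⟨b, hb, h1, h2, h3⟩
  have h2 : (2 : F) = 0 := CharTwo.two_eq_zero
  have hcc : bf p q * (bf p q)⁻¹ = 1 := mul_inv_cancel₀ hpq
  have hqp : bf q p = bf p q := bf_comm q p
  obtain ⟨π, hπ⟩ : ∃ π : (Fin n → F) → Fin n → F,
      ∀ x, π x = x + ((bf p q)⁻¹ * bf q x) • p + ((bf p q)⁻¹ * bf p x) • q := ⟨_, fun _ => rfl⟩
  have hπW : ∀ x ∈ Wk n k F, π x ∈ Wk n k F := by
    intro x hx
    rw [hπ]
    exact Submodule.add_mem _ (Submodule.add_mem _ hx (Submodule.smul_mem _ _ hp)) (Submodule.smul_mem _ _ hq)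
  have hπp : ∀ x, bf p (π x) = 0 := by
    intro x
    rw [hπ, bf_add_right, bf_add_right, bf_smul_right, bf_smul_right, bf_self hn]
    linear_combination bf p x * hcc + bf p x * h2
  have hπq : ∀ x, bf q (π x) = 0 := by
    intro x
    rw [hπ, bf_add_right, bf_add_right, bf_smul_right, bf_smul_right, bf_self hn, hqp]
    linear_combination bf q x * hcc + bf q x * h2
  have h0 : ∀ x ∈ Wk n k F, Qa n a (π x) = 0 := fun x hx => hc _ (hπW x hx) (hπp x) (hπq x)
  have hadd : ∀ x y, π (x + y) = π x + π y := by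
    intro x y
    rw [hπ, hπ, hπ, bf_add_right, bf_add_right, mul_add, mul_add, add_smul, add_smul]
    abel
  have h1 : ∀ x ∈ Wk n k F, ∀ y ∈ Wk n k F, bf (π x) (π y) = 0 := by
    intro x hx y hy
    have h3 := h0 (x + y) (Submodule.add_mem _ hx hy)
    rw [hadd, Qa_add hn, h0 x hx, h0 y hy, add_zero, zero_add] at h3
    exact h3
  have hM : ∀ x ∈ Wk n k F, ∀ y ∈ Wk n k F,
      bf x y = (bf p q)⁻¹ * (bf q x * bf p y + bf p x * bf q y) := by
    intro x hx y hy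
    have h3 := h1 x hx y hy
    rw [hπ y, bf_add_right, bf_add_right, bf_smul_right, bf_smul_right, bf_comm (π x) p, bf_comm (π x) q,
      hπp, hπq, hπ x, bf_add_left, bf_add_left, bf_smul_left, bf_smul_left] at h3
    linear_combination h3 - (bf p q)⁻¹ * (bf q x * bf p y + bf p x * bf q y) * h2
  have hk1 : k < n := by omega
  have hk2 : k + 1 < n := by omega
  set i₁ : Fin n := ⟨k, hk1⟩ with hi1
  set i₂ : Fin n := ⟨k + 1, hk2⟩ with hi2
  have v1 : (i₁ : ℕ) = k := rfl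
  have v2 : (i₂ : ℕ) = k + 1 := rfl
  have v3 : ((Fin.rev i₁ : Fin n) : ℕ) = n - (k + 1) := by rw [Fin.val_rev, v1]
  have v4 : ((Fin.rev i₂ : Fin n) : ℕ) = n - (k + 1 + 1) := by rw [Fin.val_rev, v2]
  have m1 : (sv i₁ : Fin n → F) ∈ Wk n k F := E04_aux.sv_memW (by omega)
  have m2 : (sv i₂ : Fin n → F) ∈ Wk n k F := E04_aux.sv_memW (by omega)
  have m3 : (sv (Fin.rev i₁) : Fin n → F) ∈ Wk n k F := E04_aux.sv_memW (by omega)
  have m4 : (sv (Fin.rev i₂) : Fin n → F) ∈ Wk n k F := E04_aux.sv_memW (by omega)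
  have n12 : bf (sv i₁ : Fin n → F) (sv i₂) = 0 := by
    rw [bf_sv_left]
    apply Pi.single_eq_of_ne
    intro h
    have := congrArg (Fin.val) h
    omega
  have n13 : bf (sv i₁ : Fin n → F) (sv (Fin.rev i₁)) = 1 := by
    rw [bf_sv_left]
    exact Pi.single_eq_same _ _
  have n14 : bf (sv i₁ : Fin n → F) (sv (Fin.rev i₂)) = 0 := by
    rw [bf_sv_left]
    apply Pi.single_eq_of_ne
    intro h
    have := congrArg (Fin.val) h
    omega
  have n24 : bf (sv i₂ : Fin n → F) (sv (Fin.rev i₂)) = 1 := by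
    rw [bf_sv_left]
    exact Pi.single_eq_same _ _
  have g12 := hM _ m1 _ m2
  have g13 := hM _ m1 _ m3
  have g14 := hM _ m1 _ m4
  have g24 := hM _ m2 _ m4
  rw [n12] at g12
  rw [n13] at g13
  rw [n14] at g14
  rw [n24] at g24
  generalize bf q (sv i₁ : Fin n → F) = b1 at g12 g13 g14 g24
  generalize bf p (sv i₁ : Fin n → F) = a1 at g12 g13 g14 g24
  generalize bf q (sv i₂ : Fin n → F) = b2 at g12 g13 g14 g24
  generalize bf p (sv i₂ : Fin n → F) = a2 at g12 g13 g14 g24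
  generalize bf q (sv (Fin.rev i₁) : Fin n → F) = b3 at g12 g13 g14 g24
  generalize bf p (sv (Fin.rev i₁) : Fin n → F) = a3 at g12 g13 g14 g24
  generalize bf q (sv (Fin.rev i₂) : Fin n → F) = b4 at g12 g13 g14 g24
  generalize bf p (sv (Fin.rev i₂) : Fin n → F) = a4 at g12 g13 g14 g24
  have hone : (1 : F) = 0 := by
    linear_combination g13 + ((bf p q)⁻¹ * (b1 * a3 + a1 * b3)) * g24 +
      ((bf p q)⁻¹ * (b3 * a4 + a3 * b4)) * g12 + ((bf p q)⁻¹ * (b2 * a3 + a2 * b3)) * g14 +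
      ((bf p q)⁻¹ ^ 2 * (b1 * a2 * b3 * a4 + b1 * a2 * a3 * b4 + a1 * b2 * b3 * a4 + a1 * b2 * a3 * b4 +
        b1 * a3 * b2 * a4 + a1 * b3 * a2 * b4)) * h2
  exact one_ne_zero hone

theorem exists_third_o (hn : Even n) {a : F} {k : ℕ} (hk : 2 * k + 4 ≤ n) {p q : Fin n → F}
    (hp : p ∈ Wk n k F) (hq : q ∈ Wk n k F) (hp0 : p ≠ 0) (hq0 : q ≠ 0) (hpp : Qa n a p = 0)
    (hqq : Qa n a q = 0) :
    ∃ r ∈ Wk n k F, Qa n a r = 0 ∧ bf r p ≠ 0 ∧ bf r q ≠ 0 := by
  by_cases hpq : bf p q = 0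
  · obtain ⟨s, hs, h1, h2⟩ := W04_aux.exists_s (RingEquiv.refl F) hp hq hp0 hq0
    rw [bf_eq] at h1 h2
    refine ⟨s + (Qa n a s * (bf s p)⁻¹) • p, Submodule.add_mem _ hs (Submodule.smul_mem _ _ hp), ?_, ?_, ?_⟩
    · rw [Qa_add hn, Qa_smul, hpp, bf_smul_right, mul_zero, add_zero, inv_mul_cancel_right₀ h1]
      exact CharTwo.add_self_eq_zero _
    · rw [bf_add_left, bf_smul_left, bf_self hn, mul_zero, add_zero]
      exact h1
    · rw [bf_add_left, bf_smul_left, hpq, mul_zero, add_zero]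
      exact h2
  · obtain ⟨b, hb, h1, h2, h3⟩ := exists_perp hn a hk hp hq hpq
    refine ⟨(Qa n a b * (bf p q)⁻¹) • p + q + b,
      Submodule.add_mem _ (Submodule.add_mem _ (Submodule.smul_mem _ _ hp) hq) hb, ?_, ?_, ?_⟩
    · rw [Qa_add hn, Qa_add hn, Qa_smul, hpp, hqq, bf_smul_left, bf_add_left, bf_smul_left, h1, h2, mul_zero,
        mul_zero, add_zero, add_zero, zero_add, inv_mul_cancel_right₀ hpq]
      exact CharTwo.add_self_eq_zero _
    · rw [bf_add_left, bf_add_left, bf_smul_left, bf_self hn, bf_comm b p, h1, mul_zero, add_zero, zero_add,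
        bf_comm]
      exact hpq
    · rw [bf_add_left, bf_add_left, bf_smul_left, bf_self hn, bf_comm b q, h2, add_zero, add_zero,
        inv_mul_cancel_right₀ hpq]
      exact h3

theorem exists_partner_o (hn : Even n) {a : F} {v : Fin n → F} (hv0 : v ≠ 0) (hv : Qa n a v = 0) :
    ∃ v' : Fin n → F, Qa n a v' = 0 ∧ bf v v' = 1 := by
  have hvW : v ∈ Wk n 0 F := by
    intro i hi
    exact absurd ⟨Nat.zero_le _, by omega⟩ hi
  obtain ⟨x, -, hx⟩ := exists_one hvW hv0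
  refine ⟨x + Qa n a x • v, ?_, ?_⟩
  · rw [Qa_add hn, Qa_smul, hv, bf_smul_right, bf_comm x v, hx, mul_zero, add_zero, mul_one]
    exact CharTwo.add_self_eq_zero _
  · rw [bf_add_right, bf_smul_right, bf_self hn, hx, mul_zero, add_zero]

end

end OR
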