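import Pool.Agent.OR.E04

/-!
# MP_6c3636_al, OR, module E05: subgroups with a non orthogonal conjugate (stub of helper40)

As `CF.tits_ei` (CF/W05, please copy and adapt). Let `Z = {q : ∃ y ∈ X, ∃ c ≠ 0, q = c • mv y p}`. (a) If `q = c • mv y p ∈ Z` then all `eo a q b`, `bf q b = 0`, are in `X`: `eo_smul`, and `eo a (mv y p) b' = y * eo a p (mv y⁻¹ b') * y⁻¹` (`eo_conj`). (b) If `Qa w = 0` and `bf p w ≠ 0` then `w ∈ Z`: choose `c` with `bf p (c • mv x p) = bf p w` (`bf p (mv x p) ≠ 0`), and `eo_move` for `v = p` maps `c • mv x p` (singular) to `w` by an element of `X`. (c) Let `q ≠ 0`, `Qa q = 0`. By `exists_third_o` (`k = 0`, `Wk n 0 F` is everything; `p ≠ 0` because of `hne`) there is `w` with `Qa w = 0`, `bf w p ≠ 0`, `bf w q ≠ 0`. By (b) `w = c • mv y p`, so `bf p (mv y⁻¹ q) ≠ 0` (`OQ_bf`), and by (b) `mv y⁻¹ q ∈ Z`, `q ∈ Z`. So `Z` contains all nonzero singular vectors, and `EO n a ≤ X` by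 (a) (`Subgroup.closure_le`; `eo_zero_left` if `v = 0`).
`EO_first`: `b = sv i + sv (rev i)` for a middle index `i` (`(i : ℕ) = n / 2 - 1`); `Qa b = a + a + 1 = 1`, `bf (sv (rev i0)) b = 0`; `x = eo a (sv (rev i0)) b` maps `sv i0` to `sv i0 + b + sv (rev i0)`.
`EO_trans`: `tits_eo` for `X = EO n a`, `p = sv i0`, `EO_first`.
-/

namespace OR

noncomputable section

open Classical Matrix CF

variable {n : ℕ} {F : Type} [Field F] [Finite F] [CharP F 2]

theorem tits_eo (hn : Even n) (h4 : 4 ≤ n) {a : F} (X : Subgroup (GL (Fin n) F)) (hX : X ≤ OQ n a)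
    {p : Fin n → F} (hp : Qa n a p = 0) (h0 : ∀ b, bf p b = 0 → eo a p b ∈ X)
    {x : GL (Fin n) F} (hx : x ∈ X) (hne : bf (mv x p) p ≠ 0) :
    EO n a ≤ X ∧ ∀ q, q ≠ 0 → Qa n a q = 0 → ∃ y ∈ X, ∃ c : F, c ≠ 0 ∧ q = c • mv y p := by
  have hp0 : p ≠ 0 := by
    rintro rfl
    exact hne (bf_zero_right _)
  -- (b)
  have hb : ∀ w, Qa n a w = 0 → bf p w ≠ 0 → ∃ y ∈ X, ∃ c : F, c ≠ 0 ∧ w = c • mv y p := by
    intro w hw hpw
    have ht : bf p (mv x p) ≠ 0 := by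
      rw [bf_comm]
      exact hne
    obtain ⟨c, hc⟩ : ∃ c : F, c = bf p w / bf p (mv x p) := ⟨_, rfl⟩
    have hc0 : c ≠ 0 := by
      rw [hc]
      exact div_ne_zero hpw ht
    have h1 : bf p (c • mv x p) = bf p w := by
      rw [bf_smul_right, hc, div_mul_cancel₀ _ ht]
    have h2 : Qa n a (c • mv x p) = Qa n a w := by
      rw [Qa_smul, hX hx, hp, mul_zero, hw]
    obtain ⟨h3, h5⟩ := eo_move hn h2 h1 (by rw [h1]; exact hpw)
    refine ⟨eo a p ((bf p (c • mv x p))⁻¹ • (c • mv x p + w)) * x, X.mul_mem (h0 _ h3) hx, c, hc0, ?_⟩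
    rw [mv_mul, ← mv_smul, h5]
  -- (c)
  have hcq : ∀ q, q ≠ 0 → Qa n a q = 0 → ∃ y ∈ X, ∃ c : F, c ≠ 0 ∧ q = c • mv y p := by
    intro q hq0 hqq
    have hWk : ∀ v : Fin n → F, v ∈ Wk n 0 F := by
      intro v
      rw [mem_Wk]
      intro i hi
      exact absurd ⟨Nat.zero_le _, by simp [i.2]⟩ hi
    obtain ⟨r, -, hrr, hrp, hrq⟩ := exists_third_o hn (k := 0) (by omega) (hWk p) (hWk q) hp0 hq0 hp hqq
    have hpr : bf p r ≠ 0 := by
      rw [bf_comm]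
      exact hrp
    obtain ⟨y, hy, c, hc0, rfl⟩ := hb r hrr hpr
    have h1 : bf (mv y p) q ≠ 0 := by
      intro h
      apply hrq
      rw [bf_smul_left, h, mul_zero]
    have hyU := hX hy
    have h2 : bf p (mv y⁻¹ q) ≠ 0 := by
      rw [← OQ_bf hn hyU p (mv y⁻¹ q), mv_inv']
      exact h1
    have h3 : Qa n a (mv y⁻¹ q) = 0 := by
      rw [(OQ n a).inv_mem hyU, hqq]
    obtain ⟨y', hy', c', hc', h4⟩ := hb _ h3 h2
    refine ⟨y * y', X.mul_mem hy hy', c', hc', ?_⟩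
    rw [mv_mul, ← mv_smul, ← h4, mv_inv']
  refine ⟨?_, hcq⟩
  unfold EO
  rw [Subgroup.closure_le]
  rintro g ⟨v, b, hv, hvb, rfl⟩
  by_cases hv0 : v = 0
  · subst hv0
    rw [eo_zero_left a hn]
    exact X.one_mem
  · obtain ⟨y, hy, c, hc0, rfl⟩ := hcq v hv0 hv
    have h1 : bf (mv y p) b = 0 := by
      rw [bf_smul_left] at hvb
      exact (mul_eq_zero.1 hvb).resolve_left hc0
    have h2 : bf p (mv y⁻¹ (c • b)) = 0 := by
      rw [← OQ_bf hn (hX hy), mv_inv', bf_smul_right, h1, mul_zero]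
    have h3 := eo_conj hn (hX hy) h2
    rw [mv_inv'] at h3
    show eo a (c • mv y p) b ∈ X
    rw [eo_smul hn a h1, ← h3]
    exact X.mul_mem (X.mul_mem hy (h0 _ h2)) (X.inv_mem hy)

/-- an element of `EO n a` which moves the first standard vector to a vector not orthogonal to it -/
theorem EO_first (hn : Even n) (h4 : 4 ≤ n) (a : F) {i0 : Fin n} (h0 : (i0 : ℕ) = 0) :
    ∃ x ∈ EO n a, ∃ b : Fin n → F, b i0 = 0 ∧ b (Fin.rev i0) = 0 ∧
      mv x (sv i0) = sv i0 + b + sv (Fin.rev i0) := by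
  obtain ⟨i, hi⟩ : ∃ i : Fin n, (i : ℕ) = n / 2 - 1 := ⟨⟨n / 2 - 1, by omega⟩, rfl⟩
  have hm : Mid n i := by
    left
    omega
  have hm' : Mid n (Fin.rev i) := (Mid_rev hn).2 hm
  have hi0 : i ≠ i0 := by
    intro h
    rw [h] at hi
    omega
  have hi1 : Fin.rev i ≠ i0 := by
    intro h
    have h5 : ((Fin.rev i : Fin n) : ℕ) = 0 := by rw [h, h0]
    rw [Fin.val_rev] at h5
    have := i.2
    omega
  obtain ⟨b, hb⟩ : ∃ b : Fin n → F, b = sv i + sv (Fin.rev i) := ⟨_, rfl⟩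
  have e1 : b i0 = 0 := by
    rw [hb, Pi.add_apply, sv, sv, Pi.single_eq_of_ne hi0.symm, Pi.single_eq_of_ne hi1.symm, add_zero]
  have e2 : b (Fin.rev i0) = 0 := by
    have h5 : Fin.rev i0 ≠ i := fun h => hi1 (by rw [← h, Fin.rev_rev])
    have h6 : Fin.rev i0 ≠ Fin.rev i := fun h => hi0 (Fin.rev_injective h).symm
    rw [hb, Pi.add_apply, sv, sv, Pi.single_eq_of_ne h5, Pi.single_eq_of_ne h6, add_zero]
  have hq : Qa n a b = 1 := by
    rw [hb, Qa_add hn, Qa_sv_mid a hn hm, Qa_sv_mid a hn hm', CharTwo.add_self_eq_zero, zero_add, bf_sv_left,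
      sv, Pi.single_eq_same]
  have hs : Qa n a (sv (Fin.rev i0)) = 0 := by
    apply Qa_sv a hn
    rw [Mid_rev hn]
    intro h
    unfold Mid at h
    omega
  have hp : bf (sv (Fin.rev i0)) b = 0 := by
    rw [bf_sv_left, Fin.rev_rev, e1]
  refine ⟨eo a (sv (Fin.rev i0)) b, eo_mem_EO hs hp, b, e1, e2, ?_⟩
  have h5 : bf (sv (Fin.rev i0)) (sv i0 : Fin n → F) = 1 := by
    rw [bf_sv_left, Fin.rev_rev, sv, Pi.single_eq_same]
  have h6 : bf b (sv i0 : Fin n → F) = 0 := by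
    rw [bf_sv_right, e2]
  rw [mv_eo hn a hp, h5, h6, hq, one_smul, zero_smul, add_zero, mul_one, one_smul]

theorem EO_trans (hn : Even n) (h4 : 4 ≤ n) {a : F} {i0 : Fin n} (h0 : (i0 : ℕ) = 0) {q : Fin n → F}
    (hq0 : q ≠ 0) (hq : Qa n a q = 0) : ∃ y ∈ EO n a, ∃ c : F, c ≠ 0 ∧ q = c • mv y (sv i0) := by
  obtain ⟨x, hx, b, h1, h2, h3⟩ := EO_first (F := F) hn h4 a h0
  have hs : Qa n a (sv i0) = 0 := by
    apply Qa_sv a hn
    intro h
    unfold Mid at h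
    omega
  refine (tits_eo hn h4 (EO n a) (EO_le_OQ hn a) hs (fun b hb => eo_mem_EO hs hb) hx ?_).2 q hq0 hq
  rw [h3, bf_add_left, bf_add_left, bf_sv_left, bf_sv_right, bf_sv_left, Fin.rev_rev, h2, sv,
    Pi.single_eq_of_ne (rev_ne hn i0), Pi.single_eq_same, zero_add, zero_add]
  exact one_ne_zero

end

end OR
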