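import Pool.Agent.OR.E04
import Pool.Agent.CF.W06

/-!
# MP_6c3636_al, OR, module E06: every isometry is the product of an element of EO and a block diagonal matrix (helper13)

As `CF.ug_decomp` (CF/W06), but only up to the middle plane. Induction on `k`, claim for all `k` with `2 * k + 2 ≤ n`
(if `n = 0` then `y = 1`, `t = g`): there is `y ∈ EO n a` such that `h = y * g` maps `sv j` and `sv (rev j)` to multiples
of themselves for all `j` with `(j : ℕ) < k`. Step from `k` to `k + 1`, `2 * k + 4 ≤ n`: the vector `q = mv h (sv k)` is in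
`Wk n k F`, nonzero and singular. `exists_third_o` gives a singular `r ∈ Wk` with `bf r (sv k) ≠ 0`, `bf r q ≠ 0`;
`eo_move` (`v = r`) maps a multiple of `q` to `sv k` and fixes the outer standard vectors (`eo_fix`). So we may assume that
`h (sv k)` is a multiple of `sv k`; then `w = h (sv (rev k))` is singular, in `Wk n k F`, `bf (sv k) w ≠ 0`, and `eo_move`
(`v = sv k`) maps `w` to a multiple of `sv (rev k)`; it fixes `sv k` and the outer standard vectors.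
End: `k = n / 2 - 1`. All `sv j` with `j` not a middle index are mapped to multiples of themselves; for a middle index `j`
the vector `h (sv j)` is in `Wk n (n / 2 - 1) F`, the span of the two middle standard vectors. So `IsT h`.
-/

namespace OR

noncomputable section

open Classical Matrix CF

variable {n : ℕ} {F : Type} [Field F] [Finite F] [CharP F 2]

omit [Finite F] [CharP F 2] in
private theorem sv_self (i : Fin n) : (sv i : Fin n → F) i = 1 := by
  rw [sv, Pi.single_eq_same]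

omit [Finite F] [CharP F 2] in
private theorem sv_ne {i j : Fin n} (h : j ≠ i) : (sv i : Fin n → F) j = 0 := by
  rw [sv, Pi.single_eq_of_ne h]

omit [Finite F] [CharP F 2] in
private theorem sv_ne_zero (i : Fin n) : (sv i : Fin n → F) ≠ 0 := by
  intro h
  have h1 := congrFun h i
  rw [sv_self] at h1
  exact one_ne_zero h1

omit [Finite F] [CharP F 2] in
private theorem sv_Wk {k : ℕ} {i : Fin n} (h : k ≤ (i : ℕ) ∧ (i : ℕ) + k < n) :
    (sv i : Fin n → F) ∈ Wk n k F := by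
  rw [mem_Wk]
  intro j hj
  apply sv_ne
  rintro rfl
  exact hj h

private theorem out_rev {k : ℕ} {i : Fin n} (h : ¬ (k ≤ (i : ℕ) ∧ (i : ℕ) + k < n)) :
    ¬ (k ≤ (Fin.rev i : ℕ) ∧ (Fin.rev i : ℕ) + k < n) := by
  have h1 := i.isLt
  have h2 : ((Fin.rev i : Fin n) : ℕ) = n - (i + 1) := Fin.val_rev i
  omega

/-- `h` maps the outer standard vectors to multiples -/
private def Mu (k : ℕ) (h : GL (Fin n) F) : Prop :=
  ∀ j : Fin n, ¬ (k ≤ (j : ℕ) ∧ (j : ℕ) + k < n) → ∃ c : F, mv h (sv j) = c • (sv j : Fin n → F)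

omit [Finite F] [CharP F 2] in
private theorem mv_ne_zero {h : GL (Fin n) F} {x : Fin n → F} (hx : x ≠ 0) : mv h x ≠ 0 := by
  intro h0
  apply hx
  have h1 := mv_inv h x
  rw [h0, mv_zero] at h1
  exact h1.symm

omit [Finite F] in
private theorem Mu_Wk (hn : Even n) {a : F} {k : ℕ} {h : GL (Fin n) F} (hU : h ∈ OQ n a) (hM : Mu k h)
    {x : Fin n → F} (hx : x ∈ Wk n k F) : mv h x ∈ Wk n k F := by
  rw [mem_Wk] at hx ⊢
  intro i hi
  obtain ⟨c, hc⟩ := hM (Fin.rev i) (out_rev hi)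
  have hc0 : c ≠ 0 := by
    rintro rfl
    rw [zero_smul] at hc
    exact mv_ne_zero (sv_ne_zero _) hc
  have h1 : bf (mv h (sv (Fin.rev i))) (mv h x) = bf (sv (Fin.rev i)) x := OQ_bf hn hU _ _
  rw [hc, bf_smul_left, bf_sv_left, bf_sv_left, Fin.rev_rev, hx i hi] at h1
  exact (mul_eq_zero.1 h1).resolve_left hc0

omit [Finite F] [CharP F 2] in
private theorem bf_Wk_sv {k : ℕ} {x : Fin n → F} (hx : x ∈ Wk n k F) {j : Fin n}
    (hj : ¬ (k ≤ (j : ℕ) ∧ (j : ℕ) + k < n)) : bf x (sv j) = 0 := by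
  rw [bf_sv_right, mem_Wk.1 hx _ (out_rev hj)]

private theorem Mu_step (hn : Even n) {a : F} {k : ℕ} (hk : 2 * k + 4 ≤ n)
    {h : GL (Fin n) F} (hU : h ∈ OQ n a) (hM : Mu k h) :
    ∃ y ∈ EO n a, Mu (k + 1) (y * h) := by
  have hkn : k < n := by omega
  obtain ⟨j0, hj0⟩ : ∃ j0 : Fin n, (j0 : ℕ) = k := ⟨⟨k, hkn⟩, rfl⟩
  have hr0 : ((Fin.rev j0 : Fin n) : ℕ) = n - (k + 1) := by rw [Fin.val_rev, hj0]
  have hne : j0 ≠ Fin.rev j0 := by
    intro h1
    have h2 : (j0 : ℕ) = (Fin.rev j0 : Fin n) := congrArg Fin.val h1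
    omega
  have hm0 : ¬ Mid n j0 := by
    unfold Mid
    omega
  have hm1 : ¬ Mid n (Fin.rev j0) := by
    rw [Mid_rev hn]
    exact hm0
  have hp : (sv j0 : Fin n → F) ∈ Wk n k F := sv_Wk (by omega)
  have hr : (sv (Fin.rev j0) : Fin n → F) ∈ Wk n k F := sv_Wk (by omega)
  have hpp : Qa n a (sv j0 : Fin n → F) = 0 := Qa_sv a hn hm0
  have hrr : Qa n a (sv (Fin.rev j0) : Fin n → F) = 0 := Qa_sv a hn hm1
  have hpr : bf (sv j0) (sv (Fin.rev j0) : Fin n → F) = 1 := by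
    rw [bf_sv_left, sv_self]
  have hq : mv h (sv j0) ∈ Wk n k F := Mu_Wk hn hU hM hp
  have hqq : Qa n a (mv h (sv j0)) = 0 := by
    rw [hU, hpp]
  obtain ⟨r, hrW, hr0', hrp, hrq⟩ := exists_third_o hn hk hp hq (sv_ne_zero _)
    (mv_ne_zero (sv_ne_zero _)) hpp hqq
  set q := mv h (sv j0) with hqdef
  obtain ⟨c, hc⟩ : ∃ c : F, c * bf r q = bf r (sv j0) :=
    ⟨bf r (sv j0) / bf r q, div_mul_cancel₀ _ hrq⟩
  have hc0 : c ≠ 0 := by
    rintro rfl
    rw [zero_mul] at hc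
    exact hrp hc.symm
  have hcq : Qa n a (c • q) = Qa n a (sv j0 : Fin n → F) := by
    rw [Qa_smul, hqq, hpp, mul_zero]
  have hcb : bf r (c • q) = bf r (sv j0) := by rw [bf_smul_right, hc]
  obtain ⟨hb, hmv⟩ := eo_move hn (v := r) (w := c • q) (w' := sv j0) hcq hcb (by rw [hcb]; exact hrp)
  set b := (bf r (c • q))⁻¹ • (c • q + sv j0) with hbdef
  have hbW : b ∈ Wk n k F := by
    rw [hbdef]
    exact Submodule.smul_mem _ _ (Submodule.add_mem _ (Submodule.smul_mem _ _ hq) hp)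
  set e := eo a r b with he
  have heG : e ∈ EO n a := eo_mem_EO hr0' hb
  have heU : e ∈ OQ n a := EO_le_OQ hn a heG
  have hfix : ∀ j : Fin n, ¬ (k ≤ (j : ℕ) ∧ (j : ℕ) + k < n) → mv e (sv j) = sv j := fun j hj =>
    eo_fix hn a hb (bf_Wk_sv hrW hj) (bf_Wk_sv hbW hj)
  have hM1 : Mu k (e * h) := by
    intro j hj
    obtain ⟨d, hd⟩ := hM j hj
    refine ⟨d, ?_⟩
    rw [mv_mul, hd, mv_smul, hfix j hj]
  have hU1 : e * h ∈ OQ n a := Subgroup.mul_mem _ heU hU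
  have hp1 : mv (e * h) (sv j0) = c⁻¹ • (sv j0 : Fin n → F) := by
    rw [mv_mul, ← hqdef, ← hmv, ← mv_smul, smul_smul, inv_mul_cancel₀ hc0, one_smul]
  set w := mv (e * h) (sv (Fin.rev j0)) with hw
  have hwW : w ∈ Wk n k F := Mu_Wk hn hU1 hM1 hr
  have hww : Qa n a w = 0 := by
    rw [hw, hU1, hrr]
  have hpw : bf (sv j0) w ≠ 0 := by
    have h1 : bf (mv (e * h) (sv j0)) w = 1 := by
      rw [hw, OQ_bf hn hU1, hpr]
    rw [hp1, bf_smul_left] at h1
    intro h2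
    rw [h2, mul_zero] at h1
    exact zero_ne_one h1
  obtain ⟨hb2, hmv2⟩ := eo_move hn (a := a) (v := sv j0) (w := w)
    (w' := bf (sv j0) w • sv (Fin.rev j0))
    (by rw [hww, Qa_smul, hrr, mul_zero])
    (by rw [bf_smul_right, hpr, mul_one]) hpw
  set b2 := (bf (sv j0) w)⁻¹ • (w + bf (sv j0) w • (sv (Fin.rev j0) : Fin n → F)) with hb2def
  have hb2W : b2 ∈ Wk n k F := by
    rw [hb2def]
    exact Submodule.smul_mem _ _ (Submodule.add_mem _ hwW (Submodule.smul_mem _ _ hr))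
  set e2 := eo a (sv j0) b2 with he2
  have he2G : e2 ∈ EO n a := eo_mem_EO hpp hb2
  have hfix2 : ∀ j : Fin n, ¬ (k ≤ (j : ℕ) ∧ (j : ℕ) + k < n) → mv e2 (sv j) = sv j :=
    fun j hj => eo_fix hn a hb2 (bf_Wk_sv hp hj) (bf_Wk_sv hb2W hj)
  have hfix3 : mv e2 (sv j0) = sv j0 := by
    refine eo_fix hn a hb2 (bf_self hn _) ?_
    rw [bf_comm, hb2]
  refine ⟨e2 * e, Subgroup.mul_mem _ he2G heG, ?_⟩
  intro j hj
  rw [mul_assoc]
  by_cases h1 : j = j0
  · refine ⟨c⁻¹, ?_⟩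
    rw [h1, mv_mul, hp1, mv_smul, hfix3]
  by_cases h2 : j = Fin.rev j0
  · refine ⟨bf (sv j0) w, ?_⟩
    rw [h2, mv_mul, ← hw, hmv2]
  have h3 : ¬ (k ≤ (j : ℕ) ∧ (j : ℕ) + k < n) := by
    intro h4
    have h5 : (j : ℕ) ≠ k := fun h5 => h1 (Fin.ext (by rw [h5, hj0]))
    have h6 : (j : ℕ) ≠ n - (k + 1) := fun h6 => h2 (Fin.ext (by rw [h6, hr0]))
    omega
  obtain ⟨d, hd⟩ := hM1 j h3
  refine ⟨d, ?_⟩
  rw [mv_mul, hd, mv_smul, hfix2 j h3]

private theorem Mu_all (hn : Even n) {a : F} (k : ℕ) : 2 * k + 2 ≤ n →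
    ∀ g ∈ OQ n a, ∃ y ∈ EO n a, Mu k (y * g) := by
  induction k with
  | zero =>
    intro _ g _
    refine ⟨1, Subgroup.one_mem _, ?_⟩
    intro j hj
    exfalso
    have h1 := j.isLt
    omega
  | succ k ih =>
    intro hk g hg
    obtain ⟨y, hy, hM⟩ := ih (by omega) g hg
    have hU : y * g ∈ OQ n a := Subgroup.mul_mem _ (EO_le_OQ hn a hy) hg
    obtain ⟨y2, hy2, hM2⟩ := Mu_step hn (by omega) hU hM
    refine ⟨y2 * y, Subgroup.mul_mem _ hy2 hy, ?_⟩
    rw [mul_assoc]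
    exact hM2

theorem oq_decomp (hn : Even n) {a : F} {g : GL (Fin n) F} (hg : g ∈ OQ n a) :
    ∃ y ∈ EO n a, ∃ t ∈ OQ n a, IsT t ∧ g = y * t := by
  by_cases h0 : n = 0
  · refine ⟨1, Subgroup.one_mem _, g, hg, ?_, (one_mul g).symm⟩
    intro i
    exact absurd i.isLt (by omega)
  have hn2 : n % 2 = 0 := Nat.even_iff.1 hn
  obtain ⟨y, hy, hM⟩ := Mu_all hn (n / 2 - 1) (by omega) g hg
  have hU : y * g ∈ OQ n a := Subgroup.mul_mem _ (EO_le_OQ hn a hy) hg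
  refine ⟨y⁻¹, Subgroup.inv_mem _ hy, y * g, hU, ?_, by rw [inv_mul_cancel_left]⟩
  intro i j hij hmid
  rw [← mv_sv]
  by_cases hj : (n / 2 - 1 ≤ (j : ℕ) ∧ (j : ℕ) + (n / 2 - 1) < n)
  · have h1 : mv (y * g) (sv j) ∈ Wk n (n / 2 - 1) F := Mu_Wk hn hU hM (sv_Wk hj)
    refine mem_Wk.1 h1 i ?_
    intro hi
    apply hmid
    unfold Mid
    omega
  · obtain ⟨c, hc⟩ := hM j hj
    rw [hc, Pi.smul_apply, sv_ne hij, smul_zero]

end

end OR
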