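import Pool.Agent.OR.E03

/-!
# MP_6c3636_al, OR, module E07: the torus (stub of helper40)

`n = 0`: everything is trivial (`GL (Fin 0) F` is trivial). Otherwise let `i`, `j = rev i` be the middle indices, `(i : ℕ) + 1 = n / 2`, `(j : ℕ) = n / 2`.
`dg_Om`: a diagonal isometry `d` satisfies `d l * d (rev l) = 1` (`OQ_bf` for `sv l`, `sv (rev l)`), so the set of the `l` with `d l ≠ 1` is invariant under the fixed point free involution `rev` and has even cardinality; `Matrix.rank_diagonal`; `mem_Om`.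
`T_mid` (the main point): let `t ∈ Om n a`, `IsT t`. Let `d` be the diagonal matrix with `d l = t l l` for `l` not in the middle and `d i = d j = 1`. `d ∈ OQ` (for `l` not in the middle `t (sv l) = t l l • sv l` and `t l l * t (rev l) (rev l) = 1`), so `d ∈ Om` by `dg_Om` and `t' = d⁻¹ * t ∈ Om`; `t'` is the identity outside of the middle block, where it is equal to `t`. Write `p = t i i`, `s = t j i`, `r = t i j`, `u = t j j` (images of `sv i`: `p • sv i + s • sv j`, and of `sv j`: `r • sv i + u • sv j`). (i) `a p² + p s + a s² = a`, (ii) `a r² + r u + a u² = a`, (iii) `p u + r s = 1`. If `p + u = 0` and `t' ≠ 1` then `det (t'_mid - 1) = p u + r s + p + u + 1 = 0`, so `t' - 1` has rank one (rank at most one: its two nonzero columns are proportional; it is not zero), contradiction to `mem_Om` for `t'`. So `p + u ≠ 0` or `p = u = 1, r = s = 0`. Let `X = a p r + r s + a s u`. Then `s + s X = a (p + u)` [multiply (i) by `u`, use (iii)], `r + r X = a (p + u)` [multiply (ii)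 by `p`], `p X = a (r + s)`, `u X = a (r + s)`, so `(p + u) X = 0`. In the first case `X = 0` and `r = s = a (p + u)`.
`T_comm`: `s`, `t` are block diagonal; the middle blocks are `p • 1 + (p + u) • ![![0, a], ![a, 1]]` by `T_mid`, so they commute. `T_invol`: `t * t = 1`; outside of the middle `(t l l)² = 1`, so `t l l = 1`; the middle block `g` satisfies `g² = (p + u) g + det g` (`det g = 1`), so `(p + u) g = 0` if `g² = 1`, `p + u = 0`; so `p = u = 1`, `r = s = 0`.
`T_odd`: the subgroup of the `t ∈ Om n a` with `IsT t` has no element of order two, so its order is odd (`exists_prime_orderOf_dvd_card`).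
-/

namespace OR

noncomputable section

open Classical Matrix CF

variable {n : ℕ} {F : Type} [Field F] [Finite F] [CharP F 2]

namespace E07_aux

omit [Finite F] [CharP F 2]

theorem sv_apply (l k : Fin n) : (sv l : Fin n → F) k = if k = l then 1 else 0 := by
  unfold sv
  rw [Pi.single_apply]

theorem bf_svsv (l k : Fin n) : bf (sv l : Fin n → F) (sv k) = if Fin.rev l = k then 1 else 0 := by
  rw [bf_sv_left, sv_apply]

theorem col {t : GL (Fin n) F} (hT : IsT t) {l : Fin n} (hl : ¬ Mid n l) :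
    mv t (sv l) = (t : Matrix (Fin n) (Fin n) F) l l • sv l := by
  ext k
  rw [mv_sv, Pi.smul_apply, smul_eq_mul, sv_apply]
  by_cases h : k = l
  · rw [h, if_pos rfl, mul_one]
  · rw [if_neg h, mul_zero]
    exact hT k l h (fun h' => hl h'.2)

theorem mid_iff {i j : Fin n} (hi : (i : ℕ) + 1 = n / 2) (hj : (j : ℕ) = n / 2) (l : Fin n) :
    Mid n l ↔ l = i ∨ l = j := by
  unfold Mid
  constructor
  · rintro (h | h)
    · exact Or.inl (Fin.ext (by omega))
    · exact Or.inr (Fin.ext (by omega))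
  · rintro (h | h)
    · rw [h]
      exact Or.inl hi
    · rw [h]
      exact Or.inr hj

theorem ij_ne {i j : Fin n} (hi : (i : ℕ) + 1 = n / 2) (hj : (j : ℕ) = n / 2) : i ≠ j := by
  intro h
  rw [h] at hi
  omega

theorem rev_i (hn : Even n) {i j : Fin n} (hi : (i : ℕ) + 1 = n / 2) (hj : (j : ℕ) = n / 2) : Fin.rev i = j := by
  apply Fin.ext
  rw [Fin.val_rev]
  obtain ⟨k, hk⟩ := hn
  omega

theorem rev_j (hn : Even n) {i j : Fin n} (hi : (i : ℕ) + 1 = n / 2) (hj : (j : ℕ) = n / 2) : Fin.rev j = i := by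
  rw [← rev_i hn hi hj, Fin.rev_rev]

theorem col_mid {t : GL (Fin n) F} (hT : IsT t) {i j : Fin n} (hi : (i : ℕ) + 1 = n / 2) (hj : (j : ℕ) = n / 2)
    {l : Fin n} (hl : Mid n l) : mv t (sv l) =
      (t : Matrix (Fin n) (Fin n) F) i l • sv i + (t : Matrix (Fin n) (Fin n) F) j l • sv j := by
  have hij := ij_ne hi hj
  ext k
  rw [mv_sv, Pi.add_apply, Pi.smul_apply, Pi.smul_apply, smul_eq_mul, smul_eq_mul, sv_apply, sv_apply]
  by_cases h1 : k = i
  · rw [h1, if_pos rfl, if_neg hij, mul_one, mul_zero, add_zero]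
  · by_cases h2 : k = j
    · rw [h2, if_neg hij.symm, if_pos rfl, mul_one, mul_zero, zero_add]
    · rw [if_neg h1, if_neg h2, mul_zero, mul_zero, add_zero]
      have hk : ¬ Mid n k := by
        rw [mid_iff hi hj]
        exact fun h => h.elim h1 h2
      exact hT k l (fun h => hk (h ▸ hl)) (fun h' => hk h'.1)

end E07_aux

open E07_aux

/-- a diagonal isometry is in `Om n a` -/
theorem dg_Om (hn : Even n) {a : F} {d : GL (Fin n) F} (hd : d ∈ OQ n a)
    (h : ∀ i j, i ≠ j → (d : Matrix (Fin n) (Fin n) F) i j = 0) : d ∈ Om n a := by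
  rw [mem_Om hn]
  refine ⟨hd, ?_⟩
  have hcol : ∀ l, mv d (sv l) = (d : Matrix (Fin n) (Fin n) F) l l • sv l := by
    intro l
    ext k
    rw [mv_sv, Pi.smul_apply, smul_eq_mul, sv_apply]
    by_cases hk : k = l
    · rw [hk, if_pos rfl, mul_one]
    · rw [if_neg hk, mul_zero]
      exact h k l hk
  have hone : ∀ l, (d : Matrix (Fin n) (Fin n) F) l l * (d : Matrix (Fin n) (Fin n) F) (Fin.rev l) (Fin.rev l) = 1 := by
    intro l
    have h1 := OQ_bf hn hd (sv l) (sv (Fin.rev l))
    rw [hcol, hcol, bf_smul_left, bf_smul_right, bf_svsv, if_pos rfl, mul_one] at h1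
    exact h1
  have hdiag : (d : Matrix (Fin n) (Fin n) F) - 1 =
      Matrix.diagonal (fun l => (d : Matrix (Fin n) (Fin n) F) l l - 1) := by
    ext k l
    rw [Matrix.sub_apply, Matrix.one_apply, Matrix.diagonal_apply]
    by_cases hk : k = l
    · rw [if_pos hk, if_pos hk, hk]
    · rw [if_neg hk, if_neg hk, h k l hk, sub_zero]
  rw [hdiag, Matrix.rank_diagonal, Fintype.card_subtype, ← ZMod.natCast_eq_zero_iff_even]
  rw [Finset.card_eq_sum_ones, Nat.cast_sum]
  apply Finset.sum_involution (fun l _ => Fin.rev l)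
  · intro l _
    rw [Nat.cast_one]
    decide
  · intro l _ _
    exact rev_ne hn l
  · intro l hl
    rw [Finset.mem_filter] at hl ⊢
    refine ⟨Finset.mem_univ _, fun h0 => hl.2 ?_⟩
    rw [sub_eq_zero] at h0 ⊢
    have := hone l
    rw [h0, mul_one] at this
    exact this
  · intro l _
    exact Fin.rev_rev l

namespace E07_aux

theorem diag_one (hn : Even n) {a : F} {t : GL (Fin n) F} (ht : t ∈ OQ n a) (hT : IsT t) {l : Fin n}
    (hl : ¬ Mid n l) : (t : Matrix (Fin n) (Fin n) F) l l * (t : Matrix (Fin n) (Fin n) F) (Fin.rev l) (Fin.rev l) = 1 := by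
  have hl' : ¬ Mid n (Fin.rev l) := by
    rw [Mid_rev hn]
    exact hl
  have h1 := OQ_bf hn ht (sv l) (sv (Fin.rev l))
  rw [col hT hl, col hT hl', bf_smul_left, bf_smul_right, bf_svsv, if_pos rfl, mul_one] at h1
  exact h1

/-- the diagonal part -/
def dv (t : GL (Fin n) F) (l : Fin n) : F := if Mid n l then 1 else (t : Matrix (Fin n) (Fin n) F) l l

theorem dv_one (hn : Even n) {a : F} {t : GL (Fin n) F} (ht : t ∈ OQ n a) (hT : IsT t) (l : Fin n) :
    dv t l * dv t (Fin.rev l) = 1 := by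
  unfold dv
  by_cases h : Mid n l
  · rw [if_pos h, if_pos ((Mid_rev hn).2 h), mul_one]
  · rw [if_neg h, if_neg (fun h' => h ((Mid_rev hn).1 h'))]
    exact diag_one hn ht hT h

/-- the diagonal element -/
theorem exists_d (hn : Even n) {a : F} {t : GL (Fin n) F} (ht : t ∈ OQ n a) (hT : IsT t) :
    ∃ d : GL (Fin n) F, d ∈ Om n a ∧ (d⁻¹ : GL (Fin n) F).1 = Matrix.diagonal fun l => dv t (Fin.rev l) := by
  have h1 : (Matrix.diagonal fun l => dv t l) * (Matrix.diagonal fun l => dv t (Fin.rev l)) = 1 := by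
    rw [Matrix.diagonal_mul_diagonal, ← Matrix.diagonal_one]
    congr 1
    funext l
    exact dv_one hn ht hT l
  have h2 : (Matrix.diagonal fun l => dv t (Fin.rev l)) * (Matrix.diagonal fun l => dv t l) = 1 := by
    rw [Matrix.diagonal_mul_diagonal, ← Matrix.diagonal_one]
    congr 1
    funext l
    rw [mul_comm]
    exact dv_one hn ht hT l
  obtain ⟨d, hd⟩ : ∃ d : GL (Fin n) F, d =
    ⟨Matrix.diagonal fun l => dv t l, Matrix.diagonal fun l => dv t (Fin.rev l), h1, h2⟩ := ⟨_, rfl⟩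
  have hval : (d : Matrix (Fin n) (Fin n) F) = Matrix.diagonal fun l => dv t l := by
    rw [hd]
  refine ⟨d, dg_Om hn ?_ ?_, by rw [hd]; rfl⟩
  · intro x
    have hmv : ∀ l, mv d x l = dv t l * x l := by
      intro l
      unfold mv
      rw [hval, Matrix.mulVec_diagonal]
    unfold Qa
    congr 1
    · refine Finset.sum_congr rfl fun l _ => ?_
      by_cases h : (l : ℕ) < n / 2
      · rw [if_pos h, if_pos h, hmv, hmv]
        calc dv t l * x l * (dv t (Fin.rev l) * x (Fin.rev l))
            = (dv t l * dv t (Fin.rev l)) * (x l * x (Fin.rev l)) := by ring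
          _ = x l * x (Fin.rev l) := by rw [dv_one hn ht hT l, one_mul]
      · rw [if_neg h, if_neg h]
    · congr 1
      refine Finset.sum_congr rfl fun l _ => ?_
      by_cases h : Mid n l
      · rw [if_pos h, if_pos h, hmv]
        unfold dv
        rw [if_pos h, one_mul]
      · rw [if_neg h, if_neg h]
  · intro k l hkl
    rw [hval, Matrix.diagonal_apply_ne _ hkl]

theorem rank_zero {N : Matrix (Fin n) (Fin n) F} (h : N.rank = 0) : N = 0 := by
  unfold Matrix.rank at h
  have h1 := Submodule.finrank_eq_zero.1 h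
  rw [LinearMap.range_eq_bot] at h1
  have h2 : N.mulVecLin = (0 : Matrix (Fin n) (Fin n) F).mulVecLin := by
    rw [h1, Matrix.mulVecLin_zero]
  ext k l
  have h3 := congrFun (LinearMap.congr_fun h1 (Pi.single l 1)) k
  rw [Matrix.mulVecLin_apply, Matrix.mulVec_single_one] at h3
  exact h3

/-- the three equations -/
theorem eqs (hn : Even n) {a : F} {t : GL (Fin n) F} (ht : t ∈ OQ n a) (hT : IsT t) {i j : Fin n}
    (hi : (i : ℕ) + 1 = n / 2) (hj : (j : ℕ) = n / 2) {p s r u : F}
    (hp : (t : Matrix (Fin n) (Fin n) F) i i = p) (hs : (t : Matrix (Fin n) (Fin n) F) j i = s)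
    (hr : (t : Matrix (Fin n) (Fin n) F) i j = r) (hu : (t : Matrix (Fin n) (Fin n) F) j j = u) :
    a * p ^ 2 + p * s + a * s ^ 2 = a ∧ a * r ^ 2 + r * u + a * u ^ 2 = a ∧ p * u + r * s = 1 := by
  have hmi : Mid n i := (mid_iff hi hj i).2 (Or.inl rfl)
  have hmj : Mid n j := (mid_iff hi hj j).2 (Or.inr rfl)
  have hij := ij_ne hi hj
  have ci := col_mid hT hi hj hmi
  have cj := col_mid hT hi hj hmj
  rw [hp, hs] at ci
  rw [hr, hu] at cj
  have b1 : bf (sv i : Fin n → F) (sv j) = 1 := by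
    rw [bf_svsv, rev_i hn hi hj, if_pos rfl]
  have b2 : bf (sv j : Fin n → F) (sv i) = 1 := by
    rw [bf_comm, b1]
  have b3 : bf (sv i : Fin n → F) (sv i) = 0 := bf_self hn _
  have b4 : bf (sv j : Fin n → F) (sv j) = 0 := bf_self hn _
  have q1 := ht (sv i)
  have q2 := ht (sv j)
  have q3 := OQ_bf hn ht (sv i) (sv j)
  rw [ci, Qa_add hn, Qa_smul, Qa_smul, Qa_sv_mid a hn hmi, Qa_sv_mid a hn hmj, bf_smul_left, bf_smul_right, b1] at q1
  rw [cj, Qa_add hn, Qa_smul, Qa_smul, Qa_sv_mid a hn hmi, Qa_sv_mid a hn hmj, bf_smul_left, bf_smul_right, b1] at q2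
  rw [ci, cj, bf_add_left, bf_add_right, bf_add_right] at q3
  simp only [bf_smul_left, bf_smul_right, b1, b2, b3, b4] at q3
  refine ⟨?_, ?_, ?_⟩
  · linear_combination q1
  · linear_combination q2
  · linear_combination q3

theorem mid_one (hn : Even n) {a : F} {t : GL (Fin n) F} (ht : t ∈ Om n a) (hT : IsT t) {i j : Fin n}
    (hi : (i : ℕ) + 1 = n / 2) (hj : (j : ℕ) = n / 2)
    (h0 : (t : Matrix (Fin n) (Fin n) F) i i + (t : Matrix (Fin n) (Fin n) F) j j = 0) :
    (t : Matrix (Fin n) (Fin n) F) i i = 1 ∧ (t : Matrix (Fin n) (Fin n) F) j i = 0 ∧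
      (t : Matrix (Fin n) (Fin n) F) i j = 0 := by
  have htQ : t ∈ OQ n a := Om_le n a ht
  obtain ⟨d, hd, hdi⟩ := exists_d hn htQ hT
  have hij := ij_ne hi hj
  have hmi : Mid n i := (mid_iff hi hj i).2 (Or.inl rfl)
  have hmj : Mid n j := (mid_iff hi hj j).2 (Or.inr rfl)
  have ht' : d⁻¹ * t ∈ Om n a := (Om n a).mul_mem ((Om n a).inv_mem hd) ht
  obtain ⟨N, hN⟩ : ∃ N : Matrix (Fin n) (Fin n) F, N = ((d⁻¹ * t : GL (Fin n) F) : Matrix (Fin n) (Fin n) F) - 1 :=
    ⟨_, rfl⟩
  have hev : Even N.rank := by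
    rw [hN]
    exact ((mem_Om hn).1 ht').2
  have hent : ∀ k l, N k l = dv t (Fin.rev k) * (t : Matrix (Fin n) (Fin n) F) k l - (if k = l then 1 else 0) := by
    intro k l
    have h1 : ((d⁻¹ * t : GL (Fin n) F) : Matrix (Fin n) (Fin n) F) =
        (Matrix.diagonal fun l => dv t (Fin.rev l)) * (t : Matrix (Fin n) (Fin n) F) := by
      rw [Units.val_mul, hdi]
    rw [hN, Matrix.sub_apply, h1, Matrix.diagonal_mul, Matrix.one_apply]
  have hmid : ∀ k l, Mid n k → N k l = (t : Matrix (Fin n) (Fin n) F) k l - (if k = l then 1 else 0) := by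
    intro k l hk
    rw [hent]
    unfold dv
    rw [if_pos ((Mid_rev hn).2 hk), one_mul]
  have hzero : ∀ k l, ¬ (Mid n k ∧ Mid n l) → N k l = 0 := by
    intro k l hkl
    by_cases hkl' : k = l
    · subst hkl'
      have hk : ¬ Mid n k := fun h => hkl ⟨h, h⟩
      rw [hent, if_pos rfl]
      unfold dv
      rw [if_neg (fun h => hk ((Mid_rev hn).1 h)), mul_comm, diag_one hn htQ hT hk, sub_self]
    · rw [hent, if_neg hkl', hT k l hkl' hkl, mul_zero, sub_zero]
  obtain ⟨p, hp⟩ : ∃ p, (t : Matrix (Fin n) (Fin n) F) i i = p := ⟨_, rfl⟩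
  obtain ⟨s, hs⟩ : ∃ s, (t : Matrix (Fin n) (Fin n) F) j i = s := ⟨_, rfl⟩
  obtain ⟨r, hr⟩ : ∃ r, (t : Matrix (Fin n) (Fin n) F) i j = r := ⟨_, rfl⟩
  obtain ⟨u, hu⟩ : ∃ u, (t : Matrix (Fin n) (Fin n) F) j j = u := ⟨_, rfl⟩
  obtain ⟨-, -, e3⟩ := eqs hn htQ hT hi hj hp hs hr hu
  have hNii : N i i = p - 1 := by rw [hmid i i hmi, if_pos rfl, hp]
  have hNji : N j i = s := by rw [hmid j i hmj, if_neg hij.symm, hs, sub_zero]
  have hNij : N i j = r := by rw [hmid i j hmi, if_neg hij, hr, sub_zero]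
  have hNjj : N j j = u - 1 := by rw [hmid j j hmj, if_pos rfl, hu]
  have h2 : (2 : F) = 0 := CharTwo.two_eq_zero
  rw [hp, hu] at h0
  have hdet : (p - 1) * (u - 1) = s * r := by
    linear_combination e3 - h0 - (s * r) * h2 + h2
  have hrk : N.rank ≤ 1 := by
    obtain ⟨x, y, hxy⟩ : ∃ x y : Fin n → F, N = Matrix.vecMulVec x y := by
      by_cases hs0 : s = 0
      · have hpu : u = p := by
          linear_combination h0 - p * h2
        have hp1 : p - 1 = 0 := by
          rw [hs0, hpu, zero_mul] at hdet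
          exact mul_self_eq_zero.1 hdet
        refine ⟨r • sv i, sv j, ?_⟩
        ext k l
        rw [Matrix.vecMulVec_apply, Pi.smul_apply, smul_eq_mul, sv_apply, sv_apply]
        by_cases hk : k = i
        · by_cases hl : l = j
          · rw [hk, hl, if_pos rfl, if_pos rfl, mul_one, mul_one, hNij]
          · rw [if_neg hl, mul_zero]
            by_cases hl' : l = i
            · rw [hk, hl', hNii, hp1]
            · exact hzero k l (fun h => ((mid_iff hi hj l).1 h.2).elim hl' hl)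
        · rw [if_neg hk, mul_zero, zero_mul]
          by_cases hk' : k = j
          · by_cases hl : l = i
            · rw [hk', hl, hNji, hs0]
            · by_cases hl' : l = j
              · rw [hk', hl', hNjj, hpu, hp1]
              · exact hzero k l (fun h => ((mid_iff hi hj l).1 h.2).elim hl hl')
          · exact hzero k l (fun h => ((mid_iff hi hj k).1 h.1).elim hk hk')
      · refine ⟨(p - 1) • sv i + s • sv j, sv i + ((u - 1) / s) • sv j, ?_⟩
        ext k l
        rw [Matrix.vecMulVec_apply, Pi.add_apply, Pi.add_apply, Pi.smul_apply, Pi.smul_apply, Pi.smul_apply,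
          smul_eq_mul, smul_eq_mul, smul_eq_mul, sv_apply, sv_apply, sv_apply, sv_apply]
        by_cases hk : k = i
        · subst hk
          rw [if_pos rfl, if_neg hij, mul_one, mul_zero, add_zero]
          by_cases hl : l = k
          · rw [hl, if_pos rfl, if_neg hij, mul_zero, add_zero, mul_one, hNii]
          · by_cases hl' : l = j
            · rw [hl', if_neg hij.symm, if_pos rfl, mul_one, zero_add, hNij, mul_div_assoc', hdet,
                mul_div_cancel_left₀ _ hs0]
            · rw [if_neg hl, if_neg hl', mul_zero, add_zero, mul_zero]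
              exact hzero k l (fun h => ((mid_iff hi hj l).1 h.2).elim hl hl')
        · by_cases hk' : k = j
          · subst hk'
            rw [if_neg hij.symm, if_pos rfl, mul_one, mul_zero, zero_add]
            by_cases hl : l = i
            · rw [hl, if_pos rfl, if_neg hij, mul_zero, add_zero, mul_one, hNji]
            · by_cases hl' : l = k
              · rw [hl', if_neg hij.symm, if_pos rfl, mul_one, zero_add, hNjj, mul_div_cancel₀ _ hs0]
              · rw [if_neg hl, if_neg hl', mul_zero, add_zero, mul_zero]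
                exact hzero k l (fun h => ((mid_iff hi hj l).1 h.2).elim hl hl')
          · rw [if_neg hk, if_neg hk', mul_zero, mul_zero, add_zero, zero_mul]
            exact hzero k l (fun h => ((mid_iff hi hj k).1 h.1).elim hk hk')
    rw [hxy]
    exact Matrix.rank_vecMulVec_le x y
  have hr0 : N.rank = 0 := by
    obtain ⟨c, hc⟩ := hev
    omega
  have hN0 := rank_zero hr0
  rw [hN0] at hNii hNji hNij
  rw [Matrix.zero_apply] at hNii hNji hNij
  rw [hp, hs, hr]
  exact ⟨(sub_eq_zero.1 hNii.symm), hNji.symm, hNij.symm⟩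

end E07_aux

theorem T_mid (hn : Even n) {a : F} {t : GL (Fin n) F} (ht : t ∈ Om n a) (hT : IsT t) {i j : Fin n}
    (hi : (i : ℕ) + 1 = n / 2) (hj : (j : ℕ) = n / 2) :
    (t : Matrix (Fin n) (Fin n) F) i j = a * ((t : Matrix (Fin n) (Fin n) F) i i + (t : Matrix (Fin n) (Fin n) F) j j) ∧
    (t : Matrix (Fin n) (Fin n) F) j i = a * ((t : Matrix (Fin n) (Fin n) F) i i + (t : Matrix (Fin n) (Fin n) F) j j) ∧
    ((t : Matrix (Fin n) (Fin n) F) i i + (t : Matrix (Fin n) (Fin n) F) j j = 0 →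
      (t : Matrix (Fin n) (Fin n) F) i i = 1) := by
  have hone := mid_one hn ht hT hi hj
  obtain ⟨p, hp⟩ : ∃ p, (t : Matrix (Fin n) (Fin n) F) i i = p := ⟨_, rfl⟩
  obtain ⟨s, hs⟩ : ∃ s, (t : Matrix (Fin n) (Fin n) F) j i = s := ⟨_, rfl⟩
  obtain ⟨r, hr⟩ : ∃ r, (t : Matrix (Fin n) (Fin n) F) i j = r := ⟨_, rfl⟩
  obtain ⟨u, hu⟩ : ∃ u, (t : Matrix (Fin n) (Fin n) F) j j = u := ⟨_, rfl⟩
  obtain ⟨e1, e2, e3⟩ := eqs hn (Om_le n a ht) hT hi hj hp hs hr hu
  rw [hp, hs, hr, hu] at hone ⊢
  have h2 : (2 : F) = 0 := CharTwo.two_eq_zero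
  by_cases h0 : p + u = 0
  · obtain ⟨h3, h4, h5⟩ := hone h0
    rw [h0, mul_zero]
    exact ⟨h5, h4, fun _ => h3⟩
  · obtain ⟨X, hX⟩ : ∃ X, X = a * p * r + r * s + a * s * u := ⟨_, rfl⟩
    have k1 : s + s * X = a * (p + u) := by
      rw [hX]
      linear_combination u * e1 - (s + a * p) * e3 + (a * p * r * s + r * s ^ 2 - a * p) * h2
    have k2 : r + r * X = a * (p + u) := by
      rw [hX]
      linear_combination p * e2 - (r + a * u) * e3 + (r ^ 2 * s + a * r * s * u - a * u) * h2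
    have k3 : p * X = a * (r + s) := by
      rw [hX]
      linear_combination r * e1 + a * s * e3 - (a * r * s ^ 2) * h2
    have k4 : u * X = a * (r + s) := by
      rw [hX]
      linear_combination s * e2 + a * r * e3 - (a * r ^ 2 * s) * h2
    have k5 : (p + u) * X = 0 := by
      linear_combination k3 + k4 + a * (r + s) * h2
    have k6 : X = 0 := (mul_eq_zero.1 k5).resolve_left h0
    rw [k6, mul_zero, add_zero] at k1 k2
    exact ⟨k2, k1, fun h => absurd h h0⟩

namespace E07_aux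

theorem exists_mid (hn : Even n) (l : Fin n) : ∃ i j : Fin n, (i : ℕ) + 1 = n / 2 ∧ (j : ℕ) = n / 2 := by
  have hl := l.2
  obtain ⟨k, hk⟩ := hn
  exact ⟨⟨n / 2 - 1, by omega⟩, ⟨n / 2, by omega⟩, by show n / 2 - 1 + 1 = n / 2; omega, rfl⟩

omit [Finite F] [CharP F 2] in
theorem mv_smul_sv (g : GL (Fin n) F) (c : F) (l : Fin n) : mv g (c • sv l) = c • mv g (sv l) := mv_smul g c _

end E07_aux

theorem T_comm (hn : Even n) {a : F} {s t : GL (Fin n) F} (hs : s ∈ Om n a) (ht : t ∈ Om n a)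
    (hs' : IsT s) (ht' : IsT t) : s * t = t * s := by
  refine mv_ext fun l => ?_
  rw [mv_mul, mv_mul]
  by_cases hl : Mid n l
  · obtain ⟨i, j, hi, hj⟩ := exists_mid hn l
    have hmi : Mid n i := (mid_iff hi hj i).2 (Or.inl rfl)
    have hmj : Mid n j := (mid_iff hi hj j).2 (Or.inr rfl)
    obtain ⟨a1, a2, -⟩ := T_mid hn hs hs' hi hj
    obtain ⟨b1, b2, -⟩ := T_mid hn ht ht' hi hj
    have h2 : (2 : F) = 0 := CharTwo.two_eq_zero
    have csi := col_mid hs' hi hj hmi
    have csj := col_mid hs' hi hj hmj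
    have cti := col_mid ht' hi hj hmi
    have ctj := col_mid ht' hi hj hmj
    rw [a2] at csi
    rw [a1] at csj
    rw [b2] at cti
    rw [b1] at ctj
    obtain ⟨p, hp⟩ : ∃ p, (s : Matrix (Fin n) (Fin n) F) i i = p := ⟨_, rfl⟩
    obtain ⟨u, hu⟩ : ∃ u, (s : Matrix (Fin n) (Fin n) F) j j = u := ⟨_, rfl⟩
    obtain ⟨p', hp'⟩ : ∃ p, (t : Matrix (Fin n) (Fin n) F) i i = p := ⟨_, rfl⟩
    obtain ⟨u', hu'⟩ : ∃ u, (t : Matrix (Fin n) (Fin n) F) j j = u := ⟨_, rfl⟩
    rw [hp, hu] at csi csj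
    rw [hp', hu'] at cti ctj
    rcases (mid_iff hi hj l).1 hl with rfl | rfl
    · rw [cti, csi, mv_add, mv_add, mv_smul, mv_smul, mv_smul, mv_smul, cti, csi, ctj, csj]
      ext k
      simp only [Pi.add_apply, Pi.smul_apply, smul_eq_mul]
      linear_combination (a * (p' * u - p * u') * (sv j : Fin n → F) k) * h2
    · rw [ctj, csj, mv_add, mv_add, mv_smul, mv_smul, mv_smul, mv_smul, cti, csi, ctj, csj]
      ext k
      simp only [Pi.add_apply, Pi.smul_apply, smul_eq_mul]
      linear_combination (a * (p * u' - p' * u) * (sv i : Fin n → F) k) * h2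
  · rw [col ht' hl, col hs' hl, mv_smul, mv_smul, col ht' hl, col hs' hl, smul_smul, smul_smul, mul_comm]

theorem T_invol (hn : Even n) {a : F} {t : GL (Fin n) F} (ht : t ∈ Om n a) (hT : IsT t) (h : t * t = 1) :
    t = 1 := by
  refine mv_ext fun l => ?_
  have hh : mv t (mv t (sv l)) = sv l := by
    rw [← mv_mul, h, mv_one]
  have h2 : (2 : F) = 0 := CharTwo.two_eq_zero
  rw [mv_one]
  by_cases hl : Mid n l
  · obtain ⟨i, j, hi, hj⟩ := exists_mid hn l
    have hij := ij_ne hi hj
    have hmi : Mid n i := (mid_iff hi hj i).2 (Or.inl rfl)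
    have hmj : Mid n j := (mid_iff hi hj j).2 (Or.inr rfl)
    obtain ⟨b1, b2, b3⟩ := T_mid hn ht hT hi hj
    have cti := col_mid hT hi hj hmi
    have ctj := col_mid hT hi hj hmj
    rw [b2] at cti
    rw [b1] at ctj
    have hi2 : mv t (mv t (sv i)) = sv i := by
      rw [← mv_mul, h, mv_one]
    have hj2 : mv t (mv t (sv j)) = sv j := by
      rw [← mv_mul, h, mv_one]
    obtain ⟨p, hp⟩ : ∃ p, (t : Matrix (Fin n) (Fin n) F) i i = p := ⟨_, rfl⟩
    obtain ⟨u, hu⟩ : ∃ u, (t : Matrix (Fin n) (Fin n) F) j j = u := ⟨_, rfl⟩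
    rw [hp, hu] at cti ctj b3
    rw [cti, mv_add, mv_smul, mv_smul, cti, ctj] at hi2
    rw [ctj, mv_add, mv_smul, mv_smul, cti, ctj] at hj2
    have e1 := congrFun hi2 i
    have e2 := congrFun hj2 j
    simp only [Pi.add_apply, Pi.smul_apply, smul_eq_mul, sv_apply, if_neg hij, if_neg hij.symm, if_true] at e1 e2
    have e3 : (p + u) ^ 2 = 0 := by
      linear_combination e1 - e2 + (u ^ 2 + p * u) * h2
    have e4 : p + u = 0 := by
      rw [sq] at e3
      exact mul_self_eq_zero.1 e3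
    have e5 : p = 1 := b3 e4
    have e6 : u = 1 := by
      rw [e5] at e4
      linear_combination e4 - h2
    rcases (mid_iff hi hj l).1 hl with rfl | rfl
    · rw [cti, e4, mul_zero, zero_smul, add_zero, e5, one_smul]
    · rw [ctj, e4, mul_zero, zero_smul, zero_add, e6, one_smul]
  · rw [col hT hl, mv_smul, col hT hl, smul_smul] at hh
    have e1 := congrFun hh l
    rw [Pi.smul_apply, smul_eq_mul, sv_apply, if_pos rfl, mul_one] at e1
    have e2 : ((t : Matrix (Fin n) (Fin n) F) l l + 1) * ((t : Matrix (Fin n) (Fin n) F) l l + 1) = 0 := by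
      linear_combination e1 + ((t : Matrix (Fin n) (Fin n) F) l l + 1) * h2
    have e3 := mul_self_eq_zero.1 e2
    have e4 : (t : Matrix (Fin n) (Fin n) F) l l = 1 := by
      linear_combination e3 - h2
    rw [col hT hl, e4, one_smul]

namespace E07_aux

omit [Finite F] [CharP F 2] in
theorem isT_one : IsT (1 : GL (Fin n) F) := by
  intro k l hkl _
  rw [Units.val_one, Matrix.one_apply, if_neg hkl]

omit [Finite F] [CharP F 2] in
theorem isT_mul {s t : GL (Fin n) F} (hs : IsT s) (ht : IsT t) : IsT (s * t) := by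
  intro k l hkl hm
  rw [Units.val_mul, Matrix.mul_apply]
  refine Finset.sum_eq_zero fun m _ => ?_
  by_cases h1 : k = m
  · subst h1
    rw [ht k l hkl hm, mul_zero]
  · by_cases h2 : Mid n k ∧ Mid n m
    · have hl : ¬ Mid n l := fun h => hm ⟨h2.1, h⟩
      rw [ht m l (fun h => hl (h ▸ h2.2)) (fun h => hl h.2), mul_zero]
    · rw [hs k m h1 h2, zero_mul]

omit [Finite F] [CharP F 2] in
theorem isT_pow {t : GL (Fin n) F} (ht : IsT t) (m : ℕ) : IsT (t ^ m) := by
  induction m with
  | zero =>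
    rw [pow_zero]
    exact isT_one
  | succ m ih =>
    rw [pow_succ]
    exact isT_mul ih ht

theorem odd_order (hn : Even n) {a : F} {t : GL (Fin n) F} (ht : t ∈ Om n a) (hT : IsT t) : Odd (orderOf t) := by
  rw [← Nat.not_even_iff_odd]
  rintro ⟨m, hm⟩
  have hpos : 0 < orderOf t := orderOf_pos t
  have h1 : t ^ m * t ^ m = 1 := by
    rw [← pow_add, ← hm, pow_orderOf_eq_one]
  have h2 := T_invol hn ((Om n a).pow_mem ht m) (isT_pow hT m) h1
  have h3 := orderOf_dvd_of_pow_eq_one h2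
  have h4 := Nat.le_of_dvd (by omega) h3
  omega

end E07_aux

theorem T_odd (hn : Even n) (a : F) : ∃ k : ℕ, Odd k ∧ ∀ t ∈ Om n a, IsT t → t ^ k = 1 := by
  have hc : Nat.card (GL (Fin n) F) ≠ 0 := Nat.card_pos.ne'
  obtain ⟨e, k, hk, hN⟩ := Nat.exists_eq_two_pow_mul_odd hc
  refine ⟨k, hk, fun t ht hT => ?_⟩
  rw [← orderOf_dvd_iff_pow_eq_one]
  have h1 : orderOf t ∣ 2 ^ e * k := by
    rw [← hN]
    exact orderOf_dvd_natCard t
  exact (Nat.Coprime.dvd_of_dvd_mul_left ((Nat.coprime_two_right.2 (odd_order hn ht hT)).pow_right e) h1)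

end

end OR
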