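import Pool.Agent.OR.E06
import Pool.Agent.OR.E07
import Pool.Agent.CF.E01

/-!
# MP_6c3636_al, OR, module E08: EO is normal, the quotient of Om is commutative of odd order (helper88)

As CF/W07 (`EG_conj`, `EG_comm`, `EG_odd`) and the private theorem `w21_between` in CF/W21. `EO_conj`: `eo_conj` and `Subgroup.closure_induction`. `EO_comm`: write `x = y t`, `x' = y' t'` (`oq_decomp`, `t, t' ∈ Om` by `EO_le_Om`); modulo the normal subgroup `EO` the commutator of `x`, `x'` is the one of `t`, `t'`, which commute (`T_comm`). `EO_odd`: every element of the quotient is the class of some `t ∈ Om` with `IsT t`, so its order divides the odd number of `T_odd`; a finite group without elements of order two has odd order.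
`ex_between`: `EO n a ≤ H ≤ OQ n a`. First for `H' = H ⊓ Om n a` (`EO_le_Om`): `ex_ext` for `(EO n a).subgroupOf H'`, the quotient is commutative (`EO_comm`), `ex_solv`. Then `ex_ext` for `H'.subgroupOf H` (normal: `Om_conj`; the quotient is commutative: `OQ_comm`); `ex_congr`, `Subgroup.subgroupOfEquivOfLe`.
-/

namespace OR

noncomputable section

open Classical Matrix CF

variable {n : ℕ} {F : Type} [Field F] [Finite F] [CharP F 2]

namespace E08_aux

/-- extensions with a commutative quotient -/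
theorem ex_comm {G : Type} [Group G] {N H : Subgroup G} (h1 : N ≤ H) (hN : Ex N)
    (hn : ∀ g ∈ H, ∀ y ∈ N, g * y * g⁻¹ ∈ N)
    (hc : ∀ x ∈ H, ∀ y ∈ H, x * y * x⁻¹ * y⁻¹ ∈ N) : Ex H := by
  have hNn : (N.subgroupOf H).Normal := by
    constructor
    intro y hy g
    rw [Subgroup.mem_subgroupOf] at hy ⊢
    exact hn _ g.2 _ hy
  refine ex_ext (N.subgroupOf H) (ex_congr (Subgroup.subgroupOfEquivOfLe h1).symm hN) (ex_solv ?_)
  apply Group.isSolvable_of_comm
  intro a b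
  obtain ⟨x, rfl⟩ := QuotientGroup.mk_surjective a
  obtain ⟨y, rfl⟩ := QuotientGroup.mk_surjective b
  rw [← QuotientGroup.mk_mul, ← QuotientGroup.mk_mul, QuotientGroup.eq, Subgroup.mem_subgroupOf]
  have h := hc ((y : G)⁻¹) (inv_mem y.2) ((x : G)⁻¹) (inv_mem x.2)
  have e : (((x * y)⁻¹ * (y * x) : H) : G) = (y : G)⁻¹ * (x : G)⁻¹ * ((y : G)⁻¹)⁻¹ * ((x : G)⁻¹)⁻¹ := by
    rw [Subgroup.coe_mul, Subgroup.coe_inv, Subgroup.coe_mul, Subgroup.coe_mul, _root_.mul_inv_rev, inv_inv, inv_inv]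
    simp only [mul_assoc]
  rw [e]
  exact h

end E08_aux

theorem EO_conj (hn : Even n) {a : F} {g y : GL (Fin n) F} (hg : g ∈ OQ n a) (hy : y ∈ EO n a) :
    g * y * g⁻¹ ∈ EO n a := by
  refine Subgroup.closure_induction (p := fun y _ => g * y * g⁻¹ ∈ EO n a) ?_ ?_ ?_ ?_ hy
  · rintro x ⟨v, b, hv, hb, rfl⟩
    rw [eo_conj hn hg hb]
    refine eo_mem_EO ?_ ?_
    · rw [hg v]
      exact hv
    · have h1 := OQ_le_Ug hn a hg
      rw [mem_Ug] at h1
      exact (h1 v b).trans hb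
  · rw [mul_one, mul_inv_cancel]
    exact (EO n a).one_mem
  · intro x y _ _ hx hy
    have e : g * (x * y) * g⁻¹ = (g * x * g⁻¹) * (g * y * g⁻¹) := by group
    rw [e]
    exact (EO n a).mul_mem hx hy
  · intro x _ hx
    have e : g * x⁻¹ * g⁻¹ = (g * x * g⁻¹)⁻¹ := by group
    rw [e]
    exact (EO n a).inv_mem hx

theorem EO_comm (hn : Even n) {a : F} {x y : GL (Fin n) F} (hx : x ∈ Om n a) (hy : y ∈ Om n a) :
    x * y * x⁻¹ * y⁻¹ ∈ EO n a := by
  obtain ⟨y1, hy1, t1, ht1, hd1, rfl⟩ := oq_decomp hn (Om_le n a hx)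
  obtain ⟨y2, hy2, t2, ht2, hd2, rfl⟩ := oq_decomp hn (Om_le n a hy)
  have ho1 : t1 ∈ Om n a := by
    have h1 := (Om n a).mul_mem ((Om n a).inv_mem (EO_le_Om hn a hy1)) hx
    rw [inv_mul_cancel_left] at h1
    exact h1
  have ho2 : t2 ∈ Om n a := by
    have h1 := (Om n a).mul_mem ((Om n a).inv_mem (EO_le_Om hn a hy2)) hy
    rw [inv_mul_cancel_left] at h1
    exact h1
  have hc : t1 * t2 * t1⁻¹ = t2 := by
    rw [T_comm hn ho1 ho2 hd1 hd2, mul_assoc, mul_inv_cancel, mul_one]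
  have e : y1 * t1 * (y2 * t2) * (y1 * t1)⁻¹ * (y2 * t2)⁻¹ =
      y1 * (t1 * y2 * t1⁻¹) * ((t1 * t2 * t1⁻¹) * y1⁻¹ * t2⁻¹) * y2⁻¹ := by group
  rw [e, hc]
  exact (EO n a).mul_mem ((EO n a).mul_mem ((EO n a).mul_mem hy1 (EO_conj hn ht1 hy2))
    (EO_conj hn ht2 ((EO n a).inv_mem hy1))) ((EO n a).inv_mem hy2)

theorem EO_odd (hn : Even n) (a : F) : Odd ((EO n a).subgroupOf (Om n a)).index := by
  have hN : ((EO n a).subgroupOf (Om n a)).Normal := by
    refine ⟨fun y hy g => ?_⟩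
    rw [Subgroup.mem_subgroupOf] at hy ⊢
    exact EO_conj hn (Om_le n a g.2) hy
  obtain ⟨r, hr, hT⟩ := T_odd (F := F) hn a
  rw [← Nat.not_even_iff_odd]
  intro hev
  have h2 : 2 ∣ Nat.card (Om n a ⧸ (EO n a).subgroupOf (Om n a)) := hev.two_dvd
  obtain ⟨q, hq⟩ := exists_prime_orderOf_dvd_card' 2 h2
  obtain ⟨g, rfl⟩ := QuotientGroup.mk_surjective q
  obtain ⟨y, hy, t, ht, hd, hg⟩ := oq_decomp hn (Om_le n a g.2)
  have hyU : y ∈ Om n a := EO_le_Om hn a hy
  have h3 : (g : GL (Fin n) F) = y * t := hg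
  have htU : t ∈ Om n a := by
    have h1 := (Om n a).mul_mem ((Om n a).inv_mem hyU) g.2
    rw [h3, inv_mul_cancel_left] at h1
    exact h1
  have hgt : (QuotientGroup.mk g : Om n a ⧸ (EO n a).subgroupOf (Om n a)) =
      QuotientGroup.mk (⟨t, htU⟩ : Om n a) := by
    have h4 : g = ⟨y, hyU⟩ * ⟨t, htU⟩ := Subtype.ext h3
    have h5 : (QuotientGroup.mk (⟨y, hyU⟩ : Om n a) :
        Om n a ⧸ (EO n a).subgroupOf (Om n a)) = 1 :=
      (QuotientGroup.eq_one_iff _).2 (Subgroup.mem_subgroupOf.2 hy)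
    rw [h4, QuotientGroup.mk_mul, h5, one_mul]
  have hpow : (QuotientGroup.mk g : Om n a ⧸ (EO n a).subgroupOf (Om n a)) ^ r = 1 := by
    rw [hgt, ← QuotientGroup.mk_pow]
    have h6 : (⟨t, htU⟩ : Om n a) ^ r = 1 := by
      apply Subtype.ext
      rw [Subgroup.coe_pow, Subgroup.coe_one]
      exact hT t htU hd
    rw [h6, QuotientGroup.mk_one]
  have hdvd := orderOf_dvd_of_pow_eq_one hpow
  rw [hq] at hdvd
  rw [← Nat.not_even_iff_odd] at hr
  exact hr (even_iff_two_dvd.2 hdvd)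

theorem ex_between (hn : Even n) {a : F} (hE : Ex (EO n a)) (H : Subgroup (GL (Fin n) F))
    (h1 : EO n a ≤ H) (h2 : H ≤ OQ n a) : Ex H := by
  have h3 : Ex ↥(H ⊓ Om n a) :=
    E08_aux.ex_comm (le_inf h1 (EO_le_Om hn a)) hE (fun g hg y hy => EO_conj hn (h2 hg.1) hy)
      (fun x hx y hy => EO_comm hn hx.2 hy.2)
  refine E08_aux.ex_comm inf_le_left h3 (fun g hg y hy => ?_) (fun x hx y hy => ?_)
  · exact ⟨H.mul_mem (H.mul_mem hg hy.1) (H.inv_mem hg), Om_conj hn (h2 hg) hy.2⟩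
  · exact ⟨H.mul_mem (H.mul_mem (H.mul_mem hx hy) (H.inv_mem hx)) (H.inv_mem hy),
      OQ_comm hn (h2 hx) (h2 hy)⟩

end

end OR
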