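import Pool.Agent.OR.E08
import Pool.Agent.LieP.Z04

/-!
# MP_6c3636_al, OR, module E09: (A) and (B) for EO (stub of helper40)

As CF/W08 (`ab_EG`) with `Om n a` instead of `Ug n σ`: `N = (EO n a).subgroupOf (Om n a)` is normal (`EO_conj`), `hab` is `EO_comm`, `hodd` is `EO_odd`; `ParkerGL.propA_normal`, `ParkerGL.op_normal`, `ParkerGL.op_propB`, and `ParkerGL.ab_congr (Subgroup.subgroupOfEquivOfLe (EO_le_Om hn a))`.
-/

namespace OR

noncomputable section

open Classical Matrix CF

variable {n : ℕ} {F : Type} [Field F] [Finite F] [CharP F 2]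

theorem ab_EO (hn : Even n) {a : F} (hA : Parker.PropA Parker.ctx2 1 (Om n a)) (hO : ParkerGL.OP (Om n a)) :
    AB2 (EO n a) := by
  have hab : ∀ x y : Om n a, x * y * x⁻¹ * y⁻¹ ∈ (EO n a).subgroupOf (Om n a) := by
    intro x y
    rw [Subgroup.mem_subgroupOf]
    exact EO_comm hn x.2 y.2
  have hnor : ((EO n a).subgroupOf (Om n a)).Normal := by
    constructor
    intro x hx g
    rw [Subgroup.mem_subgroupOf] at hx ⊢
    exact EO_conj hn (Om_le n a g.2) hx
  have hA1 := ParkerGL.propA_normal Parker.ctx2 hA _ (EO_odd hn a) hab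
  have hO1 := ParkerGL.op_normal hO _ (EO_odd hn a)
  exact ParkerGL.ab_congr (Subgroup.subgroupOfEquivOfLe (EO_le_Om hn a))
    ⟨hA1, ParkerGL.op_propB hO1 Parker.ctx2⟩

end

end OR
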