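import Pool.Agent.OR.E06
import Pool.Agent.OR.E07
import Pool.Agent.CF.W09
import Pool.Agent.CF.T04

/-!
# MP_6c3636_al, OR, module E10: the unitriangular elements (stub of helper40)

As CF/W09. `eo_mem_UO`: the entries of `eo a (sv k) b` (`ei_coe`, `mv_eo`, `mv_sv`): `b i * (sv k) (rev j)` is nonzero only for `j = rev k`, `b i ≠ 0`, so `i < rev k`; `(sv k) i * b (rev j)` only for `i = k`, `b (rev j) ≠ 0`, so `rev j < rev k`, `k < j`; the last term only for `i = k`, `j = rev k`. `eo_mem_Om` (E03); `bf (sv k) b = b (rev k) = 0`. `eo_first_UO`: `i0` is the first index; `bf (sv i0) b = b (rev i0) = 0`, and `rev i0 ≤ i` means `i = rev i0`.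
`UO_le`: claim by induction (downwards in `k` from `n / 2 - 1` to `0`, as `W09_aux.main`): if `u ∈ UO n a` fixes `sv j` and `sv (rev j)` for all `(j : ℕ) < k`, `2 * k + 2 ≤ n`, then `u ∈ EO n a`. For `2 * k + 4 ≤ n`: `u (sv k)` is orthogonal to all `sv j`, `sv (rev j)`, `j < k`, so it is in `Wk n k F`, and `u` is unitriangular, so `u (sv k) = sv k`; `w = u (sv (rev k))` is in `Wk n k F`, singular (`Qa_sv`), `bf (sv k) w = 1`; `eo_move` (`v = sv k`) gives `E = eo a (sv k) b` which maps `sv (rev k)` to `w`, `b = w + sv (rev k)`; `b` vanishes at all indices `≥ rev k` (`u` is unitriangular), so `E ∈ UO` (`eo_mem_UO`), and `E⁻¹ * u ∈ UO` fixes `sv j`, `sv (rev j)` for `j ≤ k`. For `k = n / 2 - 1`: `IsT u`, and `u` is unitriangular, so for the middle indices `i`, `j` we have `t i i = t j j = 1` and by `T_mid` `t i j = a * 0 = 0`; so `u = 1`. (`n = 0`: trivial.)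
`UO_two`: `Up_two` (CF/T04).
-/

namespace OR

noncomputable section

open Classical Matrix CF

variable {n : ℕ} {F : Type} [Field F] [Finite F] [CharP F 2]

theorem eo_mem_UO (hn : Even n) {a : F} {k : Fin n} (hk : k < Fin.rev k) (hq : Qa n a (sv k) = 0)
    {b : Fin n → F} (hb : ∀ i, Fin.rev k ≤ i → b i = 0) : eo a (sv k) b ∈ UO n a := by
  have hperp : bf (sv k) b = 0 := by
    rw [bf_sv_left]
    exact hb _ le_rfl
  exact ⟨eo_mem_Om hn hq hperp, (ei_mem_Uu refl_inv hk (eo_adm hn a hperp) hb).2⟩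

theorem eo_first_UO (hn : Even n) (h4 : 4 ≤ n) {a : F} {i0 : Fin n} (h0 : (i0 : ℕ) = 0) {b : Fin n → F}
    (hb : bf (sv i0) b = 0) : eo a (sv i0) b ∈ UO n a := by
  refine eo_mem_UO hn ?_ (Qa_sv a hn ?_) ?_
  · rw [Fin.lt_def, Fin.val_rev, h0]
    omega
  · unfold Mid
    rw [h0]
    omega
  · intro i hi
    have h1 : i = Fin.rev i0 := by
      rw [Fin.le_def, Fin.val_rev, h0] at hi
      apply Fin.ext
      rw [Fin.val_rev, h0]
      have := i.2
      omega
    rw [bf_sv_left] at hb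
    rw [h1, hb]

namespace E10_aux

open CF.W09_aux (sv_ne sv_self coord coord')

theorem last (hn : Even n) {a : F} {k : ℕ} (hk : k + 1 = n / 2) {u : GL (Fin n) F} (hu : u ∈ UO n a)
    (hfix : ∀ j : Fin n, (j : ℕ) < k → mv u (sv j) = sv j ∧ mv u (sv (Fin.rev j)) = sv (Fin.rev j)) :
    u = 1 := by
  have hn2 : n / 2 * 2 = n := Nat.div_mul_cancel hn.two_dvd
  have hU : u ∈ Ug n (RingEquiv.refl F) := OQ_le_Ug hn a (Om_le n a hu.1)
  have hrow : ∀ (l : Fin n) (x : Fin n → F), ¬ Mid n l → mv u x l = x l := by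
    intro l x hl
    have hl2 := l.2
    by_cases h1 : (l : ℕ) < k
    · exact coord' hU (hfix l h1).2 x
    · have h2 : ((Fin.rev l : Fin n) : ℕ) < k := by
        rw [Fin.val_rev]
        unfold Mid at hl
        omega
      have h3 := coord hU (hfix _ h2).1 x
      rw [Fin.rev_rev] at h3
      exact h3
  have hcol : ∀ l : Fin n, ¬ Mid n l → mv u (sv l) = sv l := by
    intro l hl
    have hl2 := l.2
    by_cases h1 : (l : ℕ) < k
    · exact (hfix l h1).1
    · have h2 : ((Fin.rev l : Fin n) : ℕ) < k := by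
        rw [Fin.val_rev]
        unfold Mid at hl
        omega
      have h3 := (hfix _ h2).2
      rw [Fin.rev_rev] at h3
      exact h3
  have hT : IsT u := by
    intro l l' hne hm
    rw [← mv_sv]
    by_cases h1 : Mid n l
    · have h2 : ¬ Mid n l' := fun h => hm ⟨h1, h⟩
      rw [hcol l' h2, sv_ne hne]
    · rw [hrow l _ h1, sv_ne hne]
  obtain ⟨i, hi⟩ : ∃ i : Fin n, (i : ℕ) + 1 = n / 2 := ⟨⟨k, by omega⟩, hk⟩
  obtain ⟨j, hj⟩ : ∃ j : Fin n, (j : ℕ) = n / 2 := ⟨⟨n / 2, by omega⟩, rfl⟩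
  have hij := (T_mid hn hu.1 hT hi hj).1
  rw [mem_Up.1 hu.2 i i (lt_irrefl _), mem_Up.1 hu.2 j j (lt_irrefl _), Matrix.one_apply_eq,
    Matrix.one_apply_eq, CharTwo.add_self_eq_zero, mul_zero] at hij
  apply mv_ext
  intro l'
  funext l
  rw [mv_one, mv_sv]
  by_cases h1 : l < l'
  · rw [sv_ne (ne_of_lt h1)]
    by_cases h2 : Mid n l ∧ Mid n l'
    · have h3 : l = i := by
        apply Fin.ext
        rw [Fin.lt_def] at h1
        obtain ⟨h2, h2'⟩ := h2
        unfold Mid at h2 h2'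
        omega
      have h4 : l' = j := by
        apply Fin.ext
        rw [Fin.lt_def] at h1
        obtain ⟨h2, h2'⟩ := h2
        unfold Mid at h2 h2'
        omega
      rw [h3, h4, hij]
    · exact hT l l' (ne_of_lt h1) h2
  · rw [mem_Up.1 hu.2 l l' h1, sv, Pi.single_apply, Matrix.one_apply]

theorem main (hn : Even n) (a : F) : ∀ (m k : ℕ), m + (k + 1) = n / 2 → ∀ u ∈ UO n a,
    (∀ j : Fin n, (j : ℕ) < k → mv u (sv j) = sv j ∧ mv u (sv (Fin.rev j)) = sv (Fin.rev j)) →
    u ∈ EO n a := by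
  intro m
  induction m with
  | zero =>
    intro k hk u hu hfix
    rw [last hn (by omega) hu hfix]
    exact Subgroup.one_mem _
  | succ m ih =>
    intro k hk u hu hfix
    have hO : u ∈ OQ n a := Om_le n a hu.1
    have hU : u ∈ Ug n (RingEquiv.refl F) := OQ_le_Ug hn a hO
    have hkl : k < n := by omega
    obtain ⟨kk, hkk⟩ : ∃ kk : Fin n, (kk : ℕ) = k := ⟨⟨k, hkl⟩, rfl⟩
    have hrev : ((Fin.rev kk : Fin n) : ℕ) = n - (k + 1) := by rw [Fin.val_rev, hkk]
    have hlt : kk < Fin.rev kk := by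
      rw [Fin.lt_def, hrev, hkk]
      omega
    have hne : kk ≠ Fin.rev kk := ne_of_lt hlt
    have hmid : ¬ Mid n kk := by
      unfold Mid
      rw [hkk]
      omega
    have hmid' : ¬ Mid n (Fin.rev kk) := fun h => hmid ((Mid_rev hn).1 h)
    have hu1 : mv u (sv kk) = sv kk := by
      funext i
      by_cases h1 : (i : ℕ) < k
      · exact coord' hU (hfix i h1).2 _
      · rw [mv_sv, mem_Up.1 hu.2 i kk (by rw [Fin.lt_def, hkk]; exact h1), sv, Pi.single_apply,
          Matrix.one_apply]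
    obtain ⟨w, hw⟩ : ∃ w, w = mv u (sv (Fin.rev kk)) := ⟨_, rfl⟩
    have hvv : bf (sv kk) (sv kk : Fin n → F) = 0 := by
      rw [bf_sv_left, sv_ne hne.symm]
    have hvr : bf (sv kk) (sv (Fin.rev kk) : Fin n → F) = 1 := by
      rw [bf_sv_left, sv_self]
    have hvw : bf (sv kk) w = 1 := by
      conv_lhs => rw [← hu1]
      rw [hw, OQ_bf hn hO, hvr]
    have hqw : Qa n a (sv (Fin.rev kk)) = Qa n a w := by
      rw [hw, hO]
    obtain ⟨hperp, hmove⟩ := eo_move hn hqw (hvr.trans hvw.symm) (by rw [hvr]; exact one_ne_zero)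
    obtain ⟨b, hb⟩ : ∃ b : Fin n → F,
      b = (bf (sv kk) (sv (Fin.rev kk) : Fin n → F))⁻¹ • (sv (Fin.rev kk) + w) := ⟨_, rfl⟩
    rw [← hb] at hperp hmove
    obtain ⟨c, hc⟩ : ∃ c : F, b = c • (sv (Fin.rev kk) + w) := ⟨_, hb⟩
    have hb0 : ∀ i, Fin.rev kk ≤ i → b i = 0 := by
      intro i hi
      rw [hc, Pi.smul_apply, Pi.add_apply, hw, mv_sv, mem_Up.1 hu.2 i (Fin.rev kk) (not_lt.2 hi), sv,
        Pi.single_apply, Matrix.one_apply, CharTwo.add_self_eq_zero, smul_zero]
    have hb' : ∀ j : Fin n, (j : ℕ) < k → b j = 0 := by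
      intro j hj
      have h1 : j ≠ Fin.rev kk := by
        intro h
        have h2 := congrArg Fin.val h
        rw [hrev] at h2
        omega
      rw [hc, Pi.smul_apply, Pi.add_apply, hw, coord' hU (hfix j hj).2, sv_ne h1, add_zero, smul_zero]
    have hE : eo a (sv kk) b ∈ UO n a := eo_mem_UO hn hlt (Qa_sv a hn hmid) hb0
    have hfE : ∀ x : Fin n → F, bf (sv kk) x = 0 → bf b x = 0 → mv (eo a (sv kk) b)⁻¹ x = x := by
      intro x h1 h2
      have h3 := eo_fix hn a hperp h1 h2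
      conv_lhs => rw [← h3]
      rw [mv_inv]
    have h5 : (eo a (sv kk) b)⁻¹ * u ∈ EO n a := by
      refine ih (k + 1) (by omega) _ (Subgroup.mul_mem _ (Subgroup.inv_mem _ hE) hu) ?_
      intro j hj
      rw [mv_mul, mv_mul]
      by_cases h1 : (j : ℕ) < k
      · rw [(hfix j h1).1, (hfix j h1).2]
        have h2 : Fin.rev kk ≠ j := by
          intro h
          have h2 := congrArg Fin.val h
          rw [hrev] at h2
          omega
        have h3 : Fin.rev kk ≠ Fin.rev j := by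
          intro h
          have h4 := Fin.rev_injective h
          rw [← h4, hkk] at h1
          exact lt_irrefl _ h1
        have h4 : Fin.rev kk ≤ Fin.rev j := by
          rw [Fin.rev_le_rev, Fin.le_def, hkk]
          omega
        refine ⟨hfE _ ?_ ?_, hfE _ ?_ ?_⟩
        · rw [bf_sv_left, sv_ne h2]
        · rw [bf_sv_right, hb0 _ h4]
        · rw [bf_sv_left, sv_ne h3]
        · rw [bf_sv_right, Fin.rev_rev, hb' j h1]
      · have h2 : j = kk := by
          apply Fin.ext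
          omega
        rw [h2]
        refine ⟨?_, ?_⟩
        · rw [hu1]
          refine hfE _ hvv ?_
          rw [bf_sv_right, hb0 _ le_rfl]
        · rw [← hw, ← hmove, mv_inv]
    have h6 := Subgroup.mul_mem _ (eo_mem_EO (Qa_sv a hn hmid) hperp) h5
    rw [← mul_assoc, mul_inv_cancel, one_mul] at h6
    exact h6

end E10_aux

theorem UO_le (hn : Even n) (a : F) : UO n a ≤ EO n a := by
  intro u hu
  by_cases h0 : n / 2 = 0
  · have hn0 : n = 0 := by
      have := hn.two_dvd
      omega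
    have h1 : u = 1 := by
      apply mv_ext
      intro j
      exact absurd j.2 (by omega)
    rw [h1]
    exact Subgroup.one_mem _
  · exact E10_aux.main hn a (n / 2 - 1) 0 (by omega) u hu fun j hj => absurd hj (Nat.not_lt_zero _)

theorem UO_two {a : F} {u : GL (Fin n) F} (hu : u ∈ UO n a) : ∃ k : ℕ, u ^ (2 ^ k) = 1 :=
  Up_two hu.2

end

end OR
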