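import Pool.Agent.OR.E10
import Pool.Agent.CF.W10

/-!
# MP_6c3636_al, OR, module E11: totally singular subspaces invariant under the unitriangular elements (stub of helper40)

As CF/W10 (`flag_ug`; the auxiliary theorems `fl_one`, `fl_succ`, `sv_mem_fl`, `mem_of_add` of CF/W10 can be used, please look for their namespace). Let `k ≤ n / 2` be maximal with `Fl n k F ≤ W` (`1 ≤ k` because `sv i0 ∈ W`). If `a ≠ 0` then `k < n / 2` (otherwise `sv (n / 2 - 1) ∈ W`, but `Qa` of it is `a`, `Qa_sv_mid`), so `2 * k + 2 ≤ n`. Suppose `w ∈ W`, `w ∉ Fl n k F`. Subtracting an element of `Fl n k F` we may assume `w i = 0` for `i < k`. For `i < k`: `0 = bf (sv i) w = w (rev i)`. So `w ∈ Wk n k F`, `w ≠ 0`, and `k < n / 2`.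
Case `2 * k + 4 ≤ n`: we show `sv k ∈ W`, a contradiction to the maximality of `k`. Let `j` be the largest index with `w j ≠ 0`; `k ≤ j ≤ rev k`. If `j = k` then `w = w k • sv k`. If `k < j < rev k`: `u = eo a (sv k) (sv (rev j)) ∈ UO` (`eo_mem_UO`: `rev j < rev k`; `Qa_sv`), `w (rev k) = 0`, `u w + w = w j • sv k ∈ W`. If `j = rev k`: for all `i` with `k < i < rev k` and `u = eo a (sv k) (sv i) ∈ UO` we have `u w + w = w (rev k) • sv i + (..) • sv k ∈ W`; apply this to `i = k + 1` and to `i = rev (k + 1)`: the two vectors have the product `(w (rev k))² ≠ 0`, contradiction to `hti`.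
Case `2 * k + 2 = n`: `w` is supported in the middle indices `i = k`, `j = rev k`, `Qa w = w i * w j + a * (w i ^ 2 + w j ^ 2) = 0` (write `w = w i • sv i + w j • sv j`, `Qa_add`, `Qa_smul`, `Qa_sv_mid`, `bf_sv_left`). If `Aniso a` then `w = 0`, contradiction. So `a = 0` and `w i = 0` or `w j = 0`. In the second case `sv i ∈ W`, `Fl n (k + 1) F ≤ W`, contradiction. So `w i = 0`, `sv j ∈ W`, and `Fm n F ≤ W` (`Fm` is `Fl n (n / 2 - 1) F` plus the multiples of `sv j`); every `w' ∈ W` is in `Fm`: subtract an element of `Fl n k F`; as before `w'` is supported in the middle, `w' i = 0` because `bf (sv j) w' = 0`.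
-/

namespace OR

noncomputable section

open Classical Matrix CF

variable {n : ℕ} {F : Type} [Field F] [Finite F] [CharP F 2]

namespace E11_aux

omit [Finite F] [CharP F 2] in
/-- two vectors `c • sv p + d • sv k`, `c • sv (rev p) + d' • sv k` are not orthogonal -/
theorem bf_two (hn : Even n) {p kk : Fin n} (h1 : p ≠ kk) (h2 : Fin.rev p ≠ kk) (c d d' : F) :
    bf (c • sv p + d • sv kk) (c • sv (Fin.rev p) + d' • sv kk) = c * c := by
  have e1 : (sv (Fin.rev p) : Fin n → F) (Fin.rev p) = 1 := W09_aux.sv_self _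
  have e2 : (sv kk : Fin n → F) (Fin.rev p) = 0 := W09_aux.sv_ne h2
  have e3 : (sv (Fin.rev p) : Fin n → F) (Fin.rev kk) = 0 :=
    W09_aux.sv_ne fun h => h1 (Fin.rev_injective h).symm
  have e4 : (sv kk : Fin n → F) (Fin.rev kk) = 0 := W09_aux.sv_ne (rev_ne hn kk)
  rw [bf_add_left, bf_add_right, bf_add_right, bf_smul_left, bf_smul_left, bf_smul_left, bf_smul_left,
    bf_smul_right, bf_smul_right, bf_smul_right, bf_smul_right, bf_sv_left, bf_sv_left, bf_sv_left,
    bf_sv_left, e1, e2, e3, e4]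
  ring

omit [Finite F] in
/-- a vector with support in the middle -/
theorem Qa_two (hn : Even n) (a : F) {kk : Fin n} (h1 : Mid n kk) (x y : F) :
    Qa n a (x • sv kk + y • sv (Fin.rev kk)) = a * (x ^ 2 + y ^ 2) + x * y := by
  rw [Qa_add hn, Qa_smul, Qa_smul, Qa_sv_mid a hn h1, Qa_sv_mid a hn ((Mid_rev hn).2 h1), bf_smul_left,
    bf_smul_right, bf_sv_left, W09_aux.sv_self]
  ring

end E11_aux

open E11_aux CF.W10_aux

theorem flag_oq (hn : Even n) (h4 : 4 ≤ n) {a : F} (ha : a = 0 ∨ Aniso a) (W : Submodule F (Fin n → F))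
    (hU : ∀ u ∈ UO n a, ∀ v ∈ W, mv u v ∈ W) {i0 : Fin n} (h0 : (i0 : ℕ) = 0) (he : sv i0 ∈ W)
    (hti : ∀ v ∈ W, ∀ w ∈ W, bf v w = 0) (hq : ∀ v ∈ W, Qa n a v = 0) :
    (∃ k, 0 < k ∧ 2 * k ≤ n ∧ (a = 0 ∨ 2 * k + 2 ≤ n) ∧ W = Fl n k F) ∨ (a = 0 ∧ W = Fm n F) := by
  obtain ⟨k, hk1, hk2, hk3, hk4⟩ : ∃ k, 1 ≤ k ∧ k ≤ n ∧ Fl n k F ≤ W ∧
      (k < n → ¬ Fl n (k + 1) F ≤ W) := by
    have h1 : Fl n 1 F ≤ W := fl_one h0 he
    refine ⟨Nat.findGreatest (fun k => Fl n k F ≤ W) n, Nat.le_findGreatest (by omega) h1,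
      Nat.findGreatest_le _, ?_, ?_⟩
    · exact Nat.findGreatest_spec (P := fun k => Fl n k F ≤ W) (by omega : 1 ≤ n) h1
    · intro h2
      exact Nat.findGreatest_is_greatest (P := fun k => Fl n k F ≤ W) (Nat.lt_succ_self _) h2
  have hne : ∃ m, n = 2 * m := by
    obtain ⟨m, hm⟩ := hn
    exact ⟨m, by omega⟩
  obtain ⟨m, hm⟩ := hne
  have h2k : 2 * k ≤ n := by
    by_contra hcon
    push Not at hcon
    obtain ⟨p, hp⟩ : ∃ p : Fin n, (p : ℕ) = k - 1 := ⟨⟨k - 1, by omega⟩, rfl⟩
    have h1 : (sv p : Fin n → F) ∈ W := hk3 (sv_mem_fl (by omega))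
    have h2 : (sv (Fin.rev p) : Fin n → F) ∈ W := hk3 (sv_mem_fl (by rw [Fin.val_rev, hp]; omega))
    have h3 := hti _ h1 _ h2
    rw [bf_sv_left, W09_aux.sv_self] at h3
    exact one_ne_zero h3
  have h2a : a = 0 ∨ 2 * k + 2 ≤ n := by
    by_contra hcon
    push Not at hcon
    obtain ⟨hc1, hc2⟩ := hcon
    obtain ⟨p, hp⟩ : ∃ p : Fin n, (p : ℕ) = k - 1 := ⟨⟨k - 1, by omega⟩, rfl⟩
    have h1 := hq _ (hk3 (sv_mem_fl (i := p) (by omega)))
    rw [Qa_sv_mid a hn (Or.inl (by omega))] at h1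
    exact hc1 h1
  by_cases hW : W ≤ Fl n k F
  · exact Or.inl ⟨k, hk1, h2k, h2a, le_antisymm hW hk3⟩
  right
  obtain ⟨w0, hw0, hcon⟩ : ∃ w0 ∈ W, w0 ∉ Fl n k F := by
    by_contra h
    push Not at h
    exact hW h
  -- subtract the first coordinates
  obtain ⟨w, hw, hwlow, j0, hj0⟩ : ∃ w ∈ W, (∀ i : Fin n, (i : ℕ) < k → w i = 0) ∧ ∃ j, w j ≠ 0 := by
    have h1 : (fun i : Fin n => if (i : ℕ) < k then w0 i else 0) ∈ Fl n k F := by
      refine mem_Fl.2 fun i hi => ?_
      rw [if_neg (by omega)]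
    refine ⟨w0 - fun i : Fin n => if (i : ℕ) < k then w0 i else 0, W.sub_mem hw0 (hk3 h1), ?_, ?_⟩
    · intro i hi
      rw [Pi.sub_apply, if_pos hi, sub_self]
    · rw [mem_Fl] at hcon
      push Not at hcon
      obtain ⟨j, hj1, hj2⟩ := hcon
      refine ⟨j, ?_⟩
      rw [Pi.sub_apply, if_neg (by omega), sub_zero]
      exact hj2
  have hhigh : ∀ v ∈ W, ∀ i : Fin n, (i : ℕ) < k → v (Fin.rev i) = 0 := by
    intro v hv i hi
    have h1 := hti _ (hk3 (sv_mem_fl hi)) _ hv
    rw [bf_sv_left] at h1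
    exact h1
  have hwhigh := hhigh w hw
  obtain ⟨j, hj, hmax⟩ := Finset.exists_max_image (Finset.univ.filter (fun i => w i ≠ 0))
    (fun i : Fin n => (i : ℕ)) ⟨j0, Finset.mem_filter.2 ⟨Finset.mem_univ _, hj0⟩⟩
  rw [Finset.mem_filter] at hj
  have hj1 : w j ≠ 0 := hj.2
  have hmax' : ∀ i : Fin n, (j : ℕ) < i → w i = 0 := by
    intro i hi
    by_contra h
    have := hmax i (Finset.mem_filter.2 ⟨Finset.mem_univ _, h⟩)
    omega
  have hkj : k ≤ (j : ℕ) := by
    by_contra h
    exact hj1 (hwlow j (by omega))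
  have hkj' : k ≤ ((Fin.rev j : Fin n) : ℕ) := by
    by_contra h
    have := hwhigh (Fin.rev j) (by omega)
    rw [Fin.rev_rev] at this
    exact hj1 this
  have hjn := j.2
  rw [Fin.val_rev] at hkj'
  obtain ⟨kk, hkk⟩ : ∃ kk : Fin n, (kk : ℕ) = k := ⟨⟨k, by omega⟩, rfl⟩
  have hrev : ((Fin.rev kk : Fin n) : ℕ) = n - (k + 1) := by rw [Fin.val_rev, hkk]
  have hnot : ¬ (sv kk : Fin n → F) ∈ W := fun h => hk4 (by omega) (fl_succ hkk hk3 h)
  have hlt : kk < Fin.rev kk := by
    rw [Fin.lt_def, hrev, hkk]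
    omega
  -- the case of a multiple of `sv k`
  have hmult : ∀ v ∈ W, v kk ≠ 0 → (∀ i, i ≠ kk → v i = 0) → False := by
    intro v hv hv1 hv2
    apply hnot
    have h1 : v = v kk • (sv kk : Fin n → F) := by
      funext i
      rw [Pi.smul_apply, smul_eq_mul]
      by_cases h : i = kk
      · rw [h, W09_aux.sv_self, mul_one]
      · rw [W09_aux.sv_ne h, mul_zero]
        exact hv2 i h
    have h3 := W.smul_mem (v kk)⁻¹ hv
    rw [h1, smul_smul] at h3
    rw [Pi.smul_apply, smul_eq_mul, W09_aux.sv_self, mul_one, inv_mul_cancel₀ hv1, one_smul] at h3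
    exact h3
  rcases Nat.lt_or_ge n (2 * k + 4) with hkn | hkn
  · -- the middle
    have hnk : n = 2 * k + 2 := by omega
    have hmid : Mid n kk := Or.inl (by omega)
    have hne : kk ≠ Fin.rev kk := ne_of_lt hlt
    have hsupp : ∀ v ∈ W, (∀ i : Fin n, (i : ℕ) < k → v i = 0) → ∀ i, i ≠ kk → i ≠ Fin.rev kk → v i = 0 := by
      intro v hv hlow i hi1 hi2
      have h1 : (i : ℕ) ≠ (kk : ℕ) := fun h' => hi1 (Fin.ext h')
      have h2 : (i : ℕ) ≠ ((Fin.rev kk : Fin n) : ℕ) := fun h' => hi2 (Fin.ext h')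
      have h3 := i.2
      rcases Nat.lt_or_ge (i : ℕ) k with h5 | h5
      · exact hlow i h5
      · have h6 := hhigh v hv (Fin.rev i) (by rw [Fin.val_rev]; omega)
        rw [Fin.rev_rev] at h6
        exact h6
    have hwform : w = w kk • (sv kk : Fin n → F) + w (Fin.rev kk) • (sv (Fin.rev kk) : Fin n → F) := by
      funext i
      rw [Pi.add_apply, Pi.smul_apply, Pi.smul_apply, smul_eq_mul, smul_eq_mul]
      by_cases h1 : i = kk
      · rw [h1, W09_aux.sv_self, W09_aux.sv_ne hne, mul_one, mul_zero, add_zero]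
      · by_cases h2 : i = Fin.rev kk
        · rw [h2, W09_aux.sv_self, W09_aux.sv_ne hne.symm, mul_one, mul_zero, zero_add]
        · rw [W09_aux.sv_ne h1, W09_aux.sv_ne h2, mul_zero, mul_zero, add_zero]
          exact hsupp w hw hwlow i h1 h2
    have hqw : a * (w kk ^ 2 + w (Fin.rev kk) ^ 2) + w kk * w (Fin.rev kk) = 0 := by
      rw [← Qa_two hn a hmid, ← hwform]
      exact hq w hw
    have hnz : ¬ (w kk = 0 ∧ w (Fin.rev kk) = 0) := by
      rintro ⟨h1, h2⟩
      rw [h1, h2, zero_smul, zero_smul, add_zero] at hwform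
      rw [hwform] at hj0
      exact hj0 rfl
    have ha0 : a = 0 := by
      rcases ha with ha | ha
      · exact ha
      · exact absurd (ha _ _ hqw) hnz
    rw [ha0, zero_mul, zero_add] at hqw
    have hwkk : w kk = 0 := by
      rcases mul_eq_zero.1 hqw with h1 | h1
      · exact h1
      · exfalso
        refine hmult w hw (fun h => hnz ⟨h, h1⟩) fun i hi => ?_
        by_cases h2 : i = Fin.rev kk
        · rw [h2, h1]
        · exact hsupp w hw hwlow i hi h2
    have hwr : w (Fin.rev kk) ≠ 0 := fun h => hnz ⟨hwkk, h⟩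
    have hsvr : (sv (Fin.rev kk) : Fin n → F) ∈ W := by
      have h3 := W.smul_mem (w (Fin.rev kk))⁻¹ hw
      rw [hwform, hwkk, zero_smul, zero_add, smul_smul] at h3
      rw [Pi.smul_apply, smul_eq_mul, W09_aux.sv_self, mul_one, inv_mul_cancel₀ hwr, one_smul] at h3
      exact h3
    refine ⟨ha0, le_antisymm ?_ ?_⟩
    · intro v hv
      rw [mem_Fm]
      intro i hi
      have h3 := i.2
      rcases hi with hi | hi
      · have h6 := hhigh v hv (Fin.rev i) (by rw [Fin.val_rev]; omega)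
        rw [Fin.rev_rev] at h6
        exact h6
      · have h7 : i = kk := Fin.ext (by omega)
        have h8 := hti _ hsvr _ hv
        rw [bf_sv_left, Fin.rev_rev] at h8
        rw [h7, h8]
    · intro v hv
      rw [mem_Fm] at hv
      have h1 : v - v (Fin.rev kk) • (sv (Fin.rev kk) : Fin n → F) ∈ Fl n k F := by
        refine mem_Fl.2 fun i hi => ?_
        rw [Pi.sub_apply, Pi.smul_apply, smul_eq_mul]
        by_cases h2 : i = Fin.rev kk
        · rw [h2, W09_aux.sv_self, mul_one, sub_self]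
        · rw [W09_aux.sv_ne h2, mul_zero, sub_zero]
          refine hv i ?_
          have h3 : (i : ℕ) ≠ ((Fin.rev kk : Fin n) : ℕ) := fun h' => h2 (Fin.ext h')
          have h5 := i.2
          omega
      have h2 := W.add_mem (hk3 h1) (W.smul_mem (v (Fin.rev kk)) hsvr)
      rw [sub_add_cancel] at h2
      exact h2
  · -- the other case: contradiction
    exfalso
    have hnmid : ¬ Mid n kk := by
      rintro (h | h)
      · omega
      · omega
    have hqk : Qa n a (sv kk) = 0 := Qa_sv a hn hnmid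
    have hact : ∀ b : Fin n → F, (∀ i, Fin.rev kk ≤ i → b i = 0) →
        w + bf (sv kk) w • b + bf b w • sv kk + (Qa n a b * bf (sv kk) w) • sv kk ∈ W := by
      intro b hb
      have h1 : bf (sv kk) b = 0 := by
        rw [bf_sv_left]
        exact hb _ (le_refl _)
      have h2 := hU _ (eo_mem_UO hn hlt hqk hb) w hw
      rw [mv_eo hn a h1] at h2
      exact h2
    by_cases hjk : j = kk
    · refine hmult w hw (hjk ▸ hj1) fun i hi => ?_
      have h2 : (i : ℕ) ≠ (kk : ℕ) := fun h' => hi (Fin.ext h')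
      rcases Nat.lt_or_ge (i : ℕ) k with h3 | h3
      · exact hwlow i h3
      · refine hmax' i ?_
        rw [hjk]
        omega
    · have hkj2 : k < (j : ℕ) := by
        refine lt_of_le_of_ne hkj fun h => hjk (Fin.ext ?_)
        rw [hkk, h]
      by_cases hjr : j = Fin.rev kk
      · -- `w (rev k) ≠ 0`
        obtain ⟨p, hp⟩ : ∃ p : Fin n, (p : ℕ) = k + 1 := ⟨⟨k + 1, by omega⟩, rfl⟩
        have hx : ∀ i : Fin n, i < Fin.rev kk → ∃ d : F, w j • sv i + d • sv kk ∈ W := by
          intro i hi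
          have h1 := hact (sv i) fun l hl => W09_aux.sv_ne (ne_of_lt (lt_of_lt_of_le hi hl)).symm
          have h2 := W.sub_mem h1 hw
          refine ⟨bf (sv i) w + Qa n a (sv i) * bf (sv kk) w, ?_⟩
          have h3 : w j • sv i + (bf (sv i) w + Qa n a (sv i) * bf (sv kk) w) • sv kk =
              w + bf (sv kk) w • sv i + bf (sv i) w • sv kk + (Qa n a (sv i) * bf (sv kk) w) • sv kk - w := by
            have h5 : bf (sv kk) w = w j := by rw [bf_sv_left, hjr]
            rw [h5, add_smul]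
            abel
          rw [h3]
          exact h2
        have hpr : ((Fin.rev p : Fin n) : ℕ) = n - (k + 1 + 1) := by rw [Fin.val_rev, hp]
        obtain ⟨d, hd⟩ := hx p (by rw [Fin.lt_def, hrev, hp]; omega)
        obtain ⟨d', hd'⟩ := hx (Fin.rev p) (by rw [Fin.lt_def, hrev, hpr]; omega)
        have h1 := hti _ hd _ hd'
        rw [bf_two hn (fun h => by rw [h] at hp; omega) (fun h => by rw [h] at hpr; omega)] at h1
        exact hj1 (mul_self_eq_zero.1 h1)
      · have hjlt : (j : ℕ) < ((Fin.rev kk : Fin n) : ℕ) := by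
          have h1 : (j : ℕ) ≠ ((Fin.rev kk : Fin n) : ℕ) := fun h => hjr (Fin.ext h)
          rw [hrev] at h1 ⊢
          omega
        have h2 : bf (sv kk) w = 0 := by
          rw [bf_sv_left]
          exact hmax' _ hjlt
        have h1 := hact (sv (Fin.rev j)) fun i hi => W09_aux.sv_ne fun h => by
          rw [h, Fin.rev_le_rev, Fin.le_def] at hi
          omega
        rw [h2, zero_smul, add_zero, mul_zero, zero_smul, add_zero, bf_sv_left, Fin.rev_rev] at h1
        exact hnot (mem_of_add hj1 hw h1)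

end

end OR
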