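import Pool.Agent.OR.E05
import Pool.Agent.OR.E11
import Pool.Agent.CF.W11

/-!
# MP_6c3636_al, OR, module E12: subgroups which contain the unitriangular elements (stub of helper40)

As CF/W11. `p = sv i0`, singular (`Qa_sv`, `n ≥ 4`); all `eo a p b` are in `UO ≤ X` (`eo_first_UO`). If some `x ∈ X` has `bf (mv x p) p ≠ 0`, then `EO n a ≤ X` (`tits_eo`; `X ≤ OQ n a` by `EO_le_OQ`). Otherwise `bf (x p) (y p) = bf (y⁻¹ x p) p = 0` for all `x, y ∈ X`, so the span `W` of the `x p`, `x ∈ X` (`CF.W11_aux.Wp`, please look for the namespace, or redo it) is totally isotropic for `bf` and `Qa` vanishes on it (`Submodule.span_induction`, `Qa_add`, `Qa_smul`), it is invariant under `X` (so `X ≤ St W`), and `flag_oq` applies. `EO_not_le`, `EO_not_le'`: `EO_first` gives `x ∈ EO n a` with `mv x (sv i0) = sv i0 + b + sv (rev i0)`, `b (rev i0) = 0`, whose coordinate at the last index `rev i0` is `1`; `sv i0 ∈ Fl n k F`, `sv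 i0 ∈ Fm n F` (`n ≥ 4`), but the vectors of `Fl n k F` (`2 * k ≤ n`) and of `Fm n F` have last coordinate `0`.
-/

namespace OR

noncomputable section

open Classical Matrix CF

variable {n : ℕ} {F : Type} [Field F] [Finite F] [CharP F 2]

namespace E12_aux

/-- the form vanishes on the span of an orbit -/
theorem Wp_sing (hn : Even n) {a : F} {X : Subgroup (GL (Fin n) F)} {p : Fin n → F} (hX : X ≤ OQ n a)
    (hp : Qa n a p = 0) (h : ∀ x ∈ X, ∀ y ∈ X, bf (mv x p) (mv y p) = 0) {v : Fin n → F}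
    (hv : v ∈ W11_aux.Wp X p) : Qa n a v = 0 := by
  have key : v ∈ W11_aux.Wp X p ∧ Qa n a v = 0 := by
    refine Submodule.span_induction (p := fun v _ => v ∈ W11_aux.Wp X p ∧ Qa n a v = 0) ?_ ?_ ?_ ?_ hv
    · rintro v ⟨x, hx, rfl⟩
      exact ⟨W11_aux.mem_Wp hx, by rw [hX hx, hp]⟩
    · exact ⟨Submodule.zero_mem _, Qa_zero a⟩
    · intro b c _ _ hb hc
      refine ⟨Submodule.add_mem _ hb.1 hc.1, ?_⟩
      have h1 : bf b c = 0 := W11_aux.Wp_iso (σ := RingEquiv.refl F) h hb.1 hc.1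
      rw [Qa_add hn, hb.2, hc.2, h1, add_zero, add_zero]
    · intro r b _ hb
      refine ⟨Submodule.smul_mem _ r hb.1, ?_⟩
      rw [Qa_smul, hb.2, mul_zero]
  exact key.2

theorem first_sing (hn : Even n) (h4 : 4 ≤ n) (a : F) {i0 : Fin n} (h0 : (i0 : ℕ) = 0) :
    Qa n a (sv i0) = 0 := by
  apply Qa_sv a hn
  intro h
  unfold Mid at h
  omega

end E12_aux

open E12_aux

theorem tits_oq (hn : Even n) (h4 : 4 ≤ n) {a : F} (ha : a = 0 ∨ Aniso a) (X : Subgroup (GL (Fin n) F))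
    (hX : X ≤ EO n a) (hU : UO n a ≤ X) :
    X = EO n a ∨ (∃ k, 0 < k ∧ 2 * k ≤ n ∧ (a = 0 ∨ 2 * k + 2 ≤ n) ∧ X ≤ St (Fl n k F)) ∨
      (a = 0 ∧ X ≤ St (Fm n F)) := by
  obtain ⟨i0, h0⟩ : ∃ i0 : Fin n, (i0 : ℕ) = 0 := ⟨⟨0, by omega⟩, rfl⟩
  have hXU : X ≤ OQ n a := hX.trans (EO_le_OQ hn a)
  have hpp := first_sing (F := F) hn h4 a h0
  by_cases hc : ∃ x ∈ X, bf (mv x (sv i0)) (sv i0) ≠ 0
  · obtain ⟨x, hx, hne⟩ := hc
    left
    exact le_antisymm hX (tits_eo hn h4 X hXU hpp (fun b hb => hU (eo_first_UO hn h4 h0 hb)) hx hne).1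
  · right
    have h1 : ∀ x ∈ X, bf (mv x (sv i0)) (sv i0) = 0 := by
      intro x hx
      by_contra h
      exact hc ⟨x, hx, h⟩
    have h2 : ∀ x ∈ X, ∀ y ∈ X, bf (mv x (sv i0)) (mv y (sv i0)) = 0 := by
      intro x hx y hy
      have h3 := OQ_bf hn (hXU (X.inv_mem hy)) (mv x (sv i0)) (mv y (sv i0))
      rw [mv_inv, ← mv_mul] at h3
      rw [← h3]
      exact h1 _ (X.mul_mem (X.inv_mem hy) hx)
    have he : (sv i0 : Fin n → F) ∈ W11_aux.Wp X (sv i0) := by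
      have h3 := W11_aux.mem_Wp (p := (sv i0 : Fin n → F)) X.one_mem
      rwa [mv_one] at h3
    have hst : X ≤ St (W11_aux.Wp X (sv i0)) := by
      intro x hx
      rw [mem_St]
      intro v
      constructor
      · intro h
        have h3 := W11_aux.Wp_inv (X.inv_mem hx) h
        rwa [mv_inv] at h3
      · exact fun h => W11_aux.Wp_inv hx h
    rcases flag_oq hn h4 ha (W11_aux.Wp X (sv i0)) (fun u hu v hv => W11_aux.Wp_inv (hU hu) hv) h0 he
      (fun v hv w hw => W11_aux.Wp_iso (σ := RingEquiv.refl F) h2 hv hw)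
      (fun v hv => Wp_sing hn hXU hpp h2 hv) with ⟨k, hk, hk2, hk3, hW⟩ | ⟨ha0, hW⟩
    · left
      refine ⟨k, hk, hk2, hk3, ?_⟩
      rw [← hW]
      exact hst
    · right
      refine ⟨ha0, ?_⟩
      rw [← hW]
      exact hst

theorem EO_not_le (hn : Even n) (h4 : 4 ≤ n) (a : F) {k : ℕ} (hk : 0 < k) (hk' : 2 * k ≤ n) :
    ¬ EO n a ≤ St (Fl n k F) := by
  intro hle
  obtain ⟨i0, h0⟩ : ∃ i0 : Fin n, (i0 : ℕ) = 0 := ⟨⟨0, by omega⟩, rfl⟩
  obtain ⟨x, hx, b, h1, h2, h3⟩ := EO_first (F := F) hn h4 a h0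
  have h5 := (mem_St.1 (hle hx) (sv i0)).2 (by
    intro i hi
    exact W11_aux.sv_ne (fun h => by rw [h, h0] at hi; omega))
  rw [h3] at h5
  have h6 := h5 (Fin.rev i0) (by rw [Fin.val_rev, h0]; omega)
  rw [Pi.add_apply, Pi.add_apply, W11_aux.sv_ne (rev_ne hn i0), W11_aux.sv_same, h2, zero_add, zero_add] at h6
  exact one_ne_zero h6

theorem EO_not_le' (hn : Even n) (h4 : 4 ≤ n) (a : F) : ¬ EO n a ≤ St (Fm n F) := by
  intro hle
  obtain ⟨i0, h0⟩ : ∃ i0 : Fin n, (i0 : ℕ) = 0 := ⟨⟨0, by omega⟩, rfl⟩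
  obtain ⟨x, hx, b, h1, h2, h3⟩ := EO_first (F := F) hn h4 a h0
  have h5 := (mem_St.1 (hle hx) (sv i0)).2 (by
    intro i hi
    refine W11_aux.sv_ne (fun h => ?_)
    rw [h, h0] at hi
    omega)
  rw [h3] at h5
  have h6 := h5 (Fin.rev i0) (by rw [Fin.val_rev, h0]; omega)
  rw [Pi.add_apply, Pi.add_apply, W11_aux.sv_ne (rev_ne hn i0), W11_aux.sv_same, h2, zero_add, zero_add] at h6
  exact one_ne_zero h6

end

end OR
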