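import Pool.Agent.OR.E02

/-!
# MP_6c3636_al, OR, module E13: elements of EO which act on a hyperbolic pair (stub of helper40)

`eo_exists_w`: `g = E(e, b) * E(f, β⁻¹ • b) * E(e, b)` with `β = Qa b` (`E(v, b) = eo a v b`). Compute with `mv_eo` (characteristic two; `Qa (β⁻¹ • b) = β⁻¹`, `bf b b = 0`): `e ↦ e ↦ e + β⁻¹ • b + β⁻¹ • f ↦ β⁻¹ • f`, `f ↦ f + b + β • e ↦ b + β • e + f + .. ↦ β • e`, and for `x` orthogonal to `e`, `f`: `x ↦ x + bf b x • e ↦ x + bf b x • e + (bf b x * β⁻¹) • b ↦ x + (bf b x * β⁻¹) • b`.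
`w_torus`: `g = w(b) * w(c)` with `eo_exists_w` for `b` and for `c`: it maps `e` to `s • e`, `s = Qa b * (Qa c)⁻¹`, and `x` (orthogonal to `e`, `f`) to `rb (rc x)`, `rc x = x + (bf c x * (Qa c)⁻¹) • c` (again orthogonal to `e`, `f`). By `eo_conj`, `eo_smul`: `g * eo a e x * g⁻¹ = eo a (s • e) (rb (rc x)) = eo a e (s • rb (rc x))`, and by `eo_mul` (`eo_inv`) the commutator `g * eo a e x * g⁻¹ * (eo a e x)⁻¹` is `eo a e (s • rb (rc x) + x)`; it is in `⁅EO n a, EO n a⁆` (`Subgroup.commutator_mem_commutator`, `eo_mem_EO`).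
-/

namespace OR

noncomputable section

open Classical Matrix CF

variable {n : ℕ} {F : Type} [Field F] [Finite F] [CharP F 2]

theorem eo_exists_w (hn : Even n) {a : F} {e f b : Fin n → F} (he : Qa n a e = 0) (hf : Qa n a f = 0)
    (hef : bf e f = 1) (hb : bf e b = 0) (hb' : bf f b = 0) (hq : Qa n a b ≠ 0) :
    ∃ g ∈ EO n a, mv g e = (Qa n a b)⁻¹ • f ∧ mv g f = Qa n a b • e ∧
      ∀ x, bf e x = 0 → bf f x = 0 → mv g x = x + (bf b x * (Qa n a b)⁻¹) • b := by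
  have h2 : (2 : F) = 0 := CharTwo.two_eq_zero
  have hfe : bf f e = 1 := by rw [bf_comm]; exact hef
  have hbe : bf b e = 0 := by rw [bf_comm]; exact hb
  have hbf : bf b f = 0 := by rw [bf_comm]; exact hb'
  have hee : bf e e = 0 := bf_self hn e
  have hff : bf f f = 0 := bf_self hn f
  have hbb : bf b b = 0 := bf_self hn b
  have hfb2 : bf f ((Qa n a b)⁻¹ • b) = 0 := by rw [bf_smul_right, hb', mul_zero]
  have hQ : Qa n a ((Qa n a b)⁻¹ • b) = (Qa n a b)⁻¹ := by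
    rw [Qa_smul]
    field_simp
  refine ⟨eo a e b * eo a f ((Qa n a b)⁻¹ • b) * eo a e b, ?_, ?_, ?_, ?_⟩
  · exact Subgroup.mul_mem _ (Subgroup.mul_mem _ (eo_mem_EO he hb) (eo_mem_EO hf hfb2)) (eo_mem_EO he hb)
  · rw [mv_mul, mv_mul, eo_fix hn a hb hee hbe, mv_eo hn a hfb2, mv_eo hn a hb, hQ]
    simp only [bf_add_right, bf_smul_left, bf_smul_right, hfe, hef, hbe, hbf, hee, hbb, hb]
    ext i
    simp only [Pi.add_apply, Pi.smul_apply, smul_eq_mul]
    have hβ : Qa n a b * (Qa n a b)⁻¹ = 1 := mul_inv_cancel₀ hq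
    linear_combination (e i + (Qa n a b)⁻¹ * b i) * h2 + e i * hβ
  · rw [mv_mul, mv_mul, mv_eo hn a hb f, mv_eo hn a hfb2, mv_eo hn a hb, hQ]
    simp only [bf_add_right, bf_smul_left, bf_smul_right, hfe, hef, hbe, hbf, hee, hbb, hb, hb', hff]
    ext i
    simp only [Pi.add_apply, Pi.smul_apply, smul_eq_mul]
    have hβ : Qa n a b * (Qa n a b)⁻¹ = 1 := mul_inv_cancel₀ hq
    linear_combination (f i + b i * (1 + Qa n a b * (Qa n a b)⁻¹) + Qa n a b * e i) * h2 +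
      (f i + Qa n a b * e i) * hβ
  · intro x hx hx'
    rw [mv_mul, mv_mul, mv_eo hn a hb x, mv_eo hn a hfb2, mv_eo hn a hb, hQ]
    simp only [bf_add_right, bf_smul_left, bf_smul_right, hfe, hef, hbe, hbf, hee, hbb, hb, hb', hff, hx, hx']
    ext i
    simp only [Pi.add_apply, Pi.smul_apply, smul_eq_mul]
    linear_combination (bf b x * e i + (Qa n a b)⁻¹ * bf b x * f i + (Qa n a b)⁻¹ * bf b x * b i +
      Qa n a b * (Qa n a b)⁻¹ * bf b x * e i) * h2

theorem w_torus (hn : Even n) {a : F} {e f b c x : Fin n → F} (he : Qa n a e = 0) (hf : Qa n a f = 0)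
    (hef : bf e f = 1) (hb : bf e b = 0) (hb' : bf f b = 0) (hq : Qa n a b ≠ 0)
    (hc : bf e c = 0) (hc' : bf f c = 0) (hqc : Qa n a c ≠ 0) (hx : bf e x = 0) (hx' : bf f x = 0) :
    eo a e ((Qa n a b * (Qa n a c)⁻¹) • ((x + (bf c x * (Qa n a c)⁻¹) • c) +
      (bf b (x + (bf c x * (Qa n a c)⁻¹) • c) * (Qa n a b)⁻¹) • b) + x) ∈ ⁅EO n a, EO n a⁆ := by
  obtain ⟨w, hw, hw1, hw2, hw3⟩ := eo_exists_w hn he hf hef hb hb' hq
  obtain ⟨u, hu, hu1, hu2, hu3⟩ := eo_exists_w hn he hf hef hc hc' hqc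
  set y := x + (bf c x * (Qa n a c)⁻¹) • c with hy
  have hy1 : bf e y = 0 := by
    rw [hy, bf_add_right, bf_smul_right, hx, hc, mul_zero, add_zero]
  have hy2 : bf f y = 0 := by
    rw [hy, bf_add_right, bf_smul_right, hx', hc', mul_zero, add_zero]
  set z := y + (bf b y * (Qa n a b)⁻¹) • b with hz
  have hz1 : bf e z = 0 := by
    rw [hz, bf_add_right, bf_smul_right, hy1, hb, mul_zero, add_zero]
  have hg : w * u ∈ EO n a := Subgroup.mul_mem _ hw hu
  have hge : mv (w * u) e = (Qa n a b * (Qa n a c)⁻¹) • e := by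
    rw [mv_mul, hu1, mv_smul, hw2, smul_smul, mul_comm]
  have hgx : mv (w * u) x = z := by
    rw [mv_mul, hu3 x hx hx', ← hy, hw3 y hy1 hy2]
  have hX : eo a e x ∈ EO n a := eo_mem_EO he hx
  have h1 := Subgroup.commutator_mem_commutator hg hX
  have h3 : bf e ((Qa n a b * (Qa n a c)⁻¹) • z) = 0 := by
    rw [bf_smul_right, hz1, mul_zero]
  rw [commutatorElement_def, eo_conj hn (EO_le_OQ hn a hg) hx, hge, hgx, eo_inv hn a hx,
    eo_smul hn a hz1, eo_mul hn a h3 hx] at h1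
  exact h1

end

end OR
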