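import Pool.Agent.OR.E13

/-!
# MP_6c3636_al, OR, module E14: commutators in EO (stub of helper40)

Let `D = ⁅EO n a, EO n a⁆`, `e = sv i0`, `f = sv (rev i0)`, `i0` the first index.
`perf_out`: choose an index `l` with `0 < l < n - 1`, `l ≠ j`, `l ≠ rev j` (`n ≥ 6`). `g = eo a (sv j) (sv l) ∈ EO n a` (`bf (sv j) (sv l) = 0`) fixes `e`, and maps `x = c • sv (rev l)` to `x + c • sv j` (`mv_eo`: `bf (sv j) x = 0`, `bf (sv l) x = c`). So `g * eo a e x * g⁻¹ * (eo a e x)⁻¹ = eo a e (x + c • sv j) * eo a e x = eo a e (c • sv j) ∈ D` (`eo_conj`, `eo_mul`, `eo_inv`, `Subgroup.commutator_mem_commutator`).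
`perf_mid`: `i`, `j` the middle indices, `b = sv i`, `c = sv j` have `Qa = a` (`Qa_sv_mid`); `w_torus` for `x` supported in the middle: `rc x = x + (x i * a⁻¹) • sv j`, `rb (rc x) = rc x + ((x j + x i * a⁻¹) * a⁻¹) • sv i`, the factor is `a * a⁻¹ = 1`, so `eo a e (((x j + x i * a⁻¹) * a⁻¹) • sv i + (x i * a⁻¹) • sv j) ∈ D` (characteristic two). For given `y i`, `y j` choose `x i = a * y j`, `x j = a * y i + y j`.
`perf_four`: `n = 4`, `a = 0`, indices `0, 1, 2, 3`; choose `s ≠ 0, 1` in `F`. `w_torus` for `b = s • sv j + sv (rev j)`, `c = sv j + sv (rev j)` (`j = 1` or `2`; `Qa b = s`, `Qa c = 1`) and `x = y • sv j`: `rc x = y • sv (rev j)`, `bf b (rc x) = s * y`, `rb (rc x) = y • sv (rev j) + y • b = (s * y) • sv j`, so with the factor `Qa b * (Qa c)⁻¹ = s` the element is `eo a e (((s * s + 1) * y) • sv j) ∈ D`; `s * s + 1 = (s + 1) ^ 2 ≠ 0`, so all `eo a e (c • sv j)` are in `D`.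
-/

namespace OR

noncomputable section

open Classical Matrix CF

variable {n : ℕ} {F : Type} [Field F] [Finite F] [CharP F 2]

theorem E14_sv_self (i : Fin n) : (sv i : Fin n → F) i = 1 := Pi.single_eq_same i 1

theorem E14_sv_ne {i j : Fin n} (h : j ≠ i) : (sv i : Fin n → F) j = 0 := Pi.single_eq_of_ne h 1

theorem E14_bf_sv (i j : Fin n) (h : Fin.rev i ≠ j) : bf (sv i : Fin n → F) (sv j) = 0 := by
  rw [bf_sv_left, E14_sv_ne h]

/-- commutator of an element of `EO` which fixes `e` with an Eichler element -/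
theorem E14_comm (hn : Even n) {a : F} {g : GL (Fin n) F} (hg : g ∈ EO n a) {e x y : Fin n → F}
    (he : Qa n a e = 0) (hx : bf e x = 0) (hge : mv g e = e) (hgx : mv g x = x + y) (hy : bf e y = 0) :
    eo a e y ∈ ⁅EO n a, EO n a⁆ := by
  have h1 := Subgroup.commutator_mem_commutator hg (eo_mem_EO (a := a) he hx)
  have hxy : bf e (x + y) = 0 := by rw [bf_add_right, hx, hy, add_zero]
  rw [commutatorElement_def, eo_conj hn (EO_le_OQ hn a hg) hx, eo_inv hn a hx, hge, hgx,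
    eo_mul hn a hxy hx] at h1
  have e1 : x + y + x = y := by
    rw [add_right_comm, vec_add_self, zero_add]
  rw [e1] at h1
  exact h1

theorem perf_out (hn : Even n) (h6 : 6 ≤ n) {a : F} {i0 : Fin n} (h0 : (i0 : ℕ) = 0) {j : Fin n}
    (hj : 0 < (j : ℕ)) (hj' : (j : ℕ) + 1 < n) (hq : Qa n a (sv j) = 0) (c : F) :
    eo a (sv i0) (c • sv j) ∈ ⁅EO n a, EO n a⁆ := by
  have hn' := hn
  obtain ⟨m, hm⟩ := hn'
  obtain ⟨l, hl0, hl1, hlj, hljr⟩ : ∃ l : Fin n, 0 < (l : ℕ) ∧ (l : ℕ) + 1 < n ∧ (l : ℕ) ≠ j ∧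
      (l : ℕ) ≠ n - (j + 1) := by
    by_cases h1 : (j : ℕ) = 1 ∨ (j : ℕ) = n - 2
    · refine ⟨⟨2, by omega⟩, ?_, ?_, ?_, ?_⟩ <;> simp only <;> omega
    · refine ⟨⟨1, by omega⟩, ?_, ?_, ?_, ?_⟩ <;> simp only <;> omega
  have hrev : ∀ i : Fin n, ((Fin.rev i : Fin n) : ℕ) = n - (i + 1) := fun i => Fin.val_rev i
  have hjl : bf (sv j : Fin n → F) (sv l) = 0 := by
    apply E14_bf_sv
    intro h
    have := hrev j
    rw [h] at this
    exact hljr this
  have hg : eo a (sv j) (sv l) ∈ EO n a := eo_mem_EO hq hjl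
  have he : Qa n a (sv i0 : Fin n → F) = 0 := by
    apply Qa_sv a hn
    unfold Mid
    omega
  have hx : bf (sv i0 : Fin n → F) (c • sv (Fin.rev l)) = 0 := by
    rw [bf_smul_right, E14_bf_sv, mul_zero]
    intro h
    have h2 := hrev i0
    rw [h, hrev l] at h2
    omega
  have hyy : bf (sv i0 : Fin n → F) (c • sv j) = 0 := by
    rw [bf_smul_right, E14_bf_sv, mul_zero]
    intro h
    have h2 := hrev i0
    rw [h] at h2
    omega
  refine E14_comm hn hg he hx ?_ ?_ hyy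
  · apply eo_fix hn a hjl
    · apply E14_bf_sv
      intro h
      have h2 := hrev j
      rw [h] at h2
      omega
    · apply E14_bf_sv
      intro h
      have h2 := hrev l
      rw [h] at h2
      omega
  · have e1 : bf (sv j : Fin n → F) (c • sv (Fin.rev l)) = 0 := by
      rw [bf_smul_right, E14_bf_sv, mul_zero]
      intro h
      have h2 := hrev j
      rw [h, hrev l] at h2
      have h3 := j.2
      have h4 := l.2
      omega
    have e2 : bf (sv l : Fin n → F) (c • sv (Fin.rev l)) = c := by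
      rw [bf_smul_right, bf_sv_left, E14_sv_self, mul_one]
    rw [mv_eo hn a hjl, e1, e2, zero_smul, mul_zero, zero_smul, add_zero, add_zero]

theorem perf_mid (hn : Even n) (h4 : 4 ≤ n) {a : F} (ha : a ≠ 0) {i0 : Fin n} (h0 : (i0 : ℕ) = 0)
    {b : Fin n → F} (hb : ∀ j, ¬ Mid n j → b j = 0) : eo a (sv i0) b ∈ ⁅EO n a, EO n a⁆ := by
  have hn' := hn
  obtain ⟨m, hm⟩ := hn'
  obtain ⟨i, hi⟩ : ∃ i : Fin n, (i : ℕ) = m - 1 := ⟨⟨m - 1, by omega⟩, rfl⟩
  obtain ⟨j, hj⟩ : ∃ j : Fin n, (j : ℕ) = m := ⟨⟨m, by omega⟩, rfl⟩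
  have hrev : ∀ i : Fin n, ((Fin.rev i : Fin n) : ℕ) = n - (i + 1) := fun i => Fin.val_rev i
  have hri : Fin.rev i = j := by
    apply Fin.ext
    rw [hrev]
    omega
  have hrj : Fin.rev j = i := by rw [← hri, Fin.rev_rev]
  have hij : i ≠ j := by
    intro h
    have h2 : (i : ℕ) = j := by rw [h]
    omega
  have hMi : Mid n i := by unfold Mid; omega
  have hMj : Mid n j := by unfold Mid; omega
  have hM : ∀ k, Mid n k → k = i ∨ k = j := by
    intro k hk
    unfold Mid at hk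
    rcases hk with hk | hk
    · left
      apply Fin.ext
      omega
    · right
      apply Fin.ext
      omega
  have hMr : ¬ Mid n (Fin.rev i0) := by
    unfold Mid
    rw [hrev]
    omega
  have hM0 : ¬ Mid n i0 := by
    unfold Mid
    omega
  have hi0 : i ≠ i0 := fun h => hM0 (h ▸ hMi)
  have hj0 : j ≠ i0 := fun h => hM0 (h ▸ hMj)
  have hir : i ≠ Fin.rev i0 := fun h => hMr (h ▸ hMi)
  have hjr : j ≠ Fin.rev i0 := fun h => hMr (h ▸ hMj)
  have hQi : Qa n a (sv i : Fin n → F) = a := Qa_sv_mid a hn hMi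
  have hQj : Qa n a (sv j : Fin n → F) = a := Qa_sv_mid a hn hMj
  have he : Qa n a (sv i0 : Fin n → F) = 0 := Qa_sv a hn hM0
  have hf : Qa n a (sv (Fin.rev i0) : Fin n → F) = 0 := Qa_sv a hn hMr
  have hef : bf (sv i0 : Fin n → F) (sv (Fin.rev i0)) = 1 := by rw [bf_sv_left, E14_sv_self]
  have hei : bf (sv i0 : Fin n → F) (sv i) = 0 := by rw [bf_sv_left, E14_sv_ne hir.symm]
  have hej : bf (sv i0 : Fin n → F) (sv j) = 0 := by rw [bf_sv_left, E14_sv_ne hjr.symm]
  have hfi : bf (sv (Fin.rev i0) : Fin n → F) (sv i) = 0 := by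
    rw [bf_sv_left, Fin.rev_rev, E14_sv_ne hi0.symm]
  have hfj : bf (sv (Fin.rev i0) : Fin n → F) (sv j) = 0 := by
    rw [bf_sv_left, Fin.rev_rev, E14_sv_ne hj0.symm]
  obtain ⟨x, hx⟩ : ∃ x : Fin n → F, x = (a * b j) • sv i + (a * b i + b j) • sv j := ⟨_, rfl⟩
  have hex : bf (sv i0 : Fin n → F) x = 0 := by
    rw [hx, bf_add_right, bf_smul_right, bf_smul_right, hei, hej, mul_zero, mul_zero, add_zero]
  have hfx : bf (sv (Fin.rev i0) : Fin n → F) x = 0 := by
    rw [hx, bf_add_right, bf_smul_right, bf_smul_right, hfi, hfj, mul_zero, mul_zero, add_zero]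
  have hxi : x i = a * b j := by
    rw [hx, Pi.add_apply, Pi.smul_apply, Pi.smul_apply, E14_sv_self, E14_sv_ne hij, smul_eq_mul, smul_eq_mul,
      mul_one, mul_zero, add_zero]
  have hxj : x j = a * b i + b j := by
    rw [hx, Pi.add_apply, Pi.smul_apply, Pi.smul_apply, E14_sv_self, E14_sv_ne hij.symm, smul_eq_mul, smul_eq_mul,
      mul_one, mul_zero, zero_add]
  have hxk : ∀ k, ¬ Mid n k → x k = 0 := by
    intro k hk
    have h1 : k ≠ i := fun h => hk (h ▸ hMi)
    have h2 : k ≠ j := fun h => hk (h ▸ hMj)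
    rw [hx, Pi.add_apply, Pi.smul_apply, Pi.smul_apply, E14_sv_ne h1, E14_sv_ne h2, smul_zero, smul_zero, add_zero]
  have key := w_torus hn (a := a) (e := sv i0) (f := sv (Fin.rev i0)) (b := sv i) (c := sv j) (x := x) he hf hef
    hei hfi (by rw [hQi]; exact ha) hej hfj (by rw [hQj]; exact ha) hex hfx
  have hcx : bf (sv j : Fin n → F) x = a * b j := by rw [bf_sv_left, hrj, hxi]
  have hbx : bf (sv i : Fin n → F) (x + (a * b j * a⁻¹) • sv j) = a * b i := by
    rw [bf_sv_left, hri, Pi.add_apply, Pi.smul_apply, E14_sv_self, hxj, smul_eq_mul, mul_one]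
    have h1 : a * b j * a⁻¹ = b j := by field_simp
    rw [h1, add_assoc, CharTwo.add_self_eq_zero, add_zero]
  rw [hQi, hQj, hcx, hbx] at key
  have e1 : (a * a⁻¹) • ((x + (a * b j * a⁻¹) • sv j) + (a * b i * a⁻¹) • sv i) + x = b := by
    have h1 : a * b j * a⁻¹ = b j := by field_simp
    have h2 : a * b i * a⁻¹ = b i := by field_simp
    rw [h1, h2, mul_inv_cancel₀ ha, one_smul]
    funext k
    have h3 : x k + x k = 0 := CharTwo.add_self_eq_zero _
    rw [Pi.add_apply, Pi.add_apply, Pi.add_apply, Pi.smul_apply, Pi.smul_apply, smul_eq_mul, smul_eq_mul]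
    by_cases hk : Mid n k
    · rcases hM k hk with rfl | rfl
      · rw [E14_sv_self, E14_sv_ne hij]
        linear_combination h3
      · rw [E14_sv_self, E14_sv_ne hij.symm]
        linear_combination h3
    · have h4 : k ≠ i := fun h => hk (h ▸ hMi)
      have h5 : k ≠ j := fun h => hk (h ▸ hMj)
      rw [E14_sv_ne h4, E14_sv_ne h5, hxk k hk, hb k hk]
      ring
  rw [e1] at key
  exact key

theorem E14_exists (hF : 2 < Nat.card F) : ∃ s : F, s ≠ 0 ∧ s ≠ 1 := by
  by_contra hcon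
  push Not at hcon
  have h1 : Function.Injective (fun x : F => if x = 0 then (0 : Fin 2) else 1) := by
    intro x y hxy
    simp only at hxy
    by_cases hx : x = 0
    · by_cases hy : y = 0
      · rw [hx, hy]
      · rw [if_pos hx, if_neg hy] at hxy
        exact absurd hxy (by decide)
    · by_cases hy : y = 0
      · rw [if_neg hx, if_pos hy] at hxy
        exact absurd hxy (by decide)
      · rw [hcon x hx, hcon y hy]
  have h2 := Nat.card_le_card_of_injective _ h1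
  rw [Nat.card_fin] at h2
  omega

theorem perf_four (hF : 2 < Nat.card F) {j : Fin 4} (hj : 0 < (j : ℕ)) (hj' : (j : ℕ) < 3) (c : F) :
    eo (0 : F) (sv (0 : Fin 4)) (c • sv j) ∈ ⁅EO 4 (0 : F), EO 4 (0 : F)⁆ := by
  obtain ⟨s, hs0, hs1⟩ := E14_exists hF
  have hn : Even 4 := by decide
  have hrev : ∀ i : Fin 4, ((Fin.rev i : Fin 4) : ℕ) = 4 - (i + 1) := fun i => Fin.val_rev i
  have hrj : Fin.rev j ≠ j := rev_ne hn j
  have hr0 : (Fin.rev (0 : Fin 4)) = 3 := by decide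
  have hr3 : (Fin.rev (3 : Fin 4)) = 0 := by decide
  have hj0 : (0 : Fin 4) ≠ j := by
    intro h
    rw [← h] at hj
    exact absurd hj (by decide)
  have hj3 : (3 : Fin 4) ≠ j := by
    intro h
    rw [← h] at hj'
    exact absurd hj' (by decide)
  have hj0' : (0 : Fin 4) ≠ Fin.rev j := by
    intro h
    apply hj3
    rw [← hr0, h, Fin.rev_rev]
  have hj3' : (3 : Fin 4) ≠ Fin.rev j := by
    intro h
    apply hj0
    rw [← hr3, h, Fin.rev_rev]
  have hQ : ∀ i : Fin 4, Qa 4 (0 : F) (sv i) = 0 := fun i => Qa_sv_zero hn i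
  have hQb : ∀ s : F, Qa 4 (0 : F) (s • sv j + sv (Fin.rev j)) = s := by
    intro s
    rw [Qa_add hn, Qa_smul, hQ, hQ, bf_smul_left, bf_sv_left, E14_sv_self]
    ring
  have hbk : ∀ (s : F) (k : Fin 4), k ≠ j → k ≠ Fin.rev j → (s • sv j + sv (Fin.rev j) : Fin 4 → F) k = 0 := by
    intro s k h1 h2
    rw [Pi.add_apply, Pi.smul_apply, E14_sv_ne h1, E14_sv_ne h2, smul_zero, add_zero]
  have heb : ∀ s : F, bf (sv (0 : Fin 4) : Fin 4 → F) (s • sv j + sv (Fin.rev j)) = 0 := by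
    intro s
    rw [bf_sv_left, hr0]
    exact hbk s 3 hj3 hj3'
  have hfb : ∀ s : F, bf (sv (3 : Fin 4) : Fin 4 → F) (s • sv j + sv (Fin.rev j)) = 0 := by
    intro s
    rw [bf_sv_left, hr3]
    exact hbk s 0 hj0 hj0'
  have hef : bf (sv (0 : Fin 4) : Fin 4 → F) (sv 3) = 1 := by
    rw [bf_sv_left, hr0, E14_sv_self]
  have hbj : ∀ s : F, bf (s • sv j + sv (Fin.rev j) : Fin 4 → F) (sv j) = 1 := by
    intro s
    rw [bf_sv_right, Pi.add_apply, Pi.smul_apply, E14_sv_self, E14_sv_ne hrj, smul_zero, zero_add]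
  have hbr : ∀ s : F, bf (s • sv j + sv (Fin.rev j) : Fin 4 → F) (sv (Fin.rev j)) = s := by
    intro s
    rw [bf_sv_right, Fin.rev_rev, Pi.add_apply, Pi.smul_apply, E14_sv_self, E14_sv_ne hrj.symm, smul_eq_mul, mul_one,
      add_zero]
  have hss : s * s + 1 ≠ 0 := by
    intro h
    apply hs1
    have h1 : (s + 1) ^ 2 = 0 := by
      rw [CharTwo.add_sq]
      linear_combination h
    have h2 : s + 1 = 0 := by
      exact pow_eq_zero_iff (two_ne_zero) |>.1 h1
    have h3 : (1 : F) + 1 = 0 := CharTwo.add_self_eq_zero 1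
    linear_combination h2 - h3
  obtain ⟨y, hy⟩ : ∃ y : F, y = (s * s + 1)⁻¹ * c := ⟨_, rfl⟩
  have hyc : (s * s + 1) * y = c := by
    rw [hy, ← mul_assoc, mul_inv_cancel₀ hss, one_mul]
  have hex : bf (sv (0 : Fin 4) : Fin 4 → F) (y • sv j) = 0 := by
    rw [bf_smul_right, bf_sv_left, hr0, E14_sv_ne hj3, mul_zero]
  have hfx : bf (sv (3 : Fin 4) : Fin 4 → F) (y • sv j) = 0 := by
    rw [bf_smul_right, bf_sv_left, hr3, E14_sv_ne hj0, mul_zero]
  have key := w_torus hn (a := (0 : F)) (e := sv 0) (f := sv 3) (b := s • sv j + sv (Fin.rev j))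
    (c := (1 : F) • sv j + sv (Fin.rev j)) (x := y • sv j) (hQ 0) (hQ 3) hef (heb s) (hfb s)
    (by rw [hQb]; exact hs0) (heb 1) (hfb 1) (by rw [hQb]; exact one_ne_zero) hex hfx
  have hcx : bf ((1 : F) • sv j + sv (Fin.rev j) : Fin 4 → F) (y • sv j) = y := by
    rw [bf_smul_right, hbj, mul_one]
  have hrc : y • sv j + (y * (1 : F)⁻¹) • ((1 : F) • sv j + sv (Fin.rev j)) = (y • sv (Fin.rev j) : Fin 4 → F) := by
    rw [inv_one, mul_one, one_smul, smul_add, ← add_assoc, vec_add_self, zero_add]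
  have hbx : bf (s • sv j + sv (Fin.rev j) : Fin 4 → F) (y • sv (Fin.rev j)) = y * s := by
    rw [bf_smul_right, hbr]
  rw [hQb, hQb, hcx, hrc, hbx] at key
  have e1 : (s * (1 : F)⁻¹) • (y • sv (Fin.rev j) + (y * s * s⁻¹) • (s • sv j + sv (Fin.rev j))) + y • sv j =
      (c • sv j : Fin 4 → F) := by
    have h1 : y * s * s⁻¹ = y := by field_simp
    rw [h1, inv_one, mul_one]
    funext k
    have h3 : (sv (Fin.rev j) : Fin 4 → F) k + (sv (Fin.rev j) : Fin 4 → F) k = 0 := CharTwo.add_self_eq_zero _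
    simp only [Pi.add_apply, Pi.smul_apply, smul_eq_mul]
    linear_combination (s * y) * h3 + (sv j : Fin 4 → F) k * hyc
  rw [e1] at key
  exact key

end

end OR
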