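import Pool.Agent.OR.E02

/-!
# MP_6c3636_al, OR, module E15: the case n = 2 (helper44)

If `n = 0`: `GL (Fin 0) F` is trivial. If `n = 2`: let `Qa v = 0`, `bf v b = v 1 * b 0 + v 0 * b 1 = 0`. If `v = 0` then `eo a v b = 1` (`eo_zero_left`), otherwise `b = l • v` and `eo a v b = eo a v 0 = 1` (`eo_shift` for `b = 0`, `eo_zero_right`). So all generators are `1`, the group is trivial, so solvable.
-/

namespace OR

noncomputable section

open Classical Matrix CF

variable {n : ℕ} {F : Type} [Field F] [Finite F] [CharP F 2]

private theorem E15_gen (hn : Even n) (h2 : n ≤ 2) (a : F) {v b : Fin n → F} (hv : Qa n a v = 0)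
    (hb : bf v b = 0) : eo a v b = 1 := by
  have h3 : n = 0 ∨ n = 2 := by
    obtain ⟨k, hk⟩ := hn
    omega
  rcases h3 with rfl | rfl
  · exact Subsingleton.elim _ _
  · by_cases h0 : v = 0
    · rw [h0]
      exact eo_zero_left a hn b
    · have e1 : bf v b = v 1 * b 0 + v 0 * b 1 := by
        unfold bf
        rw [Fin.sum_univ_two]
        rfl
      rw [e1] at hb
      have e2 : v 1 * b 0 = v 0 * b 1 := CharTwo.add_eq_zero.1 hb
      have h4 : ∃ l : F, b = (0 : Fin 2 → F) + l • v := by
        by_cases h5 : v 0 = 0
        · have h6 : v 1 ≠ 0 := by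
            intro h6
            apply h0
            funext i
            fin_cases i
            · exact h5
            · exact h6
          refine ⟨b 1 / v 1, ?_⟩
          rw [h5, zero_mul] at e2
          have h7 : b 0 = 0 := by
            rcases mul_eq_zero.1 e2 with h | h
            · exact absurd h h6
            · exact h
          rw [zero_add]
          funext i
          fin_cases i
          · show b 0 = b 1 / v 1 * v 0
            rw [h7, h5, mul_zero]
          · show b 1 = b 1 / v 1 * v 1
            field_simp
        · refine ⟨b 0 / v 0, ?_⟩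
          rw [zero_add]
          funext i
          fin_cases i
          · show b 0 = b 0 / v 0 * v 0
            field_simp
          · show b 1 = b 0 / v 0 * v 1
            field_simp
            rw [mul_comm (b 0), e2, mul_comm]
      obtain ⟨l, hl⟩ := h4
      rw [hl, eo_shift hn hv (bf_zero_right v)]
      exact eo_zero_right a hn v

theorem EO_two (hn : Even n) (h2 : n ≤ 2) (a : F) : Group.IsSolvable (EO n a) := by
  have h1 : EO n a = ⊥ := by
    rw [EO, Subgroup.closure_eq_bot_iff]
    rintro g ⟨v, b, hv, hb, rfl⟩
    exact E15_gen hn h2 a hv hb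
  rw [h1]
  infer_instance

end

end OR
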