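import Pool.Agent.OR.E02
import Pool.Agent.CF.W19

/-!
# MP_6c3636_al, OR, module E16: lifts of elements to the parabolic subgroup (stub of helper40)

As CF/W19 (please copy and adapt; `iL`, `iM`, `bL`, `bM`, `Pk`, `exists_hom_L`, `exists_hom_M`, `em` are for general `σ` and can be used with `RingEquiv.refl F`; `Pk k m (RingEquiv.refl F)` contains `OQ ⊓ St` by `OQ_le_Ug`). `Mid (k + m + k) (iM k m i) ↔ Mid m i`; the indices `< k` and `≥ k + m` are not in the middle if `2 ≤ m`. `Qa_em`: compute the two sums (`W18_aux.sum_M`, or for `m = 0`: `em v = 0`). `Qa_iL`: `Qa_sv` / `Qa_sv_zero`.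
`olift_L`: by `sl_gen` (CF/T01) it is enough to lift `tv i j c`, `i ≠ j`: `eo a (sv (iL i)) (c • sv (rev (iL j)))` (`Qa (sv (iL i)) = 0`, also `Qa (sv (rev (iL j))) = 0`): it maps `x ∈ Fl` to `x + (c * x (iL j)) • sv (iL i)`.
`olift_M`: generators `eo a v b` of `EO m a`: `eo a (em v) (em b)` (`Qa_em`), it fixes `sv (iL j)` (first block `1`, preserves `Fl`), its middle block is the matrix of `eo a v b`.
`bM_OQ`: for `x : Fin m → F`, `g (em x) = em (bM g x) + y` with `y ∈ Fl` (the coordinates `≥ k + m` are `0`: `W18_aux.zM`); `Qa (g (em x)) = Qa (em x)`, `Qa y = 0` (`Qa_Fl`), `bf (em ..) y = 0` (`W19_aux.fm_em_Fl`), so `Qa m a (bM g x) = Qa m a x`.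
-/

namespace OR

noncomputable section

open Classical Matrix CF

variable {n : ℕ} {F : Type} [Field F] [Finite F] [CharP F 2]

namespace E16_aux

open W18_aux W19_aux

theorem even_k {k m : ℕ} (hm : Even m) : Even (k + m + k) := by
  obtain ⟨r, hr⟩ := hm
  exact ⟨k + r, by omega⟩

theorem half_k {k m : ℕ} (hm : Even m) : (k + m + k) / 2 = k + m / 2 := by
  obtain ⟨r, hr⟩ := hm
  omega

theorem iM_val {k m : ℕ} (i : Fin m) : ((iM k m i : Fin (k + m + k)) : ℕ) = k + i := rfl

theorem iL_val {k m : ℕ} (i : Fin k) : ((iL k m i : Fin (k + m + k)) : ℕ) = i := rfl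

theorem Mid_iM {k m : ℕ} (hm : Even m) (i : Fin m) : Mid (k + m + k) (iM k m i) ↔ Mid m i := by
  unfold Mid
  rw [half_k hm, iM_val]
  omega

end E16_aux

open E16_aux W18_aux W19_aux

theorem Qa_em (k : ℕ) {m : ℕ} (hm : Even m) (a : F) (v : Fin m → F) :
    Qa (k + m + k) a (W19_aux.em k m v) = Qa m a v := by
  unfold Qa
  have h1 : (∑ i : Fin (k + m + k), if (i : ℕ) < (k + m + k) / 2 then em k m v i * em k m v (Fin.rev i) else 0) =
      ∑ i : Fin m, if (i : ℕ) < m / 2 then v i * v (Fin.rev i) else 0 := by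
    rw [sum_M]
    · refine Finset.sum_congr rfl fun i _ => ?_
      rw [rev_iM, em_iM, em_iM, iM_val, half_k hm]
      by_cases h : (i : ℕ) < m / 2
      · rw [if_pos h, if_pos (by omega)]
      · rw [if_neg h, if_neg (by omega)]
    · intro l hl
      rw [em_lo v hl, zero_mul, ite_self]
    · intro l hl
      rw [em_hi v hl, zero_mul, ite_self]
  have h2 : (∑ i : Fin (k + m + k), if Mid (k + m + k) i then em k m v i ^ 2 else 0) =
      ∑ i : Fin m, if Mid m i then v i ^ 2 else 0 := by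
    rw [sum_M]
    · refine Finset.sum_congr rfl fun i _ => ?_
      rw [em_iM]
      by_cases h : Mid m i
      · rw [if_pos h, if_pos ((Mid_iM hm i).2 h)]
      · rw [if_neg h, if_neg (fun h' => h ((Mid_iM hm i).1 h'))]
    · intro l hl
      rw [em_lo v hl, zero_pow two_ne_zero, ite_self]
    · intro l hl
      rw [em_hi v hl, zero_pow two_ne_zero, ite_self]
  rw [h1, h2]

namespace E16_aux

variable {k m : ℕ}

omit [Finite F] in
theorem Q_iL (hm : Even m) {a : F} (hk : a = 0 ∨ 2 ≤ m) (i : Fin k) :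
    Qa (k + m + k) a (sv (iL k m i)) = 0 := by
  rcases hk with rfl | hk
  · exact Qa_sv_zero (even_k hm) _
  · apply Qa_sv a (even_k hm)
    intro h
    unfold Mid at h
    rw [half_k hm, iL_val] at h
    have := i.2
    omega

omit [Finite F] in
theorem Q_iL' (hm : Even m) {a : F} (hk : a = 0 ∨ 2 ≤ m) (i : Fin k) :
    Qa (k + m + k) a (sv (Fin.rev (iL k m i))) = 0 := by
  rcases hk with rfl | hk
  · exact Qa_sv_zero (even_k hm) _
  · apply Qa_sv a (even_k hm)
    rw [Mid_rev (even_k hm)]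
    intro h
    unfold Mid at h
    rw [half_k hm, iL_val] at h
    have := i.2
    omega

theorem bf_L {i j : Fin k} (hij : i ≠ j) (c : F) :
    bf (sv (iL k m i) : Fin (k + m + k) → F) (c • sv (Fin.rev (iL k m j))) = 0 := by
  rw [bf_sv_left, Pi.smul_apply]
  have h1 : (sv (Fin.rev (iL k m j)) : Fin (k + m + k) → F) (Fin.rev (iL k m i)) = 0 := by
    apply Pi.single_eq_of_ne
    intro h
    exact hij (iL_inj (Fin.rev_injective h))
  rw [h1, smul_zero]

theorem mvo_L (hm : Even m) {a : F} (hk : a = 0 ∨ 2 ≤ m) {i j : Fin k} (hij : i ≠ j) (c : F)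
    {x : Fin (k + m + k) → F} (hx : x ∈ Fl (k + m + k) k F) :
    mv (eo a (sv (iL k m i)) (c • sv (Fin.rev (iL k m j)))) x = x + (c * x (iL k m j)) • sv (iL k m i) := by
  have h1 : x (Fin.rev (iL k m i)) = 0 := mem_Fl.1 hx _ (by
    have := rev_big (m := m) i
    omega)
  rw [mv_eo (even_k hm) a (bf_L hij c), bf_sv_left, h1, zero_smul, mul_zero, zero_smul, add_zero, add_zero,
    bf_smul_left, bf_sv_left, Fin.rev_rev]

end E16_aux

theorem olift_L {k m : ℕ} (hm : Even m) {a : F} (hk : a = 0 ∨ 2 ≤ m) {A : GL (Fin k) F} (hA : A ∈ SLg k F) :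
    ∃ g ∈ EO (k + m + k) a ⊓ St (Fl (k + m + k) k F), bL k m g = (A : Matrix (Fin k) (Fin k) F) := by
  obtain ⟨φ, hφ⟩ := exists_hom_L (F := F) k m (σ := RingEquiv.refl F) refl_inv
  have hle : EO (k + m + k) a ≤ Ug (k + m + k) (RingEquiv.refl F) :=
    (EO_le_OQ (even_k hm) a).trans (OQ_le_Ug (even_k hm) a)
  have key : SLg k F ≤ ((EO (k + m + k) a ⊓ St (Fl (k + m + k) k F)).subgroupOf
      (Pk k m (RingEquiv.refl F))).map φ := by
    refine sl_gen _ fun i j hij c => ?_
    have hE : eo a (sv (iL k m i)) (c • sv (Fin.rev (iL k m j))) ∈ EO (k + m + k) a :=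
      eo_mem_EO (Q_iL hm hk i) (bf_L hij c)
    have hinv := eo_inv (even_k hm) a (bf_L (m := m) hij c)
    have hfl : ∀ x ∈ Fl (k + m + k) k F,
        mv (eo a (sv (iL k m i)) (c • sv (Fin.rev (iL k m j)))) x ∈ Fl (k + m + k) k F := by
      intro x hx
      rw [mvo_L hm hk hij c hx]
      exact Submodule.add_mem _ hx (Submodule.smul_mem _ _ (sv_Fl i))
    have hS : eo a (sv (iL k m i)) (c • sv (Fin.rev (iL k m j))) ∈ St (Fl (k + m + k) k F) := by
      refine st_of hfl fun x hx => ?_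
      rw [hinv]
      exact hfl x hx
    refine Subgroup.mem_map.2 ⟨⟨_, ⟨hle hE, hS⟩⟩, Subgroup.mem_subgroupOf.2 ⟨hE, hS⟩, ?_⟩
    apply Units.ext
    rw [hφ, tv_coe hij]
    ext r b
    show (eo a (sv (iL k m i)) (c • sv (Fin.rev (iL k m j))) :
      Matrix (Fin (k + m + k)) (Fin (k + m + k)) F) (iL k m r) (iL k m b) = _
    rw [← mv_sv, mvo_L hm hk hij c (sv_Fl b), Pi.add_apply, Pi.smul_apply, smul_eq_mul]
    unfold Matrix.transvection sv
    rw [Matrix.add_apply, Matrix.one_apply, Matrix.single_apply, Pi.single_apply, Pi.single_apply,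
      Pi.single_apply]
    have h2 : (iL k m r = iL k m b) ↔ r = b := ⟨fun h => iL_inj h, fun h => congrArg _ h⟩
    have h3 : (iL k m j = iL k m b) ↔ j = b := ⟨fun h => iL_inj h, fun h => congrArg _ h⟩
    have h4 : (iL k m r = iL k m i) ↔ r = i := ⟨fun h => iL_inj h, fun h => congrArg _ h⟩
    simp only [h2, h3, h4]
    congr 1
    by_cases h5 : j = b
    · by_cases h6 : r = i
      · simp [h5, h6]
      · have h7 : ¬ i = r := fun h => h6 h.symm
        simp [h6, h7]
    · simp [h5]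
  obtain ⟨g, hg, hgA⟩ := Subgroup.mem_map.1 (key hA)
  refine ⟨g.1, Subgroup.mem_subgroupOf.1 hg, ?_⟩
  rw [← hφ, hgA]

theorem olift_M {k m : ℕ} (hm : Even m) {a : F} {B : GL (Fin m) F} (hB : B ∈ EO m a) :
    ∃ g ∈ EO (k + m + k) a ⊓ St (Fl (k + m + k) k F), bL k m g = 1 ∧
      bM k m g = (B : Matrix (Fin m) (Fin m) F) := by
  obtain ⟨φ, hφ⟩ := exists_hom_L (F := F) k m (σ := RingEquiv.refl F) refl_inv
  obtain ⟨ψ, hψ⟩ := exists_hom_M (F := F) k m (σ := RingEquiv.refl F) refl_inv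
  have hle : EO (k + m + k) a ≤ Ug (k + m + k) (RingEquiv.refl F) :=
    (EO_le_OQ (even_k hm) a).trans (OQ_le_Ug (even_k hm) a)
  have key : EO m a ≤ ((EO (k + m + k) a ⊓ St (Fl (k + m + k) k F)).subgroupOf (Pk k m (RingEquiv.refl F)) ⊓
      φ.ker).map ψ := by
    rw [EO, Subgroup.closure_le]
    rintro _ ⟨v, b, hv, hb, rfl⟩
    have hb' : bf (em k m v) (em k m b) = 0 := by
      rw [← hb]
      exact fm_em (RingEquiv.refl F) v b
    have hv' : Qa (k + m + k) a (em k m v) = 0 := by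
      rw [Qa_em k hm, hv]
    have hE : eo a (em k m v) (em k m b) ∈ EO (k + m + k) a := eo_mem_EO hv' hb'
    have hfix : ∀ x ∈ Fl (k + m + k) k F, mv (eo a (em k m v) (em k m b)) x = x := by
      intro x hx
      exact eo_fix (even_k hm) a hb' (fm_em_Fl (RingEquiv.refl F) v hx) (fm_em_Fl (RingEquiv.refl F) b hx)
    have hS : eo a (em k m v) (em k m b) ∈ St (Fl (k + m + k) k F) := by
      refine st_of (fun x hx => ?_) fun x hx => ?_
      · rw [hfix x hx]
        exact hx
      · rw [eo_inv (even_k hm) a hb', hfix x hx]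
        exact hx
    refine Subgroup.mem_map.2 ⟨⟨_, ⟨hle hE, hS⟩⟩, ⟨Subgroup.mem_subgroupOf.2 ⟨hE, hS⟩, ?_⟩, ?_⟩
    · show φ _ = 1
      apply Units.ext
      rw [hφ, Units.val_one]
      ext a' b'
      show (eo a (em k m v) (em k m b) :
        Matrix (Fin (k + m + k)) (Fin (k + m + k)) F) (iL k m a') (iL k m b') = _
      rw [← mv_sv, hfix _ (sv_Fl b')]
      unfold sv
      rw [Pi.single_apply, Matrix.one_apply]
      by_cases h5 : a' = b'
      · rw [if_pos h5, if_pos (congrArg _ h5)]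
      · rw [if_neg h5, if_neg (fun h6 => h5 (iL_inj h6))]
    · apply Units.ext
      rw [(hψ _).1]
      ext a' b'
      show (eo a (em k m v) (em k m b) :
        Matrix (Fin (k + m + k)) (Fin (k + m + k)) F) (iM k m a') (iM k m b') = _
      have e1 : ∀ u w : Fin m → F, bf (em k m u) (em k m w) = bf u w := fun u w =>
        fm_em (RingEquiv.refl F) u w
      rw [← mv_sv, ← mv_sv, mv_eo (even_k hm) a hb', mv_eo hm a hb, ← em_sv, e1, e1, Qa_em k hm]
      simp only [Pi.add_apply, Pi.smul_apply, smul_eq_mul, em_iM]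
  obtain ⟨g, hg, hgB⟩ := Subgroup.mem_map.1 (key hB)
  refine ⟨g.1, Subgroup.mem_subgroupOf.1 hg.1, ?_, ?_⟩
  · have h1 : φ g = 1 := hg.2
    rw [← hφ, h1, Units.val_one]
  · rw [← (hψ g).1, hgB]

theorem bM_OQ {k m : ℕ} (hm : Even m) {a : F} (hk : a = 0 ∨ 2 ≤ m) {g : GL (Fin (k + m + k)) F}
    (hg : g ∈ OQ (k + m + k) a ⊓ St (Fl (k + m + k) k F)) {B : GL (Fin m) F}
    (hB : (B : Matrix (Fin m) (Fin m) F) = bM k m g) : B ∈ OQ m a := by
  intro x
  have hP : g ∈ Pk k m (RingEquiv.refl F) := ⟨OQ_le_Ug (even_k hm) a hg.1, hg.2⟩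
  -- the image of `em x`
  have h1 : mv g (em k m x) + em k m (mv B x) ∈ Fl (k + m + k) k F := by
    rw [mem_Fl]
    intro l hl
    rw [Pi.add_apply]
    by_cases h2 : k + m ≤ (l : ℕ)
    · rw [em_hi _ h2, add_zero]
      show (∑ j, (g : Matrix (Fin (k + m + k)) (Fin (k + m + k)) F) l j * em k m x j) = 0
      refine Finset.sum_eq_zero fun j _ => ?_
      by_cases h3 : k + m ≤ (j : ℕ)
      · rw [em_hi _ h3, mul_zero]
      · rw [zM hP (by omega) h2, zero_mul]
    · have h3 : l = iM k m ⟨(l : ℕ) - k, by omega⟩ := by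
        apply Fin.ext
        show (l : ℕ) = k + ((l : ℕ) - k)
        omega
      rw [h3, em_iM]
      have h4 : mv g (em k m x) (iM k m ⟨(l : ℕ) - k, by omega⟩) = mv B x ⟨(l : ℕ) - k, by omega⟩ := by
        show (∑ j, (g : Matrix (Fin (k + m + k)) (Fin (k + m + k)) F) (iM k m ⟨(l : ℕ) - k, by omega⟩) j *
          em k m x j) = ∑ j, (B : Matrix (Fin m) (Fin m) F) ⟨(l : ℕ) - k, by omega⟩ j * x j
        rw [sum_M]
        · refine Finset.sum_congr rfl fun j _ => ?_
          rw [em_iM, hB]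
          rfl
        · intro j hj
          rw [em_lo _ hj, mul_zero]
        · intro j hj
          rw [em_hi _ hj, mul_zero]
      rw [h4]
      exact CharTwo.add_self_eq_zero _
  obtain ⟨y, hy⟩ : ∃ y, y = mv g (em k m x) + em k m (mv B x) := ⟨_, rfl⟩
  rw [← hy] at h1
  have h2 : mv g (em k m x) = em k m (mv B x) + y := by
    rw [hy, add_comm (mv g (em k m x)), ← add_assoc, vec_add_self, zero_add]
  have h3 : Qa (k + m + k) a y = 0 := Qa_Fl (even_k hm) a (by omega) (hk.imp id (fun h => by omega)) h1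
  have h4 : bf (em k m (mv B x)) y = 0 := fm_em_Fl (RingEquiv.refl F) _ h1
  have h5 := hg.1 (em k m x)
  rw [h2, Qa_add (even_k hm), h3, h4, add_zero, add_zero, Qa_em k hm, Qa_em k hm] at h5
  exact h5

end

end OR
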