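import Pool.Agent.OR.E16
import Pool.Agent.CF.W20

/-!
# MP_6c3636_al, OR, module E17: extensions by parabolic subgroups (helper88)

As `CF.ex_stab_ug` (CF/W20): `R = EO ⊓ St (Fl ..) ≤ Pk k m (RingEquiv.refl F)` (`EO_le_OQ`, `OQ_le_Ug`). Restrict `φ` (`exists_hom_L`) and `ψ` (`exists_hom_M`) to `R`. `ex_hom` (CF/E01) for `φ`: its range contains `SLg k F` (`olift_L`), so `Ex` by `hL`. For the kernel `K` of `φ` on `R` use `ex_hom` for the restriction of `ψ` to `K`: the range contains `EO m a` (`olift_M`) and is contained in `OQ m a` (`bM_OQ`), so `Ex` by `hM`; its kernel consists of elements of `Uu` (`mem_Uu_of`), all of `2`-power order (`Uu_two`), so it is solvable (`solv_two`, `ex_solv`). Note `Even (k + m + k)` if `Even m`.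
-/

namespace OR

noncomputable section

open Classical Matrix CF

variable {n : ℕ} {F : Type} [Field F] [Finite F] [CharP F 2]

theorem ex_stab_oq {k m : ℕ} (hm : Even m) {a : F} (hk : a = 0 ∨ 2 ≤ m)
    (hL : ∀ H : Subgroup (GL (Fin k) F), IsLin H → Ex H)
    (hM : ∀ H : Subgroup (GL (Fin m) F), EO m a ≤ H → H ≤ OQ m a → Ex H) :
    Ex ↥(EO (k + m + k) a ⊓ St (Fl (k + m + k) k F)) := by
  have hσ : ∀ x : F, (RingEquiv.refl F) ((RingEquiv.refl F) x) = x := fun x => rfl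
  have hn : Even (k + m + k) := by
    obtain ⟨r, hr⟩ := hm
    exact ⟨k + r, by omega⟩
  obtain ⟨φ, hφ⟩ := exists_hom_L (F := F) k m hσ
  obtain ⟨ψ, hψ⟩ := exists_hom_M (F := F) k m hσ
  have hle : EO (k + m + k) a ⊓ St (Fl (k + m + k) k F) ≤ Pk k m (RingEquiv.refl F) :=
    inf_le_inf_right _ ((EO_le_OQ hn a).trans (OQ_le_Ug hn a))
  let ι : ↥(EO (k + m + k) a ⊓ St (Fl (k + m + k) k F)) →* ↥(Pk k m (RingEquiv.refl F)) :=
    Subgroup.inclusion hle
  let f : ↥(EO (k + m + k) a ⊓ St (Fl (k + m + k) k F)) →* GL (Fin k) F := φ.comp ι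
  let f2 : ↥f.ker →* GL (Fin m) F := (ψ.comp ι).comp f.ker.subtype
  have hf : ∀ x : ↥(EO (k + m + k) a ⊓ St (Fl (k + m + k) k F)),
      (f x : Matrix (Fin k) (Fin k) F) = bL k m x.1 := fun x => hφ (ι x)
  have hf2 : ∀ x : ↥f.ker, (f2 x : Matrix (Fin m) (Fin m) F) = bM k m x.1.1 := fun x =>
    (hψ (ι x.1)).1
  refine ex_hom f (ex_hom f2 (ex_solv ?_) (hM f2.range ?_ ?_)) (hL f.range ?_)
  · refine solv_two fun x => ?_
    have e1 : bL k m x.1.1.1 = 1 := by
      rw [← hf]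
      have h3 : f x.1.1 = 1 := x.1.2
      rw [h3]
      rfl
    have e2 : bM k m x.1.1.1 = 1 := by
      rw [← hf2]
      have h3 : f2 x.1 = 1 := x.2
      rw [h3]
      rfl
    obtain ⟨r, hr⟩ := Uu_two (mem_Uu_of hσ (hle x.1.1.2) e1 e2)
    refine ⟨r, ?_⟩
    apply Subtype.ext
    apply Subtype.ext
    apply Subtype.ext
    exact hr
  · intro B hB
    obtain ⟨g, hg, e1, e2⟩ := olift_M (k := k) hm hB
    have h3 : f ⟨g, hg⟩ = 1 := by
      apply Units.ext
      rw [hf]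
      exact e1
    refine ⟨⟨⟨g, hg⟩, h3⟩, ?_⟩
    apply Units.ext
    rw [hf2]
    exact e2
  · rintro _ ⟨x, rfl⟩
    exact bM_OQ hm hk (g := x.1.1) ⟨EO_le_OQ hn a x.1.2.1, x.1.2.2⟩ (hf2 x)
  · intro A hA
    obtain ⟨g, hg, e1⟩ := olift_L (m := m) hm hk (show A ∈ SLg k F from hA)
    refine ⟨⟨g, hg⟩, ?_⟩
    apply Units.ext
    rw [hf]
    exact e1

end

end OR
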