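import Pool.Agent.OR.E14
import Pool.Agent.OR.E05

/-!
# MP_6c3636_al, OR, module E18: EO is perfect (stub of helper40)

`commutator (EO n a)` is the subgroup `⁅⊤, ⊤⁆` of the type `EO n a`, its image in `GL` is `D = ⁅EO n a, EO n a⁆` (as in CF/W14 `EG_perfect`: `Subgroup.map_commutator`, `Subgroup.range_subtype`), so we have to show that all generators `eo a v b` (`Qa v = 0`, `bf v b = 0`) are in `D`. `v = 0`: `eo_zero_left`. Otherwise `v = c • mv y e` with `y ∈ EO`, `e = sv i0` (`EO_trans`), `eo a v b = eo a (mv y e) (c • b) = y * eo a e (mv y⁻¹ (c • b)) * y⁻¹` (`eo_smul`, `eo_conj`), and `D` is normalized by `y` (`EO_conj` is not needed: `y ∈ EO`), so we may assume `v = e`, `bf e b = b (rev i0) = 0`; by `eo_shift` we may assume `b i0 = 0`. `b = ∑ j, b j • sv j` over `0 < j < n - 1`, and the set of the `b` with `bf e b = 0` and `eo a e b ∈ D` is closed under addition (`eo_mul`). If `a = 0`: every `sv j` is singular (`Qa_sv_zero`), `perf_out` if `n ≥ 6`,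 `perf_four` if `n = 4`. If `a ≠ 0`: `perf_mid` for the middle part of `b`, and `perf_out` for the other `j` (there are none if `n = 4`; `Qa_sv`).
-/

namespace OR

noncomputable section

open Classical Matrix CF

variable {n : ℕ} {F : Type} [Field F] [Finite F] [CharP F 2]

namespace E18_aux

omit [Finite F] [CharP F 2] in
theorem sum_sv (s : Finset (Fin n)) (b : Fin n → F) :
    (∑ j ∈ s, b j • (sv j : Fin n → F)) = fun i => if i ∈ s then b i else 0 := by
  funext i
  rw [Finset.sum_apply]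
  by_cases h : i ∈ s
  · rw [if_pos h, Finset.sum_eq_single_of_mem i h]
    · rw [Pi.smul_apply, sv, Pi.single_eq_same, smul_eq_mul, mul_one]
    · intro k _ hk
      rw [Pi.smul_apply, sv, Pi.single_eq_of_ne (Ne.symm hk), smul_zero]
  · rw [if_neg h]
    refine Finset.sum_eq_zero fun k hk => ?_
    have h1 : i ≠ k := fun h' => h (h' ▸ hk)
    rw [Pi.smul_apply, sv, Pi.single_eq_of_ne h1, smul_zero]

/-- the set of the good vectors is closed under sums -/
theorem sum_mem (hn : Even n) {a : F} {e : Fin n → F} {D : Subgroup (GL (Fin n) F)} (s : Finset (Fin n))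
    (b : Fin n → F) (h : ∀ j ∈ s, bf e (b j • (sv j : Fin n → F)) = 0 ∧ eo a e (b j • (sv j : Fin n → F)) ∈ D) :
    bf e (∑ j ∈ s, b j • (sv j : Fin n → F)) = 0 ∧ eo a e (∑ j ∈ s, b j • (sv j : Fin n → F)) ∈ D := by
  induction s using Finset.induction_on with
  | empty =>
    rw [Finset.sum_empty, bf_zero_right, eo_zero_right a hn]
    exact ⟨rfl, Subgroup.one_mem _⟩
  | insert k s hk ih =>
    obtain ⟨h1, h2⟩ := h k (Finset.mem_insert_self k s)
    obtain ⟨h3, h4⟩ := ih fun j hj => h j (Finset.mem_insert_of_mem hj)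
    rw [Finset.sum_insert hk, bf_add_right, h1, h3, add_zero, ← eo_mul hn a h1 h3]
    exact ⟨rfl, Subgroup.mul_mem _ h2 h4⟩

theorem single (hn : Even n) {a : F} (h : 6 ≤ n ∨ (n = 4 ∧ (a ≠ 0 ∨ 2 < Nat.card F))) {i0 j : Fin n}
    (h0 : (i0 : ℕ) = 0) (hj : 0 < (j : ℕ)) (hj' : (j : ℕ) + 1 < n) (ha : a = 0 ∨ ¬ Mid n j) (c : F) :
    eo a (sv i0) (c • sv j) ∈ ⁅EO n a, EO n a⁆ := by
  have hq : Qa n a (sv j) = 0 := by
    rcases ha with rfl | ha
    · exact Qa_sv_zero hn j
    · exact Qa_sv a hn ha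
  rcases h with h6 | ⟨h4, h5⟩
  · exact perf_out hn h6 h0 hj hj' hq c
  · subst h4
    have hm : Mid 4 j := by
      unfold Mid
      omega
    have ha' : a = 0 := ha.resolve_right (not_not.2 hm)
    subst ha'
    have hi : i0 = 0 := Fin.ext h0
    rw [hi]
    exact perf_four (h5.resolve_left (not_not.2 rfl)) hj (by omega) c

/-- the case of the first standard vector -/
theorem first (hn : Even n) {a : F} (h : 6 ≤ n ∨ (n = 4 ∧ (a ≠ 0 ∨ 2 < Nat.card F))) {i0 : Fin n}
    (h0 : (i0 : ℕ) = 0) {b : Fin n → F} (hb : bf (sv i0) b = 0) :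
    eo a (sv i0) b ∈ ⁅EO n a, EO n a⁆ := by
  have h4 : 4 ≤ n := by omega
  have hi0 : ¬ Mid n i0 := by
    unfold Mid
    omega
  have hri0 : ¬ Mid n (Fin.rev i0) := by
    rw [Mid_rev hn]
    exact hi0
  have hQ0 : Qa n a (sv i0) = 0 := Qa_sv a hn hi0
  rw [bf_sv_left] at hb
  have hr : ∀ j : Fin n, j ≠ i0 → j ≠ Fin.rev i0 → 0 < (j : ℕ) ∧ (j : ℕ) + 1 < n := by
    intro j h1 h2
    have h3 : (j : ℕ) ≠ i0 := fun h' => h1 (Fin.ext h')
    have h5 : (j : ℕ) ≠ (Fin.rev i0 : Fin n) := fun h' => h2 (Fin.ext h')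
    rw [Fin.val_rev] at h5
    have := j.2
    omega
  set s : Finset (Fin n) := Finset.univ.filter fun j => j ≠ i0 ∧ j ≠ Fin.rev i0 ∧ (a = 0 ∨ ¬ Mid n j) with hs
  set m : Fin n → F := fun j => if a ≠ 0 ∧ Mid n j then b j else 0 with hm
  have hdec : b = (∑ j ∈ s, b j • (sv j : Fin n → F)) + m + b i0 • (sv i0 : Fin n → F) := by
    rw [sum_sv]
    funext k
    simp only [Pi.add_apply, Pi.smul_apply, smul_eq_mul, hs, hm, Finset.mem_filter, Finset.mem_univ, true_and]
    by_cases hk : k = i0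
    · subst hk
      have h1 : (sv k : Fin n → F) k = 1 := Pi.single_eq_same k 1
      rw [if_neg (fun h' => h'.1 rfl), if_neg (fun h' => hi0 h'.2), h1, zero_add, zero_add, mul_one]
    · have h1 : (sv i0 : Fin n → F) k = 0 := Pi.single_eq_of_ne hk 1
      rw [h1, mul_zero, add_zero]
      by_cases hk' : k = Fin.rev i0
      · subst hk'
        rw [if_neg (fun h' => h'.2.1 rfl), if_neg (fun h' => hri0 h'.2), hb, zero_add]
      · by_cases hk2 : a = 0 ∨ ¬ Mid n k
        · rw [if_pos ⟨hk, hk', hk2⟩, if_neg, add_zero]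
          rintro ⟨h5, h6⟩
          rcases hk2 with h7 | h7
          · exact h5 h7
          · exact h7 h6
        · have h8 : a ≠ 0 ∧ Mid n k := by
            push Not at hk2
            exact hk2
          rw [if_neg (fun h' => hk2 h'.2.2), if_pos h8, zero_add]
  have hsum : bf (sv i0) (∑ j ∈ s, b j • (sv j : Fin n → F)) = 0 ∧
      eo a (sv i0) (∑ j ∈ s, b j • (sv j : Fin n → F)) ∈ ⁅EO n a, EO n a⁆ := by
    refine sum_mem hn s b fun j hj => ?_
    simp only [hs, Finset.mem_filter, Finset.mem_univ, true_and] at hj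
    obtain ⟨h1, h2, h3⟩ := hj
    obtain ⟨h5, h6⟩ := hr j h1 h2
    refine ⟨?_, single hn h h0 h5 h6 h3 (b j)⟩
    have h7 : (sv j : Fin n → F) (Fin.rev i0) = 0 := Pi.single_eq_of_ne (Ne.symm h2) 1
    rw [bf_smul_right, bf_sv_left, h7, mul_zero]
  have hmid : bf (sv i0) m = 0 ∧ eo a (sv i0) m ∈ ⁅EO n a, EO n a⁆ := by
    refine ⟨?_, ?_⟩
    · rw [bf_sv_left]
      simp only [hm]
      rw [if_neg (fun h' => hri0 h'.2)]
    · by_cases ha : a = 0
      · have h1 : m = 0 := by
          funext k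
          simp only [hm]
          rw [if_neg (fun h' => h'.1 ha), Pi.zero_apply]
        rw [h1, eo_zero_right a hn]
        exact Subgroup.one_mem _
      · refine perf_mid hn h4 ha h0 fun j hj => ?_
        simp only [hm]
        rw [if_neg (fun h' => hj h'.2)]
  have h9 : bf (sv i0) ((∑ j ∈ s, b j • (sv j : Fin n → F)) + m) = 0 := by
    rw [bf_add_right, hsum.1, hmid.1, add_zero]
  rw [hdec, eo_shift hn hQ0 h9, ← eo_mul hn a hsum.1 hmid.1]
  exact Subgroup.mul_mem _ hsum.2 hmid.2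

end E18_aux

theorem EO_perfect (hn : Even n) {a : F} (h : 6 ≤ n ∨ (n = 4 ∧ (a ≠ 0 ∨ 2 < Nat.card F))) :
    commutator (EO n a) = ⊤ := by
  have h4 : 4 ≤ n := by omega
  have hle : EO n a ≤ ⁅EO n a, EO n a⁆ := by
    rw [EO, Subgroup.closure_le, ← EO]
    rintro g ⟨v, b, hv, hb, rfl⟩
    by_cases hv0 : v = 0
    · rw [hv0, eo_zero_left a hn]
      exact Subgroup.one_mem _
    obtain ⟨y, hy, c, hc, hvy⟩ := EO_trans hn h4 (a := a) (i0 := ⟨0, by omega⟩) rfl hv0 hv
    have hyO : y ∈ OQ n a := EO_le_OQ hn a hy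
    set i0 : Fin n := ⟨0, by omega⟩ with hi0
    have hcb : bf (mv y (sv i0)) (c • b) = 0 := by
      rw [bf_smul_right, ← bf_smul_left, ← hvy, hb]
    have h1 : bf (sv i0) (mv y⁻¹ (c • b)) = 0 := by
      rw [← OQ_bf hn hyO, mv_inv', hcb]
    have hyb : bf (mv y (sv i0)) b = 0 := by
      rw [hvy, bf_smul_left] at hb
      exact (mul_eq_zero.1 hb).resolve_left hc
    have h2 : eo a v b = y * eo a (sv i0) (mv y⁻¹ (c • b)) * y⁻¹ := by
      rw [eo_conj hn hyO h1, mv_inv', ← eo_smul hn a hyb, ← hvy]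
    have h3 := E18_aux.first hn h (i0 := i0) rfl h1
    have hD : ⁅EO n a, EO n a⁆ ≤ EO n a := by
      rw [Subgroup.commutator_le]
      intro g1 hg1 g2 hg2
      rw [commutatorElement_def]
      exact Subgroup.mul_mem _ (Subgroup.mul_mem _ (Subgroup.mul_mem _ hg1 hg2) (Subgroup.inv_mem _ hg1))
        (Subgroup.inv_mem _ hg2)
    have h5 := Subgroup.mul_mem _ (Subgroup.commutator_mem_commutator hy (hD h3)) h3
    rw [commutatorElement_def, inv_mul_cancel_right] at h5
    rw [h2]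
    exact h5
  have hmap : (commutator (EO n a)).map (EO n a).subtype = ⁅EO n a, EO n a⁆ := by
    rw [commutator_def, Subgroup.map_commutator, ← MonoidHom.range_eq_map, Subgroup.range_subtype]
  rw [eq_top_iff]
  intro x _
  have h1 : (x : GL (Fin n) F) ∈ (commutator (EO n a)).map (EO n a).subtype := by
    rw [hmap]
    exact hle x.2
  obtain ⟨y, hy, hxy⟩ := Subgroup.mem_map.1 h1
  have h2 : y = x := Subtype.ext hxy
  rwa [← h2]

end

end OR
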