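import Pool.Agent.OR.E02
import Pool.Agent.CF.E04

/-!
# MP_6c3636_al, OR, module E21: four dimensions over the field with two elements (stub of helper40)

`EO 4 0 ≤ OQ 4 0` (`EO_le_OQ`) and `OQ 4 0` has order `72 = 2 ^ 3 * 3 ^ 2`; `solv_23` (CF/E04), and a subgroup of a solvable group is solvable. The order: as in CF/W17 (`card_three`; model `Bool` for the field with two elements, the matrices are the quadruples of columns `c 0, c 1, c 2, c 3 ∈ Bool ^ 4` with `q (c i) = 0` and `b (c i) (c j) = δ_(i, rev j)`; count step by step: `9` choices for `c 0`, then `4` for `c 3`, then `2` for `c 1`, then `1` for `c 2`; or `decide +kernel` after splitting). Any other proof of solvability is also welcome (for example: `EO 4 0` is generated by two commuting subgroups `A = ⟨E(e_0, e_1), E(e_3, e_2)⟩`, `B = ⟨E(e_0, e_2), E(e_3, e_1)⟩`, each of them of order `6`).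
-/

namespace OR

noncomputable section

open Classical Matrix CF

variable {n : ℕ} {F : Type} [Field F] [Finite F] [CharP F 2]

namespace E21_aux

/-- vectors over the field with two elements -/
abbrev V : Type := Bool × Bool × Bool × Bool

/-- the quadratic form -/
def q (x : V) : Bool := xor (x.1 && x.2.2.2) (x.2.1 && x.2.2.1)

/-- the polar form -/
def b (x y : V) : Bool :=
  xor (xor (x.2.2.2 && y.1) (x.2.2.1 && y.2.1)) (xor (x.2.1 && y.2.2.1) (x.1 && y.2.2.2))

/-- the conditions as boolean functions -/
def bA (x : V) : Bool := !(q x)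

/-- the conditions as boolean functions -/
def bB (x z : V) : Bool := !(q z) && b x z

/-- the conditions as boolean functions -/
def bC (x z y : V) : Bool := !(q y) && (!(b x y) && !(b z y))

/-- the conditions as boolean functions -/
def bD (x z y w : V) : Bool := !(q w) && (!(b x w) && (!(b z w) && b y w))

/-- the condition for the columns -/
def P (p : V × V × V × V) : Bool :=
  bA p.1 && (bB p.1 p.2.1 && (bC p.1 p.2.1 p.2.2.1 && bD p.1 p.2.1 p.2.2.1 p.2.2.2))

/-- the columns -/
def c (p : V × V × V × V) : Fin 4 → V := ![p.1, p.2.2.1, p.2.2.2, p.2.1]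

theorem count4 : (∑ x : V, if bA x = true then (∑ z : V, if bB x z = true then
    (∑ y : V, if bC x z y = true then (∑ w : V, if bD x z y w = true then 1 else 0) else 0)
      else 0) else 0) = 72 := by
  decide +kernel

theorem card_P : Nat.card {p : V × V × V × V // P p = true} = 72 := by
  rw [Nat.card_eq_fintype_card, Fintype.card_subtype, Finset.card_filter, Fintype.sum_prod_type]
  rw [← count4]
  apply Finset.sum_congr rfl
  intro x _
  rw [Fintype.sum_prod_type]
  by_cases hA : bA x = true
  · rw [if_pos hA]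
    apply Finset.sum_congr rfl
    intro z _
    rw [Fintype.sum_prod_type]
    by_cases hB : bB x z = true
    · rw [if_pos hB]
      apply Finset.sum_congr rfl
      intro y _
      by_cases hC : bC x z y = true
      · rw [if_pos hC]
        apply Finset.sum_congr rfl
        intro w _
        refine if_congr ?_ rfl rfl
        simp only [P, hA, hB, hC, Bool.true_and]
      · rw [if_neg hC]
        apply Finset.sum_eq_zero
        intro w _
        rw [if_neg]
        simp [P, hC]
    · rw [if_neg hB]
      apply Finset.sum_eq_zero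
      intro y _
      apply Finset.sum_eq_zero
      intro w _
      rw [if_neg]
      simp [P, hB]
  · rw [if_neg hA]
    apply Finset.sum_eq_zero
    intro z _
    rw [Fintype.sum_prod_type]
    apply Finset.sum_eq_zero
    intro y _
    apply Finset.sum_eq_zero
    intro w _
    rw [if_neg]
    simp [P, hA]

theorem b_self (x : V) : b x x = false := by
  revert x
  decide

theorem b_comm (x y : V) : b x y = b y x := by
  revert x y
  decide +kernel

theorem P_iff (p : V × V × V × V) : P p = true ↔ (∀ i, q (c p i) = false) ∧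
    ∀ i j : Fin 4, b (c p i) (c p j) = decide (Fin.rev i = j) := by
  obtain ⟨x, z, y, w⟩ := p
  simp only [P, bA, bB, bC, bD, Bool.and_eq_true, Bool.not_eq_true']
  constructor
  · rintro ⟨h1, ⟨h2, h3⟩, ⟨h4, h5, h6⟩, h7, h8, h9, h10⟩
    refine ⟨?_, ?_⟩
    · intro i
      fin_cases i
      · exact h1
      · exact h4
      · exact h7
      · exact h2
    · intro i j
      fin_cases i <;> fin_cases j
      · exact b_self x
      · exact h5
      · exact h8
      · exact h3
      · exact (b_comm y x).trans h5
      · exact b_self y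
      · exact h10
      · exact (b_comm y z).trans h6
      · exact (b_comm w x).trans h8
      · exact (b_comm w y).trans h10
      · exact b_self w
      · exact (b_comm w z).trans h9
      · exact (b_comm z x).trans h3
      · exact h6
      · exact h9
      · exact b_self z
  · rintro ⟨h, h'⟩
    exact ⟨h 0, ⟨h 3, h' 0 3⟩, ⟨h 1, h' 0 1, h' 3 1⟩, h 2, h' 0 2, h' 3 2, h' 1 2⟩

omit [Finite F] [CharP F 2] in
/-- the element of `F` -/
def em (F : Type) [Field F] (x : Bool) : F := if x then 1 else 0

/-- the vector -/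
def vm (F : Type) [Field F] (x : V) : Fin 4 → F := ![em F x.1, em F x.2.1, em F x.2.2.1, em F x.2.2.2]

theorem em_xor (x y : Bool) : em F (xor x y) = em F x + em F y := by
  have h : (1 : F) + 1 = 0 := CharTwo.add_self_eq_zero 1
  cases x <;> cases y <;> simp [em, h]

omit [Finite F] [CharP F 2] in
theorem em_and (x y : Bool) : em F (x && y) = em F x * em F y := by
  cases x <;> cases y <;> simp [em]

omit [Finite F] [CharP F 2] in
theorem em_inj {x y : Bool} (h : em F x = em F y) : x = y := by
  cases x <;> cases y <;> simp_all [em]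

omit [Finite F] [CharP F 2] in
theorem em_false : em F false = 0 := rfl

omit [Finite F] [CharP F 2] in
theorem em_true : em F true = 1 := rfl

omit [Finite F] [CharP F 2] in
theorem Q4 (x : Fin 4 → F) : Qa 4 0 x = x 0 * x 3 + x 1 * x 2 := by
  unfold Qa
  rw [Fin.sum_univ_four, zero_mul, add_zero]
  have e0 : ((0 : Fin 4) : ℕ) < 4 / 2 := by decide
  have e1 : ((1 : Fin 4) : ℕ) < 4 / 2 := by decide
  have e2 : ¬ ((2 : Fin 4) : ℕ) < 4 / 2 := by decide
  have e3 : ¬ ((3 : Fin 4) : ℕ) < 4 / 2 := by decide
  rw [if_pos e0, if_pos e1, if_neg e2, if_neg e3, add_zero, add_zero]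
  rfl

omit [Finite F] [CharP F 2] in
theorem B4 (x y : Fin 4 → F) : bf x y = x 3 * y 0 + x 2 * y 1 + x 1 * y 2 + x 0 * y 3 := by
  unfold bf
  rw [Fin.sum_univ_four]
  rfl

theorem em_q (x : V) : Qa 4 0 (vm F x) = em F (q x) := by
  rw [Q4]
  unfold q
  rw [em_xor, em_and, em_and]
  rfl

theorem em_b (x y : V) : bf (vm F x) (vm F y) = em F (b x y) := by
  rw [B4]
  unfold b
  rw [em_xor, em_xor, em_xor, em_and, em_and, em_and, em_and, ← add_assoc]
  rfl

/-- the matrix -/
def M (F : Type) [Field F] (p : V × V × V × V) : Matrix (Fin 4) (Fin 4) F := fun i j => vm F (c p j) i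

theorem M_adj {p : V × V × V × V} (hp : P p = true) :
    LieP.adj (RingEquiv.refl F) Fin.revPerm (M F p) * M F p = 1 := by
  rw [P_iff] at hp
  have key : ∀ i j : Fin 4, (LieP.adj (RingEquiv.refl F) Fin.revPerm (M F p) * M F p) i j =
      bf (vm F (c p (Fin.rev i))) (vm F (c p j)) := by
    intro i j
    rw [Matrix.mul_apply]
    rfl
  ext i j
  rw [key, em_b, hp.2, Fin.rev_rev, Matrix.one_apply]
  by_cases h : i = j
  · rw [if_pos h, decide_eq_true h, em_true]
  · rw [if_neg h, decide_eq_false h, em_false]

/-- the element of the general linear group -/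
def gm {p : V × V × V × V} (hp : P p = true) : GL (Fin 4) F :=
  ⟨M F p, LieP.adj (RingEquiv.refl F) Fin.revPerm (M F p), mul_eq_one_comm.mp (M_adj hp), M_adj hp⟩

theorem mv_gm {p : V × V × V × V} (hp : P p = true) (x : Fin 4 → F) : mv (gm hp) x =
    x 0 • vm F (c p 0) + x 1 • vm F (c p 1) + x 2 • vm F (c p 2) + x 3 • vm F (c p 3) := by
  funext i
  show (M F p).mulVec x i = _
  rw [Matrix.mulVec, dotProduct, Fin.sum_univ_four]
  simp only [Pi.add_apply, Pi.smul_apply, smul_eq_mul, M]
  ring

theorem gm_mem {p : V × V × V × V} (hp : P p = true) : (gm hp : GL (Fin 4) F) ∈ OQ 4 0 := by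
  intro x
  rw [mv_gm]
  have h4 : Even 4 := ⟨2, rfl⟩
  have hq := ((P_iff p).mp hp).1
  have hb := ((P_iff p).mp hp).2
  simp only [Qa_add h4, Qa_smul, bf_add_left, bf_smul_left, bf_smul_right, em_q, em_b, hq, hb]
  have e01 : decide (Fin.rev (0 : Fin 4) = 1) = false := by decide
  have e02 : decide (Fin.rev (0 : Fin 4) = 2) = false := by decide
  have e03 : decide (Fin.rev (0 : Fin 4) = 3) = true := by decide
  have e12 : decide (Fin.rev (1 : Fin 4) = 2) = true := by decide
  have e13 : decide (Fin.rev (1 : Fin 4) = 3) = false := by decide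
  have e23 : decide (Fin.rev (2 : Fin 4) = 3) = false := by decide
  rw [e01, e02, e03, e12, e13, e23, em_true, em_false, Q4]
  ring

omit [Finite F] [CharP F 2] in
theorem em_surj (hF : ∀ x : F, x = 0 ∨ x = 1) (x : F) : ∃ y, em F y = x := by
  rcases hF x with h | h
  · exact ⟨false, h.symm⟩
  · exact ⟨true, h.symm⟩

omit [Finite F] [CharP F 2] in
theorem vm_surj (hF : ∀ x : F, x = 0 ∨ x = 1) (x : Fin 4 → F) : ∃ y, vm F y = x := by
  obtain ⟨a, ha⟩ := em_surj hF (x 0)
  obtain ⟨b, hb⟩ := em_surj hF (x 1)
  obtain ⟨c, hc⟩ := em_surj hF (x 2)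
  obtain ⟨d, hd⟩ := em_surj hF (x 3)
  refine ⟨(a, b, c, d), ?_⟩
  funext i
  fin_cases i
  · exact ha
  · exact hb
  · exact hc
  · exact hd

omit [Finite F] [CharP F 2] in
theorem vm_inj {x y : V} (h : vm F x = vm F y) : x = y := by
  have h0 := em_inj (congrFun h 0)
  have h1 := em_inj (congrFun h 1)
  have h2 := em_inj (congrFun h 2)
  have h3 := em_inj (congrFun h 3)
  exact Prod.ext h0 (Prod.ext h1 (Prod.ext h2 h3))

theorem card_OQ (hF : ∀ x : F, x = 0 ∨ x = 1) : Nat.card (OQ 4 (0 : F)) = 72 := by
  rw [← card_P]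
  symm
  refine Nat.card_congr (Equiv.ofBijective
    (fun p => (⟨gm p.2, gm_mem p.2⟩ : OQ 4 (0 : F))) ⟨?_, ?_⟩)
  · intro p p' hp
    have h1 : M F p.1 = M F p'.1 := congrArg Units.val (congrArg Subtype.val hp)
    have h2 : ∀ j : Fin 4, c p.1 j = c p'.1 j := by
      intro j
      apply vm_inj (F := F)
      funext i
      exact congrFun (congrFun h1 i) j
    apply Subtype.ext
    exact Prod.ext (h2 0) (Prod.ext (h2 3) (Prod.ext (h2 1) (h2 2)))
  · rintro ⟨g, hg⟩
    have h4 : Even 4 := ⟨2, rfl⟩
    choose e he using fun j : Fin 4 => vm_surj hF (mv g (sv j))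
    let p : V × V × V × V := (e 0, e 3, e 1, e 2)
    have hc : ∀ j : Fin 4, c p j = e j := by
      intro j
      fin_cases j <;> rfl
    have hP : P p = true := by
      rw [P_iff]
      refine ⟨?_, ?_⟩
      · intro i
        apply em_inj (F := F)
        rw [hc, ← em_q, he, hg, Qa_sv_zero h4]
        rfl
      · intro i j
        apply em_inj (F := F)
        rw [hc, hc, ← em_b, he, he, OQ_bf h4 hg, bf_sv_left, sv]
        by_cases h : Fin.rev i = j
        · rw [decide_eq_true h, h, Pi.single_eq_same]
          rfl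
        · rw [decide_eq_false h, Pi.single_eq_of_ne h]
          rfl
    refine ⟨⟨p, hP⟩, ?_⟩
    apply Subtype.ext
    apply Units.ext
    ext i j
    show vm F (c p j) i = _
    rw [hc, he, mv_sv]

end E21_aux

open E21_aux

theorem EO_four (hF : ¬ 2 < Nat.card F) : Group.IsSolvable (EO 4 (0 : F)) := by
  have hF2 : ∀ x : F, x = 0 ∨ x = 1 := by
    intro x
    by_contra hcon
    push Not at hcon
    apply hF
    have hinj : Function.Injective (![0, 1, x] : Fin 3 → F) := by
      intro i j hij
      have e01 : (0 : F) ≠ 1 := zero_ne_one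
      fin_cases i <;> fin_cases j <;> simp_all
    have h3 := Nat.card_le_card_of_injective _ hinj
    rw [Nat.card_eq_fintype_card, Fintype.card_fin] at h3
    omega
  have h1 : Group.IsSolvable (OQ 4 (0 : F)) := by
    refine solv_23 (a := 3) (b := 2) le_rfl ?_
    rw [card_OQ hF2]
    norm_num
  exact Group.isSolvable_of_isSolvable_injective (f := Subgroup.inclusion (EO_le_OQ ⟨2, rfl⟩ 0))
    (Subgroup.inclusion_injective _)

end

end OR
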