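import Pool.Agent.OR.E02
import Pool.Agent.CF.E01

/-!
# MP_6c3636_al, OR, module E22: the second class of maximal totally singular subspaces (stub of helper40)

Let `γ` be the permutation matrix which interchanges the two middle indices `i`, `rev i`, `(i : ℕ) + 1 = n / 2` (`Matrix.reindex` or `Equiv.Perm.permMatrix`, or write down the matrix; `γ * γ = 1`); `mv γ v = v ∘ swap`. `γ ∈ OQ n 0` (`Equiv.swap i (rev i)` commutes with `rev`; the product `v i * v (rev i)` is preserved), and `mv γ v ∈ Fm n F ↔ v ∈ Fl n (n / 2) F`. Conjugation with `γ` maps `EO n 0` to itself (`eo_conj`, `Subgroup.closure_induction`) and `St (Fl n (n / 2) F)` to `St (Fm n F)`, so the two subgroups are isomorphic (`(MulAut.conj γ).subgroupMap`, or `Subgroup.equivMapOfInjective`); `ex_congr` (CF/E01).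
-/

namespace OR

noncomputable section

open Classical Matrix CF

variable {n : ℕ} {F : Type} [Field F] [Finite F] [CharP F 2]

namespace E22_aux

/-- the permutation matrix of an involution -/
def pM (F : Type) [Field F] (s : Equiv.Perm (Fin n)) : Matrix (Fin n) (Fin n) F := fun i j => if s i = j then 1 else 0

omit [Finite F] [CharP F 2] in
theorem pM_mulVec (s : Equiv.Perm (Fin n)) (v : Fin n → F) : (pM F s).mulVec v = fun i => v (s i) := by
  funext i
  unfold pM Matrix.mulVec dotProduct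
  rw [Finset.sum_eq_single (s i)]
  · show (if s i = s i then (1 : F) else 0) * v (s i) = v (s i)
    rw [if_pos rfl, one_mul]
  · intro j _ hj
    show (if s i = j then (1 : F) else 0) * v j = 0
    rw [if_neg (Ne.symm hj), zero_mul]
  · intro h
    exact absurd (Finset.mem_univ _) h

omit [Finite F] [CharP F 2] in
theorem pM_sq {s : Equiv.Perm (Fin n)} (hs : ∀ i, s (s i) = i) : pM F s * pM F s = 1 := by
  have h1 : ∀ v : Fin n → F, (pM F s * pM F s).mulVec v = v := by
    intro v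
    rw [← Matrix.mulVec_mulVec, pM_mulVec, pM_mulVec]
    funext i
    show v (s (s i)) = v i
    rw [hs]
  ext i j
  have h2 := congrFun (h1 (Pi.single j 1)) i
  rw [Matrix.mulVec_single_one, Matrix.col_apply] at h2
  rw [h2, Matrix.one_apply, Pi.single_apply]

/-- the permutation matrix as an element of the general linear group -/
def pG (F : Type) [Field F] (s : Equiv.Perm (Fin n)) (hs : ∀ i, s (s i) = i) : GL (Fin n) F :=
  ⟨pM F s, pM F s, pM_sq hs, pM_sq hs⟩

omit [Finite F] [CharP F 2] in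
theorem mv_pG {s : Equiv.Perm (Fin n)} (hs : ∀ i, s (s i) = i) (v : Fin n → F) :
    mv (pG F s hs) v = fun i => v (s i) := pM_mulVec s v

omit [Finite F] [CharP F 2] in
theorem mv_pG_inv {s : Equiv.Perm (Fin n)} (hs : ∀ i, s (s i) = i) (v : Fin n → F) :
    mv (pG F s hs)⁻¹ v = fun i => v (s i) := pM_mulVec s v

omit [Finite F] [CharP F 2] in
theorem EO_conj_le [Finite F] [CharP F 2] (hn : Even n) {a : F} {g : GL (Fin n) F} (hg : g ∈ OQ n a)
    {x : GL (Fin n) F} (hx : x ∈ EO n a) : g * x * g⁻¹ ∈ EO n a := by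
  unfold EO at hx ⊢
  induction hx using Subgroup.closure_induction with
  | mem x hx =>
    obtain ⟨v, b, hv, hb, rfl⟩ := hx
    rw [eo_conj hn hg hb]
    refine Subgroup.subset_closure ⟨mv g v, mv g b, ?_, ?_, rfl⟩
    · rw [hg v, hv]
    · rw [OQ_bf hn hg, hb]
  | one =>
    rw [mul_one, mul_inv_cancel]
    exact Subgroup.one_mem _
  | mul x y _ _ hx hy =>
    have h1 : g * (x * y) * g⁻¹ = (g * x * g⁻¹) * (g * y * g⁻¹) := by group
    rw [h1]
    exact Subgroup.mul_mem _ hx hy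
  | inv x _ hx =>
    have h1 : g * x⁻¹ * g⁻¹ = (g * x * g⁻¹)⁻¹ := by group
    rw [h1]
    exact Subgroup.inv_mem _ hx

omit [Finite F] [CharP F 2] in
theorem EO_conj_iff [Finite F] [CharP F 2] (hn : Even n) {a : F} {g : GL (Fin n) F} (hg : g ∈ OQ n a)
    (x : GL (Fin n) F) : g * x * g⁻¹ ∈ EO n a ↔ x ∈ EO n a := by
  refine ⟨fun h => ?_, EO_conj_le hn hg⟩
  have h1 := EO_conj_le hn ((OQ n a).inv_mem hg) h
  have h2 : g⁻¹ * (g * x * g⁻¹) * g⁻¹⁻¹ = x := by group
  rwa [h2] at h1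

omit [Finite F] [CharP F 2] in
theorem St_conj {W W' : Submodule F (Fin n → F)} {g : GL (Fin n) F} (hg : ∀ v, mv g v ∈ W' ↔ v ∈ W)
    (x : GL (Fin n) F) : g * x * g⁻¹ ∈ St W' ↔ x ∈ St W := by
  rw [mem_St, mem_St]
  constructor
  · intro h v
    have h1 := h (mv g v)
    rw [← mv_mul, inv_mul_cancel_right, mv_mul, hg, hg] at h1
    exact h1
  · intro h v
    have h1 := h (mv g⁻¹ v)
    rw [← hg, ← hg, mv_inv', ← mv_mul, ← mv_mul] at h1
    exact h1

/-- the interchange of the two middle indices -/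
def sw (h2 : 2 ≤ n) : Equiv.Perm (Fin n) :=
  Equiv.swap ⟨n / 2 - 1, by omega⟩ ⟨n / 2, by omega⟩

theorem sw_sq (h2 : 2 ≤ n) (i : Fin n) : sw h2 (sw h2 i) = i := Equiv.swap_apply_self _ _ _

theorem sw_lo (h2 : 2 ≤ n) {i : Fin n} (hi : (i : ℕ) + 1 = n / 2) :
    ((sw h2 i : Fin n) : ℕ) = n / 2 := by
  have h1 : i = ⟨n / 2 - 1, by omega⟩ := by
    apply Fin.ext
    show (i : ℕ) = n / 2 - 1
    omega
  rw [h1, sw, Equiv.swap_apply_left]

theorem sw_hi (h2 : 2 ≤ n) {i : Fin n} (hi : (i : ℕ) = n / 2) :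
    ((sw h2 i : Fin n) : ℕ) + 1 = n / 2 := by
  have h1 : i = ⟨n / 2, by omega⟩ := Fin.ext hi
  rw [h1, sw, Equiv.swap_apply_right]
  show n / 2 - 1 + 1 = n / 2
  omega

theorem sw_ne (h2 : 2 ≤ n) {i : Fin n} (hi : ¬ Mid n i) : sw h2 i = i := by
  unfold Mid at hi
  refine Equiv.swap_apply_of_ne_of_ne ?_ ?_
  · intro h
    have h1 : (i : ℕ) = n / 2 - 1 := by rw [h]
    omega
  · intro h
    have h1 : (i : ℕ) = n / 2 := by rw [h]
    omega

omit [Finite F] [CharP F 2] in
theorem pG_mem (hn : Even n) (h2 : 2 ≤ n) : pG F (sw h2) (sw_sq h2) ∈ OQ n (0 : F) := by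
  intro v
  rw [mv_pG]
  unfold Qa
  rw [zero_mul, zero_mul, add_zero, add_zero]
  refine Finset.sum_congr rfl fun i _ => ?_
  by_cases h : (i : ℕ) < n / 2
  · rw [if_pos h, if_pos h]
    by_cases hm : Mid n i
    · have hi : (i : ℕ) + 1 = n / 2 := by
        unfold Mid at hm
        omega
      have h3 : sw h2 i = Fin.rev i := by
        apply Fin.ext
        rw [sw_lo h2 hi, Fin.val_rev]
        obtain ⟨k, hk⟩ := hn
        omega
      have h4 : sw h2 (Fin.rev i) = i := by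
        rw [← h3, sw_sq]
      show v (sw h2 i) * v (sw h2 (Fin.rev i)) = v i * v (Fin.rev i)
      rw [h3, h4, mul_comm]
    · have hm' : ¬ Mid n (Fin.rev i) := fun h' => hm ((Mid_rev hn).1 h')
      show v (sw h2 i) * v (sw h2 (Fin.rev i)) = v i * v (Fin.rev i)
      rw [sw_ne h2 hm, sw_ne h2 hm']
  · rw [if_neg h, if_neg h]

omit [Finite F] [CharP F 2] in
theorem pG_Fm (h2 : 2 ≤ n) (v : Fin n → F) :
    mv (pG F (sw h2) (sw_sq h2)) v ∈ Fm n F ↔ v ∈ Fl n (n / 2) F := by
  rw [mv_pG, mem_Fm, mem_Fl]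
  constructor
  · intro h i hi
    rcases Nat.lt_or_ge (n / 2) (i : ℕ) with hlt | hge
    · have h1 := h i (Or.inl hlt)
      have h3 : sw h2 i = i := by
        refine sw_ne h2 ?_
        unfold Mid
        omega
      rwa [h3] at h1
    · have hi' : (i : ℕ) = n / 2 := by omega
      have h1 := h (sw h2 i) (Or.inr (sw_hi h2 hi'))
      rwa [sw_sq] at h1
  · intro h i hi
    refine h _ ?_
    rcases hi with hi | hi
    · rw [sw_ne h2 (by unfold Mid; omega)]
      omega
    · rw [sw_lo h2 hi]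

end E22_aux

theorem ex_stab_Fm (hn : Even n) (h2 : 2 ≤ n) (h : Ex ↥(EO n (0 : F) ⊓ St (Fl n (n / 2) F))) :
    Ex ↥(EO n (0 : F) ⊓ St (Fm n F)) := by
  have hmap : (EO n (0 : F) ⊓ St (Fl n (n / 2) F)).map
      (MulAut.conj (E22_aux.pG F (E22_aux.sw h2) (E22_aux.sw_sq h2))).toMonoidHom =
      EO n (0 : F) ⊓ St (Fm n F) := by
    ext y
    rw [Subgroup.mem_map]
    constructor
    · rintro ⟨x, hx, rfl⟩
      rw [Subgroup.mem_inf] at hx ⊢
      exact ⟨(E22_aux.EO_conj_iff hn (E22_aux.pG_mem hn h2) x).2 hx.1,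
        (E22_aux.St_conj (E22_aux.pG_Fm h2) x).2 hx.2⟩
    · intro hy
      rw [Subgroup.mem_inf] at hy
      refine ⟨(E22_aux.pG F (E22_aux.sw h2) (E22_aux.sw_sq h2))⁻¹ * y *
        E22_aux.pG F (E22_aux.sw h2) (E22_aux.sw_sq h2), ?_, ?_⟩
      · rw [Subgroup.mem_inf]
        refine ⟨(E22_aux.EO_conj_iff hn (E22_aux.pG_mem hn h2) _).1 ?_,
          (E22_aux.St_conj (E22_aux.pG_Fm h2) _).1 ?_⟩
        · have h1 : ∀ g : GL (Fin n) F, g * (g⁻¹ * y * g) * g⁻¹ = y := fun g => by group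
          rw [h1]
          exact hy.1
        · have h1 : ∀ g : GL (Fin n) F, g * (g⁻¹ * y * g) * g⁻¹ = y := fun g => by group
          rw [h1]
          exact hy.2
      · have h1 : ∀ g : GL (Fin n) F, g * (g⁻¹ * y * g) * g⁻¹ = y := fun g => by group
        exact h1 _
  exact ex_congr (((MulAut.conj (E22_aux.pG F (E22_aux.sw h2) (E22_aux.sw_sq h2))).subgroupMap
    (EO n (0 : F) ⊓ St (Fl n (n / 2) F))).trans (MulEquiv.subgroupCongr hmap)) h

end

end OR
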