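import Pool.Agent.OR.E09
import Pool.Agent.OR.E12
import Pool.Agent.OR.E18
import Pool.Agent.OR.E15
import Pool.Agent.OR.E21
import Pool.Agent.OR.E17
import Pool.Agent.OR.E22
import Pool.Agent.CF.E02
import Pool.Agent.CF.T06

/-!
# MP_6c3636_al, OR, module E19: the main induction (stub of helper40)

As CF/W21 (`w21_main`). Strong induction on `n`. If `n ≤ 2`: `EO_two`, `ex_solv`. If `n = 4`, `a = 0` and `F` has at most two elements: `EO_four`. Otherwise `EO_perfect`; apply `ex_perf` (CF/E02) with `ab_EO` (E09, from `hAB`) and `U = (UO n a).subgroupOf (EO n a)` (`UO_two`): let `X` be a proper subgroup of the type `EO n a` which contains `U`; `X' = X.map (EO n a).subtype` satisfies `UO ≤ X' ≤ EO` (`UO_le`), `X' ≠ EO`, so by `tits_oq` `X' ≤ St (Fl n k F)` (`M = (St (Fl n k F)).subgroupOf (EO n a)`, `M ≠ ⊤` by `EO_not_le`; with `m = n - 2 * k`, `n = k + m + k`, `ex_stab_oq`: `hL` is `ex_lin` (CF/T06) and `hM` is the induction hypothesis with `ex_between`), or `a = 0` and `X' ≤ St (Fm n F)` (`M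 = (St (Fm n F)).subgroupOf (EO n 0)`, `EO_not_le'`, `ex_stab_Fm` and `ex_stab_oq` for `k = n / 2`, `m = 0`).
-/

namespace OR

noncomputable section

open Classical Matrix CF

variable {n : ℕ} {F : Type} [Field F] [Finite F] [CharP F 2]

private theorem e19_fl {n : ℕ} {a : F} (hn : Even n) {k : ℕ} (hk0 : 0 < k) (hk1 : 2 * k ≤ n)
    (hk3 : a = 0 ∨ 2 * k + 2 ≤ n) (ih : ∀ m < n, Even m → Ex (EO m a)) :
    Ex ↥(EO n a ⊓ St (Fl n k F)) := by
  obtain ⟨m, rfl⟩ : ∃ m, n = k + m + k := ⟨n - 2 * k, by omega⟩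
  have hm : Even m := by
    rw [Nat.even_iff] at hn ⊢
    omega
  exact ex_stab_oq hm (hk3.imp id (fun h => by omega)) (fun H hH' => ex_lin H hH')
    (fun H h1 h2 => ex_between hm (ih m (by omega) hm) H h1 h2)

theorem ex_EO {a : F} (ha : a = 0 ∨ Aniso a)
    (hAB : ∀ m, Even m → Parker.PropA Parker.ctx2 1 (Om m a) ∧ ParkerGL.OP (Om m a)) :
    ∀ n : ℕ, Even n → Ex (EO n a) := by
  intro n
  induction n using Nat.strong_induction_on with
  | _ n ih =>
    intro hn
    by_cases h2 : n ≤ 2
    · exact ex_solv (EO_two hn h2 a)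
    have h4 : 4 ≤ n := by
      rw [Nat.even_iff] at hn
      omega
    by_cases hs : n = 4 ∧ a = 0 ∧ ¬ 2 < Nat.card F
    · obtain ⟨h4', h0, hF⟩ := hs
      subst h4'
      subst h0
      exact ex_solv (EO_four hF)
    have hgood : 6 ≤ n ∨ (n = 4 ∧ (a ≠ 0 ∨ 2 < Nat.card F)) := by
      by_cases h6 : 6 ≤ n
      · exact Or.inl h6
      · have h44 : n = 4 := by
          rw [Nat.even_iff] at hn
          omega
        refine Or.inr ⟨h44, ?_⟩
        by_contra hc
        rw [not_or, not_not] at hc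
        exact hs ⟨h44, hc.1, hc.2⟩
    have hp : commutator (EO n a) = ⊤ := EO_perfect hn hgood
    refine ex_perf hp (ab_EO hn (hAB n hn).1 (hAB n hn).2) ((UO n a).subgroupOf (EO n a)) ?_ ?_
    · intro u hu
      rw [Subgroup.mem_subgroupOf] at hu
      obtain ⟨k, hk⟩ := UO_two hu
      refine ⟨k, Subtype.ext ?_⟩
      rw [Subgroup.coe_pow, Subgroup.coe_one]
      exact hk
    · intro X hX hU
      have hX' : X.map (EO n a).subtype ≤ EO n a := Subgroup.map_subtype_le X
      have hU' : UO n a ≤ X.map (EO n a).subtype := by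
        intro u hu
        have hu2 : u ∈ EO n a := UO_le hn a hu
        exact ⟨⟨u, hu2⟩, hU (by rw [Subgroup.mem_subgroupOf]; exact hu), rfl⟩
      rcases tits_oq hn h4 ha _ hX' hU' with h | ⟨k, hk0, hk1, hk3, hk2⟩ | ⟨h0, hk2⟩
      · exfalso
        apply hX
        rw [Subgroup.eq_top_iff']
        rintro ⟨g, hg⟩
        have hg' : g ∈ X.map (EO n a).subtype := by
          rw [h]
          exact hg
        obtain ⟨x, hx1, hx2⟩ := hg'
        have e : x = ⟨g, hg⟩ := Subtype.ext hx2
        rw [← e]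
        exact hx1
      · refine ⟨(St (Fl n k F)).subgroupOf (EO n a), ?_, ?_, ?_⟩
        · intro x hx
          rw [Subgroup.mem_subgroupOf]
          exact hk2 ⟨x, hx, rfl⟩
        · intro htop
          rw [Subgroup.subgroupOf_eq_top] at htop
          exact EO_not_le hn h4 a hk0 hk1 htop
        · rw [← Subgroup.inf_subgroupOf_left]
          exact ex_congr (Subgroup.subgroupOfEquivOfLe inf_le_left).symm (e19_fl hn hk0 hk1 hk3 ih)
      · subst h0
        refine ⟨(St (Fm n F)).subgroupOf (EO n 0), ?_, ?_, ?_⟩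
        · intro x hx
          rw [Subgroup.mem_subgroupOf]
          exact hk2 ⟨x, hx, rfl⟩
        · intro htop
          rw [Subgroup.subgroupOf_eq_top] at htop
          exact EO_not_le' hn h4 0 htop
        · rw [← Subgroup.inf_subgroupOf_left]
          refine ex_congr (Subgroup.subgroupOfEquivOfLe inf_le_left).symm ?_
          refine ex_stab_Fm hn (by omega) ?_
          exact e19_fl hn (by omega) (by omega) (Or.inl rfl) ih

end

end OR
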