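import Pool.Agent.OR.E02

/-!
# MP_6c3636_al, OR, module E23: general forms are equivalent to the split form (stub of helper40)

Not `Aniso a`: there are `p1, p2`, not both `0`, with `a * (p1 ^ 2 + p2 ^ 2) + p1 * p2 = 0`. If `n = 0`: `c = 1`. Otherwise let `i`, `j` be the middle indices, `p = p1 • sv i + p2 • sv j`, singular for `Qa n a`, `bf p x = 1` for some `x` in the middle plane, `q = x + Qa x • p` singular, `bf p q = 1`. `c` maps `sv i` to `p`, `sv j` to `q` and `sv l` to itself for the other indices (its matrix is invertible: the determinant of the middle block is `bf p q = 1`; or write down the inverse). For `x : Fin n → F` one has `mv c x = x' + x i • p + x j • q` with `x'` the part of `x` outside of the middle, `Qa n a (mv c x) = Qa n a x' + x i * x j` (`Qa_add`, `Qa_smul`; `bf x' p = 0`, `bf x' q = 0`) `= Qa n 0 x` (`x = x' + x i • sv i + x j • sv j`, `Qa n a x' = Qa n 0 x'` as `x'` vanishes in the middle).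
-/

namespace OR

noncomputable section

open Classical Matrix CF

variable {n : ℕ} {F : Type} [Field F] [Finite F] [CharP F 2]

omit [Finite F] in
private theorem E23_alg {a : F} (ha : ¬ Aniso a) : ∃ p1 p2 q1 q2 : F,
    a * (p1 ^ 2 + p2 ^ 2) + p1 * p2 = 0 ∧ a * (q1 ^ 2 + q2 ^ 2) + q1 * q2 = 0 ∧ p1 * q2 + p2 * q1 = 1 := by
  have h2 : (2 : F) = 0 := CharTwo.two_eq_zero
  unfold Aniso at ha
  push Not at ha
  obtain ⟨p1, p2, hp, hne⟩ := ha
  have key : ∃ x1 x2 : F, p1 * x2 + p2 * x1 = 1 := by
    by_cases h : p1 = 0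
    · exact ⟨p2⁻¹, 0, by rw [mul_zero, zero_add, mul_inv_cancel₀ (hne h)]⟩
    · exact ⟨0, p1⁻¹, by rw [mul_zero, add_zero, mul_inv_cancel₀ h]⟩
  obtain ⟨x1, x2, hx⟩ := key
  set Q : F := a * (x1 ^ 2 + x2 ^ 2) + x1 * x2 with hQ
  refine ⟨p1, p2, x1 + Q * p1, x2 + Q * p2, hp, ?_, ?_⟩
  · linear_combination Q ^ 2 * hp + Q * hx - hQ + (a * Q * (x1 * p1 + x2 * p2) + Q) * h2
  · linear_combination hx + (Q * p1 * p2) * h2

/-- the linear map which maps the middle vectors to `p`, `q` -/
private def E23_f (i j : Fin n) (p1 p2 q1 q2 : F) : (Fin n → F) →ₗ[F] (Fin n → F) where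
  toFun x := (x + x i • sv i + x j • sv j) + (x i * p1 + x j * q1) • sv i + (x i * p2 + x j * q2) • sv j
  map_add' := by
    intro x y
    ext k
    simp only [Pi.add_apply, Pi.smul_apply, smul_eq_mul]
    ring
  map_smul' := by
    intro c x
    ext k
    simp only [Pi.add_apply, Pi.smul_apply, smul_eq_mul, RingHom.id_apply]
    ring

omit [Finite F] in
private theorem E23_Q (hn : Even n) (a : F) {i j : Fin n} (hi : Mid n i) (hj : Mid n j) (hij : Fin.rev i = j)
    (hm : ∀ k, Mid n k → k = i ∨ k = j)
    {x' : Fin n → F} (h1 : x' i = 0) (h2 : x' j = 0) (s t : F) :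
    Qa n a (x' + s • sv i + t • sv j) = Qa n 0 x' + (a * (s ^ 2 + t ^ 2) + s * t) := by
  have hji : Fin.rev j = i := by rw [← hij, Fin.rev_rev]
  have e0 : Qa n a x' = Qa n 0 x' := by
    unfold Qa
    have : (∑ k : Fin n, if Mid n k then x' k ^ 2 else 0) = 0 := by
      refine Finset.sum_eq_zero fun k _ => ?_
      by_cases h : Mid n k
      · rw [if_pos h]
        rcases hm k h with h' | h'
        · rw [h', h1]
          ring
        · rw [h', h2]
          ring
      · rw [if_neg h]
    rw [this, mul_zero, mul_zero]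
  have e1 : (sv i : Fin n → F) i = 1 := Pi.single_eq_same i 1
  rw [Qa_add hn, Qa_add hn, Qa_smul, Qa_smul, Qa_sv_mid a hn hi, Qa_sv_mid a hn hj, bf_smul_right, bf_smul_right,
    bf_sv_right, bf_sv_right, hij, hji, h2, Pi.add_apply, h1, Pi.smul_apply, e1, e0, smul_eq_mul]
  ring

theorem exists_iso (hn : Even n) {a : F} (ha : ¬ Aniso a) :
    ∃ c : GL (Fin n) F, ∀ x : Fin n → F, Qa n a (mv c x) = Qa n 0 x := by
  have two0 : (2 : F) = 0 := CharTwo.two_eq_zero
  rcases Nat.eq_zero_or_pos n with h0 | hpos
  · subst h0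
    refine ⟨1, fun x => ?_⟩
    unfold Qa
    simp only [Finset.univ_eq_empty, Finset.sum_empty, mul_zero]
  · obtain ⟨m, hm⟩ := hn
    have hn : Even n := ⟨m, hm⟩
    have hlt1 : m - 1 < n := by omega
    have hlt2 : m < n := by omega
    set i : Fin n := ⟨m - 1, hlt1⟩ with hi
    set j : Fin n := ⟨m, hlt2⟩ with hj
    have Hi : Mid n i := Or.inl (by rw [hi]; show m - 1 + 1 = n / 2; omega)
    have Hj : Mid n j := Or.inr (by rw [hj]; show m = n / 2; omega)
    have Hij : Fin.rev i = j := by
      apply Fin.ext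
      rw [Fin.val_rev]
      show n - (m - 1 + 1) = m
      omega
    have Hm : ∀ k, Mid n k → k = i ∨ k = j := by
      intro k hk
      rcases hk with hk | hk
      · left
        apply Fin.ext
        show (k : ℕ) = m - 1
        omega
      · right
        apply Fin.ext
        show (k : ℕ) = m
        omega
    have Hne : i ≠ j := by
      intro h
      have : (i : ℕ) = (j : ℕ) := by rw [h]
      have h3 : m - 1 = m := this
      omega
    obtain ⟨p1, p2, q1, q2, hp, hq, hpq⟩ := E23_alg ha
    have si : (sv i : Fin n → F) i = 1 := Pi.single_eq_same i 1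
    have sj : (sv j : Fin n → F) j = 1 := Pi.single_eq_same j 1
    have sij : (sv i : Fin n → F) j = 0 := Pi.single_eq_of_ne (Ne.symm Hne) 1
    have sji : (sv j : Fin n → F) i = 0 := Pi.single_eq_of_ne Hne 1
    have hQ : ∀ x : Fin n → F, Qa n a (E23_f i j p1 p2 q1 q2 x) = Qa n 0 x := by
      intro x
      have z1 : (x + x i • sv i + x j • sv j : Fin n → F) i = 0 := by
        simp only [Pi.add_apply, Pi.smul_apply, smul_eq_mul, si, sji]
        linear_combination x i * two0
      have z2 : (x + x i • sv i + x j • sv j : Fin n → F) j = 0 := by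
        simp only [Pi.add_apply, Pi.smul_apply, smul_eq_mul, sj, sij]
        linear_combination x j * two0
      have ex : x = (x + x i • sv i + x j • sv j) + x i • sv i + x j • sv j := by
        ext k
        simp only [Pi.add_apply, Pi.smul_apply, smul_eq_mul]
        linear_combination (- (x i * (sv i : Fin n → F) k) - x j * (sv j : Fin n → F) k) * two0
      have e2 : Qa n 0 x = Qa n 0 (x + x i • sv i + x j • sv j) + x i * x j := by
        have := E23_Q hn (0 : F) Hi Hj Hij Hm z1 z2 (x i) (x j)
        rw [← ex] at this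
        rw [this]
        ring
      have e1 : E23_f i j p1 p2 q1 q2 x = (x + x i • sv i + x j • sv j) + (x i * p1 + x j * q1) • sv i +
        (x i * p2 + x j * q2) • sv j := rfl
      rw [e1, E23_Q hn a Hi Hj Hij Hm z1 z2, e2]
      linear_combination (x i) ^ 2 * hp + (x j) ^ 2 * hq + x i * x j * hpq +
        (a * x i * x j * (p1 * q1 + p2 * q2)) * two0
    have hbf : ∀ x y : Fin n → F, bf (E23_f i j p1 p2 q1 q2 x) (E23_f i j p1 p2 q1 q2 y) = bf x y := by
      intro x y
      have h1 := hQ (x + y)
      rw [map_add, Qa_add hn, Qa_add hn, hQ, hQ] at h1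
      exact add_left_cancel h1
    have hinj : Function.Injective (LinearMap.toMatrix' (E23_f i j p1 p2 q1 q2)).mulVec := by
      have e : (LinearMap.toMatrix' (E23_f i j p1 p2 q1 q2)).mulVec = E23_f i j p1 p2 q1 q2 := by
        funext x
        exact LinearMap.toMatrix'_mulVec _ _
      rw [e]
      intro x y hxy
      have h3 : x - y = 0 := by
        apply bf_nd
        intro w
        rw [← hbf, map_sub, hxy, sub_self, bf_zero_left]
      exact sub_eq_zero.1 h3
    have hU := Matrix.mulVec_injective_iff_isUnit.1 hinj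
    refine ⟨hU.unit, fun x => ?_⟩
    have e : mv hU.unit x = E23_f i j p1 p2 q1 q2 x := by
      rw [mv, IsUnit.unit_spec]
      exact LinearMap.toMatrix'_mulVec _ _
    rw [e]
    exact hQ x

end

end OR
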