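import Pool.Agent.OR.E19
import Pool.Agent.OR.E23

/-!
# MP_6c3636_al, OR, module E20: the theorem of series E (stub of helper40)

`ex_OQ`: if `a = 0` or `Aniso a`: `ex_EO`, `ex_between`. Otherwise take `c` of `exists_iso`; `H' = c⁻¹ H c` (`H.map (MulAut.conj c⁻¹).toMonoidHom`) satisfies `EO n 0 ≤ H' ≤ OQ n 0`: `c * eo 0 v b * c⁻¹ = eo a (mv c v) (mv c b)` (`mv_ext`, `mv_eo`; `c` preserves `bf`: polarize, and `Qa n a (mv c b) = Qa n 0 b`), so `c (EO n 0) c⁻¹ ≤ EO n a ≤ H`. `Ex H'` by the first case, `H' ≃* H`, `ex_congr`.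
`ex_Om`: `EO_le_Om`.
-/

namespace OR

noncomputable section

open Classical Matrix CF

variable {n : ℕ} {F : Type} [Field F] [Finite F] [CharP F 2]

namespace E20_aux

omit [Finite F] in
/-- an isometry between the forms preserves the polar form -/
theorem bf_iso (hn : Even n) {a : F} {c : GL (Fin n) F} (hc : ∀ x : Fin n → F, Qa n a (mv c x) = Qa n 0 x)
    (v w : Fin n → F) : bf (mv c v) (mv c w) = bf v w := by
  have h1 := hc (v + w)
  rw [mv_add, Qa_add hn, Qa_add hn, hc v, hc w] at h1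
  exact add_left_cancel h1

/-- conjugation of Eichler elements -/
theorem eo_iso (hn : Even n) {a : F} {c : GL (Fin n) F} (hc : ∀ x : Fin n → F, Qa n a (mv c x) = Qa n 0 x)
    {v b : Fin n → F} (hb : bf v b = 0) : c * eo 0 v b = eo a (mv c v) (mv c b) * c := by
  have hb' : bf (mv c v) (mv c b) = 0 := by rw [bf_iso hn hc, hb]
  refine mv_ext fun j => ?_
  rw [mv_mul, mv_mul, mv_eo hn 0 hb, mv_eo hn a hb', bf_iso hn hc, bf_iso hn hc, hc, mv_add, mv_add, mv_add,
    mv_smul, mv_smul, mv_smul]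

end E20_aux

theorem ex_OQ (hAB : ∀ (m : ℕ) (a : F), Even m → (a = 0 ∨ Aniso a) →
      Parker.PropA Parker.ctx2 1 (Om m a) ∧ ParkerGL.OP (Om m a))
    (hn : Even n) (a : F) (H : Subgroup (GL (Fin n) F)) (h1 : EO n a ≤ H) (h2 : H ≤ OQ n a) : Ex H := by
  by_cases ha : a = 0 ∨ Aniso a
  · exact ex_between hn (ex_EO ha (fun m hm => hAB m a hm ha) n hn) H h1 h2
  · obtain ⟨c, hc⟩ := exists_iso hn (fun h => ha (Or.inr h) : ¬ Aniso a)
    have hinj : Function.Injective ((MulAut.conj c⁻¹).toMonoidHom : GL (Fin n) F →* GL (Fin n) F) :=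
      (MulAut.conj c⁻¹).injective
    have hE : Ex ↥(H.map (MulAut.conj c⁻¹).toMonoidHom) := by
      refine ex_between (a := (0 : F)) hn (ex_EO (Or.inl rfl) (fun m hm => hAB m 0 hm (Or.inl rfl)) n hn) _ ?_ ?_
      · rw [EO, Subgroup.closure_le]
        rintro g ⟨v, b, hv, hb, rfl⟩
        have hb' : bf (mv c v) (mv c b) = 0 := by rw [E20_aux.bf_iso hn hc, hb]
        have hv' : Qa n a (mv c v) = 0 := by rw [hc, hv]
        refine Subgroup.mem_map.mpr ⟨eo a (mv c v) (mv c b), h1 (eo_mem_EO hv' hb'), ?_⟩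
        show c⁻¹ * eo a (mv c v) (mv c b) * c⁻¹⁻¹ = eo 0 v b
        rw [inv_inv, mul_assoc, ← E20_aux.eo_iso hn hc hb, inv_mul_cancel_left]
      · intro g hg
        obtain ⟨y, hy, rfl⟩ := Subgroup.mem_map.mp hg
        have hy' := h2 hy
        rw [mem_OQ] at hy' ⊢
        intro x
        have e : (MulAut.conj c⁻¹).toMonoidHom y = c⁻¹ * y * c := by
          show c⁻¹ * y * c⁻¹⁻¹ = _
          rw [inv_inv]
        rw [e, ← hc, mv_mul, mv_mul, mv_inv', hy', hc]
    exact ex_congr (H.equivMapOfInjective _ hinj).symm hE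

theorem ex_Om (hAB : ∀ (m : ℕ) (a : F), Even m → (a = 0 ∨ Aniso a) →
      Parker.PropA Parker.ctx2 1 (Om m a) ∧ ParkerGL.OP (Om m a))
    (hn : Even n) (a : F) (H : Subgroup (GL (Fin n) F)) (h1 : Om n a ≤ H) (h2 : H ≤ OQ n a) : Ex H := by
  exact ex_OQ hAB hn a H ((EO_le_Om hn a).trans h1) h2

end

end OR
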