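import Pool.Agent.OR.D91
import Pool.Agent.OR.E03
import Pool.Agent.OR.E07
import Pool.Agent.OR.E22
import Pool.Agent.LieP.I02
import Pool.Agent.LieP.I03

/-!
# MP_6c3636_al, OR, module I01: the data of the system of `Om n a` (helper40)

`EA n a`: the points of `En n` whose middle coordinates vanish if `a ≠ 0`; `cx x i` are the coordinates; `rto a i j` is the
vector with `⟨rto a i j, x⟩ = x_i - x_j`; `Ro n a` the set of the roots `rto a i j`, `j ≠ i`, `j ≠ rev i`; `zo n a` the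
generic point with the coordinates `n - 1 - 2 i` (`0` in the middle if `a ≠ 0`); `pl i j`: `i < j`, not both in the middle;
`Sm i j`: the pairs of the simple roots, `Dlo n a` the simple roots; `Uo x`, `Lo x` the groups `U x`, `L x`;
`NO n a` the monomial group (block monomial in the middle if `a ≠ 0`), `pmo a g` its permutations, `acO a g` its action.
`UZ n a = U z0`, `xs a i j s` the root elements of the pairs with `Sm i j`.
-/

namespace OR

noncomputable section

open Classical Matrix CF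

open LieP (En UG UL)

open LieP.GI (co co_rev co_add co_smul co_neg co_sub co_zero co_ext ofc co_ofc inner_co rtf rtf_rev pinv pinv' UU mem_UU mem_UL)

variable {n : ℕ} {F : Type} [Field F]

/-- the space of the system -/
def EA (n : ℕ) (a : F) : Submodule ℝ (EuclideanSpace ℝ (Fin n)) where
  carrier := {w | (∀ i, w (Fin.rev i) = - w i) ∧ (a ≠ 0 → ∀ i, Mid n i → w i = 0)}
  add_mem' := by
    rintro x y ⟨hx, hx'⟩ ⟨hy, hy'⟩
    refine ⟨fun i => ?_, fun h i hi => ?_⟩
    · show x (Fin.rev i) + y (Fin.rev i) = -(x i + y i)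
      rw [hx i, hy i, neg_add]
    · show x i + y i = 0
      rw [hx' h i hi, hy' h i hi, add_zero]
  zero_mem' := ⟨fun i => (neg_zero).symm, fun _ _ _ => rfl⟩
  smul_mem' := by
    rintro r x ⟨hx, hx'⟩
    refine ⟨fun i => ?_, fun h i hi => ?_⟩
    · show r * x (Fin.rev i) = -(r * x i)
      rw [hx i, mul_neg]
    · show r * x i = 0
      rw [hx' h i hi, mul_zero]

variable {a : F}

/-- coordinates -/
def cx (x : EA n a) : Fin n → ℝ := fun i => (x : EuclideanSpace ℝ (Fin n)) i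

/-- the point of `En n` -/
def tn (x : EA n a) : En n := ⟨(x : EuclideanSpace ℝ (Fin n)), x.2.1⟩

theorem co_tn (x : EA n a) : co (tn x) = cx x := rfl

theorem tn_neg (x : EA n a) : tn (-x) = - tn x := rfl

theorem tn_zero : tn (0 : EA n a) = 0 := rfl

theorem cx_rev (x : EA n a) (i : Fin n) : cx x (Fin.rev i) = - cx x i := x.2.1 i

theorem cx_add (x y : EA n a) (i : Fin n) : cx (x + y) i = cx x i + cx y i := rfl

theorem cx_smul (r : ℝ) (x : EA n a) (i : Fin n) : cx (r • x) i = r * cx x i := rfl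

theorem cx_neg (x : EA n a) (i : Fin n) : cx (-x) i = - cx x i := rfl

theorem cx_sub (x y : EA n a) (i : Fin n) : cx (x - y) i = cx x i - cx y i := rfl

theorem cx_zero (i : Fin n) : cx (0 : EA n a) i = 0 := rfl

theorem cx_mid (ha : a ≠ 0) (x : EA n a) {i : Fin n} (hi : Mid n i) : cx x i = 0 := x.2.2 ha i hi

theorem cx_mid' (x : EA n a) (ha : a ≠ 0) : ∀ i, Mid n i → cx x i = 0 := x.2.2 ha

theorem cx_mid_rev (ha : a ≠ 0) (x : EA n a) {i : Fin n} (hi : Mid n (Fin.rev i)) : cx x i = 0 := by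
  have h := cx_mid ha x hi
  rw [cx_rev, neg_eq_zero] at h
  exact h

theorem cx_ext {x y : EA n a} (h : ∀ i, cx x i = cx y i) : x = y := by
  apply Subtype.ext
  ext i
  exact h i

/-- the point with given coordinates -/
def ofx (a : F) (f : Fin n → ℝ) (h : ∀ i, f (Fin.rev i) = - f i) (hm : a ≠ 0 → ∀ i, Mid n i → f i = 0) : EA n a :=
  ⟨WithLp.toLp 2 f, h, hm⟩

theorem cx_ofx (f : Fin n → ℝ) (h : ∀ i, f (Fin.rev i) = - f i) (hm : a ≠ 0 → ∀ i, Mid n i → f i = 0)
    (i : Fin n) : cx (ofx a f h hm) i = f i := rfl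

theorem inner_cx (x y : EA n a) : inner ℝ x y = ∑ i, cx x i * cx y i := by
  rw [Submodule.coe_inner, PiLp.inner_apply]
  refine Finset.sum_congr rfl fun i _ => ?_
  rw [real_inner_comm]
  rfl

/-- the function with the middle values replaced by zero if `a ≠ 0` -/
def msk (a : F) (f : Fin n → ℝ) (i : Fin n) : ℝ := if a ≠ 0 ∧ (Mid n i ∨ Mid n (Fin.rev i)) then 0 else f i

theorem msk_rev (a : F) {f : Fin n → ℝ} (h : ∀ i, f (Fin.rev i) = - f i) (i : Fin n) :
    msk a f (Fin.rev i) = - msk a f i := by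
  unfold msk
  rw [Fin.rev_rev]
  by_cases h1 : a ≠ 0 ∧ (Mid n i ∨ Mid n (Fin.rev i))
  · rw [if_pos h1, if_pos ⟨h1.1, h1.2.symm⟩, neg_zero]
  · rw [if_neg h1, if_neg (fun h2 => h1 ⟨h2.1, h2.2.symm⟩), h]

theorem msk_mid (a : F) (f : Fin n → ℝ) (ha : a ≠ 0) (i : Fin n) (hi : Mid n i) : msk a f i = 0 :=
  if_pos ⟨ha, Or.inl hi⟩

theorem msk_zero (f : Fin n → ℝ) (i : Fin n) : msk (0 : F) f i = f i := if_neg (fun h => h.1 rfl)

theorem msk_of (hn : Even n) (a : F) (f : Fin n → ℝ) {i : Fin n} (hi : ¬ Mid n i) : msk a f i = f i :=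
  if_neg (fun h => hi (h.2.elim id (Mid_rev hn).1))

/-- the vector with `⟨rto a i j, x⟩ = x_i - x_j` -/
def rto (a : F) (i j : Fin n) : EA n a := ofx a (msk a (rtf i j)) (msk_rev a (rtf_rev i j)) (msk_mid a _)

theorem inner_rto (i j : Fin n) (x : EA n a) : inner ℝ (rto a i j) x = cx x i - cx x j := by
  have h1 := LieP.GI.inner_rt i j (tn x)
  rw [inner_co] at h1
  rw [inner_cx]
  refine Eq.trans (Finset.sum_congr rfl fun k _ => ?_) h1
  show msk a (rtf i j) k * cx x k = rtf i j k * cx x k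
  unfold msk
  split_ifs with h
  · rcases h.2 with h2 | h2
    · rw [cx_mid h.1 x h2, mul_zero, mul_zero]
    · rw [cx_mid_rev h.1 x h2, mul_zero, mul_zero]
  · rfl

theorem pos_rto {i j : Fin n} {x : EA n a} : 0 < inner ℝ (rto a i j) x ↔ cx x j < cx x i := by
  rw [inner_rto, sub_pos]

theorem zero_rto {i j : Fin n} {x : EA n a} : inner ℝ (rto a i j) x = 0 ↔ cx x i = cx x j := by
  rw [inner_rto, sub_eq_zero]

theorem rto_ext {u v : EA n a} (h : ∀ x : EA n a, inner ℝ u x = inner ℝ v x) : u = v :=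
  ext_inner_right ℝ h

theorem rto_rev (i j : Fin n) : rto a (Fin.rev j) (Fin.rev i) = rto a i j := by
  refine rto_ext fun x => ?_
  rw [inner_rto, inner_rto, cx_rev, cx_rev]
  ring

theorem rto_neg (i j : Fin n) : - rto a i j = rto a j i := by
  refine rto_ext fun x => ?_
  rw [inner_neg_left, inner_rto, inner_rto]
  ring

theorem rto_add (i j k : Fin n) : rto a i j + rto a j k = rto a i k := by
  refine rto_ext fun x => ?_
  rw [inner_add_left, inner_rto, inner_rto, inner_rto]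
  ring

/-- the roots -/
def Ro (n : ℕ) (a : F) : Finset (EA n a) :=
  (Finset.univ.filter fun p : Fin n × Fin n => p.1 ≠ p.2 ∧ p.2 ≠ Fin.rev p.1).image fun p => rto a p.1 p.2

theorem mem_Ro {α : EA n a} : α ∈ Ro n a ↔ ∃ i j, i ≠ j ∧ j ≠ Fin.rev i ∧ α = rto a i j := by
  unfold Ro
  simp only [Finset.mem_image, Finset.mem_filter, Finset.mem_univ, true_and, Prod.exists]
  constructor
  · rintro ⟨i, j, h, h'⟩
    exact ⟨i, j, h.1, h.2, h'.symm⟩
  · rintro ⟨i, j, h, h2, h'⟩
    exact ⟨i, j, ⟨h, h2⟩, h'.symm⟩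

theorem forall_Ro {P : EA n a → Prop} :
    (∀ α ∈ Ro n a, P α) ↔ ∀ i j : Fin n, i ≠ j → j ≠ Fin.rev i → P (rto a i j) := by
  constructor
  · intro h i j hij hij'
    exact h _ (mem_Ro.2 ⟨i, j, hij, hij', rfl⟩)
  · intro h α hα
    obtain ⟨i, j, hij, hij', rfl⟩ := mem_Ro.1 hα
    exact h i j hij hij'

theorem rto_mem {i j : Fin n} (h : i ≠ j) (h' : j ≠ Fin.rev i) : rto a i j ∈ Ro n a := mem_Ro.2 ⟨i, j, h, h', rfl⟩

theorem z0f_rev (i : Fin n) : (n : ℝ) - 1 - 2 * ((Fin.rev i : Fin n) : ℕ) = - ((n : ℝ) - 1 - 2 * (i : ℕ)) :=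
  co_rev (LieP.GI.z0 n) i

/-- the generic point -/
def zo (n : ℕ) (a : F) : EA n a := ofx a (msk a fun i => (n : ℝ) - 1 - 2 * (i : ℕ)) (msk_rev a z0f_rev) (msk_mid a _)

/-- `i < j`, not both in the middle -/
def pl (n : ℕ) (i j : Fin n) : Prop := i < j ∧ ¬ (Mid n i ∧ Mid n j)

/-- the pairs of the simple roots -/
def Sm (n : ℕ) (i j : Fin n) : Prop :=
  ((j : ℕ) = i + 1 ∧ 2 * (i : ℕ) + 4 ≤ n) ∨ (2 * (i : ℕ) + 4 = n ∧ (j : ℕ) = i + 2)

/-- the simple roots -/
def Dlo (n : ℕ) (a : F) : Finset (EA n a) :=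
  (Finset.univ.filter fun p : Fin n × Fin n => Sm n p.1 p.2).image fun p => rto a p.1 p.2

theorem mem_Dlo {α : EA n a} : α ∈ Dlo n a ↔ ∃ i j, Sm n i j ∧ α = rto a i j := by
  unfold Dlo
  simp only [Finset.mem_image, Finset.mem_filter, Finset.mem_univ, true_and, Prod.exists]
  constructor
  · rintro ⟨i, j, h, h'⟩
    exact ⟨i, j, h, h'.symm⟩
  · rintro ⟨i, j, h, h'⟩
    exact ⟨i, j, h, h'.symm⟩

theorem Sm.pl {i j : Fin n} (h : Sm n i j) : pl n i j := by
  unfold Sm at h
  unfold OR.pl Mid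
  rw [Fin.lt_def]
  omega

theorem Sm.nmid {i j : Fin n} (h : Sm n i j) : ¬ Mid n i := by
  unfold Sm at h
  unfold Mid
  omega

theorem Sm.ne {i j : Fin n} (h : Sm n i j) : i ≠ j := by
  rintro rfl
  unfold Sm at h
  omega

theorem Sm.ne_rev {i j : Fin n} (h : Sm n i j) : j ≠ Fin.rev i := by
  rintro rfl
  have h1 := Fin.val_rev i
  have h2 := i.2
  unfold Sm at h
  omega

theorem zo_lt (hn : Even n) {i j : Fin n} (h : ¬ (Mid n i ∧ Mid n j)) :
    cx (zo n a) j < cx (zo n a) i ↔ i < j := by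
  have key : ∀ k : Fin n, cx (zo n a) k = if a ≠ 0 ∧ Mid n k then 0 else (n : ℝ) - 1 - 2 * (k : ℕ) := by
    intro k
    show msk a (fun i : Fin n => (n : ℝ) - 1 - 2 * (i : ℕ)) k = _
    unfold msk
    by_cases h1 : Mid n k
    · by_cases h2 : a ≠ 0
      · rw [if_pos ⟨h2, Or.inl h1⟩, if_pos ⟨h2, h1⟩]
      · rw [if_neg (fun h3 => h2 h3.1), if_neg (fun h3 => h2 h3.1)]
    · rw [if_neg (fun h3 => h1 (h3.2.elim id (Mid_rev hn).1)), if_neg (fun h3 => h1 h3.2)]
  obtain ⟨m, hm⟩ := hn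
  have h2 : n / 2 = m := by omega
  have cast : ∀ k l : Fin n, ((n : ℝ) - 1 - 2 * (l : ℕ) < (n : ℝ) - 1 - 2 * (k : ℕ)) ↔ k < l := by
    intro k l
    rw [Fin.lt_def]
    constructor
    · intro h
      have h1 : ((k : ℕ) : ℝ) < ((l : ℕ) : ℝ) := by linarith
      exact_mod_cast h1
    · intro h
      have h1 : ((k : ℕ) : ℝ) < ((l : ℕ) : ℝ) := by exact_mod_cast h
      linarith
  have hm' : (n : ℝ) = m + m := by exact_mod_cast hm
  rw [key, key]
  by_cases ha : a ≠ 0
  · by_cases hi : Mid n i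
    · have hj : ¬ Mid n j := fun hj => h ⟨hi, hj⟩
      rw [if_neg (fun h3 => hj h3.2), if_pos ⟨ha, hi⟩, Fin.lt_def]
      unfold Mid at hi hj
      rw [h2] at hi hj
      constructor
      · intro h3
        have h4 : (m : ℝ) < (j : ℕ) + 1 := by
          have : (m : ℝ) + m - 1 - 2 * ((j : ℕ) : ℝ) < 0 := by rw [← hm']; exact h3
          have h5 : (m : ℝ) * 2 < 2 * ((j : ℕ) : ℝ) + 1 := by linarith
          have h6 : m * 2 < 2 * (j : ℕ) + 1 := by exact_mod_cast h5
          have h7 : m < (j : ℕ) + 1 := by omega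
          exact_mod_cast h7
        have h5 : m < (j : ℕ) + 1 := by exact_mod_cast h4
        omega
      · intro h3
        have h4 : m + 1 ≤ (j : ℕ) := by omega
        have h5 : (m : ℝ) + 1 ≤ (j : ℕ) := by exact_mod_cast h4
        rw [hm']
        linarith
    · by_cases hj : Mid n j
      · rw [if_pos ⟨ha, hj⟩, if_neg (fun h3 => hi h3.2), Fin.lt_def]
        unfold Mid at hi hj
        rw [h2] at hi hj
        constructor
        · intro h3
          have h5 : 2 * ((i : ℕ) : ℝ) + 1 < m * 2 := by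
            have : 0 < (m : ℝ) + m - 1 - 2 * ((i : ℕ) : ℝ) := by rw [← hm']; exact h3
            linarith
          have h6 : 2 * (i : ℕ) + 1 < m * 2 := by exact_mod_cast h5
          omega
        · intro h3
          have h4 : (i : ℕ) + 2 ≤ m := by omega
          have h5 : ((i : ℕ) : ℝ) + 2 ≤ m := by exact_mod_cast h4
          rw [hm']
          linarith
      · rw [if_neg (fun h3 => hj h3.2), if_neg (fun h3 => hi h3.2)]
        exact cast i j
  · rw [if_neg (fun h3 => ha h3.1), if_neg (fun h3 => ha h3.1)]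
    exact cast i j

theorem pl.zo (hn : Even n) {i j : Fin n} (h : pl n i j) : cx (zo n a) j < cx (zo n a) i :=
  (zo_lt hn h.2).2 h.1

theorem zo_mid (ha : a ≠ 0) {i j : Fin n} (hi : Mid n i) (hj : Mid n j) : cx (zo n a) i = cx (zo n a) j := by
  rw [cx_mid ha _ hi, cx_mid ha _ hj]

theorem mid_pair (hn : Even n) {i j : Fin n} (hi : Mid n i) (hj : Mid n j) : j = i ∨ j = Fin.rev i := by
  have h1 := Fin.val_rev i
  have h2 := i.2
  unfold Mid at hi hj
  obtain ⟨m, hm⟩ := hn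
  rw [Fin.ext_iff, Fin.ext_iff, h1]
  omega

/-- dominant points -/
theorem le_zo (hn : Even n) {y : EA n a} : (∀ α ∈ Ro n a, 0 < inner ℝ α y → 0 < inner ℝ α (zo n a)) ↔
    ∀ i j : Fin n, j ≠ Fin.rev i → cx y j < cx y i → i < j := by
  rw [forall_Ro]
  have key : ∀ i j : Fin n, i ≠ j → j ≠ Fin.rev i → ¬ (Mid n i ∧ Mid n j) := by
    intro i j h1 h2 h3
    rcases mid_pair hn h3.1 h3.2 with h | h
    · exact h1 h.symm
    · exact h2 h
  constructor
  · intro h i j hij hlt
    have h1 : i ≠ j := by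
      rintro rfl
      exact lt_irrefl _ hlt
    exact (zo_lt hn (key i j h1 hij)).1 (pos_rto.1 (h i j h1 hij (pos_rto.2 hlt)))
  · intro h i j hij hij' hlt
    exact pos_rto.2 ((zo_lt hn (key i j hij hij')).2 (h i j hij' (pos_rto.1 hlt)))

theorem gen_zo (hn : Even n) : ∀ α ∈ Ro n a, inner ℝ α (zo n a) ≠ 0 := by
  rw [forall_Ro]
  intro i j hij hij' h0
  rw [zero_rto] at h0
  have h1 : ¬ (Mid n i ∧ Mid n j) := by
    intro h3
    rcases mid_pair hn h3.1 h3.2 with h | h
    · exact hij h.symm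
    · exact hij' h
  rcases lt_or_gt_of_ne hij with h | h
  · exact absurd h0 (ne_of_gt ((zo_lt hn h1).2 h))
  · exact absurd h0 (ne_of_lt ((zo_lt hn (fun h2 => h1 h2.symm)).2 h))

theorem Ro_neg : ∀ α ∈ Ro n a, -α ∈ Ro n a := by
  rw [forall_Ro]
  intro i j hij hij'
  rw [rto_neg]
  exact rto_mem hij.symm (fun h => hij' (by rw [h, Fin.rev_rev]))

/-- the unipotent subgroups -/
def Uo (x : EA n a) : Subgroup (GL (Fin n) F) := Om n a ⊓ UU (RingEquiv.refl F) (cx x)

/-- the Levi subgroups -/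
def Lo (x : EA n a) : Subgroup (GL (Fin n) F) := OL n a (cx x)

/-- the group `U z0` -/
def UZ (n : ℕ) (a : F) : Subgroup (GL (Fin n) F) := Uo (zo n a)

/-- the root elements of the simple roots -/
def xs (a : F) (i j : Fin n) (s : F) : GL (Fin n) F := eo a (sv i) (s • sv (Fin.rev j))

/-- `g` is (block) monomial with the permutation `π` -/
def IsN (a : F) (g : GL (Fin n) F) (π : Equiv.Perm (Fin n)) : Prop :=
  (∀ i j, i ≠ π j → ¬ (a ≠ 0 ∧ Mid n i ∧ Mid n j) → (g : Matrix (Fin n) (Fin n) F) i j = 0) ∧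
    (a ≠ 0 → ∀ j, Mid n j → π j = j)

theorem IsN.mul {g h : GL (Fin n) F} {π ρ : Equiv.Perm (Fin n)} (hg : IsN a g π) (hh : IsN a h ρ) :
    IsN a (g * h) (π * ρ) := by
  refine ⟨?_, ?_⟩
  · intro i j hij hm
    rw [Units.val_mul, Matrix.mul_apply]
    refine Finset.sum_eq_zero fun k _ => ?_
    by_contra h0
    have h1 := left_ne_zero_of_mul h0
    have h2 := right_ne_zero_of_mul h0
    have h3 : i = π k ∨ (a ≠ 0 ∧ Mid n i ∧ Mid n k) := by
      by_contra h4
      rw [not_or] at h4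
      exact h1 (hg.1 i k h4.1 h4.2)
    have h5 : k = ρ j ∨ (a ≠ 0 ∧ Mid n k ∧ Mid n j) := by
      by_contra h4
      rw [not_or] at h4
      exact h2 (hh.1 k j h4.1 h4.2)
    rcases h3 with h3 | h3
    · rcases h5 with h5 | h5
      · exact hij (by rw [h3, h5]; rfl)
      · apply hm
        rw [hg.2 h5.1 k h5.2.1] at h3
        rw [h3]
        exact h5
    · rcases h5 with h5 | h5
      · apply hm
        have h6 : ρ k = k := hh.2 h3.1 k h3.2.2
        have h7 : k = j := ρ.injective (h6.trans h5)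
        rw [← h7]
        exact h3
      · exact hm ⟨h3.1, h3.2.1, h5.2.2⟩
  · intro ha j hj
    show π (ρ j) = j
    rw [hh.2 ha j hj, hg.2 ha j hj]

theorem IsN.one : IsN a (1 : GL (Fin n) F) 1 := by
  refine ⟨?_, fun _ _ _ => rfl⟩
  intro i j hij _
  have h : i ≠ j := hij
  rw [Units.val_one, Matrix.one_apply_ne h]

theorem IsN.ne {g : GL (Fin n) F} {π : Equiv.Perm (Fin n)} (h : IsN a g π) {j : Fin n} (hj : a = 0 ∨ ¬ Mid n j) :
    (g : Matrix (Fin n) (Fin n) F) (π j) j ≠ 0 := by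
  intro h0
  have h1 : ∀ i, (g : Matrix (Fin n) (Fin n) F) i j = 0 := by
    intro i
    by_cases hi : i = π j
    · rw [hi, h0]
    · refine h.1 i j hi (fun h2 => ?_)
      rcases hj with hj | hj
      · exact h2.1 hj
      · exact hj h2.2.2
  have h2 : (((g⁻¹ : GL (Fin n) F) : Matrix (Fin n) (Fin n) F) * (g : Matrix (Fin n) (Fin n) F)) j j = 1 := by
    rw [← Units.val_mul, inv_mul_cancel, Units.val_one, Matrix.one_apply_eq]
  rw [Matrix.mul_apply, Finset.sum_eq_zero fun k _ => by rw [h1 k, mul_zero]] at h2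
  exact zero_ne_one h2

theorem IsN.uniq {g : GL (Fin n) F} {π ρ : Equiv.Perm (Fin n)} (h : IsN a g π) (h' : IsN a g ρ) : π = ρ := by
  ext1 j
  by_cases hj : a = 0 ∨ ¬ Mid n j
  · by_contra hne
    refine h.ne hj (h'.1 _ _ hne (fun h2 => ?_))
    rcases hj with hj | hj
    · exact h2.1 hj
    · exact hj h2.2.2
  · rw [not_or, not_not] at hj
    rw [h.2 hj.1 j hj.2, h'.2 hj.1 j hj.2]

/-- the (block) monomial group -/
def NO (n : ℕ) (a : F) : Subgroup (GL (Fin n) F) where
  carrier := {g | g ∈ Om n a ∧ ∃ π, IsN a g π ∧ IsN a g⁻¹ π⁻¹}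
  mul_mem' := by
    rintro g h ⟨hg, π, hπ, hπ'⟩ ⟨hh, ρ, hρ, hρ'⟩
    refine ⟨Subgroup.mul_mem _ hg hh, π * ρ, hπ.mul hρ, ?_⟩
    rw [_root_.mul_inv_rev, _root_.mul_inv_rev]
    exact hρ'.mul hπ'
  one_mem' := ⟨Subgroup.one_mem _, 1, IsN.one, by rw [inv_one, inv_one]; exact IsN.one⟩
  inv_mem' := by
    rintro g ⟨hg, π, hπ, hπ'⟩
    refine ⟨Subgroup.inv_mem _ hg, π⁻¹, hπ', ?_⟩
    rw [inv_inv, inv_inv]
    exact hπ

theorem NO_le (n : ℕ) (a : F) : NO n a ≤ Om n a := fun _ h => h.1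

/-- the permutation of an element of `NO n a` -/
def pmo (a : F) (g : GL (Fin n) F) : Equiv.Perm (Fin n) := if h : ∃ π, IsN a g π then h.choose else 1

theorem pmo_eq {g : GL (Fin n) F} {π : Equiv.Perm (Fin n)} (h : IsN a g π) : pmo a g = π := by
  have h' : ∃ π, IsN a g π := ⟨π, h⟩
  rw [pmo, dif_pos h']
  exact h'.choose_spec.uniq h

theorem pmo_spec {g : GL (Fin n) F} (h : g ∈ NO n a) : IsN a g (pmo a g) := by
  obtain ⟨_, π, hπ, -⟩ := h
  rw [pmo_eq hπ]
  exact hπ

theorem pmo_one : pmo a (1 : GL (Fin n) F) = 1 := pmo_eq IsN.one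

theorem pmo_mul {g h : GL (Fin n) F} (hg : g ∈ NO n a) (hh : h ∈ NO n a) : pmo a (g * h) = pmo a g * pmo a h :=
  pmo_eq ((pmo_spec hg).mul (pmo_spec hh))

theorem pmo_inv {g : GL (Fin n) F} (hg : g ∈ NO n a) : pmo a g⁻¹ = (pmo a g)⁻¹ := by
  obtain ⟨_, π, hπ, hπ'⟩ := hg
  rw [pmo_eq hπ, pmo_eq hπ']

theorem pmo_mid {g : GL (Fin n) F} (hg : g ∈ NO n a) (ha : a ≠ 0) {j : Fin n} (hj : Mid n j) : pmo a g j = j :=
  (pmo_spec hg).2 ha j hj

/-- the action of a permutation which commutes with `rev` -/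
def acA (a : F) (π : Equiv.Perm (Fin n)) (h : ∀ i, π (Fin.rev i) = Fin.rev (π i))
    (h2 : a ≠ 0 → ∀ j, Mid n j → π j = j) : EA n a ≃ₗᵢ[ℝ] EA n a where
  toFun w := ofx a (fun i => cx w (π⁻¹ i)) (by
    intro i
    have h1 : π⁻¹ (Fin.rev i) = Fin.rev (π⁻¹ i) := by
      apply π.injective
      rw [h, pinv', pinv']
    rw [h1, cx_rev]) (by
    intro ha i hi
    have h1 : π⁻¹ i = i := by
      apply π.injective
      rw [pinv', h2 ha i hi]
    rw [h1]
    exact cx_mid ha w hi)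
  invFun w := ofx a (fun i => cx w (π i)) (by
    intro i
    rw [h, cx_rev]) (by
    intro ha i hi
    rw [h2 ha i hi]
    exact cx_mid ha w hi)
  left_inv w := cx_ext fun i => by
    show cx w (π⁻¹ (π i)) = cx w i
    rw [pinv]
  right_inv w := cx_ext fun i => by
    show cx w (π (π⁻¹ i)) = cx w i
    rw [pinv']
  map_add' x y := rfl
  map_smul' r x := rfl
  norm_map' w := by
    have h1 : ∀ v : EA n a, ‖v‖ ^ 2 = ∑ i, cx v i * cx v i := by
      intro v
      rw [← inner_cx, real_inner_self_eq_norm_sq]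
    refine (sq_eq_sq₀ (norm_nonneg _) (norm_nonneg _)).1 ?_
    rw [h1, h1]
    exact Equiv.sum_comp π⁻¹ (fun i => cx w i * cx w i)

theorem cx_acA (π : Equiv.Perm (Fin n)) (h : ∀ i, π (Fin.rev i) = Fin.rev (π i))
    (h2 : a ≠ 0 → ∀ j, Mid n j → π j = j) (w : EA n a) (i : Fin n) : cx (acA a π h h2 w) i = cx w (π⁻¹ i) := rfl

/-- the action of an element of `NO n a` -/
def acO (a : F) (g : GL (Fin n) F) : EA n a ≃ₗᵢ[ℝ] EA n a :=
  if h : (∀ i, pmo a g (Fin.rev i) = Fin.rev (pmo a g i)) ∧ (a ≠ 0 → ∀ j, Mid n j → pmo a g j = j) then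
    acA a (pmo a g) h.1 h.2 else 1

section

variable [Finite F] [CharP F 2]

theorem IsN_rev (hn : Even n) {g : GL (Fin n) F} (hg : g ∈ OQ n a) {π : Equiv.Perm (Fin n)} (h : IsN a g π)
    (i : Fin n) : π (Fin.rev i) = Fin.rev (π i) := by
  by_cases hi : a = 0 ∨ ¬ Mid n i
  · have hi' : a = 0 ∨ ¬ Mid n (Fin.rev i) := by
      rcases hi with h1 | h1
      · exact Or.inl h1
      · exact Or.inr (fun h2 => h1 ((Mid_rev hn).1 h2))
    have col : ∀ j : Fin n, (a = 0 ∨ ¬ Mid n j) →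
        mv g (sv j) = (g : Matrix (Fin n) (Fin n) F) (π j) j • sv (π j) := by
      intro j hj
      funext k
      rw [mv_sv, Pi.smul_apply, smul_eq_mul]
      by_cases hk : k = π j
      · rw [hk, sv, Pi.single_eq_same, mul_one]
      · rw [sv, Pi.single_eq_of_ne hk, mul_zero]
        refine h.1 k j hk (fun h2 => ?_)
        rcases hj with hj | hj
        · exact h2.1 hj
        · exact hj h2.2.2
    have h1 := OQ_bf hn hg (sv i) (sv (Fin.rev i))
    rw [col i hi, col _ hi', bf_smul_left, bf_smul_right, bf_sv_left, bf_sv_left] at h1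
    by_contra hne
    have h2 : (sv (π (Fin.rev i)) : Fin n → F) (Fin.rev (π i)) = 0 := by
      rw [sv, Pi.single_eq_of_ne (fun h3 => hne h3.symm)]
    rw [h2, mul_zero, mul_zero, sv, Pi.single_eq_same] at h1
    exact zero_ne_one h1
  · rw [not_or, not_not] at hi
    rw [h.2 hi.1 i hi.2, h.2 hi.1 _ ((Mid_rev hn).2 hi.2)]

theorem pmo_rev (hn : Even n) {g : GL (Fin n) F} (hg : g ∈ NO n a) (i : Fin n) :
    pmo a g (Fin.rev i) = Fin.rev (pmo a g i) :=
  IsN_rev hn (Om_le n a hg.1) (pmo_spec hg) i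

theorem cx_acO' (hn : Even n) {g : GL (Fin n) F} (hg : g ∈ NO n a) (w : EA n a) (i : Fin n) :
    cx (acO a g w) i = cx w ((pmo a g)⁻¹ i) := by
  rw [acO, dif_pos ⟨pmo_rev hn hg, fun ha j hj => pmo_mid hg ha hj⟩, cx_acA]

theorem cx_acO (hn : Even n) {g : GL (Fin n) F} (hg : g ∈ NO n a) (w : EA n a) (i : Fin n) :
    cx (acO a g w) (pmo a g i) = cx w i := by
  rw [cx_acO' hn hg, pinv]

theorem acO_one (hn : Even n) (a : F) : acO a (1 : GL (Fin n) F) = 1 := by
  ext1 w
  apply cx_ext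
  intro i
  have h := cx_acO' hn (Subgroup.one_mem (NO n a)) w i
  rw [pmo_one] at h
  exact h

theorem acO_mul (hn : Even n) {g h : GL (Fin n) F} (hg : g ∈ NO n a) (hh : h ∈ NO n a) :
    acO a (g * h) = acO a g * acO a h := by
  ext1 w
  apply cx_ext
  intro i
  show _ = cx (acO a g (acO a h w)) i
  rw [cx_acO' hn (Subgroup.mul_mem _ hg hh), cx_acO' hn hg, cx_acO' hn hh, pmo_mul hg hh, _root_.mul_inv_rev]
  rfl

theorem acO_rto (hn : Even n) {g : GL (Fin n) F} (hg : g ∈ NO n a) (i j : Fin n) :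
    acO a g (rto a i j) = rto a (pmo a g i) (pmo a g j) := by
  apply ext_inner_right ℝ
  intro w
  obtain ⟨v, rfl⟩ := (acO a g).surjective w
  rw [LinearIsometryEquiv.inner_map_map, inner_rto, inner_rto, cx_acO hn hg, cx_acO hn hg]

/-- the nonzero entries of the elements of `NO n a` -/
theorem NO_supp (hn : Even n) {g : GL (Fin n) F} (hg : g ∈ NO n a) {i j : Fin n}
    (h : (g : Matrix (Fin n) (Fin n) F) i j ≠ 0) (x : EA n a) : cx (acO a g x) i = cx x j := by
  by_cases h1 : i = pmo a g j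
  · rw [h1, cx_acO hn hg]
  · by_cases h2 : a ≠ 0 ∧ Mid n i ∧ Mid n j
    · rw [cx_mid h2.1 _ h2.2.1, cx_mid h2.1 _ h2.2.2]
    · exact absurd ((pmo_spec hg).1 i j h1 h2) h

theorem NO_supp' (hn : Even n) {g : GL (Fin n) F} (hg : g ∈ NO n a) {i j : Fin n}
    (h : ((g⁻¹ : GL (Fin n) F) : Matrix (Fin n) (Fin n) F) i j ≠ 0) (x : EA n a) : cx (acO a g x) j = cx x i := by
  have h1 := NO_supp hn (Subgroup.inv_mem _ hg) h (acO a g x)
  have h2 : acO a g⁻¹ (acO a g x) = x := by
    have h3 := acO_mul hn (Subgroup.inv_mem _ hg) hg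
    rw [inv_mul_cancel, acO_one hn] at h3
    exact (congrArg (fun f : EA n a ≃ₗᵢ[ℝ] EA n a => f x) h3).symm
  rw [h2] at h1
  exact h1.symm

/-- the condition for the inverse is automatic -/
theorem mem_NO {g : GL (Fin n) F} : g ∈ NO n a ↔ g ∈ Om n a ∧ ∃ π, IsN a g π := by
  constructor
  · rintro ⟨h, π, h1, -⟩
    exact ⟨h, π, h1⟩
  · rintro ⟨h, π, h1⟩
    refine ⟨h, π, h1, ?_⟩
    have hf : Finite (GL (Fin n) F) := inferInstance
    obtain ⟨k, hk, hk'⟩ := (isOfFinOrder_of_finite g).exists_pow_eq_one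
    have hpow : ∀ m : ℕ, IsN a (g ^ m) (π ^ m) := by
      intro m
      induction m with
      | zero => rw [pow_zero, pow_zero]; exact IsN.one
      | succ m ih => rw [pow_succ, pow_succ]; exact ih.mul h1
    have h2 : g⁻¹ = g ^ (k - 1) := by
      rw [inv_eq_iff_mul_eq_one, ← pow_succ', Nat.sub_add_cancel hk, hk']
    have h3 : π ^ k = 1 := by
      have h4 := hpow k
      rw [hk'] at h4
      exact h4.uniq IsN.one
    have h5 : π⁻¹ = π ^ (k - 1) := by
      rw [inv_eq_iff_mul_eq_one, ← pow_succ', Nat.sub_add_cancel hk, h3]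
    rw [h2, h5]
    exact hpow _

/-- the middle rows and columns of an element of `NO n a` -/
theorem mem_Uo (hn : Even n) {x : EA n a} {g : GL (Fin n) F} : g ∈ Uo x ↔ g ∈ Om n a ∧
    ∀ i j, ¬ cx x j < cx x i → (g : Matrix (Fin n) (Fin n) F) i j = (1 : Matrix (Fin n) (Fin n) F) i j := by
  unfold Uo
  rw [Subgroup.mem_inf, mem_UU]
  constructor
  · rintro ⟨h1, -, h2⟩
    exact ⟨h1, h2⟩
  · rintro ⟨h1, h2⟩
    exact ⟨h1, OQ_le_Ug hn a (Om_le n a h1), h2⟩

/-- it is enough that `g` is in `OQ n a` -/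
theorem mem_Uo' (hn : Even n) {x : EA n a} {g : GL (Fin n) F} : g ∈ Uo x ↔ g ∈ OQ n a ∧
    ∀ i j, ¬ cx x j < cx x i → (g : Matrix (Fin n) (Fin n) F) i j = (1 : Matrix (Fin n) (Fin n) F) i j := by
  rw [mem_Uo hn]
  constructor
  · rintro ⟨h1, h2⟩
    exact ⟨Om_le n a h1, h2⟩
  · rintro ⟨h1, h2⟩
    refine ⟨?_, h2⟩
    refine ev_levels hn h1 (y := cx x) (cx_rev x) (cx_mid' x) ?_ ?_
    · intro i j hij
      rw [h2 i j (not_lt.2 hij.le), Matrix.one_apply_ne]
      rintro rfl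
      exact lt_irrefl _ hij
    · intro i j hi hj
      exact h2 i j (by rw [hi, hj]; exact lt_irrefl _)

theorem mem_Lo (hn : Even n) {x : EA n a} {g : GL (Fin n) F} : g ∈ Lo x ↔ g ∈ Om n a ∧
    ∀ i j, cx x i ≠ cx x j → (g : Matrix (Fin n) (Fin n) F) i j = 0 := by
  unfold Lo
  rw [mem_OL]
  constructor
  · rintro ⟨h1, h2, -⟩
    exact ⟨h1, h2⟩
  · rintro ⟨h1, h2⟩
    have h3 : g ∈ UL (RingEquiv.refl F) Fin.revPerm (cx x) := mem_UL.2 ⟨OQ_le_Ug hn a (Om_le n a h1), h2⟩
    exact ⟨h1, h2, h3.2.2⟩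

theorem Lo_eq (hn : Even n) (x : EA n a) : Lo x = Om n a ⊓ UL (RingEquiv.refl F) Fin.revPerm (cx x) := by
  ext g
  rw [mem_Lo hn, Subgroup.mem_inf, mem_UL]
  constructor
  · rintro ⟨h1, h2⟩
    exact ⟨h1, OQ_le_Ug hn a (Om_le n a h1), h2⟩
  · rintro ⟨h1, -, h2⟩
    exact ⟨h1, h2⟩

theorem mem_UZ (hn : Even n) {g : GL (Fin n) F} : g ∈ UZ n a ↔ g ∈ OQ n a ∧
    ∀ i j, ¬ pl n i j → (g : Matrix (Fin n) (Fin n) F) i j = (1 : Matrix (Fin n) (Fin n) F) i j := by
  unfold UZ
  rw [mem_Uo' hn]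
  constructor
  · rintro ⟨h1, h2⟩
    refine ⟨h1, fun i j hij => ?_⟩
    by_cases h3 : Mid n i ∧ Mid n j
    · by_cases ha : a = 0
      · -- the entry at the two middle indices vanishes
        by_cases h4 : cx (zo n a) j < cx (zo n a) i
        · have hne : i ≠ j := by
            rintro rfl
            exact lt_irrefl _ h4
          have hj : j = Fin.rev i := (mid_pair hn h3.1 h3.2).resolve_left (fun h => hne h.symm)
          have hz : ∀ k : Fin n, cx (zo n a) k = (n : ℝ) - 1 - 2 * (k : ℕ) := by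
            intro k
            show msk a (fun i : Fin n => (n : ℝ) - 1 - 2 * (i : ℕ)) k = _
            rw [ha, msk_zero]
          have hlt : ∀ k l : Fin n, cx (zo n a) l < cx (zo n a) k ↔ k < l := by
            intro k l
            rw [hz, hz, Fin.lt_def]
            constructor
            · intro h
              have h1 : ((k : ℕ) : ℝ) < ((l : ℕ) : ℝ) := by linarith
              exact_mod_cast h1
            · intro h
              have h1 : ((k : ℕ) : ℝ) < ((l : ℕ) : ℝ) := by exact_mod_cast h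
              linarith
          have hij' : i < j := (hlt i j).1 h4
          have hq := mem_OQ.1 h1 (sv j)
          have hv : ∀ k, mv g (sv j) k = (g : Matrix (Fin n) (Fin n) F) k j := fun k => mv_sv g k j
          have hvj : (g : Matrix (Fin n) (Fin n) F) j j = 1 := by
            rw [h2 j j (lt_irrefl _), Matrix.one_apply_eq]
          have hvk : ∀ k, j < k → (g : Matrix (Fin n) (Fin n) F) k j = 0 := by
            intro k hk
            rw [h2 k j (fun h => absurd ((hlt k j).1 h) (not_lt.2 hk.le)), Matrix.one_apply_ne (ne_of_gt hk)]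
          have hi1 : (i : ℕ) + 1 = n / 2 ∧ (j : ℕ) = n / 2 := by
            have h5 := h3.1
            have h6 := h3.2
            rw [Fin.lt_def] at hij'
            unfold Mid at h5 h6
            omega
          have hsum : Qa n a (mv g (sv j)) = (g : Matrix (Fin n) (Fin n) F) i j := by
            rw [Qa, ha, zero_mul, add_zero, Finset.sum_eq_single i]
            · rw [if_pos (by omega), hv, hv, ← hj, hvj, mul_one]
            · intro k _ hk
              split_ifs with h7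
              · have h8 : j < Fin.rev k := by
                  have h9 := Fin.val_rev k
                  have h10 : (k : ℕ) ≠ (i : ℕ) := fun h => hk (Fin.ext h)
                  obtain ⟨m, hm⟩ := hn
                  rw [Fin.lt_def, h9]
                  omega
                rw [hv (Fin.rev k), hvk _ h8, mul_zero]
              · rfl
            · intro h
              exact absurd (Finset.mem_univ _) h
          rw [hsum] at hq
          rw [hq, Matrix.one_apply_ne hne, ha]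
          exact Qa_sv_zero hn j
        · exact h2 i j h4
      · exact h2 i j (by rw [zo_mid ha h3.1 h3.2]; exact lt_irrefl _)
    · refine h2 i j fun h => hij ⟨(zo_lt hn h3).1 h, h3⟩
  · rintro ⟨h1, h2⟩
    refine ⟨h1, fun i j hij => h2 i j fun h => hij (h.zo hn)⟩

theorem UZ_le (n : ℕ) (a : F) : UZ n a ≤ Om n a := by
  intro g hg
  unfold UZ Uo at hg
  exact hg.1

end

end

end OR
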