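import Pool.Agent.OR.I01

/-!
# MP_6c3636_al, OR, module I02: permutation matrices (helper40)

`pmt F π` is the matrix of the permutation `π`; it is in `OQ n a` if `π` commutes with `rev` (and preserves the middle if
`a ≠ 0`). `sw i` exchanges `i` and `rev i`; its matrix is in `OQ n a` and not in `Om n a` (`swp_not`).
-/

namespace OR

noncomputable section

open Classical Matrix CF

open LieP.GI (pinv pinv')

variable {n : ℕ} {F : Type} [Field F]

/-- the permutation matrix -/
def pmM (F : Type) [Field F] (π : Equiv.Perm (Fin n)) : Matrix (Fin n) (Fin n) F := fun i j => if i = π j then 1 else 0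

/-- the inverse of the permutation matrix -/
def pmM' (F : Type) [Field F] (π : Equiv.Perm (Fin n)) : Matrix (Fin n) (Fin n) F := fun i j => if π i = j then 1 else 0

/-- the permutation matrix as an element of the general linear group -/
def pmt (F : Type) [Field F] (π : Equiv.Perm (Fin n)) : GL (Fin n) F where
  val := pmM F π
  inv := pmM' F π
  val_inv := by
    ext i j
    rw [Matrix.mul_apply, Finset.sum_eq_single (π⁻¹ i)]
    · rw [pmM, pmM', if_pos (pinv' π i).symm, one_mul, pinv', Matrix.one_apply]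
    · intro k _ hk
      rw [pmM, if_neg, zero_mul]
      intro h
      exact hk (by rw [h, pinv])
    · intro h
      exact absurd (Finset.mem_univ _) h
  inv_val := by
    ext i j
    rw [Matrix.mul_apply, Finset.sum_eq_single (π i)]
    · rw [pmM, pmM', if_pos rfl, one_mul, Matrix.one_apply]
      by_cases h : i = j
      · rw [if_pos (by rw [h]), if_pos h]
      · rw [if_neg (fun h' => h (π.injective h')), if_neg h]
    · intro k _ hk
      rw [pmM', if_neg (fun h => hk h.symm), zero_mul]
    · intro h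
      exact absurd (Finset.mem_univ _) h

theorem pmt_apply (π : Equiv.Perm (Fin n)) (i j : Fin n) :
    (pmt F π : Matrix (Fin n) (Fin n) F) i j = if i = π j then 1 else 0 := rfl

theorem pmt_inv_apply (π : Equiv.Perm (Fin n)) (i j : Fin n) :
    (((pmt F π)⁻¹ : GL (Fin n) F) : Matrix (Fin n) (Fin n) F) i j = if π i = j then 1 else 0 := rfl

theorem mv_pmt (π : Equiv.Perm (Fin n)) (v : Fin n → F) (i : Fin n) : mv (pmt F π) v i = v (π⁻¹ i) := by
  show (∑ j, (pmt F π : Matrix (Fin n) (Fin n) F) i j * v j) = v (π⁻¹ i)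
  rw [Finset.sum_eq_single (π⁻¹ i)]
  · rw [pmt_apply, if_pos (pinv' π i).symm, one_mul]
  · intro k _ hk
    rw [pmt_apply, if_neg, zero_mul]
    intro h
    exact hk (by rw [h, pinv])
  · intro h
    exact absurd (Finset.mem_univ _) h

theorem mv_pmt_sv (π : Equiv.Perm (Fin n)) (j : Fin n) : mv (pmt F π) (sv j) = sv (π j) := by
  funext i
  rw [mv_pmt, sv, sv]
  by_cases h : i = π j
  · rw [h, pinv, Pi.single_eq_same, Pi.single_eq_same]
  · rw [Pi.single_eq_of_ne h, Pi.single_eq_of_ne]
    intro h'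
    apply h
    rw [← h', pinv']

theorem pmt_mul (π ρ : Equiv.Perm (Fin n)) : pmt F (π * ρ) = pmt F π * pmt F ρ := by
  refine mv_ext fun j => ?_
  rw [mv_mul, mv_pmt_sv, mv_pmt_sv, mv_pmt_sv]
  rfl

theorem pmt_one : pmt F (1 : Equiv.Perm (Fin n)) = 1 := by
  refine mv_ext fun j => ?_
  rw [mv_pmt_sv, mv_one]
  rfl

theorem pmt_inv (π : Equiv.Perm (Fin n)) : (pmt F π)⁻¹ = pmt F π⁻¹ := by
  rw [inv_eq_iff_mul_eq_one, ← pmt_mul, mul_inv_cancel, pmt_one]

theorem IsN_pmt {a : F} {π : Equiv.Perm (Fin n)} (h : a ≠ 0 → ∀ j, Mid n j → π j = j) : IsN a (pmt F π) π := by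
  refine ⟨fun i j hij _ => ?_, h⟩
  rw [pmt_apply, if_neg hij]

theorem Qa_perm (hn : Even n) (a : F) {π : Equiv.Perm (Fin n)} (h : ∀ i, π (Fin.rev i) = Fin.rev (π i))
    (hm : a ≠ 0 → ∀ i, Mid n (π i) ↔ Mid n i) (v : Fin n → F) : Qa n a (fun i => v (π i)) = Qa n a v := by
  have hr : ∀ i : Fin n, ((Fin.rev i : Fin n) : ℕ) < n / 2 ↔ ¬ (i : ℕ) < n / 2 := rev_lt hn
  have h1 : (∑ i : Fin n, if (i : ℕ) < n / 2 then v (π i) * v (π (Fin.rev i)) else 0) =
      ∑ i : Fin n, if (i : ℕ) < n / 2 then v i * v (Fin.rev i) else 0 := by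
    -- the map which sends `i` to `π i` or `rev (π i)`, whichever is in the first half
    refine Finset.sum_bij_ne_zero (fun i _ _ => if ((π i : Fin n) : ℕ) < n / 2 then π i else Fin.rev (π i))
      (fun i _ _ => Finset.mem_univ _) ?_ ?_ ?_
    · intro i _ hi j _ hj hij
      have hi1 : (i : ℕ) < n / 2 := by
        by_contra h2
        exact hi (if_neg h2)
      have hj1 : (j : ℕ) < n / 2 := by
        by_contra h2
        exact hj (if_neg h2)
      have h3 : π i = π j ∨ π i = π (Fin.rev j) := by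
        by_cases h4 : ((π i : Fin n) : ℕ) < n / 2
        · by_cases h5 : ((π j : Fin n) : ℕ) < n / 2
          · rw [if_pos h4, if_pos h5] at hij
            exact Or.inl hij
          · rw [if_pos h4, if_neg h5] at hij
            exact Or.inr (by rw [hij, h])
        · by_cases h5 : ((π j : Fin n) : ℕ) < n / 2
          · rw [if_neg h4, if_pos h5] at hij
            exact Or.inr (by rw [h, ← hij, Fin.rev_rev])
          · rw [if_neg h4, if_neg h5] at hij
            exact Or.inl (Fin.rev_injective hij)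
      rcases h3 with h3 | h3
      · exact π.injective h3
      · exfalso
        have h4 := π.injective h3
        rw [h4] at hi1
        exact (hr j).1 hi1 hj1
    · intro j _ hj
      have hj1 : (j : ℕ) < n / 2 := by
        by_contra h2
        exact hj (if_neg h2)
      rw [if_pos hj1] at hj
      by_cases h4 : ((π⁻¹ j : Fin n) : ℕ) < n / 2
      · refine ⟨π⁻¹ j, Finset.mem_univ _, ?_, ?_⟩
        · rw [if_pos h4, h, pinv']
          exact hj
        · rw [if_pos (by rw [pinv']; exact hj1), pinv']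
      · have h5 : ((Fin.rev (π⁻¹ j) : Fin n) : ℕ) < n / 2 := (hr _).2 h4
        refine ⟨Fin.rev (π⁻¹ j), Finset.mem_univ _, ?_, ?_⟩
        · rw [if_pos h5, Fin.rev_rev, h, pinv', mul_comm]
          exact hj
        · rw [h, pinv', if_neg (fun h6 => (hr j).1 h6 hj1), Fin.rev_rev]
    · intro i _ hi
      have hi1 : (i : ℕ) < n / 2 := by
        by_contra h2
        exact hi (if_neg h2)
      rw [if_pos hi1]
      by_cases h4 : ((π i : Fin n) : ℕ) < n / 2
      · rw [if_pos h4, if_pos h4, h]
      · have h5 : ((Fin.rev (π i) : Fin n) : ℕ) < n / 2 := (hr _).2 h4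
        rw [if_neg h4, if_pos h5, h, Fin.rev_rev, mul_comm]
  have h2 : a * (∑ i : Fin n, if Mid n i then v (π i) ^ 2 else 0) = a * ∑ i : Fin n, if Mid n i then v i ^ 2 else 0 := by
    by_cases ha : a = 0
    · rw [ha, zero_mul, zero_mul]
    · have h3 : (∑ i : Fin n, if Mid n i then v (π i) ^ 2 else 0) =
          ∑ i : Fin n, (fun k => if Mid n k then v k ^ 2 else 0) (π i) := by
        refine Finset.sum_congr rfl fun i _ => ?_
        by_cases h4 : Mid n i
        · rw [if_pos h4]
          show _ = if Mid n (π i) then v (π i) ^ 2 else 0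
          rw [if_pos ((hm ha i).2 h4)]
        · rw [if_neg h4]
          show _ = if Mid n (π i) then v (π i) ^ 2 else 0
          rw [if_neg (fun h5 => h4 ((hm ha i).1 h5))]
      rw [h3, Equiv.sum_comp π (fun k => if Mid n k then v k ^ 2 else 0)]
  unfold Qa
  rw [h1, h2]

theorem pmt_OQ (hn : Even n) (a : F) {π : Equiv.Perm (Fin n)} (h : ∀ i, π (Fin.rev i) = Fin.rev (π i))
    (hm : a ≠ 0 → ∀ i, Mid n (π i) ↔ Mid n i) : pmt F π ∈ OQ n a := by
  rw [mem_OQ]
  intro v
  have h1 : mv (pmt F π) v = fun i => v (π⁻¹ i) := funext fun i => mv_pmt π v i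
  rw [h1]
  refine Qa_perm hn a ?_ ?_ v
  · intro i
    apply π.injective
    rw [h, pinv', pinv']
  · intro ha i
    rw [← hm ha (π⁻¹ i), pinv']

theorem swap_rev (hn : Even n) (i k : Fin n) :
    Equiv.swap i (Fin.rev i) (Fin.rev k) = Fin.rev (Equiv.swap i (Fin.rev i) k) := by
  have h0 := rev_ne hn i
  by_cases h1 : k = i
  · rw [h1, Equiv.swap_apply_left, Equiv.swap_apply_right, Fin.rev_rev]
  · by_cases h2 : k = Fin.rev i
    · rw [h2, Fin.rev_rev, Equiv.swap_apply_left, Equiv.swap_apply_right]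
    · rw [Equiv.swap_apply_of_ne_of_ne h1 h2, Equiv.swap_apply_of_ne_of_ne]
      · intro h3
        exact h2 (by rw [← h3, Fin.rev_rev])
      · intro h3
        exact h1 (Fin.rev_injective h3)

theorem swap_mid (hn : Even n) (i k : Fin n) : Mid n (Equiv.swap i (Fin.rev i) k) ↔ Mid n k := by
  by_cases h1 : k = i
  · rw [h1, Equiv.swap_apply_left]
    exact Mid_rev hn
  · by_cases h2 : k = Fin.rev i
    · rw [h2, Equiv.swap_apply_right]
      exact (Mid_rev hn).symm
    · rw [Equiv.swap_apply_of_ne_of_ne h1 h2]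

/-- the matrix which exchanges `i` and `rev i` -/
def swp (F : Type) [Field F] (i : Fin n) : GL (Fin n) F := pmt F (Equiv.swap i (Fin.rev i))

theorem swp_OQ (hn : Even n) (a : F) (i : Fin n) : swp F i ∈ OQ n a :=
  pmt_OQ hn a (swap_rev hn i) (fun _ => swap_mid hn i)

theorem mv_swp (i : Fin n) (v : Fin n → F) (k : Fin n) : mv (swp F i) v k = v (Equiv.swap i (Fin.rev i) k) := by
  rw [swp, mv_pmt, Equiv.swap_inv]

theorem swp_mul (i : Fin n) : swp F i * swp F i = 1 := by
  rw [swp, ← pmt_mul, Equiv.swap_mul_self, pmt_one]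

theorem swp_inv (i : Fin n) : (swp F i)⁻¹ = swp F i := by
  rw [swp, pmt_inv, Equiv.swap_inv]

section

variable [CharP F 2]

theorem swp_rank [Finite F] (hn : Even n) (i : Fin n) : ((swp F i : Matrix (Fin n) (Fin n) F) - 1).rank = 1 := by
  have h0 := rev_ne hn i
  have h1 : (swp F i : Matrix (Fin n) (Fin n) F) - 1 =
      Matrix.vecMulVec (sv i + sv (Fin.rev i)) (sv i + sv (Fin.rev i)) := by
    ext k l
    rw [Matrix.sub_apply, Matrix.vecMulVec_apply, ← mv_sv, mv_swp, Matrix.one_apply]
    have e : ∀ p q : Fin n, (sv p : Fin n → F) q = if q = p then 1 else 0 := by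
      intro p q
      rw [sv, Pi.single_apply]
    simp only [Pi.add_apply, e]
    have hc : (1 : F) + 1 = 0 := CharTwo.add_self_eq_zero 1
    have hs : (0 : F) - 1 = 1 := by
      rw [zero_sub, CharTwo.neg_eq]
    by_cases hk1 : k = i
    · rw [hk1, Equiv.swap_apply_left, if_pos rfl, if_neg h0.symm, add_zero, one_mul]
      by_cases hl1 : l = i
      · rw [hl1, if_neg h0, if_pos rfl, if_neg h0.symm, add_zero]
        exact hs
      · rw [if_neg (fun h => hl1 h.symm : ¬ i = l), if_neg hl1, zero_add]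
        by_cases hl2 : l = Fin.rev i
        · rw [if_pos hl2.symm, if_pos hl2, sub_zero]
        · rw [if_neg (fun h => hl2 h.symm), if_neg hl2, sub_zero]
    · by_cases hk2 : k = Fin.rev i
      · rw [hk2, Equiv.swap_apply_right, if_neg h0, if_pos rfl, zero_add, one_mul]
        by_cases hl1 : l = i
        · rw [hl1, if_pos rfl, if_neg h0, if_neg h0.symm, add_zero, sub_zero]
        · rw [if_neg (fun h => hl1 h.symm : ¬ i = l), if_neg hl1, zero_add]
          by_cases hl2 : l = Fin.rev i
          · rw [if_pos hl2.symm, if_pos hl2]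
            exact hs
          · rw [if_neg (fun h => hl2 h.symm), if_neg hl2, sub_zero]
      · rw [Equiv.swap_apply_of_ne_of_ne hk1 hk2, if_neg hk1, if_neg hk2, add_zero, zero_mul]
        exact sub_self _
  have h2 : Matrix.rank (Matrix.vecMulVec (sv i + sv (Fin.rev i) : Fin n → F) (sv i + sv (Fin.rev i))) ≤ 1 :=
    Matrix.rank_vecMulVec_le _ _
  rw [h1]
  refine le_antisymm h2 (Nat.one_le_iff_ne_zero.2 fun h3 => ?_)
  have h4 := E07_aux.rank_zero h3
  have h5 := congrFun (congrFun h4 i) i
  rw [Matrix.vecMulVec_apply, Pi.add_apply, sv, sv, Pi.single_eq_same, Pi.single_eq_of_ne h0.symm, add_zero,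
    one_mul] at h5
  exact one_ne_zero h5

theorem swp_not [Finite F] (hn : Even n) (a : F) (i : Fin n) : swp F i ∉ Om n a := by
  rw [mem_Om hn, swp_rank hn]
  rintro ⟨-, h⟩
  exact absurd h (by decide)

/-- the parity can be corrected by an exchange -/
theorem swp_mul_mem [Finite F] (hn : Even n) {a : F} {g : GL (Fin n) F} (hg : g ∈ OQ n a) (hg' : g ∉ Om n a)
    (i : Fin n) : swp F i * g ∈ Om n a := mul_mem_Om hn (swp_OQ hn a i) hg (swp_not hn a i) hg'

theorem mul_swp_mem [Finite F] (hn : Even n) {a : F} {g : GL (Fin n) F} (hg : g ∈ OQ n a) (hg' : g ∉ Om n a)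
    (i : Fin n) : g * swp F i ∈ Om n a := mul_mem_Om hn hg (swp_OQ hn a i) hg' (swp_not hn a i)

end

end

end OR
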