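import Pool.Agent.OR.I02

/-!
# MP_6c3636_al, OR, module I03: the properties (S1), (S2) (helper40)

`plane`: elements of `Om n 0` are diagonal on a hyperbolic plane of level zero: otherwise the product with `swp F i` would
be in `Om n 0` (`ev_levels`), and so `swp F i`. `o_s1`: the entry `(i, rev i)` is the value of the quadratic form at the
column `rev i`. `o_s2`: from `plane` for the function `x + t y`.
-/

namespace OR

noncomputable section

open Classical Matrix CF

open LieP (En UG UL Lin)

open LieP.GI (pinv pinv' UU mem_UU mem_UL)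

variable {n : ℕ} {F : Type} [Field F] [Finite F] [CharP F 2] {a : F}

namespace I03_aux

omit [Finite F] [CharP F 2] in
/-- the value of the quadratic form, if only the pair `i`, `rev i` contributes -/
theorem Qa_pair (hn : Even n) (i : Fin n) {v : Fin n → F} (h : ∀ k, k ≠ i → k ≠ Fin.rev i → v k * v (Fin.rev k) = 0)
    (hm : a ≠ 0 → ∀ k, Mid n k → v k = 0) : Qa n a v = v i * v (Fin.rev i) := by
  have h2 : a * (∑ k : Fin n, if Mid n k then v k ^ 2 else 0) = 0 := by
    by_cases ha : a = 0
    · rw [ha, zero_mul]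
    · rw [Finset.sum_eq_zero, mul_zero]
      intro k _
      split_ifs with hk
      · rw [hm ha k hk, zero_pow two_ne_zero]
      · rfl
  rw [Qa, h2, add_zero]
  have key : ∀ j : Fin n, (j : ℕ) < n / 2 → (j = i ∨ j = Fin.rev i) →
      (∑ k : Fin n, if (k : ℕ) < n / 2 then v k * v (Fin.rev k) else 0) = v j * v (Fin.rev j) := by
    intro j hj hji
    rw [Finset.sum_eq_single j]
    · rw [if_pos hj]
    · intro k _ hk
      split_ifs with hk2
      · by_cases h3 : k = i
        · exfalso
          rcases hji with h4 | h4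
          · exact hk (h3.trans h4.symm)
          · rw [h4] at hj
            rw [h3] at hk2
            exact (rev_lt hn i).1 hj hk2
        · by_cases h4 : k = Fin.rev i
          · exfalso
            rcases hji with h5 | h5
            · rw [h4] at hk2
              rw [h5] at hj
              exact (rev_lt hn i).1 hk2 hj
            · exact hk (h4.trans h5.symm)
          · exact h k h3 h4
      · rfl
    · intro h5
      exact absurd (Finset.mem_univ _) h5
  by_cases hi : (i : ℕ) < n / 2
  · exact key i hi (Or.inl rfl)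
  · rw [key (Fin.rev i) ((rev_lt hn i).2 hi) (Or.inr rfl), Fin.rev_rev, mul_comm]

end I03_aux

open I03_aux

/-- elements of `Om n 0` are diagonal on a hyperbolic plane of level zero -/
theorem plane (hn : Even n) {x : Fin n → ℝ} (hx : ∀ i, x (Fin.rev i) = - x i) {i : Fin n} (hi0 : x i = 0)
    (hi : ∀ j, x j = 0 → j = i ∨ j = Fin.rev i) {g : GL (Fin n) F} (hg : g ∈ Om n (0 : F))
    (hd : ∀ j k, x j ≠ x k → (g : Matrix (Fin n) (Fin n) F) j k = 0) :
    (g : Matrix (Fin n) (Fin n) F) i (Fin.rev i) = 0 := by
  by_contra h0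
  have hir := rev_ne hn i
  have hri0 : x (Fin.rev i) = 0 := by rw [hx, hi0, neg_zero]
  have hgO := Om_le n _ hg
  -- the columns `i` and `rev i`
  have hcol : ∀ l : Fin n, x l = 0 → ∀ k, k ≠ i → k ≠ Fin.rev i → (g : Matrix (Fin n) (Fin n) F) k l = 0 := by
    intro l hl k hk1 hk2
    refine hd k l fun h => ?_
    rcases hi k (h.trans hl) with h1 | h1
    · exact hk1 h1
    · exact hk2 h1
  have hQ : ∀ l : Fin n, x l = 0 →
      (g : Matrix (Fin n) (Fin n) F) i l * (g : Matrix (Fin n) (Fin n) F) (Fin.rev i) l = 0 := by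
    intro l hl
    have h1 := mem_OQ.1 hgO (sv l)
    rw [Qa_sv_zero hn, Qa_pair hn i, mv_sv, mv_sv] at h1
    · exact h1
    · intro k hk1 hk2
      rw [mv_sv, hcol l hl k hk1 hk2, zero_mul]
    · intro h
      exact absurd rfl h
  have hrr : (g : Matrix (Fin n) (Fin n) F) (Fin.rev i) (Fin.rev i) = 0 := (mul_eq_zero.1 (hQ _ hri0)).resolve_left h0
  -- the entry `(i, i)`
  have hii : (g : Matrix (Fin n) (Fin n) F) i i = 0 := by
    by_contra h1
    have h2 : (g : Matrix (Fin n) (Fin n) F) (Fin.rev i) i = 0 := (mul_eq_zero.1 (hQ _ hi0)).resolve_left h1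
    have h3 := OQ_bf hn hgO (sv i) (sv (Fin.rev i))
    have hs : (sv (Fin.rev i) : Fin n → F) (Fin.rev i) = 1 := by rw [sv, Pi.single_eq_same]
    rw [bf_sv_left, hs] at h3
    have h4 : bf (mv g (sv i)) (mv g (sv (Fin.rev i))) = 0 := by
      unfold bf
      refine Finset.sum_eq_zero fun k _ => ?_
      rw [mv_sv, mv_sv]
      by_cases hk1 : k = i
      · rw [hk1, h2, zero_mul]
      · by_cases hk2 : k = Fin.rev i
        · rw [hk2, hrr, mul_zero]
        · rw [hcol _ hri0 k hk1 hk2, mul_zero]
    rw [h4] at h3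
    exact zero_ne_one h3
  -- the element `h`
  have hswp : ∀ j k : Fin n, ((swp F i * g : GL (Fin n) F) : Matrix (Fin n) (Fin n) F) j k =
      (g : Matrix (Fin n) (Fin n) F) (Equiv.swap i (Fin.rev i) j) k := by
    intro j k
    rw [← mv_sv, mv_mul, mv_swp, mv_sv]
  have hO : swp F i * g ∈ OQ n (0 : F) := (OQ n _).mul_mem (swp_OQ hn 0 i) hgO
  let x' : Fin n → ℝ := fun k => if k = i then 1 else if k = Fin.rev i then -1 else x k
  have hxi : x' i = 1 := if_pos rfl
  have hxr : x' (Fin.rev i) = -1 := by
    show (if Fin.rev i = i then (1 : ℝ) else if Fin.rev i = Fin.rev i then -1 else x (Fin.rev i)) = -1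
    rw [if_neg hir, if_pos rfl]
  have hxo : ∀ k, k ≠ i → k ≠ Fin.rev i → x' k = x k := by
    intro k h1 h2
    show (if k = i then (1 : ℝ) else if k = Fin.rev i then -1 else x k) = x k
    rw [if_neg h1, if_neg h2]
  have hx' : ∀ k, x' (Fin.rev k) = - x' k := by
    intro k
    by_cases h1 : k = i
    · rw [h1, hxi, hxr]
    · by_cases h2 : k = Fin.rev i
      · rw [h2, Fin.rev_rev, hxi, hxr, neg_neg]
      · rw [hxo k h1 h2, hxo (Fin.rev k), hx]
        · intro h3
          exact h2 (by rw [← h3, Fin.rev_rev])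
        · intro h3
          exact h1 (Fin.rev_injective h3)
  have hne : ∀ k, x' k ≠ 0 := by
    intro k
    by_cases h1 : k = i
    · rw [h1, hxi]; exact one_ne_zero
    · by_cases h2 : k = Fin.rev i
      · rw [h2, hxr]; norm_num
      · rw [hxo k h1 h2]
        intro h3
        rcases hi k h3 with h4 | h4
        · exact h1 h4
        · exact h2 h4
  have hmem : swp F i * g ∈ Om n (0 : F) := by
    refine ev_levels hn hO hx' (fun h => absurd rfl h) ?_ (fun j k hj _ => absurd hj (hne j))
    intro j k hjk
    rw [hswp]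
    by_cases hj1 : j = i
    · rw [hj1, Equiv.swap_apply_left]
      by_cases hk1 : k = i
      · rw [hj1, hk1] at hjk
        exact absurd hjk (lt_irrefl _)
      · by_cases hk2 : k = Fin.rev i
        · rw [hk2]
          exact hrr
        · refine hd _ _ fun h1 => ?_
          rw [hri0] at h1
          rcases hi k h1.symm with h2 | h2
          · exact hk1 h2
          · exact hk2 h2
    · by_cases hj2 : j = Fin.rev i
      · rw [hj2, Equiv.swap_apply_right]
        by_cases hk1 : k = i
        · rw [hk1]
          exact hii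
        · by_cases hk2 : k = Fin.rev i
          · rw [hj2, hk2] at hjk
            exact absurd hjk (lt_irrefl _)
          · refine hd _ _ fun h1 => ?_
            rw [hi0] at h1
            rcases hi k h1.symm with h2 | h2
            · exact hk1 h2
            · exact hk2 h2
      · rw [Equiv.swap_apply_of_ne_of_ne hj1 hj2]
        by_cases hk1 : k = i
        · rw [hk1]
          exact hcol i hi0 j hj1 hj2
        · by_cases hk2 : k = Fin.rev i
          · rw [hk2]
            exact hcol _ hri0 j hj1 hj2
          · rw [hxo j hj1 hj2, hxo k hk1 hk2] at hjk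
            exact hd j k (ne_of_lt hjk)
  apply swp_not hn (0 : F) i
  have h5 : swp F i = swp F i * g * g⁻¹ := by rw [mul_assoc, mul_inv_cancel, mul_one]
  rw [h5]
  exact (Om n _).mul_mem hmem ((Om n _).inv_mem hg)

theorem o_s1 (hn : Even n) : ∀ x x' y z : EA n a,
    (∀ α ∈ Ro n a, inner ℝ α z = 0 → 0 < inner ℝ α x → 0 < inner ℝ α x' → 0 < inner ℝ α y) →
    ∀ g ∈ Uo x, g ∈ Uo x' → g ∈ Lo z → g ∈ Uo y := by
  intro x x' y z H g hg hg' hgz
  rw [forall_Ro] at H
  rw [mem_Uo hn] at hg hg' ⊢
  rw [mem_Lo hn] at hgz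
  refine ⟨hg.1, fun i j hij => ?_⟩
  by_contra h0
  have e1 : cx x j < cx x i := by
    by_contra h1
    exact h0 (hg.2 i j h1)
  have e2 : cx x' j < cx x' i := by
    by_contra h1
    exact h0 (hg'.2 i j h1)
  have hne : i ≠ j := by
    rintro rfl
    exact lt_irrefl _ e1
  rw [Matrix.one_apply_ne hne] at h0
  have e3 : cx z i = cx z j := by
    by_contra h1
    exact h0 (hgz.2 i j h1)
  by_cases hj : j = Fin.rev i
  · -- the entry is the value of the quadratic form
    subst hj
    have hyi : cx y i ≤ 0 := by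
      rw [not_lt, cx_rev] at hij
      linarith
    have hxi : 0 < cx x i := by
      rw [cx_rev] at e1
      linarith
    have hv : ∀ k, mv g (sv (Fin.rev i)) k = (g : Matrix (Fin n) (Fin n) F) k (Fin.rev i) := fun k => mv_sv g k _
    have hpos : ∀ k, k ≠ i → k ≠ Fin.rev i → (g : Matrix (Fin n) (Fin n) F) k (Fin.rev i) ≠ 0 → 0 < cx y k := by
      intro k hk1 hk2 hk3
      have f1 : cx x (Fin.rev i) < cx x k := by
        by_contra h1
        rw [hg.2 k _ h1, Matrix.one_apply_ne hk2] at hk3
        exact hk3 rfl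
      have f2 : cx x' (Fin.rev i) < cx x' k := by
        by_contra h1
        rw [hg'.2 k _ h1, Matrix.one_apply_ne hk2] at hk3
        exact hk3 rfl
      have f3 : cx z k = cx z (Fin.rev i) := by
        by_contra h1
        exact hk3 (hgz.2 k _ h1)
      have f4 := H k (Fin.rev i) hk2 (fun h1 => hk1 (Fin.rev_injective h1).symm) (zero_rto.2 f3) (pos_rto.2 f1)
        (pos_rto.2 f2)
      rw [pos_rto, cx_rev] at f4
      linarith
    have hQ := mem_OQ.1 (Om_le n a hg.1) (sv (Fin.rev i))
    have himid : a ≠ 0 → ¬ Mid n i := by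
      intro ha hm
      rw [cx_mid ha x hm] at hxi
      exact lt_irrefl _ hxi
    have hQ0 : Qa n a (sv (Fin.rev i)) = 0 := by
      by_cases ha : a = 0
      · rw [ha]
        exact Qa_sv_zero hn _
      · exact Qa_sv a hn (fun h1 => himid ha ((Mid_rev hn).1 h1))
    rw [hQ0, Qa_pair hn i, hv, hv] at hQ
    · rw [hg.2 (Fin.rev i) (Fin.rev i) (lt_irrefl _), Matrix.one_apply_eq, mul_one] at hQ
      exact h0 hQ
    · intro k hk1 hk2
      by_contra h1
      rw [hv, hv] at h1
      have h2 := hpos k hk1 hk2 (left_ne_zero_of_mul h1)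
      have h3 := hpos (Fin.rev k) (fun h => hk2 (by rw [← h, Fin.rev_rev])) (fun h => hk1 (Fin.rev_injective h))
        (right_ne_zero_of_mul h1)
      rw [cx_rev] at h3
      linarith
    · intro ha k hk
      rw [hv]
      by_contra h1
      have h2 := hpos k (fun h => himid ha (h ▸ hk)) (fun h => himid ha ((Mid_rev hn).1 (h ▸ hk))) h1
      rw [cx_mid ha y hk] at h2
      exact lt_irrefl _ h2
  · exact hij (pos_rto.1 (H i j hne hj (zero_rto.2 e3) (pos_rto.2 e1) (pos_rto.2 e2)))

theorem o_s2 (hn : Even n) : ∀ x y w : EA n a,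
    (∀ α ∈ Ro n a, inner ℝ α x = 0 → inner ℝ α y = 0 → inner ℝ α w = 0) →
    ∀ g ∈ Lo x, g ∈ Lo y → g ∈ Lo w := by
  intro x y w H g hg hg'
  rw [forall_Ro] at H
  simp only [zero_rto] at H
  rw [mem_Lo hn] at hg hg' ⊢
  refine ⟨hg.1, fun j k hjk => ?_⟩
  by_contra h0
  have e1 : cx x j = cx x k := by
    by_contra h1
    exact h0 (hg.2 j k h1)
  have e2 : cx y j = cx y k := by
    by_contra h1
    exact h0 (hg'.2 j k h1)
  have hne : j ≠ k := by
    rintro rfl
    exact hjk rfl
  by_cases hk : k = Fin.rev j
  · subst hk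
    have hxj : cx x j = 0 := by
      rw [cx_rev] at e1
      linarith
    have hyj : cx y j = 0 := by
      rw [cx_rev] at e2
      linarith
    have hwj : cx w j ≠ 0 := by
      intro h1
      apply hjk
      rw [cx_rev, h1, neg_zero]
    -- there is no other index where `x` and `y` vanish
    have hno : ∀ l, cx x l = 0 → cx y l = 0 → l = j ∨ l = Fin.rev j := by
      intro l h1 h2
      by_contra h3
      rw [not_or] at h3
      have h4 := H j l (fun h => h3.1 h.symm) h3.2 (hxj.trans h1.symm) (hyj.trans h2.symm)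
      have h5 := H j (Fin.rev l) (fun h => h3.2 (by rw [h, Fin.rev_rev]))
        (fun h => h3.1 (Fin.rev_injective h)) (by rw [cx_rev, h1, neg_zero, hxj])
        (by rw [cx_rev, h2, neg_zero, hyj])
      rw [cx_rev] at h5
      apply hwj
      linarith
    have ha : a = 0 := by
      by_contra ha
      have hjm : ¬ Mid n j := fun h => hwj (cx_mid ha w h)
      have hn0 : 0 < n := lt_of_le_of_lt (Nat.zero_le _) j.2
      have hlt : n / 2 < n := Nat.div_lt_self hn0 (by norm_num)
      have hm : Mid n (⟨n / 2, hlt⟩ : Fin n) := Or.inr rfl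
      rcases hno _ (cx_mid ha x hm) (cx_mid ha y hm) with h1 | h1
      · exact hjm (h1 ▸ hm)
      · exact hjm ((Mid_rev hn).1 (h1 ▸ hm))
    subst ha
    -- a generic combination
    obtain ⟨t, ht⟩ : ∃ t : ℝ, t ∉ (Finset.univ.image fun l : Fin n => - cx x l / cx y l) :=
      Infinite.exists_notMem_finset _
    have hcomb : ∀ l, cx x l + t * cx y l = 0 → l = j ∨ l = Fin.rev j := by
      intro l hl
      by_cases h2 : cx y l = 0
      · rw [h2, mul_zero, add_zero] at hl
        exact hno l hl h2
      · exfalso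
        apply ht
        rw [Finset.mem_image]
        refine ⟨l, Finset.mem_univ _, ?_⟩
        rw [div_eq_iff h2]
        linarith
    refine h0 (plane hn (x := fun l => cx x l + t * cx y l) ?_ ?_ hcomb hg.1 ?_)
    · intro l
      show cx x (Fin.rev l) + t * cx y (Fin.rev l) = -(cx x l + t * cx y l)
      rw [cx_rev, cx_rev]
      ring
    · show cx x j + t * cx y j = 0
      rw [hxj, hyj, mul_zero, add_zero]
    · intro l m hlm
      by_contra h1
      have h2 : cx x l = cx x m := by
        by_contra h3
        exact h1 (hg.2 l m h3)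
      have h3 : cx y l = cx y m := by
        by_contra h4
        exact h1 (hg'.2 l m h4)
      apply hlm
      show cx x l + t * cx y l = cx x m + t * cx y m
      rw [h2, h3]
  · exact hjk (H j k hne hk e1 e2)

end

end OR
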