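import Pool.Agent.OR.I01

/-!
# MP_6c3636_al, OR, module I04: products of unipotent and Levi parts in the isometry group (helper40)

For an isometry `g` of the polar form the function `fq a g v = Qa n a (mv g v) + Qa n a v` is additive, and
`fq (g * h) v = fq g (mv h v) + fq h v`. It vanishes at `sv j` for `g ∈ UU x`, `0 ≤ x_j`, and for `g ∈ UL x`, `x_j ≠ 0`.
-/

namespace OR

noncomputable section

open Classical Matrix CF

open LieP (En UG UL Lin)

open LieP.GI (pinv pinv' UU mem_UU mem_UL)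

variable {n : ℕ} {F : Type} [Field F] [Finite F] [CharP F 2] {a : F}

namespace I04_aux

/-- the defect of `g` -/
def fq (a : F) (g : GL (Fin n) F) (v : Fin n → F) : F := Qa n a (mv g v) + Qa n a v

omit [Finite F] in
theorem fq_add (hn : Even n) (a : F) {g : GL (Fin n) F} (hg : ∀ v w : Fin n → F, bf (mv g v) (mv g w) = bf v w)
    (v w : Fin n → F) : fq a g (v + w) = fq a g v + fq a g w := by
  unfold fq
  rw [mv_add, Qa_add hn, Qa_add hn, hg]
  have h1 := CharTwo.add_self_eq_zero (bf v w)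
  linear_combination h1

omit [Finite F] in
theorem fq_smul (a : F) (g : GL (Fin n) F) (c : F) (v : Fin n → F) : fq a g (c • v) = c ^ 2 * fq a g v := by
  unfold fq
  rw [mv_smul, Qa_smul, Qa_smul]
  ring

omit [Finite F] in
theorem fq_mul (a : F) (g h : GL (Fin n) F) (v : Fin n → F) : fq a (g * h) v = fq a g (mv h v) + fq a h v := by
  unfold fq
  rw [mv_mul]
  have h1 := CharTwo.add_self_eq_zero (Qa n a (mv h v))
  linear_combination -h1

omit [Finite F] [CharP F 2] in
theorem fq_inv (a : F) (g : GL (Fin n) F) (v : Fin n → F) : fq a g (mv g⁻¹ v) = fq a g⁻¹ v := by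
  unfold fq
  rw [mv_inv', add_comm]

omit [Finite F] in
theorem fq_zero (hn : Even n) (a : F) {g : GL (Fin n) F} (hg : ∀ v w : Fin n → F, bf (mv g v) (mv g w) = bf v w)
    {v : Fin n → F} (h : ∀ j, v j ≠ 0 → fq a g (sv j) = 0) : fq a g v = 0 := by
  have h1 : ∀ s : Finset (Fin n), fq a g (∑ j ∈ s, v j • (sv j : Fin n → F)) = 0 := by
    intro s
    induction s using Finset.induction_on with
    | empty =>
      rw [Finset.sum_empty]
      unfold fq
      rw [mv_zero, Qa_zero, add_zero]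
    | insert j s hj ih =>
      rw [Finset.sum_insert hj, fq_add hn a hg, ih, add_zero, fq_smul]
      by_cases h2 : v j = 0
      · rw [h2, zero_pow two_ne_zero, zero_mul]
      · rw [h j h2, mul_zero]
  have h2 : (∑ j, v j • (sv j : Fin n → F)) = v := by
    funext k
    rw [Finset.sum_apply, Finset.sum_eq_single k]
    · rw [Pi.smul_apply, sv, Pi.single_eq_same, smul_eq_mul, mul_one]
    · intro j _ hj
      rw [Pi.smul_apply, sv, Pi.single_eq_of_ne hj.symm, smul_zero]
    · intro h3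
      exact absurd (Finset.mem_univ _) h3
  rw [← h2]
  exact h1 _

theorem OQ_of_fq (hn : Even n) {g : GL (Fin n) F} (hg : ∀ v w : Fin n → F, bf (mv g v) (mv g w) = bf v w)
    (h : ∀ j, fq a g (sv j) = 0) : g ∈ OQ n a := by
  rw [mem_OQ]
  intro v
  have h1 := fq_zero hn a hg (v := v) (fun j _ => h j)
  unfold fq at h1
  exact CharTwo.add_eq_zero.1 h1

omit [Finite F] [CharP F 2] in
theorem Qa_eq {v w : Fin n → F} (h1 : ∀ k, v k * v (Fin.rev k) = 0) (h2 : ∀ k, w k * w (Fin.rev k) = 0)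
    (h3 : a ≠ 0 → ∀ k, Mid n k → v k = w k) : Qa n a v = Qa n a w := by
  have e1 : (∑ i : Fin n, if (i : ℕ) < n / 2 then v i * v (Fin.rev i) else 0) = 0 := by
    refine Finset.sum_eq_zero fun k _ => ?_
    rw [h1, ite_self]
  have e2 : (∑ i : Fin n, if (i : ℕ) < n / 2 then w i * w (Fin.rev i) else 0) = 0 := by
    refine Finset.sum_eq_zero fun k _ => ?_
    rw [h2, ite_self]
  unfold Qa
  rw [e1, e2]
  by_cases ha : a = 0
  · rw [ha, zero_mul, zero_mul]
  · congr 2
    refine Finset.sum_congr rfl fun k _ => ?_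
    by_cases hk : Mid n k
    · rw [if_pos hk, if_pos hk, h3 ha k hk]
    · rw [if_neg hk, if_neg hk]

omit [Finite F] [CharP F 2] in
theorem sv_prod (hn : Even n) (j k : Fin n) : (sv j : Fin n → F) k * (sv j : Fin n → F) (Fin.rev k) = 0 := by
  by_cases h : k = j
  · have h1 : Fin.rev k ≠ j := by
      rw [← h]
      exact rev_ne hn k
    have h2 : (sv j : Fin n → F) (Fin.rev k) = 0 := by rw [sv, Pi.single_eq_of_ne h1]
    rw [h2, mul_zero]
  · have h2 : (sv j : Fin n → F) k = 0 := by rw [sv, Pi.single_eq_of_ne h]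
    rw [h2, zero_mul]

theorem fq_U (hn : Even n) (x : EA n a) {b : GL (Fin n) F} (hb : b ∈ UU (RingEquiv.refl F) (cx x)) {j : Fin n}
    (hj : 0 ≤ cx x j) : fq a b (sv j) = 0 := by
  have hb' := (mem_UU.1 hb).2
  unfold fq
  rw [CharTwo.add_eq_zero]
  have key : ∀ k, (b : Matrix (Fin n) (Fin n) F) k j ≠ 0 → k = j ∨ cx x j < cx x k := by
    intro k hk
    by_contra h1
    rw [not_or] at h1
    rw [hb' k j h1.2, Matrix.one_apply_ne h1.1] at hk
    exact hk rfl
  refine Qa_eq ?_ (sv_prod hn j) ?_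
  · intro k
    rw [mv_sv, mv_sv]
    by_contra h1
    have h2 := key k (left_ne_zero_of_mul h1)
    have h3 := key _ (right_ne_zero_of_mul h1)
    rw [cx_rev] at h3
    have h0 := rev_ne hn k
    rcases h2 with h2 | h2
    · rcases h3 with h3 | h3
      · exact h0 (h3.trans h2.symm)
      · rw [h2] at h3
        linarith
    · rcases h3 with h3 | h3
      · have h4 : cx x j = - cx x k := by rw [← h3, cx_rev]
        linarith
      · linarith
  · intro ha k hk
    rw [mv_sv]
    have h1 : ¬ cx x j < cx x k := by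
      rw [cx_mid ha x hk]
      linarith
    rw [hb' k j h1, Matrix.one_apply, sv, Pi.single_apply]

theorem fq_L (hn : Even n) (x : EA n a) {c : GL (Fin n) F} (hc : c ∈ UL (RingEquiv.refl F) Fin.revPerm (cx x))
    {j : Fin n} (hj : cx x j ≠ 0) : fq a c (sv j) = 0 := by
  have hc' := (mem_UL.1 hc).2
  unfold fq
  rw [CharTwo.add_eq_zero]
  refine Qa_eq ?_ (sv_prod hn j) ?_
  · intro k
    rw [mv_sv, mv_sv]
    by_contra h1
    have h2 : cx x k = cx x j := by
      by_contra h3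
      exact left_ne_zero_of_mul h1 (hc' k j h3)
    have h3 : cx x (Fin.rev k) = cx x j := by
      by_contra h4
      exact right_ne_zero_of_mul h1 (hc' _ j h4)
    rw [cx_rev] at h3
    apply hj
    linarith
  · intro ha k hk
    have h1 : cx x k ≠ cx x j := by
      rw [cx_mid ha x hk]
      exact hj.symm
    rw [mv_sv, hc' k j h1, sv, Pi.single_eq_of_ne (fun h => h1 (by rw [h]))]

theorem Ug_bf {g : GL (Fin n) F} (hg : g ∈ UG (RingEquiv.refl F) Fin.revPerm) (v w : Fin n → F) :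
    bf (mv g v) (mv g w) = bf v w := by
  have h := mem_Ug.1 (show g ∈ Ug n (RingEquiv.refl F) from hg) v w
  rw [← bf_eq, ← bf_eq]
  exact h

end I04_aux

open I04_aux

theorem split_OQ (hn : Even n) (x : EA n a) {b c d : GL (Fin n) F} (hb : b ∈ UU (RingEquiv.refl F) (cx x))
    (hc : c ∈ UL (RingEquiv.refl F) Fin.revPerm (cx x)) (hd : d ∈ UU (RingEquiv.refl F) (cx (-x)))
    (h : b * c * d ∈ OQ n a) : b ∈ OQ n a ∧ c ∈ OQ n a ∧ d ∈ OQ n a := by
  have hb2 := Ug_bf (mem_UU.1 hb).1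
  have hc2 := Ug_bf (mem_UL.1 hc).1
  have hd' : d⁻¹ ∈ UU (RingEquiv.refl F) (cx (-x)) := (UU _ _).inv_mem hd
  have hd2 := Ug_bf (mem_UU.1 hd').1
  have key : ∀ w, fq a b (mv c w) + fq a c w + fq a d⁻¹ w = 0 := by
    intro w
    have h1 : fq a (b * c * d) (mv d⁻¹ w) = 0 := by
      unfold fq
      rw [mem_OQ.1 h, CharTwo.add_self_eq_zero]
    rw [fq_mul, mv_inv', fq_inv, fq_mul] at h1
    exact h1
  have hdz : ∀ j, cx x j ≤ 0 → fq a d⁻¹ (sv j) = 0 := by
    intro j hj
    refine fq_U hn (-x) hd' ?_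
    rw [cx_neg]
    linarith
  have hbO : b ∈ OQ n a := by
    refine OQ_of_fq hn hb2 fun j => ?_
    by_cases hj : 0 ≤ cx x j
    · exact fq_U hn x hb hj
    · rw [not_le] at hj
      have hc' : c⁻¹ ∈ UL (RingEquiv.refl F) Fin.revPerm (cx x) := (UL _ _ _).inv_mem hc
      have hw : ∀ k, mv c⁻¹ (sv j) k ≠ 0 → cx x k = cx x j := by
        intro k hk
        by_contra h1
        rw [mv_sv] at hk
        exact hk ((mem_UL.1 hc').2 k j h1)
      have h1 := key (mv c⁻¹ (sv j))
      rw [mv_inv', fq_zero hn a hc2 (fun k hk => fq_L hn x hc (by rw [hw k hk]; exact ne_of_lt hj)),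
        fq_zero hn a hd2 (fun k hk => hdz k (by rw [hw k hk]; exact hj.le)), add_zero, add_zero] at h1
      exact h1
  have hdO : d ∈ OQ n a := by
    have h1 : d⁻¹ ∈ OQ n a := by
      refine OQ_of_fq hn hd2 fun j => ?_
      by_cases hj : cx x j ≤ 0
      · exact hdz j hj
      · rw [not_le] at hj
        have h1 := key (sv j)
        have h2 : fq a b (mv c (sv j)) = 0 := by
          unfold fq
          rw [mem_OQ.1 hbO, CharTwo.add_self_eq_zero]
        rw [h2, fq_L hn x hc (ne_of_gt hj), zero_add, zero_add] at h1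
        exact h1
    have h2 := (OQ n a).inv_mem h1
    rwa [inv_inv] at h2
  refine ⟨hbO, ?_, hdO⟩
  have h3 : c = b⁻¹ * (b * c * d) * d⁻¹ := by group
  rw [h3]
  exact (OQ n a).mul_mem ((OQ n a).mul_mem ((OQ n a).inv_mem hbO) h) ((OQ n a).inv_mem hdO)

theorem OU_le_Om (hn : Even n) (x : EA n a) {b : GL (Fin n) F} (hb : b ∈ UU (RingEquiv.refl F) (cx x))
    (h : b ∈ OQ n a) : b ∈ Uo x := (mem_Uo' hn).2 ⟨h, (mem_UU.1 hb).2⟩

theorem split_Om (hn : Even n) (x : EA n a) {b c d : GL (Fin n) F} (hb : b ∈ UU (RingEquiv.refl F) (cx x))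
    (hc : c ∈ UL (RingEquiv.refl F) Fin.revPerm (cx x)) (hd : d ∈ UU (RingEquiv.refl F) (cx (-x)))
    (h : b * c * d ∈ Om n a) : b ∈ Uo x ∧ c ∈ Lo x ∧ d ∈ Uo (-x) := by
  obtain ⟨h1, -, h3⟩ := split_OQ hn x hb hc hd (Om_le n a h)
  have hbU := OU_le_Om hn x hb h1
  have hdU := OU_le_Om hn (-x) hd h3
  refine ⟨hbU, ?_, hdU⟩
  rw [Lo_eq hn, Subgroup.mem_inf]
  refine ⟨?_, hc⟩
  have h4 : c = b⁻¹ * (b * c * d) * d⁻¹ := by group
  rw [h4]
  exact (Om n a).mul_mem ((Om n a).mul_mem ((Om n a).inv_mem ((mem_Uo hn).1 hbU).1) h)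
    ((Om n a).inv_mem ((mem_Uo hn).1 hdU).1)

end

end OR
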