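import Pool.Agent.OR.I04
import Pool.Agent.LieP.I10
import Pool.Agent.LieP.I11
import Pool.Agent.LieP.I13

/-!
# MP_6c3636_al, OR, module I05: the properties (S3)-(S6) (helper40)

From the statements for the symplectic groups (LieP/I10, I11, I13) and the splitting in the isometry group (I04).
-/

namespace OR

noncomputable section

open Classical Matrix CF

open LieP (En UG UL Lin)

open LieP.GI (pinv pinv' UU mem_UU mem_UL)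

variable {n : ℕ} {F : Type} [Field F] [Finite F] [CharP F 2] {a : F}

namespace I05_aux

theorem Lo_UL (hn : Even n) {x : EA n a} {g : GL (Fin n) F} (h : g ∈ Lo x) :
    g ∈ Om n a ∧ g ∈ UL (RingEquiv.refl F) Fin.revPerm (cx x) := by
  rw [Lo_eq hn, Subgroup.mem_inf] at h
  exact h

theorem Lo_of (hn : Even n) {x : EA n a} {g : GL (Fin n) F} (h : g ∈ Om n a)
    (h' : g ∈ UL (RingEquiv.refl F) Fin.revPerm (cx x)) : g ∈ Lo x := by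
  rw [Lo_eq hn, Subgroup.mem_inf]
  exact ⟨h, h'⟩

theorem UU_zero (y : EA n a) : (1 : GL (Fin n) F) ∈ UU (RingEquiv.refl F) (cx (-y)) := Subgroup.one_mem _

end I05_aux

open I05_aux

theorem o_s3 (hn : Even n) : Lo (0 : EA n a) = Om n a := by
  ext g
  rw [mem_Lo hn]
  constructor
  · rintro ⟨h, -⟩
    exact h
  · intro h
    exact ⟨h, fun i j hij => absurd rfl hij⟩

theorem o_s4 (hn : Even n) : ∀ x : EA n a, ∀ l ∈ Lo x, ∀ u ∈ Uo x, l * u * l⁻¹ ∈ Uo x := by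
  intro x l hl u hu
  have hl' := Lo_UL hn hl
  refine ⟨(Om n a).mul_mem ((Om n a).mul_mem hl'.1 hu.1) ((Om n a).inv_mem hl'.1), ?_⟩
  exact LieP.GI.c_s4 (RingEquiv.refl F) (tn x) l hl'.2 u hu.2

theorem o_s4' (hn : Even n) : ∀ x : EA n a, ∀ l ∈ Lo x, ∀ v ∈ Uo (-x), l * v ∈ Uo x → l * v = 1 := by
  intro x l hl v hv h
  exact LieP.GI.c_s4' (RingEquiv.refl F) (tn x) l (Lo_UL hn hl).2 v hv.2 h.2

theorem o_s5U (hn : Even n) : ∀ x y : EA n a, ∀ l ∈ Lo x, ∀ u ∈ Uo x, l * u ∈ Uo y → l ∈ Uo y := by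
  intro x y l hl u hu h
  exact ⟨(Lo_UL hn hl).1, LieP.GI.c_s5U (RingEquiv.refl F) (tn x) (tn y) l (Lo_UL hn hl).2 u hu.2 h.2⟩

theorem o_s5L (hn : Even n) : ∀ x y : EA n a, ∀ l ∈ Lo x, ∀ u ∈ Uo x, l * u ∈ Lo y → l ∈ Lo y := by
  intro x y l hl u hu h
  exact Lo_of hn (Lo_UL hn hl).1
    (LieP.GI.c_s5L (RingEquiv.refl F) (tn x) (tn y) l (Lo_UL hn hl).2 u hu.2 (Lo_UL hn h).2)

theorem o_s5P (hn : Even n) : ∀ x y : EA n a, ∀ l ∈ Lo x, ∀ u ∈ Uo x, (∃ m ∈ Lo y, ∃ v ∈ Uo y, l * u = m * v) →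
    ∃ m ∈ Lo y, ∃ v ∈ Uo y, l = m * v := by
  rintro x y l hl u hu ⟨m, hm, v, hv, h⟩
  obtain ⟨m', hm', v', hv', h'⟩ := LieP.GI.c_s5P (RingEquiv.refl F) (tn x) (tn y) l (Lo_UL hn hl).2 u hu.2
    ⟨m, (Lo_UL hn hm).2, v, hv.2, h⟩
  have h1 := LieP.GI.c_s4 (RingEquiv.refl F) (tn y) m' hm' v' hv'
  have h2 : l = m' * v' * m'⁻¹ * m' * 1 := by rw [inv_mul_cancel_right, mul_one, h']
  have h3 : m' * v' * m'⁻¹ * m' * 1 ∈ Om n a := by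
    rw [← h2]
    exact (Lo_UL hn hl).1
  obtain ⟨h4, h5, -⟩ := split_Om hn y h1 hm' (UU_zero y) h3
  refine ⟨m', h5, v', ⟨?_, hv'⟩, h'⟩
  have h6 : v' = m'⁻¹ * l := by rw [h', inv_mul_cancel_left]
  rw [h6]
  exact (Om n a).mul_mem ((Om n a).inv_mem (Lo_UL hn h5).1) (Lo_UL hn hl).1

theorem o_s6 (hn : Even n) : ∀ x y z : EA n a, ∀ u ∈ Uo y ⊓ Lo z, ∃ b ∈ Uo y ⊓ Lo z, ∃ c ∈ Uo y ⊓ Lo z,
    ∃ d ∈ Uo y ⊓ Lo z, b ∈ Uo x ∧ c ∈ Lo x ∧ d ∈ Uo (-x) ∧ u = b * c * d := by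
  rintro x y z u ⟨hu, hu'⟩
  obtain ⟨b, hb, c, hc, d, hd, hbx, hcx, hdx, h⟩ := LieP.GI.c_s6 (RingEquiv.refl F) (tn x) (tn y) (tn z) u
    ⟨hu.2, (Lo_UL hn hu').2⟩
  have h1 : b * c * d ∈ Om n a := by
    rw [← h]
    exact hu.1
  obtain ⟨h2, h3, h4⟩ := split_Om hn x hbx hcx hdx h1
  exact ⟨b, ⟨⟨h2.1, hb.1⟩, Lo_of hn h2.1 hb.2⟩, c, ⟨⟨(Lo_UL hn h3).1, hc.1⟩, Lo_of hn (Lo_UL hn h3).1 hc.2⟩,
    d, ⟨⟨h4.1, hd.1⟩, Lo_of hn h4.1 hd.2⟩, h2, h3, h4, h⟩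

end

end OR
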