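import Pool.Agent.OR.I01

/-!
# MP_6c3636_al, OR, module I06: the properties (S7), (S8) (helper40)

`NO_supp`, `NO_supp'`: `g i j ≠ 0` implies `(acO a g x)_i = x_j`; `g⁻¹ i j ≠ 0` implies `(acO a g x)_j = x_i`.
-/

namespace OR

noncomputable section

open Classical Matrix CF

open LieP (En UG UL Lin)

open LieP.GI (pinv pinv' UU mem_UU mem_UL)

variable {n : ℕ} {F : Type} [Field F] [Finite F] [CharP F 2] {a : F}

namespace I06_aux

omit [Finite F] [CharP F 2] in
theorem conj_zero {g h A : Matrix (Fin n) (Fin n) F} {i j : Fin n}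
    (H : ∀ k l, g i k ≠ 0 → h l j ≠ 0 → A k l = 0) : (g * A * h) i j = 0 := by
  rw [Matrix.mul_apply]
  refine Finset.sum_eq_zero fun l _ => ?_
  by_cases h1 : h l j = 0
  · rw [h1, mul_zero]
  · rw [Matrix.mul_apply, Finset.sum_mul]
    refine Finset.sum_eq_zero fun k _ => ?_
    by_cases h2 : g i k = 0
    · rw [h2, zero_mul, zero_mul]
    · rw [H k l h2 h1, mul_zero, zero_mul]

end I06_aux

open I06_aux

theorem o_s7U (hn : Even n) : ∀ g ∈ NO n a, ∀ x : EA n a, ∀ u ∈ Uo x, g * u * g⁻¹ ∈ Uo (acO a g x) := by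
  intro g hg x u hu
  rw [mem_Uo hn] at hu ⊢
  refine ⟨(Om n a).mul_mem ((Om n a).mul_mem hg.1 hu.1) ((Om n a).inv_mem hg.1), fun i j hij => ?_⟩
  have h1 : ((g * u * g⁻¹ : GL (Fin n) F) : Matrix (Fin n) (Fin n) F) - 1 =
      (g : Matrix (Fin n) (Fin n) F) * ((u : Matrix (Fin n) (Fin n) F) - 1) *
        ((g⁻¹ : GL (Fin n) F) : Matrix (Fin n) (Fin n) F) := by
    have h2 : (g : Matrix (Fin n) (Fin n) F) * ((g⁻¹ : GL (Fin n) F) : Matrix (Fin n) (Fin n) F) = 1 := by
      rw [← Units.val_mul, mul_inv_cancel, Units.val_one]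
    rw [mul_sub, sub_mul, mul_one, h2, Units.val_mul, Units.val_mul]
  have h3 : ((g : Matrix (Fin n) (Fin n) F) * ((u : Matrix (Fin n) (Fin n) F) - 1) *
        ((g⁻¹ : GL (Fin n) F) : Matrix (Fin n) (Fin n) F)) i j = 0 := by
    refine conj_zero fun k l hk hl => ?_
    rw [Matrix.sub_apply, hu.2 k l, sub_self]
    intro h4
    apply hij
    rw [NO_supp hn hg hk x, NO_supp' hn hg hl x]
    exact h4
  rw [← h1, Matrix.sub_apply, sub_eq_zero] at h3
  exact h3

theorem o_s7L (hn : Even n) : ∀ g ∈ NO n a, ∀ x : EA n a, ∀ u ∈ Lo x, g * u * g⁻¹ ∈ Lo (acO a g x) := by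
  intro g hg x u hu
  rw [mem_Lo hn] at hu ⊢
  refine ⟨(Om n a).mul_mem ((Om n a).mul_mem hg.1 hu.1) ((Om n a).inv_mem hg.1), fun i j hij => ?_⟩
  rw [Units.val_mul, Units.val_mul]
  refine conj_zero fun k l hk hl => ?_
  refine hu.2 k l fun h4 => hij ?_
  rw [NO_supp hn hg hk x, NO_supp' hn hg hl x]
  exact h4

theorem o_s7R (hn : Even n) : ∀ g ∈ NO n a, ∀ α ∈ Ro n a, acO a g α ∈ Ro n a := by
  intro g hg
  rw [forall_Ro]
  intro i j hij hij'
  rw [acO_rto hn hg]
  refine rto_mem (fun h => hij ((pmo a g).injective h)) fun h => hij' ?_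
  rw [← pmo_rev hn hg] at h
  exact (pmo a g).injective h

theorem o_s8 (hn : Even n) : ∀ g ∈ NO n a, ∀ x : EA n a,
    (∃ v ∈ Uo (-x), ∃ l ∈ Lo x, ∃ u ∈ Uo x, g = v * l * u) → acO a g x = x := by
  rintro g hg x ⟨v, hv, l, hl, u, hu, h⟩
  have hv' : v⁻¹ ∈ Uo (-x) := (Uo (-x)).inv_mem hv
  rw [mem_Uo hn] at hv' hu
  rw [mem_Lo hn] at hl
  -- the product `l * u`
  have hp : ∀ k j, cx x k < cx x j → ((l * u : GL (Fin n) F) : Matrix (Fin n) (Fin n) F) k j = 0 := by
    intro k j hkj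
    rw [Units.val_mul, Matrix.mul_apply]
    refine Finset.sum_eq_zero fun m _ => ?_
    by_cases h1 : cx x k = cx x m
    · have h2 : ¬ cx x j < cx x m := by
        rw [← h1]
        exact not_lt.2 hkj.le
      have h3 : m ≠ j := by
        rintro rfl
        rw [h1] at hkj
        exact lt_irrefl _ hkj
      rw [hu.2 m j h2, Matrix.one_apply_ne h3, mul_zero]
    · rw [hl.2 k m h1, zero_mul]
  have hg2 : v⁻¹ * g = l * u := by rw [h]; group
  have hle : ∀ j, cx x j ≤ cx x (pmo a g j) := by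
    intro j
    by_cases hj : a = 0 ∨ ¬ Mid n j
    · by_contra h1
      rw [not_le] at h1
      have h2 := hp _ _ h1
      rw [← hg2, Units.val_mul, Matrix.mul_apply, Finset.sum_eq_single (pmo a g j)] at h2
      · rw [hv'.2 _ _ (lt_irrefl _), Matrix.one_apply_eq, one_mul] at h2
        exact (pmo_spec hg).ne hj h2
      · intro k _ hk
        rw [(pmo_spec hg).1 k j hk, mul_zero]
        rintro ⟨h3, -, h4⟩
        rcases hj with h5 | h5
        · exact h3 h5
        · exact h5 h4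
      · intro h3
        exact absurd (Finset.mem_univ _) h3
    · rw [not_or, not_not] at hj
      rw [pmo_mid hg hj.1 hj.2]
  have hsum : (∑ j, cx x j) = ∑ j, cx x (pmo a g j) := (Equiv.sum_comp (pmo a g) (cx x)).symm
  have heq := (Finset.sum_eq_sum_iff_of_le (fun j _ => hle j)).1 hsum
  refine cx_ext fun i => ?_
  rw [cx_acO' hn hg, heq _ (Finset.mem_univ _), pinv']

theorem o_s8' (hn : Even n) : ∀ g ∈ NO n a, ∀ x : EA n a, acO a g x = x → g ∈ Lo x := by
  intro g hg x h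
  rw [mem_Lo hn]
  refine ⟨hg.1, fun i j hij => ?_⟩
  by_contra h1
  have h2 := NO_supp hn hg h1 x
  rw [h] at h2
  exact hij h2

end

end OR
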