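import Pool.Agent.OR.I01
import Pool.Agent.LieP.I16

/-!
# MP_6c3636_al, OR, module I07: root elements, (S10), (S11) (helper40)

`rt_entry`: the entries of `eo a (sv i) (s • sv (rev j))`, which is in `Uo x` if `x_j < x_i` and in `Lo x` if `x_i = x_j`.
-/

namespace OR

noncomputable section

open Classical Matrix CF

open LieP (En UG UL Lin)

open LieP.GI (pinv pinv' UU mem_UU mem_UL)

variable {n : ℕ} {F : Type} [Field F] [Finite F] [CharP F 2] {a : F}

namespace I07_aux

omit [Finite F] [CharP F 2] in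
theorem sv_if (i k : Fin n) : (sv i : Fin n → F) k = if k = i then 1 else 0 := by
  rw [sv, Pi.single_apply]

omit [Finite F] [CharP F 2] in
theorem perp {i j : Fin n} (s : F) (hij : i ≠ j) : bf (sv i : Fin n → F) (s • sv (Fin.rev j)) = 0 := by
  rw [bf_smul_right, bf_sv_left, sv_if, if_neg (fun h => hij (Fin.rev_injective h)), mul_zero]

omit [Finite F] in
theorem sing (hn : Even n) {i : Fin n} (hi : a = 0 ∨ ¬ Mid n i) : Qa n a (sv i) = 0 := by
  rcases hi with h | h
  · rw [h]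
    exact Qa_sv_zero hn i
  · exact Qa_sv a hn h

end I07_aux

open I07_aux

theorem rt_entry (hn : Even n) {i j : Fin n} (s : F) (hij : i ≠ j) (p q : Fin n) :
    (eo a (sv i) (s • sv (Fin.rev j)) : Matrix (Fin n) (Fin n) F) p q =
      (1 : Matrix (Fin n) (Fin n) F) p q + (if p = i ∧ q = j then s else 0) +
        (if p = Fin.rev j ∧ q = Fin.rev i then s else 0) +
        (if p = i ∧ q = Fin.rev i then Qa n a (s • sv (Fin.rev j)) else 0) := by
  have h1 : bf (sv i : Fin n → F) (sv q) = if q = Fin.rev i then 1 else 0 := by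
    rw [bf_sv_left, sv_if]
    by_cases h : q = Fin.rev i
    · rw [if_pos h.symm, if_pos h]
    · rw [if_neg (fun h' => h h'.symm), if_neg h]
  have h2 : bf (s • sv (Fin.rev j) : Fin n → F) (sv q) = s * if q = j then 1 else 0 := by
    rw [bf_smul_left, bf_sv_left, Fin.rev_rev, sv_if]
    by_cases h : q = j
    · rw [if_pos h.symm, if_pos h]
    · rw [if_neg (fun h' => h h'.symm), if_neg h]
  have hand : ∀ (P Q : Prop) [Decidable P] [Decidable Q] (c : F), (if P ∧ Q then c else 0) =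
      c * ((if P then (1 : F) else 0) * (if Q then (1 : F) else 0)) := by
    intro P Q _ _ c
    by_cases hP : P
    · by_cases hQ : Q
      · rw [if_pos ⟨hP, hQ⟩, if_pos hP, if_pos hQ]
        ring
      · rw [if_neg (fun h => hQ h.2), if_neg hQ]
        ring
    · rw [if_neg (fun h => hP h.1), if_neg hP]
      ring
  rw [← mv_sv, mv_eo hn a (perp s hij), h1, h2, hand, hand, hand]
  simp only [Pi.add_apply, Pi.smul_apply, smul_eq_mul, sv_if, Matrix.one_apply]
  ring

/-- the value of the quadratic form at the standard vectors -/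
theorem Q_rev (hn : Even n) {j : Fin n} (hj : a = 0 ∨ ¬ Mid n j) (s : F) : Qa n a (s • sv (Fin.rev j)) = 0 := by
  rw [Qa_smul, sing hn, mul_zero]
  rcases hj with h | h
  · exact Or.inl h
  · exact Or.inr (fun h1 => h ((Mid_rev hn).1 h1))

theorem rt_Om (hn : Even n) {i j : Fin n} (s : F) (hi : a = 0 ∨ ¬ Mid n i) (hij : i ≠ j) :
    eo a (sv i) (s • sv (Fin.rev j)) ∈ Om n a := eo_mem_Om hn (sing hn hi) (perp s hij)

theorem rt_U (hn : Even n) {i j : Fin n} (s : F) (hi : a = 0 ∨ ¬ Mid n i) (hij : j ≠ Fin.rev i) {x : EA n a}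
    (h : cx x j < cx x i) : eo a (sv i) (s • sv (Fin.rev j)) ∈ Uo x := by
  have hne : i ≠ j := by
    rintro rfl
    exact lt_irrefl _ h
  rw [mem_Uo hn]
  refine ⟨rt_Om hn s hi hne, fun p q hpq => ?_⟩
  have h1 : ¬ (p = i ∧ q = j) := by
    rintro ⟨rfl, rfl⟩
    exact hpq h
  have h2 : ¬ (p = Fin.rev j ∧ q = Fin.rev i) := by
    rintro ⟨rfl, rfl⟩
    apply hpq
    rw [cx_rev, cx_rev]
    linarith
  rw [rt_entry hn s hne, if_neg h1, if_neg h2, add_zero, add_zero]
  by_cases h3 : p = i ∧ q = Fin.rev i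
  · rw [if_pos h3]
    by_cases hj : a = 0 ∨ ¬ Mid n j
    · rw [Q_rev hn hj, add_zero]
    · exfalso
      rw [not_or, not_not] at hj
      apply hpq
      rw [h3.1, h3.2, cx_rev]
      rw [cx_mid hj.1 x hj.2] at h
      linarith
  · rw [if_neg h3, add_zero]

theorem rt_L (hn : Even n) {i j : Fin n} (s : F) (hi : a = 0 ∨ ¬ Mid n i) (hij : i ≠ j) (hij' : j ≠ Fin.rev i)
    {x : EA n a} (h : cx x i = cx x j) : eo a (sv i) (s • sv (Fin.rev j)) ∈ Lo x := by
  rw [mem_Lo hn]
  refine ⟨rt_Om hn s hi hij, fun p q hpq => ?_⟩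
  have h0 : p ≠ q := by
    rintro rfl
    exact hpq rfl
  have h1 : ¬ (p = i ∧ q = j) := by
    rintro ⟨rfl, rfl⟩
    exact hpq h
  have h2 : ¬ (p = Fin.rev j ∧ q = Fin.rev i) := by
    rintro ⟨rfl, rfl⟩
    apply hpq
    rw [cx_rev, cx_rev, h]
  rw [rt_entry hn s hij, if_neg h1, if_neg h2, add_zero, add_zero, Matrix.one_apply_ne h0, zero_add]
  by_cases h3 : p = i ∧ q = Fin.rev i
  · rw [if_pos h3]
    by_cases hj : a = 0 ∨ ¬ Mid n j
    · exact Q_rev hn hj s
    · exfalso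
      rw [not_or, not_not] at hj
      apply hpq
      rw [h3.1, h3.2, cx_rev, h, cx_mid hj.1 x hj.2, neg_zero]
  · rw [if_neg h3]

theorem o_s10 (hn : Even n) : ∀ α ∈ Ro n a, ∃ g : GL (Fin n) F, g ≠ 1 ∧
    ∀ x : EA n a, (0 < inner ℝ α x → g ∈ Uo x) ∧ (inner ℝ α x = 0 → g ∈ Lo x) := by
  have key : ∀ i j : Fin n, i ≠ j → j ≠ Fin.rev i → (a = 0 ∨ ¬ Mid n i) → ∃ g : GL (Fin n) F, g ≠ 1 ∧
      ∀ x : EA n a, (0 < inner ℝ (rto a i j) x → g ∈ Uo x) ∧ (inner ℝ (rto a i j) x = 0 → g ∈ Lo x) := by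
    intro i j hij hij' hi
    refine ⟨eo a (sv i) ((1 : F) • sv (Fin.rev j)), ?_, fun x => ⟨fun h => ?_, fun h => ?_⟩⟩
    · intro h1
      have h2 := rt_entry (a := a) hn (1 : F) hij i j
      rw [h1, Units.val_one, Matrix.one_apply_ne hij, if_pos ⟨rfl, rfl⟩, if_neg, if_neg, zero_add, add_zero,
        add_zero] at h2
      · exact zero_ne_one h2
      · rintro ⟨-, h3⟩
        exact hij' h3
      · rintro ⟨h3, -⟩
        exact hij' (by rw [h3, Fin.rev_rev])
    · exact rt_U hn 1 hi hij' (pos_rto.1 h)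
    · exact rt_L hn 1 hi hij hij' (zero_rto.1 h)
  rw [forall_Ro]
  intro i j hij hij'
  by_cases hi : a = 0 ∨ ¬ Mid n i
  · exact key i j hij hij' hi
  · rw [not_or, not_not] at hi
    have hj : ¬ Mid n (Fin.rev j) := by
      intro h
      rcases mid_pair hn hi.2 ((Mid_rev hn).1 h) with h1 | h1
      · exact hij h1.symm
      · exact hij' h1
    rw [← rto_rev]
    refine key (Fin.rev j) (Fin.rev i) (fun h => hij (Fin.rev_injective h).symm) ?_ (Or.inr hj)
    intro h
    rw [Fin.rev_rev] at h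
    exact hij' h.symm

theorem o_s11 (hn : Even n) : ∀ x : EA n a, ∀ u ∈ Uo x, ∃ k : ℕ, u ^ (2 ^ k) = 1 := by
  intro x u hu
  exact LieP.GI.c_s11 (RingEquiv.refl F) (tn x) u hu.2

end

end OR
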