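import Pool.Agent.OR.I03
import Pool.Agent.OR.I07

/-!
# MP_6c3636_al, OR, module I08: the tori, (S11) (stub of helper40)

(s11'): let `z` be generic. Every `t ∈ Lo z` satisfies `IsT t` (E02): if `a ≠ 0`: the coordinates of `z` outside of the middle are pairwise different and nonzero (roots `rto a i j`, `rto a i (rev j)`, and `rto a i k` with `k` in the middle). If `a = 0`: let `i ≠ j`, `t i j ≠ 0`, so `z_i = z_j`, so `j = rev i`, `z_i = 0`, and by genericity all other coordinates are nonzero; but then `t i (rev i) = 0` by `plane` (I03) for the function `cx z`. By `T_odd` (E07) `t ^ k = 1` with `k` odd for all `t ∈ Lo z`; so `Nat.card (Lo z)` is odd (otherwise there is an element of order two: `exists_prime_orderOf_dvd_card'`).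
`Lo_zo_le`: `o_s2` for `x = y = zo`, `gen_zo`.
-/

namespace OR

noncomputable section

open Classical Matrix CF

open LieP (En UG UL Lin)

open LieP.GI (pinv pinv' UU mem_UU mem_UL)

variable {n : ℕ} {F : Type} [Field F] [Finite F] [CharP F 2] {a : F}

theorem Lo_gen (hn : Even n) {z : EA n a} (hz : ∀ α ∈ Ro n a, inner ℝ α z ≠ 0) {t : GL (Fin n) F} (ht : t ∈ Lo z) :
    IsT t := by
  rw [forall_Ro] at hz
  rw [mem_Lo hn] at ht
  have hne : ∀ i j : Fin n, i ≠ j → j ≠ Fin.rev i → cx z i ≠ cx z j := fun i j h1 h2 h3 =>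
    hz i j h1 h2 (zero_rto.2 h3)
  intro i j hij hm
  by_cases hj : j = Fin.rev i
  · subst hj
    have hmi : ¬ Mid n i := fun h => hm ⟨h, (Mid_rev hn).2 h⟩
    by_cases h0 : cx z i = 0
    · have hno : ∀ k, cx z k = 0 → k = i ∨ k = Fin.rev i := by
        intro k hk
        by_contra h1
        rw [not_or] at h1
        exact hne i k (fun h => h1.1 h.symm) h1.2 (h0.trans hk.symm)
      by_cases ha : a = 0
      · subst ha
        refine plane hn (x := cx z) (fun k => cx_rev z k) h0 hno ht.1 ?_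
        intro k l hkl
        exact ht.2 k l hkl
      · exfalso
        have hn0 : 0 < n := lt_of_le_of_lt (Nat.zero_le _) i.2
        have hlt : n / 2 < n := Nat.div_lt_self hn0 (by norm_num)
        have hmk : Mid n (⟨n / 2, hlt⟩ : Fin n) := Or.inr rfl
        rcases hno _ (cx_mid ha z hmk) with h1 | h1
        · exact hmi (h1 ▸ hmk)
        · exact hmi ((Mid_rev hn).1 (h1 ▸ hmk))
    · refine ht.2 _ _ fun h1 => h0 ?_
      rw [cx_rev] at h1
      linarith
  · exact ht.2 i j (hne i j hij hj)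

theorem o_s11' (hn : Even n) : ∀ z : EA n a, (∀ α ∈ Ro n a, inner ℝ α z ≠ 0) → Odd (Nat.card (Lo z)) := by
  intro z hz
  by_contra hodd
  rw [Nat.not_odd_iff_even] at hodd
  have : Fact (Nat.Prime 2) := ⟨Nat.prime_two⟩
  obtain ⟨t, ht⟩ := exists_prime_orderOf_dvd_card' (G := Lo z) 2 hodd.two_dvd
  obtain ⟨k, hk, hT⟩ := T_odd (n := n) (F := F) hn a
  have h1 : (t : GL (Fin n) F) ^ k = 1 := hT t ((mem_Lo hn).1 t.2).1 (Lo_gen hn hz t.2)
  have h2 : t ^ k = 1 := Subtype.ext (by
    rw [Subgroup.coe_pow, h1]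
    rfl)
  have h3 : 2 ∣ k := by
    rw [← ht]
    exact orderOf_dvd_of_pow_eq_one h2
  exact (Nat.not_even_iff_odd.2 hk) (even_iff_two_dvd.2 h3)

theorem Lo_zo_le (hn : Even n) (x : EA n a) : Lo (zo n a) ≤ Lo x := by
  intro g hg
  exact o_s2 hn (zo n a) (zo n a) x (fun α hα h _ => absurd h (gen_zo hn α hα)) g hg hg

end

end OR
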