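import Pool.Agent.OR.I06
import Pool.Agent.OR.I02
import Pool.Agent.LieP.I17

/-!
# MP_6c3636_al, OR, module I09: the property (S12) (stub of helper40)

`exists_NO`: every `π` which commutes with `rev` and (if `a ≠ 0`) fixes the middle indices has the element `pmt F π ∈ OQ n a` (I02), `IsN_pmt`. If it is in `Om n a` it is in `NO n a` (`mem_NO`). Otherwise: if `a = 0` let `i` be a middle index and take `swp F i * pmt F π = pmt F (swap i (rev i) * π)` (`swp_mul_mem`), with the permutation `swap * π`. If `a ≠ 0` the same element has the permutation `π` (it is block monomial: `IsN a (swp F i * pmt F π) π` by `IsN.mul` with `IsN a (swp F i) 1`). So in both cases there is `g ∈ NO n a` with `pmo a g = π` or (`a = 0` and `pmo a g = swap i (rev i) * π`); `n = 0`: trivial.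
`to_zo`: for every generic `z` there is `m ∈ NO n a` with [`0 < <α, acO m z>` iff `0 < <α, zo>`] for all `α ∈ Ro`. Let `z` be generic; the absolute values of the coordinates `z_i` of two indices `i`, `j ≠ i, rev i` are different. If `a = 0` at most one pair `{i, rev i}` has `z_i = 0`; replace `z` by `z'` with `z'_i = ε`, `z'_(rev i) = -ε` with `ε > 0` smaller than all the other absolute values; this does not change the signs of the roots. Then `z'` is injective (outside of the middle if `a ≠ 0`, where it is zero), and there is a permutation `π` commuting with `rev` such that `z'_(π⁻¹ k)` is strictly decreasing in `k` (outside of the middle if `a ≠ 0`, `π` = identity there): as `I17_sort` in LieP/I17 (`Tuple.sort` of `- z'`); for `a ≠ 0` use the function `z'` with small values `δ`, `-δ` at the two middle indices. For `acO m z` with `pmo a m = π` the signs of all roots are those of `zo` (`zo_lt`, `pos_rto`, `cx_acO'`). If `pmo a m = swap i (rev i) * π`, `a = 0`: the coordinates of `acO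 m z'` are those of the sorted point with the two middle ones exchanged, and for a root `rto a p q`, `q ≠ p, rev p`, at most one of `p`, `q` is a middle index, `|z'_(m-1)|` is smaller than the other absolute values, so the sign is the same.
`o_s12`: `m' ⁻¹ * m` for `to_zo` of `z` and of `z'` (`acO_mul`, `o_s7R`: the roots are permuted by `acO m'`, `acO` is an isometry).
-/

namespace OR

noncomputable section

open Classical Matrix CF

open LieP (En UG UL Lin)

open LieP.GI (pinv pinv' UU mem_UU mem_UL)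

variable {n : ℕ} {F : Type} [Field F] [Finite F] [CharP F 2] {a : F}

namespace I09_aux

open LieP.GI (co)

theorem exists_eps (z w : Fin n → ℝ) :
    ∃ e : ℝ, 0 < e ∧ ∀ i j, z i < z j → z i + e * w i < z j + e * w j := by
  have h1 : ∀ᶠ e in nhdsWithin (0 : ℝ) (Set.Ioi 0), ∀ i j, z i < z j → z i + e * w i < z j + e * w j := by
    rw [Filter.eventually_all]
    intro i
    rw [Filter.eventually_all]
    intro j
    by_cases h : z i < z j
    · have t : ∀ k, Filter.Tendsto (fun e : ℝ => z k + e * w k) (nhdsWithin (0 : ℝ) (Set.Ioi 0)) (nhds (z k)) := by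
        intro k
        have h2 : Filter.Tendsto (fun e : ℝ => z k + e * w k) (nhds 0) (nhds (z k + 0 * w k)) := by
          have h3 : Continuous (fun e : ℝ => z k + e * w k) := by fun_prop
          exact h3.tendsto 0
        rw [zero_mul, add_zero] at h2
        exact h2.mono_left nhdsWithin_le_nhds
      exact ((t i).eventually_lt (t j) h).mono fun e he _ => he
    · exact Filter.Eventually.of_forall fun e h' => absurd h' h
  obtain ⟨e, he, he'⟩ := (h1.and self_mem_nhdsWithin).exists
  exact ⟨e, he', he⟩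

theorem z0_mid (hn : Even n) {c : Fin n} (hc : (c : ℕ) + 1 = n / 2) : co (LieP.GI.z0 n) c = 1 := by
  show (n : ℝ) - 1 - 2 * ((c : ℕ) : ℝ) = 1
  obtain ⟨m, hm⟩ := hn
  have h1 : n = 2 * (c : ℕ) + 2 := by omega
  have h2 : (n : ℝ) = 2 * ((c : ℕ) : ℝ) + 2 := by exact_mod_cast h1
  rw [h2]
  ring

/-- the sorting permutation of a generic point -/
theorem sorted (hn : Even n) {z : EA n a} (hz : ∀ α ∈ Ro n a, inner ℝ α z ≠ 0) :
    ∃ s : Equiv.Perm (Fin n), (∀ i, s (Fin.rev i) = Fin.rev (s i)) ∧ (a ≠ 0 → ∀ i, Mid n i → s i = i) ∧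
      ∀ i j, cx z (s j) ≠ cx z (s i) → (cx z (s j) < cx z (s i) ↔ i < j) := by
  obtain ⟨e, he, hlt⟩ := exists_eps (cx z) (co (LieP.GI.z0 n))
  have hy : ∀ i, co (-(tn z + e • LieP.GI.z0 n)) i = -(cx z i + e * co (LieP.GI.z0 n) i) := fun i => rfl
  have hinj : Function.Injective (co (-(tn z + e • LieP.GI.z0 n))) := by
    intro i j hij
    rw [hy, hy, neg_inj] at hij
    by_contra hne
    rcases lt_trichotomy (cx z i) (cx z j) with h1 | h1 | h1
    · exact absurd hij (ne_of_lt (hlt i j h1))
    · rw [h1] at hij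
      have h2 : co (LieP.GI.z0 n) i = co (LieP.GI.z0 n) j := mul_left_cancel₀ he.ne' (add_left_cancel hij)
      rcases lt_or_gt_of_ne hne with h3 | h3
      · exact absurd h2 (ne_of_gt (LieP.GI.z0_lt.2 h3))
      · exact absurd h2 (ne_of_lt (LieP.GI.z0_lt.2 h3))
    · exact absurd hij (ne_of_gt (hlt j i h1))
  obtain ⟨h1, h2⟩ := LieP.GI.I17_sort hinj
  let s : Equiv.Perm (Fin n) := Tuple.sort (co (-(tn z + e • LieP.GI.z0 n)))
  have hs : ∀ i j, cx z (s j) + e * co (LieP.GI.z0 n) (s j) < cx z (s i) + e * co (LieP.GI.z0 n) (s i) ↔ i < j := by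
    intro i j
    have h3 : (co (-(tn z + e • LieP.GI.z0 n)) ∘ s) i < (co (-(tn z + e • LieP.GI.z0 n)) ∘ s) j ↔ i < j :=
      h1.lt_iff_lt
    rw [← h3]
    show _ ↔ co (-(tn z + e • LieP.GI.z0 n)) (s i) < co (-(tn z + e • LieP.GI.z0 n)) (s j)
    rw [hy, hy, neg_lt_neg_iff]
  have hrev : ∀ i, s (Fin.rev i) = Fin.rev (s i) := h2
  refine ⟨s, hrev, ?_, ?_⟩
  · intro ha i hi
    -- the first middle index
    have hn0 : 2 ≤ n := by
      have h3 := i.2
      unfold Mid at hi
      obtain ⟨m, hm⟩ := hn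
      omega
    let c : Fin n := ⟨n / 2 - 1, by omega⟩
    have hc1 : (c : ℕ) + 1 = n / 2 := by
      show n / 2 - 1 + 1 = n / 2
      omega
    have hcm : Mid n c := Or.inl hc1
    have hcm' : Mid n (Fin.rev c) := (Mid_rev hn).2 hcm
    have w1 : co (LieP.GI.z0 n) c = 1 := z0_mid hn hc1
    have w2 : co (LieP.GI.z0 n) (Fin.rev c) = -1 := by rw [LieP.GI.co_rev, w1]
    have hgap : ∀ k, cx z k + e * co (LieP.GI.z0 n) k ≤ -e ∨ e ≤ cx z k + e * co (LieP.GI.z0 n) k := by
      intro k
      by_cases hk : Mid n k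
      · rcases mid_pair hn hcm hk with h3 | h3
        · right
          rw [h3, w1, cx_mid ha z hcm]
          linarith
        · left
          rw [h3, w2, cx_mid ha z hcm']
          linarith
      · have hne : k ≠ c := by
          rintro rfl
          exact hk hcm
        have hne' : c ≠ Fin.rev k := by
          intro h3
          exact hk ((Mid_rev hn).1 (by rw [← h3]; exact hcm))
        have h3 := hz _ (rto_mem hne hne')
        rw [inner_rto, cx_mid ha z hcm, sub_zero] at h3
        rcases lt_or_gt_of_ne h3 with h4 | h4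
        · left
          have h5 := hlt k (Fin.rev c) (by rw [cx_mid ha z hcm']; exact h4)
          rw [w2, cx_mid ha z hcm'] at h5
          linarith
        · right
          have h5 := hlt c k (by rw [cx_mid ha z hcm]; exact h4)
          rw [w1, cx_mid ha z hcm] at h5
          linarith
    obtain ⟨k, hk⟩ := s.surjective c
    have hk' : s (Fin.rev k) = Fin.rev c := by rw [hrev, hk]
    have v1 : cx z (s k) + e * co (LieP.GI.z0 n) (s k) = e := by
      rw [hk, w1, cx_mid ha z hcm]
      ring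
    have v2 : cx z (s (Fin.rev k)) + e * co (LieP.GI.z0 n) (s (Fin.rev k)) = -e := by
      rw [hk', w2, cx_mid ha z hcm']
      ring
    have h3 : k < Fin.rev k := by
      rw [← hs, v1, v2]
      linarith
    have hkc : k = c := by
      apply Fin.ext
      have h4 := Fin.val_rev k
      have h5 := k.2
      rw [Fin.lt_def] at h3
      have h6 : ¬ (k : ℕ) + 1 < ((Fin.rev k : Fin n) : ℕ) := by
        intro h7
        have h8 := (Fin.rev k).2
        let l : Fin n := ⟨(k : ℕ) + 1, by omega⟩
        have h9 : k < l := by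
          rw [Fin.lt_def]
          exact Nat.lt_succ_self _
        have h10 : l < Fin.rev k := by
          rw [Fin.lt_def]
          exact h7
        rw [← hs, v1] at h9
        rw [← hs, v2] at h10
        rcases hgap (s l) with h11 | h11
        · linarith
        · linarith
      obtain ⟨m, hm⟩ := hn
      omega
    rw [hkc] at hk
    rcases mid_pair hn hcm hi with h4 | h4
    · rw [h4, hk]
    · rw [h4, hrev, hk]
  · intro i j hne
    constructor
    · intro h3
      exact (hs i j).1 (hlt _ _ h3)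
    · intro h3
      rcases lt_or_gt_of_ne hne with h4 | h4
      · exact h4
      · exact absurd ((hs i j).2 h3) (not_lt.2 (hlt _ _ h4).le)

theorem swap_lt (hn : Even n) {c p q : Fin n} (hc : Mid n c) (h : p ≠ q) (h' : q ≠ Fin.rev p) :
    Equiv.swap c (Fin.rev c) p < Equiv.swap c (Fin.rev c) q ↔ p < q := by
  have hpq : ¬ (Mid n p ∧ Mid n q) := by
    intro h3
    rcases mid_pair hn h3.1 h3.2 with h4 | h4
    · exact h h4.symm
    · exact h' h4
  have key : ∀ k : Fin n, (¬ Mid n k ∧ Equiv.swap c (Fin.rev c) k = k) ∨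
      (Mid n k ∧ Mid n (Equiv.swap c (Fin.rev c) k)) := by
    intro k
    by_cases hk : Mid n k
    · exact Or.inr ⟨hk, (swap_mid hn c k).2 hk⟩
    · refine Or.inl ⟨hk, Equiv.swap_apply_of_ne_of_ne ?_ ?_⟩
      · rintro rfl
        exact hk hc
      · rintro rfl
        exact hk ((Mid_rev hn).2 hc)
  have h0 : ∀ k l : Fin n, ¬ Mid n k → Mid n l → ((k < l ↔ (k : ℕ) + 1 < n / 2) ∧ (l < k ↔ n / 2 < (k : ℕ))) := by
    intro k l hk hl
    unfold Mid at hk hl
    rw [Fin.lt_def, Fin.lt_def]
    omega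
  rcases key p with ⟨p1, p2⟩ | ⟨p1, p2⟩
  · rcases key q with ⟨q1, q2⟩ | ⟨q1, q2⟩
    · rw [p2, q2]
    · rw [p2, (h0 p _ p1 q2).1, (h0 p q p1 q1).1]
  · rcases key q with ⟨q1, q2⟩ | ⟨q1, q2⟩
    · rw [q2, (h0 q _ q1 p2).2, (h0 q p q1 p1).2]
    · exact absurd ⟨p1, q1⟩ hpq

end I09_aux

theorem exists_NO (hn : Even n) (π : Equiv.Perm (Fin n)) (h : ∀ i, π (Fin.rev i) = Fin.rev (π i))
    (hm : a ≠ 0 → ∀ i, Mid n i → π i = i) :
    ∃ g ∈ NO n a, pmo a g = π ∨ (a = 0 ∧ ∃ i : Fin n, Mid n i ∧ pmo a g = Equiv.swap i (Fin.rev i) * π) := by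
  have hm' : a ≠ 0 → ∀ i, Mid n (π i) ↔ Mid n i := by
    intro ha i
    constructor
    · intro h1
      have h2 := hm ha _ h1
      rw [π.injective h2] at h1
      exact h1
    · intro h1
      rw [hm ha i h1]
      exact h1
  have hQ : pmt F π ∈ OQ n a := pmt_OQ hn a h hm'
  by_cases hO : pmt F π ∈ Om n a
  · exact ⟨pmt F π, mem_NO.2 ⟨hO, π, IsN_pmt hm⟩, Or.inl (pmo_eq (IsN_pmt hm))⟩
  · by_cases hn0 : n = 0
    · exfalso
      subst hn0
      have h1 : pmt F π = 1 := by
        refine mv_ext fun j => ?_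
        exact j.elim0
      rw [h1] at hO
      exact hO (Subgroup.one_mem _)
    · let c : Fin n := ⟨n / 2, by omega⟩
      have hc : Mid n c := Or.inr rfl
      have hO' := swp_mul_mem hn hQ hO c
      by_cases ha : a = 0
      · have h1 : IsN a (swp F c * pmt F π) (Equiv.swap c (Fin.rev c) * π) := by
          rw [swp, ← pmt_mul]
          exact IsN_pmt (fun h2 => absurd ha h2)
        exact ⟨swp F c * pmt F π, mem_NO.2 ⟨hO', _, h1⟩, Or.inr ⟨ha, c, hc, pmo_eq h1⟩⟩
      · have h0 : IsN a (swp F c) 1 := by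
          refine ⟨?_, fun _ _ _ => rfl⟩
          intro i j hij hmid
          have hij' : i ≠ j := hij
          rw [swp, pmt_apply, if_neg]
          intro h2
          have h3 : Mid n j := by
            by_contra h4
            rw [Equiv.swap_apply_of_ne_of_ne] at h2
            · exact hij' h2
            · rintro rfl
              exact h4 hc
            · rintro rfl
              exact h4 ((Mid_rev hn).2 hc)
          exact hmid ⟨ha, by rw [h2]; exact (swap_mid hn c j).2 h3, h3⟩
        have h1 : IsN a (swp F c * pmt F π) π := by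
          have h2 := h0.mul (IsN_pmt (F := F) hm)
          rw [one_mul] at h2
          exact h2
        exact ⟨swp F c * pmt F π, mem_NO.2 ⟨hO', _, h1⟩, Or.inl (pmo_eq h1)⟩

theorem to_zo (hn : Even n) {z : EA n a} (hz : ∀ α ∈ Ro n a, inner ℝ α z ≠ 0) :
    ∃ m ∈ NO n a, ∀ α ∈ Ro n a, (0 < inner ℝ α (acO a m z) ↔ 0 < inner ℝ α (zo n a)) := by
  obtain ⟨s, hs1, hs2, hs3⟩ := I09_aux.sorted hn hz
  have hπ1 : ∀ i, s⁻¹ (Fin.rev i) = Fin.rev (s⁻¹ i) := by
    intro i
    apply s.injective
    rw [hs1, pinv', pinv']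
  have hπ2 : a ≠ 0 → ∀ i, Mid n i → s⁻¹ i = i := by
    intro ha i hi
    apply s.injective
    rw [pinv', hs2 ha i hi]
  have hroot : ∀ p q : Fin n, p ≠ q → q ≠ Fin.rev p → (cx z (s q) < cx z (s p) ↔ p < q) := by
    intro p q hpq hpq'
    refine hs3 p q fun h1 => ?_
    refine hz _ (rto_mem (i := s p) (j := s q) (fun h2 => hpq (s.injective h2)) (fun h2 => ?_)) ?_
    · rw [← hs1] at h2
      exact hpq' (s.injective h2)
    · rw [zero_rto]
      exact h1.symm
  have hzo : ∀ p q : Fin n, p ≠ q → q ≠ Fin.rev p → (cx (zo n a) q < cx (zo n a) p ↔ p < q) := by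
    intro p q hpq hpq'
    refine zo_lt hn fun h3 => ?_
    rcases mid_pair hn h3.1 h3.2 with h4 | h4
    · exact hpq h4.symm
    · exact hpq' h4
  obtain ⟨g, hg, hg'⟩ := exists_NO hn s⁻¹ hπ1 hπ2
  refine ⟨g, hg, forall_Ro.2 fun p q hpq hpq' => ?_⟩
  rw [pos_rto, pos_rto, cx_acO' hn hg, cx_acO' hn hg, hzo p q hpq hpq']
  rcases hg' with hg' | ⟨_, c, hc, hg'⟩
  · rw [hg', inv_inv]
    exact hroot p q hpq hpq'
  · rw [hg', _root_.mul_inv_rev, inv_inv, Equiv.swap_inv]
    show cx z (s (Equiv.swap c (Fin.rev c) q)) < cx z (s (Equiv.swap c (Fin.rev c) p)) ↔ p < q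
    rw [hroot _ _ (fun h1 => hpq ((Equiv.swap c (Fin.rev c)).injective h1)) (fun h1 => hpq' ?_)]
    · exact I09_aux.swap_lt hn hc hpq hpq'
    · rw [← swap_rev hn] at h1
      exact (Equiv.swap c (Fin.rev c)).injective h1

theorem o_s12 (hn : Even n) : ∀ z z' : EA n a, (∀ α ∈ Ro n a, inner ℝ α z ≠ 0) → (∀ α ∈ Ro n a, inner ℝ α z' ≠ 0) →
    ∃ m ∈ NO n a, ∀ α ∈ Ro n a, (0 < inner ℝ α (acO a m z) ↔ 0 < inner ℝ α z') := by
  intro z z' hz hz'
  obtain ⟨m, hm, h1⟩ := to_zo hn hz
  obtain ⟨m', hm', h2⟩ := to_zo hn hz'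
  have hi : m'⁻¹ ∈ NO n a := Subgroup.inv_mem _ hm'
  refine ⟨m'⁻¹ * m, Subgroup.mul_mem _ hi hm, fun α hα => ?_⟩
  have e1 : acO a m' (acO a (m'⁻¹ * m) z) = acO a m z := by
    have e2 := acO_mul hn hm' (Subgroup.mul_mem _ hi hm)
    rw [mul_inv_cancel_left] at e2
    exact (congrArg (fun f : EA n a ≃ₗᵢ[ℝ] EA n a => f z) e2).symm
  have e3 : inner ℝ α (acO a (m'⁻¹ * m) z) = inner ℝ (acO a m' α) (acO a m z) := by
    rw [← e1, LinearIsometryEquiv.inner_map_map]
  have e4 : inner ℝ α z' = inner ℝ (acO a m' α) (acO a m' z') := by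
    rw [LinearIsometryEquiv.inner_map_map]
  have hα' := o_s7R hn m' hm' α hα
  rw [e3, e4, h1 _ hα', h2 _ hα']

end

end OR
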