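import Pool.Agent.OR.I02
import Pool.Agent.LieP.I18

/-!
# MP_6c3636_al, OR, module I10: the property (S13) at zo (stub of helper40)

`π = pmo a g`, `y' = acO a g y`, `y'_(π i) = y_i` (`cx_acO`). By `le_zo` both points are dominant: `y_j < y_i` implies `i < j` if `j ≠ rev i`. For `a ≠ 0` (or `n = 0`, `n = 2`) a dominant point is antitone (the middle coordinates are zero). For `a = 0`, `n = 2 m`, it means `y_0 ≥ ... ≥ y_(m-2) ≥ |y_(m-1)|`. Let `|y|` be the point with `y_(m-1)` replaced by its absolute value (and `y_m` by its negative), the same for `y'`; they are antitone and `|y'| ∘ ρ = |y|` for a permutation `ρ` (`π`, composed with exchanges of the two middle indices), so `|y| = |y'|` (two antitone rearrangements of the same numbers are equal; as in `c_b13`, LieP/I18: for all `c` the sets `{y_i ≥ c}` are initial segments with the same number of elements; please see there). So `y' = y` or (`a = 0`, `y_(m-1) ≠ 0`, and `y'` is `y` with the two middle coordinates exchanged).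 In the second case `h := swp F i * g ∈ OQ` (`i` middle; I02) is monomial with the permutation `swap i (rev i) * π`, which preserves `y`: `h j k ≠ 0` implies `y_j = y_k`. All coordinates of `y` are nonzero (`|y_j| ≥ |y_(m-1)| > 0`), so `h ∈ Om` by `ev_levels` (level `0` is empty), so `swp F i = h * g⁻¹ ∈ Om`, contradiction (`swp_not`).
-/

namespace OR

noncomputable section

open Classical Matrix CF

open LieP (En UG UL Lin)

open LieP.GI (pinv pinv' UU mem_UU mem_UL)

variable {n : ℕ} {F : Type} [Field F] [Finite F] [CharP F 2] {a : F}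

omit [Finite F] [CharP F 2] in
/-- a dominant function which is nonnegative at the first middle index is antitone -/
private theorem I10_anti (hn : Even n) {f : Fin n → ℝ} (hf : ∀ i, f (Fin.rev i) = - f i)
    (hd : ∀ i j : Fin n, j ≠ Fin.rev i → f j < f i → i < j) {i0 : Fin n} (hi0 : (i0 : ℕ) + 1 = n / 2)
    (h0 : 0 ≤ f i0) : Antitone f := by
  intro i j hij
  by_contra hlt
  rw [not_le] at hlt
  by_cases h1 : i = Fin.rev j
  · have h2 : f i = - f j := by rw [h1, hf]
    have h3 : f i < 0 := by linarith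
    have hv := Fin.val_rev j
    have h4 : (i : ℕ) < n / 2 := by
      rw [← h1] at hv
      rw [Fin.le_def] at hij
      obtain ⟨m, hm⟩ := hn
      have := j.2
      omega
    by_cases h5 : i = i0
    · rw [h5] at h3
      linarith
    · have h6 : i ≠ Fin.rev i0 := by
        intro h
        have hv2 := Fin.val_rev i0
        rw [← h] at hv2
        obtain ⟨m, hm⟩ := hn
        omega
      have h7 := hd i0 i h6 (by linarith)
      have h8 : (i : ℕ) ≠ i0 := fun h => h5 (Fin.ext h)
      rw [Fin.lt_def] at h7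
      omega
  · exact absurd (hd j i h1 hlt) (not_lt.2 hij)

omit [Finite F] [CharP F 2] in
/-- the exchange of the two middle indices preserves dominance -/
private theorem I10_swap (hn : Even n) {f : Fin n → ℝ}
    (hd : ∀ i j : Fin n, j ≠ Fin.rev i → f j < f i → i < j) {i0 : Fin n} (hi0 : (i0 : ℕ) + 1 = n / 2) :
    ∀ i j : Fin n, j ≠ Fin.rev i → f (Equiv.swap i0 (Fin.rev i0) j) < f (Equiv.swap i0 (Fin.rev i0) i) → i < j := by
  intro i j hij hlt
  have h1 : Equiv.swap i0 (Fin.rev i0) j ≠ Fin.rev (Equiv.swap i0 (Fin.rev i0) i) := by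
    rw [← swap_rev hn]
    exact fun h => hij ((Equiv.swap i0 (Fin.rev i0)).injective h)
  have h2 := hd _ _ h1 hlt
  have hne : i ≠ j := by
    rintro rfl
    exact lt_irrefl _ h2
  have hv := Fin.val_rev i0
  have hr : ((Fin.rev i0 : Fin n) : ℕ) = i0 + 1 := by
    obtain ⟨m, hm⟩ := hn
    omega
  rw [Fin.lt_def] at h2 ⊢
  by_cases hi : i = i0
  · subst hi
    rw [Equiv.swap_apply_left] at h2
    by_cases hj : j = Fin.rev i
    · exact absurd hj hij
    · rw [Equiv.swap_apply_of_ne_of_ne (Ne.symm hne) hj] at h2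
      omega
  · by_cases hi' : i = Fin.rev i0
    · subst hi'
      rw [Equiv.swap_apply_right] at h2
      by_cases hj : j = i0
      · rw [Fin.rev_rev] at hij
        exact absurd hj hij
      · rw [Equiv.swap_apply_of_ne_of_ne hj (Ne.symm hne)] at h2
        have hj' : (j : ℕ) ≠ ((Fin.rev i0 : Fin n) : ℕ) := fun h => hne (Fin.ext h.symm)
        omega
    · rw [Equiv.swap_apply_of_ne_of_ne hi hi'] at h2
      have hi1 : (i : ℕ) ≠ i0 := fun h => hi (Fin.ext h)
      have hi2 : (i : ℕ) ≠ ((Fin.rev i0 : Fin n) : ℕ) := fun h => hi' (Fin.ext h)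
      by_cases hj : j = i0
      · subst hj
        rw [Equiv.swap_apply_left] at h2
        omega
      · by_cases hj' : j = Fin.rev i0
        · subst hj'
          rw [Equiv.swap_apply_right] at h2
          omega
        · rw [Equiv.swap_apply_of_ne_of_ne hj hj'] at h2
          exact h2

omit [Finite F] [CharP F 2] in
/-- the antitone rearrangement -/
private theorem I10_both (hn : Even n) {f : Fin n → ℝ} (hf : ∀ i, f (Fin.rev i) = - f i)
    (hd : ∀ i j : Fin n, j ≠ Fin.rev i → f j < f i → i < j) {i0 : Fin n} (hi0 : (i0 : ℕ) + 1 = n / 2) :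
    ∃ τ : Equiv.Perm (Fin n), ((τ = 1 ∧ 0 ≤ f i0) ∨ (τ = Equiv.swap i0 (Fin.rev i0) ∧ f i0 < 0)) ∧
      Antitone (f ∘ ⇑τ) := by
  by_cases h0 : 0 ≤ f i0
  · exact ⟨1, Or.inl ⟨rfl, h0⟩, I10_anti hn hf hd hi0 h0⟩
  · rw [not_le] at h0
    refine ⟨Equiv.swap i0 (Fin.rev i0), Or.inr ⟨rfl, h0⟩, ?_⟩
    refine I10_anti hn (f := f ∘ ⇑(Equiv.swap i0 (Fin.rev i0))) ?_ ?_ hi0 ?_
    · intro i
      show f (Equiv.swap i0 (Fin.rev i0) (Fin.rev i)) = - f (Equiv.swap i0 (Fin.rev i0) i)
      rw [swap_rev hn, hf]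
    · exact I10_swap hn hd hi0
    · show 0 ≤ f (Equiv.swap i0 (Fin.rev i0) i0)
      rw [Equiv.swap_apply_left, hf]
      linarith

theorem o_b13 (hn : Even n) : ∀ g ∈ NO n a, ∀ y : EA n a, (∀ α ∈ Ro n a, 0 < inner ℝ α y → 0 < inner ℝ α (zo n a)) →
    (∀ α ∈ Ro n a, 0 < inner ℝ α (acO a g y) → 0 < inner ℝ α (zo n a)) → acO a g y = y := by
  intro g hg y h1 h2
  rw [le_zo hn] at h1 h2
  rcases Nat.eq_zero_or_pos n with hn0 | hn0
  · subst hn0
    exact cx_ext fun i => i.elim0
  have hn2 : 2 ≤ n := by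
    obtain ⟨m, hm⟩ := hn
    omega
  have hlt0 : n / 2 - 1 < n := by omega
  obtain ⟨i0, hi0⟩ : ∃ i0 : Fin n, (i0 : ℕ) + 1 = n / 2 := by
    refine ⟨⟨n / 2 - 1, hlt0⟩, ?_⟩
    show n / 2 - 1 + 1 = n / 2
    omega
  have hmid : Mid n i0 := Or.inl hi0
  obtain ⟨τ, hτ, hτa⟩ := I10_both hn (cx_rev y) h1 hi0
  obtain ⟨τ', hτ', hτa'⟩ := I10_both hn (cx_rev (acO a g y)) h2 hi0
  have e : cx (acO a g y) = cx y ∘ ⇑((pmo a g)⁻¹) := by
    funext j
    exact cx_acO' hn hg y j
  have e2 : cx (acO a g y) ∘ ⇑τ' = cx y ∘ ⇑((pmo a g)⁻¹ * τ') := by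
    rw [e]
    rfl
  have h3 : cx (acO a g y) ∘ ⇑τ' = cx y ∘ ⇑τ := by
    rw [e2] at hτa' ⊢
    exact Tuple.unique_antitone hτa' hτa
  by_cases hττ : τ = τ'
  · apply cx_ext
    intro i
    have h4 := congrFun h3 (τ⁻¹ i)
    rw [← hττ] at h4
    show cx (acO a g y) i = cx y i
    have h5 : cx (acO a g y) (τ (τ⁻¹ i)) = cx y (τ (τ⁻¹ i)) := h4
    rw [pinv'] at h5
    exact h5
  · -- the exchange of the middle coordinates
    exfalso
    obtain ⟨s, hs⟩ : ∃ s : Equiv.Perm (Fin n), s = Equiv.swap i0 (Fin.rev i0) := ⟨_, rfl⟩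
    have hss : ∀ i, s (s i) = i := by
      intro i
      rw [hs]
      rw [← Equiv.Perm.mul_apply, Equiv.swap_mul_self, Equiv.Perm.one_apply]
    have h4 : ∀ i, cx (acO a g y) (s i) = cx y i := by
      intro i
      rcases hτ with ⟨hτ1, -⟩ | ⟨hτ1, -⟩
      · rcases hτ' with ⟨hτ2, -⟩ | ⟨hτ2, -⟩
        · exact absurd (hτ1.trans hτ2.symm) hττ
        · have h5 := congrFun h3 i
          rw [hτ1, hτ2, ← hs] at h5
          exact h5
      · rcases hτ' with ⟨hτ2, -⟩ | ⟨hτ2, -⟩
        · have h5 : cx (acO a g y) (τ' (s i)) = cx y (τ (s i)) := congrFun h3 (s i)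
          rw [hτ1, hτ2, ← hs, hss] at h5
          exact h5
        · exact absurd (hτ1.trans hτ2.symm) hττ
    have h5 : cx (acO a g y) i0 = - cx y i0 := by
      have h6 := h4 (Fin.rev i0)
      rw [hs, Equiv.swap_apply_right, cx_rev] at h6
      exact h6
    have h0 : cx y i0 ≠ 0 := by
      intro h6
      rw [h6, neg_zero] at h5
      apply hττ
      rcases hτ with ⟨hτ1, -⟩ | ⟨-, hτ1⟩
      · rcases hτ' with ⟨hτ2, -⟩ | ⟨-, hτ2⟩
        · rw [hτ1, hτ2]
        · linarith
      · linarith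
    have ha : a = 0 := by
      by_contra ha
      exact h0 (cx_mid ha y hmid)
    have hne : ∀ j, cx y j ≠ 0 := by
      have hr : ((Fin.rev i0 : Fin n) : ℕ) = i0 + 1 := by
        have hv := Fin.val_rev i0
        obtain ⟨m, hm⟩ := hn
        omega
      have h6 : 0 < cx y (τ i0) ∧ cx y (τ (Fin.rev i0)) < 0 := by
        rcases hτ with ⟨hτ1, h7⟩ | ⟨hτ1, h7⟩
        · have h8 : 0 < cx y i0 := lt_of_le_of_ne h7 (Ne.symm h0)
          rw [hτ1]
          refine ⟨h8, ?_⟩
          show cx y (Fin.rev i0) < 0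
          rw [cx_rev]
          linarith
        · rw [hτ1, Equiv.swap_apply_left, Equiv.swap_apply_right, cx_rev]
          exact ⟨by linarith, h7⟩
      have h7 : ∀ j, cx y (τ j) ≠ 0 := by
        intro j
        rcases le_or_gt j i0 with h8 | h8
        · have h9 : cx y (τ i0) ≤ cx y (τ j) := hτa h8
          exact ne_of_gt (lt_of_lt_of_le h6.1 h9)
        · have h8' : Fin.rev i0 ≤ j := by
            rw [Fin.lt_def] at h8
            rw [Fin.le_def, hr]
            omega
          have h9 : cx y (τ j) ≤ cx y (τ (Fin.rev i0)) := hτa h8'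
          exact ne_of_lt (lt_of_le_of_lt h9 h6.2)
      intro j
      have h8 := h7 (τ⁻¹ j)
      rw [pinv'] at h8
      exact h8
    have hent : ∀ j k, ((swp F i0 * g : GL (Fin n) F) : Matrix (Fin n) (Fin n) F) j k =
        (g : Matrix (Fin n) (Fin n) F) (s j) k := by
      intro j k
      rw [← mv_sv, mv_mul, mv_swp, mv_sv, hs]
    have hsupp : ∀ j k, ((swp F i0 * g : GL (Fin n) F) : Matrix (Fin n) (Fin n) F) j k ≠ 0 → cx y j = cx y k := by
      intro j k hjk
      rw [hent] at hjk
      have h6 := NO_supp hn hg hjk y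
      rw [h4] at h6
      exact h6
    have hOQ : swp F i0 * g ∈ OQ n a := Subgroup.mul_mem _ (swp_OQ hn a i0) (Om_le n a hg.1)
    have hOm : swp F i0 * g ∈ Om n a := by
      refine ev_levels hn hOQ (y := cx y) (cx_rev y) (cx_mid' y) ?_ ?_
      · intro i j hij
        by_contra h6
        exact absurd (hsupp i j h6) (ne_of_lt hij)
      · intro i j hi _
        exact absurd hi (hne i)
    apply swp_not hn a i0
    have h6 : swp F i0 = (swp F i0 * g) * g⁻¹ := by rw [mul_inv_cancel_right]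
    rw [h6]
    exact Subgroup.mul_mem _ hOm (Subgroup.inv_mem _ hg.1)

end

end OR
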