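import Pool.Agent.OR.I01

/-!
# MP_6c3636_al, OR, module I11: the simple roots, (S14) at zo (helper63)

`exists_cw` (fundamental coweights): `y` has the coordinates `f i` in the first half (`i < n / 2`), so the pairing with the
simple root `(i, i + 1)` is `f i - f (i + 1)` and with the simple root `(i, i + 2)`, `2 i + 4 = n`, it is
`f i + f (i + 1)`.
-/

namespace OR

noncomputable section

open Classical Matrix CF

open LieP (En UG UL Lin)

open LieP.GI (pinv pinv' UU mem_UU mem_UL)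

variable {n : ℕ} {F : Type} [Field F] [Finite F] [CharP F 2] {a : F}

namespace I11_aux

/-- the coordinates of a point with the coordinates `f i` in the first half -/
def hf (n : ℕ) (f : ℕ → ℝ) (i : Fin n) : ℝ := if (i : ℕ) < n / 2 then f i else - f (n - 1 - i)

omit [Finite F] [CharP F 2] in
theorem exists_pt (hn : Even n) (f : ℕ → ℝ) (hf0 : a ≠ 0 → f (n / 2 - 1) = 0) :
    ∃ y : EA n a, ∀ i j : Fin n, Sm n i j →
      ((j : ℕ) = i + 1 → inner ℝ (rto a i j) y = f i - f (i + 1)) ∧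
      ((j : ℕ) = i + 2 → inner ℝ (rto a i j) y = f i + f (i + 1)) := by
  obtain ⟨m, hm⟩ := hn
  have hrev : ∀ i : Fin n, hf n f (Fin.rev i) = - hf n f i := by
    intro i
    have h1 := Fin.val_rev i
    have h2 := i.2
    unfold hf
    by_cases h3 : (i : ℕ) < n / 2
    · rw [if_pos h3, if_neg (by omega)]
      congr 2
      omega
    · rw [if_neg h3, if_pos (by omega), neg_neg, h1]
      congr 1
      omega
  have hmid : a ≠ 0 → ∀ i, Mid n i → hf n f i = 0 := by
    intro ha i hi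
    have h2 := i.2
    unfold Mid at hi
    unfold hf
    by_cases h3 : (i : ℕ) < n / 2
    · rw [if_pos h3, show (i : ℕ) = n / 2 - 1 by omega, hf0 ha]
    · rw [if_neg h3, show n - 1 - (i : ℕ) = n / 2 - 1 by omega, hf0 ha, neg_zero]
  refine ⟨ofx a (hf n f) hrev hmid, fun i j hij => ⟨fun h => ?_, fun h => ?_⟩⟩
  · rw [inner_rto, cx_ofx, cx_ofx]
    unfold Sm at hij
    unfold hf
    rw [if_pos (by omega), if_pos (by omega), h]
  · rw [inner_rto, cx_ofx, cx_ofx]
    unfold Sm at hij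
    unfold hf
    rw [if_pos (by omega), if_neg (by omega), sub_neg_eq_add, show n - 1 - (j : ℕ) = i + 1 by omega]

omit [Finite F] [CharP F 2] in
theorem rto_mid (ha : a ≠ 0) {i j k : Fin n} (hj : Mid n j) (hk : Mid n k) : rto a i j = rto a i k := by
  refine rto_ext fun x => ?_
  rw [inner_rto, inner_rto, cx_mid ha x hj, cx_mid ha x hk]

omit [Finite F] [CharP F 2] in
theorem Sm_cases {i j : Fin n} (h : Sm n i j) : (j : ℕ) = i + 1 ∨ (j : ℕ) = i + 2 :=
  h.imp (fun h => h.1) (fun h => h.2)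

omit [Finite F] [CharP F 2] in
/-- the first case -/
theorem cw_A (hn : Even n) {p q : Fin n} (h : Sm n p q) (hq : (q : ℕ) = p + 1)
    (hp : 2 * (p : ℕ) + 4 < n ∨ a ≠ 0) :
    ∃ y : EA n a, 0 < inner ℝ (rto a p q) y ∧ ∀ β' ∈ Dlo n a, β' ≠ rto a p q → inner ℝ β' y = 0 := by
  obtain ⟨m, hm⟩ := id hn
  obtain ⟨y, hy⟩ := exists_pt (a := a) hn (fun k => if k ≤ (p : ℕ) then 1 else 0) (by
    intro _
    refine if_neg ?_
    unfold Sm at h
    omega)
  refine ⟨y, ?_, ?_⟩
  · rw [(hy p q h).1 hq, if_pos le_rfl, if_neg (by omega)]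
    norm_num
  · intro β' hβ' hne
    obtain ⟨i, j, hij, rfl⟩ := mem_Dlo.1 hβ'
    rcases Sm_cases hij with h1 | h1
    · rw [(hy i j hij).1 h1]
      have h2 : (i : ℕ) ≠ p := by
        intro h3
        apply hne
        rw [Fin.ext h3, Fin.ext (show (j : ℕ) = q by omega)]
      by_cases h4 : (i : ℕ) ≤ p
      · rw [if_pos h4, if_pos (by omega), sub_self]
      · rw [if_neg h4, if_neg (by omega), sub_self]
    · rw [(hy i j hij).2 h1]
      have h2 : (i : ℕ) ≠ p := by
        intro h3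
        apply hne
        have h5 : a ≠ 0 := by
          rcases hp with h6 | h6
          · unfold Sm at hij
            omega
          · exact h6
        rw [Fin.ext h3]
        refine rto_mid h5 ?_ ?_
        · unfold Sm at hij
          unfold Mid
          omega
        · unfold Sm at hij
          unfold Mid
          omega
      have h3 : (p : ℕ) < i := by
        unfold Sm at hij h
        omega
      rw [if_neg (by omega), if_neg (by omega), add_zero]

omit [Finite F] [CharP F 2] in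
/-- the second case -/
theorem cw_B (hn : Even n) (ha : a = 0) {p q : Fin n} (h : Sm n p q) (hq : (q : ℕ) = p + 1)
    (hp : 2 * (p : ℕ) + 4 = n) :
    ∃ y : EA n a, 0 < inner ℝ (rto a p q) y ∧ ∀ β' ∈ Dlo n a, β' ≠ rto a p q → inner ℝ β' y = 0 := by
  obtain ⟨y, hy⟩ := exists_pt (a := a) hn (fun k => if k = (p : ℕ) + 1 then -1 else 1)
    (fun h => absurd ha h)
  refine ⟨y, ?_, ?_⟩
  · rw [(hy p q h).1 hq, if_neg (by omega), if_pos rfl]
    norm_num
  · intro β' hβ' hne
    obtain ⟨i, j, hij, rfl⟩ := mem_Dlo.1 hβ'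
    rcases Sm_cases hij with h1 | h1
    · rw [(hy i j hij).1 h1]
      have h2 : (i : ℕ) ≠ p := by
        intro h3
        apply hne
        rw [Fin.ext h3, Fin.ext (show (j : ℕ) = q by omega)]
      unfold Sm at hij
      rw [if_neg (by omega), if_neg (by omega), sub_self]
    · rw [(hy i j hij).2 h1]
      unfold Sm at hij
      rw [if_neg (by omega), if_pos (by omega)]
      norm_num

omit [Finite F] [CharP F 2] in
/-- the third case -/
theorem cw_C (hn : Even n) (ha : a = 0) {p q : Fin n} (h : Sm n p q) (hq : (q : ℕ) = p + 2) :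
    ∃ y : EA n a, 0 < inner ℝ (rto a p q) y ∧ ∀ β' ∈ Dlo n a, β' ≠ rto a p q → inner ℝ β' y = 0 := by
  obtain ⟨y, hy⟩ := exists_pt (a := a) hn (fun _ => 1) (fun h => absurd ha h)
  refine ⟨y, ?_, ?_⟩
  · rw [(hy p q h).2 hq]
    norm_num
  · intro β' hβ' hne
    obtain ⟨i, j, hij, rfl⟩ := mem_Dlo.1 hβ'
    rcases Sm_cases hij with h1 | h1
    · rw [(hy i j hij).1 h1, sub_self]
    · exfalso
      apply hne
      unfold Sm at hij h
      rw [Fin.ext (show (i : ℕ) = p by omega), Fin.ext (show (j : ℕ) = q by omega)]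

end I11_aux

open I11_aux

theorem exists_cw (hn : Even n) {β : EA n a} (hβ : β ∈ Dlo n a) :
    ∃ y : EA n a, 0 < inner ℝ β y ∧ ∀ β' ∈ Dlo n a, β' ≠ β → inner ℝ β' y = 0 := by
  obtain ⟨p, q, h, rfl⟩ := mem_Dlo.1 hβ
  rcases Sm_cases h with hq | hq
  · by_cases hp : 2 * (p : ℕ) + 4 < n ∨ a ≠ 0
    · exact cw_A hn h hq hp
    · rw [not_or, not_not] at hp
      refine cw_B hn hp.2 h hq ?_
      have h1 := h
      unfold Sm at h1
      omega
  · by_cases ha : a = 0
    · exact cw_C hn ha h hq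
    · -- the root of `(p, p + 1)`
      have h1 := h
      unfold Sm at h1
      obtain ⟨q', hq'⟩ : ∃ q' : Fin n, (q' : ℕ) = p + 1 := ⟨⟨p + 1, by have := q.2; omega⟩, rfl⟩
      have h2 : Sm n p q' := Or.inl ⟨hq', by omega⟩
      have h3 : rto a p q = rto a p q' := by
        refine rto_mid ha ?_ ?_
        · unfold Mid
          omega
        · unfold Mid
          omega
      rw [h3]
      exact cw_A hn h2 hq' (Or.inr ha)

theorem o_b14 (hn : Even n) : ∀ α ∈ Dlo n a, α ∈ Ro n a ∧ 0 < inner ℝ α (zo n a) := by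
  intro α hα
  obtain ⟨p, q, h, rfl⟩ := mem_Dlo.1 hα
  exact ⟨rto_mem h.ne h.ne_rev, pos_rto.2 (h.pl.zo hn)⟩

theorem o_b14' (hn : Even n) : ∀ J ⊆ Dlo n a, ∃ y : EA n a, (∀ α ∈ J, inner ℝ α y = 0) ∧
    ∀ α ∈ Dlo n a, α ∉ J → 0 < inner ℝ α y := by
  intro J hJ
  have h1 : ∀ β : EA n a, ∃ y : EA n a, β ∈ Dlo n a →
      (0 < inner ℝ β y ∧ ∀ β' ∈ Dlo n a, β' ≠ β → inner ℝ β' y = 0) := by
    intro β
    by_cases hβ : β ∈ Dlo n a
    · obtain ⟨y, hy⟩ := exists_cw hn hβ
      exact ⟨y, fun _ => hy⟩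
    · exact ⟨0, fun h => absurd h hβ⟩
  choose y hy using h1
  refine ⟨∑ β ∈ Dlo n a \ J, y β, ?_, ?_⟩
  · intro α hα
    rw [inner_sum]
    refine Finset.sum_eq_zero fun β hβ => ?_
    rw [Finset.mem_sdiff] at hβ
    exact (hy β hβ.1).2 α (hJ hα) (fun h => hβ.2 (h ▸ hα))
  · intro α hα hαJ
    rw [inner_sum, Finset.sum_eq_single α]
    · exact (hy α hα).1
    · intro β hβ hne
      rw [Finset.mem_sdiff] at hβ
      exact (hy β hβ.1).2 α hα (fun h => hne h.symm)
    · intro h
      exact absurd (Finset.mem_sdiff.2 ⟨hα, hαJ⟩) h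

end

end OR
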