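import Pool.Agent.OR.I01

/-!
# MP_6c3636_al, OR, module I12: positive roots are nonnegative combinations of simple roots (stub of helper40)

`cone`: let `C` be the set of the sums `∑ b ∈ Dlo, c b • b` with `c b ≥ 0` on `Dlo`; it is closed under addition and contains the `rto a i j` with `Sm n i j`. By `rto_rev` it also contains `rto a i j` if `Sm n (rev j) (rev i)`. Strong induction on `j - i` for the pairs with `pl n i j`, `n = 2 m`: (1) `j = i + 1`: `i ≠ m - 1` (not both in the middle), so `i ≤ m - 2` and `Sm n i j`, or `i ≥ m` and `Sm n (rev j) (rev i)`. (2) `i = m - 2`, `j = m`: `Sm n i j`; `i = m - 1`, `j = m + 1`: `Sm n (rev j) (rev i)`. (3) `i = m - 1`, `j ≥ m + 2`: `rto a i j = rto a i k + rto a k j` with `k = j - 1` (`rto_add`; `pl n i k`, `pl n k j`). (4) otherwise `j ≥ i + 2`, `i ≠ m - 1`, not `i = m - 2 ∧ j = m`: `k = i + 1` (`pl n i k`: `i ≠ m - 1`; `pl n k j`: not `k = m - 1 ∧ j = m`).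
(b14''): `α = rto a i j`, `0 < <α, zo>` means `pl n i j` (`zo_lt`, `mid_pair`).
`dom_of`: let `0 ≤ <β, y>` for all simple `β`. If `α ∈ Ro`, `0 < <α, y>` but not `0 < <α, zo>` then `0 < <-α, zo>` (`gen_zo`), so `-α` is a nonnegative combination and `<-α, y> ≥ 0`, contradiction. `dom_nonneg`: the converse, `β ∈ Dlo`: if `<β, y> < 0` then `0 < <-β, y>`, so `0 < <-β, zo>`, contradiction to `o_b14`-like `pl.zo` (`Sm.pl`, `mem_Dlo`, `Ro_neg`).
`dom_face`: `α ∈ Ro` with `0 < <α, zo>`, `y` dominant, `<α, y> = 0` and `0 < c b` in the combination imply `<b, y> = 0`; not needed.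
-/

namespace OR

noncomputable section

open Classical Matrix CF

open LieP (En UG UL Lin)

open LieP.GI (pinv pinv' UU mem_UU mem_UL)

variable {n : ℕ} {F : Type} [Field F] [Finite F] [CharP F 2] {a : F}

namespace I12_aux

/-- the nonnegative combinations of the simple roots -/
def Cn (α : EA n a) : Prop :=
  ∃ c : EA n a → ℝ, (∀ b ∈ Dlo n a, 0 ≤ c b) ∧ α = ∑ b ∈ Dlo n a, c b • b

omit [Finite F] [CharP F 2] in
theorem Cn_add {α β : EA n a} (h : Cn α) (h' : Cn β) : Cn (α + β) := by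
  obtain ⟨c, hc, rfl⟩ := h
  obtain ⟨d, hd, rfl⟩ := h'
  refine ⟨fun b => c b + d b, fun b hb => add_nonneg (hc b hb) (hd b hb), ?_⟩
  rw [← Finset.sum_add_distrib]
  exact Finset.sum_congr rfl fun b _ => (add_smul _ _ _).symm

omit [Finite F] [CharP F 2] in
theorem Cn_of {b : EA n a} (h : b ∈ Dlo n a) : Cn b := by
  refine ⟨fun x => if x = b then 1 else 0, fun x _ => ?_, ?_⟩
  · show (0 : ℝ) ≤ if x = b then 1 else 0
    split_ifs
    · exact zero_le_one
    · exact le_rfl
  · rw [Finset.sum_eq_single_of_mem b h]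
    · show b = (if b = b then (1 : ℝ) else 0) • b
      rw [if_pos rfl, one_smul]
    · intro x _ hx
      show (if x = b then (1 : ℝ) else 0) • x = 0
      rw [if_neg hx, zero_smul]

omit [Finite F] [CharP F 2] in
theorem Cn_Sm {i j : Fin n} (h : Sm n i j) : Cn (rto a i j) := Cn_of (mem_Dlo.2 ⟨i, j, h, rfl⟩)

omit [Finite F] [CharP F 2] in
theorem Cn_Sm' {i j : Fin n} (h : Sm n (Fin.rev j) (Fin.rev i)) : Cn (rto a i j) := by
  rw [← rto_rev]
  exact Cn_Sm h

omit [Finite F] [CharP F 2] in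
theorem Cn_pl (hn : Even n) : ∀ (d : ℕ) (i j : Fin n), (j : ℕ) - i ≤ d → pl n i j → Cn (rto a i j) := by
  intro d
  obtain ⟨m, hm⟩ := hn
  induction d with
  | zero =>
    intro i j hd h
    have h1 := h.1
    rw [Fin.lt_def] at h1
    omega
  | succ d ih =>
    intro i j hd h
    have h1 := h.1
    rw [Fin.lt_def] at h1
    have h2 : ¬ (((i : ℕ) + 1 = m ∨ (i : ℕ) = m) ∧ ((j : ℕ) + 1 = m ∨ (j : ℕ) = m)) := by
      have h3 := h.2
      unfold Mid at h3
      omega
    have hi := i.2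
    have hj := j.2
    have ri := Fin.val_rev i
    have rj := Fin.val_rev j
    by_cases c1 : (j : ℕ) = i + 1
    · by_cases c2 : (i : ℕ) + 2 ≤ m
      · refine Cn_Sm ?_
        unfold Sm
        omega
      · refine Cn_Sm' ?_
        unfold Sm
        omega
    · by_cases c3 : (i : ℕ) + 2 = m ∧ (j : ℕ) = m
      · refine Cn_Sm ?_
        unfold Sm
        omega
      · by_cases c4 : (i : ℕ) + 1 = m
        · by_cases c5 : (j : ℕ) = m + 1
          · refine Cn_Sm' ?_
            unfold Sm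
            omega
          · have hk : (j : ℕ) - 1 < n := by omega
            rw [← rto_add i ⟨(j : ℕ) - 1, hk⟩ j]
            refine Cn_add (ih _ _ ?_ ?_) (ih _ _ ?_ ?_)
            · show (j : ℕ) - 1 - i ≤ d
              omega
            · unfold pl Mid
              rw [Fin.lt_def]
              show (i : ℕ) < (j : ℕ) - 1 ∧ ¬ (((i : ℕ) + 1 = n / 2 ∨ (i : ℕ) = n / 2) ∧
                ((j : ℕ) - 1 + 1 = n / 2 ∨ (j : ℕ) - 1 = n / 2))
              omega
            · show (j : ℕ) - ((j : ℕ) - 1) ≤ d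
              omega
            · unfold pl Mid
              rw [Fin.lt_def]
              show (j : ℕ) - 1 < (j : ℕ) ∧ ¬ (((j : ℕ) - 1 + 1 = n / 2 ∨ (j : ℕ) - 1 = n / 2) ∧
                ((j : ℕ) + 1 = n / 2 ∨ (j : ℕ) = n / 2))
              omega
        · have hk : (i : ℕ) + 1 < n := by omega
          rw [← rto_add i ⟨(i : ℕ) + 1, hk⟩ j]
          refine Cn_add (ih _ _ ?_ ?_) (ih _ _ ?_ ?_)
          · show (i : ℕ) + 1 - i ≤ d
            omega
          · unfold pl Mid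
            rw [Fin.lt_def]
            show (i : ℕ) < (i : ℕ) + 1 ∧ ¬ (((i : ℕ) + 1 = n / 2 ∨ (i : ℕ) = n / 2) ∧
              ((i : ℕ) + 1 + 1 = n / 2 ∨ (i : ℕ) + 1 = n / 2))
            omega
          · show (j : ℕ) - ((i : ℕ) + 1) ≤ d
            omega
          · unfold pl Mid
            rw [Fin.lt_def]
            show (i : ℕ) + 1 < (j : ℕ) ∧ ¬ (((i : ℕ) + 1 + 1 = n / 2 ∨ (i : ℕ) + 1 = n / 2) ∧
              ((j : ℕ) + 1 = n / 2 ∨ (j : ℕ) = n / 2))
            omega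

end I12_aux

theorem cone (hn : Even n) {i j : Fin n} (h : pl n i j) :
    ∃ c : EA n a → ℝ, (∀ b ∈ Dlo n a, 0 ≤ c b) ∧ rto a i j = ∑ b ∈ Dlo n a, c b • b := by
  exact I12_aux.Cn_pl hn _ i j le_rfl h

theorem o_b14'' (hn : Even n) : ∀ α ∈ Ro n a, 0 < inner ℝ α (zo n a) →
    ∃ c : EA n a → ℝ, (∀ b ∈ Dlo n a, 0 ≤ c b) ∧ α = ∑ b ∈ Dlo n a, c b • b := by
  rw [forall_Ro]
  intro i j hij hij' h
  have h1 : ¬ (Mid n i ∧ Mid n j) := by
    intro h3
    rcases mid_pair hn h3.1 h3.2 with h4 | h4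
    · exact hij h4.symm
    · exact hij' h4
  exact cone hn ⟨(zo_lt hn h1).1 (pos_rto.1 h), h1⟩

theorem dom_of (hn : Even n) {y : EA n a} (h : ∀ β ∈ Dlo n a, 0 ≤ inner ℝ β y) :
    ∀ α ∈ Ro n a, 0 < inner ℝ α y → 0 < inner ℝ α (zo n a) := by
  intro α hα h1
  by_contra h2
  have h3 : 0 < inner ℝ (-α) (zo n a) := by
    rw [inner_neg_left]
    have h4 := gen_zo hn α hα
    rcases lt_or_gt_of_ne h4 with h5 | h5
    · exact neg_pos.2 h5
    · exact absurd h5 h2
  obtain ⟨c, hc, hs⟩ := o_b14'' hn (-α) (Ro_neg α hα) h3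
  have h4 : 0 ≤ inner ℝ (-α) y := by
    rw [hs, sum_inner]
    refine Finset.sum_nonneg fun b hb => ?_
    have h5 : inner ℝ (c b • b) y = c b * inner ℝ b y := by
      rw [inner_cx, inner_cx, Finset.mul_sum]
      exact Finset.sum_congr rfl fun i _ => by rw [cx_smul, mul_assoc]
    rw [h5]
    exact mul_nonneg (hc b hb) (h b hb)
  rw [inner_neg_left] at h4
  linarith

theorem dom_nonneg (hn : Even n) {y : EA n a} (h : ∀ α ∈ Ro n a, 0 < inner ℝ α y → 0 < inner ℝ α (zo n a)) :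
    ∀ α ∈ Ro n a, 0 < inner ℝ α (zo n a) → 0 ≤ inner ℝ α y := by
  intro α hα h1
  by_contra h2
  have h3 : 0 < inner ℝ (-α) y := by
    rw [inner_neg_left]
    linarith
  have h4 := h (-α) (Ro_neg α hα) h3
  rw [inner_neg_left] at h4
  linarith

end

end OR
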