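import Pool.Agent.OR.I01

/-!
# MP_6c3636_al, OR, module I13: Eichler elements in UZ and one step of the Bruhat decomposition (stub of helper40)

`eo_UZ`: `mem_UZ`, entries of `eo a (sv p) b` by `mv_sv`, `mv_eo`: `1 + [column rev p] b_i + [row p] b_(rev j) + [(p, rev p)] Qa b`. Let `¬ pl n i j`, `i ≠ j` or `i = j`. The entry `b_i` in the column `j = rev p`: `b_i ≠ 0` implies `i < rev p`, and not both of `i`, `rev p` are in the middle if `a ≠ 0` (`p` is not in the middle); so `pl n i j` if `a ≠ 0`. If `a = 0` the case that `i`, `rev p` are both in the middle is possible; so for `a = 0` do not use `mem_UZ` but show that the element is upper unitriangular (`g i j = 1 i j` for `¬ i < j`), this is enough by the definition `UZ n 0 = Uo (zo n 0)` and `mem_Uo'` (for `a = 0` the coordinates of `zo n 0` are `n - 1 - 2 i`: `msk_zero`). Row `p`: `b_(rev j) ≠ 0` implies `rev j < rev p`, `p < j`. The entry `(p, rev p)`: if `rev p ≤ p` then `b` vanishes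 at all indices `≥ rev p`, in particular outside of the first half, and at the middle indices if `a ≠ 0`, so `Qa b = 0`.
`BDn a k M`: the columns `j`, `rev j` with `j < k` are multiples of standard vectors. `bstep`: let `k` be the index, `v = mv M (sv k)`. For `j < k`, `mv M (sv j) = c • sv r`: `bf (mv M (sv j)) v = bf (sv j) (sv k) = 0`, so `v (rev r) = 0`, and in the same way `v r = 0`. `v ≠ 0`, `Qa v = 0` (`k` is not in the middle or `a = 0`). Let `r` be the largest index with `v r ≠ 0`. If `a ≠ 0` then `r` is not in the middle: otherwise `Qa v = a (v_(m-1)² + v_m²) + v_(m-1) v_m = 0` (all other products vanish), `Aniso a`. `x := eo a (sv (rev r)) b` with `b = (v r)⁻¹ • (v + v r • sv r)` (`eo_move` for `sv (rev r)`, `w = v`, `w' = v r • sv r`): `mv x v = v r • sv r`; `b i = 0` for `i ≥ r`; `x ∈ UZ` by `eo_UZ` (`p = rev r`); `x` fixes the `sv r'`, `sv (rev r')` which belong to the columns `j < k` (`eo_fix`). Put `M' = x * M`; `w :=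 mv M'⁻¹ ((v r)⁻¹ • sv (rev r))` is singular, `bf (sv k) w = 1`, and `eo_move` for `sv k`, `sv (rev k)`, `w` gives `y = eo a (sv k) (sv (rev k) + w)` with `mv y (sv (rev k)) = w`, `mv y (sv k) = sv k`; `(sv (rev k) + w) i = 0` for `i ≥ rev k`: `i = rev k` because of `bf (sv k) w = 1`, `i = rev j`, `j < k`, because of `w (rev j) = bf (sv j) w = bf (mv M' (sv j)) ((v r)⁻¹ • sv (rev r)) = 0`; so `y ∈ UZ`, and `y` fixes `sv j`, `sv (rev j)` for `j < k`. `M' * y` is what we want, with `r` and `c = v r`.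
-/

namespace OR

noncomputable section

open Classical Matrix CF

open LieP (En UG UL Lin)

open LieP.GI (pinv pinv' UU mem_UU mem_UL)

variable {n : ℕ} {F : Type} [Field F] [Finite F] [CharP F 2] {a : F}

omit [Finite F] [CharP F 2] in
private theorem sv_eq (i : Fin n) : (sv i : Fin n → F) i = 1 := by
  rw [sv, Pi.single_eq_same]

omit [Finite F] [CharP F 2] in
private theorem sv_ne {i j : Fin n} (h : j ≠ i) : (sv i : Fin n → F) j = 0 := by
  rw [sv, Pi.single_eq_of_ne h]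

omit [Finite F] [CharP F 2] in
private theorem Qa_lower (hn : Even n) {p : Fin n} (hp : a = 0 ∨ ¬ Mid n p) (hpp : Fin.rev p ≤ p) {b : Fin n → F}
    (hb : ∀ i, Fin.rev p ≤ i → b i = 0) : Qa n a b = 0 := by
  have h1 : ((Fin.rev p : Fin n) : ℕ) = n - (p + 1) := Fin.val_rev p
  have h2 := p.isLt
  rw [Fin.le_def, h1] at hpp
  have hn2 : n % 2 = 0 := Nat.even_iff.1 hn
  have hsum : (∑ i : Fin n, if (i : ℕ) < n / 2 then b i * b (Fin.rev i) else 0) = 0 := by
    refine Finset.sum_eq_zero fun i _ => ?_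
    split_ifs with h3
    · have h4 : ((Fin.rev i : Fin n) : ℕ) = n - (i + 1) := Fin.val_rev i
      rw [hb (Fin.rev i) (by rw [Fin.le_def, h1, h4]; omega), mul_zero]
    · rfl
  rw [Qa, hsum, zero_add]
  rcases hp with hp | hp
  · rw [hp, zero_mul]
  · rw [Finset.sum_eq_zero, mul_zero]
    intro i _
    split_ifs with h3
    · have h5 : b i = 0 := by
        apply hb
        rw [Fin.le_def, h1]
        unfold Mid at h3 hp
        omega
      rw [h5]
      ring
    · rfl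

private theorem eo_entry (hn : Even n) {p : Fin n} {b : Fin n → F} (hb : bf (sv p) b = 0) (i j : Fin n) :
    (eo a (sv p) b : Matrix (Fin n) (Fin n) F) i j = (1 : Matrix (Fin n) (Fin n) F) i j +
      (sv j : Fin n → F) (Fin.rev p) * b i + b (Fin.rev j) * (sv p : Fin n → F) i +
      Qa n a b * (sv j : Fin n → F) (Fin.rev p) * (sv p : Fin n → F) i := by
  have h1 : (sv j : Fin n → F) i = (1 : Matrix (Fin n) (Fin n) F) i j := by
    by_cases h : i = j
    · rw [h, sv_eq, Matrix.one_apply_eq]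
    · rw [sv_ne h, Matrix.one_apply_ne h]
  rw [← mv_sv, mv_eo hn a hb, Pi.add_apply, Pi.add_apply, Pi.add_apply, Pi.smul_apply, Pi.smul_apply,
    Pi.smul_apply, smul_eq_mul, smul_eq_mul, smul_eq_mul, bf_sv_left, bf_sv_right, h1]

private theorem eo_upper (hn : Even n) {p : Fin n} (hp : a = 0 ∨ ¬ Mid n p) {b : Fin n → F}
    (hb : ∀ i, Fin.rev p ≤ i → b i = 0) {i j : Fin n} (hij : ¬ i < j) :
    (eo a (sv p) b : Matrix (Fin n) (Fin n) F) i j = (1 : Matrix (Fin n) (Fin n) F) i j := by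
  have hb0 : bf (sv p) b = 0 := by rw [bf_sv_left, hb _ le_rfl]
  have h1 : (sv j : Fin n → F) (Fin.rev p) * b i = 0 := by
    by_cases h : Fin.rev p = j
    · rw [hb i (by rw [h]; exact not_lt.1 hij), mul_zero]
    · rw [sv_ne h, zero_mul]
  have h2 : b (Fin.rev j) * (sv p : Fin n → F) i = 0 := by
    by_cases h : i = p
    · rw [hb (Fin.rev j) (Fin.rev_le_rev.2 (by rw [← h]; exact not_lt.1 hij)), zero_mul]
    · rw [sv_ne h, mul_zero]
  have h3 : Qa n a b * (sv j : Fin n → F) (Fin.rev p) * (sv p : Fin n → F) i = 0 := by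
    by_cases h : i = p
    · by_cases h' : Fin.rev p = j
      · rw [Qa_lower hn hp (by rw [h', ← h]; exact not_lt.1 hij) hb, zero_mul, zero_mul]
      · rw [sv_ne h', mul_zero, zero_mul]
    · rw [sv_ne h, mul_zero]
  rw [eo_entry hn hb0, h1, h2, h3, add_zero, add_zero, add_zero]

theorem eo_UZ (hn : Even n) {p : Fin n} (hp : a = 0 ∨ ¬ Mid n p) {b : Fin n → F}
    (hb : ∀ i, Fin.rev p ≤ i → b i = 0) : eo a (sv p) b ∈ UZ n a := by
  have hb0 : bf (sv p) b = 0 := by rw [bf_sv_left, hb _ le_rfl]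
  have hQ : Qa n a (sv p) = 0 := by
    rcases hp with hp | hp
    · rw [hp]
      exact Qa_sv_zero hn p
    · exact Qa_sv a hn hp
  have hmem : eo a (sv p) b ∈ OQ n a := eo_mem hn hQ hb0
  by_cases ha : a = 0
  · unfold UZ
    rw [mem_Uo' hn]
    refine ⟨hmem, fun i j hij => eo_upper hn hp hb fun h => hij ?_⟩
    have hz : ∀ k : Fin n, cx (zo n a) k = (n : ℝ) - 1 - 2 * (k : ℕ) := by
      intro k
      show msk a (fun i : Fin n => (n : ℝ) - 1 - 2 * (i : ℕ)) k = _
      rw [ha, msk_zero]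
    rw [hz, hz]
    rw [Fin.lt_def] at h
    have h1 : ((i : ℕ) : ℝ) < ((j : ℕ) : ℝ) := by exact_mod_cast h
    linarith
  · have hp' : ¬ Mid n p := hp.resolve_left ha
    rw [mem_UZ hn]
    refine ⟨hmem, fun i j hij => ?_⟩
    by_cases hlt : i < j
    · have hm : Mid n i ∧ Mid n j := by
        by_contra h
        exact hij ⟨hlt, h⟩
      have h1 : i ≠ p := by
        rintro rfl
        exact hp' hm.1
      have h2 : Fin.rev p ≠ j := by
        rintro rfl
        exact hp' ((Mid_rev hn).1 hm.2)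
      rw [eo_entry hn hb0, sv_ne h1, sv_ne h2, zero_mul, mul_zero, mul_zero, add_zero, add_zero, add_zero]
    · exact eo_upper hn hp hb hlt

/-- the columns `j`, `rev j` with `j < k` are multiples of standard vectors -/
def BDn (a : F) (k : ℕ) (M : GL (Fin n) F) : Prop :=
  ∀ j : Fin n, (j : ℕ) < k → ∃ (r : Fin n) (c : F), c ≠ 0 ∧ (a = 0 ∨ ¬ Mid n r) ∧ mv M (sv j) = c • sv r ∧
    mv M (sv (Fin.rev j)) = c⁻¹ • sv (Fin.rev r)

omit [Finite F] [CharP F 2] in
/-- the largest index with a nonzero value -/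
private theorem exists_top {v : Fin n → F} (hv : v ≠ 0) : ∃ r, v r ≠ 0 ∧ ∀ i, r < i → v i = 0 := by
  have h1 : (Finset.univ.filter fun i : Fin n => v i ≠ 0).Nonempty := by
    by_contra h
    rw [Finset.not_nonempty_iff_eq_empty] at h
    apply hv
    funext i
    by_contra h2
    have h3 : i ∈ Finset.univ.filter fun i : Fin n => v i ≠ 0 :=
      Finset.mem_filter.2 ⟨Finset.mem_univ i, h2⟩
    rw [h] at h3
    exact absurd h3 (Finset.notMem_empty i)
  obtain ⟨r, hr, hmax⟩ := Finset.exists_max_image _ (fun i => i) h1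
  refine ⟨r, (Finset.mem_filter.1 hr).2, fun i hi => ?_⟩
  by_contra h2
  exact absurd (hmax i (Finset.mem_filter.2 ⟨Finset.mem_univ i, h2⟩)) (not_le.2 hi)

omit [Finite F] [CharP F 2] in
private theorem top_mid (hn : Even n) (ha : a = 0 ∨ Aniso a) {v : Fin n → F} (hQ : Qa n a v = 0) {r : Fin n}
    (hr : v r ≠ 0) (htop : ∀ i, r < i → v i = 0) : a = 0 ∨ ¬ Mid n r := by
  rcases ha with ha | ha
  · exact Or.inl ha
  refine Or.inr fun hm => ?_
  have hn2 : n % 2 = 0 := Nat.even_iff.1 hn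
  have hrl := r.isLt
  have hpos : 0 < n / 2 := by omega
  obtain ⟨i0, hi0⟩ : ∃ i0 : Fin n, (i0 : ℕ) = n / 2 - 1 := ⟨⟨n / 2 - 1, by omega⟩, rfl⟩
  obtain ⟨j0, hj0⟩ : ∃ j0 : Fin n, (j0 : ℕ) = n / 2 := ⟨⟨n / 2, by omega⟩, rfl⟩
  have hrev : Fin.rev i0 = j0 := by
    apply Fin.ext
    have h1 : ((Fin.rev i0 : Fin n) : ℕ) = n - (i0 + 1) := Fin.val_rev i0
    omega
  have hne : i0 ≠ j0 := by
    intro h
    have h1 : (i0 : ℕ) = (j0 : ℕ) := congrArg Fin.val h
    omega
  have hs1 : (∑ i : Fin n, if (i : ℕ) < n / 2 then v i * v (Fin.rev i) else 0) = v i0 * v j0 := by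
    rw [Finset.sum_eq_single i0]
    · rw [if_pos (by omega), hrev]
    · intro i _ hi
      split_ifs with h3
      · have h4 : ((Fin.rev i : Fin n) : ℕ) = n - (i + 1) := Fin.val_rev i
        have h5 : (i : ℕ) ≠ n / 2 - 1 := fun h => hi (Fin.ext (by omega))
        rw [htop (Fin.rev i) (by unfold Mid at hm; rw [Fin.lt_def, h4]; omega), mul_zero]
      · rfl
    · exact fun h => absurd (Finset.mem_univ _) h
  have hs2 : (∑ i : Fin n, if Mid n i then v i ^ 2 else 0) = v i0 ^ 2 + v j0 ^ 2 := by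
    rw [← Finset.sum_filter]
    have h6 : (Finset.univ.filter fun i : Fin n => Mid n i) = {i0, j0} := by
      ext i
      rw [Finset.mem_filter, Finset.mem_insert, Finset.mem_singleton]
      unfold Mid
      rw [Fin.ext_iff, Fin.ext_iff, hi0, hj0]
      have h7 : i ∈ (Finset.univ : Finset (Fin n)) := Finset.mem_univ i
      constructor
      · rintro ⟨-, h | h⟩
        · left; omega
        · right; exact h
      · rintro (h | h)
        · exact ⟨h7, Or.inl (by omega)⟩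
        · exact ⟨h7, Or.inr h⟩
    rw [h6, Finset.sum_pair hne]
  rw [Qa, hs1, hs2, add_comm] at hQ
  obtain ⟨h8, h9⟩ := ha _ _ hQ
  unfold Mid at hm
  rcases hm with hm | hm
  · apply hr
    rw [← h8]
    exact congrArg v (Fin.ext (by omega))
  · apply hr
    rw [← h9]
    exact congrArg v (Fin.ext (by omega))

omit [Finite F] [CharP F 2] in
private theorem mv_ne_zero' {h : GL (Fin n) F} {x : Fin n → F} (hx : x ≠ 0) : mv h x ≠ 0 := by
  intro h0
  apply hx
  have h1 := mv_inv h x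
  rw [h0, mv_zero] at h1
  exact h1.symm

omit [Finite F] [CharP F 2] in
private theorem sv_ne_zero' (i : Fin n) : (sv i : Fin n → F) ≠ 0 := by
  intro h
  have h1 := congrFun h i
  rw [sv_eq] at h1
  exact one_ne_zero h1

theorem bstep (hn : Even n) (ha : a = 0 ∨ Aniso a) {k : ℕ} (hk : (a = 0 ∧ 2 * k + 2 ≤ n) ∨ 2 * k + 4 ≤ n)
    {M : GL (Fin n) F} (hM : M ∈ OQ n a) (h : BDn a k M) :
    ∃ x ∈ UZ n a, ∃ y ∈ UZ n a, BDn a (k + 1) (x * M * y) := by
  have hn2 : n % 2 = 0 := Nat.even_iff.1 hn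
  have hk2 : 2 * k + 2 ≤ n := by
    rcases hk with h1 | h1
    · exact h1.2
    · omega
  obtain ⟨q, hq⟩ : ∃ q : Fin n, (q : ℕ) = k := ⟨⟨k, by omega⟩, rfl⟩
  have hqr : ((Fin.rev q : Fin n) : ℕ) = n - (k + 1) := by rw [Fin.val_rev, hq]
  have hmq : a = 0 ∨ ¬ Mid n q := by
    rcases hk with h1 | h1
    · exact Or.inl h1.1
    · right
      unfold Mid
      omega
  have hsing : ∀ p : Fin n, (a = 0 ∨ ¬ Mid n p) → Qa n a (sv p) = 0 := by
    intro p hp
    rcases hp with hp | hp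
    · rw [hp]
      exact Qa_sv_zero hn p
    · exact Qa_sv a hn hp
  have hrevm : ∀ p : Fin n, (a = 0 ∨ ¬ Mid n p) → (a = 0 ∨ ¬ Mid n (Fin.rev p)) := by
    intro p hp
    rcases hp with hp | hp
    · exact Or.inl hp
    · exact Or.inr (fun h1 => hp ((Mid_rev hn).1 h1))
  have hjq : ∀ j : Fin n, (j : ℕ) < k → j ≠ q := by
    rintro j hj rfl
    omega
  have hjq' : ∀ j : Fin n, (j : ℕ) < k → Fin.rev j ≠ q := by
    intro j hj h1
    have h2 : ((Fin.rev j : Fin n) : ℕ) = n - (j + 1) := Fin.val_rev j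
    rw [h1, hq] at h2
    omega
  obtain ⟨v, hv⟩ : ∃ v, v = mv M (sv q) := ⟨_, rfl⟩
  have hv0 : v ≠ 0 := by
    rw [hv]
    exact mv_ne_zero' (sv_ne_zero' _)
  have hvQ : Qa n a v = 0 := by
    rw [hv, hM, hsing q hmq]
  -- the values of `v` at the places of the former columns
  have hvr : ∀ j : Fin n, (j : ℕ) < k → ∀ (r : Fin n) (c : F), c ≠ 0 → mv M (sv j) = c • sv r →
      mv M (sv (Fin.rev j)) = c⁻¹ • sv (Fin.rev r) → v r = 0 ∧ v (Fin.rev r) = 0 := by
    intro j hj r c hc h1 h2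
    constructor
    · have h3 := OQ_bf hn hM (sv (Fin.rev j)) (sv q)
      rw [h2, ← hv, bf_smul_left, bf_sv_left, bf_sv_left, Fin.rev_rev, Fin.rev_rev, sv_ne (hjq j hj)] at h3
      exact (mul_eq_zero.1 h3).resolve_left (inv_ne_zero hc)
    · have h3 := OQ_bf hn hM (sv j) (sv q)
      rw [h1, ← hv, bf_smul_left, bf_sv_left, bf_sv_left, sv_ne (hjq' j hj)] at h3
      exact (mul_eq_zero.1 h3).resolve_left hc
  obtain ⟨r, hr, htop⟩ := exists_top hv0
  have hrm : a = 0 ∨ ¬ Mid n r := top_mid hn ha hvQ hr htop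
  have hbv : bf (sv (Fin.rev r)) v = v r := by rw [bf_sv_left, Fin.rev_rev]
  obtain ⟨hb1, hb2⟩ := eo_move hn (a := a) (v := sv (Fin.rev r)) (w := v) (w' := v r • sv r)
    (by rw [hvQ, Qa_smul, hsing r hrm, mul_zero])
    (by rw [hbv, bf_smul_right, bf_sv_left, Fin.rev_rev, sv_eq, mul_one])
    (by rw [hbv]; exact hr)
  rw [hbv] at hb1 hb2
  obtain ⟨b, hb⟩ : ∃ b, b = (v r)⁻¹ • (v + v r • (sv r : Fin n → F)) := ⟨_, rfl⟩
  rw [← hb] at hb1 hb2
  have hbi : ∀ i, b i = (v r)⁻¹ * (v i + v r * (sv r : Fin n → F) i) := by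
    intro i
    rw [hb]
    rfl
  have hbz : ∀ i, r ≤ i → b i = 0 := by
    intro i hi
    rw [hbi]
    rcases eq_or_lt_of_le hi with h1 | h1
    · rw [← h1, sv_eq, mul_one, CharTwo.add_self_eq_zero, mul_zero]
    · rw [htop i h1, sv_ne (ne_of_gt h1), mul_zero, add_zero, mul_zero]
  have hxU : eo a (sv (Fin.rev r)) b ∈ UZ n a := by
    refine eo_UZ hn (hrevm r hrm) fun i hi => hbz i ?_
    rw [Fin.rev_rev] at hi
    exact hi
  obtain ⟨x, hx⟩ : ∃ x, x = eo a (sv (Fin.rev r)) b := ⟨_, rfl⟩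
  rw [← hx] at hb2 hxU
  -- `x` fixes the standard vectors of the former columns
  have hxfix : ∀ r' : Fin n, v r' = 0 → v (Fin.rev r') = 0 → mv x (sv r') = sv r' := by
    intro r' h1 h2
    have h3 : r ≠ r' := by
      rintro rfl
      exact hr h1
    have h4 : Fin.rev r' ≠ r := by
      intro h5
      rw [h5] at h2
      exact hr h2
    rw [hx]
    refine eo_fix hn a hb1 ?_ ?_
    · rw [bf_sv_left, Fin.rev_rev, sv_ne h3]
    · rw [bf_sv_right, hbi, h2, sv_ne h4, mul_zero, add_zero, mul_zero]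
  obtain ⟨M', hM'⟩ : ∃ M', M' = x * M := ⟨_, rfl⟩
  have hM'O : M' ∈ OQ n a := by
    rw [hM']
    exact Subgroup.mul_mem _ (Om_le n a (UZ_le n a hxU)) hM
  have hcol : ∀ j : Fin n, (j : ℕ) < k → ∃ (r' : Fin n) (c : F), c ≠ 0 ∧ (a = 0 ∨ ¬ Mid n r') ∧
      mv M' (sv j) = c • sv r' ∧ mv M' (sv (Fin.rev j)) = c⁻¹ • sv (Fin.rev r') ∧ r ≠ r' ∧ r ≠ Fin.rev r' := by
    intro j hj
    obtain ⟨r', c, hc, hm, h1, h2⟩ := h j hj
    obtain ⟨h3, h4⟩ := hvr j hj r' c hc h1 h2
    refine ⟨r', c, hc, hm, ?_, ?_, ?_, ?_⟩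
    · rw [hM', mv_mul, h1, mv_smul, hxfix r' h3 h4]
    · rw [hM', mv_mul, h2, mv_smul, hxfix (Fin.rev r') h4 (by rw [Fin.rev_rev]; exact h3)]
    · rintro rfl
      exact hr h3
    · rintro h5
      rw [h5] at hr
      exact hr h4
  have hcolq : mv M' (sv q) = v r • sv r := by
    rw [hM', mv_mul, ← hv, hb2]
  obtain ⟨w, hw⟩ : ∃ w, w = mv M'⁻¹ ((v r)⁻¹ • sv (Fin.rev r)) := ⟨_, rfl⟩
  have hMw : mv M' w = (v r)⁻¹ • sv (Fin.rev r) := by
    rw [hw, mv_inv']
  have hwQ : Qa n a w = 0 := by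
    rw [← hM'O w, hMw, Qa_smul, hsing _ (hrevm r hrm), mul_zero]
  have hqw : bf (sv q) w = 1 := by
    rw [← OQ_bf hn hM'O, hMw, hcolq, bf_smul_left, bf_smul_right, bf_sv_left, sv_eq, mul_one,
      mul_inv_cancel₀ hr]
  have hqq : bf (sv q) (sv (Fin.rev q) : Fin n → F) = 1 := by
    rw [bf_sv_left, sv_eq]
  obtain ⟨hc1, hc2⟩ := eo_move hn (a := a) (v := sv q) (w := sv (Fin.rev q)) (w' := w)
    (by rw [hwQ, hsing _ (hrevm q hmq)]) (by rw [hqq, hqw]) (by rw [hqq]; exact one_ne_zero)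
  rw [hqq, inv_one, one_smul] at hc1 hc2
  obtain ⟨b', hb'⟩ : ∃ b', b' = (sv (Fin.rev q) : Fin n → F) + w := ⟨_, rfl⟩
  rw [← hb'] at hc1 hc2
  have hbi' : ∀ i, b' i = (sv (Fin.rev q) : Fin n → F) i + w i := by
    intro i
    rw [hb']
    rfl
  -- the values of `w`
  have hwj : ∀ j : Fin n, (j : ℕ) < k → w j = 0 ∧ w (Fin.rev j) = 0 := by
    intro j hj
    obtain ⟨r', c, hc, hm, h1, h2, h3, h4⟩ := hcol j hj
    constructor
    · have h5 := OQ_bf hn hM'O (sv (Fin.rev j)) w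
      rw [h2, hMw, bf_smul_left, bf_smul_right, bf_sv_left, bf_sv_left, Fin.rev_rev, Fin.rev_rev] at h5
      rw [← h5, sv_ne (fun h6 => h4 (by rw [h6, Fin.rev_rev])), mul_zero, mul_zero]
    · have h5 := OQ_bf hn hM'O (sv j) w
      rw [h1, hMw, bf_smul_left, bf_smul_right, bf_sv_left, bf_sv_left] at h5
      rw [← h5, sv_ne (fun h6 => h3 (Fin.rev_injective h6).symm), mul_zero, mul_zero]
  have hbz' : ∀ i, Fin.rev q ≤ i → b' i = 0 := by
    intro i hi
    rcases eq_or_lt_of_le hi with h1 | h1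
    · have h2 : w (Fin.rev q) = 1 := by
        rw [← hqw, bf_sv_left]
      rw [← h1, hbi', sv_eq, h2, CharTwo.add_self_eq_zero]
    · have h2 : ((Fin.rev i : Fin n) : ℕ) = n - (i + 1) := Fin.val_rev i
      have h3 := i.isLt
      rw [Fin.lt_def, hqr] at h1
      have h4 := (hwj (Fin.rev i) (by omega)).2
      rw [Fin.rev_rev] at h4
      rw [hbi', h4, add_zero, sv_ne]
      intro h5
      rw [h5, hqr] at h1
      exact lt_irrefl _ h1
  have hyU : eo a (sv q) b' ∈ UZ n a := eo_UZ hn hmq hbz'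
  obtain ⟨y, hy⟩ : ∃ y, y = eo a (sv q) b' := ⟨_, rfl⟩
  rw [← hy] at hc2 hyU
  have hyq : mv y (sv q) = sv q := by
    rw [hy]
    refine eo_fix hn a hc1 (bf_self hn _) ?_
    rw [bf_comm, hc1]
  have hyj : ∀ j : Fin n, (j : ℕ) < k → mv y (sv j) = sv j ∧ mv y (sv (Fin.rev j)) = sv (Fin.rev j) := by
    intro j hj
    have h1 : Fin.rev q ≠ j := fun h2 => hjq' j hj (by rw [← h2, Fin.rev_rev])
    constructor
    · rw [hy]
      refine eo_fix hn a hc1 ?_ ?_
      · rw [bf_sv_left, sv_ne h1]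
      · rw [bf_sv_right, hbz']
        rw [Fin.rev_le_rev, Fin.le_def, hq]
        omega
    · rw [hy]
      refine eo_fix hn a hc1 ?_ ?_
      · rw [bf_sv_left, sv_ne (fun h2 => hjq j hj (Fin.rev_injective h2).symm)]
      · rw [bf_sv_right, Fin.rev_rev, hbi', (hwj j hj).1, add_zero, sv_ne (fun h2 => h1 h2.symm)]
  refine ⟨x, hxU, y, hyU, ?_⟩
  rw [← hM']
  intro j hj
  by_cases h1 : (j : ℕ) < k
  · obtain ⟨r', c, hc, hm, h2, h3, -, -⟩ := hcol j h1
    refine ⟨r', c, hc, hm, ?_, ?_⟩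
    · rw [mv_mul, (hyj j h1).1, h2]
    · rw [mv_mul, (hyj j h1).2, h3]
  · have h2 : j = q := Fin.ext (by omega)
    refine ⟨r, v r, hr, hrm, ?_, ?_⟩
    · rw [h2, mv_mul, hyq, hcolq]
    · rw [h2, mv_mul, hc2, hMw]

end

end OR
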