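import Pool.Agent.OR.I13

/-!
# MP_6c3636_al, OR, module I14: the Bruhat decomposition, (S9) at zo (stub of helper40)

Induction with `bstep`: for `g ∈ OQ n a` there are `x, y ∈ UZ n a` with `BDn a K (x * g * y)`, `K = n / 2` if `a = 0` and `K = n / 2 - 1` if `a ≠ 0` (`UZ_le`, `Om_le`). `BD_IsN`: `M ∈ OQ n a`, `BDn a K M` imply `∃ π, IsN a M π`: `π j = r` for `j < K`, `π (rev j) = rev r`, and `π j = j` for the middle indices if `a ≠ 0`; `π` is injective (`M` is invertible: the vectors `mv M (sv j)` are linearly independent, or `bf`: `bf (mv M (sv j)) (mv M (sv j')) = bf (sv j) (sv j')`); for `a ≠ 0` a middle column `mv M (sv j)` is orthogonal to the `mv M (sv j')`, `j'` not in the middle, so its coordinates at all indices `rev r'`, `r'` vanish, and these are all indices outside of the middle (`π` is a bijection of the indices outside of the middle: `Finset` / `Finite.injective_iff_surjective`). So `g = x⁻¹ * (x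 * g * y) * y⁻¹`, and `x * g * y ∈ NO n a` by `mem_NO`.
-/

namespace OR

noncomputable section

open Classical Matrix CF

open LieP (En UG UL Lin)

open LieP.GI (pinv pinv' UU mem_UU mem_UL)

variable {n : ℕ} {F : Type} [Field F] [Finite F] [CharP F 2] {a : F}

private theorem I14_outer (hn : Even n) {M : GL (Fin n) F} {K : ℕ}
    (hK : (a = 0 ∧ 2 * K = n) ∨ (a ≠ 0 ∧ 2 * K + 2 = n)) (h : BDn a K M) {j : Fin n} (hj : a = 0 ∨ ¬ Mid n j) :
    ∃ (r : Fin n) (c : F), c ≠ 0 ∧ (a = 0 ∨ ¬ Mid n r) ∧ mv M (sv j) = c • sv r := by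
  have h1 : (j : ℕ) < K ∨ ((Fin.rev j : Fin n) : ℕ) < K := by
    rw [Fin.val_rev]
    have h2 := j.2
    rcases hK with h3 | h3
    · omega
    · have h4 : ¬ Mid n j := hj.resolve_left h3.1
      unfold Mid at h4
      omega
  rcases h1 with h1 | h1
  · obtain ⟨r, c, hc, hr, h2, -⟩ := h j h1
    exact ⟨r, c, hc, hr, h2⟩
  · obtain ⟨r, c, hc, hr, -, h2⟩ := h _ h1
    rw [Fin.rev_rev] at h2
    exact ⟨Fin.rev r, c⁻¹, inv_ne_zero hc, hr.imp id (fun h3 h4 => h3 ((Mid_rev hn).1 h4)), h2⟩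

theorem BD_IsN (hn : Even n) {M : GL (Fin n) F} (hM : M ∈ OQ n a) {K : ℕ}
    (hK : (a = 0 ∧ 2 * K = n) ∨ (a ≠ 0 ∧ 2 * K + 2 = n)) (h : BDn a K M) : ∃ π, IsN a M π := by
  have hex : ∀ j : Fin n, ∃ r : Fin n, ((a = 0 ∨ ¬ Mid n j) → (a = 0 ∨ ¬ Mid n r) ∧
      ∃ c : F, c ≠ 0 ∧ mv M (sv j) = c • sv r) ∧ (¬ (a = 0 ∨ ¬ Mid n j) → r = j) := by
    intro j
    by_cases hj : a = 0 ∨ ¬ Mid n j
    · obtain ⟨r, c, hc, hr, h2⟩ := I14_outer hn hK h hj
      exact ⟨r, fun _ => ⟨hr, c, hc, h2⟩, fun h3 => absurd hj h3⟩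
    · exact ⟨j, fun h3 => absurd h3 hj, fun _ => rfl⟩
  choose ρ hρ hρ' using hex
  have hinj : Function.Injective ρ := by
    intro j j' hjj
    by_cases hj : a = 0 ∨ ¬ Mid n j
    · by_cases hj' : a = 0 ∨ ¬ Mid n j'
      · obtain ⟨-, c, hc, h1⟩ := hρ j hj
        obtain ⟨-, c', hc', h1'⟩ := hρ j' hj'
        have h2 : mv M (c⁻¹ • sv j) = mv M (c'⁻¹ • sv j') := by
          rw [mv_smul, mv_smul, h1, h1', smul_smul, smul_smul, inv_mul_cancel₀ hc, inv_mul_cancel₀ hc', hjj]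
        have h3 : c⁻¹ • (sv j : Fin n → F) = c'⁻¹ • sv j' := by
          rw [← mv_inv M (c⁻¹ • sv j), h2, mv_inv]
        by_contra hne
        have h4 := congrFun h3 j
        rw [Pi.smul_apply, Pi.smul_apply, sv, sv, Pi.single_eq_same, Pi.single_eq_of_ne hne, smul_zero,
          smul_eq_mul, mul_one] at h4
        exact inv_ne_zero hc h4
      · exact absurd (by rw [← hρ' j' hj', ← hjj]; exact (hρ j hj).1) hj'
    · by_cases hj' : a = 0 ∨ ¬ Mid n j'
      · exact absurd (by rw [← hρ' j hj, hjj]; exact (hρ j' hj').1) hj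
      · rw [← hρ' j hj, ← hρ' j' hj', hjj]
  have hsurj : Function.Surjective ρ := Finite.injective_iff_surjective.1 hinj
  refine ⟨Equiv.ofBijective ρ ⟨hinj, hsurj⟩, ?_, ?_⟩
  · intro i j hij hm
    have hij' : i ≠ ρ j := hij
    by_cases hj : a = 0 ∨ ¬ Mid n j
    · obtain ⟨-, c, hc, h1⟩ := hρ j hj
      rw [← mv_sv, h1, Pi.smul_apply, sv, Pi.single_eq_of_ne hij', smul_zero]
    · have ha : a ≠ 0 := fun h1 => hj (Or.inl h1)
      have hjm : Mid n j := by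
        by_contra h1
        exact hj (Or.inr h1)
      have him : ¬ Mid n i := fun h1 => hm ⟨ha, h1, hjm⟩
      obtain ⟨j', hj'⟩ := hsurj (Fin.rev i)
      have hj'o : a = 0 ∨ ¬ Mid n j' := by
        by_contra h1
        have h2 := hρ' j' h1
        rw [hj'] at h2
        apply h1
        rw [← h2]
        exact Or.inr (fun h3 => him ((Mid_rev hn).1 h3))
      obtain ⟨-, c, hc, h1⟩ := hρ j' hj'o
      have h2 := OQ_bf hn hM (sv j') (sv j)
      have h3 : Fin.rev j' ≠ j := by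
        intro h4
        apply hj'o.resolve_left ha
        rw [← Mid_rev hn, h4]
        exact hjm
      rw [h1, hj', bf_smul_left, bf_sv_left, Fin.rev_rev, mv_sv, bf_sv_left] at h2
      have h5 : (sv j : Fin n → F) (Fin.rev j') = 0 := by
        rw [sv, Pi.single_eq_of_ne h3]
      rw [h5] at h2
      exact (mul_eq_zero.1 h2).resolve_left hc
  · intro ha j hj
    exact hρ' j (fun h1 => h1.elim ha (fun h2 => h2 hj))

private theorem I14_red (hn : Even n) (ha : a = 0 ∨ Aniso a) {g : GL (Fin n) F} (hg : g ∈ Om n a) (k : ℕ)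
    (hk : (a = 0 ∧ 2 * k ≤ n) ∨ (a ≠ 0 ∧ 2 * k + 2 ≤ n)) :
    ∃ x ∈ UZ n a, ∃ y ∈ UZ n a, BDn a k (x * g * y) := by
  induction k with
  | zero => exact ⟨1, Subgroup.one_mem _, 1, Subgroup.one_mem _, fun j hj => absurd hj (Nat.not_lt_zero _)⟩
  | succ k ih =>
    obtain ⟨x, hx, y, hy, h1⟩ := ih (hk.imp (fun h => ⟨h.1, by omega⟩) (fun h => ⟨h.1, by omega⟩))
    have h2 : x * g * y ∈ OQ n a :=
      Om_le n a (Subgroup.mul_mem _ (Subgroup.mul_mem _ (UZ_le n a hx) hg) (UZ_le n a hy))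
    obtain ⟨x', hx', y', hy', h3⟩ := bstep hn ha
      (hk.imp (fun h => ⟨h.1, by omega⟩) (fun h => by have := h.2; omega)) h2 h1
    refine ⟨x' * x, Subgroup.mul_mem _ hx' hx, y * y', Subgroup.mul_mem _ hy hy', ?_⟩
    have h4 : x' * x * g * (y * y') = x' * (x * g * y) * y' := by group
    rw [h4]
    exact h3

theorem o_b9 (hn : Even n) (ha : a = 0 ∨ Aniso a) : ∀ g ∈ Om n a, ∃ u ∈ Uo (zo n a), ∃ m ∈ NO n a,
    ∃ u' ∈ Uo (zo n a), g = u * m * u' := by
  intro g hg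
  rcases Nat.eq_zero_or_pos n with h0 | h0
  · subst h0
    refine ⟨1, Subgroup.one_mem _, 1, Subgroup.one_mem _, 1, Subgroup.one_mem _, ?_⟩
    exact mv_ext fun j => j.elim0
  · have hK : ∃ K : ℕ, (a = 0 ∧ 2 * K = n) ∨ (a ≠ 0 ∧ 2 * K + 2 = n) := by
      obtain ⟨m, hm⟩ := hn
      by_cases h1 : a = 0
      · exact ⟨m, Or.inl ⟨h1, by omega⟩⟩
      · exact ⟨m - 1, Or.inr ⟨h1, by omega⟩⟩
    obtain ⟨K, hK⟩ := hK
    obtain ⟨x, hx, y, hy, h1⟩ := I14_red hn ha hg K (hK.imp (fun h => ⟨h.1, h.2.le⟩) (fun h => ⟨h.1, h.2.le⟩))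
    have h2 : x * g * y ∈ Om n a := Subgroup.mul_mem _ (Subgroup.mul_mem _ (UZ_le n a hx) hg) (UZ_le n a hy)
    refine ⟨x⁻¹, Subgroup.inv_mem _ hx, x * g * y, mem_NO.2 ⟨h2, BD_IsN hn (Om_le n a h2) hK h1⟩, y⁻¹,
      Subgroup.inv_mem _ hy, ?_⟩
    group

end

end OR
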