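import Pool.Agent.OR.I07

/-!
# MP_6c3636_al, OR, module I15: the entries at the simple pairs (helper40)

The entries at the simple pairs are additive on `UZ n a`; the root elements `xs a i j s`.
-/

namespace OR

noncomputable section

open Classical Matrix CF

open LieP (En UG UL Lin)

open LieP.GI (pinv pinv' UU mem_UU mem_UL)

variable {n : ℕ} {F : Type} [Field F] [Finite F] [CharP F 2] {a : F}

open I07_aux in
theorem sm_add (hn : Even n) {u v : GL (Fin n) F} (hu : u ∈ UZ n a) (hv : v ∈ UZ n a) {i j : Fin n}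
    (h : Sm n i j) : ((u * v : GL (Fin n) F) : Matrix (Fin n) (Fin n) F) i j =
      (u : Matrix (Fin n) (Fin n) F) i j + (v : Matrix (Fin n) (Fin n) F) i j := by
  rw [mem_UZ hn] at hu hv
  have hne := h.ne
  have hii : (u : Matrix (Fin n) (Fin n) F) i i = 1 := by
    rw [hu.2 i i (fun h1 => lt_irrefl _ h1.1), Matrix.one_apply_eq]
  have hjj : (v : Matrix (Fin n) (Fin n) F) j j = 1 := by
    rw [hv.2 j j (fun h1 => lt_irrefl _ h1.1), Matrix.one_apply_eq]
  rw [Units.val_mul, Matrix.mul_apply]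
  have key : ∀ k : Fin n, k ≠ i → k ≠ j →
      (u : Matrix (Fin n) (Fin n) F) i k * (v : Matrix (Fin n) (Fin n) F) k j = 0 := by
    intro k hki hkj
    by_contra h0
    have h1 : pl n i k := by
      by_contra h2
      apply left_ne_zero_of_mul h0
      rw [hu.2 i k h2, Matrix.one_apply_ne hki.symm]
    have h2 : pl n k j := by
      by_contra h3
      apply right_ne_zero_of_mul h0
      rw [hv.2 k j h3, Matrix.one_apply_ne hkj]
    have h3 := h1.1
    have h4 := h2.1
    have h5 := h2.2
    rw [Fin.lt_def] at h3 h4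
    unfold Sm at h
    unfold Mid at h5
    omega
  rw [← Finset.sum_subset (Finset.subset_univ ({i, j} : Finset (Fin n)))]
  · rw [Finset.sum_pair hne, hii, hjj, one_mul, mul_one, add_comm]
  · intro k _ hk
    rw [Finset.mem_insert, Finset.mem_singleton, not_or] at hk
    exact key k hk.1 hk.2

theorem sm_inv (hn : Even n) {u : GL (Fin n) F} (hu : u ∈ UZ n a) {i j : Fin n} (h : Sm n i j) :
    ((u⁻¹ : GL (Fin n) F) : Matrix (Fin n) (Fin n) F) i j = (u : Matrix (Fin n) (Fin n) F) i j := by
  have h1 := sm_add hn hu ((UZ n a).inv_mem hu) h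
  rw [mul_inv_cancel, Units.val_one, Matrix.one_apply_ne h.ne] at h1
  exact (CharTwo.add_eq_zero.1 h1.symm).symm

theorem xs_U (hn : Even n) {i j : Fin n} (h : Sm n i j) (s : F) {y : EA n a} (hy : cx y j < cx y i) :
    xs a i j s ∈ Uo y := rt_U hn s (Or.inr h.nmid) h.ne_rev hy

theorem xs_mem (hn : Even n) {i j : Fin n} (h : Sm n i j) (s : F) : xs a i j s ∈ UZ n a :=
  xs_U hn h s (h.pl.zo hn)

theorem xs_L (hn : Even n) {i j : Fin n} (h : Sm n i j) (s : F) {y : EA n a} (hy : cx y i = cx y j) :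
    xs a i j s ∈ Lo y := rt_L hn s (Or.inr h.nmid) h.ne h.ne_rev hy

theorem xs_entry (hn : Even n) {i j p q : Fin n} (h : Sm n i j) (h' : Sm n p q) (s : F) :
    (xs a i j s : Matrix (Fin n) (Fin n) F) p q = if p = i ∧ q = j then s else 0 := by
  have h1 : ¬ (p = Fin.rev j ∧ q = Fin.rev i) := by
    rintro ⟨h1, -⟩
    have h2 := Fin.val_rev j
    have h3 := j.2
    rw [← h1] at h2
    unfold Sm at h h'
    omega
  have h2 : ¬ (p = i ∧ q = Fin.rev i) := by
    rintro ⟨-, h1⟩
    have h2 := Fin.val_rev i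
    have h3 := i.2
    rw [← h1] at h2
    unfold Sm at h h'
    omega
  unfold xs
  rw [rt_entry hn s h.ne, if_neg h1, if_neg h2, add_zero, add_zero, Matrix.one_apply_ne h'.ne, zero_add]

theorem xs_mul (hn : Even n) {i j : Fin n} (h : Sm n i j) (s t : F) :
    xs a i j s * xs a i j t = xs a i j (s + t) := by
  unfold xs
  rw [eo_mul hn a (I07_aux.perp s h.ne) (I07_aux.perp t h.ne), add_smul]

theorem xs_zero (hn : Even n) {i j : Fin n} (h : Sm n i j) : xs a i j (0 : F) = 1 := by
  unfold xs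
  rw [zero_smul, eo_zero_right a hn]

end

end OR
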