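import Pool.Agent.OR.I13
import Pool.Agent.OR.E10

/-!
# MP_6c3636_al, OR, module I16: decomposition of the elements of UZ (stub of helper40)

As `E10_aux.main` (E10). `dec_step`: `mv u (sv i)` is orthogonal to all `sv j`, `sv (rev j)`, `j < k`, (`OQ_bf`), so it is in `Wk n k F`, and `u` is unitriangular (`mem_UZ`), so `mv u (sv i) = sv i`. `w = mv u (sv (rev i))` is in `Wk n k F`, singular (`Qa_sv`), `bf (sv i) w = 1`, so `w (rev i) = 1`. `b₀ = w + sv (rev i)`, `b = b₀ + b₀ i • sv i` is in `Wk n (k + 1) F`, and `eo a (sv i) b = eo a (sv i) b₀` (`eo_shift`), which maps `sv (rev i)` to `w` (`eo_move`) and fixes `sv i`, `sv j`, `sv (rev j)`, `j < k` (`eo_fix`). It is its own inverse (`eo_inv`), so `eo a (sv i) b * u` fixes `sv (rev i)` and the other vectors. `eo_UZ` (I13).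
`eo_sm`: entries of `eo a (sv i) b` (`mv_sv`, `mv_eo`): `Sm n p q` and the term with `b p` in the column `rev i` is impossible (`q ≤ n / 2 < rev i` as `2 * i + 4 ≤ n`), so only the row `i`.
-/

namespace OR

noncomputable section

open Classical Matrix CF

open LieP (En UG UL Lin)

open LieP.GI (pinv pinv' UU mem_UU mem_UL)

variable {n : ℕ} {F : Type} [Field F] [Finite F] [CharP F 2] {a : F}

namespace I16_aux

open CF.W09_aux (sv_ne sv_self coord coord')

theorem nmid {k : ℕ} (hk : 2 * k + 4 ≤ n) {i : Fin n} (hi : (i : ℕ) = k) : ¬ Mid n i := by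
  unfold Mid
  omega

theorem rev_val {k : ℕ} {i : Fin n} (hi : (i : ℕ) = k) : ((Fin.rev i : Fin n) : ℕ) = n - (k + 1) := by
  rw [Fin.val_rev, hi]

end I16_aux

open I16_aux

open CF.W09_aux (sv_ne sv_self coord coord')

theorem dec_step (hn : Even n) {k : ℕ} (hk : 2 * k + 4 ≤ n) {i : Fin n} (hi : (i : ℕ) = k) {u : GL (Fin n) F}
    (hu : u ∈ UZ n a) (hfix : ∀ j : Fin n, (j : ℕ) < k → mv u (sv j) = sv j ∧ mv u (sv (Fin.rev j)) = sv (Fin.rev j)) :
    ∃ b ∈ Wk n (k + 1) F, eo a (sv i) b ∈ UZ n a ∧ ∀ j : Fin n, (j : ℕ) < k + 1 →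
      mv (eo a (sv i) b * u) (sv j) = sv j ∧ mv (eo a (sv i) b * u) (sv (Fin.rev j)) = sv (Fin.rev j) := by
  obtain ⟨hO, hent⟩ := (mem_UZ hn).1 hu
  have hU : u ∈ Ug n (RingEquiv.refl F) := OQ_le_Ug hn a hO
  have hrev := rev_val hi
  have hmid := nmid hk hi
  have hlt : i < Fin.rev i := by
    rw [Fin.lt_def, hrev, hi]
    omega
  have hne : i ≠ Fin.rev i := ne_of_lt hlt
  have hmid' : ¬ Mid n (Fin.rev i) := fun h => hmid ((Mid_rev hn).1 h)
  have hu1 : mv u (sv i) = sv i := by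
    funext l
    by_cases h1 : (l : ℕ) < k
    · exact coord' hU (hfix l h1).2 _
    · rw [mv_sv, hent l i (fun h => h1 (by rw [← hi]; exact h.1)), sv, Pi.single_apply, Matrix.one_apply]
  obtain ⟨w, hw⟩ : ∃ w, w = mv u (sv (Fin.rev i)) := ⟨_, rfl⟩
  have hvv : bf (sv i) (sv i : Fin n → F) = 0 := by
    rw [bf_sv_left, sv_ne hne.symm]
  have hvr : bf (sv i) (sv (Fin.rev i) : Fin n → F) = 1 := by
    rw [bf_sv_left, sv_self]
  have hvw : bf (sv i) w = 1 := by
    conv_lhs => rw [← hu1]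
    rw [hw, OQ_bf hn hO, hvr]
  have hqw : Qa n a (sv (Fin.rev i)) = Qa n a w := by
    rw [hw, hO]
  obtain ⟨hperp, hmove⟩ := eo_move hn hqw (hvr.trans hvw.symm) (by rw [hvr]; exact one_ne_zero)
  obtain ⟨b, hb⟩ : ∃ b : Fin n → F,
    b = (bf (sv i) (sv (Fin.rev i) : Fin n → F))⁻¹ • (sv (Fin.rev i) + w) := ⟨_, rfl⟩
  rw [← hb] at hperp hmove
  obtain ⟨c, hc⟩ : ∃ c : F, b = c • (sv (Fin.rev i) + w) := ⟨_, hb⟩
  have hb0 : ∀ l, Fin.rev i ≤ l → b l = 0 := by
    intro l hl
    rw [hc, Pi.smul_apply, Pi.add_apply, hw, mv_sv, hent l (Fin.rev i) (fun h => absurd h.1 (not_lt.2 hl)), sv,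
      Pi.single_apply, Matrix.one_apply, CharTwo.add_self_eq_zero, smul_zero]
  have hb' : ∀ j : Fin n, (j : ℕ) < k → b j = 0 := by
    intro j hj
    have h1 : j ≠ Fin.rev i := by
      intro h
      have h2 := congrArg Fin.val h
      rw [hrev] at h2
      omega
    rw [hc, Pi.smul_apply, Pi.add_apply, hw, coord' hU (hfix j hj).2, sv_ne h1, add_zero, smul_zero]
  have hshift : eo a (sv i) (b + b i • sv i) = eo a (sv i) b := eo_shift hn (Qa_sv a hn hmid) hperp (b i)
  refine ⟨b + b i • sv i, ?_, ?_, ?_⟩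
  · rw [mem_Wk]
    intro l hl
    rw [Pi.add_apply, Pi.smul_apply, smul_eq_mul]
    by_cases h1 : l = i
    · rw [h1, sv_self, mul_one, CharTwo.add_self_eq_zero]
    · rw [sv_ne h1, mul_zero, add_zero]
      by_cases h2 : (l : ℕ) < k
      · exact hb' l h2
      · refine hb0 l ?_
        rw [Fin.le_def, hrev]
        have h3 : (l : ℕ) ≠ k := fun h => h1 (Fin.ext (h.trans hi.symm))
        have := l.2
        omega
  · rw [hshift]
    exact eo_UZ hn (Or.inr hmid) hb0
  · intro j hj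
    rw [hshift, mv_mul, mv_mul]
    by_cases h1 : (j : ℕ) < k
    · rw [(hfix j h1).1, (hfix j h1).2]
      have h2 : Fin.rev i ≠ j := by
        intro h
        have h2 := congrArg Fin.val h
        rw [hrev] at h2
        omega
      have h3 : Fin.rev i ≠ Fin.rev j := by
        intro h
        have h4 := Fin.rev_injective h
        rw [← h4, hi] at h1
        exact lt_irrefl _ h1
      have h4 : Fin.rev i ≤ Fin.rev j := by
        rw [Fin.rev_le_rev, Fin.le_def, hi]
        omega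
      refine ⟨eo_fix hn a hperp ?_ ?_, eo_fix hn a hperp ?_ ?_⟩
      · rw [bf_sv_left, sv_ne h2]
      · rw [bf_sv_right, hb0 _ h4]
      · rw [bf_sv_left, sv_ne h3]
      · rw [bf_sv_right, Fin.rev_rev, hb' j h1]
    · have h2 : j = i := by
        apply Fin.ext
        omega
      rw [h2]
      refine ⟨?_, ?_⟩
      · rw [hu1]
        refine eo_fix hn a hperp hvv ?_
        rw [bf_sv_right, hb0 _ le_rfl]
      · rw [← hw, ← hmove]
        have h5 := mv_inv (eo a (sv i) b) (sv (Fin.rev i) : Fin n → F)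
        rw [eo_inv hn a hperp] at h5
        exact h5

theorem eo_sm (hn : Even n) {k : ℕ} (hk : 2 * k + 4 ≤ n) {i : Fin n} (hi : (i : ℕ) = k) {b : Fin n → F}
    (hb : b ∈ Wk n (k + 1) F) {p q : Fin n} (h : Sm n p q) :
    (eo a (sv i) b : Matrix (Fin n) (Fin n) F) p q = if p = i then b (Fin.rev q) else 0 := by
  have hrev := rev_val hi
  have hperp : bf (sv i) b = 0 := by
    rw [bf_sv_left]
    refine mem_Wk.1 hb _ ?_
    rw [hrev]
    omega
  have h1 : Fin.rev i ≠ q := by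
    intro h2
    have h3 := congrArg Fin.val h2
    rw [hrev] at h3
    unfold Sm at h
    omega
  rw [← mv_sv, mv_eo hn a hperp, bf_sv_left, sv_ne h1, bf_sv_right, zero_smul, mul_zero, zero_smul, add_zero,
    add_zero, Pi.add_apply, Pi.smul_apply, smul_eq_mul, sv_ne h.ne, zero_add]
  by_cases h2 : p = i
  · rw [if_pos h2, h2, sv_self, mul_one]
  · rw [if_neg h2, sv_ne h2, mul_zero]

end

end OR
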