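import Pool.Agent.OR.I13

/-!
# MP_6c3636_al, OR, module I17: commutators of Eichler elements (statement of helper40, proof of helper75)

Let `D = ⁅UZ n a, UZ n a⁆`, `e = sv i`, `e1 = sv i1`, `(i1 : ℕ) = k + 1`, `f1 = sv (rev i1)`; `i`, `i1` are not in the middle (`2 * k + 6 ≤ n`), so `Qa e = Qa e1 = 0`. For `z ∈ Wk n (k + 2) F` the element `g = eo a e1 z` is in `UZ` (`eo_UZ`), fixes `e` (`eo_fix`), and `mv g (c • f1) = c • f1 + c • z + (c * Qa z) • e1` (`mv_eo`; `bf e1 f1 = 1`, `bf z f1 = 0`). `g * eo a e (c • f1) * g⁻¹ * (eo a e (c • f1))⁻¹ = eo a e (mv g (c • f1) + c • f1)` (`eo_conj`, `eo_inv`, `eo_mul`; all these elements are in `UZ`), so `eo a e (c • z + (c * Qa z) • e1) ∈ D` (*). The set of the `b` with `bf e b = 0`, `eo a e b ∈ D` is closed under addition (`eo_mul`). Take `z1 = sv i2`, `z2 = sv (rev i2)`, `(i2 : ℕ) = k + 2` (both in `Wk n (k + 2) F`, `2 * k + 6 ≤ n`, `bf z1 z2 = 1`): the sum of (*) for `z1`, `z2`,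 `z1 + z2` is `c • e1` (`Qa_add`, characteristic two). So `eo a e (c • e1) ∈ D` for all `c` and by (*) `eo a e z ∈ D` for all `z ∈ Wk n (k + 2) F`. Finally `b = b i1 • e1 + z` with `z ∈ Wk n (k + 2) F` because `b (rev i1) = 0`.
-/

namespace OR

noncomputable section

open Classical Matrix CF

open LieP (En UG UL Lin)

open LieP.GI (pinv pinv' UU mem_UU mem_UL)

variable {n : ℕ} {F : Type} [Field F] [Finite F] [CharP F 2] {a : F}

private theorem eo_star (hn : Even n) {k : ℕ} (hk : 2 * k + 6 ≤ n) {i i1 : Fin n} (hi : (i : ℕ) = k)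
    (hi1 : (i1 : ℕ) = k + 1) {z : Fin n → F} (hz : z ∈ Wk n (k + 2) F) (c : F) :
    bf (sv i) (c • z + (c * Qa n a z) • sv i1) = 0 ∧
      eo a (sv i) (c • z + (c * Qa n a z) • sv i1) ∈ (⁅UZ n a, UZ n a⁆ : Subgroup (GL (Fin n) F)) := by
  rw [mem_Wk] at hz
  have hr := Fin.val_rev i
  have hr1 := Fin.val_rev i1
  have hM1 : ¬ Mid n i1 := by
    unfold Mid
    omega
  have hM : ¬ Mid n i := by
    unfold Mid
    omega
  have z1 : z i1 = 0 := hz _ (by omega)
  have zr1 : z (Fin.rev i1) = 0 := hz _ (by omega)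
  have zr : z (Fin.rev i) = 0 := hz _ (by omega)
  have n1 : Fin.rev i ≠ i1 := by
    rw [Ne, Fin.ext_iff]
    omega
  have n2 : Fin.rev i ≠ Fin.rev i1 := by
    rw [Ne, Fin.ext_iff]
    omega
  have n3 : Fin.rev i1 ≠ i := by
    rw [Ne, Fin.ext_iff]
    omega
  have s1 : (sv i1 : Fin n → F) (Fin.rev i) = 0 := Pi.single_eq_of_ne n1 1
  have s2 : (sv (Fin.rev i1) : Fin n → F) (Fin.rev i) = 0 := Pi.single_eq_of_ne n2 1
  have s3 : (sv i : Fin n → F) (Fin.rev i1) = 0 := Pi.single_eq_of_ne n3 1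
  have s4 : (sv (Fin.rev i1) : Fin n → F) (Fin.rev i1) = 1 := Pi.single_eq_same _ 1
  have b1 : bf (sv i1) z = 0 := by rw [bf_sv_left, zr1]
  have b2 : bf (sv i) (c • sv (Fin.rev i1) : Fin n → F) = 0 := by rw [bf_smul_right, bf_sv_left, s2, mul_zero]
  have b3 : bf (sv i) (c • z + (c * Qa n a z) • sv i1) = 0 := by
    rw [bf_add_right, bf_smul_right, bf_smul_right, bf_sv_left, bf_sv_left, zr, s1, mul_zero, mul_zero, add_zero]
  refine ⟨b3, ?_⟩
  have hg : eo a (sv i1) z ∈ UZ n a := eo_UZ hn (Or.inr hM1) (fun j hj => hz j (by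
    rw [Fin.le_def] at hj
    omega))
  have hh : eo a (sv i) (c • sv (Fin.rev i1)) ∈ UZ n a := eo_UZ hn (Or.inr hM) (fun j hj => by
    have hne : j ≠ Fin.rev i1 := by
      rw [Fin.le_def] at hj
      rw [Ne, Fin.ext_iff]
      omega
    have h0 : (sv (Fin.rev i1) : Fin n → F) j = 0 := Pi.single_eq_of_ne hne 1
    rw [Pi.smul_apply, h0, smul_zero])
  have hc := Subgroup.commutator_mem_commutator hg hh
  have hfix : mv (eo a (sv i1) z) (sv i) = sv i := by
    refine eo_fix hn a b1 ?_ ?_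
    · rw [bf_sv_left, s3]
    · rw [bf_sv_right, zr]
  have hmv : mv (eo a (sv i1) z) (c • sv (Fin.rev i1)) =
      c • sv (Fin.rev i1) + (c • z + (c * Qa n a z) • sv i1) := by
    rw [mv_eo hn a b1, bf_smul_right, bf_sv_left, s4, bf_smul_right, bf_sv_right, Fin.rev_rev, z1, mul_one,
      mul_zero, zero_smul, add_zero, mul_comm (Qa n a z) c, add_assoc]
  have b4 : bf (sv i) (c • sv (Fin.rev i1) + (c • z + (c * Qa n a z) • sv i1)) = 0 := by
    rw [bf_add_right, b2, b3, add_zero]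
  have hval : eo a (sv i1) z * eo a (sv i) (c • sv (Fin.rev i1)) * (eo a (sv i1) z)⁻¹ *
      (eo a (sv i) (c • sv (Fin.rev i1)))⁻¹ = eo a (sv i) (c • z + (c * Qa n a z) • sv i1) := by
    rw [eo_conj hn (Om_le n a (UZ_le n a hg)) b2, hfix, hmv, eo_inv hn a b2, eo_mul hn a b4 b2]
    have e : c • sv (Fin.rev i1) + (c • z + (c * Qa n a z) • sv i1) + c • sv (Fin.rev i1) =
        (c • z + (c * Qa n a z) • sv i1) + (c • sv (Fin.rev i1) + c • sv (Fin.rev i1)) := by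
      abel
    rw [e, vec_add_self, add_zero]
  rw [commutatorElement_def, hval] at hc
  exact hc

theorem eo_comm (hn : Even n) {k : ℕ} (hk : 2 * k + 6 ≤ n) {i i1 : Fin n} (hi : (i : ℕ) = k) (hi1 : (i1 : ℕ) = k + 1)
    {b : Fin n → F} (hb : b ∈ Wk n (k + 1) F) (hb1 : b (Fin.rev i1) = 0) :
    eo a (sv i) b ∈ (⁅UZ n a, UZ n a⁆ : Subgroup (GL (Fin n) F)) := by
  have hr := Fin.val_rev i
  have hr1 := Fin.val_rev i1
  have star := fun {z : Fin n → F} (hz : z ∈ Wk n (k + 2) F) (c : F) => eo_star (a := a) hn hk hi hi1 hz c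
  have add : ∀ {u v : Fin n → F}, bf (sv i) u = 0 ∧ eo a (sv i) u ∈ (⁅UZ n a, UZ n a⁆ : Subgroup (GL (Fin n) F)) →
      bf (sv i) v = 0 ∧ eo a (sv i) v ∈ (⁅UZ n a, UZ n a⁆ : Subgroup (GL (Fin n) F)) →
      bf (sv i) (u + v) = 0 ∧ eo a (sv i) (u + v) ∈ (⁅UZ n a, UZ n a⁆ : Subgroup (GL (Fin n) F)) := by
    intro u v hu hv
    refine ⟨by rw [bf_add_right, hu.1, hv.1, add_zero], ?_⟩
    rw [← eo_mul hn a hu.1 hv.1]
    exact Subgroup.mul_mem _ hu.2 hv.2
  have hi2 : k + 2 < n := by omega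
  obtain ⟨i2, h2⟩ : ∃ i2 : Fin n, (i2 : ℕ) = k + 2 := ⟨⟨k + 2, hi2⟩, rfl⟩
  have hr2 := Fin.val_rev i2
  have hz1 : (sv i2 : Fin n → F) ∈ Wk n (k + 2) F := by
    rw [mem_Wk]
    intro j hj
    refine Pi.single_eq_of_ne ?_ 1
    rintro rfl
    omega
  have hz2 : (sv (Fin.rev i2) : Fin n → F) ∈ Wk n (k + 2) F := by
    rw [mem_Wk]
    intro j hj
    refine Pi.single_eq_of_ne ?_ 1
    rintro rfl
    omega
  have hbf : bf (sv i2 : Fin n → F) (sv (Fin.rev i2)) = 1 := by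
    rw [bf_sv_left]
    exact Pi.single_eq_same _ 1
  have line : ∀ c : F, bf (sv i) (c • sv i1 : Fin n → F) = 0 ∧
      eo a (sv i) (c • sv i1) ∈ (⁅UZ n a, UZ n a⁆ : Subgroup (GL (Fin n) F)) := by
    intro c
    have h := add (add (star hz1 c) (star hz2 c)) (star (Submodule.add_mem _ hz1 hz2) c)
    have e : c • sv i2 + (c * Qa n a (sv i2)) • sv i1 + (c • sv (Fin.rev i2) + (c * Qa n a (sv (Fin.rev i2))) • sv i1) +
        (c • (sv i2 + sv (Fin.rev i2)) + (c * Qa n a (sv i2 + sv (Fin.rev i2))) • sv i1) = (c • sv i1 : Fin n → F) := by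
      rw [Qa_add hn, hbf]
      have h2 : (2 : F) = 0 := CharTwo.two_eq_zero
      funext j
      simp only [Pi.add_apply, Pi.smul_apply, smul_eq_mul]
      linear_combination (c * sv i2 j + c * sv (Fin.rev i2) j + c * Qa n a (sv i2) * sv i1 j +
        c * Qa n a (sv (Fin.rev i2)) * sv i1 j) * h2
    rw [e] at h
    exact h
  have wk : ∀ {z : Fin n → F}, z ∈ Wk n (k + 2) F → bf (sv i) z = 0 ∧
      eo a (sv i) z ∈ (⁅UZ n a, UZ n a⁆ : Subgroup (GL (Fin n) F)) := by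
    intro z hz
    have h := add (star hz 1) (line (Qa n a z))
    rw [one_smul, one_mul, add_assoc, vec_add_self, add_zero] at h
    exact h
  have hz : (b + b i1 • sv i1 : Fin n → F) ∈ Wk n (k + 2) F := by
    rw [mem_Wk] at hb ⊢
    intro j hj
    rw [Pi.add_apply, Pi.smul_apply, smul_eq_mul]
    by_cases hj1 : j = i1
    · have h0 : (sv i1 : Fin n → F) j = 1 := by
        rw [hj1]
        exact Pi.single_eq_same _ 1
      rw [h0, hj1, mul_one, CharTwo.add_self_eq_zero]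
    · have h0 : (sv i1 : Fin n → F) j = 0 := Pi.single_eq_of_ne hj1 1
      rw [h0, mul_zero, add_zero]
      by_cases hj2 : j = Fin.rev i1
      · rw [hj2, hb1]
      · refine hb j ?_
        rw [Fin.ext_iff] at hj1 hj2
        omega
  have h := add (wk hz) (line (b i1))
  rw [add_assoc, vec_add_self, add_zero] at h
  exact h.2

end

end OR
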