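import Pool.Agent.OR.I15
import Pool.Agent.OR.I16
import Pool.Agent.OR.I17
import Pool.Agent.OR.E10

/-!
# MP_6c3636_al, OR, module I18: the elements with vanishing simple entries are products of commutators (stub of helper40)

Induction on `m` with `m + (k + 1) = n / 2` (as `E10_aux.main`) for the claim: if `u ∈ UZ n a` fixes `sv j`, `sv (rev j)` for `j < k` and all its entries at the simple pairs vanish, then `u ∈ D = ⁅UZ n a, UZ n a⁆`. `m = 0` (`k = n / 2 - 1`): `u` fixes all `sv j` outside of the middle, and in the middle the entries are those of the identity (`mem_UZ`; the middle columns are orthogonal to all outer standard vectors), so `u = 1`. Step: `b` of `dec_step` (I16), `E = eo a (sv i) b`, `u' = E * u`. `u'` fixes `sv (rev i)`, so its row `i` is trivial (`u' i q = bf (sv (rev i)) (mv u' (sv q)) = bf (sv (rev i)) (sv q)`), so for `Sm n i q`: `0 = u' i q = E i q + u i q = b (rev q)` (`sm_add`, `eo_sm`). If `2 * k + 6 ≤ n`: `q = i + 1` gives `b (rev i1) = 0`, `E ∈ D` by `eo_comm`,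 the simple entries of `E` vanish (`eo_sm`), so those of `u'` vanish too, induction hypothesis, `u = E⁻¹ * u'`. If `2 * k + 4 = n`: `q = i + 1`, `q = i + 2` give `b = 0` (`b ∈ Wk n (k + 1) F`, the two middle indices), `E = 1`. (`n = 0`: trivial.)
-/

namespace OR

noncomputable section

open Classical Matrix CF

open LieP (En UG UL Lin)

open LieP.GI (pinv pinv' UU mem_UU mem_UL)

variable {n : ℕ} {F : Type} [Field F] [Finite F] [CharP F 2] {a : F}

namespace I18_aux

open CF.W09_aux (sv_ne sv_self coord coord')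

theorem last (hn : Even n) {k : ℕ} (hk : k + 1 = n / 2) {u : GL (Fin n) F} (hu : u ∈ UZ n a)
    (hfix : ∀ j : Fin n, (j : ℕ) < k → mv u (sv j) = sv j ∧ mv u (sv (Fin.rev j)) = sv (Fin.rev j)) :
    u = 1 := by
  have hn2 : n / 2 * 2 = n := Nat.div_mul_cancel hn.two_dvd
  have hU : u ∈ Ug n (RingEquiv.refl F) := OQ_le_Ug hn a (Om_le n a (UZ_le n a hu))
  have hrow : ∀ (l : Fin n) (x : Fin n → F), ¬ Mid n l → mv u x l = x l := by
    intro l x hl
    have hl2 := l.2
    by_cases h1 : (l : ℕ) < k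
    · exact coord' hU (hfix l h1).2 x
    · have h2 : ((Fin.rev l : Fin n) : ℕ) < k := by
        rw [Fin.val_rev]
        unfold Mid at hl
        omega
      have h3 := coord hU (hfix _ h2).1 x
      rw [Fin.rev_rev] at h3
      exact h3
  have hcol : ∀ l : Fin n, ¬ Mid n l → mv u (sv l) = sv l := by
    intro l hl
    have hl2 := l.2
    by_cases h1 : (l : ℕ) < k
    · exact (hfix l h1).1
    · have h2 : ((Fin.rev l : Fin n) : ℕ) < k := by
        rw [Fin.val_rev]
        unfold Mid at hl
        omega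
      have h3 := (hfix _ h2).2
      rw [Fin.rev_rev] at h3
      exact h3
  apply mv_ext
  intro l'
  funext l
  rw [mv_one]
  by_cases h1 : Mid n l
  · by_cases h2 : Mid n l'
    · rw [mv_sv, ((mem_UZ hn).1 hu).2 l l' (fun h => h.2 ⟨h1, h2⟩), sv, Pi.single_apply, Matrix.one_apply]
    · rw [hcol l' h2]
  · rw [hrow l _ h1]

theorem main (hn : Even n) : ∀ (m k : ℕ), m + (k + 1) = n / 2 → ∀ u ∈ UZ n a,
    (∀ j : Fin n, (j : ℕ) < k → mv u (sv j) = sv j ∧ mv u (sv (Fin.rev j)) = sv (Fin.rev j)) →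
    (∀ i j : Fin n, Sm n i j → (u : Matrix (Fin n) (Fin n) F) i j = 0) →
    u ∈ (⁅UZ n a, UZ n a⁆ : Subgroup (GL (Fin n) F)) := by
  have hn2 : n / 2 * 2 = n := Nat.div_mul_cancel hn.two_dvd
  intro m
  induction m with
  | zero =>
    intro k hk u hu hfix _
    rw [last hn (by omega) hu hfix]
    exact Subgroup.one_mem _
  | succ m ih =>
    intro k hk u hu hfix hsm
    have hk4 : 2 * k + 4 ≤ n := by omega
    obtain ⟨i, hi⟩ : ∃ i : Fin n, (i : ℕ) = k := ⟨⟨k, by omega⟩, rfl⟩
    obtain ⟨b, hb, hE, hfix'⟩ := dec_step hn hk4 hi hu hfix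
    obtain ⟨E, hEd⟩ : ∃ E, E = eo a (sv i) b := ⟨_, rfl⟩
    have hu' : E * u ∈ UZ n a := Subgroup.mul_mem _ (by rw [hEd]; exact hE) hu
    have hU : E * u ∈ Ug n (RingEquiv.refl F) := OQ_le_Ug hn a (Om_le n a (UZ_le n a hu'))
    have hEu : E ∈ UZ n a := by rw [hEd]; exact hE
    have hEe : ∀ p q : Fin n, Sm n p q →
        (E : Matrix (Fin n) (Fin n) F) p q = if p = i then b (Fin.rev q) else 0 := by
      intro p q hpq
      rw [hEd]
      exact eo_sm hn hk4 hi hb hpq
    rw [← hEd] at hfix'
    have hb0 : ∀ q : Fin n, Sm n i q → b (Fin.rev q) = 0 := by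
      intro q hq
      have h1 : mv (E * u) (sv q) i = (sv q : Fin n → F) i :=
        coord' hU (hfix' i (by omega)).2 _
      rw [mv_sv, sv_ne hq.ne, sm_add hn hEu hu hq, hsm i q hq, add_zero, hEe i q hq, if_pos rfl] at h1
      exact h1
    have hsm' : ∀ p q : Fin n, Sm n p q → ((E * u : GL (Fin n) F) : Matrix (Fin n) (Fin n) F) p q = 0 := by
      intro p q hpq
      rw [sm_add hn hEu hu hpq, hsm p q hpq, add_zero, hEe p q hpq]
      split_ifs with h
      · rw [h] at hpq
        exact hb0 q hpq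
      · rfl
    have h5 : E * u ∈ (⁅UZ n a, UZ n a⁆ : Subgroup (GL (Fin n) F)) :=
      ih (k + 1) (by omega) _ hu' hfix' hsm'
    have h6 : E ∈ (⁅UZ n a, UZ n a⁆ : Subgroup (GL (Fin n) F)) := by
      obtain ⟨i1, hi1⟩ : ∃ i1 : Fin n, (i1 : ℕ) = k + 1 := ⟨⟨k + 1, by omega⟩, rfl⟩
      have hs1 : Sm n i i1 := Or.inl ⟨by omega, by omega⟩
      by_cases hk6 : 2 * k + 6 ≤ n
      · rw [hEd]
        exact eo_comm hn hk6 hi hi1 hb (hb0 i1 hs1)
      · have hnk : 2 * k + 4 = n := by omega
        obtain ⟨i2, hi2⟩ : ∃ i2 : Fin n, (i2 : ℕ) = k + 2 := ⟨⟨k + 2, by omega⟩, rfl⟩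
        have hs2 : Sm n i i2 := Or.inr ⟨by omega, by omega⟩
        have hbz : b = 0 := by
          funext j
          by_cases hj : k + 1 ≤ (j : ℕ) ∧ (j : ℕ) + (k + 1) < n
          · have hj' : (j : ℕ) = k + 1 ∨ (j : ℕ) = k + 2 := by omega
            rcases hj' with h | h
            · have h7 : Fin.rev i2 = j := by
                apply Fin.ext
                rw [Fin.val_rev]
                omega
              rw [← h7, hb0 i2 hs2]
              rfl
            · have h7 : Fin.rev i1 = j := by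
                apply Fin.ext
                rw [Fin.val_rev]
                omega
              rw [← h7, hb0 i1 hs1]
              rfl
          · exact hb j hj
        rw [hEd, hbz, eo_zero_right a hn]
        exact Subgroup.one_mem _
    have h7 := Subgroup.mul_mem _ (Subgroup.inv_mem _ h6) h5
    rw [← mul_assoc, inv_mul_cancel, one_mul] at h7
    exact h7

end I18_aux

theorem U2_comm (hn : Even n) {u : GL (Fin n) F} (hu : u ∈ UZ n a)
    (h : ∀ i j : Fin n, Sm n i j → (u : Matrix (Fin n) (Fin n) F) i j = 0) :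
    u ∈ (⁅UZ n a, UZ n a⁆ : Subgroup (GL (Fin n) F)) := by
  by_cases h0 : n / 2 = 0
  · have hn0 : n = 0 := by
      have := hn.two_dvd
      omega
    have h1 : u = 1 := by
      apply mv_ext
      intro j
      exact absurd j.2 (by omega)
    rw [h1]
    exact Subgroup.one_mem _
  · exact I18_aux.main hn (n / 2 - 1) 0 (by omega) u hu (fun j hj => absurd hj (Nat.not_lt_zero _)) h

end

end OR
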