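import Pool.Agent.OR.I18
import Pool.Agent.LieP.I27

/-!
# MP_6c3636_al, OR, module I19: characters of UZ (stub of helper40)

`U_ind`: for every set `S` of simple pairs (`Finset.induction` on `S ⊆ Finset.univ.filter fun p => Sm n p.1 p.2`): if `u ∈ UZ`, `u p q = 0` for the simple pairs outside of `S`, and `xs a p q (u p q) ∈ K` for all simple pairs, then `u ∈ K`. `S = ∅`: `hK`. Step (`(i, j) ∈ S`): `u' = xs a i j (u i j) * u`; its simple entries are `0` at `(i, j)` (`sm_add`, `xs_entry`, characteristic two) and `u p q` at the other pairs; `xs a i j 0 = 1 ∈ K`; `u = (xs a i j (u i j))⁻¹ * u'`.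
`lin_comm'`: `LieP.GI.lin_comm` (LieP/I27). `lin_one`. `lin_ext'`: `K := {u ∈ UZ : l u = l' u}` (a subgroup: `Lin`), `U_ind`, `U2_comm`. `lin_congr'`: `u * v⁻¹` has vanishing simple entries (`sm_add`, `sm_inv`), so `l (u * v⁻¹) = 1`.
-/

namespace OR

noncomputable section

open Classical Matrix CF

open LieP (En UG UL Lin)

open LieP.GI (pinv pinv' UU mem_UU mem_UL)

variable {n : ℕ} {F : Type} [Field F] [Finite F] [CharP F 2] {a : F}

private theorem I19_ind (hn : Even n) (K : Subgroup (GL (Fin n) F))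
    (hK : ∀ u ∈ UZ n a, (∀ i j : Fin n, Sm n i j → (u : Matrix (Fin n) (Fin n) F) i j = 0) → u ∈ K)
    (S : Finset (Fin n × Fin n)) : ∀ u ∈ UZ n a,
      (∀ p q : Fin n, Sm n p q → (p, q) ∉ S → (u : Matrix (Fin n) (Fin n) F) p q = 0) →
      (∀ p q : Fin n, Sm n p q → xs a p q ((u : Matrix (Fin n) (Fin n) F) p q) ∈ K) → u ∈ K := by
  induction S using Finset.induction_on with
  | empty =>
    intro u hu h1 _
    exact hK u hu fun i j hij => h1 i j hij (Finset.notMem_empty _)
  | insert r S hr ih =>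
    intro u hu h1 h2
    obtain ⟨i, j⟩ := r
    by_cases hij : Sm n i j
    · have hx : xs a i j ((u : Matrix (Fin n) (Fin n) F) i j) ∈ UZ n a := xs_mem hn hij _
      have hv : xs a i j ((u : Matrix (Fin n) (Fin n) F) i j) * u ∈ UZ n a := (UZ n a).mul_mem hx hu
      have hent : ∀ p q : Fin n, Sm n p q →
          ((xs a i j ((u : Matrix (Fin n) (Fin n) F) i j) * u : GL (Fin n) F) : Matrix (Fin n) (Fin n) F) p q =
            (if p = i ∧ q = j then (u : Matrix (Fin n) (Fin n) F) i j else 0) +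
              (u : Matrix (Fin n) (Fin n) F) p q := by
        intro p q hpq
        rw [sm_add hn hx hu hpq, xs_entry hn hij hpq]
      have h0 : ((xs a i j ((u : Matrix (Fin n) (Fin n) F) i j) * u : GL (Fin n) F) :
          Matrix (Fin n) (Fin n) F) i j = 0 := by
        rw [hent i j hij, if_pos ⟨rfl, rfl⟩]
        exact CharTwo.add_self_eq_zero _
      have hmem : xs a i j ((u : Matrix (Fin n) (Fin n) F) i j) * u ∈ K := by
        refine ih _ hv ?_ ?_
        · intro p q hpq hS
          by_cases he : p = i ∧ q = j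
          · rw [he.1, he.2]
            exact h0
          · rw [hent p q hpq, if_neg he, zero_add]
            refine h1 p q hpq fun hin => ?_
            rcases Finset.mem_insert.1 hin with h3 | h3
            · exact he ⟨congrArg Prod.fst h3, congrArg Prod.snd h3⟩
            · exact hS h3
        · intro p q hpq
          by_cases he : p = i ∧ q = j
          · rw [he.1, he.2, h0, xs_zero hn hij]
            exact K.one_mem
          · rw [hent p q hpq, if_neg he, zero_add]
            exact h2 p q hpq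
      have h3 := K.mul_mem (K.inv_mem (h2 i j hij)) hmem
      rw [inv_mul_cancel_left] at h3
      exact h3
    · refine ih u hu ?_ h2
      intro p q hpq hS
      refine h1 p q hpq fun hin => ?_
      rcases Finset.mem_insert.1 hin with h3 | h3
      · apply hij
        have e1 : p = i := congrArg Prod.fst h3
        have e2 : q = j := congrArg Prod.snd h3
        rw [← e1, ← e2]
        exact hpq
      · exact hS h3

theorem U_ind (hn : Even n) (K : Subgroup (GL (Fin n) F))
    (hK : ∀ u ∈ UZ n a, (∀ i j : Fin n, Sm n i j → (u : Matrix (Fin n) (Fin n) F) i j = 0) → u ∈ K)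
    {u : GL (Fin n) F} (hu : u ∈ UZ n a)
    (h : ∀ i j : Fin n, Sm n i j → xs a i j ((u : Matrix (Fin n) (Fin n) F) i j) ∈ K) : u ∈ K :=
  I19_ind hn K hK Finset.univ u hu (fun _ _ _ h1 => absurd (Finset.mem_univ _) h1) h

theorem lin_one {G : Type} [Group G] {U : Subgroup G} {l : G → ℤˣ} (hl : Lin U l) : l 1 = 1 := by
  have h := hl 1 U.one_mem 1 U.one_mem
  rw [mul_one] at h
  exact mul_eq_left.1 h.symm

private theorem I19_inv {G : Type} [Group G] {U : Subgroup G} {l : G → ℤˣ} (hl : Lin U l) {u : G} (hu : u ∈ U) :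
    l u⁻¹ = (l u)⁻¹ := by
  rw [eq_inv_iff_mul_eq_one, ← hl _ (U.inv_mem hu) _ hu, inv_mul_cancel, lin_one hl]

theorem lin_comm' (hn : Even n) {l : GL (Fin n) F → ℤˣ} (hl : Lin (UZ n a) l) {u : GL (Fin n) F} (hu : u ∈ UZ n a)
    (h : ∀ i j : Fin n, Sm n i j → (u : Matrix (Fin n) (Fin n) F) i j = 0) : l u = 1 :=
  LieP.GI.lin_comm hl u (U2_comm hn hu h)

theorem lin_ext' (hn : Even n) {l l' : GL (Fin n) F → ℤˣ} (hl : Lin (UZ n a) l) (hl' : Lin (UZ n a) l')
    (h : ∀ i j : Fin n, Sm n i j → ∀ s, l (xs a i j s) = l' (xs a i j s)) : ∀ u ∈ UZ n a, l u = l' u := by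
  let K : Subgroup (GL (Fin n) F) :=
    { carrier := {u | u ∈ UZ n a ∧ l u = l' u}
      mul_mem' := by
        rintro b c ⟨hb, hb'⟩ ⟨hc, hc'⟩
        refine ⟨(UZ n a).mul_mem hb hc, ?_⟩
        rw [hl b hb c hc, hl' b hb c hc, hb', hc']
      one_mem' := ⟨(UZ n a).one_mem, by rw [lin_one hl, lin_one hl']⟩
      inv_mem' := by
        rintro b ⟨hb, hb'⟩
        refine ⟨(UZ n a).inv_mem hb, ?_⟩
        rw [I19_inv hl hb, I19_inv hl' hb, hb'] }
  intro u hu
  have h1 : u ∈ K := by
    refine U_ind hn K ?_ hu fun i j hij => ⟨xs_mem hn hij _, h i j hij _⟩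
    intro v hv h0
    exact ⟨hv, by rw [lin_comm' hn hl hv h0, lin_comm' hn hl' hv h0]⟩
  exact h1.2

theorem lin_congr' (hn : Even n) {l : GL (Fin n) F → ℤˣ} (hl : Lin (UZ n a) l) {u v : GL (Fin n) F}
    (hu : u ∈ UZ n a) (hv : v ∈ UZ n a)
    (h : ∀ i j : Fin n, Sm n i j → (u : Matrix (Fin n) (Fin n) F) i j = (v : Matrix (Fin n) (Fin n) F) i j) :
    l u = l v := by
  have hv' := (UZ n a).inv_mem hv
  have huv := (UZ n a).mul_mem hu hv'
  have h3 : l (u * v⁻¹) = 1 := by
    refine lin_comm' hn hl huv fun i j hij => ?_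
    rw [sm_add hn hu hv' hij, sm_inv hn hv hij, h i j hij]
    exact CharTwo.add_self_eq_zero _
  have h4 := hl _ huv _ hv
  rw [inv_mul_cancel_right, h3, one_mul] at h4
  exact h4

end

end OR
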