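import Pool.Agent.OR.I19
import Pool.Agent.OR.I03

/-!
# MP_6c3636_al, OR, module I20: characters and faces, (W0), (W1), (W3) at zo (stub of helper40)

`Uo_le_UZ`: `o_s1` for `x = x' = y`, `z = 0`, `y = zo` (`o_s1 hn y y (zo n a) 0`; every `g ∈ Uo y` is in `Lo 0`: `mem_Lo`, all coordinates are `0`). `face_o`: (⇒) `xs_U`. (⇐) `u ∈ Uo y ≤ UZ`; `K := {u ∈ UZ : l u = 1}`, `U_ind` (`lin_comm'`): for `Sm n i j`: if `cx y j < cx y i` the hypothesis for `s = u i j`; otherwise `u i j = 0` (`mem_Uo`, `i ≠ j`), `xs_zero`, `lin_one`.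
(w0): the simple entries of `u * u` are `u i j + u i j = 0` (`sm_add`, `CharTwo.add_self_eq_zero`), `U2_comm`. (w1): `y + y'` is dominant (`le_zo`: `(y + y')_j < (y + y')_i` implies `y_j < y_i` or `y'_j < y'_i`), `face_o`. (w3): `face_o` for `y`: let `Sm n i j`, `cx y j < cx y i`; by the hypothesis `cx x j < cx x i` (`mem_Dlo`, `pos_rto`), so `xs a i j s ∈ Uo x` (`xs_U`) and in `UZ` (`xs_mem`).
-/

namespace OR

noncomputable section

open Classical Matrix CF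

open LieP (En UG UL Lin)

open LieP.GI (pinv pinv' UU mem_UU mem_UL)

variable {n : ℕ} {F : Type} [Field F] [Finite F] [CharP F 2] {a : F}

theorem Uo_le_UZ (hn : Even n) {y : EA n a} (hy : ∀ α ∈ Ro n a, 0 < inner ℝ α y → 0 < inner ℝ α (zo n a)) :
    Uo y ≤ UZ n a := by
  intro g hg
  have h1 : g ∈ Lo (0 : EA n a) := by
    rw [mem_Lo hn]
    refine ⟨((mem_Uo hn).1 hg).1, fun i j h => ?_⟩
    rw [cx_zero, cx_zero] at h
    exact absurd rfl h
  exact o_s1 hn y y (zo n a) 0 (fun α hα _ h _ => hy α hα h) g hg hg h1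

/-- the kernel of a linear character -/
private def I20_ker {l : GL (Fin n) F → ℤˣ} (hl : Lin (UZ n a) l) : Subgroup (GL (Fin n) F) where
  carrier := {u | u ∈ UZ n a ∧ l u = 1}
  mul_mem' := by
    rintro x z ⟨hx, hx'⟩ ⟨hz, hz'⟩
    exact ⟨Subgroup.mul_mem _ hx hz, by rw [hl x hx z hz, hx', hz', mul_one]⟩
  one_mem' := ⟨Subgroup.one_mem _, lin_one hl⟩
  inv_mem' := by
    rintro x ⟨hx, hx'⟩
    refine ⟨Subgroup.inv_mem _ hx, ?_⟩
    have h := hl x hx x⁻¹ (Subgroup.inv_mem _ hx)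
    rw [mul_inv_cancel, lin_one hl, hx', one_mul] at h
    exact h.symm

theorem face_o (hn : Even n) {l : GL (Fin n) F → ℤˣ} (hl : Lin (UZ n a) l) {y : EA n a}
    (hy : ∀ α ∈ Ro n a, 0 < inner ℝ α y → 0 < inner ℝ α (zo n a)) :
    (∀ u ∈ Uo y, l u = 1) ↔ ∀ i j : Fin n, Sm n i j → cx y j < cx y i → ∀ s, l (xs a i j s) = 1 := by
  constructor
  · intro h i j hij hlt s
    exact h _ (xs_U hn hij s hlt)
  · intro h u hu
    have hu1 : u ∈ UZ n a := Uo_le_UZ hn hy hu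
    have key : u ∈ I20_ker hl := by
      refine U_ind hn (I20_ker hl) (fun v hv h1 => ⟨hv, lin_comm' hn hl hv h1⟩) hu1 fun i j hij => ?_
      refine ⟨xs_mem hn hij _, ?_⟩
      by_cases hlt : cx y j < cx y i
      · exact h i j hij hlt _
      · rw [((mem_Uo hn).1 hu).2 i j hlt, Matrix.one_apply_ne hij.ne, xs_zero hn hij, lin_one hl]
    exact key.2

theorem o_bw0 (hn : Even n) : ∀ u ∈ Uo (zo n a), u * u ∈ (⁅Uo (zo n a), Uo (zo n a)⁆ : Subgroup (GL (Fin n) F)) := by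
  intro u hu
  have hu1 : u ∈ UZ n a := hu
  refine U2_comm hn (Subgroup.mul_mem _ hu1 hu1) fun i j hij => ?_
  rw [sm_add hn hu1 hu1 hij, CharTwo.add_self_eq_zero]

theorem o_bw1 (hn : Even n) : ∀ l : GL (Fin n) F → ℤˣ, Lin (Uo (zo n a)) l → ∀ y y' : EA n a,
    (∀ α ∈ Ro n a, 0 < inner ℝ α y → 0 < inner ℝ α (zo n a)) →
    (∀ α ∈ Ro n a, 0 < inner ℝ α y' → 0 < inner ℝ α (zo n a)) →
    (∀ u ∈ Uo y, l u = 1) → (∀ u ∈ Uo y', l u = 1) → ∀ u ∈ Uo (y + y'), l u = 1 := by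
  intro l hl y y' hy hy' h h'
  have hl' : Lin (UZ n a) l := hl
  have hyy : ∀ α ∈ Ro n a, 0 < inner ℝ α (y + y') → 0 < inner ℝ α (zo n a) := by
    intro α hα hpos
    rw [inner_add_right] at hpos
    by_cases h1 : 0 < inner ℝ α y
    · exact hy α hα h1
    · exact hy' α hα (by linarith [not_lt.1 h1])
  rw [face_o hn hl' hy] at h
  rw [face_o hn hl' hy'] at h'
  rw [face_o hn hl' hyy]
  intro i j hij hlt s
  rw [cx_add, cx_add] at hlt
  by_cases h1 : cx y j < cx y i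
  · exact h i j hij h1 s
  · exact h' i j hij (by linarith [not_lt.1 h1]) s

theorem o_bw3 (hn : Even n) : ∀ l : GL (Fin n) F → ℤˣ, Lin (Uo (zo n a)) l → ∀ x y : EA n a,
    (∀ u ∈ Uo (zo n a), u ∈ Uo x → l u = 1) → (∀ α ∈ Ro n a, 0 < inner ℝ α y → 0 < inner ℝ α (zo n a)) →
    (∀ α ∈ Dlo n a, 0 < inner ℝ α y → 0 < inner ℝ α x) → ∀ u ∈ Uo y, l u = 1 := by
  intro l hl x y h1 hy h2
  have hl' : Lin (UZ n a) l := hl
  rw [face_o hn hl' hy]
  intro i j hij hlt s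
  have h3 := h2 (rto a i j) (mem_Dlo.2 ⟨i, j, hij, rfl⟩)
  rw [pos_rto, pos_rto] at h3
  exact h1 _ (xs_mem hn hij s) (xs_U hn hij s (h3 hlt))

end

end OR
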