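import Pool.Agent.OR.I08
import Pool.Agent.LieP.I29
import Pool.Agent.LieP.I30

/-!
# MP_6c3636_al, OR, module I21: the torus for the split form (stub of helper40)

`n = 2 m`. Find `t : Fin n → F`, `t i ≠ 0`, `t i * t (rev i) = 1`, `t i = c i j * t j` for `Sm n i j`; then `T := diag(t)` is in `OQ n 0` (the quadratic form), in `Om n 0` by `dg_Om` (E07), in `Lo (zo n 0)` (`mem_Lo`), and `(T * u * T⁻¹) i j = t i * u i j * (t j)⁻¹`. If `m ≤ 1` there are no simple pairs, `t = 1`. Otherwise (`i = m - 2`): `t (m-2) = c₁ t (m-1)`, `t (m-2) = c₂ t m = c₂ (t (m-1))⁻¹`, so `t (m-1)² = c₂ c₁⁻¹`: this has a solution because `F` is finite of characteristic two (`ff3` of LieP/I30 for `RingEquiv.refl F`, or `FiniteField.exists_root..`/`frobenius` bijective); then `t (m-2) = c₁ t (m-1)` and downwards `t i = c i (i+1) * t (i+1)`, `t (rev i) = (t i)⁻¹` for `i < m` (see `I29_T` in LieP/I29).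
-/

namespace OR

noncomputable section

open Classical Matrix CF

open LieP (En UG UL Lin)

open LieP.GI (pinv pinv' UU mem_UU mem_UL)

variable {n : ℕ} {F : Type} [Field F] [Finite F] [CharP F 2] {a : F}

namespace I21_aux

omit [Finite F] [CharP F 2] in
/-- the multipliers of the first half -/
def cn (c : Fin n → Fin n → F) (r : ℕ) : F :=
  if h : 2 * r + 4 ≤ n then c ⟨r, by omega⟩ ⟨r + 1, by omega⟩ else 1

omit [Finite F] [CharP F 2] in
theorem cn_ne {c : Fin n → Fin n → F} (hc : ∀ i j, Sm n i j → c i j ≠ 0) (r : ℕ) : cn c r ≠ 0 := by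
  unfold cn
  split_ifs with h
  · exact hc _ _ (Or.inl ⟨rfl, h⟩)
  · exact one_ne_zero

omit [Finite F] [CharP F 2] in
theorem cn_eq {c : Fin n → Fin n → F} {i j : Fin n} (h : 2 * (i : ℕ) + 4 ≤ n) (hj : (j : ℕ) = i + 1) :
    cn c i = c i j := by
  unfold cn
  rw [dif_pos h]
  have h1 : (⟨(i : ℕ) + 1, by omega⟩ : Fin n) = j := Fin.ext hj.symm
  rw [h1]

/-- the middle entry -/
theorem ex_b (c : Fin n → Fin n → F) (hc : ∀ i j, Sm n i j → c i j ≠ 0) :
    ∃ b : F, b ≠ 0 ∧ ∀ i j : Fin n, 2 * (i : ℕ) + 4 = n → (j : ℕ) = i + 2 → cn c i * b = c i j * b⁻¹ := by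
  by_cases h : ∃ i j : Fin n, 2 * (i : ℕ) + 4 = n ∧ (j : ℕ) = i + 2
  · obtain ⟨i, j, hi, hj⟩ := h
    have h1 : c i j ≠ 0 := hc i j (Or.inr ⟨hi, hj⟩)
    have h2 := cn_ne hc (i : ℕ)
    obtain ⟨b, hb, hb2⟩ := LieP.ff3 (σ := RingEquiv.refl F) (c := c i j * (cn c i)⁻¹) rfl
      (mul_ne_zero h1 (inv_ne_zero h2))
    have hb3 : b * b = c i j * (cn c i)⁻¹ := hb2
    refine ⟨b, hb, fun i' j' hi' hj' => ?_⟩
    have e1 : i' = i := Fin.ext (by omega)
    subst e1
    have e2 : j' = j := Fin.ext (by omega)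
    subst e2
    field_simp
    rw [sq, hb3]
    field_simp
  · exact ⟨1, one_ne_zero, fun i j hi hj => absurd ⟨i, j, hi, hj⟩ h⟩

end I21_aux

open I21_aux

theorem torus_split (hn : Even n) (c : Fin n → Fin n → F) (hc : ∀ i j, Sm n i j → c i j ≠ 0) :
    ∃ t ∈ Lo (zo n (0 : F)), ∀ (u : GL (Fin n) F) (i j : Fin n), Sm n i j →
      ((t * u * t⁻¹ : GL (Fin n) F) : Matrix (Fin n) (Fin n) F) i j = c i j * (u : Matrix (Fin n) (Fin n) F) i j := by
  obtain ⟨b, hb, hb2⟩ := ex_b c hc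
  have hcn : ∀ r, 2 * r + 2 ≤ n → cn c r ≠ 0 := fun r _ => cn_ne hc r
  have hne : ∀ i, LieP.GI.I29_t n (RingEquiv.refl F) (cn c) b i ≠ 0 := LieP.GI.I29_t_ne hcn hb
  have hrev : ∀ i : Fin n, LieP.GI.I29_t n (RingEquiv.refl F) (cn c) b i *
      LieP.GI.I29_t n (RingEquiv.refl F) (cn c) b (Fin.rev i : Fin n) = 1 := by
    intro i
    obtain ⟨m, hm⟩ := hn
    have h1 : ((Fin.rev i : Fin n) : ℕ) = n - 1 - (i : ℕ) := by
      rw [Fin.val_rev]
      omega
    rw [h1]
    unfold LieP.GI.I29_t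
    have hi := i.2
    by_cases h : 2 * (i : ℕ) ≤ n - 1
    · rw [if_pos h, if_neg (by omega), show n - 1 - (n - 1 - (i : ℕ)) = i by omega]
      exact mul_inv_cancel₀ (LieP.GI.I29_T_ne hcn hb _)
    · rw [if_neg h, if_pos (by omega)]
      exact inv_mul_cancel₀ (LieP.GI.I29_T_ne hcn hb _)
  have hstep : ∀ i j : Fin n, Sm n i j → LieP.GI.I29_t n (RingEquiv.refl F) (cn c) b i =
      c i j * LieP.GI.I29_t n (RingEquiv.refl F) (cn c) b j := by
    intro i j h
    unfold LieP.GI.I29_t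
    rcases h with ⟨h1, h2⟩ | ⟨h1, h2⟩
    · rw [if_pos (by omega), if_pos (by omega), h1, ← cn_eq (c := c) h2 h1]
      exact LieP.GI.I29_T_step (by omega)
    · rw [if_pos (by omega), if_neg (by omega), LieP.GI.I29_T_step (by omega), LieP.GI.I29_T_end (by omega),
        LieP.GI.I29_T_end (by omega)]
      exact hb2 i j h1 h2
  have hOff : ∀ i j : Fin n, i ≠ j → (LieP.GI.I29_g n (LieP.GI.I29_t n (RingEquiv.refl F) (cn c) b) hne :
      Matrix (Fin n) (Fin n) F) i j = 0 := fun i j h => Matrix.diagonal_apply_ne _ h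
  have hOffi : ∀ i j : Fin n, i ≠ j → (((LieP.GI.I29_g n (LieP.GI.I29_t n (RingEquiv.refl F) (cn c) b) hne)⁻¹ :
      GL (Fin n) F) : Matrix (Fin n) (Fin n) F) i j = 0 := fun i j h => Matrix.diagonal_apply_ne _ h
  refine ⟨LieP.GI.I29_g n (LieP.GI.I29_t n (RingEquiv.refl F) (cn c) b) hne, ?_, fun u i j h => ?_⟩
  · refine ⟨dg_Om hn ?_ hOff, fun i j hij => hOff i j (fun h => hij (by rw [h])),
      fun i j hij => hOffi i j (fun h => hij (by rw [h]))⟩
    rw [mem_OQ]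
    intro x
    unfold Qa
    rw [zero_mul, zero_mul, add_zero, add_zero]
    refine Finset.sum_congr rfl fun i _ => ?_
    have hmv : ∀ k : Fin n, mv (LieP.GI.I29_g n (LieP.GI.I29_t n (RingEquiv.refl F) (cn c) b) hne) x k =
        LieP.GI.I29_t n (RingEquiv.refl F) (cn c) b k * x k := by
      intro k
      exact Matrix.mulVec_diagonal _ _ _
    split_ifs with h
    · rw [hmv, hmv]
      calc _ = (LieP.GI.I29_t n (RingEquiv.refl F) (cn c) b i *
            LieP.GI.I29_t n (RingEquiv.refl F) (cn c) b (Fin.rev i : Fin n)) * (x i * x (Fin.rev i)) := by ring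
        _ = _ := by rw [hrev, one_mul]
    · rfl
  · show ((Matrix.diagonal fun i : Fin n => LieP.GI.I29_t n (RingEquiv.refl F) (cn c) b i) *
      (u : Matrix (Fin n) (Fin n) F) *
      (Matrix.diagonal fun i : Fin n => (LieP.GI.I29_t n (RingEquiv.refl F) (cn c) b i)⁻¹)) i j = _
    rw [Matrix.mul_diagonal, Matrix.diagonal_mul, hstep i j h]
    have h3 := hne j
    field_simp

end

end OR
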