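import Pool.Agent.OR.I01
import Pool.Agent.LieP.I30

/-!
# MP_6c3636_al, OR, module I22: characters of the anisotropic plane (stub of helper40)

`Aniso a`, so `a ≠ 0` (`x = 1`, `y = 0`). For `p r : F` let `C` be the matrix with the rows `(p, a (p + r))`, `(a (p + r), r)`; these matrices form the field `F[A]`, `A = ((0, a), (a, 1))`, `A ^ 2 = A + a ^ 2` (`C = p + (p + r) A`, characteristic two). `C_det`: if `(p, r) ≠ (0, 0)` then `p r + a² (p + r)² ≠ 0`: if it is zero then `x = a (p + r)`, `y = ...`: put `X = r + a² ...`; direct: suppose `p r = a² (p + r)²`, `a ≠ 0`. With `s = p + r`: `p (p + s) = a² s²`, i.e. `p² + p s + a² s² = 0`, so `a p² + p (a s) + a (a s)² = 0` [multiply by `a`], so by `Aniso` (for `x = p`, `y = a s`) `p = 0`, `a s = 0`, `r = 0`.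
`ch_form`: `ψ0` additive, nontrivial; every additive `χ : F → F → ℤˣ` is `χ s t = ψ0 (α s + β t)` for some `α β` (`ff1` of LieP/I30 for the two restrictions `χ s 0`, `χ 0 t`, with `α = 0` if trivial). `plane_char`: `χ s t = ψ0 (α s + β t)`, `χ' s t = ψ0 (α' s + β' t)` with `(α, β) ≠ 0 ≠ (α', β')` (nontrivial). We need `p r` with `α' = α p + β a (p + r)`, `β' = α a (p + r) + β r` (then `χ' s t = χ (s p + t a (p + r)) (s a (p + r) + t r)`). This is a linear system for `(p, r)` with the determinant `(α + a β)(β + a α) + a² α β = a (α² + β²) + α β ≠ 0` by `Aniso`. `(p, r) ≠ 0` as `(α', β') ≠ 0`.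
-/

namespace OR

noncomputable section

open Classical Matrix CF

open LieP (En UG UL Lin)

open LieP.GI (pinv pinv' UU mem_UU mem_UL)

variable {n : ℕ} {F : Type} [Field F] [Finite F] [CharP F 2] {a : F}

theorem C_det (ha : Aniso a) {p r : F} (h : ¬ (p = 0 ∧ r = 0)) : p * r + a ^ 2 * (p + r) ^ 2 ≠ 0 := by
  intro h0
  have h2 : (2 : F) = 0 := CharTwo.two_eq_zero
  have ha0 : a ≠ 0 := by
    rintro rfl
    have h1 := ha 1 0 (by rw [zero_mul, mul_zero, add_zero])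
    exact one_ne_zero h1.1
  obtain ⟨h3, h4⟩ := ha p (a * (p + r)) (by linear_combination a * h0 + a * p ^ 2 * h2)
  rcases mul_eq_zero.1 h4 with h5 | h5
  · exact ha0 h5
  · refine h ⟨h3, ?_⟩
    rw [h3, zero_add] at h5
    exact h5

theorem ch_form {ψ0 : F → ℤˣ} (h0 : ∀ x y, ψ0 (x + y) = ψ0 x * ψ0 y) (hn0 : ∃ x, ψ0 x ≠ 1) {χ : F → F → ℤˣ}
    (h : ∀ s s' t t', χ (s + s') (t + t') = χ s t * χ s' t') : ∃ α β : F, ∀ s t, χ s t = ψ0 (α * s + β * t) := by
  have h00 : ψ0 0 = 1 := by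
    have h1 := h0 0 0
    rw [add_zero] at h1
    exact left_eq_mul.1 h1
  have key : ∀ ψ : F → ℤˣ, (∀ x y, ψ (x + y) = ψ x * ψ y) → ∃ c : F, ∀ x, ψ x = ψ0 (c * x) := by
    intro ψ hψ
    by_cases hn : ∃ x, ψ x ≠ 1
    · obtain ⟨c, -, hc⟩ := LieP.ff1 h0 hψ hn0 hn
      exact ⟨c, hc⟩
    · push Not at hn
      exact ⟨0, fun x => by rw [hn x, zero_mul, h00]⟩
  obtain ⟨α, hα⟩ := key (fun s => χ s 0) (fun x y => by
    show χ (x + y) 0 = χ x 0 * χ y 0
    rw [← h, add_zero])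
  obtain ⟨β, hβ⟩ := key (fun t => χ 0 t) (fun x y => by
    show χ 0 (x + y) = χ 0 x * χ 0 y
    rw [← h, add_zero])
  refine ⟨α, β, fun s t => ?_⟩
  have h1 := h s 0 0 t
  rw [add_zero, zero_add] at h1
  rw [h0, ← hα s, ← hβ t]
  exact h1

theorem plane_char (ha : Aniso a) {χ χ' : F → F → ℤˣ}
    (h : ∀ s s' t t', χ (s + s') (t + t') = χ s t * χ s' t')
    (h' : ∀ s s' t t', χ' (s + s') (t + t') = χ' s t * χ' s' t')
    (hn : ∃ s t, χ s t ≠ 1) (hn' : ∃ s t, χ' s t ≠ 1) :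
    ∃ p r : F, ¬ (p = 0 ∧ r = 0) ∧
      ∀ s t, χ' s t = χ (s * p + t * (a * (p + r))) (s * (a * (p + r)) + t * r) := by
  obtain ⟨ψ0, h0, hn0⟩ : ∃ ψ0 : F → ℤˣ, (∀ x y, ψ0 (x + y) = ψ0 x * ψ0 y) ∧ ∃ x, ψ0 x ≠ 1 := by
    obtain ⟨s, t, hst⟩ := hn
    by_cases h1 : χ s 0 = 1
    · refine ⟨fun t => χ 0 t, fun x y => ?_, t, ?_⟩
      · show χ 0 (x + y) = χ 0 x * χ 0 y
        rw [← h, add_zero]
      · intro h3
        apply hst
        have h4 := h s 0 0 t
        rw [add_zero, zero_add, h1, one_mul] at h4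
        rw [h4]
        exact h3
    · refine ⟨fun s => χ s 0, fun x y => ?_, s, h1⟩
      show χ (x + y) 0 = χ x 0 * χ y 0
      rw [← h, add_zero]
  have h00 : ψ0 0 = 1 := by
    have h1 := h0 0 0
    rw [add_zero] at h1
    exact left_eq_mul.1 h1
  obtain ⟨α, β, hχ⟩ := ch_form h0 hn0 h
  obtain ⟨α', β', hχ'⟩ := ch_form h0 hn0 h'
  have hD : a * (α ^ 2 + β ^ 2) + α * β ≠ 0 := by
    intro h1
    obtain ⟨h3, h4⟩ := ha α β h1
    obtain ⟨s, t, hst⟩ := hn
    apply hst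
    rw [hχ, h3, h4, zero_mul, zero_mul, add_zero, h00]
  obtain ⟨p, r, hp, hr⟩ : ∃ p r : F, α * p + β * (a * (p + r)) = α' ∧ α * (a * (p + r)) + β * r = β' := by
    refine ⟨(α' * (a * α + β) - β' * (a * β)) / (a * (α ^ 2 + β ^ 2) + α * β),
      ((α + a * β) * β' - a * α * α') / (a * (α ^ 2 + β ^ 2) + α * β), ?_, ?_⟩
    · rw [← add_div, mul_div_assoc', mul_div_assoc', mul_div_assoc', ← add_div, div_eq_iff hD]
      ring
    · rw [← add_div, mul_div_assoc', mul_div_assoc', mul_div_assoc', ← add_div, div_eq_iff hD]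
      ring
  refine ⟨p, r, ?_, fun s t => ?_⟩
  · rintro ⟨rfl, rfl⟩
    rw [add_zero, mul_zero, mul_zero, mul_zero, add_zero] at hp hr
    obtain ⟨s, t, hst⟩ := hn'
    apply hst
    rw [hχ', ← hp, ← hr, zero_mul, zero_mul, add_zero, h00]
  · rw [hχ', hχ, ← hp, ← hr]
    congr 1
    ring

end

end OR
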