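import Pool.Agent.OR.I08
import Pool.Agent.OR.I22

/-!
# MP_6c3636_al, OR, module I23: the torus for the anisotropic form (stub of helper40)

`n = 2 m`; `i1`, `i2` are the middle indices `m - 1`, `m`. If `n ≤ 2` there are no simple pairs, `t = 1`. Let `C = ((p, a (p + r)), (a (p + r), r))`, `δ = det C ≠ 0` (`C_det`), `λ² = δ` (`F` is perfect), `B' = λ⁻¹ C` has determinant one and the same shape; `B'` preserves the form `a (x² + y²) + x y` (for the matrix `((p', a s'), (a s', r'))`, `s' = p' + r'`, `p' r' + a² s'² = 1`: `Q(column 1) = a p'² + p' a s' + a (a s')² = a (p'² + p' s' + a² s'²) = a (p' r' + a² s'²) = a`, `Q(column 2) = a`, `bf(column 1, column 2) = p' r' + a² s'² = 1`). `t` := the matrix with the diagonal entries `d i` outside of the middle (`d (m-2) = λ`, `d i = c i (i+1) * d (i+1)` for `i < m - 2`, `d (rev i) = (d i)⁻¹`) and the middle block `B'⁻¹` (`B'⁻¹ = ((r', a s'), (a s', p'))`). It is in `OQ n a` (`Qa_add`, or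 compute `Qa` with the middle and the outer part), in `Om n a`: `ev_levels_iff` or: `t = (diagonal part) * (middle part)`; the diagonal part is in `Om` by `dg_Om` (E07); the middle part `t₁`: `rank (t₁ - 1)` is `0` or `2`, because `det (B'⁻¹ - 1) = 1 + 1 + (p' + r') = s' `, and if `s' = 0` then `p' r' = 1`, `p' = r'`, so `p' = 1`, `B' = 1`. `mem_Om`. `t ∈ Lo (zo n a)` (`mem_Lo`; the coordinates of `zo n a` are zero in the middle). `(t * u * t⁻¹) i j = ∑ k l, t i k * u k l * t⁻¹ l j`, `t⁻¹` has the middle block `B'`; for `i = m - 2` and `j` in the middle: `λ * ∑_{l middle} u i l * B' l j = ∑ u i l * C l j`.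
-/

namespace OR

noncomputable section

open Classical Matrix CF

open LieP (En UG UL Lin)

open LieP.GI (pinv pinv' UU mem_UU mem_UL)

variable {n : ℕ} {F : Type} [Field F] [Finite F] [CharP F 2] {a : F}

/-- matrices which are diagonal outside of the places `e1`, `e2` -/
private def TM (e1 e2 : Fin n) (d : Fin n → F) (w x y z : F) : Matrix (Fin n) (Fin n) F := fun i j =>
  if i = e1 then (if j = e1 then w else if j = e2 then x else 0)
  else if i = e2 then (if j = e1 then y else if j = e2 then z else 0)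
  else if i = j then d i else 0

section TMsec

omit [Finite F] [CharP F 2]

private theorem TM_row1 {e1 e2 : Fin n} (he : e1 ≠ e2) (d : Fin n → F) (w x y z : F) (v : Fin n → F) :
    ∑ k, TM e1 e2 d w x y z e1 k * v k = w * v e1 + x * v e2 := by
  rw [Fintype.sum_eq_add e1 e2 he]
  · unfold TM
    rw [if_pos rfl, if_pos rfl, if_pos rfl, if_neg he.symm, if_pos rfl]
  · rintro k ⟨h1, h2⟩
    unfold TM
    rw [if_pos rfl, if_neg h1, if_neg h2, zero_mul]

private theorem TM_row2 {e1 e2 : Fin n} (he : e1 ≠ e2) (d : Fin n → F) (w x y z : F) (v : Fin n → F) :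
    ∑ k, TM e1 e2 d w x y z e2 k * v k = y * v e1 + z * v e2 := by
  rw [Fintype.sum_eq_add e1 e2 he]
  · unfold TM
    rw [if_neg he.symm, if_pos rfl, if_pos rfl, if_neg he.symm, if_pos rfl, if_neg he.symm, if_pos rfl]
  · rintro k ⟨h1, h2⟩
    unfold TM
    rw [if_neg he.symm, if_pos rfl, if_neg h1, if_neg h2, zero_mul]

private theorem TM_row {e1 e2 : Fin n} (d : Fin n → F) (w x y z : F) (v : Fin n → F) {i : Fin n}
    (h1 : i ≠ e1) (h2 : i ≠ e2) : ∑ k, TM e1 e2 d w x y z i k * v k = d i * v i := by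
  rw [Finset.sum_eq_single i]
  · unfold TM
    rw [if_neg h1, if_neg h2, if_pos rfl]
  · intro k _ hk
    unfold TM
    rw [if_neg h1, if_neg h2, if_neg hk.symm, zero_mul]
  · exact fun h => absurd (Finset.mem_univ _) h

private theorem TM_col1 {e1 e2 : Fin n} (he : e1 ≠ e2) (d : Fin n → F) (w x y z : F) (v : Fin n → F) :
    ∑ k, v k * TM e1 e2 d w x y z k e1 = v e1 * w + v e2 * y := by
  rw [Fintype.sum_eq_add e1 e2 he]
  · unfold TM
    rw [if_pos rfl, if_pos rfl, if_neg he.symm, if_pos rfl, if_pos rfl]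
  · rintro k ⟨h1, h2⟩
    unfold TM
    rw [if_neg h1, if_neg h2, if_neg h1, mul_zero]

private theorem TM_col2 {e1 e2 : Fin n} (he : e1 ≠ e2) (d : Fin n → F) (w x y z : F) (v : Fin n → F) :
    ∑ k, v k * TM e1 e2 d w x y z k e2 = v e1 * x + v e2 * z := by
  rw [Fintype.sum_eq_add e1 e2 he]
  · unfold TM
    rw [if_pos rfl, if_neg he.symm, if_pos rfl, if_neg he.symm, if_pos rfl, if_neg he.symm, if_pos rfl]
  · rintro k ⟨h1, h2⟩
    unfold TM
    rw [if_neg h1, if_neg h2, if_neg h2, mul_zero]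

private theorem TM_col {e1 e2 : Fin n} (d : Fin n → F) (w x y z : F) (v : Fin n → F) {j : Fin n}
    (h1 : j ≠ e1) (h2 : j ≠ e2) : ∑ k, v k * TM e1 e2 d w x y z k j = v j * d j := by
  rw [Finset.sum_eq_single j]
  · unfold TM
    rw [if_neg h1, if_neg h2, if_pos rfl]
  · intro k _ hk
    unfold TM
    split_ifs <;> simp_all
  · exact fun h => absurd (Finset.mem_univ _) h

private theorem TM_mul {e1 e2 : Fin n} (he : e1 ≠ e2) (d d' : Fin n → F) (w x y z w' x' y' z' : F) :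
    TM e1 e2 d w x y z * TM e1 e2 d' w' x' y' z' = TM e1 e2 (fun i => d i * d' i) (w * w' + x * y')
      (w * x' + x * z') (y * w' + z * y') (y * x' + z * z') := by
  ext i j
  rw [Matrix.mul_apply]
  by_cases h1 : i = e1
  · rw [h1, TM_row1 he]
    unfold TM
    rw [if_pos rfl, if_pos rfl, if_neg he.symm, if_pos rfl]
    split_ifs
    · rfl
    · rfl
    · rw [mul_zero, mul_zero, add_zero]
  · by_cases h2 : i = e2
    · rw [h2, TM_row2 he]
      unfold TM
      rw [if_pos rfl, if_neg he.symm, if_pos rfl, if_neg he.symm, if_pos rfl]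
      split_ifs
      · rfl
      · rfl
      · rw [mul_zero, mul_zero, add_zero]
    · rw [TM_row _ _ _ _ _ _ h1 h2]
      unfold TM
      rw [if_neg h1, if_neg h2, if_neg h1, if_neg h2]
      split_ifs
      · rfl
      · rw [mul_zero]

private theorem TM_one {e1 e2 : Fin n} (he : e1 ≠ e2) : TM e1 e2 (fun _ => (1 : F)) 1 0 0 1 = 1 := by
  ext i j
  rw [Matrix.one_apply]
  unfold TM
  split_ifs <;> simp_all

end TMsec

omit [Finite F] in
private theorem TM_inv {e1 e2 : Fin n} (he : e1 ≠ e2) {d d' : Fin n → F} (hd : ∀ i, d i * d' i = 1) {w x y z : F}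
    (h : w * z + x * y = 1) : TM e1 e2 d w x y z * TM e1 e2 d' z x y w = 1 := by
  rw [TM_mul he, ← TM_one he]
  have h2 : (2 : F) = 0 := CharTwo.two_eq_zero
  congr 1
  · funext i
    exact hd i
  · rw [mul_comm w x, ← two_mul, h2, zero_mul]
  · rw [mul_comm z y, ← two_mul, h2, zero_mul]
  · rw [add_comm, mul_comm z w, mul_comm y x]
    exact h

/-- the invertible matrices of this form -/
private def TG {e1 e2 : Fin n} (he : e1 ≠ e2) {d d' : Fin n → F} (hd : ∀ i, d i * d' i = 1) {w x y z : F}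
    (h : w * z + x * y = 1) : GL (Fin n) F where
  val := TM e1 e2 d w x y z
  inv := TM e1 e2 d' z x y w
  val_inv := TM_inv he hd h
  inv_val := TM_inv he (fun i => (mul_comm _ _).trans (hd i)) ((congrArg (· + x * y) (mul_comm z w)).trans h)

omit [Finite F] in
private theorem TG_val {e1 e2 : Fin n} (he : e1 ≠ e2) {d d' : Fin n → F} (hd : ∀ i, d i * d' i = 1) {w x y z : F}
    (h : w * z + x * y = 1) : (TG he hd h : Matrix (Fin n) (Fin n) F) = TM e1 e2 d w x y z := rfl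

omit [Finite F] in
private theorem TG_inv {e1 e2 : Fin n} (he : e1 ≠ e2) {d d' : Fin n → F} (hd : ∀ i, d i * d' i = 1) {w x y z : F}
    (h : w * z + x * y = 1) : (((TG he hd h)⁻¹ : GL (Fin n) F) : Matrix (Fin n) (Fin n) F) = TM e1 e2 d' z x y w :=
  rfl

omit [Finite F] [CharP F 2] in
/-- the quadratic form with the middle part -/
private theorem Qa_mid (a : F) {e1 e2 : Fin n} (hn : Even n) (h1 : (e1 : ℕ) + 1 = n / 2) (h2 : (e2 : ℕ) = n / 2)
    (v : Fin n → F) : Qa n a v = (∑ i : Fin n, if (i : ℕ) + 1 < n / 2 then v i * v (Fin.rev i) else 0) +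
      v e1 * v e2 + a * (v e1 ^ 2 + v e2 ^ 2) := by
  have he : e1 ≠ e2 := E07_aux.ij_ne h1 h2
  have hs : (∑ i : Fin n, if (i : ℕ) < n / 2 then v i * v (Fin.rev i) else 0) =
      (∑ i : Fin n, if (i : ℕ) + 1 < n / 2 then v i * v (Fin.rev i) else 0) + v e1 * v e2 := by
    have h3 : v e1 * v e2 = ∑ i : Fin n, if i = e1 then v i * v (Fin.rev i) else 0 := by
      rw [Finset.sum_ite_eq' Finset.univ e1, if_pos (Finset.mem_univ _), E07_aux.rev_i hn h1 h2]
    rw [h3, ← Finset.sum_add_distrib]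
    refine Finset.sum_congr rfl fun i _ => ?_
    by_cases h4 : i = e1
    · rw [if_pos (by rw [h4]; omega), if_neg (by rw [h4]; omega), if_pos h4, zero_add]
    · have h5 : (i : ℕ) ≠ (e1 : ℕ) := fun h => h4 (Fin.ext h)
      rw [if_neg h4, add_zero]
      by_cases h6 : (i : ℕ) < n / 2
      · rw [if_pos h6, if_pos (by omega)]
      · rw [if_neg h6, if_neg (by omega)]
  have hs2 : (∑ i : Fin n, if Mid n i then v i ^ 2 else 0) = v e1 ^ 2 + v e2 ^ 2 := by
    rw [Fintype.sum_eq_add e1 e2 he]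
    · rw [if_pos (show Mid n e1 from Or.inl h1), if_pos (show Mid n e2 from Or.inr h2)]
    · rintro i ⟨h3, h4⟩
      refine if_neg fun h5 => ?_
      rcases (E07_aux.mid_iff h1 h2 i).1 h5 with h6 | h6
      · exact h3 h6
      · exact h4 h6
  rw [Qa, hs, hs2]

omit [Finite F] in
private theorem TG_OQ (hn : Even n) {e1 e2 : Fin n} (h1 : (e1 : ℕ) + 1 = n / 2) (h2 : (e2 : ℕ) = n / 2)
    (he : e1 ≠ e2) {d d' : Fin n → F} (hd : ∀ i, d i * d' i = 1) {w x z : F} (h : w * z + x * x = 1)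
    (hr : ∀ i : Fin n, (i : ℕ) + 1 < n / 2 → d i * d (Fin.rev i) = 1) (hx : x = a * (w + z)) :
    TG he hd h ∈ OQ n a := by
  intro v
  have two : (2 : F) = 0 := CharTwo.two_eq_zero
  have hv1 : mv (TG he hd h) v e1 = w * v e1 + x * v e2 := TM_row1 he _ _ _ _ _ _
  have hv2 : mv (TG he hd h) v e2 = x * v e1 + z * v e2 := TM_row2 he _ _ _ _ _ _
  have hv : ∀ i, i ≠ e1 → i ≠ e2 → mv (TG he hd h) v i = d i * v i := fun i h3 h4 =>
    TM_row _ _ _ _ _ _ h3 h4
  rw [Qa_mid a hn h1 h2, Qa_mid a hn h1 h2, hv1, hv2]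
  have hs : (∑ i : Fin n, if (i : ℕ) + 1 < n / 2 then mv (TG he hd h) v i * mv (TG he hd h) v (Fin.rev i) else 0) =
      ∑ i : Fin n, if (i : ℕ) + 1 < n / 2 then v i * v (Fin.rev i) else 0 := by
    refine Finset.sum_congr rfl fun i _ => ?_
    split_ifs with h3
    · have h4 : ((Fin.rev i : Fin n) : ℕ) = n - (i + 1) := Fin.val_rev i
      have h5 := i.isLt
      have hn2 : n % 2 = 0 := Nat.even_iff.1 hn
      rw [hv i (by rintro rfl; omega) (by rintro rfl; omega),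
        hv (Fin.rev i) (fun h6 => by rw [h6] at h4; omega) (fun h6 => by rw [h6] at h4; omega)]
      linear_combination (v i * v (Fin.rev i)) * hr i h3
    · rfl
  rw [hs]
  subst hx
  linear_combination (v e1 * v e2 + a * (v e1 ^ 2 + v e2 ^ 2)) * h + (a * (w * (a * (w + z)) + a * (w + z) * z) * (v e1 * v e2) +
    a * w ^ 2 * v e1 ^ 2 + a * z ^ 2 * v e2 ^ 2) * two

theorem torus_aniso (hn : Even n) (ha : Aniso a) (c : Fin n → Fin n → F) (hc : ∀ i j, Sm n i j → ¬ Mid n j → c i j ≠ 0)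
    {p r : F} (hpr : ¬ (p = 0 ∧ r = 0)) :
    ∃ t ∈ Lo (zo n a), ∀ u : GL (Fin n) F,
      (∀ i j : Fin n, Sm n i j → ¬ Mid n j →
        ((t * u * t⁻¹ : GL (Fin n) F) : Matrix (Fin n) (Fin n) F) i j = c i j * (u : Matrix (Fin n) (Fin n) F) i j) ∧
      ∀ i i1 i2 : Fin n, 2 * (i : ℕ) + 4 = n → (i1 : ℕ) = i + 1 → (i2 : ℕ) = i + 2 →
        ((t * u * t⁻¹ : GL (Fin n) F) : Matrix (Fin n) (Fin n) F) i i1 =
          (u : Matrix (Fin n) (Fin n) F) i i1 * p + (u : Matrix (Fin n) (Fin n) F) i i2 * (a * (p + r)) ∧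
        ((t * u * t⁻¹ : GL (Fin n) F) : Matrix (Fin n) (Fin n) F) i i2 =
          (u : Matrix (Fin n) (Fin n) F) i i1 * (a * (p + r)) + (u : Matrix (Fin n) (Fin n) F) i i2 * r := by
  have hn2 : n % 2 = 0 := Nat.even_iff.1 hn
  have ha0 : a ≠ 0 := by
    rintro rfl
    exact one_ne_zero (ha (1 : F) 0 (by ring)).1
  by_cases h4 : 4 ≤ n
  swap
  · refine ⟨1, Subgroup.one_mem _, fun u => ⟨fun i j hij => ?_, fun i i1 i2 hi => ?_⟩⟩
    · exfalso
      unfold Sm at hij
      omega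
    · exfalso
      omega
  obtain ⟨e1, he1⟩ : ∃ e1 : Fin n, (e1 : ℕ) + 1 = n / 2 := ⟨⟨n / 2 - 1, by omega⟩, by
    show n / 2 - 1 + 1 = n / 2
    omega⟩
  obtain ⟨e2, he2⟩ : ∃ e2 : Fin n, (e2 : ℕ) = n / 2 := ⟨⟨n / 2, by omega⟩, rfl⟩
  have he : e1 ≠ e2 := E07_aux.ij_ne he1 he2
  have two : (2 : F) = 0 := CharTwo.two_eq_zero
  have hinj : ∀ x y : F, x ^ 2 = y ^ 2 → x = y := fun x y h => frobenius_inj F 2 h
  obtain ⟨f, hf⟩ : ∃ f : F → F, ∀ x, f x ^ 2 = x := by
    have h1 : Function.Bijective (frobenius F 2) :=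
      Finite.injective_iff_bijective.1 (frobenius_inj F 2)
    choose f hf using h1.2
    exact ⟨f, fun x => hf x⟩
  obtain ⟨δ, hδ⟩ : ∃ δ, δ = p * r + a ^ 2 * (p + r) ^ 2 := ⟨_, rfl⟩
  have hδ0 : δ ≠ 0 := by
    rw [hδ]
    exact C_det ha hpr
  obtain ⟨l, hl⟩ : ∃ l, l = f δ := ⟨_, rfl⟩
  have hl2 : l ^ 2 = δ := by rw [hl, hf]
  have hl0 : l ≠ 0 := by
    rintro rfl
    apply hδ0
    rw [← hl2]
    ring
  -- the block
  obtain ⟨w, hw⟩ : ∃ w, w = l⁻¹ * r := ⟨_, rfl⟩
  obtain ⟨z, hz⟩ : ∃ z, z = l⁻¹ * p := ⟨_, rfl⟩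
  obtain ⟨x, hx⟩ : ∃ x, x = l⁻¹ * (a * (p + r)) := ⟨_, rfl⟩
  have hxa : x = a * (w + z) := by
    rw [hx, hw, hz]
    ring
  have hwz : w * z + x * x = 1 := by
    rw [hw, hz, hx]
    have h1 : l⁻¹ * r * (l⁻¹ * p) + l⁻¹ * (a * (p + r)) * (l⁻¹ * (a * (p + r))) = l⁻¹ ^ 2 * δ := by
      rw [hδ]
      ring
    rw [h1, ← hl2, ← mul_pow, inv_mul_cancel₀ hl0, one_pow]
  obtain ⟨g, hg⟩ : ∃ g, g = f (w + z) := ⟨_, rfl⟩
  have hg2 : g ^ 2 = w + z := by rw [hg, hf]
  obtain ⟨w', hw'⟩ : ∃ w', w' = f w + a * g := ⟨_, rfl⟩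
  obtain ⟨z', hz'⟩ : ∃ z', z' = w' + g := ⟨_, rfl⟩
  have hw2 : w' ^ 2 = w + a ^ 2 * g ^ 2 := by
    rw [hw']
    linear_combination hf w + (f w * (a * g)) * two
  have hz2 : z' ^ 2 = z + a ^ 2 * g ^ 2 := by
    rw [hz']
    linear_combination hw2 + hg2 + (w' * g + w) * two
  have hxs : a * g = a * (w' + z') := by
    rw [hz']
    linear_combination (-(a * w')) * two
  have hdet : w' * z' + a * g * (a * g) = 1 := by
    apply hinj
    have h1 : (w' * z' + a * g * (a * g)) ^ 2 = w' ^ 2 * z' ^ 2 + a ^ 4 * g ^ 4 := by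
      linear_combination (w' * z' * (a * g * (a * g))) * two
    rw [h1, hw2, hz2]
    rw [hxa] at hwz
    linear_combination hwz + (a ^ 2 * (w + z)) * hg2 + (a ^ 4 * g ^ 4) * two
  -- the diagonal entries
  obtain ⟨c', hc'⟩ : ∃ c' : ℕ → F, c' = fun k => if h : k + 1 < n then c ⟨k, by omega⟩ ⟨k + 1, h⟩ else 1 := ⟨_, rfl⟩
  obtain ⟨D, hD⟩ : ∃ D : ℕ → F, D = fun i => (∏ j ∈ Finset.Ico i (n / 2 - 2), c' j) * l := ⟨_, rfl⟩
  have hc0 : ∀ k, k < n / 2 - 2 → c' k ≠ 0 := by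
    intro k hk
    rw [hc']
    show (if h : k + 1 < n then c ⟨k, by omega⟩ ⟨k + 1, h⟩ else 1) ≠ 0
    rw [dif_pos (show k + 1 < n by omega)]
    refine hc _ _ (Or.inl ⟨rfl, ?_⟩) ?_
    · show 2 * k + 4 ≤ n
      omega
    · unfold Mid
      show ¬ (k + 1 + 1 = n / 2 ∨ k + 1 = n / 2)
      omega
  have hD0 : ∀ i, D i ≠ 0 := by
    intro i
    rw [hD]
    refine mul_ne_zero (Finset.prod_ne_zero_iff.2 fun j hj => hc0 j ?_) hl0
    rw [Finset.mem_Ico] at hj
    exact hj.2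
  have hDs : ∀ i, i < n / 2 - 2 → D i = c' i * D (i + 1) := by
    intro i hi
    rw [hD]
    show (∏ j ∈ Finset.Ico i (n / 2 - 2), c' j) * l = c' i * ((∏ j ∈ Finset.Ico (i + 1) (n / 2 - 2), c' j) * l)
    rw [Finset.prod_eq_prod_Ico_succ_bot hi, mul_assoc]
  have hDe : D (n / 2 - 2) = l := by
    rw [hD]
    show (∏ j ∈ Finset.Ico (n / 2 - 2) (n / 2 - 2), c' j) * l = l
    rw [Finset.Ico_self, Finset.prod_empty, one_mul]
  obtain ⟨d, hd⟩ : ∃ d : Fin n → F, d = fun i : Fin n => if (i : ℕ) < n / 2 then D i else (D (n - 1 - i))⁻¹ := ⟨_, rfl⟩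
  have hd1 : ∀ i : Fin n, (i : ℕ) < n / 2 → d i = D i := by
    intro i hi
    rw [hd]
    exact if_pos hi
  have hd2 : ∀ i : Fin n, ¬ (i : ℕ) < n / 2 → d i = (D (n - 1 - i))⁻¹ := by
    intro i hi
    rw [hd]
    exact if_neg hi
  have hd0 : ∀ i, d i ≠ 0 := by
    intro i
    by_cases hi : (i : ℕ) < n / 2
    · rw [hd1 i hi]
      exact hD0 _
    · rw [hd2 i hi]
      exact inv_ne_zero (hD0 _)
  have hdr : ∀ i : Fin n, (i : ℕ) + 1 < n / 2 → d i * d (Fin.rev i) = 1 := by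
    intro i hi
    have h5 : ((Fin.rev i : Fin n) : ℕ) = n - (i + 1) := Fin.val_rev i
    rw [hd1 i (by omega), hd2 (Fin.rev i) (by omega), h5, show n - 1 - (n - ((i : ℕ) + 1)) = (i : ℕ) by omega,
      mul_inv_cancel₀ (hD0 _)]
  have hdd : ∀ i, d i * (d i)⁻¹ = 1 := fun i => mul_inv_cancel₀ (hd0 i)
  have hfm : ∀ x y, x * y = 1 → f x * f y = 1 := by
    intro x y hxy
    apply hinj
    rw [mul_pow, hf, hf, hxy, one_pow]
  have hfd : ∀ i, f (d i) * f (d i)⁻¹ = 1 := fun i => hfm _ _ (hdd i)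
  -- the square root
  obtain ⟨s, hs⟩ : ∃ s, s = TG he hfd hdet := ⟨_, rfl⟩
  have hsO : s ∈ OQ n a := by
    rw [hs]
    exact TG_OQ hn he1 he2 he hfd hdet (fun i hi => hfm _ _ (hdr i hi)) hxs
  obtain ⟨t, ht⟩ : ∃ t, t = TG he hdd hwz := ⟨_, rfl⟩
  have hts : t = s * s := by
    apply Units.ext
    rw [ht, hs, Units.val_mul, TG_val, TG_val, TM_mul he]
    have e1' : (fun i => f (d i) * f (d i)) = d := by
      funext i
      rw [← sq, hf]
    have e2' : w' * w' + a * g * (a * g) = w := by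
      linear_combination hw2 + (a ^ 2 * g ^ 2) * two
    have e3' : w' * (a * g) + a * g * z' = x := by
      rw [hxa, hz']
      linear_combination a * hg2 + (a * g * w') * two
    have e4' : a * g * w' + z' * (a * g) = x := by
      rw [← e3']
      ring
    have e5' : a * g * (a * g) + z' * z' = z := by
      linear_combination hz2 + (a ^ 2 * g ^ 2) * two
    rw [e1', e2', e3', e4', e5']
  have htO : t ∈ OQ n a := by
    rw [hts]
    exact Subgroup.mul_mem _ hsO hsO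
  have htOm : t ∈ Om n a := by
    rw [mem_Om hn]
    refine ⟨htO, ?_⟩
    rw [hts, par_mul hn hsO hsO]
  have htv : (t : Matrix (Fin n) (Fin n) F) = TM e1 e2 d w x x z := by
    rw [ht, TG_val]
  have htv' : ((t⁻¹ : GL (Fin n) F) : Matrix (Fin n) (Fin n) F) = TM e1 e2 (fun i => (d i)⁻¹) z x x w := by
    rw [ht, TG_inv]
  refine ⟨t, (mem_Lo hn).2 ⟨htOm, fun i j hij => ?_⟩, fun u => ⟨fun i j hij hj => ?_, fun i i1 i2 hi h1 h2 => ?_⟩⟩
  · rw [htv]
    have hne : i ≠ j := by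
      rintro rfl
      exact hij rfl
    have hnm : ¬ (Mid n i ∧ Mid n j) := fun h => hij (zo_mid ha0 h.1 h.2)
    unfold TM
    by_cases h1 : i = e1
    · have hm : Mid n i := (E07_aux.mid_iff he1 he2 i).2 (Or.inl h1)
      rw [if_pos h1, if_neg (fun h => hne (h1.trans h.symm)),
        if_neg (fun h => hnm ⟨hm, (E07_aux.mid_iff he1 he2 j).2 (Or.inr h)⟩)]
    · rw [if_neg h1]
      by_cases h2 : i = e2
      · have hm : Mid n i := (E07_aux.mid_iff he1 he2 i).2 (Or.inr h2)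
        rw [if_pos h2, if_neg (fun h => hnm ⟨hm, (E07_aux.mid_iff he1 he2 j).2 (Or.inl h)⟩),
          if_neg (fun h => hne (h2.trans h.symm))]
      · rw [if_neg h2, if_neg hne]
  · have hi : (i : ℕ) < n / 2 - 2 ∧ (j : ℕ) = i + 1 := by
      unfold Sm at hij
      unfold Mid at hj
      omega
    have hi1 : i ≠ e1 := by
      rintro rfl
      omega
    have hi2 : i ≠ e2 := by
      rintro rfl
      omega
    have hj1 : j ≠ e1 := by
      rintro rfl
      omega
    have hj2 : j ≠ e2 := by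
      rintro rfl
      omega
    rw [Units.val_mul, Units.val_mul, htv, htv', Matrix.mul_apply, TM_col _ _ _ _ _ _ hj1 hj2, Matrix.mul_apply,
      TM_row _ _ _ _ _ _ hi1 hi2, hd1 i (by omega), hd1 j (by omega), hDs i hi.1, hi.2]
    have h5 : c' i = c i j := by
      rw [hc']
      show (if h : (i : ℕ) + 1 < n then c ⟨i, _⟩ ⟨(i : ℕ) + 1, h⟩ else 1) = c i j
      rw [dif_pos (show (i : ℕ) + 1 < n by omega)]
      exact congrArg₂ c rfl (Fin.ext hi.2.symm)
    rw [h5]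
    have h6 := hD0 ((i : ℕ) + 1)
    field_simp
  · have hi1 : i ≠ e1 := by
      rintro rfl
      omega
    have hi2 : i ≠ e2 := by
      rintro rfl
      omega
    have h5 : i1 = e1 := Fin.ext (by omega)
    have h6 : i2 = e2 := Fin.ext (by omega)
    have h7 : (i : ℕ) = n / 2 - 2 := by omega
    rw [Units.val_mul, Units.val_mul, htv, htv', h5, h6, Matrix.mul_apply, Matrix.mul_apply,
      TM_col1 he, TM_col2 he, Matrix.mul_apply, Matrix.mul_apply, TM_row _ _ _ _ _ _ hi1 hi2,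
      TM_row _ _ _ _ _ _ hi1 hi2, hd1 i (by omega), h7, hDe, hw, hz, hx]
    constructor
    · field_simp
    · field_simp

end

end OR
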