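import Pool.Agent.OR.I20
import Pool.Agent.OR.I21
import Pool.Agent.OR.I11
import Pool.Agent.OR.I12
import Pool.Agent.OR.I05
import Pool.Agent.LieP.I30

/-!
# MP_6c3636_al, OR, module I24: (W2) at zo for the split form (stub of helper40)

For `Sm n i j` let `y` be the coweight of `β = rto 0 i j` (`exists_cw`, dominant by `dom_of`): `cx y q < cx y p` for `Sm n p q` iff `rto 0 p q = β` iff `(p, q) = (i, j)` (for `a = 0` different simple pairs have different roots: `sm_inj`, by evaluating on coweights or coordinates). So `face_o` for `l`, `l'` and the hypothesis give: `l (xs 0 i j s) = 1` for all `s` iff `l' (xs 0 i j s) = 1` for all `s`. `c i j := 1` if this is the case; otherwise `ff1` (LieP/I30) for the additive functions `s ↦ l (xs 0 i j s)`, `s ↦ l' (xs 0 i j s)` (`xs_mul`, `Lin`) gives `c i j ≠ 0` with `l' (xs 0 i j s) = l (xs 0 i j (c i j * s))`. `t` of `torus_split`. `u ↦ l (t * u * t⁻¹)` is linear on `UZ` (`t`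 normalizes `UZ = Uo zo`: `o_s4`), and by `lin_congr'` `l (t * xs 0 i j s * t⁻¹) = l (xs 0 i j (c i j * s))` (same entries at the simple pairs: `xs_entry`). So `lin_ext'`.
-/

namespace OR

noncomputable section

open Classical Matrix CF

open LieP (En UG UL Lin)

open LieP.GI (pinv pinv' UU mem_UU mem_UL)

variable {n : ℕ} {F : Type} [Field F] [Finite F] [CharP F 2] {a : F}

namespace I24_aux

/-- test points -/
def pt (F : Type) [Field F] (s : Fin n) : EA n (0 : F) :=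
  ofx (0 : F) (fun k => (if k = s then (1 : ℝ) else 0) - (if Fin.rev k = s then (1 : ℝ) else 0))
    (fun k => by
      show (if Fin.rev k = s then (1 : ℝ) else 0) - (if Fin.rev (Fin.rev k) = s then (1 : ℝ) else 0) =
        -((if k = s then (1 : ℝ) else 0) - (if Fin.rev k = s then (1 : ℝ) else 0))
      rw [Fin.rev_rev]
      ring)
    (fun h => absurd rfl h)

theorem cx_pt (s k : Fin n) : cx (pt F s) k =
    (if k = s then (1 : ℝ) else 0) - (if Fin.rev k = s then (1 : ℝ) else 0) := rfl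

theorem sm_rev {i j p q : Fin n} (h : Sm n i j) (h' : Sm n p q) : Fin.rev p ≠ i ∧ Fin.rev q ≠ i ∧
    Fin.rev p ≠ j := by
  have h1 := Fin.val_rev p
  have h2 := Fin.val_rev q
  have h3 := i.2
  have h4 := p.2
  have h5 := j.2
  have h6 := q.2
  unfold Sm at h h'
  refine ⟨fun h7 => ?_, fun h7 => ?_, fun h7 => ?_⟩
  · rw [h7] at h1
    omega
  · rw [h7] at h2
    omega
  · rw [h7] at h1
    omega

theorem cw_pair (hn : Even n) {i j : Fin n} (h : Sm n i j) : ∃ y : EA n (0 : F),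
    (∀ α ∈ Ro n (0 : F), 0 < inner ℝ α y → 0 < inner ℝ α (zo n (0 : F))) ∧
    cx y j < cx y i ∧
    ∀ p q : Fin n, Sm n p q → cx y q < cx y p → rto (0 : F) p q = rto (0 : F) i j := by
  have hβ : rto (0 : F) i j ∈ Dlo n (0 : F) := mem_Dlo.2 ⟨i, j, h, rfl⟩
  obtain ⟨y, hy1, hy2⟩ := exists_cw hn hβ
  refine ⟨y, ?_, pos_rto.1 hy1, ?_⟩
  · refine dom_of hn fun β' hβ' => ?_
    by_cases hb : β' = rto (0 : F) i j
    · rw [hb]
      exact hy1.le
    · exact (hy2 β' hβ' hb).ge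
  · intro p q hpq hlt
    by_contra hne
    have h1 := hy2 (rto (0 : F) p q) (mem_Dlo.2 ⟨p, q, hpq, rfl⟩) hne
    rw [zero_rto] at h1
    exact absurd h1 (ne_of_gt hlt)

end I24_aux

theorem sm_inj (hn : Even n) {i j p q : Fin n} (h : Sm n i j) (h' : Sm n p q) (he : rto (0 : F) i j = rto (0 : F) p q) :
    i = p ∧ j = q := by
  have key : ∀ s : Fin n, cx (I24_aux.pt F s) i - cx (I24_aux.pt F s) j =
      cx (I24_aux.pt F s) p - cx (I24_aux.pt F s) q := by
    intro s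
    rw [← inner_rto, ← inner_rto, he]
  obtain ⟨a1, a2, a3⟩ := I24_aux.sm_rev h h'
  obtain ⟨b1, b2, b3⟩ := I24_aux.sm_rev h h
  have c1 := h.ne
  have hip : i = p := by
    have h1 := key i
    rw [I24_aux.cx_pt, I24_aux.cx_pt, I24_aux.cx_pt, I24_aux.cx_pt, if_pos rfl, if_neg b1, if_neg c1.symm, if_neg b2,
      if_neg a1, if_neg a2] at h1
    by_contra hne
    rw [if_neg (fun h2 => hne h2.symm)] at h1
    split_ifs at h1 <;> norm_num at h1
  refine ⟨hip, ?_⟩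
  have h1 := key j
  rw [I24_aux.cx_pt, I24_aux.cx_pt, I24_aux.cx_pt, I24_aux.cx_pt, if_pos rfl, if_neg c1, ← hip, if_neg c1, if_neg b3,
    if_neg (rev_ne hn j)] at h1
  by_contra hne
  rw [if_neg (fun h2 => hne h2.symm)] at h1
  split_ifs at h1 <;> norm_num at h1

namespace I24_aux

theorem one_pair (hn : Even n) {l l' : GL (Fin n) F → ℤˣ} (hl : Lin (Uo (zo n (0 : F))) l)
    (hl' : Lin (Uo (zo n (0 : F))) l')
    (h : ∀ y : EA n (0 : F), (∀ α ∈ Ro n (0 : F), 0 < inner ℝ α y → 0 < inner ℝ α (zo n (0 : F))) →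
      ((∀ u ∈ Uo y, l u = 1) ↔ ∀ u ∈ Uo y, l' u = 1)) {i j : Fin n} (hij : Sm n i j) :
    (∀ s, l (xs (0 : F) i j s) = 1) ↔ ∀ s, l' (xs (0 : F) i j s) = 1 := by
  obtain ⟨y, hy, hlt, hy2⟩ := cw_pair (F := F) hn hij
  have h1 := h y hy
  rw [face_o hn hl hy, face_o hn hl' hy] at h1
  constructor
  · intro h2
    refine h1.1 (fun p q hpq hlt' => ?_) i j hij hlt
    obtain ⟨rfl, rfl⟩ := sm_inj hn hpq hij (hy2 p q hpq hlt')
    exact h2
  · intro h2
    refine h1.2 (fun p q hpq hlt' => ?_) i j hij hlt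
    obtain ⟨rfl, rfl⟩ := sm_inj hn hpq hij (hy2 p q hpq hlt')
    exact h2

theorem add_xs (hn : Even n) {l : GL (Fin n) F → ℤˣ} (hl : Lin (Uo (zo n (0 : F))) l) {i j : Fin n} (hij : Sm n i j)
    (s t : F) : l (xs (0 : F) i j (s + t)) = l (xs (0 : F) i j s) * l (xs (0 : F) i j t) := by
  rw [← xs_mul hn hij]
  exact hl _ (xs_mem hn hij s) _ (xs_mem hn hij t)

theorem factor (hn : Even n) {l l' : GL (Fin n) F → ℤˣ} (hl : Lin (Uo (zo n (0 : F))) l)
    (hl' : Lin (Uo (zo n (0 : F))) l') {i j : Fin n} (hij : Sm n i j)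
    (h : (∀ s, l (xs (0 : F) i j s) = 1) ↔ ∀ s, l' (xs (0 : F) i j s) = 1) :
    ∃ c : F, c ≠ 0 ∧ ∀ s, l' (xs (0 : F) i j s) = l (xs (0 : F) i j (c * s)) := by
  by_cases h0 : ∀ s, l (xs (0 : F) i j s) = 1
  · refine ⟨1, one_ne_zero, fun s => ?_⟩
    rw [one_mul, h0 s, h.1 h0 s]
  · have h0' : ¬ ∀ s, l' (xs (0 : F) i j s) = 1 := fun h1 => h0 (h.2 h1)
    rw [not_forall] at h0 h0'
    exact LieP.ff1 (ψ := fun s => l (xs (0 : F) i j s)) (ψ₂ := fun s => l' (xs (0 : F) i j s))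
      (add_xs hn hl hij) (add_xs hn hl' hij) h0 h0'

end I24_aux

theorem bw2_split (hn : Even n) : ∀ l l' : GL (Fin n) F → ℤˣ, Lin (Uo (zo n (0 : F))) l → Lin (Uo (zo n (0 : F))) l' →
    (∀ y : EA n (0 : F), (∀ α ∈ Ro n (0 : F), 0 < inner ℝ α y → 0 < inner ℝ α (zo n (0 : F))) →
      ((∀ u ∈ Uo y, l u = 1) ↔ ∀ u ∈ Uo y, l' u = 1)) →
    ∃ s ∈ Lo (zo n (0 : F)), ∀ u ∈ Uo (zo n (0 : F)), l' u = l (s * u * s⁻¹) := by
  intro l l' hl hl' h
  have hc : ∀ i j : Fin n, ∃ c : F, Sm n i j → c ≠ 0 ∧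
      ∀ s, l' (xs (0 : F) i j s) = l (xs (0 : F) i j (c * s)) := by
    intro i j
    by_cases hij : Sm n i j
    · obtain ⟨c, h1⟩ := I24_aux.factor hn hl hl' hij (I24_aux.one_pair hn hl hl' h hij)
      exact ⟨c, fun _ => h1⟩
    · exact ⟨1, fun h1 => absurd h1 hij⟩
  choose c hc using hc
  obtain ⟨t, ht, ht'⟩ := torus_split hn c (fun i j hij => (hc i j hij).1)
  refine ⟨t, ht, ?_⟩
  have hN : ∀ u ∈ Uo (zo n (0 : F)), t * u * t⁻¹ ∈ Uo (zo n (0 : F)) := fun u hu => o_s4 hn _ t ht u hu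
  have hl2 : Lin (UZ n (0 : F)) (fun u => l (t * u * t⁻¹)) := by
    intro u hu v hv
    show l (t * (u * v) * t⁻¹) = l (t * u * t⁻¹) * l (t * v * t⁻¹)
    rw [← hl _ (hN u hu) _ (hN v hv)]
    congr 1
    group
  have key := lin_ext' hn (l := l') (l' := fun u => l (t * u * t⁻¹)) hl' hl2 (fun i j hij s => by
    show l' (xs (0 : F) i j s) = l (t * xs (0 : F) i j s * t⁻¹)
    rw [(hc i j hij).2 s]
    refine lin_congr' hn hl (xs_mem hn hij _) (hN _ (xs_mem hn hij s)) fun p q hpq => ?_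
    rw [ht' _ p q hpq, xs_entry hn hij hpq, xs_entry hn hij hpq]
    by_cases hpq' : p = i ∧ q = j
    · rw [if_pos hpq', if_pos hpq', hpq'.1, hpq'.2]
    · rw [if_neg hpq', if_neg hpq', mul_zero])
  intro u hu
  exact key u hu

end

end OR
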