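import Pool.Agent.OR.I20
import Pool.Agent.OR.I23
import Pool.Agent.OR.I24
import Pool.Agent.OR.I11
import Pool.Agent.OR.I12
import Pool.Agent.OR.I05
import Pool.Agent.LieP.I30

/-!
# MP_6c3636_al, OR, module I25: (W2) at zo for the anisotropic form

As I24. For `Sm n i j` with `j` not in the middle: the coweight of `rto a i j` is positive only on this pair (`sm_inj'`), so `l`, `l'` are trivial on `xs a i j s` at the same time; `c i j` as in I24. For `2 * i + 4 = n`, `i1 = i + 1`, `i2 = i + 2` (the middle indices): `rto a i i1 = rto a i i2`, and for its coweight `y` the simple pairs with `cx y q < cx y p` are `(i, i1)`, `(i, i2)`; put `χ s t := l (xs a i i1 s) * l (xs a i i2 t)`, `χ'` the same for `l'`. By `face_o` `χ` is trivial iff `χ'` is. If both are nontrivial take `p r` of `plane_char`; otherwise `p = r = 1` (`a (p + r) = 0`). `t` of `torus_aniso`. Compare on `xs a i j s` (`lin_ext'`, `lin_congr'`).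
-/

namespace OR

noncomputable section

open Classical Matrix CF

open LieP (En UG UL Lin)

open LieP.GI (pinv pinv' UU mem_UU mem_UL)

variable {n : ℕ} {F : Type} [Field F] [Finite F] [CharP F 2] {a : F}

namespace I25_aux

/-- test points -/
def pt (a : F) (s : Fin n) : EA n a :=
  ofx a (msk a fun k => (if k = s then (1 : ℝ) else 0) - (if Fin.rev k = s then (1 : ℝ) else 0))
    (msk_rev a fun k => by
      show (if Fin.rev k = s then (1 : ℝ) else 0) - (if Fin.rev (Fin.rev k) = s then (1 : ℝ) else 0) =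
        -((if k = s then (1 : ℝ) else 0) - (if Fin.rev k = s then (1 : ℝ) else 0))
      rw [Fin.rev_rev]
      ring) (msk_mid a _)

omit [Finite F] [CharP F 2] in
theorem cx_pt (hn : Even n) (s : Fin n) {k : Fin n} (hk : ¬ Mid n k) : cx (pt a s) k =
    (if k = s then (1 : ℝ) else 0) - (if Fin.rev k = s then (1 : ℝ) else 0) := by
  unfold pt
  rw [cx_ofx, msk_of hn a _ hk]

theorem cw_pair (hn : Even n) {i j : Fin n} (h : Sm n i j) : ∃ y : EA n a,
    (∀ α ∈ Ro n a, 0 < inner ℝ α y → 0 < inner ℝ α (zo n a)) ∧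
    cx y j < cx y i ∧
    ∀ p q : Fin n, Sm n p q → cx y q < cx y p → rto a p q = rto a i j := by
  have hβ : rto a i j ∈ Dlo n a := mem_Dlo.2 ⟨i, j, h, rfl⟩
  obtain ⟨y, hy1, hy2⟩ := exists_cw hn hβ
  refine ⟨y, ?_, pos_rto.1 hy1, ?_⟩
  · refine dom_of hn fun β' hβ' => ?_
    by_cases hb : β' = rto a i j
    · rw [hb]
      exact hy1.le
    · exact (hy2 β' hβ' hb).ge
  · intro p q hpq hlt
    by_contra hne
    have h1 := hy2 (rto a p q) (mem_Dlo.2 ⟨p, q, hpq, rfl⟩) hne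
    rw [zero_rto] at h1
    exact absurd h1 (ne_of_gt hlt)

end I25_aux

theorem sm_inj' (hn : Even n) (ha : a ≠ 0) {i j p q : Fin n} (h : Sm n i j) (h' : Sm n p q)
    (he : rto a i j = rto a p q) : i = p ∧ (j = q ∨ (Mid n j ∧ Mid n q)) := by
  have key : ∀ s : Fin n, cx (I25_aux.pt a s) i - cx (I25_aux.pt a s) j =
      cx (I25_aux.pt a s) p - cx (I25_aux.pt a s) q := by
    intro s
    rw [← inner_rto, ← inner_rto, he]
  obtain ⟨a1, a2, a3⟩ := I24_aux.sm_rev h h'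
  obtain ⟨b1, b2, b3⟩ := I24_aux.sm_rev h h
  obtain ⟨d1, d2, d3⟩ := I24_aux.sm_rev h' h'
  have c1 := h.ne
  have c2 := h'.ne
  have hip : i = p := by
    have h1 := key i
    by_contra hne
    have e1 : cx (I25_aux.pt a i) i = 1 := by
      rw [I25_aux.cx_pt hn i h.nmid, if_pos rfl, if_neg b1, sub_zero]
    have e2 : cx (I25_aux.pt a i) j = 0 := by
      by_cases hj : Mid n j
      · exact cx_mid ha _ hj
      · rw [I25_aux.cx_pt hn i hj, if_neg c1.symm, if_neg b2, sub_zero]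
    have e3 : cx (I25_aux.pt a i) p = 0 := by
      rw [I25_aux.cx_pt hn i h'.nmid, if_neg (fun h2 => hne h2.symm), if_neg a1, sub_zero]
    have e4 : 0 ≤ cx (I25_aux.pt a i) q := by
      by_cases hq : Mid n q
      · exact (cx_mid ha _ hq).ge
      · rw [I25_aux.cx_pt hn i hq, if_neg a2, sub_zero]
        split_ifs <;> norm_num
    rw [e1, e2, e3] at h1
    linarith
  refine ⟨hip, ?_⟩
  by_cases hj : Mid n j
  · by_cases hq : Mid n q
    · exact Or.inr ⟨hj, hq⟩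
    · exfalso
      have h1 := key q
      have e2 : cx (I25_aux.pt a q) j = 0 := cx_mid ha _ hj
      have e4 : cx (I25_aux.pt a q) q = 1 := by
        rw [I25_aux.cx_pt hn q hq, if_pos rfl, if_neg (rev_ne hn q), sub_zero]
      rw [e2, e4, hip] at h1
      linarith
  · left
    have h1 := key j
    by_contra hne
    have e4 : cx (I25_aux.pt a j) j = 1 := by
      rw [I25_aux.cx_pt hn j hj, if_pos rfl, if_neg (rev_ne hn j), sub_zero]
    have e5 : cx (I25_aux.pt a j) q ≤ 0 := by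
      by_cases hq : Mid n q
      · exact (cx_mid ha _ hq).le
      · rw [I25_aux.cx_pt hn j hq, if_neg (fun h2 => hne h2.symm)]
        split_ifs <;> norm_num
    rw [e4, hip] at h1
    linarith

namespace I25_aux

theorem one_pair (hn : Even n) (ha : a ≠ 0) {l l' : GL (Fin n) F → ℤˣ} (hl : Lin (Uo (zo n a)) l)
    (hl' : Lin (Uo (zo n a)) l')
    (h : ∀ y : EA n a, (∀ α ∈ Ro n a, 0 < inner ℝ α y → 0 < inner ℝ α (zo n a)) →
      ((∀ u ∈ Uo y, l u = 1) ↔ ∀ u ∈ Uo y, l' u = 1)) {i j : Fin n} (hij : Sm n i j) (hj : ¬ Mid n j) :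
    (∀ s, l (xs a i j s) = 1) ↔ ∀ s, l' (xs a i j s) = 1 := by
  obtain ⟨y, hy, hlt, hy2⟩ := cw_pair (a := a) hn hij
  have h1 := h y hy
  rw [face_o hn hl hy, face_o hn hl' hy] at h1
  have key : ∀ p q : Fin n, Sm n p q → cx y q < cx y p → p = i ∧ q = j := by
    intro p q hpq hlt'
    obtain ⟨h2, h3⟩ := sm_inj' hn ha hpq hij (hy2 p q hpq hlt')
    rcases h3 with h3 | h3
    · exact ⟨h2, h3⟩
    · exact absurd h3.2 hj
  constructor
  · intro h2
    refine h1.1 (fun p q hpq hlt' => ?_) i j hij hlt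
    obtain ⟨rfl, rfl⟩ := key p q hpq hlt'
    exact h2
  · intro h2
    refine h1.2 (fun p q hpq hlt' => ?_) i j hij hlt
    obtain ⟨rfl, rfl⟩ := key p q hpq hlt'
    exact h2

theorem add_xs (hn : Even n) {l : GL (Fin n) F → ℤˣ} (hl : Lin (Uo (zo n a)) l) {i j : Fin n} (hij : Sm n i j)
    (s t : F) : l (xs a i j (s + t)) = l (xs a i j s) * l (xs a i j t) := by
  rw [← xs_mul hn hij]
  exact hl _ (xs_mem hn hij s) _ (xs_mem hn hij t)

theorem factor (hn : Even n) {l l' : GL (Fin n) F → ℤˣ} (hl : Lin (Uo (zo n a)) l)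
    (hl' : Lin (Uo (zo n a)) l') {i j : Fin n} (hij : Sm n i j)
    (h : (∀ s, l (xs a i j s) = 1) ↔ ∀ s, l' (xs a i j s) = 1) :
    ∃ c : F, c ≠ 0 ∧ ∀ s, l' (xs a i j s) = l (xs a i j (c * s)) := by
  by_cases h0 : ∀ s, l (xs a i j s) = 1
  · refine ⟨1, one_ne_zero, fun s => ?_⟩
    rw [one_mul, h0 s, h.1 h0 s]
  · have h0' : ¬ ∀ s, l' (xs a i j s) = 1 := fun h1 => h0 (h.2 h1)
    rw [not_forall] at h0 h0'
    exact LieP.ff1 (ψ := fun s => l (xs a i j s)) (ψ₂ := fun s => l' (xs a i j s))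
      (add_xs hn hl hij) (add_xs hn hl' hij) h0 h0'

/-- the two middle pairs -/
theorem two_pair (hn : Even n) (ha : a ≠ 0) {l l' : GL (Fin n) F → ℤˣ} (hl : Lin (Uo (zo n a)) l)
    (hl' : Lin (Uo (zo n a)) l')
    (h : ∀ y : EA n a, (∀ α ∈ Ro n a, 0 < inner ℝ α y → 0 < inner ℝ α (zo n a)) →
      ((∀ u ∈ Uo y, l u = 1) ↔ ∀ u ∈ Uo y, l' u = 1)) {i i1 i2 : Fin n} (hi : 2 * (i : ℕ) + 4 = n)
    (hi1 : (i1 : ℕ) = i + 1) (hi2 : (i2 : ℕ) = i + 2) :
    (∀ s t, l (xs a i i1 s) * l (xs a i i2 t) = 1) ↔ ∀ s t, l' (xs a i i1 s) * l' (xs a i i2 t) = 1 := by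
  have S1 : Sm n i i1 := Or.inl ⟨hi1, hi.le⟩
  have S2 : Sm n i i2 := Or.inr ⟨hi, hi2⟩
  have M1 : Mid n i1 := by
    unfold Mid
    omega
  have M2 : Mid n i2 := by
    unfold Mid
    omega
  obtain ⟨y, hy, hlt, hy2⟩ := cw_pair (a := a) hn S1
  have hlt2 : cx y i2 < cx y i := by
    rw [cx_mid ha y M2]
    rw [cx_mid ha y M1] at hlt
    exact hlt
  have h1 := h y hy
  rw [face_o hn hl hy, face_o hn hl' hy] at h1
  have key : ∀ p q : Fin n, Sm n p q → cx y q < cx y p → p = i ∧ (q = i1 ∨ q = i2) := by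
    intro p q hpq hlt'
    obtain ⟨h2, h3⟩ := sm_inj' hn ha hpq S1 (hy2 p q hpq hlt')
    refine ⟨h2, ?_⟩
    rcases h3 with h3 | h3
    · exact Or.inl h3
    · have h4 := h3.1
      unfold Mid at h4
      rw [Fin.ext_iff, Fin.ext_iff]
      omega
  have aux : ∀ {m : GL (Fin n) F → ℤˣ}, Lin (Uo (zo n a)) m →
      ((∀ s t, m (xs a i i1 s) * m (xs a i i2 t) = 1) ↔
        ∀ p q : Fin n, Sm n p q → cx y q < cx y p → ∀ s, m (xs a p q s) = 1) := by
    intro m hm
    have hm1 : m 1 = 1 := lin_one hm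
    constructor
    · intro h2 p q hpq hlt' s
      obtain ⟨rfl, h3 | h3⟩ := key p q hpq hlt'
      · subst h3
        have h4 := h2 s 0
        rw [xs_zero hn S2, hm1, mul_one] at h4
        exact h4
      · subst h3
        have h4 := h2 0 s
        rw [xs_zero hn S1, hm1, one_mul] at h4
        exact h4
    · intro h2 s t
      rw [h2 i i1 S1 hlt, h2 i i2 S2 hlt2, one_mul]
  rw [aux hl, aux hl']
  exact h1

/-- the middle part of the torus element -/
theorem mid_part (hn : Even n) (ha : Aniso a) {l l' : GL (Fin n) F → ℤˣ} (hl : Lin (Uo (zo n a)) l)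
    (hl' : Lin (Uo (zo n a)) l')
    (h : ∀ y : EA n a, (∀ α ∈ Ro n a, 0 < inner ℝ α y → 0 < inner ℝ α (zo n a)) →
      ((∀ u ∈ Uo y, l u = 1) ↔ ∀ u ∈ Uo y, l' u = 1)) :
    ∃ p r : F, ¬ (p = 0 ∧ r = 0) ∧ ∀ i i1 i2 : Fin n, 2 * (i : ℕ) + 4 = n → (i1 : ℕ) = i + 1 → (i2 : ℕ) = i + 2 →
      ∀ s t, l' (xs a i i1 s) * l' (xs a i i2 t) =
        l (xs a i i1 (s * p + t * (a * (p + r)))) * l (xs a i i2 (s * (a * (p + r)) + t * r)) := by
  have ha0 : a ≠ 0 := by
    rintro rfl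
    exact one_ne_zero (ha (1 : F) 0 (by ring)).1
  by_cases hex : ∃ i i1 i2 : Fin n, 2 * (i : ℕ) + 4 = n ∧ (i1 : ℕ) = i + 1 ∧ (i2 : ℕ) = i + 2
  swap
  · exact ⟨1, 1, fun h1 => one_ne_zero h1.1, fun i i1 i2 h1 h2 h3 => absurd ⟨i, i1, i2, h1, h2, h3⟩ hex⟩
  obtain ⟨i, i1, i2, hi, hi1, hi2⟩ := hex
  have S1 : Sm n i i1 := Or.inl ⟨hi1, hi.le⟩
  have S2 : Sm n i i2 := Or.inr ⟨hi, hi2⟩
  have uniq : ∀ j j1 j2 : Fin n, 2 * (j : ℕ) + 4 = n → (j1 : ℕ) = j + 1 → (j2 : ℕ) = j + 2 →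
      j = i ∧ j1 = i1 ∧ j2 = i2 := by
    intro j j1 j2 h1 h2 h3
    rw [Fin.ext_iff, Fin.ext_iff, Fin.ext_iff]
    omega
  have hadd : ∀ {m : GL (Fin n) F → ℤˣ}, Lin (Uo (zo n a)) m → ∀ s s' t t' : F,
      m (xs a i i1 (s + s')) * m (xs a i i2 (t + t')) =
        (m (xs a i i1 s) * m (xs a i i2 t)) * (m (xs a i i1 s') * m (xs a i i2 t')) := by
    intro m hm s s' t t'
    rw [add_xs hn hm S1, add_xs hn hm S2]
    exact mul_mul_mul_comm _ _ _ _
  have h2 := two_pair hn ha0 hl hl' h hi hi1 hi2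
  suffices hs : ∃ p r : F, ¬ (p = 0 ∧ r = 0) ∧ ∀ s t, l' (xs a i i1 s) * l' (xs a i i2 t) =
        l (xs a i i1 (s * p + t * (a * (p + r)))) * l (xs a i i2 (s * (a * (p + r)) + t * r)) by
    obtain ⟨p, r, hpr, h3⟩ := hs
    refine ⟨p, r, hpr, fun j j1 j2 h4 h5 h6 => ?_⟩
    obtain ⟨e1, e2, e3⟩ := uniq j j1 j2 h4 h5 h6
    rw [e1, e2, e3]
    exact h3
  by_cases h0 : ∀ s t, l (xs a i i1 s) * l (xs a i i2 t) = 1
  · refine ⟨1, 1, fun h1 => one_ne_zero h1.1, fun s t => ?_⟩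
    rw [h2.1 h0 s t, h0]
  · have h0' : ¬ ∀ s t, l' (xs a i i1 s) * l' (xs a i i2 t) = 1 := fun h1 => h0 (h2.2 h1)
    obtain ⟨p, r, hpr, h3⟩ := plane_char ha (χ := fun s t => l (xs a i i1 s) * l (xs a i i2 t))
      (χ' := fun s t => l' (xs a i i1 s) * l' (xs a i i2 t)) (hadd hl) (hadd hl')
      (by
        simp only [not_forall] at h0
        exact h0)
      (by
        simp only [not_forall] at h0'
        exact h0')
    exact ⟨p, r, hpr, h3⟩

end I25_aux

theorem bw2_aniso (hn : Even n) (ha : Aniso a) : ∀ l l' : GL (Fin n) F → ℤˣ, Lin (Uo (zo n a)) l →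
    Lin (Uo (zo n a)) l' →
    (∀ y : EA n a, (∀ α ∈ Ro n a, 0 < inner ℝ α y → 0 < inner ℝ α (zo n a)) →
      ((∀ u ∈ Uo y, l u = 1) ↔ ∀ u ∈ Uo y, l' u = 1)) →
    ∃ s ∈ Lo (zo n a), ∀ u ∈ Uo (zo n a), l' u = l (s * u * s⁻¹) := by
  intro l l' hl hl' h
  have ha0 : a ≠ 0 := by
    rintro rfl
    exact one_ne_zero (ha (1 : F) 0 (by ring)).1
  have hc : ∀ i j : Fin n, ∃ c : F, c ≠ 0 ∧ (Sm n i j → ¬ Mid n j →
      ∀ s, l' (xs a i j s) = l (xs a i j (c * s))) := by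
    intro i j
    by_cases hij : Sm n i j ∧ ¬ Mid n j
    · obtain ⟨c, h1, h2⟩ := I25_aux.factor hn hl hl' hij.1 (I25_aux.one_pair hn ha0 hl hl' h hij.1 hij.2)
      exact ⟨c, h1, fun _ _ => h2⟩
    · exact ⟨1, one_ne_zero, fun h1 h2 => absurd ⟨h1, h2⟩ hij⟩
  choose c hc0 hc using hc
  obtain ⟨p, r, hpr, hm⟩ := I25_aux.mid_part hn ha hl hl' h
  obtain ⟨t, ht, ht'⟩ := torus_aniso hn ha c (fun i j _ _ => hc0 i j) hpr
  refine ⟨t, ht, ?_⟩
  have hN : ∀ u ∈ Uo (zo n a), t * u * t⁻¹ ∈ Uo (zo n a) := fun u hu => o_s4 hn _ t ht u hu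
  have hl2 : Lin (UZ n a) (fun u => l (t * u * t⁻¹)) := by
    intro u hu v hv
    show l (t * (u * v) * t⁻¹) = l (t * u * t⁻¹) * l (t * v * t⁻¹)
    rw [← hl _ (hN u hu) _ (hN v hv)]
    congr 1
    group
  -- the simple pairs in the middle
  have hmid : ∀ i j : Fin n, Sm n i j → Mid n j → 2 * (i : ℕ) + 4 = n ∧
      ((j : ℕ) = i + 1 ∨ (j : ℕ) = i + 2) := by
    intro i j hij hj
    obtain ⟨m, hm'⟩ := hn
    unfold Sm at hij
    unfold Mid at hj
    omega
  have key := lin_ext' hn (l := l') (l' := fun u => l (t * u * t⁻¹)) hl' hl2 (fun i j hij s => by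
    show l' (xs a i j s) = l (t * xs a i j s * t⁻¹)
    by_cases hj : Mid n j
    · obtain ⟨hi, hj2⟩ := hmid i j hij hj
      have hin := i.2
      obtain ⟨i1, hi1⟩ : ∃ i1 : Fin n, (i1 : ℕ) = i + 1 := ⟨⟨(i : ℕ) + 1, by omega⟩, rfl⟩
      obtain ⟨i2, hi2⟩ : ∃ i2 : Fin n, (i2 : ℕ) = i + 2 := ⟨⟨(i : ℕ) + 2, by omega⟩, rfl⟩
      have S1 : Sm n i i1 := Or.inl ⟨hi1, hi.le⟩
      have S2 : Sm n i i2 := Or.inr ⟨hi, hi2⟩
      have h12 : i1 ≠ i2 := by
        rw [Ne, Fin.ext_iff]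
        omega
      have hm1 := hm i i1 i2 hi hi1 hi2
      have hone : ∀ m : GL (Fin n) F → ℤˣ, Lin (Uo (zo n a)) m → m 1 = 1 := fun m hm => lin_one hm
      -- the value as a product
      have hprod : ∀ (x y : F), l (xs a i i1 x) * l (xs a i i2 y) = l (xs a i i1 x * xs a i i2 y) :=
        fun x y => (hl _ (xs_mem hn S1 x) _ (xs_mem hn S2 y)).symm
      have hent : ∀ (x y : F) {p' q' : Fin n}, Sm n p' q' →
          ((xs a i i1 x * xs a i i2 y : GL (Fin n) F) : Matrix (Fin n) (Fin n) F) p' q' =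
            (if p' = i ∧ q' = i1 then x else 0) + (if p' = i ∧ q' = i2 then y else 0) := by
        intro x y p' q' hpq
        rw [sm_add hn (xs_mem hn S1 x) (xs_mem hn S2 y) hpq, xs_entry hn S1 hpq, xs_entry hn S2 hpq]
      have hgen : ∀ (u : GL (Fin n) F), u ∈ UZ n a → ∀ x y : F,
          (∀ p' q' : Fin n, Sm n p' q' → (u : Matrix (Fin n) (Fin n) F) p' q' =
            (if p' = i ∧ q' = i1 then x else 0) + (if p' = i ∧ q' = i2 then y else 0)) →
          l (t * u * t⁻¹) = l (xs a i i1 (x * p + y * (a * (p + r)))) * l (xs a i i2 (x * (a * (p + r)) + y * r)) := by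
        intro u hu x y hent'
        rw [hprod]
        refine lin_congr' hn hl (hN u hu) (Subgroup.mul_mem _ (xs_mem hn S1 _) (xs_mem hn S2 _)) fun p' q' hpq => ?_
        rw [hent _ _ hpq]
        have u1 : (u : Matrix (Fin n) (Fin n) F) i i1 = x := by
          rw [hent' i i1 S1, if_pos ⟨rfl, rfl⟩, if_neg (fun h1 => h12 h1.2), add_zero]
        have u2 : (u : Matrix (Fin n) (Fin n) F) i i2 = y := by
          rw [hent' i i2 S2, if_neg (fun h1 => h12 h1.2.symm), if_pos ⟨rfl, rfl⟩, zero_add]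
        obtain ⟨v1, v2⟩ := (ht' u).2 i i1 i2 hi hi1 hi2
        by_cases hq : Mid n q'
        · obtain ⟨h3, h4⟩ := hmid p' q' hpq hq
          have e1 : p' = i := by
            rw [Fin.ext_iff]
            omega
          rcases h4 with h4 | h4
          · have e2 : q' = i1 := by
              rw [Fin.ext_iff, h4, hi1, e1]
            rw [e1, e2, if_pos ⟨rfl, rfl⟩, if_neg (fun h1 => h12 h1.2), v1, u1, u2, add_zero]
          · have e2 : q' = i2 := by
              rw [Fin.ext_iff, h4, hi2, e1]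
            rw [e1, e2, if_neg (fun h1 => h12 h1.2.symm), if_pos ⟨rfl, rfl⟩, v2, u1, u2, zero_add]
        · have m1 : Mid n i1 := by
            unfold Mid
            omega
          have m2 : Mid n i2 := by
            unfold Mid
            omega
          have e1 : ¬ (p' = i ∧ q' = i1) := fun h1 => hq (h1.2 ▸ m1)
          have e2 : ¬ (p' = i ∧ q' = i2) := fun h1 => hq (h1.2 ▸ m2)
          rw [(ht' u).1 p' q' hpq hq, hent' p' q' hpq, if_neg e1, if_neg e2, if_neg e1, if_neg e2, add_zero, mul_zero]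
      rcases hj2 with hj2 | hj2
      · have e2 : j = i1 := by
          rw [Fin.ext_iff, hj2, hi1]
        subst e2
        rw [hgen (xs a i j s) (xs_mem hn S1 s) s 0 (fun p' q' hpq => by
          rw [xs_entry hn S1 hpq, ite_self, add_zero]), ← hm1 s 0, xs_zero hn S2, hone l' hl', mul_one]
      · have e2 : j = i2 := by
          rw [Fin.ext_iff, hj2, hi2]
        subst e2
        rw [hgen (xs a i j s) (xs_mem hn S2 s) 0 s (fun p' q' hpq => by
          rw [xs_entry hn S2 hpq, ite_self, zero_add]), ← hm1 0 s, xs_zero hn S1, hone l' hl', one_mul]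
    · rw [hc i j hij hj s]
      refine lin_congr' hn hl (xs_mem hn hij _) (hN _ (xs_mem hn hij s)) fun p' q' hpq => ?_
      by_cases hq : Mid n q'
      · obtain ⟨h3, h4⟩ := hmid p' q' hpq hq
        have hpn := p'.2
        obtain ⟨i1, hi1⟩ : ∃ i1 : Fin n, (i1 : ℕ) = p' + 1 := ⟨⟨(p' : ℕ) + 1, by omega⟩, rfl⟩
        obtain ⟨i2, hi2⟩ : ∃ i2 : Fin n, (i2 : ℕ) = p' + 2 := ⟨⟨(p' : ℕ) + 2, by omega⟩, rfl⟩
        have S1 : Sm n p' i1 := Or.inl ⟨hi1, h3.le⟩
        have S2 : Sm n p' i2 := Or.inr ⟨h3, hi2⟩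
        have m1 : Mid n i1 := by
          unfold Mid
          omega
        have m2 : Mid n i2 := by
          unfold Mid
          omega
        obtain ⟨v1, v2⟩ := (ht' (xs a i j s)).2 p' i1 i2 h3 hi1 hi2
        have u1 : ((xs a i j s : GL (Fin n) F) : Matrix (Fin n) (Fin n) F) p' i1 = 0 := by
          rw [xs_entry hn hij S1, if_neg]
          rintro ⟨_, h6⟩
          exact hj (h6 ▸ m1)
        have u2 : ((xs a i j s : GL (Fin n) F) : Matrix (Fin n) (Fin n) F) p' i2 = 0 := by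
          rw [xs_entry hn hij S2, if_neg]
          rintro ⟨_, h6⟩
          exact hj (h6 ▸ m2)
        have e0 : ((xs a i j (c i j * s) : GL (Fin n) F) : Matrix (Fin n) (Fin n) F) p' q' = 0 := by
          rw [xs_entry hn hij hpq, if_neg]
          rintro ⟨_, h6⟩
          exact hj (h6 ▸ hq)
        rw [e0]
        rcases h4 with h4 | h4
        · have e2 : q' = i1 := by
            rw [Fin.ext_iff, h4, hi1]
          rw [e2, v1, u1, u2, zero_mul, zero_mul, add_zero]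
        · have e2 : q' = i2 := by
            rw [Fin.ext_iff, h4, hi2]
          rw [e2, v2, u1, u2, zero_mul, zero_mul, add_zero]
      · rw [(ht' _).1 p' q' hpq hq, xs_entry hn hij hpq, xs_entry hn hij hpq]
        by_cases hpq' : p' = i ∧ q' = j
        · rw [if_pos hpq', if_pos hpq', hpq'.1, hpq'.2]
        · rw [if_neg hpq', if_neg hpq', mul_zero])
  intro u hu
  exact key u hu

end

end OR
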