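import Pool.Agent.OR.K11
import Pool.Agent.OR.I02
import Pool.Agent.LieP.I07

/-!
# MP_6c3636_al, OR, module K12: (W4) at zo (stub of helper40)

If `cx y` is antitone: `bw4_anti` (`UZ n a = Uo (zo n a)` is the definition). Otherwise: `y` is dominant (`le_zo`: `cx y j < cx y i`, `j ≠ rev i` imply `i < j`), so `a = 0` (if `a ≠ 0` the middle coordinates are `0` and `y` is antitone), `0 < n`, and with the middle indices `i`, `j = rev i`, `(i : ℕ) + 1 = n / 2`: `cx y i < 0` (otherwise antitone). Let `γ = swp F i` (I02), `σ = swap i (rev i)`, `T x` := the point with the coordinates `cx x (σ k)` (`ofx`, `swap_rev`; `T (T x) = x`; `<T x, T x'> = <x, x'>`, or only: `cx`). Facts (`γ⁻¹ = γ`, `(γ * g * γ) k l = g (σ k) (σ l)`, `Om_conj`/`conj_mem_Om`): (1) `γ * g * γ⁻¹ ∈ Lo (T x)` iff `g ∈ Lo x`, the same for `Uo`. (2) `γ * g * γ⁻¹ ∈ UZ n 0` iff `g ∈ UZ n 0` (`mem_UZ`: `pl n (σ k) (σ l)` iff `pl n k l`). (3) `T x` is dominant iff `x` is (`le_zo`: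 for `l ≠ rev k` `σ k < σ l` iff `k < l`). (4) `<rto 0 k l, T x> = <rto 0 (σ k) (σ l), x>`. `T y` is antitone. Apply `bw4_anti` to `T y` and `l₁ g = l (γ⁻¹ * g * γ)`; the regularity hypothesis is transported by (1)-(4); then `conj_el`, `conj_sb` (LieP/I07) as in LieP/I49 or `PS.tw4` (LieP/I07).
-/

namespace OR

noncomputable section

open Classical Matrix CF

open LieP (En UG UL Lin Al dl sb el)

open LieP.GI (pinv pinv' UU mem_UU mem_UL lev)

variable {n : ℕ} {F : Type} [Field F] [Finite F] [CharP F 2] {a : F}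

namespace K12_aux

theorem swp_conj (i : Fin n) (g : GL (Fin n) F) (k l : Fin n) :
    ((swp F i * g * swp F i : GL (Fin n) F) : Matrix (Fin n) (Fin n) F) k l =
      (g : Matrix (Fin n) (Fin n) F) (Equiv.swap i (Fin.rev i) k) (Equiv.swap i (Fin.rev i) l) := by
  rw [← mv_sv, mv_mul, mv_mul, mv_swp]
  have h1 : mv (swp F i) (sv l) = sv (Equiv.swap i (Fin.rev i) l) := mv_pmt_sv _ _
  rw [h1, mv_sv]

theorem swp_conj_conj (i : Fin n) (g : GL (Fin n) F) : swp F i * (swp F i * g * swp F i) * swp F i = g := by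
  calc swp F i * (swp F i * g * swp F i) * swp F i = (swp F i * swp F i) * g * (swp F i * swp F i) := by
        simp only [mul_assoc]
    _ = g := by rw [swp_mul, one_mul, mul_one]

theorem swp_conj_Om (hn : Even n) (i : Fin n) {g : GL (Fin n) F} :
    swp F i * g * swp F i ∈ Om n a ↔ g ∈ Om n a := by
  have h : ∀ x : GL (Fin n) F, x ∈ Om n a → swp F i * x * swp F i ∈ Om n a := by
    intro x hx
    have h1 := Om_conj hn (swp_OQ hn a i) hx
    rw [swp_inv] at h1
    exact h1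
  refine ⟨fun h1 => ?_, h g⟩
  have h2 := h _ h1
  rw [swp_conj_conj] at h2
  exact h2

theorem swp_conj_OQ (hn : Even n) (i : Fin n) {g : GL (Fin n) F} :
    swp F i * g * swp F i ∈ OQ n a ↔ g ∈ OQ n a := by
  have h : ∀ x : GL (Fin n) F, x ∈ OQ n a → swp F i * x * swp F i ∈ OQ n a := by
    intro x hx
    exact Subgroup.mul_mem _ (Subgroup.mul_mem _ (swp_OQ hn a i) hx) (swp_OQ hn a i)
  refine ⟨fun h1 => ?_, h g⟩
  have h2 := h _ h1
  rw [swp_conj_conj] at h2
  exact h2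

/-- the point with the coordinates exchanged -/
def Tx (hn : Even n) (i : Fin n) (x : EA n (0 : F)) : EA n (0 : F) :=
  ofx 0 (fun k => cx x (Equiv.swap i (Fin.rev i) k))
    (fun k => by rw [swap_rev hn, cx_rev]) (fun h => absurd rfl h)

theorem cx_Tx (hn : Even n) (i : Fin n) (x : EA n (0 : F)) (k : Fin n) :
    cx (Tx hn i x) k = cx x (Equiv.swap i (Fin.rev i) k) := rfl

theorem Tx_Tx (hn : Even n) (i : Fin n) (x : EA n (0 : F)) : Tx hn i (Tx hn i x) = x := by
  refine cx_ext fun k => ?_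
  rw [cx_Tx, cx_Tx, Equiv.swap_apply_self]

theorem Lo_Tx (hn : Even n) (i : Fin n) (x : EA n (0 : F)) (g : GL (Fin n) F) :
    swp F i * g * swp F i ∈ Lo (Tx hn i x) ↔ g ∈ Lo x := by
  rw [mem_Lo hn, mem_Lo hn, swp_conj_Om hn]
  refine and_congr_right fun _ => ?_
  constructor
  · intro h k l hkl
    have h1 := h (Equiv.swap i (Fin.rev i) k) (Equiv.swap i (Fin.rev i) l) (by
      rw [cx_Tx, cx_Tx, Equiv.swap_apply_self, Equiv.swap_apply_self]
      exact hkl)
    rw [swp_conj, Equiv.swap_apply_self, Equiv.swap_apply_self] at h1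
    exact h1
  · intro h k l hkl
    rw [swp_conj]
    rw [cx_Tx, cx_Tx] at hkl
    exact h _ _ hkl

theorem one_swap (i k l : Fin n) : (1 : Matrix (Fin n) (Fin n) F) (Equiv.swap i (Fin.rev i) k)
    (Equiv.swap i (Fin.rev i) l) = (1 : Matrix (Fin n) (Fin n) F) k l := by
  by_cases h : k = l
  · rw [h, Matrix.one_apply_eq, Matrix.one_apply_eq]
  · rw [Matrix.one_apply_ne h, Matrix.one_apply_ne (fun h' => h ((Equiv.swap i (Fin.rev i)).injective h'))]

theorem Uo_Tx (hn : Even n) (i : Fin n) (x : EA n (0 : F)) (g : GL (Fin n) F) :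
    swp F i * g * swp F i ∈ Uo (Tx hn i x) ↔ g ∈ Uo x := by
  rw [mem_Uo hn, mem_Uo hn, swp_conj_Om hn]
  refine and_congr_right fun _ => ?_
  constructor
  · intro h k l hkl
    have h1 := h (Equiv.swap i (Fin.rev i) k) (Equiv.swap i (Fin.rev i) l) (by
      rw [cx_Tx, cx_Tx, Equiv.swap_apply_self, Equiv.swap_apply_self]
      exact hkl)
    rw [swp_conj, Equiv.swap_apply_self, Equiv.swap_apply_self, one_swap] at h1
    exact h1
  · intro h k l hkl
    rw [swp_conj, ← one_swap i k l]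
    rw [cx_Tx, cx_Tx] at hkl
    exact h _ _ hkl

/-- the order of the exchanged indices -/
theorem sw_lt (hn : Even n) {i : Fin n} (hi : (i : ℕ) + 1 = n / 2) {k l : Fin n} (hkl : ¬ (Mid n k ∧ Mid n l)) :
    Equiv.swap i (Fin.rev i) k < Equiv.swap i (Fin.rev i) l ↔ k < l := by
  have h1 : ∀ m : Fin n, ((Equiv.swap i (Fin.rev i) m : Fin n) : ℕ) =
      if (m : ℕ) = i then (i : ℕ) + 1 else if (m : ℕ) = i + 1 then (i : ℕ) else m := by
    intro m
    have h2 : ((Fin.rev i : Fin n) : ℕ) = i + 1 := by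
      rw [Fin.val_rev]
      obtain ⟨r, hr⟩ := hn
      omega
    rw [Equiv.swap_apply_def]
    by_cases h3 : m = i
    · rw [if_pos h3, if_pos (congrArg Fin.val h3), h2]
    · rw [if_neg h3, if_neg (fun h => h3 (Fin.ext h))]
      by_cases h4 : m = Fin.rev i
      · rw [if_pos h4, if_pos (by rw [h4, h2])]
      · rw [if_neg h4, if_neg (fun h => h4 (Fin.ext (by rw [h, h2])))]
  rw [Fin.lt_def, Fin.lt_def, h1, h1]
  unfold Mid at hkl
  split_ifs <;> omega

theorem sw_mid (hn : Even n) {i : Fin n} {k l : Fin n} : (Mid n (Equiv.swap i (Fin.rev i) k) ∧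
    Mid n (Equiv.swap i (Fin.rev i) l)) ↔ (Mid n k ∧ Mid n l) := by
  rw [swap_mid hn, swap_mid hn]

theorem sw_pl (hn : Even n) {i : Fin n} (hi : (i : ℕ) + 1 = n / 2) {k l : Fin n} :
    pl n (Equiv.swap i (Fin.rev i) k) (Equiv.swap i (Fin.rev i) l) ↔ pl n k l := by
  unfold pl
  rw [sw_mid hn]
  constructor
  · rintro ⟨h1, h2⟩
    exact ⟨(sw_lt hn hi h2).1 h1, h2⟩
  · rintro ⟨h1, h2⟩
    exact ⟨(sw_lt hn hi h2).2 h1, h2⟩

theorem UZ_Tx (hn : Even n) {i : Fin n} (hi : (i : ℕ) + 1 = n / 2) (g : GL (Fin n) F) :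
    swp F i * g * swp F i ∈ UZ n (0 : F) ↔ g ∈ UZ n (0 : F) := by
  rw [mem_UZ hn, mem_UZ hn, swp_conj_OQ hn]
  refine and_congr_right fun _ => ?_
  constructor
  · intro h k l hkl
    have h1 := h (Equiv.swap i (Fin.rev i) k) (Equiv.swap i (Fin.rev i) l) (by
      rw [sw_pl hn hi]
      exact hkl)
    rw [swp_conj, Equiv.swap_apply_self, Equiv.swap_apply_self, one_swap] at h1
    exact h1
  · intro h k l hkl
    rw [swp_conj, ← one_swap i k l]
    refine h _ _ ?_
    rw [sw_pl hn hi]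
    exact hkl

theorem not_mid (hn : Even n) {k l : Fin n} (h : k ≠ l) (h' : l ≠ Fin.rev k) : ¬ (Mid n k ∧ Mid n l) := by
  rintro ⟨h1, h2⟩
  rcases mid_pair hn h1 h2 with h3 | h3
  · exact h h3.symm
  · exact h' h3

theorem dom_Tx (hn : Even n) {i : Fin n} (hi : (i : ℕ) + 1 = n / 2) {x : EA n (0 : F)}
    (hx : ∀ α ∈ Ro n (0 : F), 0 < inner ℝ α x → 0 < inner ℝ α (zo n (0 : F))) :
    ∀ α ∈ Ro n (0 : F), 0 < inner ℝ α (Tx hn i x) → 0 < inner ℝ α (zo n (0 : F)) := by
  rw [le_zo hn] at hx ⊢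
  intro k l hkl hlt
  rw [cx_Tx, cx_Tx] at hlt
  have h1 : Equiv.swap i (Fin.rev i) l ≠ Fin.rev (Equiv.swap i (Fin.rev i) k) := by
    intro h
    rw [← swap_rev hn] at h
    exact hkl ((Equiv.swap i (Fin.rev i)).injective h)
  have h2 := hx _ _ h1 hlt
  have h3 : k ≠ l := by
    rintro rfl
    exact lt_irrefl _ hlt
  exact (sw_lt hn hi (not_mid hn h3 hkl)).1 h2

/-- a dominant point with nonnegative middle coordinate is antitone -/
theorem anti_of (hn : Even n) {y : EA n a}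
    (hy : ∀ α ∈ Ro n a, 0 < inner ℝ α y → 0 < inner ℝ α (zo n a))
    (h0 : ∀ i : Fin n, (i : ℕ) + 1 = n / 2 → 0 ≤ cx y i) : Antitone (cx y) := by
  rw [le_zo hn] at hy
  obtain ⟨r, hr⟩ := hn
  have hge : ∀ k l : Fin n, k < l → l ≠ Fin.rev k → cx y l ≤ cx y k := by
    intro k l hkl hne
    by_contra h
    rw [not_le] at h
    have h1 : k ≠ Fin.rev l := by
      intro h'
      exact hne (by rw [h', Fin.rev_rev])
    exact absurd (hy l k h1 h) (not_lt.2 hkl.le)
  intro k l hkl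
  rcases eq_or_lt_of_le hkl with h | h
  · rw [h]
  · by_cases h1 : l = Fin.rev k
    · have h2 : 0 ≤ cx y k := by
        have hv := Fin.val_rev k
        have hk2 := k.2
        rw [h1, Fin.lt_def] at h
        by_cases h3 : (k : ℕ) + 1 = n / 2
        · exact h0 k h3
        · obtain ⟨i, hi⟩ : ∃ i : Fin n, (i : ℕ) + 1 = n / 2 := ⟨⟨n / 2 - 1, by omega⟩, by
            show n / 2 - 1 + 1 = n / 2
            omega⟩
          refine (h0 i hi).trans (hge k i ?_ ?_)
          · rw [Fin.lt_def]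
            omega
          · intro h4
            have h5 := congrArg Fin.val h4
            omega
      rw [h1, cx_rev]
      linarith
    · exact hge k l h h1

end K12_aux

open K12_aux in
theorem o_bw4 (hn : Even n) (ha : a = 0 ∨ Aniso a) : ∀ y : EA n a,
    (∀ α ∈ Ro n a, 0 < inner ℝ α y → 0 < inner ℝ α (zo n a)) →
    ∀ l : GL (Fin n) F → ℤˣ, Lin (Uo (zo n a) ⊓ Lo y) l →
    (∀ y' : EA n a, (∀ α ∈ Ro n a, 0 < inner ℝ α y' → 0 < inner ℝ α (zo n a)) →
      (∀ u ∈ Uo y', u ∈ Lo y → l u = 1) → ∀ α ∈ Ro n a, inner ℝ α y = 0 → inner ℝ α y' = 0) →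
    ∀ [Finite (GL (Fin n) F)] (k : Type) [Field k] [CharZero k],
    ∀ b ∈ sb k (Lo y), ∀ c ∈ sb k (Lo y),
      el k (Uo (zo n a) ⊓ Lo y) l * b * el k (Uo (zo n a) ⊓ Lo y) l * c * el k (Uo (zo n a) ⊓ Lo y) l =
        el k (Uo (zo n a) ⊓ Lo y) l * c * el k (Uo (zo n a) ⊓ Lo y) l * b * el k (Uo (zo n a) ⊓ Lo y) l := by
  intro y hy l hl hreg _ k _ _ b hb c hc
  by_cases hA : Antitone (cx y)
  · exact bw4_anti hn ha hA hl hreg k b hb c hc
  · have h1 : ∃ i : Fin n, (i : ℕ) + 1 = n / 2 ∧ cx y i < 0 := by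
      by_contra h
      apply hA
      refine anti_of hn hy fun i hi => ?_
      by_contra h2
      exact h ⟨i, hi, not_le.1 h2⟩
    obtain ⟨i, hi, hneg⟩ := h1
    have ha0 : a = 0 := by
      by_contra h
      rw [cx_mid h y (Or.inl hi)] at hneg
      exact lt_irrefl _ hneg
    subst ha0
    have hT : ∀ x : EA n (0 : F), Tx hn i (Tx hn i x) = x := Tx_Tx hn i
    -- `T y` is antitone
    have hTA : Antitone (cx (Tx hn i y)) := by
      refine anti_of hn (dom_Tx hn hi hy) fun j hj => ?_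
      have h2 : j = i := Fin.ext (by omega)
      rw [h2, cx_Tx, Equiv.swap_apply_left, cx_rev]
      linarith
    have hγ : (swp F i)⁻¹ = swp F i := swp_inv i
    have hL : ∀ x : EA n (0 : F), ∀ g, g ∈ Lo x ↔ (swp F i)⁻¹ * g * swp F i ∈ Lo (Tx hn i x) := by
      intro x g
      rw [hγ]
      exact (Lo_Tx hn i x g).symm
    have hU : ∀ x : EA n (0 : F), ∀ g, g ∈ Uo x ↔ (swp F i)⁻¹ * g * swp F i ∈ Uo (Tx hn i x) := by
      intro x g
      rw [hγ]
      exact (Uo_Tx hn i x g).symm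
    have hZ : ∀ g, g ∈ UZ n (0 : F) ↔ (swp F i)⁻¹ * g * swp F i ∈ UZ n (0 : F) := by
      intro g
      rw [hγ]
      exact (UZ_Tx hn hi g).symm
    have hV : ∀ x : EA n (0 : F), ∀ g, g ∈ UZ n (0 : F) ⊓ Lo x ↔
        (swp F i)⁻¹ * g * swp F i ∈ UZ n (0 : F) ⊓ Lo (Tx hn i x) := by
      intro x g
      rw [Subgroup.mem_inf, Subgroup.mem_inf, hZ, hL]
    have hcc : ∀ g : GL (Fin n) F, (swp F i)⁻¹ * (swp F i * g * (swp F i)⁻¹) * swp F i = g := by
      intro g
      group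
    have hcc' : ∀ g : GL (Fin n) F, swp F i * ((swp F i)⁻¹ * g * swp F i) * (swp F i)⁻¹ = g := by
      intro g
      group
    have hl' : Lin (UZ n (0 : F) ⊓ Lo (Tx hn i y)) fun g => l (swp F i * g * (swp F i)⁻¹) := by
      have hm : ∀ g, g ∈ UZ n (0 : F) ⊓ Lo (Tx hn i y) → swp F i * g * (swp F i)⁻¹ ∈ Uo (zo n (0 : F)) ⊓ Lo y := by
        intro g hg
        have h2 := (hV (Tx hn i y) g).1 hg
        rw [hT, hγ] at h2
        rw [hγ]
        exact h2
      intro u hu v hv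
      show l (swp F i * (u * v) * (swp F i)⁻¹) = l (swp F i * u * (swp F i)⁻¹) * l (swp F i * v * (swp F i)⁻¹)
      rw [← hl _ (hm u hu) _ (hm v hv)]
      congr 1
      group
    have hreg' : ∀ y' : EA n (0 : F), (∀ α ∈ Ro n (0 : F), 0 < inner ℝ α y' → 0 < inner ℝ α (zo n (0 : F))) →
        (∀ u ∈ Uo y', u ∈ Lo (Tx hn i y) → (fun g => l (swp F i * g * (swp F i)⁻¹)) u = 1) →
        ∀ α ∈ Ro n (0 : F), inner ℝ α (Tx hn i y) = 0 → inner ℝ α y' = 0 := by
      intro y' hy' hu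
      have h2 := hreg (Tx hn i y') (dom_Tx hn hi hy') (fun u h3 h4 => by
        have h5 := hu ((swp F i)⁻¹ * u * swp F i) (by
          have h6 := (hU _ _).1 h3
          rw [hT] at h6
          exact h6) ((hL _ _).1 h4)
        simp only [hcc'] at h5
        exact h5)
      rw [forall_Ro] at h2 ⊢
      intro p q hpq hpq' h3
      rw [zero_rto, cx_Tx, cx_Tx] at h3
      have h4 := h2 (Equiv.swap i (Fin.rev i) p) (Equiv.swap i (Fin.rev i) q)
        (fun h => hpq ((Equiv.swap i (Fin.rev i)).injective h)) (fun h => by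
          rw [← swap_rev hn] at h
          exact hpq' ((Equiv.swap i (Fin.rev i)).injective h)) (zero_rto.2 h3)
      rw [zero_rto, cx_Tx, cx_Tx, Equiv.swap_apply_self, Equiv.swap_apply_self] at h4
      exact zero_rto.2 h4
    have key := bw4_anti hn (Or.inl rfl) hTA hl' hreg' k
      (dl (swp F i)⁻¹ * b * dl (swp F i)) (LieP.GI.conj_sb (swp F i) (hL y) hb)
      (dl (swp F i)⁻¹ * c * dl (swp F i)) (LieP.GI.conj_sb (swp F i) (hL y) hc)
    have he : dl (swp F i) * el k (UZ n (0 : F) ⊓ Lo (Tx hn i y)) (fun g => l (swp F i * g * (swp F i)⁻¹)) *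
        dl (swp F i)⁻¹ = el k (Uo (zo n (0 : F)) ⊓ Lo y) l := by
      refine LieP.GI.conj_el (swp F i) (hV y) fun g _ => ?_
      show l g = l (swp F i * ((swp F i)⁻¹ * g * swp F i) * (swp F i)⁻¹)
      rw [hcc']
    have ea := LieP.GI.I07_conj_conj (k := k) (swp F i) b
    have eb := LieP.GI.I07_conj_conj (k := k) (swp F i) c
    generalize (dl (swp F i)⁻¹ * b * dl (swp F i) : Al k (GL (Fin n) F)) = b0 at key ea
    generalize (dl (swp F i)⁻¹ * c * dl (swp F i) : Al k (GL (Fin n) F)) = c0 at key eb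
    have key2 := congrArg (fun x : Al k (GL (Fin n) F) => dl (swp F i) * x * dl (swp F i)⁻¹) key
    simp only [LieP.GI.I07_conj_mul, ea, eb, he] at key2
    exact key2

end

end OR
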