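import Pool.Agent.OR.P24
import Pool.Agent.OR.D08

/-!
# MP_6c3636_al, OR, module P25: the block of level zero (P5) (helper96)

`V := Fin n → F`, `qs_Qa` (D08), `W := {v | ∀ i, y i ≠ 0 → v i = 0}`, `oc (fo n) W = {v | ∀ i, y i = 0 → v i = 0}` (`fo n v e_i = v (rev i)`, `y (rev i) = - y i`). `W` is nondegenerate, `tl x` preserves `W` (`x i j = 0` unless `y i = y j`). `co_pow` (P24) on `W` (`QS.restrict`, `QI.restrict`, `mem_OQ_iff`) gives an isometry `g₁` of `W` with `rk g₁` even and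
`g₁ x = x ^ j g₁` on `W`. `exists_sum` (P10) with `g₂ = 1` gives `g` on `V` with `rk g = rk g₁ + 0`, `exists_GL` (D08) the matrix `g₀`. Entries: `g₀ i j = (g e_j) i`: for `y j ≠ 0` `g e_j = e_j`; for `y j = 0` `g e_j ∈ W` so `g₀ i j = 0` if `y i ≠ 0`. The last claim: apply `g x = x ^ j g` to `e_j` for `y j = 0`.
-/

namespace OR

noncomputable section

open Classical Matrix

variable {F : Type} [Field F] [Finite F] [CharP F 2] {n : ℕ} {a : F}

namespace P25_aux

open LieP.PS (Sy Iso adj rsf oc)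

/-- the vectors of level zero -/
def lz (y : Fin n → ℝ) : Submodule F (Fin n → F) where
  carrier := {v | ∀ i, y i ≠ 0 → v i = 0}
  add_mem' := by
    intro v w hv hw i hi
    rw [Pi.add_apply, hv i hi, hw i hi, add_zero]
  zero_mem' := fun _ _ => rfl
  smul_mem' := by
    intro c v hv i hi
    rw [Pi.smul_apply, hv i hi, smul_zero]

omit [Finite F] [CharP F 2] in
theorem single_mem {y : Fin n → ℝ} {i : Fin n} (hi : y i = 0) (c : F) :
    (Pi.single i c : Fin n → F) ∈ lz (F := F) y := by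
  intro j hj
  rw [Pi.single_eq_of_ne]
  rintro rfl
  exact hj hi

omit [Finite F] [CharP F 2] in
theorem fo_single (v : Fin n → F) (i : Fin n) : fo n v (Pi.single (Fin.rev i) 1) = v i := by
  rw [fo_apply, Finset.sum_eq_single i]
  · rw [Pi.single_eq_same, mul_one]
  · intro b _ hb
    rw [Pi.single_eq_of_ne (fun h => hb (Fin.rev_injective h)), mul_zero]
  · intro hb
    exact absurd (Finset.mem_univ _) hb

omit [Finite F] [CharP F 2] in
theorem nd_lz {y : Fin n → ℝ} (hy : ∀ i, y (Fin.rev i) = - y i) :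
    ∀ w ∈ lz (F := F) y, (∀ w' ∈ lz (F := F) y, fo n w w' = 0) → w = 0 := by
  intro w hw h
  funext i
  by_cases hi : y i = 0
  · have h1 := h (Pi.single (Fin.rev i) 1) (single_mem (by rw [hy, hi, neg_zero]) 1)
    rw [fo_single] at h1
    exact h1
  · exact hw i hi

omit [Finite F] [CharP F 2] in
theorem single_oc {y : Fin n → ℝ} (hy : ∀ i, y (Fin.rev i) = - y i) {l : Fin n} (hl : y l ≠ 0) :
    (Pi.single l 1 : Fin n → F) ∈ oc (fo n) (lz (F := F) y) := by
  intro w hw
  rw [fo_apply]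
  refine Finset.sum_eq_zero fun i _ => ?_
  by_cases hi : i = l
  · rw [hw (Fin.rev i) (by rw [hy, hi]; exact neg_ne_zero.2 hl), mul_zero]
  · rw [Pi.single_eq_of_ne hi, zero_mul]

omit [Finite F] [CharP F 2] in
theorem entry (g : GL (Fin n) F) (i l : Fin n) :
    (g : Matrix (Fin n) (Fin n) F) i l = tl g (Pi.single l 1) i := by
  rw [tl_apply]
  exact (CF.mv_sv g i l).symm

omit [Finite F] [CharP F 2] in
theorem stab_lz {y : Fin n → ℝ} {x : GL (Fin n) F}
    (hsup : ∀ i j, y i ≠ y j → (x : Matrix (Fin n) (Fin n) F) i j = 0) :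
    ∀ w ∈ lz (F := F) y, tl x w ∈ lz (F := F) y := by
  intro w hw i hi
  rw [tl_apply]
  show ∑ j, (x : Matrix (Fin n) (Fin n) F) i j * w j = 0
  refine Finset.sum_eq_zero fun j _ => ?_
  by_cases hj : y j = 0
  · rw [hsup i j (by rw [hj]; exact hi), zero_mul]
  · rw [hw j hj, mul_zero]

omit [Finite F] [CharP F 2] in
theorem restrict_pow {V : Type} [AddCommGroup V] [Module F V] {x : Module.End F V} {W : Submodule F V}
    (hxW : ∀ w ∈ W, x w ∈ W) (m : ℕ) (w : W) : ((((x.restrict hxW) ^ m) w : W) : V) = (x ^ m) w := by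
  induction m generalizing w with
  | zero => rfl
  | succ m ih =>
    rw [pow_succ, pow_succ, Module.End.mul_apply, Module.End.mul_apply, ih]
    rfl

omit [Finite F] [CharP F 2] in
theorem rk_refl {V : Type} [AddCommGroup V] [Module F V] :
    rk ((LinearEquiv.refl F V : V ≃ₗ[F] V) : Module.End F V) = 0 := by
  have h1 : ((LinearEquiv.refl F V : V ≃ₗ[F] V) : Module.End F V) - 1 = 0 := by
    apply LinearMap.ext
    intro v
    show v - v = 0
    exact sub_self v
  rw [rk, h1, LinearMap.range_zero, finrank_bot]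

end P25_aux

open P25_aux

theorem level_zero (hn : Even n) {y : Fin n → ℝ} (hy : ∀ i, y (Fin.rev i) = - y i)
    {x : GL (Fin n) F} (hx : x ∈ OQ n a)
    (hsup : ∀ i j, y i ≠ y j → (x : Matrix (Fin n) (Fin n) F) i j = 0) {k r j : ℕ}
    (hxr : x ^ (2 ^ k * r) = 1) (hr : Odd r) (hj : Odd j) (hjr : j ≡ 1 [MOD r]) :
    ∃ g₀ : GL (Fin n) F, g₀ ∈ OQ n a ∧ Even ((g₀ : Matrix (Fin n) (Fin n) F) - 1).rank ∧
      (∀ i j, (y i ≠ 0 ∨ y j ≠ 0) → (g₀ : Matrix (Fin n) (Fin n) F) i j = (1 : Matrix (Fin n) (Fin n) F) i j) ∧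
      ∀ i l, y l = 0 → ((g₀ * x : GL (Fin n) F) : Matrix (Fin n) (Fin n) F) i l =
        ((x ^ j * g₀ : GL (Fin n) F) : Matrix (Fin n) (Fin n) F) i l := by
  have hQ := qs_Qa hn a
  have hW := nd_lz (F := F) hy
  have hst := stab_lz (F := F) hsup
  have hX : QI (Qa n a) (tl x) := mem_OQ_iff.1 hx
  have hxr' : ((tl x).restrict hst) ^ (2 ^ k * r) = 1 := by
    apply LinearMap.ext
    intro w
    apply Subtype.ext
    rw [restrict_pow, ← tl_pow, hxr, tl_one]
    rfl
  obtain ⟨g₁, hg1, hg2, hg3⟩ := co_pow (hQ.restrict hW) (hX.restrict hst) hxr' hr hj hjr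
  obtain ⟨g, e1, e2, e3, e4⟩ := exists_sum hQ hW g₁ (LinearEquiv.refl F _) hg1 (fun _ => rfl)
  obtain ⟨g₀, hg₀⟩ := exists_GL (g := g)
  have e2' : ∀ v ∈ LieP.PS.oc (fo n) (lz (F := F) y), g v = v := fun v hv => e2 ⟨v, hv⟩
  have e1' : ∀ (v : Fin n → F) (hv : v ∈ lz (F := F) y), g v = (g₁ ⟨v, hv⟩ : Fin n → F) := fun v hv => e1 ⟨v, hv⟩
  have hg₀' : ∀ v, tl g₀ v = g v := fun v => by rw [hg₀]; rfl
  refine ⟨g₀, ?_, ?_, ?_, ?_⟩
  · rw [mem_OQ_iff]
    intro v
    rw [hg₀', e3]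
  · rw [rank_sub_one, hg₀, e4, P25_aux.rk_refl, add_zero]
    exact hg2
  · intro i l hil
    rw [entry, hg₀']
    by_cases hl : y l = 0
    · have hi : y i ≠ 0 := by
        rcases hil with h | h
        · exact h
        · exact absurd hl h
      rw [e1' _ (single_mem hl 1), (g₁ ⟨_, single_mem hl 1⟩).2 i hi, Matrix.one_apply_ne]
      rintro rfl
      exact hi hl
    · rw [e2' _ (single_oc hy hl), Matrix.one_apply, Pi.single_apply]
  · intro i l hl
    rw [entry, entry, tl_mul, tl_mul, Module.End.mul_apply, Module.End.mul_apply, tl_pow, hg₀', hg₀']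
    have hs := single_mem (F := F) (y := y) hl 1
    rw [e1' _ (hst _ hs), e1' _ hs]
    have h3 := congrArg Subtype.val (hg3 ⟨_, hs⟩)
    rw [restrict_pow] at h3
    exact congrFun h3 i

end

end OR
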