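import Pool.Agent.OR.D08
import Pool.Agent.LieP.P15

/-!
# MP_6c3636_al, OR, module P26: the blocks of nonzero level (P5) (helper96)

`LieP.PS.blk_conj` (P15) for `y`, `x` gives `A`, `A'` (inverse of each other, block diagonal), `A * x = x ^ j * A`. Let `A° i j := A (rev j) (rev i)` (`LieP.PS.mst (RingEquiv.refl F) Fin.rev`, an antiautomorphism, `mst_mul`, `mst_one`), the adjoint for `fo n` (`P14_aux.om_adj`). `g₁ i j := A i j` if `y j > 0`, `A'° i j` if `y j < 0`, `1 i j` if `y j = 0`.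
`g₁` is block diagonal (`A' (rev j) (rev i) = 0` unless `y (rev j) = y (rev i)`). `g₁° * g₁ = 1`: `(g₁° * g₁) i l = ∑ m, g₁ (rev m) (rev i) * g₁ m l`; for `y l > 0` only `y m = y l = y i` contribute (`g₁` block diagonal), `y (rev i) < 0`, so this is `∑ m, A' i m * A m l = 1 i l`; for `y l < 0` it is `∑ m, A (rev m) (rev i) * A' (rev l) (rev m) = (A' * A) (rev l) (rev i) = 1 i l`;
for `y l = 0` it is `1 i l`. So `g₁` is invertible and preserves `fo n`. It preserves `Qa n a`: split `v = v₊ + v₀ + v₋` by the sign of `y`; `Qa n a v = Qa n a v₀ + fo n v₊ v₋` (`QS.add` of `qs_Qa`; `Qa n a v₊ = 0 = Qa n a v₋`: each product `v i * v (rev i)` is zero, and the middle squares vanish or `a = 0` by `ha`; `fo n v₊ v₀ = 0 = fo n v₋ v₀`), and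
`g₁` maps `v₊`, `v₋` to vectors of the same type, fixes `v₀`. `g₁ * x = x ^ j * g₁` in the columns `l` with `y l > 0`: from `A * x = x ^ j * A` (`x` block diagonal). Columns with `y l < 0`: `A * x = x ^ j * A` gives `A' * x ^ j = x * A'`, apply `°` and `x° = x⁻¹` (`x` preserves `fo n`: `QI.iso`, `om_adj`, or entrywise): `(x⁻¹) ^ j * A'° = A'° * x⁻¹`, so `A'° * x = x ^ j * A'°`.
-/

namespace OR

noncomputable section

open Classical Matrix

namespace P26_aux

variable {F : Type} [Field F] {n : ℕ} {a : F}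

/-- positive, zero and negative part -/
def pp (y : Fin n → ℝ) (v : Fin n → F) : Fin n → F := fun i => if 0 < y i then v i else 0
def pz (y : Fin n → ℝ) (v : Fin n → F) : Fin n → F := fun i => if y i = 0 then v i else 0
def pm (y : Fin n → ℝ) (v : Fin n → F) : Fin n → F := fun i => if y i < 0 then v i else 0

theorem pp_of {y : Fin n → ℝ} (v : Fin n → F) {i : Fin n} (h : 0 < y i) : pp y v i = v i := if_pos h
theorem pp_zero {y : Fin n → ℝ} (v : Fin n → F) {i : Fin n} (h : ¬ 0 < y i) : pp y v i = 0 := if_neg h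
theorem pz_of {y : Fin n → ℝ} (v : Fin n → F) {i : Fin n} (h : y i = 0) : pz y v i = v i := if_pos h
theorem pz_zero {y : Fin n → ℝ} (v : Fin n → F) {i : Fin n} (h : ¬ y i = 0) : pz y v i = 0 := if_neg h
theorem pm_of {y : Fin n → ℝ} (v : Fin n → F) {i : Fin n} (h : y i < 0) : pm y v i = v i := if_pos h
theorem pm_zero {y : Fin n → ℝ} (v : Fin n → F) {i : Fin n} (h : ¬ y i < 0) : pm y v i = 0 := if_neg h

theorem split (y : Fin n → ℝ) (v : Fin n → F) : v = pz y v + (pp y v + pm y v) := by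
  funext i
  rw [Pi.add_apply, Pi.add_apply]
  rcases lt_trichotomy (y i) 0 with h | h | h
  · rw [pz_zero v h.ne, pp_zero v h.not_gt, pm_of v h, zero_add, zero_add]
  · rw [pz_of v h, pp_zero v (by rw [h]; exact lt_irrefl _), pm_zero v (by rw [h]; exact lt_irrefl _), add_zero,
      add_zero]
  · rw [pz_zero v h.ne', pp_of v h, pm_zero v h.not_gt, add_zero, zero_add]

theorem Qa_zero {v : Fin n → F} (h : ∀ i, v i * v (Fin.rev i) = 0) (h' : a ≠ 0 → ∀ i, Mid n i → v i = 0) :
    Qa n a v = 0 := by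
  have h1 : ∑ i : Fin n, (if (i : ℕ) < n / 2 then v i * v (Fin.rev i) else 0) = 0 := by
    refine Finset.sum_eq_zero fun i _ => ?_
    rw [h, ite_self]
  rw [Qa, h1, zero_add]
  by_cases ha : a = 0
  · rw [ha, zero_mul]
  · have h2 : ∑ i : Fin n, (if Mid n i then v i ^ 2 else 0) = 0 := by
      refine Finset.sum_eq_zero fun i _ => ?_
      split_ifs with hi
      · rw [h' ha i hi]
        ring
      · rfl
    rw [h2, mul_zero]

theorem fo_zero {v w : Fin n → F} (h : ∀ i, v i * w (Fin.rev i) = 0) : fo n v w = 0 := by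
  rw [fo_apply]
  exact Finset.sum_eq_zero fun i _ => h i

theorem Q_split [CharP F 2] (hn : Even n) {y : Fin n → ℝ} (hy : ∀ i, y (Fin.rev i) = - y i)
    (ha : a ≠ 0 → ∀ i, Mid n i → y i = 0) (v : Fin n → F) :
    Qa n a v = Qa n a (pz y v) + fo n (pp y v) (pm y v) := by
  have hQ := qs_Qa (F := F) hn a
  conv_lhs => rw [split y v]
  rw [hQ.add, hQ.add (pp y v), map_add]
  have h1 : Qa n a (pp y v) = 0 := by
    refine Qa_zero (fun i => ?_) fun h i hi => ?_
    · by_cases h : 0 < y i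
      · rw [pp_zero v (i := Fin.rev i) (by rw [hy]; linarith), mul_zero]
      · rw [pp_zero v h, zero_mul]
    · exact pp_zero v (by rw [ha h i hi]; exact lt_irrefl _)
  have h2 : Qa n a (pm y v) = 0 := by
    refine Qa_zero (fun i => ?_) fun h i hi => ?_
    · by_cases h : y i < 0
      · rw [pm_zero v (i := Fin.rev i) (by rw [hy]; linarith), mul_zero]
      · rw [pm_zero v h, zero_mul]
    · exact pm_zero v (by rw [ha h i hi]; exact lt_irrefl _)
  have h3 : fo n (pz y v) (pp y v) = 0 := by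
    refine fo_zero fun i => ?_
    by_cases h : y i = 0
    · rw [pp_zero v (i := Fin.rev i) (by rw [hy, h]; simp), mul_zero]
    · rw [pz_zero v h, zero_mul]
  have h4 : fo n (pz y v) (pm y v) = 0 := by
    refine fo_zero fun i => ?_
    by_cases h : y i = 0
    · rw [pm_zero v (i := Fin.rev i) (by rw [hy, h]; simp), mul_zero]
    · rw [pz_zero v h, zero_mul]
  rw [h1, h2, h3, h4]
  ring

/-- the matrix with columns from `B` (positive), `C` (negative), `1` (zero) -/
def gg (y : Fin n → ℝ) (B C : Matrix (Fin n) (Fin n) F) : Matrix (Fin n) (Fin n) F :=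
  Matrix.of fun i l => if 0 < y l then B i l else if y l < 0 then C i l else (1 : Matrix (Fin n) (Fin n) F) i l

theorem gg_p {y : Fin n → ℝ} (B C : Matrix (Fin n) (Fin n) F) (i : Fin n) {l : Fin n} (h : 0 < y l) :
    gg y B C i l = B i l := if_pos h

theorem gg_m {y : Fin n → ℝ} (B C : Matrix (Fin n) (Fin n) F) (i : Fin n) {l : Fin n} (h : y l < 0) :
    gg y B C i l = C i l := by
  show (if 0 < y l then B i l else if y l < 0 then C i l else (1 : Matrix (Fin n) (Fin n) F) i l) = _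
  rw [if_neg h.not_gt, if_pos h]

theorem gg_z {y : Fin n → ℝ} (B C : Matrix (Fin n) (Fin n) F) (i : Fin n) {l : Fin n} (h : y l = 0) :
    gg y B C i l = (1 : Matrix (Fin n) (Fin n) F) i l := by
  show (if 0 < y l then B i l else if y l < 0 then C i l else (1 : Matrix (Fin n) (Fin n) F) i l) = _
  rw [h, if_neg (lt_irrefl _), if_neg (lt_irrefl _)]

open LieP.PS.P15_aux (Sp)

theorem gg_sp {y : Fin n → ℝ} {B C : Matrix (Fin n) (Fin n) F} (hB : Sp y B) (hC : Sp y C) :
    Sp y (gg y B C) := by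
  intro i l h
  rcases lt_trichotomy (y l) 0 with h1 | h1 | h1
  · rw [gg_m _ _ _ h1, hC i l h]
  · rw [gg_z _ _ _ h1, Matrix.one_apply_ne (fun h2 => h (by rw [h2]))]
  · rw [gg_p _ _ _ h1, hB i l h]

theorem gg_mul {y : Fin n → ℝ} (B C : Matrix (Fin n) (Fin n) F) {M : Matrix (Fin n) (Fin n) F} (hM : Sp y M)
    (i l : Fin n) : (gg y B C * M) i l =
      if 0 < y l then (B * M) i l else if y l < 0 then (C * M) i l else M i l := by
  have h0 : ∀ D : Matrix (Fin n) (Fin n) F, (∀ m, y m = y l → gg y B C i m = D i m) →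
      (gg y B C * M) i l = (D * M) i l := by
    intro D hD
    rw [Matrix.mul_apply, Matrix.mul_apply]
    refine Finset.sum_congr rfl fun m _ => ?_
    by_cases hm : y m = y l
    · rw [hD m hm]
    · rw [hM m l hm, mul_zero, mul_zero]
  rcases lt_trichotomy (y l) 0 with h1 | h1 | h1
  · rw [if_neg h1.not_gt, if_pos h1]
    exact h0 C fun m hm => gg_m _ _ _ (by rw [hm]; exact h1)
  · rw [h1, if_neg (lt_irrefl _), if_neg (lt_irrefl _), h0 1 fun m hm => gg_z _ _ _ (by rw [hm]; exact h1),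
      Matrix.one_mul]
  · rw [if_pos h1]
    exact h0 B fun m hm => gg_p _ _ _ (by rw [hm]; exact h1)

theorem mul_gg {y : Fin n → ℝ} (B C : Matrix (Fin n) (Fin n) F) (M : Matrix (Fin n) (Fin n) F)
    (i l : Fin n) : (M * gg y B C) i l =
      if 0 < y l then (M * B) i l else if y l < 0 then (M * C) i l else M i l := by
  have h0 : ∀ D : Matrix (Fin n) (Fin n) F, (∀ m, gg y B C m l = D m l) →
      (M * gg y B C) i l = (M * D) i l := by
    intro D hD
    rw [Matrix.mul_apply, Matrix.mul_apply]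
    exact Finset.sum_congr rfl fun m _ => by rw [hD m]
  rcases lt_trichotomy (y l) 0 with h1 | h1 | h1
  · rw [if_neg h1.not_gt, if_pos h1]
    exact h0 C fun m => gg_m _ _ _ h1
  · rw [h1, if_neg (lt_irrefl _), if_neg (lt_irrefl _), h0 1 fun m => gg_z _ _ _ h1, Matrix.mul_one]
  · rw [if_pos h1]
    exact h0 B fun m => gg_p _ _ _ h1

theorem gg_inv {y : Fin n → ℝ} {B C B' C' : Matrix (Fin n) (Fin n) F} (hB : Sp y B') (hC : Sp y C')
    (h1 : B * B' = 1) (h2 : C * C' = 1) : gg y B C * gg y B' C' = 1 := by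
  ext i l
  rw [gg_mul B C (gg_sp hB hC)]
  rcases lt_trichotomy (y l) 0 with h | h | h
  · rw [if_neg h.not_gt, if_pos h, mul_gg, if_neg h.not_gt, if_pos h, h2]
  · rw [if_neg (by rw [h]; exact lt_irrefl _), if_neg (by rw [h]; exact lt_irrefl _), gg_z _ _ _ h]
  · rw [if_pos h, mul_gg, if_pos h, h1]

theorem gg_pp {y : Fin n → ℝ} {B C : Matrix (Fin n) (Fin n) F} (hB : Sp y B) (hC : Sp y C) (v : Fin n → F) :
    pp y ((gg y B C).mulVec v) = B.mulVec (pp y v) := by
  funext i
  by_cases h : 0 < y i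
  · rw [pp_of _ h]
    show ∑ l, gg y B C i l * v l = ∑ l, B i l * pp y v l
    refine Finset.sum_congr rfl fun l _ => ?_
    by_cases hl : y i = y l
    · rw [gg_p _ _ _ (by rw [← hl]; exact h), pp_of _ (by rw [← hl]; exact h)]
    · rw [gg_sp hB hC i l hl, hB i l hl, zero_mul, zero_mul]
  · rw [pp_zero _ h]
    symm
    show ∑ l, B i l * pp y v l = 0
    refine Finset.sum_eq_zero fun l _ => ?_
    by_cases hl : y i = y l
    · rw [pp_zero _ (by rw [← hl]; exact h), mul_zero]
    · rw [hB i l hl, zero_mul]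

theorem gg_pm {y : Fin n → ℝ} {B C : Matrix (Fin n) (Fin n) F} (hB : Sp y B) (hC : Sp y C) (v : Fin n → F) :
    pm y ((gg y B C).mulVec v) = C.mulVec (pm y v) := by
  funext i
  by_cases h : y i < 0
  · rw [pm_of _ h]
    show ∑ l, gg y B C i l * v l = ∑ l, C i l * pm y v l
    refine Finset.sum_congr rfl fun l _ => ?_
    by_cases hl : y i = y l
    · rw [gg_m _ _ _ (by rw [← hl]; exact h), pm_of _ (by rw [← hl]; exact h)]
    · rw [gg_sp hB hC i l hl, hC i l hl, zero_mul, zero_mul]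
  · rw [pm_zero _ h]
    symm
    show ∑ l, C i l * pm y v l = 0
    refine Finset.sum_eq_zero fun l _ => ?_
    by_cases hl : y i = y l
    · rw [pm_zero _ (by rw [← hl]; exact h), mul_zero]
    · rw [hC i l hl, zero_mul]

theorem gg_pz {y : Fin n → ℝ} {B C : Matrix (Fin n) (Fin n) F} (hB : Sp y B) (hC : Sp y C) (v : Fin n → F) :
    pz y ((gg y B C).mulVec v) = pz y v := by
  funext i
  by_cases h : y i = 0
  · rw [pz_of _ h, pz_of _ h]
    show ∑ l, gg y B C i l * v l = _
    have h1 : ∀ l, gg y B C i l * v l = (1 : Matrix (Fin n) (Fin n) F) i l * v l := by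
      intro l
      by_cases hl : y i = y l
      · rw [gg_z _ _ _ (by rw [← hl]; exact h)]
      · rw [gg_sp hB hC i l hl, Matrix.one_apply_ne (fun h2 => hl (by rw [h2]))]
    rw [Finset.sum_congr rfl fun l _ => h1 l]
    show ((1 : Matrix (Fin n) (Fin n) F).mulVec v) i = v i
    rw [Matrix.one_mulVec]
  · rw [pz_zero _ h, pz_zero _ h]

end P26_aux

open P26_aux LieP.PS LieP.PS.P14_aux LieP.PS.P15_aux

variable {F : Type} [Field F] [Finite F] [CharP F 2] {n : ℕ} {a : F}

theorem level_ne (hn : Even n) {y : Fin n → ℝ} (hy : ∀ i, y (Fin.rev i) = - y i)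
    (ha : a ≠ 0 → ∀ i, Mid n i → y i = 0) {x : GL (Fin n) F} (hx : x ∈ OQ n a)
    (hsup : ∀ i j, y i ≠ y j → (x : Matrix (Fin n) (Fin n) F) i j = 0) {k r j : ℕ}
    (hxr : x ^ (2 ^ k * r) = 1) (hr : Odd r) (hj : Odd j) (hjr : j ≡ 1 [MOD r]) :
    ∃ g₁ : GL (Fin n) F, g₁ ∈ OQ n a ∧
      (∀ i j, y i ≠ y j → (g₁ : Matrix (Fin n) (Fin n) F) i j = 0) ∧
      (∀ i j, (y i = 0 ∨ y j = 0) → (g₁ : Matrix (Fin n) (Fin n) F) i j = (1 : Matrix (Fin n) (Fin n) F) i j) ∧
      ∀ i l, y l ≠ 0 → ((g₁ * x : GL (Fin n) F) : Matrix (Fin n) (Fin n) F) i l =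
        ((x ^ j * g₁ : GL (Fin n) F) : Matrix (Fin n) (Fin n) F) i l := by
  have hxr' : (x : Matrix (Fin n) (Fin n) F) ^ (2 ^ k * r) = 1 := by
    rw [← Units.val_pow_eq_pow_val, hxr, Units.val_one]
  obtain ⟨A, A', hA1, hA2, hA3, hA4, hA5⟩ := blk_conj y hsup hxr' hr hj hjr
  set X : Matrix (Fin n) (Fin n) F := (x : Matrix (Fin n) (Fin n) F) with hX
  have hrev : ∀ i : Fin n, Fin.rev (Fin.rev i) = i := fun i => Fin.rev_rev i
  set S : Matrix (Fin n) (Fin n) F → Matrix (Fin n) (Fin n) F := mst (RingEquiv.refl F) Fin.rev with hS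
  have hSsp : ∀ M, Sp y M → Sp y (S M) := by
    intro M hM i l h
    show M (Fin.rev l) (Fin.rev i) = 0
    refine hM _ _ fun h1 => h ?_
    rw [hy, hy] at h1
    linarith
  -- the adjoint of `x` is the inverse
  have hiso : Iso (fo n) (tl x) := QI.iso (qs_Qa hn a) (mem_OQ_iff.1 hx)
  have hSx : S X * X = 1 := by
    apply Matrix.mulVec_injective
    funext w
    show (S X * X).mulVec w = (1 : Matrix (Fin n) (Fin n) F).mulVec w
    rw [Matrix.one_mulVec, ← sub_eq_zero]
    refine om_nd hrev fun v => ?_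
    rw [map_sub, ← Matrix.mulVec_mulVec, ← om_adj hrev]
    have h1 := hiso v w
    rw [tl_apply, tl_apply] at h1
    exact sub_eq_zero.2 h1
  have hSx' : X * S X = 1 := mul_eq_one_comm.1 hSx
  have hSpow : ∀ m : ℕ, S (X ^ m) = S X ^ m := by
    intro m
    induction m with
    | zero => rw [pow_zero, pow_zero, hS, mst_one hrev]
    | succ m ih =>
      rw [pow_succ, pow_succ', ← ih]
      exact mst_mul hrev _ _
  have hinv : X ^ j * S X ^ j = 1 := by
    have hc : Commute X (S X) := by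
      show X * S X = S X * X
      rw [hSx, hSx']
    rw [← hc.mul_pow, hSx', one_pow]
  have hA6 : X * A' = A' * X ^ j := by
    calc X * A' = (A' * A) * X * A' := by rw [hA2, one_mul]
      _ = A' * (A * X) * A' := by rw [mul_assoc A' A X]
      _ = A' * (X ^ j * A) * A' := by rw [hA5]
      _ = A' * X ^ j * (A * A') := by noncomm_ring
      _ = A' * X ^ j := by rw [hA1, mul_one]
  have hA7 : S A' * S X = S X ^ j * S A' := by
    rw [← hSpow]
    calc S A' * S X = S (X * A') := (mst_mul hrev _ _).symm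
      _ = S (A' * X ^ j) := by rw [hA6]
      _ = S (X ^ j) * S A' := mst_mul hrev _ _
  have hA8 : S A' * X = X ^ j * S A' := by
    calc S A' * X = (X ^ j * S X ^ j) * S A' * X := by rw [hinv, one_mul]
      _ = X ^ j * (S X ^ j * S A') * X := by rw [mul_assoc (X ^ j)]
      _ = X ^ j * (S A' * S X) * X := by rw [hA7]
      _ = X ^ j * S A' * (S X * X) := by noncomm_ring
      _ = X ^ j * S A' := by rw [hSx, mul_one]
  have hS1 : S A' * S A = 1 := by
    calc S A' * S A = S (A * A') := (mst_mul hrev _ _).symm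
      _ = 1 := by rw [hA1, hS, mst_one hrev]
  have hS2 : S A * S A' = 1 := mul_eq_one_comm.1 hS1
  have hsp1 : Sp y (S A) := hSsp A hA3
  have hsp2 : Sp y (S A') := hSsp A' hA4
  let g₁ : GL (Fin n) F := ⟨gg y A (S A'), gg y A' (S A), gg_inv hA4 hsp1 hA1 hS1, gg_inv hA3 hsp2 hA2 hS2⟩
  have hg₁ : (g₁ : Matrix (Fin n) (Fin n) F) = gg y A (S A') := rfl
  refine ⟨g₁, ?_, ?_, ?_, ?_⟩
  · intro v
    rw [Q_split hn hy ha, Q_split hn hy ha v]
    have h1 : CF.mv g₁ v = (gg y A (S A')).mulVec v := rfl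
    rw [h1, gg_pz hA3 hsp2, gg_pp hA3 hsp2, gg_pm hA3 hsp2]
    congr 1
    show om Fin.rev (A.mulVec (pp y v)) ((S A').mulVec (pm y v)) = om Fin.rev (pp y v) (pm y v)
    rw [om_adj hrev, Matrix.mulVec_mulVec, show mst (RingEquiv.refl F) Fin.rev A = S A from rfl, hS2,
      Matrix.one_mulVec]
  · exact gg_sp hA3 hsp2
  · intro i l h
    rw [hg₁]
    by_cases hl : y l = 0
    · exact gg_z _ _ _ hl
    · have hi : y i = 0 := h.resolve_right hl
      have hil : y i ≠ y l := by rw [hi]; exact fun h' => hl h'.symm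
      rw [gg_sp hA3 hsp2 i l hil, Matrix.one_apply_ne (fun h2 => hil (by rw [h2]))]
  · intro i l hl
    rw [Units.val_mul, Units.val_mul, Units.val_pow_eq_pow_val, hg₁, ← hX, gg_mul _ _ hsup, mul_gg]
    rcases lt_or_gt_of_ne hl with h | h
    · rw [if_neg h.not_gt, if_neg h.not_gt, if_pos h, if_pos h, hA8]
    · rw [if_pos h, if_pos h, hA5]

end

end OR
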