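import Pool.Agent.OR.D91
import Pool.Agent.OR.P25
import Pool.Agent.OR.P26
import Pool.Agent.ParkerGL.E03

/-!
# MP_6c3636_al, OR, module P90: the target of series P (P5) (helper96)

`ParkerGL.OP (OL n a y)` (E03): `x ∈ OL n a y`, `x ^ (2 ^ k * r) = 1`. `g₀` from P25, `g₁` from P26 (`x ∈ OQ n a` by `Om_le`). `g := g₀ * g₁`. `g₀ ∈ Om n a` by `mem_Om`, `g₁ ∈ Om n a` by `ev_levels` (D91: `g₁ i j = 0` if `y i ≠ y j`, level `0` block `1`). `g * x = x ^ j * g` column by column: all matrices are block diagonal (`g₀ i l = 1 i l` unless `y i = 0 = y l`);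
for `y l = 0` the columns `l` of `g₁ * z`, `z * g₁` and `z` agree for block diagonal `z` (`(g₁ * z) i l = ∑ m, g₁ i m * z m l`, `z m l = 0` unless `y m = y l = 0`, `g₁ i m = 1 i m`), for `y l ≠ 0` the same with `g₀`. The inverse of `g` is block diagonal: `g₀⁻¹`, `g₁⁻¹` are the adjoints (`M° i j = M (rev j) (rev i)`, for `g ∈ OQ n a`), or: `tl g` preserves the
subspace of the vectors supported on a level, and so does the inverse (finite dimension). `op_Om`: `y = 0`, `OL n a 0 = Om n a`.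
-/

namespace OR

noncomputable section

open Classical Matrix

variable {F : Type} [Field F] [Finite F] [CharP F 2] {n : ℕ} {a : F}

namespace P90_aux

/-- block diagonal matrices -/
def BD (y : Fin n → ℝ) (M : Matrix (Fin n) (Fin n) F) : Prop := ∀ i j, y i ≠ y j → M i j = 0

omit [Finite F] [CharP F 2] in
theorem BD.mul {y : Fin n → ℝ} {A B : Matrix (Fin n) (Fin n) F} (hA : BD y A) (hB : BD y B) :
    BD y (A * B) := by
  intro i j hij
  rw [Matrix.mul_apply]
  refine Finset.sum_eq_zero fun k _ => ?_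
  by_cases h : y i = y k
  · rw [hB k j (fun h' => hij (h.trans h')), mul_zero]
  · rw [hA i k h, zero_mul]

omit [Finite F] [CharP F 2] in
theorem BD.one (y : Fin n → ℝ) : BD y (1 : Matrix (Fin n) (Fin n) F) := by
  intro i j h
  rw [Matrix.one_apply, if_neg (fun h' => h (congrArg y h'))]

omit [Finite F] [CharP F 2] in
theorem BD.pow {y : Fin n → ℝ} {g : GL (Fin n) F} (hg : BD y (g : Matrix (Fin n) (Fin n) F)) (k : ℕ) :
    BD y ((g ^ k : GL (Fin n) F) : Matrix (Fin n) (Fin n) F) := by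
  induction k with
  | zero => rw [pow_zero, Units.val_one]; exact BD.one y
  | succ k ih => rw [pow_succ, Units.val_mul]; exact ih.mul hg

omit [CharP F 2] in
theorem BD.inv {y : Fin n → ℝ} {g : GL (Fin n) F} (hg : BD y (g : Matrix (Fin n) (Fin n) F)) :
    BD y ((g⁻¹ : GL (Fin n) F) : Matrix (Fin n) (Fin n) F) := by
  haveI : Finite (GL (Fin n) F) := inferInstance
  have h1 : g ^ (orderOf g - 1) * g = 1 := by
    rw [← pow_succ, Nat.sub_add_cancel (orderOf_pos g), pow_orderOf_eq_one]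
  rw [← eq_inv_of_mul_eq_one_left h1]
  exact hg.pow _

omit [Finite F] [CharP F 2] in
/-- if the relevant entries of `A` are those of the identity then `A * B` has the column of `B` -/
theorem mul_left_col {A B : Matrix (Fin n) (Fin n) F} {l : Fin n}
    (h : ∀ i m, B m l ≠ 0 → A i m = (1 : Matrix (Fin n) (Fin n) F) i m) (i : Fin n) :
    (A * B) i l = B i l := by
  have h1 : (A * B) i l = ((1 : Matrix (Fin n) (Fin n) F) * B) i l := by
    rw [Matrix.mul_apply, Matrix.mul_apply]
    refine Finset.sum_congr rfl fun m _ => ?_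
    by_cases hm : B m l = 0
    · rw [hm, mul_zero, mul_zero]
    · rw [h i m hm]
  rw [h1, Matrix.one_mul]

omit [Finite F] [CharP F 2] in
/-- if `A` and `A'` have the same columns where the column of `B` is nonzero then `A * B`, `A' * B` have the same column -/
theorem mul_col_congr {A A' B : Matrix (Fin n) (Fin n) F} {l : Fin n}
    (h : ∀ i m, B m l ≠ 0 → A i m = A' i m) (i : Fin n) : (A * B) i l = (A' * B) i l := by
  rw [Matrix.mul_apply, Matrix.mul_apply]
  refine Finset.sum_congr rfl fun m _ => ?_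
  by_cases hm : B m l = 0
  · rw [hm, mul_zero, mul_zero]
  · rw [h i m hm]

omit [Finite F] [CharP F 2] in
theorem mul_col_congr_right {A B B' : Matrix (Fin n) (Fin n) F} {l : Fin n}
    (h : ∀ m, B m l = B' m l) (i : Fin n) : (A * B) i l = (A * B') i l := by
  rw [Matrix.mul_apply, Matrix.mul_apply]
  exact Finset.sum_congr rfl fun m _ => by rw [h m]

end P90_aux

open P90_aux in
theorem op_OL (hn : Even n) {y : Fin n → ℝ} (hy : ∀ i, y (Fin.rev i) = - y i)
    (ha : a ≠ 0 → ∀ i, Mid n i → y i = 0) : ParkerGL.OP (OL n a y) := by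
  rintro ⟨x, hx⟩ k r j hxr hr hj hjr
  obtain ⟨hxO, hxd, hxi⟩ := mem_OL.mp hx
  have hxr' : x ^ (2 ^ k * r) = 1 := congrArg Subtype.val hxr
  obtain ⟨g₀, h0Q, h0e, h0d, h0x⟩ := level_zero hn hy (Om_le n a hxO) hxd hxr' hr hj hjr
  obtain ⟨g₁, h1Q, h1b, h1d, h1x⟩ := level_ne hn hy ha (Om_le n a hxO) hxd hxr' hr hj hjr
  have hg0 : g₀ ∈ Om n a := (mem_Om hn).2 ⟨h0Q, h0e⟩
  have hg1 : g₁ ∈ Om n a := ev_levels hn h1Q hy ha (fun i j hij => h1b i j hij.ne)
    (fun i j hi _ => h1d i j (Or.inl hi))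
  have b0 : BD y (g₀ : Matrix (Fin n) (Fin n) F) := by
    intro i j hij
    rw [h0d i j (by
      by_contra h
      push Not at h
      exact hij (h.1.trans h.2.symm)), Matrix.one_apply, if_neg (fun h' => hij (congrArg y h'))]
  have b1 : BD y (g₁ : Matrix (Fin n) (Fin n) F) := h1b
  have bx : BD y (x : Matrix (Fin n) (Fin n) F) := hxd
  have bxj := bx.pow j
  have hb : BD y ((g₀ * g₁ : GL (Fin n) F) : Matrix (Fin n) (Fin n) F) := by
    rw [Units.val_mul]
    exact b0.mul b1
  have hmem : g₀ * g₁ ∈ OL n a y := mem_OL.mpr ⟨Subgroup.mul_mem _ hg0 hg1, hb, hb.inv⟩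
  refine ⟨⟨g₀ * g₁, hmem⟩, Subtype.ext ?_⟩
  show g₀ * g₁ * x * (g₀ * g₁)⁻¹ = x ^ j
  rw [mul_inv_eq_iff_eq_mul]
  refine Units.ext (Matrix.ext fun i l => ?_)
  have key : ((g₀ * g₁ * x : GL (Fin n) F) : Matrix (Fin n) (Fin n) F) =
      (g₀ : Matrix (Fin n) (Fin n) F) * ((g₁ * x : GL (Fin n) F) : Matrix (Fin n) (Fin n) F) := by
    rw [mul_assoc, Units.val_mul]
  have key' : ((x ^ j * (g₀ * g₁) : GL (Fin n) F) : Matrix (Fin n) (Fin n) F) =
      ((x ^ j * g₀ : GL (Fin n) F) : Matrix (Fin n) (Fin n) F) * (g₁ : Matrix (Fin n) (Fin n) F) := by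
    rw [← mul_assoc, Units.val_mul]
  rw [key, key']
  by_cases hl : y l = 0
  · -- level zero
    have e1 : ∀ m, ((g₁ * x : GL (Fin n) F) : Matrix (Fin n) (Fin n) F) m l =
        (x : Matrix (Fin n) (Fin n) F) m l := by
      intro m
      rw [Units.val_mul]
      refine mul_left_col (fun i' m' hm' => h1d i' m' (Or.inr ?_)) m
      by_contra hne
      exact hm' (bx m' l (by rw [hl]; exact hne))
    rw [mul_col_congr_right e1 i, ← Units.val_mul, h0x i l hl]
    have e2 : ∀ m, (g₁ : Matrix (Fin n) (Fin n) F) m l = (1 : Matrix (Fin n) (Fin n) F) m l :=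
      fun m => h1d m l (Or.inr hl)
    rw [mul_col_congr_right e2 i, Matrix.mul_one]
  · have e1 : ∀ m, ((g₁ * x : GL (Fin n) F) : Matrix (Fin n) (Fin n) F) m l =
        ((x ^ j * g₁ : GL (Fin n) F) : Matrix (Fin n) (Fin n) F) m l := fun m => h1x m l hl
    rw [mul_col_congr_right e1 i]
    have bxg : BD y ((x ^ j * g₁ : GL (Fin n) F) : Matrix (Fin n) (Fin n) F) := by
      rw [Units.val_mul]
      exact bxj.mul b1
    rw [mul_left_col (fun i' m' hm' => h0d i' m' (Or.inr (fun h0 => hm' (bxg m' l (by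
      rw [h0]
      exact fun h' => hl h'.symm))))) i]
    rw [Units.val_mul]
    refine mul_col_congr (fun i' m' hm' => ?_) i
    have hm0 : y m' ≠ 0 := by
      intro h0
      exact hm' (b1 m' l (by rw [h0]; exact fun h' => hl h'.symm))
    rw [Units.val_mul]
    have e3 : ∀ m, (g₀ : Matrix (Fin n) (Fin n) F) m m' = (1 : Matrix (Fin n) (Fin n) F) m m' :=
      fun m => h0d m m' (Or.inr hm0)
    rw [mul_col_congr_right e3 i', Matrix.mul_one]

theorem op_Om (hn : Even n) : ParkerGL.OP (Om n a) := by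
  have h1 : OL n a (0 : Fin n → ℝ) = Om n a := by
    refine le_antisymm (fun g hg => (mem_OL.mp hg).1) (fun g hg => mem_OL.mpr ⟨hg, ?_, ?_⟩)
    · intro i j h
      exact absurd rfl h
    · intro i j h
      exact absurd rfl h
  rw [← h1]
  exact op_OL hn (fun i => by simp) (fun _ i _ => rfl)

end

end OR
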