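import Pool.Agent.OR.I05
import Pool.Agent.OR.I06
import Pool.Agent.OR.I08
import Pool.Agent.OR.I09
import Pool.Agent.OR.I10
import Pool.Agent.OR.I11
import Pool.Agent.OR.I12
import Pool.Agent.OR.I14
import Pool.Agent.OR.I24
import Pool.Agent.OR.I25
import Pool.Agent.OR.K12
import Pool.Agent.OR.E20
import Pool.Agent.OR.P90
import Pool.Agent.LieP.I09
import Pool.Agent.LieP.Z04

/-!
# MP_6c3636_al, OR, module I90: assembly (helper40)

The groups `Om n a` have a `LieSys`, so (A) and (B); `ex_Om'`: extensions by the groups between `Om n a` and `OQ n a`.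
-/

namespace OR

noncomputable section

open Classical Matrix CF

open LieP (En UG UL Lin Al dl sb el LieSys)

open LieP.GI (PS)

/-- the system -/
def psysO (n : ℕ) {F : Type} [Field F] [Finite F] [CharP F 2] {a : F} (hn : Even n) (ha : a = 0 ∨ Aniso a) :
    PS (GL (Fin n) F) (EA n a) where
  H := Om n a
  R := Ro n a
  N := NO n a
  ac := acO a
  U := Uo
  L := Lo
  z0 := zo n a
  D0 := Dlo n a
  gen0 := gen_zo hn
  neg := Ro_neg
  ne := by
    intro α hα h0
    have h1 := gen_zo hn α hα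
    rw [h0, inner_zero_left] at h1
    exact h1 rfl
  NH := NO_le n a
  UH := fun x => inf_le_left
  LH := fun x g hg => hg.1
  ac_one := acO_one hn a
  ac_mul := fun m hm k hk => acO_mul hn hm hk
  s1 := o_s1 hn
  s2 := o_s2 hn
  s3 := o_s3 hn
  s4 := o_s4 hn
  s4' := o_s4' hn
  s5U := o_s5U hn
  s5L := o_s5L hn
  s5P := o_s5P hn
  s6 := o_s6 hn
  s7U := o_s7U hn
  s7L := o_s7L hn
  s7R := o_s7R hn
  s8 := o_s8 hn
  s8' := o_s8' hn
  s10 := o_s10 hn
  s11 := o_s11 hn
  s11' := o_s11' hn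
  s12 := o_s12 hn
  b9 := o_b9 hn ha
  b13 := o_b13 hn
  b14 := o_b14 hn
  b14' := o_b14' hn
  b14'' := o_b14'' hn
  bw0 := o_bw0 hn
  bw1 := o_bw1 hn
  bw2 := by
    rcases ha with h | h
    · subst h
      exact bw2_split hn
    · exact bw2_aniso hn h
  bw3 := o_bw3 hn
  bw4 := o_bw4 hn ha

theorem or_ab {F : Type} [Field F] [Finite F] [CharP F 2] (n : ℕ) (a : F) (hn : Even n) (ha : a = 0 ∨ Aniso a) :
    Parker.PropA Parker.ctx2 1 (Om n a) ∧ ParkerGL.OP (Om n a) := by
  obtain ⟨S, hSH, hSL⟩ := (psysO n hn ha).sys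
  have hOP : ∀ y, ParkerGL.OP (S.L y) := by
    intro y
    rw [hSL]
    exact op_OL hn (cx_rev y) (cx_mid' y)
  have h1 := LieP.lie_propA S hOP Parker.ctx2 LieP.ctx2_two
  have h2 : S.H = Om n a := hSH
  rw [h2] at h1
  exact ⟨h1, op_Om hn⟩

/-- the extension theorem for the groups between `Om n a` and `OQ n a` -/
theorem ex_Om' {F : Type} [Field F] [Finite F] [CharP F 2] {n : ℕ} (hn : Even n) (a : F)
    (H : Subgroup (GL (Fin n) F)) (h1 : Om n a ≤ H) (h2 : H ≤ OQ n a) : Ex H :=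
  ex_Om (fun m a' hm ha' => or_ab m a' hm ha') hn a H h1 h2

/-- the extension theorem for the groups between `EO n a` and `OQ n a` -/
theorem ex_EO' {F : Type} [Field F] [Finite F] [CharP F 2] {n : ℕ} (hn : Even n) (a : F)
    (H : Subgroup (GL (Fin n) F)) (h1 : EO n a ≤ H) (h2 : H ≤ OQ n a) : Ex H :=
  ex_OQ (fun m a' hm ha' => or_ab m a' hm ha') hn a H h1 h2

end

end OR
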