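import Pool.Agent.OR.I02
import Pool.Agent.OR.I15
import Pool.Agent.LieP.I43

/-!
# MP_6c3636_al, OR, module K01: definitions for (W4) (helper40)

`y` is a point with antitone coordinates. `py y` reverses the levels of `y`, except that it fixes the two middle indices if
half of the number of the indices of level zero is odd (`oz y`); `PM y` is its matrix; `tau π g` is the matrix with the
entries `g (π j) (π i)`; `l00 y ψ` is the standard character of `UZ n a`; `Rel y ψ m`: `m` is a relevant element of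
`NO n a ⊓ Lo y`.
-/

namespace OR

noncomputable section

open Classical Matrix CF

open LieP (En UG UL Lin)

open LieP.GI (pinv pinv')

variable {n : ℕ} {F : Type} [Field F] {a : F}

/-- half of the number of the indices of level zero is odd -/
def oz (y : EA n a) : Prop := (Finset.univ.filter fun i : Fin n => cx y i = 0).card % 4 = 2

/-- the reversal of the levels, corrected in the middle -/
def pyf (y : EA n a) (i : Fin n) : Fin n := if oz y ∧ Mid n i then i else LieP.GI.rv (cx y) i

/-- the reversal of the levels as a permutation -/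
def py (y : EA n a) : Equiv.Perm (Fin n) := if h : Function.Involutive (pyf y) then h.toPerm else 1

/-- the matrix of `py y` -/
def PM (y : EA n a) : GL (Fin n) F := pmt F (py y)

/-- the matrix with the entries `A (π j) (π i)` -/
def tauM (π : Equiv.Perm (Fin n)) (A : Matrix (Fin n) (Fin n) F) : Matrix (Fin n) (Fin n) F :=
  fun i j => A (π j) (π i)

theorem tauM_mul (π : Equiv.Perm (Fin n)) (A B : Matrix (Fin n) (Fin n) F) :
    tauM π A * tauM π B = tauM π (B * A) := by
  ext i j
  rw [Matrix.mul_apply]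
  show _ = (B * A) (π j) (π i)
  rw [Matrix.mul_apply, ← Equiv.sum_comp π (fun k => B (π j) k * A k (π i))]
  exact Finset.sum_congr rfl fun k _ => mul_comm _ _

theorem tauM_one (π : Equiv.Perm (Fin n)) : tauM π (1 : Matrix (Fin n) (Fin n) F) = 1 := by
  ext i j
  show (1 : Matrix (Fin n) (Fin n) F) (π j) (π i) = _
  rw [Matrix.one_apply, Matrix.one_apply]
  by_cases h : i = j
  · rw [if_pos (by rw [h]), if_pos h]
  · rw [if_neg (fun h' => h (π.injective h').symm), if_neg h]

/-- the antiautomorphism -/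
def tau (π : Equiv.Perm (Fin n)) (g : GL (Fin n) F) : GL (Fin n) F where
  val := tauM π (g : Matrix (Fin n) (Fin n) F)
  inv := tauM π ((g⁻¹ : GL (Fin n) F) : Matrix (Fin n) (Fin n) F)
  val_inv := by
    rw [tauM_mul, ← Units.val_mul, inv_mul_cancel, Units.val_one, tauM_one]
  inv_val := by
    rw [tauM_mul, ← Units.val_mul, mul_inv_cancel, Units.val_one, tauM_one]

theorem tau_apply (π : Equiv.Perm (Fin n)) (g : GL (Fin n) F) (i j : Fin n) :
    (tau π g : Matrix (Fin n) (Fin n) F) i j = (g : Matrix (Fin n) (Fin n) F) (π j) (π i) := rfl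

theorem tau_inv_apply (π : Equiv.Perm (Fin n)) (g : GL (Fin n) F) (i j : Fin n) :
    (((tau π g)⁻¹ : GL (Fin n) F) : Matrix (Fin n) (Fin n) F) i j =
      ((g⁻¹ : GL (Fin n) F) : Matrix (Fin n) (Fin n) F) (π j) (π i) := rfl

theorem tau_mul (π : Equiv.Perm (Fin n)) (g h : GL (Fin n) F) : tau π (g * h) = tau π h * tau π g := by
  apply Units.ext
  show tauM π ((g * h : GL (Fin n) F) : Matrix (Fin n) (Fin n) F) =
    tauM π (h : Matrix (Fin n) (Fin n) F) * tauM π (g : Matrix (Fin n) (Fin n) F)
  rw [tauM_mul, Units.val_mul]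

theorem tau_tau {π : Equiv.Perm (Fin n)} (hπ : ∀ i, π (π i) = i) (g : GL (Fin n) F) : tau π (tau π g) = g := by
  apply Units.ext
  ext i j
  rw [tau_apply, tau_apply, hπ, hπ]

/-- a nontrivial additive function -/
structure Ps (ψ : F → ℤˣ) : Prop where
  add : ∀ s t, ψ (s + t) = ψ s * ψ t
  nt : ∃ s, ψ s ≠ 1

theorem Ps.zero {ψ : F → ℤˣ} (h : Ps ψ) : ψ 0 = 1 := by
  have h1 := h.add 0 0
  rw [add_zero] at h1
  exact mul_eq_left.1 h1.symm

/-- the simple pairs inside of the levels of `y` -/
def smy (y : EA n a) : Finset (Fin n × Fin n) :=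
  Finset.univ.filter fun p : Fin n × Fin n => Sm n p.1 p.2 ∧ cx y p.1 = cx y p.2

theorem mem_smy {y : EA n a} {p : Fin n × Fin n} : p ∈ smy y ↔ Sm n p.1 p.2 ∧ cx y p.1 = cx y p.2 := by
  unfold smy
  rw [Finset.mem_filter]
  exact ⟨fun h => h.2, fun h => ⟨Finset.mem_univ _, h⟩⟩

/-- the standard character -/
def l00 (y : EA n a) (ψ : F → ℤˣ) (g : GL (Fin n) F) : ℤˣ :=
  ψ (∑ p ∈ smy y, (g : Matrix (Fin n) (Fin n) F) p.1 p.2)

/-- the relevant elements -/
structure Rel (y : EA n a) (ψ : F → ℤˣ) (m : GL (Fin n) F) : Prop where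
  no : m ∈ NO n a
  lo : m ∈ Lo y
  rel : ∀ u ∈ UZ n a ⊓ Lo y, m⁻¹ * u * m ∈ UZ n a ⊓ Lo y → l00 y ψ u = l00 y ψ (m⁻¹ * u * m)

end

end OR
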