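import Pool.Agent.OR.K01
import Pool.Agent.OR.I05
import Pool.Agent.OR.I06
import Pool.Agent.OR.I14
import Pool.Agent.OR.I20
import Pool.Agent.LieP.I11

/-!
# MP_6c3636_al, OR, module K02: the Levi part and the Bruhat decomposition of Lo y (stub of helper40)

`lev y g` (LieP/I02, I11): the block diagonal part. All `g ∈ Om n a` with the parabolic condition are in `PP (RingEquiv.refl F) (cx y)` (`LieP.GI.mem_PP`, `OQ_le_Ug`), so I11 applies. `levO_Lo`: `lev_mem` gives `lev ∈ UL`, `lev_split` gives `g = lev * v` with `v ∈ UU`; `g = (lev * v * lev⁻¹) * lev * 1` with `lev * v * lev⁻¹ ∈ UU` (`LieP.GI.c_s4`), so `split_Om` (I04) gives `lev ∈ Lo y`. `par_UZ`: `g i j ≠ 0` for `g ∈ UZ n a` implies `i = j` or `pl n i j`, so `i ≤ j`, and `cx y j ≤ cx y i` (antitone). `levO_UZ`: the entries of `lev` are entries of `g` or zero (`lev_coe`), `mem_UZ`. `levO_id`: `lev_UL`; `levO_one`: `lev_UU`.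
`levi_bruhat_o`: as LieP/I42. `g ∈ Lo y ≤ Om`, `g = u * m * u'` (`o_b9`); `m = u⁻¹ * g * u'⁻¹` is parabolic: products of parabolic matrices are parabolic (`LieP.GI.PP` is a subgroup). For all `j`: `cx y j ≤ cx y (π j)`, `π = pmo a m` (if `a = 0` or `j` is not in the middle: `m (π j) j ≠ 0` by `IsN.ne`; middle `j`, `a ≠ 0`: `π j = j`). The sums over `j` agree, so equality, and `acO a m y = y` (as in the proof of `o_s8`, I06), `m ∈ Lo y` by `o_s8'`. Apply `lev`: `g = lev g = lev u * m * lev u'`.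
-/

namespace OR

noncomputable section

open Classical Matrix CF

open LieP (En UG UL Lin Al dl sb el)

open LieP.GI (pinv pinv' UU mem_UU mem_UL lev)

variable {n : ℕ} {F : Type} [Field F] [Finite F] [CharP F 2] {a : F}

theorem K02_PP (hn : Even n) {y : EA n a} {g : GL (Fin n) F} (hg : g ∈ Om n a)
    (hp : ∀ i j, cx y i < cx y j → (g : Matrix (Fin n) (Fin n) F) i j = 0) :
    g ∈ LieP.GI.PP (RingEquiv.refl F) (cx y) :=
  LieP.GI.mem_PP.2 ⟨OQ_le_Ug hn a (Om_le n a hg), hp⟩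

theorem levO_Lo (hn : Even n) {y : EA n a} {g : GL (Fin n) F} (hg : g ∈ Om n a)
    (hp : ∀ i j, cx y i < cx y j → (g : Matrix (Fin n) (Fin n) F) i j = 0) : lev (cx y) g ∈ Lo y := by
  have h0 := K02_PP hn hg hp
  obtain ⟨v, hv, h⟩ := LieP.GI.lev_split (cx_rev y) h0
  have h1 : lev (cx y) g ∈ UL (RingEquiv.refl F) Fin.revPerm (cx y) := LieP.GI.lev_mem (cx_rev y) h0
  have h2 : lev (cx y) g * v * (lev (cx y) g)⁻¹ ∈ UU (RingEquiv.refl F) (cx y) :=
    LieP.GI.c_s4 (RingEquiv.refl F) (tn y) _ h1 v hv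
  have h3 : lev (cx y) g * v * (lev (cx y) g)⁻¹ * lev (cx y) g * 1 ∈ Om n a := by
    rw [mul_one, inv_mul_cancel_right, ← h]
    exact hg
  exact (split_Om hn y h2 h1 (Subgroup.one_mem _) h3).2.1

theorem levO_mul (hn : Even n) {y : EA n a} {g h : GL (Fin n) F} (hg : g ∈ Om n a) (hh : h ∈ Om n a)
    (hp : ∀ i j, cx y i < cx y j → (g : Matrix (Fin n) (Fin n) F) i j = 0)
    (hp' : ∀ i j, cx y i < cx y j → (h : Matrix (Fin n) (Fin n) F) i j = 0) :
    lev (cx y) (g * h) = lev (cx y) g * lev (cx y) h :=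
  LieP.GI.lev_mul (K02_PP hn hg hp) (K02_PP hn hh hp')

theorem par_UZ (hn : Even n) {y : EA n a} (hy : Antitone (cx y)) {g : GL (Fin n) F} (hg : g ∈ UZ n a) :
    ∀ i j, cx y i < cx y j → (g : Matrix (Fin n) (Fin n) F) i j = 0 := by
  intro i j hij
  have h1 : ¬ i ≤ j := fun h => absurd (hy h) (not_le.2 hij)
  have h2 : ¬ pl n i j := fun h => h1 h.1.le
  rw [((mem_UZ hn).1 hg).2 i j h2, Matrix.one_apply_ne (fun h => h1 h.le)]

theorem levO_UZ (hn : Even n) {y : EA n a} (hy : Antitone (cx y)) {g : GL (Fin n) F} (hg : g ∈ UZ n a) :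
    lev (cx y) g ∈ UZ n a ⊓ Lo y := by
  have hg' : g ∈ Om n a := hg.1
  have h1 := levO_Lo hn hg' (par_UZ hn hy hg)
  refine Subgroup.mem_inf.2 ⟨?_, h1⟩
  rw [mem_UZ hn]
  refine ⟨Om_le n a ((mem_Lo hn).1 h1).1, fun i j hij => ?_⟩
  rw [LieP.GI.lev_coe (K02_PP hn hg' (par_UZ hn hy hg))]
  unfold LieP.GI.bp
  split_ifs with h
  · exact ((mem_UZ hn).1 hg).2 i j hij
  · rw [Matrix.one_apply_ne (fun h' => h (congrArg (cx y) h'))]

theorem levO_id (hn : Even n) {y : EA n a} {g : GL (Fin n) F} (hg : g ∈ Lo y) : lev (cx y) g = g := by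
  rw [Lo_eq hn] at hg
  exact LieP.GI.lev_UL hg.2

theorem levO_one (hn : Even n) {y : EA n a} {g : GL (Fin n) F} (hg : g ∈ Uo y) : lev (cx y) g = 1 :=
  LieP.GI.lev_UU hg.2

theorem levi_bruhat_o (hn : Even n) (ha : a = 0 ∨ Aniso a) {y : EA n a} (hy : Antitone (cx y)) :
    ∀ g ∈ Lo y, ∃ u ∈ UZ n a ⊓ Lo y, ∃ m ∈ NO n a ⊓ Lo y, ∃ u' ∈ UZ n a ⊓ Lo y, g = u * m * u' := by
  intro g hg
  have hgm := (mem_Lo hn).1 hg
  have hgp : ∀ i j, cx y i < cx y j → (g : Matrix (Fin n) (Fin n) F) i j = 0 := fun i j hij => hgm.2 i j hij.ne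
  obtain ⟨u, hu, m, hm, u', hu', h⟩ := o_b9 hn ha g hgm.1
  have hu1 : u ∈ UZ n a := hu
  have hu1' : u' ∈ UZ n a := hu'
  have hup := par_UZ hn hy hu1
  have hup' := par_UZ hn hy hu1'
  have huO : u ∈ Om n a := hu1.1
  have huO' : u' ∈ Om n a := hu1'.1
  have hP := K02_PP hn hgm.1 hgp
  have hPu := K02_PP hn huO hup
  have hPu' := K02_PP hn huO' hup'
  have hPm : m ∈ LieP.GI.PP (RingEquiv.refl F) (cx y) := by
    have h1 : m = u⁻¹ * g * u'⁻¹ := by
      rw [h]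
      group
    rw [h1]
    exact Subgroup.mul_mem _ (Subgroup.mul_mem _ (Subgroup.inv_mem _ hPu) hP) (Subgroup.inv_mem _ hPu')
  have hmp := (LieP.GI.mem_PP.1 hPm).2
  have hle : ∀ j, cx y j ≤ cx y (pmo a m j) := by
    intro j
    by_cases hj : a = 0 ∨ ¬ Mid n j
    · by_contra h1
      rw [not_le] at h1
      exact (pmo_spec hm).ne hj (hmp _ _ h1)
    · rw [not_or, not_not] at hj
      rw [pmo_mid hm hj.1 hj.2]
  have hsum : (∑ j, cx y j) = ∑ j, cx y (pmo a m j) := (Equiv.sum_comp (pmo a m) (cx y)).symm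
  have heq := (Finset.sum_eq_sum_iff_of_le (fun j _ => hle j)).1 hsum
  have hact : acO a m y = y := by
    refine cx_ext fun i => ?_
    rw [cx_acO' hn hm, heq _ (Finset.mem_univ _), pinv']
  have hmL : m ∈ Lo y := o_s8' hn m hm y hact
  refine ⟨lev (cx y) u, levO_UZ hn hy hu1, m, Subgroup.mem_inf.2 ⟨hm, hmL⟩, lev (cx y) u',
    levO_UZ hn hy hu1', ?_⟩
  have h1 := levO_id hn hg
  rw [h, LieP.GI.lev_mul (Subgroup.mul_mem _ hPu hPm) hPu', LieP.GI.lev_mul hPu hPm, levO_id hn hmL] at h1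
  rw [h]
  exact h1.symm

end

end OR
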