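import Pool.Agent.OR.K01
import Pool.Agent.OR.I02
import Pool.Agent.OR.I06

/-!
# MP_6c3636_al, OR, module K03: the element PM y (stub of helper40)

`rv y` (LieP/I43): `rv_eq` (same level), `rv_rv`, `rv_lt` (reverses the order inside of a level), `rv_succ`, `rv_rev`, `rv_zero` (`rv y i = rev i` if `y i = 0`). `pyf`: if `oz y` then the number of the zeros of `cx y` is positive, so the middle indices have level zero (the zero level is a symmetric interval), and `rv y` exchanges them; `rv y` maps the indices outside of the middle to such indices. So `pyf y` is an involution, which commutes with `rev`, preserves the levels and the middle (if `a ≠ 0` then the middle has level zero anyway, so `rv` = `rev` there). `py_pl`: let `cx y i = cx y j`, `pl n i j`. Without the correction: `rv_lt`; `rv i`, `rv j` are both in the middle only if `i`, `j` are (if the common level is zero; if it is not zero then, for `a = 0`, the two middle indices have different levels (`y_m = - y_(m-1)`) or level zero, so they are not both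 of the form `rv i`, `rv j`). With the correction the common level is zero or not; level zero: `rv = rev`; if `i` is in the middle and `j` not: `py j = rev j < py i = i` because `j > n / 2`; the other cases are similar.
`PM_Om`: `PM y ∈ OQ n a` by `pmt_OQ`. Let `ρ` be the permutation which is `py y` on the level zero and the identity elsewhere; by `ev_levels_iff` (D91; for `cx y`) `PM y ∈ Om n a` iff `pmt F ρ ∈ Om n a` (block diagonal, same block of level zero). `pmt F ρ` is the product of the commuting elements `swp F i` over the indices `i` of the first half with `cx y i = 0` (and `i` not in the middle if `oz y`); the number of these is even (`card / 2`, or `card / 2 - 1` if `oz y`); `swp F i ∈ OQ \ Om`, so a product of an even number of them is in `Om` (`mul_mem_Om`, D90; induction on a finite set `S` of indices of the first half: `pmt F (product) ∈ Om` iff `Even S.card`, `par_mul`).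
`PM_NO`: `mem_NO`; if `a = 0` or `oz y`: `IsN_pmt`. If `a ≠ 0` and not `oz y`: `IsN a (PM y) ρ'` for `ρ' = py y` outside of the middle and `ρ' = id` in the middle. `PM_Lo`: `mem_Lo`, `pmt_apply`, `py_level`. `PM_ac`: `cx_acO`, the middle coordinates are zero if `a ≠ 0`. `PM_rto`: `rto_ext`/`PM_ac` (`acO` is an isometry: `<acO P α, x> = <α, acO P⁻¹ x>`; or evaluate at `x = acO P w`: `LinearIsometryEquiv.inner_map_map`, `surjective`). `PM_simple`: `Sm n i j`, `cx y i = cx y j`. If the common level is not zero it is positive (`i` is in the first half, antitone, `y_(rev i) = - y_i`), then `j = i + 1` (for `2 * i + 4 = n`, `j = i + 2` the level of `j` is `≤ 0`), and `py i = py j + 1` (`rv_succ`, no correction as the middle has another level or `oz` is false or ...: `i`, `j` are not middle indices of level zero), and `py i` is in the first half (positive level), so `Sm n (py j) (py i)`. Level zero: `rv = rev`: without correction `rto a (rev j) (rev i) = rto a i j` (`rto_rev`). With the correction: the same if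 `j` is not in the middle; if `j` is in the middle: `rto a j (rev i) = rto a i (rev j)` (`rto_rev`) and `Sm n i (rev j)`.
-/

namespace OR

noncomputable section

open Classical Matrix CF

open LieP (En UG UL Lin Al dl sb el)

open LieP.GI (pinv pinv' UU mem_UU mem_UL lev)

variable {n : ℕ} {F : Type} [Field F] [Finite F] [CharP F 2] {a : F}

namespace K03_aux

open LieP.GI (rv rv_eq rv_rv rv_lt rv_succ rv_rev rv_zero)

omit [Finite F] [CharP F 2] in
theorem mid_zero (hn : Even n) {y : EA n a} (hy : Antitone (cx y)) (h : oz y) {i : Fin n} (hi : Mid n i) :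
    cx y i = 0 := by
  unfold oz at h
  have h1 : (Finset.univ.filter fun i : Fin n => cx y i = 0).Nonempty := by
    rw [← Finset.card_pos]
    omega
  obtain ⟨k, hk⟩ := h1
  have hk0 : cx y k = 0 := (Finset.mem_filter.1 hk).2
  have hk1 : cx y (Fin.rev k) = 0 := by rw [cx_rev, hk0, neg_zero]
  have key : ∀ l : Fin n, cx y l = 0 → cx y (Fin.rev l) = 0 → (l : ℕ) < n / 2 → cx y i = 0 := by
    intro l h2 h3 h4
    obtain ⟨m, hm⟩ := hn
    have h5 : l ≤ i := by
      rw [Fin.le_def]
      unfold Mid at hi
      omega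
    have h6 : i ≤ Fin.rev l := by
      rw [Fin.le_def, Fin.val_rev]
      unfold Mid at hi
      omega
    have h7 := hy h5
    have h8 := hy h6
    rw [h2] at h7
    rw [h3] at h8
    exact le_antisymm h7 h8
  by_cases h2 : (k : ℕ) < n / 2
  · exact key k hk0 hk1 h2
  · refine key (Fin.rev k) hk1 ?_ ((rev_lt hn k).2 h2)
    rw [Fin.rev_rev]
    exact hk0

omit [Finite F] [CharP F 2] in
theorem rv_mid (hn : Even n) {y : EA n a} (hy : Antitone (cx y)) (h : ∀ k, Mid n k → cx y k = 0) (i : Fin n) :
    Mid n (rv (cx y) i) ↔ Mid n i := by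
  constructor
  · intro h1
    have h2 : cx y i = 0 := by
      rw [← rv_eq hy i]
      exact h _ h1
    rw [rv_zero hy (cx_rev y) h2] at h1
    exact (Mid_rev hn).1 h1
  · intro h1
    rw [rv_zero hy (cx_rev y) (h i h1)]
    exact (Mid_rev hn).2 h1

/-- exchanges of pairs of indices -/
theorem prod_swp (hn : Even n) (a : F) (S : Finset (Fin n)) (hS : ∀ i ∈ S, (i : ℕ) < n / 2) :
    ∃ ρ : Equiv.Perm (Fin n), (∀ k, ρ k = if k ∈ S ∨ Fin.rev k ∈ S then Fin.rev k else k) ∧
      pmt F ρ ∈ OQ n a ∧ (pmt F ρ ∈ Om n a ↔ Even S.card) := by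
  induction S using Finset.induction_on with
  | empty =>
    refine ⟨1, fun k => ?_, ?_, ?_⟩
    · rw [if_neg (by simp)]
      rfl
    · rw [pmt_one]
      exact Subgroup.one_mem _
    · rw [pmt_one, Finset.card_empty]
      exact ⟨fun _ => Even.zero, fun _ => Subgroup.one_mem _⟩
  | insert i S hi ih =>
    obtain ⟨ρ, h1, h2, h3⟩ := ih fun j hj => hS j (Finset.mem_insert_of_mem hj)
    have hi1 : (i : ℕ) < n / 2 := hS i (Finset.mem_insert_self _ _)
    have hi2 : Fin.rev i ∉ S := by
      intro h4
      exact (rev_lt hn i).1 (hS _ (Finset.mem_insert_of_mem h4)) hi1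
    have h0 := rev_ne hn i
    refine ⟨Equiv.swap i (Fin.rev i) * ρ, fun k => ?_, ?_, ?_⟩
    · show Equiv.swap i (Fin.rev i) (ρ k) = _
      rw [h1]
      by_cases hk : k = i
      · rw [hk, if_neg (not_or.2 ⟨hi, hi2⟩), Equiv.swap_apply_left,
          if_pos (Or.inl (Finset.mem_insert_self _ _))]
      · by_cases hk' : k = Fin.rev i
        · rw [hk', Fin.rev_rev, if_neg (not_or.2 ⟨hi2, hi⟩), Equiv.swap_apply_right,
            if_pos (Or.inr (Finset.mem_insert_self _ _))]
        · have hk2 : Fin.rev k ≠ i := fun h => hk' (by rw [← h, Fin.rev_rev])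
          have hk3 : Fin.rev k ≠ Fin.rev i := fun h => hk (Fin.rev_injective h)
          have h5 : (k ∈ insert i S ∨ Fin.rev k ∈ insert i S) ↔ (k ∈ S ∨ Fin.rev k ∈ S) := by
            rw [Finset.mem_insert, Finset.mem_insert]
            tauto
          by_cases h6 : k ∈ S ∨ Fin.rev k ∈ S
          · rw [if_pos h6, if_pos (h5.2 h6), Equiv.swap_apply_of_ne_of_ne hk2 hk3]
          · rw [if_neg h6, if_neg (fun h => h6 (h5.1 h)), Equiv.swap_apply_of_ne_of_ne hk hk']
    · rw [pmt_mul]
      exact Subgroup.mul_mem _ (swp_OQ hn a i) h2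
    · rw [pmt_mul, Finset.card_insert_of_notMem hi, Nat.even_add_one, ← h3]
      constructor
      · intro h4 h5
        refine swp_not (F := F) hn a i ?_
        have h6 := Subgroup.mul_mem _ h4 (Subgroup.inv_mem _ h5)
        rw [mul_inv_cancel_right] at h6
        exact h6
      · intro h4
        exact swp_mul_mem hn h2 h4 i

omit [Finite F] [CharP F 2] in
theorem card_half (hn : Even n) {P : Fin n → Prop} (hP : ∀ k, P (Fin.rev k) ↔ P k) :
    (Finset.univ.filter fun k : Fin n => P k).card =
      2 * (Finset.univ.filter fun k : Fin n => (k : ℕ) < n / 2 ∧ P k).card := by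
  have h1 := Finset.card_filter_add_card_filter_not (s := Finset.univ.filter fun k : Fin n => P k)
    (fun k : Fin n => (k : ℕ) < n / 2)
  have h2 : ((Finset.univ.filter fun k : Fin n => P k).filter fun k : Fin n => ¬ (k : ℕ) < n / 2).card =
      ((Finset.univ.filter fun k : Fin n => P k).filter fun k : Fin n => (k : ℕ) < n / 2).card := by
    refine Finset.card_bij (fun k _ => Fin.rev k) ?_ ?_ ?_
    · intro k hk
      rw [Finset.mem_filter, Finset.mem_filter] at hk ⊢
      exact ⟨⟨Finset.mem_univ _, (hP k).2 hk.1.2⟩, (rev_lt hn k).2 hk.2⟩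
    · intro k _ l _ h
      exact Fin.rev_injective h
    · intro k hk
      rw [Finset.mem_filter, Finset.mem_filter] at hk
      refine ⟨Fin.rev k, ?_, Fin.rev_rev k⟩
      rw [Finset.mem_filter, Finset.mem_filter]
      refine ⟨⟨Finset.mem_univ _, (hP k).2 hk.1.2⟩, ?_⟩
      intro h
      exact (rev_lt hn k).1 h hk.2
  have h3 : ((Finset.univ.filter fun k : Fin n => P k).filter fun k : Fin n => (k : ℕ) < n / 2) =
      Finset.univ.filter fun k : Fin n => (k : ℕ) < n / 2 ∧ P k := by
    ext k
    rw [Finset.mem_filter, Finset.mem_filter, Finset.mem_filter]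
    tauto
  rw [h2, h3] at h1
  omega

end K03_aux

open K03_aux

open LieP.GI (rv rv_eq rv_rv rv_lt rv_succ rv_rev rv_zero)

theorem pyf_invol (hn : Even n) {y : EA n a} (hy : Antitone (cx y)) : Function.Involutive (pyf y) := by
  intro i
  unfold pyf
  by_cases h : oz y ∧ Mid n i
  · rw [if_pos h, if_pos h]
  · rw [if_neg h]
    by_cases h1 : oz y
    · rw [if_neg, rv_rv hy]
      rintro ⟨-, h2⟩
      exact h ⟨h1, (rv_mid hn hy (fun k hk => mid_zero hn hy h1 hk) i).1 h2⟩
    · rw [if_neg (fun h2 => h1 h2.1), rv_rv hy]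

theorem py_apply (hn : Even n) {y : EA n a} (hy : Antitone (cx y)) (i : Fin n) : py y i = pyf y i := by
  unfold py
  rw [dif_pos (pyf_invol hn hy)]
  rfl

theorem py_py (hn : Even n) {y : EA n a} (hy : Antitone (cx y)) (i : Fin n) : py y (py y i) = i := by
  rw [py_apply hn hy, py_apply hn hy]
  exact pyf_invol hn hy i

theorem py_level (hn : Even n) {y : EA n a} (hy : Antitone (cx y)) (i : Fin n) : cx y (py y i) = cx y i := by
  rw [py_apply hn hy]
  unfold pyf
  split_ifs
  · rfl
  · exact rv_eq hy i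

theorem py_rev (hn : Even n) {y : EA n a} (hy : Antitone (cx y)) (i : Fin n) :
    py y (Fin.rev i) = Fin.rev (py y i) := by
  rw [py_apply hn hy, py_apply hn hy]
  unfold pyf
  by_cases h : oz y ∧ Mid n i
  · rw [if_pos h, if_pos ⟨h.1, (Mid_rev hn).2 h.2⟩]
  · rw [if_neg h, if_neg (fun h1 => h ⟨h1.1, (Mid_rev hn).1 h1.2⟩)]
    exact rv_rev hy (cx_rev y) i

theorem py_mid (hn : Even n) {y : EA n a} (hy : Antitone (cx y)) (ha : a ≠ 0) (i : Fin n) :
    Mid n (py y i) ↔ Mid n i := by
  rw [py_apply hn hy]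
  unfold pyf
  split_ifs
  · exact Iff.rfl
  · exact rv_mid hn hy (fun k hk => cx_mid ha y hk) i

theorem py_pl (hn : Even n) {y : EA n a} (hy : Antitone (cx y)) {i j : Fin n} (h : cx y i = cx y j)
    (hij : pl n i j) : pl n (py y j) (py y i) := by
  rw [py_apply hn hy, py_apply hn hy]
  by_cases ho : oz y
  · have hz : ∀ k, Mid n k → cx y k = 0 := fun k hk => mid_zero hn hy ho hk
    by_cases hi : Mid n i
    · have hj : ¬ Mid n j := fun hj => hij.2 ⟨hi, hj⟩
      have h0 : cx y j = 0 := by rw [← h, hz i hi]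
      unfold pyf
      rw [if_neg (fun h1 => hj h1.2), if_pos ⟨ho, hi⟩, rv_zero hy (cx_rev y) h0]
      refine ⟨?_, fun h1 => hj ((Mid_rev hn).1 h1.1)⟩
      have h1 := hij.1
      have h2 := j.2
      obtain ⟨m, hm⟩ := hn
      rw [Fin.lt_def] at h1 ⊢
      rw [Fin.val_rev]
      unfold Mid at hi hj
      omega
    · by_cases hj : Mid n j
      · have h0 : cx y i = 0 := by rw [h, hz j hj]
        unfold pyf
        rw [if_pos ⟨ho, hj⟩, if_neg (fun h1 => hi h1.2), rv_zero hy (cx_rev y) h0]
        refine ⟨?_, fun h1 => hi ((Mid_rev hn).1 h1.2)⟩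
        have h1 := hij.1
        have h2 := i.2
        obtain ⟨m, hm⟩ := hn
        rw [Fin.lt_def] at h1 ⊢
        rw [Fin.val_rev]
        unfold Mid at hi hj
        omega
      · unfold pyf
        rw [if_neg (fun h1 => hj h1.2), if_neg (fun h1 => hi h1.2)]
        exact ⟨rv_lt hy h hij.1, fun h1 => hi ((rv_mid hn hy hz i).1 h1.2)⟩
  · unfold pyf
    rw [if_neg (fun h1 => ho h1.1), if_neg (fun h1 => ho h1.1)]
    refine ⟨rv_lt hy h hij.1, ?_⟩
    rintro ⟨h1, h2⟩
    have h3 : rv (cx y) i = Fin.rev (rv (cx y) j) := by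
      refine (mid_pair hn h1 h2).resolve_left fun h3 => ?_
      exact absurd (rv_lt hy h hij.1) (by rw [h3]; exact lt_irrefl _)
    have h4 : cx y i = 0 := by
      have h5 : cx y i = - cx y i := by
        rw [← rv_eq hy i]
        conv_lhs => rw [h3, cx_rev, rv_eq hy j, ← h, ← rv_eq hy i]
      linarith
    have h4' : cx y j = 0 := by rw [← h, h4]
    rw [rv_zero hy (cx_rev y) h4'] at h1
    rw [rv_zero hy (cx_rev y) h4] at h2
    exact hij.2 ⟨(Mid_rev hn).1 h2, (Mid_rev hn).1 h1⟩

private theorem PM_OQ (hn : Even n) {y : EA n a} (hy : Antitone (cx y)) : PM y ∈ OQ n a :=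
  pmt_OQ hn a (py_rev hn hy) (fun ha => py_mid hn hy ha)

theorem PM_Om (hn : Even n) {y : EA n a} (hy : Antitone (cx y)) : PM y ∈ Om n a := by
  obtain ⟨ρ, h1, h2, h3⟩ := prod_swp hn a
    (Finset.univ.filter fun k : Fin n => (k : ℕ) < n / 2 ∧ (cx y k = 0 ∧ ¬ (oz y ∧ Mid n k)))
    (fun i hi => (Finset.mem_filter.1 hi).2.1)
  have hP : ∀ k : Fin n, (cx y (Fin.rev k) = 0 ∧ ¬ (oz y ∧ Mid n (Fin.rev k))) ↔
      (cx y k = 0 ∧ ¬ (oz y ∧ Mid n k)) := by
    intro k
    rw [cx_rev, neg_eq_zero, Mid_rev hn]
  have hmem : ∀ k : Fin n, (k ∈ (Finset.univ.filter fun k : Fin n =>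
      (k : ℕ) < n / 2 ∧ (cx y k = 0 ∧ ¬ (oz y ∧ Mid n k))) ∨
      Fin.rev k ∈ (Finset.univ.filter fun k : Fin n =>
      (k : ℕ) < n / 2 ∧ (cx y k = 0 ∧ ¬ (oz y ∧ Mid n k)))) ↔ (cx y k = 0 ∧ ¬ (oz y ∧ Mid n k)) := by
    intro k
    rw [Finset.mem_filter, Finset.mem_filter, hP k]
    constructor
    · rintro (h | h)
      · exact h.2.2
      · exact h.2.2
    · intro h
      by_cases h4 : (k : ℕ) < n / 2
      · exact Or.inl ⟨Finset.mem_univ _, h4, h⟩
      · exact Or.inr ⟨Finset.mem_univ _, (rev_lt hn k).2 h4, h⟩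
  have hρ : ∀ k, ρ k = if (cx y k = 0 ∧ ¬ (oz y ∧ Mid n k)) then Fin.rev k else k := by
    intro k
    rw [h1]
    by_cases h4 : cx y k = 0 ∧ ¬ (oz y ∧ Mid n k)
    · rw [if_pos h4, if_pos ((hmem k).2 h4)]
    · rw [if_neg h4, if_neg (fun h5 => h4 ((hmem k).1 h5))]
  have hρl : ∀ k, cx y (ρ k) = cx y k := by
    intro k
    rw [hρ]
    split_ifs with h4
    · rw [cx_rev, h4.1, neg_zero]
    · rfl
  have heven : Even (Finset.univ.filter fun k : Fin n =>
      (k : ℕ) < n / 2 ∧ (cx y k = 0 ∧ ¬ (oz y ∧ Mid n k))).card := by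
    have hc := card_half hn (P := fun k : Fin n => cx y k = 0)
      (fun k => by show cx y (Fin.rev k) = 0 ↔ cx y k = 0; rw [cx_rev, neg_eq_zero])
    by_cases ho : oz y
    · have ho' := ho
      unfold oz at ho'
      have hn0 : 0 < n := by
        rcases Nat.eq_zero_or_pos n with h0 | h0
        · subst h0
          rw [Finset.univ_eq_empty, Finset.filter_empty, Finset.card_empty] at ho'
          omega
        · exact h0
      have hm : n / 2 - 1 < n := by omega
      have hmid : Mid n (⟨n / 2 - 1, hm⟩ : Fin n) := by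
        obtain ⟨m, hm'⟩ := hn
        left
        show n / 2 - 1 + 1 = n / 2
        omega
      have h5 : (Finset.univ.filter fun k : Fin n => (k : ℕ) < n / 2 ∧ (cx y k = 0 ∧ ¬ (oz y ∧ Mid n k))) =
          (Finset.univ.filter fun k : Fin n => (k : ℕ) < n / 2 ∧ cx y k = 0).erase ⟨n / 2 - 1, hm⟩ := by
        ext k
        rw [Finset.mem_erase, Finset.mem_filter, Finset.mem_filter]
        constructor
        · rintro ⟨h6, h7, h8, h9⟩
          refine ⟨?_, h6, h7, h8⟩
          rintro rfl
          exact h9 ⟨ho, hmid⟩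
        · rintro ⟨h6, h7, h8, h9⟩
          refine ⟨h7, h8, h9, ?_⟩
          rintro ⟨-, h10⟩
          apply h6
          rw [Fin.ext_iff]
          show (k : ℕ) = n / 2 - 1
          unfold Mid at h10
          omega
      have h6 : (⟨n / 2 - 1, hm⟩ : Fin n) ∈ (Finset.univ.filter fun k : Fin n => (k : ℕ) < n / 2 ∧ cx y k = 0) := by
        refine Finset.mem_filter.2 ⟨Finset.mem_univ _, ?_, mid_zero hn hy ho hmid⟩
        show n / 2 - 1 < n / 2
        obtain ⟨m, hm'⟩ := hn
        omega
      rw [h5, Finset.card_erase_of_mem h6, Nat.even_iff]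
      omega
    · have h5 : (Finset.univ.filter fun k : Fin n => (k : ℕ) < n / 2 ∧ (cx y k = 0 ∧ ¬ (oz y ∧ Mid n k))) =
          (Finset.univ.filter fun k : Fin n => (k : ℕ) < n / 2 ∧ cx y k = 0) := by
        ext k
        rw [Finset.mem_filter, Finset.mem_filter]
        tauto
      rw [h5, Nat.even_iff]
      unfold oz at ho
      omega
  refine (ev_levels_iff hn (PM_OQ hn hy) h2 (y := cx y) (cx_rev y) (cx_mid' y) ?_ ?_ ?_).2 (h3.2 heven)
  · intro i j hij
    show (pmt F (py y) : Matrix (Fin n) (Fin n) F) i j = 0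
    rw [pmt_apply, if_neg]
    rintro rfl
    rw [py_level hn hy] at hij
    exact lt_irrefl _ hij
  · intro i j hij
    rw [pmt_apply, if_neg]
    rintro rfl
    rw [hρl] at hij
    exact lt_irrefl _ hij
  · intro i j _ hj
    show (pmt F (py y) : Matrix (Fin n) (Fin n) F) i j = _
    have h4 : py y j = ρ j := by
      rw [py_apply hn hy, hρ]
      unfold pyf
      by_cases h5 : oz y ∧ Mid n j
      · rw [if_pos h5, if_neg (fun h6 => h6.2 h5)]
      · rw [if_neg h5, if_pos ⟨hj, h5⟩, rv_zero hy (cx_rev y) hj]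
    rw [pmt_apply, pmt_apply, h4]

/-- the permutation of the element if `a ≠ 0` -/
private theorem K03_IsN (hn : Even n) {y : EA n a} (hy : Antitone (cx y)) :
    ∃ π : Equiv.Perm (Fin n), IsN a (PM y) π ∧ (∀ i, (a = 0 ∨ ¬ Mid n i) → π i = py y i) := by
  by_cases ha : a = 0
  · exact ⟨py y, IsN_pmt (fun h => absurd ha h), fun _ _ => rfl⟩
  · have hinv : Function.Involutive (fun i : Fin n => if Mid n i then i else py y i) := by
      intro i
      show (if Mid n (if Mid n i then i else py y i) then (if Mid n i then i else py y i) else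
        py y (if Mid n i then i else py y i)) = i
      by_cases hi : Mid n i
      · rw [if_pos hi, if_pos hi]
      · rw [if_neg hi, if_neg (fun h => hi ((py_mid hn hy ha i).1 h)), py_py hn hy]
    refine ⟨hinv.toPerm, ⟨?_, ?_⟩, ?_⟩
    · intro i j hij hm
      have hij' : i ≠ (if Mid n j then j else py y j) := hij
      show (pmt F (py y) : Matrix (Fin n) (Fin n) F) i j = 0
      rw [pmt_apply, if_neg]
      rintro rfl
      by_cases hj : Mid n j
      · exact hm ⟨ha, (py_mid hn hy ha j).2 hj, hj⟩
      · rw [if_neg hj] at hij'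
        exact hij' rfl
    · intro _ j hj
      show (if Mid n j then j else py y j) = j
      rw [if_pos hj]
    · intro i hi
      show (if Mid n i then i else py y i) = py y i
      rw [if_neg (hi.resolve_left ha)]

theorem PM_NO (hn : Even n) {y : EA n a} (hy : Antitone (cx y)) : PM y ∈ NO n a := by
  obtain ⟨π, hπ, -⟩ := K03_IsN hn hy
  exact mem_NO.2 ⟨PM_Om hn hy, π, hπ⟩

theorem PM_Lo (hn : Even n) {y : EA n a} (hy : Antitone (cx y)) : PM y ∈ Lo y := by
  refine (mem_Lo hn).2 ⟨PM_Om hn hy, fun i j hij => ?_⟩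
  show (pmt F (py y) : Matrix (Fin n) (Fin n) F) i j = 0
  rw [pmt_apply, if_neg]
  rintro rfl
  exact hij (py_level hn hy j)

theorem PM_ac (hn : Even n) {y : EA n a} (hy : Antitone (cx y)) (x : EA n a) (i : Fin n) :
    cx (acO a (PM y) x) (py y i) = cx x i := by
  obtain ⟨π, hπ, hπ'⟩ := K03_IsN hn hy
  by_cases hi : a = 0 ∨ ¬ Mid n i
  · rw [← hπ' i hi, ← pmo_eq hπ]
    exact cx_acO hn (PM_NO hn hy) x i
  · rw [not_or, not_not] at hi
    rw [cx_mid hi.1 _ ((py_mid hn hy hi.1 i).2 hi.2), cx_mid hi.1 _ hi.2]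

theorem PM_rto (hn : Even n) {y : EA n a} (hy : Antitone (cx y)) (i j : Fin n) :
    acO a (PM y) (rto a i j) = rto a (py y i) (py y j) := by
  apply ext_inner_right ℝ
  intro w
  obtain ⟨v, rfl⟩ := (acO a (PM y)).surjective w
  rw [LinearIsometryEquiv.inner_map_map, inner_rto, inner_rto, PM_ac hn hy, PM_ac hn hy]

theorem PM_simple (hn : Even n) {y : EA n a} (hy : Antitone (cx y)) {i j : Fin n} (h : Sm n i j)
    (h' : cx y i = cx y j) : rto a (py y j) (py y i) ∈ Dlo n a := by
  rw [mem_Dlo, py_apply hn hy, py_apply hn hy]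
  have hi : ¬ Mid n i := h.nmid
  have hpi : pyf y i = rv (cx y) i := by
    unfold pyf
    rw [if_neg (fun h1 => hi h1.2)]
  rw [hpi]
  by_cases h0 : cx y i = 0
  · have h0' : cx y j = 0 := by rw [← h', h0]
    rw [rv_zero hy (cx_rev y) h0]
    unfold pyf
    by_cases h1 : oz y ∧ Mid n j
    · rw [if_pos h1]
      refine ⟨i, Fin.rev j, ?_, ?_⟩
      · have h2 := h1.2
        have h3 := j.2
        obtain ⟨m, hm⟩ := hn
        unfold Sm at h ⊢
        unfold Mid at h2
        rw [Fin.val_rev]
        omega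
      · have h2 := rto_rev (a := a) i (Fin.rev j)
        rw [Fin.rev_rev] at h2
        exact h2
    · rw [if_neg h1, rv_zero hy (cx_rev y) h0', rto_rev]
      exact ⟨i, j, h, rfl⟩
  · have half : ∀ k : Fin n, 0 < cx y k → (k : ℕ) < n / 2 := by
      intro k hk
      by_contra h1
      have h2 : Fin.rev k ≤ k := by
        have h3 := k.2
        rw [Fin.le_def, Fin.val_rev]
        obtain ⟨m, hm⟩ := hn
        omega
      have h3 := hy h2
      rw [cx_rev] at h3
      linarith
    have hpos : 0 < cx y i := by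
      have h1 : i ≤ Fin.rev i := by
        have h3 := i.2
        rw [Fin.le_def, Fin.val_rev]
        unfold Sm at h
        omega
      have h3 := hy h1
      rw [cx_rev] at h3
      rcases lt_trichotomy (cx y i) 0 with h4 | h4 | h4
      · linarith
      · exact absurd h4 h0
      · exact h4
    have hj1 : (j : ℕ) = i + 1 := by
      have h1 := half j (by rw [← h']; exact hpos)
      unfold Sm at h
      omega
    have hpj : pyf y j = rv (cx y) j := by
      unfold pyf
      rw [if_neg]
      rintro ⟨h1, h2⟩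
      have h3 := mid_zero hn hy h1 h2
      rw [← h'] at h3
      exact h0 h3
    rw [hpj]
    refine ⟨rv (cx y) j, rv (cx y) i, ?_, rfl⟩
    have h1 := rv_succ hy h' hj1
    have h2 := half (rv (cx y) i) (by rw [rv_eq hy i]; exact hpos)
    unfold Sm
    omega

end

end OR
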