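import Pool.Agent.OR.K01
import Pool.Agent.OR.K03

/-!
# MP_6c3636_al, OR, module K04: the antiautomorphism (stub of helper40)

`tau_Om`: for `g ∈ OQ n a` the entries of `g⁻¹` are `g⁻¹ i j = g (rev j) (rev i)` (`OQ_le_Ug`, `LieP.GI.inv_apply_UG` for `RingEquiv.refl F`). So `tau π g = pmt F ρ * g⁻¹ * (pmt F ρ)⁻¹` with `ρ = π⁻¹ * Fin.revPerm`: the entry of the right side at `(i, j)` is `g⁻¹ (ρ⁻¹ i) (ρ⁻¹ j) = g (rev (ρ⁻¹ j)) (rev (ρ⁻¹ i))`, `ρ⁻¹ = revPerm * π`. `pmt F ρ ∈ OQ n a` (`pmt_OQ`), and `Om n a` is normalized by it (`conj_mem_Om`, D90). `tau_V`: `py_level`, `py_pl` (K03), `mem_Lo`, `mem_UZ` (if `¬ pl n i j` and `(tau u) i j ≠ 1 i j` then `i ≠ j`, `u (py j) (py i) ≠ 0`, so `pl n (py j) (py i)` and the levels agree, so by `py_pl` and `py_py` `pl n i j`).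
-/

namespace OR

noncomputable section

open Classical Matrix CF

open LieP (En UG UL Lin Al dl sb el)

open LieP.GI (pinv pinv' UU mem_UU mem_UL lev)

variable {n : ℕ} {F : Type} [Field F] [Finite F] [CharP F 2] {a : F}

theorem tau_Om (hn : Even n) {π : Equiv.Perm (Fin n)} (h : ∀ i, π (Fin.rev i) = Fin.rev (π i))
    (hm : a ≠ 0 → ∀ i, Mid n (π i) ↔ Mid n i) {g : GL (Fin n) F} (hg : g ∈ Om n a) : tau π g ∈ Om n a := by
  have hr : ∀ i, π⁻¹ (Fin.rev i) = Fin.rev (π⁻¹ i) := by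
    intro i
    apply π.injective
    rw [h, pinv', pinv']
  have hρ : pmt F (π⁻¹ * Fin.revPerm) ∈ OQ n a := by
    refine pmt_OQ hn a ?_ ?_
    · intro i
      change π⁻¹ (Fin.rev (Fin.rev i)) = Fin.rev (π⁻¹ (Fin.rev i))
      rw [hr]
    · intro ha i
      change Mid n (π⁻¹ (Fin.rev i)) ↔ Mid n i
      rw [← hm ha (π⁻¹ (Fin.rev i)), pinv']
      exact Mid_rev hn
  have hU : g ∈ Ug n (RingEquiv.refl F) := OQ_le_Ug hn a (Om_le n a hg)
  have key : tau π g = pmt F (π⁻¹ * Fin.revPerm) * g⁻¹ * (pmt F (π⁻¹ * Fin.revPerm))⁻¹ := by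
    apply Units.ext
    ext i j
    rw [tau_apply, Units.val_mul, Matrix.mul_apply, Finset.sum_eq_single (Fin.rev (π j))]
    · rw [pmt_inv_apply, if_pos, mul_one, Units.val_mul, Matrix.mul_apply,
        Finset.sum_eq_single (Fin.rev (π i))]
      · rw [pmt_apply, if_pos, one_mul, LieP.GI.inv_apply_UG hU, Fin.rev_rev, Fin.rev_rev]
        · rfl
        · change i = π⁻¹ (Fin.rev (Fin.rev (π i)))
          rw [Fin.rev_rev, pinv]
      · intro k _ hk
        rw [pmt_apply, if_neg, zero_mul]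
        intro h'
        apply hk
        have h2 : i = π⁻¹ (Fin.rev k) := h'
        rw [h2, pinv', Fin.rev_rev]
      · exact fun h' => absurd (Finset.mem_univ _) h'
      · change π⁻¹ (Fin.rev (Fin.rev (π j))) = j
        rw [Fin.rev_rev, pinv]
    · intro k _ hk
      rw [pmt_inv_apply, if_neg, mul_zero]
      intro h'
      apply hk
      have h2 : π⁻¹ (Fin.rev k) = j := h'
      rw [← h2, pinv', Fin.rev_rev]
    · exact fun h' => absurd (Finset.mem_univ _) h'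
  rw [key]
  exact conj_mem_Om hn (Subgroup.inv_mem _ hg) hρ

theorem tau_Lo (hn : Even n) {y : EA n a} (hy : Antitone (cx y)) {g : GL (Fin n) F} (hg : g ∈ Lo y) :
    tau (py y) g ∈ Lo y := by
  rw [mem_Lo hn] at hg ⊢
  refine ⟨tau_Om hn (py_rev hn hy) (py_mid hn hy) hg.1, fun i j hij => ?_⟩
  rw [tau_apply]
  apply hg.2
  rw [py_level hn hy, py_level hn hy]
  exact hij.symm

theorem tau_V (hn : Even n) {y : EA n a} (hy : Antitone (cx y)) {g : GL (Fin n) F} (hg : g ∈ UZ n a ⊓ Lo y) :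
    tau (py y) g ∈ UZ n a ⊓ Lo y := by
  rw [Subgroup.mem_inf] at hg ⊢
  have hL := tau_Lo hn hy hg.2
  refine ⟨?_, hL⟩
  rw [mem_UZ hn]
  refine ⟨Om_le n a ((mem_Lo hn).1 hL).1, fun i j hij => ?_⟩
  rw [tau_apply]
  have h1 := ((mem_UZ hn).1 hg.1).2
  have h2 := ((mem_Lo hn).1 hg.2).2
  have h3 : (1 : Matrix (Fin n) (Fin n) F) (py y j) (py y i) = (1 : Matrix (Fin n) (Fin n) F) i j := by
    rw [Matrix.one_apply, Matrix.one_apply]
    by_cases h : i = j
    · rw [if_pos h, if_pos (by rw [h])]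
    · rw [if_neg h, if_neg (fun h' => h ((py y).injective h').symm)]
  by_cases hl : cx y i = cx y j
  · rw [← h3]
    apply h1
    intro hp
    apply hij
    have h4 : cx y (py y j) = cx y (py y i) := by
      rw [py_level hn hy, py_level hn hy, hl]
    have h5 := py_pl hn hy h4 hp
    rw [py_py hn hy, py_py hn hy] at h5
    exact h5
  · rw [h2 _ _ (by rw [py_level hn hy, py_level hn hy]; exact fun h => hl h.symm),
      Matrix.one_apply_ne (fun h => hl (by rw [h]))]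

end

end OR
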