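import Pool.Agent.OR.K01
import Pool.Agent.OR.K03
import Pool.Agent.OR.K04
import Pool.Agent.LieP.I30

/-!
# MP_6c3636_al, OR, module K05: the standard character (stub of helper40)

`l00_lin`: `sm_add` (I15), `Ps.add`, `Finset.sum_add_distrib`. `l00_xs`: `xs_entry`: only the pair `(p, q)` contributes. `l00_nt`. `l00_tau`: `l00 y ψ (tau (py y) u) = ψ (∑_{(i,j) ∈ smy y} u (py j) (py i))`. The map `(i, j) ↦ θ (i, j)` := `(py j, py i)` if this is in `smy y` and `(rev (py i), rev (py j))` otherwise is an involution of `smy y` (K03: if the common level of `i`, `j` is positive `(py j, py i)` is a simple pair; if it is zero and `oz y` is false: `py = rev`, `(rev (py i), rev (py j)) = (i, j)`; if `oz y`: `(rev (py i), rev (py j)) = (i, rev j)` if `j` is in the middle, `(i, j)` otherwise), and `u (py j) (py i) = u θ(i, j)`: in the second case `u (rev q) (rev p) = u⁻¹ p q = u p q` for a simple pair `(p, q)` (`inv_apply_UG`, `sm_inv`). Reindex the sum (`Finset.sum_nbij'` or `Finset.sum_involution`-like).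
-/

namespace OR

noncomputable section

open Classical Matrix CF

open LieP (En UG UL Lin Al dl sb el)

open LieP.GI (pinv pinv' UU mem_UU mem_UL lev)

variable {n : ℕ} {F : Type} [Field F] [Finite F] [CharP F 2] {a : F}

theorem l00_lin (hn : Even n) (y : EA n a) {ψ : F → ℤˣ} (hψ : Ps ψ) : Lin (UZ n a) (l00 y ψ) := by
  intro u hu v hv
  unfold l00
  rw [← hψ.add, ← Finset.sum_add_distrib]
  congr 1
  refine Finset.sum_congr rfl fun p hp => ?_
  exact sm_add hn hu hv (mem_smy.1 hp).1

theorem l00_xs (hn : Even n) (y : EA n a) {ψ : F → ℤˣ} (hψ : Ps ψ) {p q : Fin n} (h : Sm n p q) (s : F) :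
    l00 y ψ (xs a p q s) = if cx y p = cx y q then ψ s else 1 := by
  unfold l00
  have h1 : ∀ r ∈ smy y, (xs a p q s : Matrix (Fin n) (Fin n) F) r.1 r.2 = if (p, q) = r then s else 0 := by
    intro r hr
    rw [xs_entry hn h (mem_smy.1 hr).1]
    by_cases h2 : (p, q) = r
    · rw [if_pos h2, if_pos]
      rw [← h2]
      exact ⟨rfl, rfl⟩
    · rw [if_neg h2, if_neg]
      rintro ⟨h3, h4⟩
      exact h2 (Prod.ext h3.symm h4.symm)
  rw [Finset.sum_congr rfl h1, Finset.sum_ite_eq]
  by_cases h2 : cx y p = cx y q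
  · rw [if_pos h2, if_pos (mem_smy.2 ⟨h, h2⟩)]
  · rw [if_neg h2, if_neg (fun h3 => h2 (mem_smy.1 h3).2), hψ.zero]

namespace K05_aux

theorem nonneg {y : EA n a} (hy : Antitone (cx y)) {i : Fin n} (h : 2 * (i : ℕ) + 1 ≤ n) : 0 ≤ cx y i := by
  have h1 : i ≤ Fin.rev i := by
    rw [Fin.le_def, Fin.val_rev]
    omega
  have h2 := hy h1
  rw [cx_rev] at h2
  linarith

theorem nonpos {y : EA n a} (hy : Antitone (cx y)) {i : Fin n} (h : n ≤ 2 * (i : ℕ) + 1) : cx y i ≤ 0 := by
  have h1 : Fin.rev i ≤ i := by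
    rw [Fin.le_def, Fin.val_rev]
    omega
  have h2 := hy h1
  rw [cx_rev] at h2
  linarith

theorem oz_mid (hn : Even n) {y : EA n a} (hy : Antitone (cx y)) (h : oz y) {j : Fin n} (hj : Mid n j) :
    cx y j = 0 := by
  have h1 : (Finset.univ.filter fun i : Fin n => cx y i = 0).Nonempty := by
    rw [← Finset.card_pos]
    unfold oz at h
    omega
  obtain ⟨i, hi⟩ := h1
  rw [Finset.mem_filter] at hi
  have hi0 := hi.2
  have hir : cx y (Fin.rev i) = 0 := by rw [cx_rev, hi0, neg_zero]
  obtain ⟨m, hm⟩ := hn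
  have hi2 := i.2
  have hv := Fin.val_rev i
  unfold Mid at hj
  rcases le_total i (Fin.rev i) with h2 | h2
  · have h3 : i ≤ j := by
      rw [Fin.le_def] at h2 ⊢
      omega
    have h4 : j ≤ Fin.rev i := by
      rw [Fin.le_def] at h2 ⊢
      omega
    have h5 := hy h3
    have h6 := hy h4
    rw [hi0] at h5
    rw [hir] at h6
    exact le_antisymm h5 h6
  · have h3 : Fin.rev i ≤ j := by
      rw [Fin.le_def] at h2 ⊢
      omega
    have h4 : j ≤ i := by
      rw [Fin.le_def] at h2 ⊢
      omega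
    have h5 := hy h3
    have h6 := hy h4
    rw [hir] at h5
    rw [hi0] at h6
    exact le_antisymm h5 h6

/-- a simple pair in a level which is not zero -/
theorem pos_case (hn : Even n) {y : EA n a} (hy : Antitone (cx y)) {i j : Fin n} (h : Sm n i j)
    (h' : cx y i = cx y j) (h0 : cx y i ≠ 0) : Sm n (py y j) (py y i) := by
  have hm := hn
  obtain ⟨m, hm⟩ := hm
  have hi : 0 ≤ cx y i := by
    refine nonneg hy ?_
    unfold Sm at h
    omega
  have hipos : 0 < cx y i := lt_of_le_of_ne hi (Ne.symm h0)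
  have hj1 : (j : ℕ) = i + 1 := by
    rcases h with h | h
    · exact h.1
    · exfalso
      have h1 : cx y j ≤ 0 := by
        refine nonpos hy ?_
        omega
      linarith
  have hpi : py y i = LieP.GI.rv (cx y) i := by
    rw [py_apply hn hy]
    exact if_neg (fun h1 => h.nmid h1.2)
  have hpj : py y j = LieP.GI.rv (cx y) j := by
    rw [py_apply hn hy]
    exact if_neg (fun h1 => h0 (h'.trans (oz_mid hn hy h1.1 h1.2)))
  have h1 := LieP.GI.rv_succ hy h' hj1
  rw [← hpi, ← hpj] at h1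
  have h2 : (py y i : ℕ) < m := by
    by_contra h3
    have h4 : cx y (py y i) ≤ 0 := by
      refine nonpos hy ?_
      omega
    rw [py_level hn hy] at h4
    linarith
  left
  refine ⟨h1, ?_⟩
  omega

theorem py_zero (hn : Even n) {y : EA n a} (hy : Antitone (cx y)) {i : Fin n} (h : cx y i = 0) :
    py y i = if oz y ∧ Mid n i then i else Fin.rev i := by
  rw [py_apply hn hy]
  unfold pyf
  rw [LieP.GI.rv_zero hy (cx_rev y) h]

/-- the involution of the simple pairs -/
def th (y : EA n a) (p : Fin n × Fin n) : Fin n × Fin n :=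
  if cx y p.1 ≠ 0 then (py y p.2, py y p.1) else if oz y ∧ Mid n p.2 then (p.1, Fin.rev p.2) else p

theorem Sm_rev (hn : Even n) {i j : Fin n} (h : Sm n i j) (hj : Mid n j) : Sm n i (Fin.rev j) := by
  have h1 := Fin.val_rev j
  have h2 := j.2
  obtain ⟨m, hm⟩ := hn
  unfold Mid at hj
  unfold Sm at h ⊢
  omega

theorem th_mem (hn : Even n) {y : EA n a} (hy : Antitone (cx y)) {p : Fin n × Fin n} (hp : p ∈ smy y) :
    th y p ∈ smy y := by
  rw [mem_smy] at hp
  unfold th
  split_ifs with h1 h2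
  · exact mem_smy.2 ⟨pos_case hn hy hp.1 hp.2 h1, by
      show cx y (py y p.2) = cx y (py y p.1)
      rw [py_level hn hy, py_level hn hy, hp.2]⟩
  · refine mem_smy.2 ⟨Sm_rev hn hp.1 h2.2, ?_⟩
    show cx y p.1 = cx y (Fin.rev p.2)
    rw [cx_rev, ← hp.2, not_not.1 h1, neg_zero]
  · exact mem_smy.2 hp

theorem th_th (hn : Even n) {y : EA n a} (hy : Antitone (cx y)) {p : Fin n × Fin n} (hp : p ∈ smy y) :
    th y (th y p) = p := by
  rw [mem_smy] at hp
  by_cases h1 : cx y p.1 ≠ 0
  · have e1 : th y p = (py y p.2, py y p.1) := if_pos h1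
    rw [e1]
    have h2 : cx y (py y p.2, py y p.1).1 ≠ 0 := by
      show cx y (py y p.2) ≠ 0
      rw [py_level hn hy, ← hp.2]
      exact h1
    unfold th
    rw [if_pos h2]
    show (py y (py y p.1), py y (py y p.2)) = p
    rw [py_py hn hy, py_py hn hy]
  · by_cases h2 : oz y ∧ Mid n p.2
    · have e1 : th y p = (p.1, Fin.rev p.2) := by
        unfold th
        rw [if_neg h1, if_pos h2]
      rw [e1]
      unfold th
      rw [if_neg h1, if_pos ⟨h2.1, (Mid_rev hn).2 h2.2⟩]
      show (p.1, Fin.rev (Fin.rev p.2)) = p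
      rw [Fin.rev_rev]
    · have e1 : th y p = p := by
        unfold th
        rw [if_neg h1, if_neg h2]
      rw [e1, e1]

theorem rev_entry (hn : Even n) {u : GL (Fin n) F} (hu : u ∈ UZ n a) {i j : Fin n} (h : Sm n i j) :
    (u : Matrix (Fin n) (Fin n) F) (Fin.rev j) (Fin.rev i) = (u : Matrix (Fin n) (Fin n) F) i j := by
  have h1 : u ∈ UG (RingEquiv.refl F) Fin.revPerm := OQ_le_Ug hn a ((mem_UZ hn).1 hu).1
  have h2 := LieP.GI.inv_apply_UG h1 i j
  rw [sm_inv hn hu h] at h2
  exact h2.symm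

theorem th_entry (hn : Even n) {y : EA n a} (hy : Antitone (cx y)) {u : GL (Fin n) F} (hu : u ∈ UZ n a)
    {p : Fin n × Fin n} (hp : p ∈ smy y) :
    (u : Matrix (Fin n) (Fin n) F) (py y p.2) (py y p.1) =
      (u : Matrix (Fin n) (Fin n) F) (th y p).1 (th y p).2 := by
  rw [mem_smy] at hp
  by_cases h1 : cx y p.1 ≠ 0
  · have e1 : th y p = (py y p.2, py y p.1) := if_pos h1
    rw [e1]
  · have h1' := not_not.1 h1
    have hpi : py y p.1 = Fin.rev p.1 := by
      rw [py_zero hn hy h1']
      exact if_neg (fun h2 => hp.1.nmid h2.2)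
    by_cases h2 : oz y ∧ Mid n p.2
    · have e1 : th y p = (p.1, Fin.rev p.2) := by
        unfold th
        rw [if_neg h1, if_pos h2]
      have hpj : py y p.2 = p.2 := by
        rw [py_zero hn hy (hp.2.symm.trans h1'), if_pos h2]
      rw [e1, hpi, hpj]
      have h3 := rev_entry hn hu (Sm_rev hn hp.1 h2.2)
      rw [Fin.rev_rev] at h3
      exact h3
    · have e1 : th y p = p := by
        unfold th
        rw [if_neg h1, if_neg h2]
      have hpj : py y p.2 = Fin.rev p.2 := by
        rw [py_zero hn hy (hp.2.symm.trans h1'), if_neg h2]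
      rw [e1, hpi, hpj]
      exact rev_entry hn hu hp.1

end K05_aux

open K05_aux in
theorem l00_tau (hn : Even n) {y : EA n a} (hy : Antitone (cx y)) {ψ : F → ℤˣ} (hψ : Ps ψ) :
    ∀ u ∈ UZ n a ⊓ Lo y, l00 y ψ (tau (py y) u) = l00 y ψ u := by
  intro u hu
  unfold l00
  congr 1
  refine Finset.sum_nbij' (th y) (th y) (fun p hp => th_mem hn hy hp) (fun p hp => th_mem hn hy hp)
    (fun p hp => th_th hn hy hp) (fun p hp => th_th hn hy hp) fun p hp => ?_
  rw [tau_apply]
  exact th_entry hn hy hu.1 hp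

end

end OR
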