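import Pool.Agent.OR.K05
import Pool.Agent.OR.I08
import Pool.Agent.LieP.I30

/-!
# MP_6c3636_al, OR, module K06: relevant elements (helper12)

`m` relevant, `π = pmo a m`, `i = π⁻¹ p`, `j = π⁻¹ q`, `Sm n p q`, `cx y p = cx y q`; `cx y i = cx y p` etc. because `m ∈ Lo y` (`m (π i) i ≠ 0`, or middle).
(1) `q` not in the middle or `a = 0`. `u = xs a p q s` is in `UZ ⊓ Lo y` (`xs_mem`, `xs_L`). `mv m (sv i) = c_i • sv p` with `c_i = m p i ≠ 0` (`IsN.ne`), and `c_i * m (rev p) (rev i) = 1` (`OQ_bf`, `pmo_rev`). So by `eo_conj`, `eo_smul`: `m⁻¹ * u * m = eo a (c_i⁻¹ • sv i) ((s * c_j) • sv (rev j)) = eo a (sv i) (t • sv (rev j))`, `t = c_i⁻¹ * s * c_j`. Suppose `pl n i j`. It is in `UZ ⊓ Lo y` (`rt_U` for `zo n a`, `rt_L`; `j ≠ rev i` because `q ≠ rev p`). The simple entries of `m⁻¹ * u * m` (`rt_entry`): `t` at `(i, j)` if `Sm n i j`, `t` at `(rev j, rev i)` if `Sm n (rev j) (rev i)` (these two do not happen both: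 `i`, `rev j` would be in the first half, but `j ≤ n / 2` if `Sm n i j`), the position `(i, rev i)` is not simple. If neither is simple then `l00 (m⁻¹ u m) = ψ 0 = 1` for all `s`, but `l00 u = ψ s` (`l00_xs`), contradiction to `Ps.nt`. So `rto a i j ∈ Dlo n a` (`rto_rev`), and `ψ s = ψ (c_i⁻¹ * c_j * s)` for all `s`, so `c_i = c_j` (`ff6`, LieP/I30).
(2) `a ≠ 0` and `q` in the middle, `2 * p + 4 = n`, `q1 = p + 1`, `q2 = p + 2` the middle indices, `e = sv q1 + sv q2`. `u = xs a p q1 s * xs a p q2 t = eo a (sv p) w`, `w = s • sv q2 + t • sv q1` (`rev q1 = q2`). `m⁻¹ * u * m = eo a (c⁻¹ • sv i) (mv m⁻¹ w)`, `c = m p i`, `mv m⁻¹ w` is in the middle plane. Suppose `pl n i q` (`q` any middle index; then `i` is in the first half). All these elements are in `UZ ⊓ Lo y`. If `i ≠ p` no simple entry is nonzero, contradiction as in (1). So `i = p`, `rto a i q = rto a p q ∈ Dlo n a`, and `ψ (s + t) = ψ (c⁻¹ * (b q1 + b q2))`,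 `b = mv m⁻¹ w`, `b q1 + b q2 = bf e b = bf (mv m e) w = x * s + z * t` if `mv m e = x • sv q1 + z • sv q2`. So `c⁻¹ * x = 1 = c⁻¹ * z` (`ff6` for `t = 0` and for `s = 0`), `mv m e = c • e`, `Qa e = 1`, so `c = 1`. `mv m e = e`. Let `mv m (sv q1) = α • sv q1 + β • sv q2`; `mv m (sv q2) = (1 + α) • sv q1 + (1 + β) • sv q2`, `bf` of both is `1`: `α + β = 1`, `Qa (mv m (sv q1)) = a`: `α² = α`. So the middle block is the identity or the exchange, both are symmetric and commute with the exchange.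
`rel_simple` is (1) and (2) together, `rel_coef` is (1), `rel_mid` is (2).
-/

namespace OR

noncomputable section

open Classical Matrix CF

open LieP (En UG UL Lin Al dl sb el)

open LieP.GI (pinv pinv' UU mem_UU mem_UL lev)

variable {n : ℕ} {F : Type} [Field F] [Finite F] [CharP F 2] {a : F}

namespace K06_aux

omit [CharP F 2] [Finite F] in
theorem nrev (hn : Even n) {i : Fin n} (hi : a = 0 ∨ ¬ Mid n i) : a = 0 ∨ ¬ Mid n (Fin.rev i) :=
  hi.imp_right fun h h2 => h ((Mid_rev hn).1 h2)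

/-- the columns of the elements of `NO n a` -/
theorem col {m : GL (Fin n) F} (hm : m ∈ NO n a) {i : Fin n} (hi : a = 0 ∨ ¬ Mid n i) :
    mv m (sv i) = (m : Matrix (Fin n) (Fin n) F) (pmo a m i) i • sv (pmo a m i) := by
  funext k
  rw [mv_sv, Pi.smul_apply, smul_eq_mul, I07_aux.sv_if]
  by_cases hk : k = pmo a m i
  · rw [if_pos hk, mul_one, ← hk]
  · rw [if_neg hk, mul_zero]
    refine (pmo_spec hm).1 k i hk (fun h2 => ?_)
    rcases hi with hi | hi
    · exact h2.1 hi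
    · exact hi h2.2.2

theorem colinv {m : GL (Fin n) F} (hm : m ∈ NO n a) {i : Fin n} (hi : a = 0 ∨ ¬ Mid n i) :
    mv m⁻¹ (sv (pmo a m i)) = ((m : Matrix (Fin n) (Fin n) F) (pmo a m i) i)⁻¹ • sv i := by
  have h1 := mv_inv m (sv i)
  rw [col hm hi, mv_smul] at h1
  rw [← h1, inv_smul_smul₀ ((pmo_spec hm).ne hi)]

theorem mul_rev (hn : Even n) {m : GL (Fin n) F} (hm : m ∈ NO n a) {i : Fin n} (hi : a = 0 ∨ ¬ Mid n i) :
    (m : Matrix (Fin n) (Fin n) F) (pmo a m i) i *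
      (m : Matrix (Fin n) (Fin n) F) (pmo a m (Fin.rev i)) (Fin.rev i) = 1 := by
  have h1 := OQ_bf hn (Om_le n a hm.1) (sv i) (sv (Fin.rev i))
  rw [col hm hi, col hm (nrev hn hi), bf_smul_left, bf_smul_right, bf_sv_left, bf_sv_left, I07_aux.sv_if,
    I07_aux.sv_if, if_pos (pmo_rev hn hm i).symm, if_pos rfl, mul_one] at h1
  exact h1

theorem conj (hn : Even n) {m : GL (Fin n) F} (hm : m ∈ NO n a) {i j : Fin n} (hi : a = 0 ∨ ¬ Mid n i)
    (hj : a = 0 ∨ ¬ Mid n j) (hij : i ≠ j) (s : F) :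
    m⁻¹ * xs a (pmo a m i) (pmo a m j) s * m =
      eo a (sv i) ((((m : Matrix (Fin n) (Fin n) F) (pmo a m i) i)⁻¹ * s *
        (m : Matrix (Fin n) (Fin n) F) (pmo a m j) j) • sv (Fin.rev j)) := by
  have hne : pmo a m i ≠ pmo a m j := fun h => hij ((pmo a m).injective h)
  have h1 := eo_conj hn (Subgroup.inv_mem _ (Om_le n a hm.1)) (I07_aux.perp s hne)
  rw [inv_inv] at h1
  have h2 : ((m : Matrix (Fin n) (Fin n) F) (pmo a m (Fin.rev j)) (Fin.rev j))⁻¹ =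
      (m : Matrix (Fin n) (Fin n) F) (pmo a m j) j := inv_eq_of_mul_eq_one_left (mul_rev hn hm hj)
  unfold xs
  rw [h1, colinv hm hi, mv_smul, ← pmo_rev hn hm, colinv hm (nrev hn hj), h2, smul_smul,
    eo_smul hn a (I07_aux.perp _ hij), smul_smul, ← mul_assoc]

theorem l00_eo (hn : Even n) {y : EA n a} {ψ : F → ℤˣ} {i j : Fin n} (t : F) (hij : i ≠ j)
    (h : cx y i = cx y j) : l00 y ψ (eo a (sv i) (t • sv (Fin.rev j))) =
      ψ ((if Sm n i j then t else 0) + (if Sm n (Fin.rev j) (Fin.rev i) then t else 0)) := by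
  have h1 : ∀ r ∈ smy y, (eo a (sv i) (t • sv (Fin.rev j)) : Matrix (Fin n) (Fin n) F) r.1 r.2 =
      (if r = (i, j) then t else 0) + (if r = (Fin.rev j, Fin.rev i) then t else 0) := by
    intro r hr
    rw [mem_smy] at hr
    have h3 : ¬ (r.1 = i ∧ r.2 = Fin.rev i) := by
      rintro ⟨h4, h5⟩
      exact hr.1.ne_rev (by rw [h4]; exact h5)
    rw [rt_entry hn t hij, Matrix.one_apply_ne hr.1.ne, zero_add, if_neg h3, add_zero]
    simp only [Prod.ext_iff]
  have e1 : (if (i, j) ∈ smy y then t else 0) = if Sm n i j then t else 0 := by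
    by_cases h2 : Sm n i j
    · rw [if_pos h2, if_pos (mem_smy.2 ⟨h2, h⟩)]
    · rw [if_neg h2, if_neg (fun h3 => h2 (mem_smy.1 h3).1)]
  have e2 : (if (Fin.rev j, Fin.rev i) ∈ smy y then t else 0) =
      if Sm n (Fin.rev j) (Fin.rev i) then t else 0 := by
    by_cases h2 : Sm n (Fin.rev j) (Fin.rev i)
    · rw [if_pos h2, if_pos (mem_smy.2 ⟨h2, by show cx y (Fin.rev j) = cx y (Fin.rev i); rw [cx_rev, cx_rev, h]⟩)]
    · rw [if_neg h2, if_neg (fun h3 => h2 (mem_smy.1 h3).1)]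
  unfold l00
  rw [Finset.sum_congr rfl h1, Finset.sum_add_distrib, Finset.sum_ite_eq', Finset.sum_ite_eq', e1, e2]

theorem cx_pmo (hn : Even n) {y : EA n a} {m : GL (Fin n) F} (hm : m ∈ NO n a) (hl : m ∈ Lo y) {i : Fin n}
    (hi : a = 0 ∨ ¬ Mid n i) : cx y (pmo a m i) = cx y i := by
  by_contra h
  exact (pmo_spec hm).ne hi (((mem_Lo hn).1 hl).2 _ _ h)

theorem nmid_of {m : GL (Fin n) F} (hm : m ∈ NO n a) {i : Fin n} (hi : a = 0 ∨ ¬ Mid n (pmo a m i)) :
    a = 0 ∨ ¬ Mid n i := by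
  by_cases ha : a = 0
  · exact Or.inl ha
  · refine Or.inr fun h => hi.resolve_left ha ?_
    rw [pmo_mid hm ha h]
    exact h

/-- part (1) -/
theorem main (hn : Even n) {y : EA n a} {ψ : F → ℤˣ} (hψ : Ps ψ) {m : GL (Fin n) F} (hm : Rel y ψ m)
    {i j : Fin n} (h : Sm n (pmo a m i) (pmo a m j)) (h' : cx y (pmo a m i) = cx y (pmo a m j))
    (hq : a = 0 ∨ ¬ Mid n (pmo a m j)) (hpos : pl n i j) : rto a i j ∈ Dlo n a ∧
      (m : Matrix (Fin n) (Fin n) F) (pmo a m i) i = (m : Matrix (Fin n) (Fin n) F) (pmo a m j) j := by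
  have hj : a = 0 ∨ ¬ Mid n j := nmid_of hm.no hq
  have hi : a = 0 ∨ ¬ Mid n i := nmid_of hm.no (Or.inr h.nmid)
  have hij : i ≠ j := hpos.1.ne
  have hij' : j ≠ Fin.rev i := by
    rintro rfl
    exact h.ne_rev (pmo_rev hn hm.no i)
  have hcx : cx y i = cx y j := by
    rw [← cx_pmo hn hm.no hm.lo hi, h', cx_pmo hn hm.no hm.lo hj]
  have key : ∀ s, ψ s = ψ ((if Sm n i j then (((m : Matrix (Fin n) (Fin n) F) (pmo a m i) i)⁻¹ * s *
        (m : Matrix (Fin n) (Fin n) F) (pmo a m j) j) else 0) +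
      (if Sm n (Fin.rev j) (Fin.rev i) then (((m : Matrix (Fin n) (Fin n) F) (pmo a m i) i)⁻¹ * s *
        (m : Matrix (Fin n) (Fin n) F) (pmo a m j) j) else 0)) := by
    intro s
    have h1 := hm.rel (xs a (pmo a m i) (pmo a m j) s) ⟨xs_mem hn h s, xs_L hn h s h'⟩
    rw [conj hn hm.no hi hj hij s] at h1
    have h4 := h1 ⟨rt_U hn _ hi hij' (hpos.zo hn), rt_L hn _ hi hij hij' hcx⟩
    rw [l00_xs hn y hψ h s, if_pos h', l00_eo hn _ hij hcx] at h4
    exact h4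
  have fin : (∀ s, ψ s = ψ (((m : Matrix (Fin n) (Fin n) F) (pmo a m i) i)⁻¹ * s *
        (m : Matrix (Fin n) (Fin n) F) (pmo a m j) j)) →
      (m : Matrix (Fin n) (Fin n) F) (pmo a m i) i = (m : Matrix (Fin n) (Fin n) F) (pmo a m j) j := by
    intro h5
    have h6 : ((m : Matrix (Fin n) (Fin n) F) (pmo a m i) i)⁻¹ * (m : Matrix (Fin n) (Fin n) F) (pmo a m j) j = 1 :=
      LieP.ff6 hψ.add hψ.nt (fun x => by rw [mul_right_comm]; exact (h5 x).symm)
    exact (inv_mul_eq_one₀ ((pmo_spec hm.no).ne hi)).1 h6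
  by_cases e1 : Sm n i j
  · have e2 : ¬ Sm n (Fin.rev j) (Fin.rev i) := by
      intro e2
      have h1 := Fin.val_rev i
      have h2 := Fin.val_rev j
      have h3 := i.2
      have h4 := j.2
      unfold Sm at e1 e2
      omega
    refine ⟨mem_Dlo.2 ⟨i, j, e1, rfl⟩, fin fun s => ?_⟩
    have h1 := key s
    rw [if_pos e1, if_neg e2, add_zero] at h1
    exact h1
  · by_cases e2 : Sm n (Fin.rev j) (Fin.rev i)
    · refine ⟨mem_Dlo.2 ⟨_, _, e2, (rto_rev i j).symm⟩, fin fun s => ?_⟩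
      have h1 := key s
      rw [if_neg e1, if_pos e2, zero_add] at h1
      exact h1
    · exfalso
      obtain ⟨s, hs⟩ := hψ.nt
      apply hs
      rw [key s, if_neg e1, if_neg e2, add_zero, hψ.zero]

omit [CharP F 2] [Finite F] in
/-- a vector which is supported in the middle -/
theorem midvec (hn : Even n) {q : Fin n} (hq : Mid n q) {v : Fin n → F} (hv : ∀ k, ¬ Mid n k → v k = 0) :
    v = v (Fin.rev q) • sv (Fin.rev q) + v q • sv q := by
  have hne := rev_ne hn q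
  funext k
  rw [Pi.add_apply, Pi.smul_apply, Pi.smul_apply, smul_eq_mul, smul_eq_mul, I07_aux.sv_if, I07_aux.sv_if]
  by_cases hk : Mid n k
  · rcases mid_pair hn hq hk with h | h
    · rw [h, if_neg hne.symm, if_pos rfl, mul_zero, zero_add, mul_one]
    · rw [h, if_pos rfl, if_neg hne, mul_zero, add_zero, mul_one]
  · have h1 : k ≠ q := by
      rintro rfl
      exact hk hq
    have h2 : k ≠ Fin.rev q := by
      rintro rfl
      exact hk ((Mid_rev hn).2 hq)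
    rw [hv k hk, if_neg h1, if_neg h2, mul_zero, mul_zero, add_zero]

/-- the elements of `NO n a` preserve the middle -/
theorem mid_supp {g : GL (Fin n) F} (hg : g ∈ NO n a) (ha : a ≠ 0) {v : Fin n → F}
    (hv : ∀ k, ¬ Mid n k → v k = 0) : ∀ k, ¬ Mid n k → mv g v k = 0 := by
  intro k hk
  show ∑ l, (g : Matrix (Fin n) (Fin n) F) k l * v l = 0
  refine Finset.sum_eq_zero fun l _ => ?_
  by_cases hl : Mid n l
  · have h1 : k ≠ pmo a g l := by
      rw [pmo_mid hg ha hl]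
      rintro rfl
      exact hk hl
    rw [(pmo_spec hg).1 k l h1 (fun h => hk h.2.1), zero_mul]
  · rw [hv l hl, mul_zero]

/-- part (2) -/
theorem mid_main (hn : Even n) {y : EA n a} {ψ : F → ℤˣ} (hψ : Ps ψ) {m : GL (Fin n) F} (hm : Rel y ψ m)
    {i q : Fin n} (h : Sm n (pmo a m i) q) (h' : cx y (pmo a m i) = cx y q) (ha : a ≠ 0) (hq : Mid n q)
    (hpos : pl n i q) : pmo a m i = i ∧ (m : Matrix (Fin n) (Fin n) F) i i = 1 ∧
      ∀ k l : Fin n, Mid n k → Mid n l →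
        (m : Matrix (Fin n) (Fin n) F) k l = (m : Matrix (Fin n) (Fin n) F) l k ∧
        (m : Matrix (Fin n) (Fin n) F) k l = (m : Matrix (Fin n) (Fin n) F) (Fin.rev k) (Fin.rev l) := by
  have hOQ : m ∈ OQ n a := Om_le n a hm.no.1
  have hqr : Mid n (Fin.rev q) := (Mid_rev hn).2 hq
  have hne := rev_ne hn q
  have hr1 := Fin.val_rev q
  have hq2 := q.2
  have hi : ¬ Mid n i := (nmid_of hm.no (Or.inr h.nmid)).resolve_left ha
  have hlt : (i : ℕ) < q := hpos.1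
  have h2 : Sm n (pmo a m i) (Fin.rev q) := by
    unfold Sm at h ⊢
    unfold Mid at hq
    obtain ⟨k, hk⟩ := hn
    rw [hr1]
    omega
  have hpos' : pl n i (Fin.rev q) := by
    refine ⟨?_, fun h3 => hi h3.1⟩
    rw [Fin.lt_def, hr1]
    unfold Mid at hi hq
    obtain ⟨k, hk⟩ := hn
    omega
  have hcq : cx y q = 0 := cx_mid ha y hq
  have hcr : cx y (Fin.rev q) = 0 := cx_mid ha y hqr
  have hci : cx y i = 0 := by
    rw [← cx_pmo hn hm.no hm.lo (Or.inr hi), h', hcq]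
  have hcp : cx y (pmo a m i) = cx y (Fin.rev q) := by rw [h', hcq, hcr]
  have n1 : i ≠ q := hpos.1.ne
  have n2 : i ≠ Fin.rev q := hpos'.1.ne
  have n3 : q ≠ Fin.rev i := fun h3 => n2 (by rw [h3, Fin.rev_rev])
  have n4 : Fin.rev q ≠ Fin.rev i := fun h3 => n1 (Fin.rev_injective h3).symm
  have hmi := Subgroup.inv_mem _ hm.no
  have hc0 : (m : Matrix (Fin n) (Fin n) F) (pmo a m i) i ≠ 0 := (pmo_spec hm.no).ne (Or.inr hi)
  set c : F := (m : Matrix (Fin n) (Fin n) F) (pmo a m i) i with hc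
  set E : Fin n → F := mv m (sv q + sv (Fin.rev q)) with hE
  -- the key identity
  have key : ∀ s t : F, ψ s * ψ t =
      ψ (if Sm n i q then c⁻¹ * (mv m⁻¹ (s • sv (Fin.rev q) + t • sv q)) (Fin.rev q) else 0) *
      ψ (if Sm n i (Fin.rev q) then c⁻¹ * (mv m⁻¹ (s • sv (Fin.rev q) + t • sv q)) q else 0) := by
    intro s t
    have hw : ∀ k, ¬ Mid n k → (s • sv (Fin.rev q) + t • sv q : Fin n → F) k = 0 := by
      intro k hk
      have h3 : k ≠ q := by
        rintro rfl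
        exact hk hq
      have h4 : k ≠ Fin.rev q := by
        rintro rfl
        exact hk hqr
      rw [Pi.add_apply, Pi.smul_apply, Pi.smul_apply, I07_aux.sv_if, I07_aux.sv_if, if_neg h3, if_neg h4,
        smul_zero, smul_zero, add_zero]
    have e1 : xs a (pmo a m i) q s * xs a (pmo a m i) (Fin.rev q) t =
        eo a (sv (pmo a m i)) (s • sv (Fin.rev q) + t • sv q) := by
      unfold xs
      rw [eo_mul hn a (I07_aux.perp s h.ne) (I07_aux.perp t h2.ne), Fin.rev_rev]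
    have hperp : bf (sv (pmo a m i) : Fin n → F) (s • sv (Fin.rev q) + t • sv q) = 0 := by
      have h3 := I07_aux.perp t h2.ne
      rw [Fin.rev_rev] at h3
      rw [bf_add_right, I07_aux.perp s h.ne, h3, add_zero]
    have e2 : m⁻¹ * (xs a (pmo a m i) q s * xs a (pmo a m i) (Fin.rev q) t) * m =
        eo a (sv i) (((c⁻¹ * (mv m⁻¹ (s • sv (Fin.rev q) + t • sv q)) (Fin.rev q)) • sv (Fin.rev q))) *
        eo a (sv i) (((c⁻¹ * (mv m⁻¹ (s • sv (Fin.rev q) + t • sv q)) q) • sv (Fin.rev (Fin.rev q)))) := by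
      have h3 := eo_conj hn (Subgroup.inv_mem _ hOQ) hperp
      rw [inv_inv] at h3
      rw [e1, h3, colinv hm.no (Or.inr hi), eo_mul hn a (I07_aux.perp _ n1) (I07_aux.perp _ n2), Fin.rev_rev]
      have h4 := midvec hn hq (mid_supp hmi ha hw)
      have h5 : bf (sv i : Fin n → F) (mv m⁻¹ (s • sv (Fin.rev q) + t • sv q)) = 0 := by
        rw [bf_sv_left]
        exact mid_supp hmi ha hw _ (fun h6 => hi ((Mid_rev hn).1 h6))
      rw [eo_smul hn a h5]
      have h6 : c⁻¹ • mv m⁻¹ (s • sv (Fin.rev q) + t • sv q) =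
          (c⁻¹ * (mv m⁻¹ (s • sv (Fin.rev q) + t • sv q)) (Fin.rev q)) • sv (Fin.rev q) +
          (c⁻¹ * (mv m⁻¹ (s • sv (Fin.rev q) + t • sv q)) q) • sv q := by
        rw [mul_smul, mul_smul, ← smul_add, ← h4]
      rw [← hc, h6]
    have u1 : xs a (pmo a m i) q s ∈ UZ n a := xs_mem hn h s
    have u2 : xs a (pmo a m i) (Fin.rev q) t ∈ UZ n a := xs_mem hn h2 t
    have h3 := hm.rel (xs a (pmo a m i) q s * xs a (pmo a m i) (Fin.rev q) t)
      (Subgroup.mul_mem _ ⟨u1, xs_L hn h s h'⟩ ⟨u2, xs_L hn h2 t hcp⟩)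
    rw [e2] at h3
    have v1 : eo a (sv i) (((c⁻¹ * (mv m⁻¹ (s • sv (Fin.rev q) + t • sv q)) (Fin.rev q)) • sv (Fin.rev q))) ∈
        UZ n a := rt_U hn _ (Or.inr hi) n3 (hpos.zo hn)
    have v2 : eo a (sv i) (((c⁻¹ * (mv m⁻¹ (s • sv (Fin.rev q) + t • sv q)) q) • sv (Fin.rev (Fin.rev q)))) ∈
        UZ n a := rt_U hn _ (Or.inr hi) n4 (hpos'.zo hn)
    have h4 := h3 (Subgroup.mul_mem _ ⟨v1, rt_L hn _ (Or.inr hi) n1 n3 (by rw [hci, hcq])⟩
      ⟨v2, rt_L hn _ (Or.inr hi) n2 n4 (by rw [hci, hcr])⟩)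
    rw [l00_lin hn y hψ _ u1 _ u2, l00_lin hn y hψ _ v1 _ v2, l00_xs hn y hψ h s, l00_xs hn y hψ h2 t,
      if_pos h', if_pos hcp, l00_eo hn _ n1 (by rw [hci, hcq]), l00_eo hn _ n2 (by rw [hci, hcr])] at h4
    have f1 : ¬ Sm n (Fin.rev q) (Fin.rev i) := fun h6 => h6.nmid hqr
    have f2 : ¬ Sm n (Fin.rev (Fin.rev q)) (Fin.rev i) := fun h6 => h6.nmid (by rw [Fin.rev_rev]; exact hq)
    rw [if_neg f1, if_neg f2, add_zero, add_zero] at h4
    exact h4
  have hip : i = pmo a m i := by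
    by_contra hne2
    have hne3 : (i : ℕ) ≠ (pmo a m i : Fin n) := fun h6 => hne2 (Fin.ext h6)
    have g1 : ¬ Sm n i q := by
      intro h6
      unfold Sm at h6 h
      unfold Mid at hq
      obtain ⟨k, hk⟩ := hn
      omega
    have g2 : ¬ Sm n i (Fin.rev q) := by
      intro h6
      unfold Sm at h6 h
      unfold Mid at hq
      obtain ⟨k, hk⟩ := hn
      rw [hr1] at h6
      omega
    obtain ⟨s, hs⟩ := hψ.nt
    apply hs
    have h6 := key s 0
    rw [if_neg g1, if_neg g2, hψ.zero, mul_one, mul_one] at h6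
    exact h6
  have g1 : Sm n i q := by
    rw [hip]
    exact h
  have g2 : Sm n i (Fin.rev q) := by
    rw [hip]
    exact h2
  have key2 : ∀ s t : F, ψ (s + t) = ψ (c⁻¹ * (s * E q + t * E (Fin.rev q))) := by
    intro s t
    rw [hψ.add, key s t, if_pos g1, if_pos g2, ← hψ.add, ← mul_add]
    have h3 := OQ_bf hn hOQ (sv q + sv (Fin.rev q)) (mv m⁻¹ (s • sv (Fin.rev q) + t • sv q))
    rw [mv_inv', ← hE, bf_add_left, bf_sv_left, bf_sv_left, Fin.rev_rev, bf_add_right, bf_smul_right,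
      bf_smul_right, bf_sv_right, bf_sv_right, Fin.rev_rev] at h3
    rw [h3]
  have hE1 : E q = c := by
    have h3 : c⁻¹ * E q = 1 := LieP.ff6 hψ.add hψ.nt (fun x => by
      have h4 := key2 x 0
      rw [add_zero, zero_mul, add_zero] at h4
      rw [h4, mul_assoc, mul_comm (E q)])
    exact ((inv_mul_eq_one₀ hc0).1 h3).symm
  have hE2 : E (Fin.rev q) = c := by
    have h3 : c⁻¹ * E (Fin.rev q) = 1 := LieP.ff6 hψ.add hψ.nt (fun x => by
      have h4 := key2 0 x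
      rw [zero_add, zero_mul, zero_add] at h4
      rw [h4, mul_assoc, mul_comm (E (Fin.rev q))])
    exact ((inv_mul_eq_one₀ hc0).1 h3).symm
  have hes : ∀ k, ¬ Mid n k → (sv q + sv (Fin.rev q) : Fin n → F) k = 0 := by
    intro k hk
    have h3 : k ≠ q := by
      rintro rfl
      exact hk hq
    have h4 : k ≠ Fin.rev q := by
      rintro rfl
      exact hk hqr
    rw [Pi.add_apply, I07_aux.sv_if, I07_aux.sv_if, if_neg h3, if_neg h4, add_zero]
  have hEe : E = c • (sv q + sv (Fin.rev q)) := by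
    have h3 := midvec hn hq (mid_supp hm.no ha hes)
    rw [← hE, hE1, hE2] at h3
    rw [h3, smul_add, add_comm]
  have hQe : Qa n a (sv q + sv (Fin.rev q) : Fin n → F) = 1 := by
    rw [Qa_add hn, Qa_sv_mid a hn hq, Qa_sv_mid a hn hqr, bf_sv_left, I07_aux.sv_if, if_pos rfl,
      CharTwo.add_self_eq_zero, zero_add]
  have hc1 : c = 1 := by
    have h3 := hOQ (sv q + sv (Fin.rev q))
    rw [← hE, hEe, Qa_smul, hQe, mul_one] at h3
    have h4 : (c + 1) ^ 2 = 0 := by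
      rw [CharTwo.add_sq, h3, one_pow, CharTwo.add_self_eq_zero]
    exact CharTwo.add_eq_zero.1 (pow_eq_zero_iff two_ne_zero |>.1 h4)
  have hEk : ∀ k, E k = (m : Matrix (Fin n) (Fin n) F) k q + (m : Matrix (Fin n) (Fin n) F) k (Fin.rev q) := by
    intro k
    rw [hE, mv_add, Pi.add_apply, mv_sv, mv_sv]
  have r1 : (m : Matrix (Fin n) (Fin n) F) q q + (m : Matrix (Fin n) (Fin n) F) q (Fin.rev q) = 1 := by
    rw [← hEk, hE1, hc1]
  have r2 : (m : Matrix (Fin n) (Fin n) F) (Fin.rev q) q +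
      (m : Matrix (Fin n) (Fin n) F) (Fin.rev q) (Fin.rev q) = 1 := by
    rw [← hEk, hE2, hc1]
  have r3 : (m : Matrix (Fin n) (Fin n) F) (Fin.rev q) q + (m : Matrix (Fin n) (Fin n) F) q q = 1 := by
    have h3 := OQ_bf hn hOQ (sv q) (sv q + sv (Fin.rev q))
    rw [← hE, hEe, hc1, one_smul, bf_add_right, bf_add_right, bf_sv_right, bf_sv_right, bf_sv_right, bf_sv_right,
      Fin.rev_rev, mv_sv, mv_sv, I07_aux.sv_if, I07_aux.sv_if, if_neg hne, if_pos rfl, zero_add] at h3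
    exact h3
  have s1 : (m : Matrix (Fin n) (Fin n) F) q (Fin.rev q) = (m : Matrix (Fin n) (Fin n) F) (Fin.rev q) q := by
    refine add_left_cancel (a := (m : Matrix (Fin n) (Fin n) F) q q) ?_
    rw [r1, add_comm, r3]
  have s2 : (m : Matrix (Fin n) (Fin n) F) (Fin.rev q) (Fin.rev q) = (m : Matrix (Fin n) (Fin n) F) q q := by
    refine add_left_cancel (a := (m : Matrix (Fin n) (Fin n) F) (Fin.rev q) q) ?_
    rw [r2, r3]
  refine ⟨hip.symm, ?_, ?_⟩
  · rw [← hip] at hc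
    rw [← hc, hc1]
  · intro k l hk hl
    rcases mid_pair hn hq hk with rfl | rfl
    · rcases mid_pair hn hk hl with rfl | rfl
      · exact ⟨rfl, s2.symm⟩
      · rw [Fin.rev_rev]
        exact ⟨s1, s1⟩
    · rcases mid_pair hn hq hl with rfl | rfl
      · rw [Fin.rev_rev]
        exact ⟨s1.symm, s1.symm⟩
      · rw [Fin.rev_rev]
        exact ⟨rfl, s2⟩

end K06_aux

theorem rel_simple (hn : Even n) {y : EA n a} (hy : Antitone (cx y)) {ψ : F → ℤˣ} (hψ : Ps ψ)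
    {m : GL (Fin n) F} (hm : Rel y ψ m) {p q : Fin n} (h : Sm n p q) (h' : cx y p = cx y q)
    (hpos : pl n ((pmo a m)⁻¹ p) ((pmo a m)⁻¹ q)) :
    rto a ((pmo a m)⁻¹ p) ((pmo a m)⁻¹ q) ∈ Dlo n a := by
  obtain ⟨i, rfl⟩ : ∃ i, pmo a m i = p := ⟨(pmo a m)⁻¹ p, pinv' _ _⟩
  obtain ⟨j, rfl⟩ : ∃ j, pmo a m j = q := ⟨(pmo a m)⁻¹ q, pinv' _ _⟩
  rw [pinv, pinv] at hpos ⊢
  by_cases hq : a = 0 ∨ ¬ Mid n (pmo a m j)
  · exact (K06_aux.main hn hψ hm h h' hq hpos).1
  · rw [not_or, not_not] at hq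
    obtain ⟨ha, hq⟩ := hq
    have h1 : pmo a m j = j := (pmo a m).injective (pmo_mid hm.no ha hq)
    rw [h1] at h h' hq
    have h2 := (K06_aux.mid_main hn hψ hm h h' ha hq hpos).1
    rw [h2] at h
    exact mem_Dlo.2 ⟨i, j, h, rfl⟩

theorem rel_coef (hn : Even n) {y : EA n a} (hy : Antitone (cx y)) {ψ : F → ℤˣ} (hψ : Ps ψ)
    {m : GL (Fin n) F} (hm : Rel y ψ m) {p q : Fin n} (h : Sm n p q) (h' : cx y p = cx y q)
    (hq : a = 0 ∨ ¬ Mid n q) (hpos : pl n ((pmo a m)⁻¹ p) ((pmo a m)⁻¹ q)) :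
    (m : Matrix (Fin n) (Fin n) F) p ((pmo a m)⁻¹ p) = (m : Matrix (Fin n) (Fin n) F) q ((pmo a m)⁻¹ q) := by
  obtain ⟨i, rfl⟩ : ∃ i, pmo a m i = p := ⟨(pmo a m)⁻¹ p, pinv' _ _⟩
  obtain ⟨j, rfl⟩ : ∃ j, pmo a m j = q := ⟨(pmo a m)⁻¹ q, pinv' _ _⟩
  rw [pinv, pinv] at hpos ⊢
  exact (K06_aux.main hn hψ hm h h' hq hpos).2

theorem rel_mid (hn : Even n) {y : EA n a} (hy : Antitone (cx y)) {ψ : F → ℤˣ} (hψ : Ps ψ)
    {m : GL (Fin n) F} (hm : Rel y ψ m) {p q : Fin n} (h : Sm n p q) (h' : cx y p = cx y q)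
    (ha : a ≠ 0) (hq : Mid n q) (hpos : pl n ((pmo a m)⁻¹ p) q) :
    (pmo a m)⁻¹ p = p ∧ (m : Matrix (Fin n) (Fin n) F) p p = 1 ∧ ∀ i j : Fin n, Mid n i → Mid n j →
      (m : Matrix (Fin n) (Fin n) F) i j = (m : Matrix (Fin n) (Fin n) F) j i ∧
      (m : Matrix (Fin n) (Fin n) F) i j = (m : Matrix (Fin n) (Fin n) F) (Fin.rev i) (Fin.rev j) := by
  obtain ⟨i, rfl⟩ : ∃ i, pmo a m i = p := ⟨(pmo a m)⁻¹ p, pinv' _ _⟩
  rw [pinv] at hpos ⊢
  have h1 := K06_aux.mid_main hn hψ hm h h' ha hq hpos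
  rw [h1.1]
  exact ⟨rfl, h1.2⟩

end

end OR
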