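import Pool.Agent.OR.K06
import Pool.Agent.OR.I06
import Pool.Agent.OR.I10
import Pool.Agent.OR.I11
import Pool.Agent.OR.I12

/-!
# MP_6c3636_al, OR, module K07: the point of a relevant element (stub of helper40)

Let `v = PM y * m ∈ NO n a`, `v ∈ Lo y` (`PM_NO`, `PM_Lo`). `ac_fix`: `o_s8` (I06) with `v = 1`, `u = 1`. Take `J = {α ∈ Dlo n a : <α, y> = 0, acO a m α ∈ Dlo n a}` in `o_b14'` (I11): `y'` with `<α, y'> = 0` for `α ∈ J` and `> 0` for the other `α ∈ Dlo n a`; it is dominant (`dom_of`, I12). Claim: `acO a v y'` is dominant. By `dom_of` let `β ∈ Dlo n a`; `<β, acO v y'> = <acO v⁻¹ β, y'>` (isometry, `acO_mul`, `acO_one`) and `acO v⁻¹ β = acO m⁻¹ (acO (PM y)⁻¹ β)`, `(PM y)⁻¹ = PM y` (`pmt_inv`, `py_py`: `pmt F (py y) * pmt F (py y) = 1`). `y` is dominant (antitone: `le_zo`), so `<β, y> ≥ 0`.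
Case `<β, y> = 0`: `β = rto a i j`, `Sm n i j`, `cx y i = cx y j`; `acO (PM y) β = rto a (py i) (py j) = - β'`, `β' = rto a (py j) (py i) ∈ Dlo n a` (`PM_rto`, `PM_simple`, `rto_neg`), `<β', y> = 0`. Write `β' = rto a p q`, `Sm n p q`. `<acO v⁻¹ β, y'> = - <acO m⁻¹ β', y'>`, `γ := acO m⁻¹ β' = rto a (π⁻¹ p) (π⁻¹ q)` (`acO_rto`, `pmo_inv`). `γ ∈ Ro` (`o_s7R`), `<γ, zo> ≠ 0` (`gen_zo`). If `<γ, zo> < 0` then `- γ` is positive and `<- γ, y'> ≥ 0` (`dom_nonneg`, `Ro_neg`). If `<γ, zo> > 0` then `pl n (π⁻¹ p) (π⁻¹ q)` (`zo_lt`, `mid_pair`), `γ ∈ Dlo` by `rel_simple`, `acO m γ = β' ∈ Dlo`, `<γ, y> = <β', acO m y> = <β', y> = 0` (`ac_fix`), so `γ ∈ J`, `<γ, y'> = 0`.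
Case `<β, y> > 0`: `γ := acO v⁻¹ β ∈ Ro`, `<γ, y> = <β, acO v y> = <β, y> > 0`, `y` dominant, so `<γ, zo> > 0`, `<γ, y'> ≥ 0` (`dom_nonneg`).
By `o_b13` (I10) `acO v y' = y'`, by `o_s8'` `v ∈ Lo y'`.
-/

namespace OR

noncomputable section

open Classical Matrix CF

open LieP (En UG UL Lin Al dl sb el)

open LieP.GI (pinv pinv' UU mem_UU mem_UL lev)

variable {n : ℕ} {F : Type} [Field F] [Finite F] [CharP F 2] {a : F}

theorem ac_fix (hn : Even n) {x : EA n a} {m : GL (Fin n) F} (hm : m ∈ NO n a) (hx : m ∈ Lo x) :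
    acO a m x = x :=
  o_s8 hn m hm x ⟨1, Subgroup.one_mem _, m, hx, 1, Subgroup.one_mem _, by rw [one_mul, mul_one]⟩

omit [Finite F] [CharP F 2] in
private theorem K07_anti (hn : Even n) {y : EA n a} (hy : Antitone (cx y)) :
    ∀ α ∈ Ro n a, 0 < inner ℝ α y → 0 < inner ℝ α (zo n a) := by
  rw [le_zo hn]
  intro i j _ h
  by_contra hij
  exact absurd (hy (not_lt.1 hij)) (not_le.2 h)

theorem anti_dom (hn : Even n) {y : EA n a} (hy : Antitone (cx y)) :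
    ∀ α ∈ Ro n a, 0 < inner ℝ α y → 0 < inner ℝ α (zo n a) := K07_anti hn hy

theorem PM_inv (hn : Even n) {y : EA n a} (hy : Antitone (cx y)) : (PM y)⁻¹ = (PM y : GL (Fin n) F) := by
  have h : (py y)⁻¹ = py y := by
    rw [inv_eq_iff_mul_eq_one]
    ext1 i
    exact py_py hn hy i
  unfold PM
  rw [pmt_inv, h]

private theorem K07_inv (hn : Even n) {g : GL (Fin n) F} (hg : g ∈ NO n a) (w : EA n a) :
    acO a g (acO a g⁻¹ w) = w := by
  have h := acO_mul hn hg (Subgroup.inv_mem _ hg)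
  rw [mul_inv_cancel, acO_one hn] at h
  exact (congrArg (fun f : EA n a ≃ₗᵢ[ℝ] EA n a => f w) h).symm

private theorem K07_move (hn : Even n) {g : GL (Fin n) F} (hg : g ∈ NO n a) (α w : EA n a) :
    inner ℝ α (acO a g w) = inner ℝ (acO a g⁻¹ α) w := by
  rw [← (acO a g).inner_map_map (acO a g⁻¹ α) w, K07_inv hn hg]

theorem exists_pt' (hn : Even n) {y : EA n a} (hy : Antitone (cx y)) {ψ : F → ℤˣ} (hψ : Ps ψ)
    {m : GL (Fin n) F} (hm : Rel y ψ m) : ∃ y' : EA n a,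
      (∀ α ∈ Ro n a, 0 < inner ℝ α y' → 0 < inner ℝ α (zo n a)) ∧
      (∀ α ∈ Dlo n a, inner ℝ α y' = 0 ↔ (inner ℝ α y = 0 ∧ acO a m α ∈ Dlo n a)) ∧ PM y * m ∈ Lo y' := by
  have hP : PM y ∈ NO n a := PM_NO hn hy
  have hv : PM y * m ∈ NO n a := (NO n a).mul_mem hP hm.no
  have hvL : PM y * m ∈ Lo y := (Lo y).mul_mem (PM_Lo hn hy) hm.lo
  obtain ⟨y', h1, h2⟩ := o_b14' (a := a) hn
    ((Dlo n a).filter fun α => inner ℝ α y = 0 ∧ acO a m α ∈ Dlo n a) (Finset.filter_subset _ _)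
  have hJ : ∀ α ∈ Dlo n a, inner ℝ α y = 0 ∧ acO a m α ∈ Dlo n a → inner ℝ α y' = 0 :=
    fun α hα h => h1 α (Finset.mem_filter.2 ⟨hα, h⟩)
  have hJ' : ∀ α ∈ Dlo n a, ¬ (inner ℝ α y = 0 ∧ acO a m α ∈ Dlo n a) → 0 < inner ℝ α y' :=
    fun α hα h => h2 α hα (fun h3 => h (Finset.mem_filter.1 h3).2)
  have hdom : ∀ α ∈ Ro n a, 0 < inner ℝ α y' → 0 < inner ℝ α (zo n a) := by
    refine dom_of hn fun β hβ => ?_
    by_cases h : inner ℝ β y = 0 ∧ acO a m β ∈ Dlo n a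
    · exact (hJ β hβ h).ge
    · exact (hJ' β hβ h).le
  refine ⟨y', hdom, fun α hα => ⟨fun h => ?_, fun h => hJ α hα h⟩, ?_⟩
  · by_contra h'
    exact (hJ' α hα h').ne' h
  have hfix : acO a (PM y * m) y = y := ac_fix hn hv hvL
  have hmy : acO a m y = y := ac_fix hn hm.no hm.lo
  refine o_s8' hn _ hv y' (o_b13 hn _ hv y' hdom (dom_of hn fun β hβ => ?_))
  have hβR := o_b14 hn β hβ
  rw [K07_move hn hv]
  have hγR : acO a (PM y * m)⁻¹ β ∈ Ro n a := o_s7R hn _ ((NO n a).inv_mem hv) β hβR.1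
  rcases (dom_nonneg hn (anti_dom hn hy) β hβR.1 hβR.2).eq_or_lt with h0 | h0
  · -- the case `<β, y> = 0`
    obtain ⟨i, j, hij, rfl⟩ := mem_Dlo.1 hβ
    have hlev : cx y i = cx y j := zero_rto.1 h0.symm
    obtain ⟨p, q, hpq, hβ'⟩ := mem_Dlo.1 (PM_simple hn hy hij hlev)
    have hlev' : cx y p = cx y q := by
      have h3 : inner ℝ (rto a p q) y = inner ℝ (rto a (py y j) (py y i)) y := by rw [hβ']
      rw [inner_rto, inner_rto, py_level hn hy, py_level hn hy, hlev, sub_self, sub_eq_zero] at h3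
      exact h3
    have hγ : acO a (PM y * m)⁻¹ (rto a i j) = - rto a ((pmo a m)⁻¹ p) ((pmo a m)⁻¹ q) := by
      have h3 : acO a (PM y * m)⁻¹ (rto a i j) = acO a m⁻¹ (acO a (PM y) (rto a i j)) := by
        rw [_root_.mul_inv_rev, acO_mul hn ((NO n a).inv_mem hm.no) ((NO n a).inv_mem hP), PM_inv hn hy]
        rfl
      rw [h3, PM_rto hn hy, ← rto_neg, hβ', map_neg, acO_rto hn ((NO n a).inv_mem hm.no), pmo_inv hm.no]
    have hne : (pmo a m)⁻¹ p ≠ (pmo a m)⁻¹ q := fun h => hpq.ne ((pmo a m)⁻¹.injective h)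
    have hne' : (pmo a m)⁻¹ q ≠ Fin.rev ((pmo a m)⁻¹ p) := by
      intro h
      have h3 := pmo_rev hn ((NO n a).inv_mem hm.no) p
      rw [pmo_inv hm.no] at h3
      rw [← h3] at h
      exact hpq.ne_rev ((pmo a m)⁻¹.injective h)
    have hγm : rto a ((pmo a m)⁻¹ p) ((pmo a m)⁻¹ q) ∈ Ro n a := rto_mem hne hne'
    rw [hγ]
    rcases (gen_zo hn _ hγm).lt_or_gt with h3 | h3
    · refine dom_nonneg hn hdom _ (Ro_neg _ hγm) ?_
      rw [inner_neg_left]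
      linarith
    · have hmid : ¬ (Mid n ((pmo a m)⁻¹ p) ∧ Mid n ((pmo a m)⁻¹ q)) := by
        rintro ⟨h4, h5⟩
        rcases mid_pair hn h4 h5 with h6 | h6
        · exact hne h6.symm
        · exact hne' h6
      have hpl : pl n ((pmo a m)⁻¹ p) ((pmo a m)⁻¹ q) := ⟨(zo_lt hn hmid).1 (pos_rto.1 h3), hmid⟩
      have hD := rel_simple hn hy hψ hm hpq hlev' hpl
      have hlev2 : ∀ k, cx y ((pmo a m)⁻¹ k) = cx y k := by
        intro k
        rw [← cx_acO' hn hm.no, hmy]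
      have h4 : inner ℝ (rto a ((pmo a m)⁻¹ p) ((pmo a m)⁻¹ q)) y' = 0 := by
        refine hJ _ hD ⟨?_, ?_⟩
        · rw [zero_rto, hlev2, hlev2]
          exact hlev'
        · rw [acO_rto hn hm.no, pinv', pinv']
          exact mem_Dlo.2 ⟨p, q, hpq, rfl⟩
      rw [inner_neg_left, h4, neg_zero]
  · -- the case `<β, y> > 0`
    refine dom_nonneg hn hdom _ hγR (anti_dom hn hy _ hγR ?_)
    rw [← K07_move hn hv, hfix]
    exact h0

end

end OR
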