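import Pool.Agent.OR.K07

/-!
# MP_6c3636_al, OR, module K08: the permutation of a relevant element (stub of helper40)

`v = PM y * m`, `y'` of `exists_pt'`, `σ = pmo a v`, `w = acO a v`. Let `A' = {α ∈ Dlo n a : <α, y'> = 0}`. For `α ∈ A'`: `acO m α ∈ Dlo`, `<acO m α, y> = <α, acO m⁻¹ y> = <α, y> = 0` (`ac_fix`), so `w α = acO (PM y) (acO m α) = - α''` with `α'' ∈ Dlo n a` (`PM_rto`, `PM_simple` for `acO m α = rto a p q`, `Sm n p q`), and `<w α, y'> = <α, w⁻¹ y'> = <α, y'> = 0`, so `α'' ∈ A'`. So `α ↦ - w α` is an injective map of the finite set `A'` to itself, so it is bijective, and `w⁻¹` also maps `A'` to `- A'`; `w⁻² α ∈ A'` for `α ∈ A'`. Claim: `acO (v * v) zo` is dominant: (`dom_of`) let `β ∈ Dlo n a`, `<β, w² zo> = <w⁻² β, zo>`. If `β ∈ A'`: `w⁻² β ∈ A' ⊆ Dlo`, `> 0` (`o_b14`). Otherwise `<β, y'> > 0` (`dom_nonneg`), `<w⁻² β, y'> = <β, w² y'> = <β, y'> > 0` and `w⁻² β ∈ Ro`, so `<w⁻² β, zo> > 0` (`y'` dominant). `zo` is dominant, so `acO (v *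 v) zo = zo` by `o_b13`. So `cx zo (σ (σ i)) = cx zo i` for all `i` (`cx_acO`, `pmo_mul`), and the coordinates of `zo` separate the indices (`zo_lt`; if `a ≠ 0` outside of the middle, where `σ` is the identity), so `σ (σ i) = i`.
-/

namespace OR

noncomputable section

open Classical Matrix CF

open LieP (En UG UL Lin Al dl sb el)

open LieP.GI (pinv pinv' UU mem_UU mem_UL lev)

variable {n : ℕ} {F : Type} [Field F] [Finite F] [CharP F 2] {a : F}

omit [Finite F] [CharP F 2] in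
/-- the coordinates of the generic point are different for `a = 0` -/
theorem K08_zo {i j : Fin n} (h : cx (zo n (0 : F)) i = cx (zo n (0 : F)) j) : i = j := by
  have key : ∀ k : Fin n, cx (zo n (0 : F)) k = (n : ℝ) - 1 - 2 * (k : ℕ) := by
    intro k
    show msk (0 : F) (fun i : Fin n => (n : ℝ) - 1 - 2 * (i : ℕ)) k = _
    rw [msk_zero]
  rw [key, key] at h
  have h1 : ((i : ℕ) : ℝ) = ((j : ℕ) : ℝ) := by linarith
  exact Fin.ext (by exact_mod_cast h1)

theorem sig_invol (hn : Even n) {y : EA n a} (hy : Antitone (cx y)) {ψ : F → ℤˣ} (hψ : Ps ψ)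
    {m : GL (Fin n) F} (hm : Rel y ψ m) (i : Fin n) : pmo a (PM y * m) (pmo a (PM y * m) i) = i := by
  obtain ⟨y', hdom, hiff, hvL⟩ := exists_pt' hn hy hψ hm
  have hP : (PM y : GL (Fin n) F) ∈ NO n a := PM_NO hn hy
  have hvN : PM y * m ∈ NO n a := (NO n a).mul_mem hP hm.no
  have hvv : PM y * m * (PM y * m) ∈ NO n a := (NO n a).mul_mem hvN hvN
  have hmy : acO a m y = y := ac_fix hn hm.no hm.lo
  have hvy : acO a (PM y * m) y' = y' := ac_fix hn hvN hvL
  have hW : ∀ x : EA n a, acO a (PM y * m * (PM y * m)) x = acO a (PM y * m) (acO a (PM y * m) x) := by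
    intro x
    rw [acO_mul hn hvN hvN]
    rfl
  have hWy : acO a (PM y * m * (PM y * m)) y' = y' := by rw [hW, hvy, hvy]
  have hA : ∀ α ∈ Dlo n a, inner ℝ α y' = 0 →
      -(acO a (PM y * m) α) ∈ Dlo n a ∧ inner ℝ (-(acO a (PM y * m) α)) y' = 0 := by
    intro α hα h0
    obtain ⟨h1, h2⟩ := (hiff α hα).1 h0
    obtain ⟨p, q, hpq, e⟩ := mem_Dlo.1 h2
    have h3 : inner ℝ (acO a m α) y = 0 := by
      have h4 : inner ℝ (acO a m α) (acO a m y) = inner ℝ α y := LinearIsometryEquiv.inner_map_map _ _ _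
      rw [hmy] at h4
      rw [h4, h1]
    rw [e, zero_rto] at h3
    have h5 : acO a (PM y * m) α = rto a (py y p) (py y q) := by
      rw [acO_mul hn hP hm.no]
      show acO a (PM y) (acO a m α) = _
      rw [e, PM_rto hn hy]
    have h6 : -(acO a (PM y * m) α) = rto a (py y q) (py y p) := by rw [h5, rto_neg]
    refine ⟨?_, ?_⟩
    · rw [h6]
      exact PM_simple hn hy hpq h3
    · have h7 : inner ℝ (acO a (PM y * m) α) (acO a (PM y * m) y') = inner ℝ α y' :=
        LinearIsometryEquiv.inner_map_map _ _ _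
      rw [hvy] at h7
      rw [inner_neg_left, h7, h0, neg_zero]
  have hsurj : ∀ β ∈ Dlo n a, inner ℝ β y' = 0 → ∃ α ∈ Dlo n a, inner ℝ α y' = 0 ∧
      -(acO a (PM y * m) α) = β := by
    let A := (Dlo n a).filter fun α => inner ℝ α y' = 0
    have hmap : Set.MapsTo (fun α : EA n a => -(acO a (PM y * m) α)) (A : Set (EA n a)) (A : Set (EA n a)) := by
      intro α hα
      have hα' : α ∈ A := hα
      rw [Finset.mem_filter] at hα'
      have h1 := hA α hα'.1 hα'.2
      exact Finset.mem_filter.2 h1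
    have hinj : Set.InjOn (fun α : EA n a => -(acO a (PM y * m) α)) (A : Set (EA n a)) := by
      intro α _ β _ h
      exact (acO a (PM y * m)).injective (neg_injective h)
    intro β hβ h0
    obtain ⟨α, hα, h1⟩ := Finset.surjOn_of_injOn_of_card_le _ hmap hinj le_rfl (Finset.mem_filter.2 ⟨hβ, h0⟩)
    have hα' : α ∈ A := hα
    rw [Finset.mem_filter] at hα'
    exact ⟨α, hα'.1, hα'.2, h1⟩
  have hdomW : ∀ α ∈ Ro n a, 0 < inner ℝ α (acO a (PM y * m * (PM y * m)) (zo n a)) →
      0 < inner ℝ α (zo n a) := by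
    refine dom_of hn fun β hβ => ?_
    obtain ⟨hβR, hβz⟩ := o_b14 hn β hβ
    by_cases h0 : inner ℝ β y' = 0
    · obtain ⟨α, hα, hα0, e1⟩ := hsurj β hβ h0
      obtain ⟨α2, hα2, -, e2⟩ := hsurj α hα hα0
      have e3 : acO a (PM y * m * (PM y * m)) α2 = β := by
        rw [hW, ← neg_neg (acO a (PM y * m) α2), e2, map_neg, e1]
      rw [← e3, LinearIsometryEquiv.inner_map_map]
      exact (o_b14 hn α2 hα2).2.le
    · have h1 : 0 < inner ℝ β y' := lt_of_le_of_ne (dom_nonneg hn hdom β hβR hβz) (Ne.symm h0)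
      have hγ := o_s7R hn _ ((NO n a).inv_mem hvv) β hβR
      have e1 : acO a (PM y * m * (PM y * m)) (acO a (PM y * m * (PM y * m))⁻¹ β) = β := by
        have h2 := acO_mul hn hvv ((NO n a).inv_mem hvv)
        rw [mul_inv_cancel, acO_one hn] at h2
        have h3 := congrArg (fun e : EA n a ≃ₗᵢ[ℝ] EA n a => e β) h2
        exact h3.symm
      have h2 : inner ℝ (acO a (PM y * m * (PM y * m)) (acO a (PM y * m * (PM y * m))⁻¹ β))
          (acO a (PM y * m * (PM y * m)) y') = inner ℝ (acO a (PM y * m * (PM y * m))⁻¹ β) y' :=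
        LinearIsometryEquiv.inner_map_map _ _ _
      rw [e1, hWy] at h2
      have h3 : 0 < inner ℝ (acO a (PM y * m * (PM y * m))⁻¹ β) (zo n a) := hdom _ hγ (by rw [← h2]; exact h1)
      have h4 : inner ℝ (acO a (PM y * m * (PM y * m)) (acO a (PM y * m * (PM y * m))⁻¹ β))
          (acO a (PM y * m * (PM y * m)) (zo n a)) = inner ℝ (acO a (PM y * m * (PM y * m))⁻¹ β) (zo n a) :=
        LinearIsometryEquiv.inner_map_map _ _ _
      rw [e1] at h4
      rw [h4]
      exact h3.le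
  have hz : acO a (PM y * m * (PM y * m)) (zo n a) = zo n a :=
    o_b13 hn _ hvv (zo n a) (fun _ _ h => h) hdomW
  have hc := cx_acO hn hvv (zo n a) i
  rw [hz, pmo_mul hvN hvN] at hc
  have hc' : cx (zo n a) (pmo a (PM y * m) (pmo a (PM y * m) i)) = cx (zo n a) i := hc
  by_cases ha : a = 0
  · subst ha
    exact K08_zo hc'
  · by_cases hmi : Mid n i
    · rw [pmo_mid hvN ha hmi, pmo_mid hvN ha hmi]
    · by_contra hne
      have h1 : ¬ (Mid n i ∧ Mid n (pmo a (PM y * m) (pmo a (PM y * m) i))) := fun h => hmi h.1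
      rcases lt_or_gt_of_ne hne with h | h
      · exact absurd hc' (ne_of_gt ((zo_lt hn (fun h2 => h1 h2.symm)).2 h))
      · exact absurd hc' (ne_of_lt ((zo_lt hn h1).2 h))

end

end OR
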