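import Pool.Agent.OR.K08
import Pool.Agent.OR.I03

/-!
# MP_6c3636_al, OR, module K09: relevant elements are symmetric (stub of helper40)

Notation of K07, K08: `v = PM y * m`, `σ = pmo a v`, `π = pmo a m`, `y'`. Outside of the middle (or `a = 0`) `v (σ i) i = m (π i) i =: d i` (`PM y` is a permutation matrix; `py (π i) = σ i`: the column `i` of `v`). `d i * d (rev i) = 1` (`OQ_bf` for `v`). (A) For a simple pair `(i, j)`, `Sm n i j`, with `cx y' i = cx y' j`, `j` not in the middle or `a = 0`: `d i = d j`. Proof: `α = rto a i j ∈ Dlo`, `<α, y'> = 0`, so `cx y i = cx y j` and `acO m α = rto a (π i) (π j) ∈ Dlo`, i.e. there is a simple pair `(p, q)` with `rto a (π i) (π j) = rto a p q`; this means `(p, q) = (π i, π j)` or `(p, q) = (rev (π j), rev (π i))` (if `a ≠ 0` and one of the indices is in the middle then the other middle index is also possible for it; `π` fixes the middle indices and `j` is not in the middle, so `π j` is not; then `q` is not in the middle either); apply `rel_coef`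 to `(p, q)`, in the second case use `d (rev i) = (d i)⁻¹`.
(B) `d (σ i) = d i` for all `i` (outside of the middle or `a = 0`). `σ` preserves the levels of `y'` (`v ∈ Lo y'`). Let `c = cx y' i`. If `c ≠ 0`: by symmetry (`d (rev i) = (d i)⁻¹`, `σ (rev i) = rev (σ i)`) let `c > 0`. `y'` is dominant: `y'_0 ≥ ... ≥ y'_(r) ≥ |y'_(r+1)|`, `r = n / 2 - 2` (`le_zo`), so the indices with the level `c > 0` are: an interval of the first half `{0, .., r}`, and possibly one of the two middle indices (`a = 0`), connected by simple pairs (`(i, i + 1)`, `(r, r + 1)`, `(r, r + 2)`); so `d` is constant on the level by (A). If `c = 0`: the indices of level zero form a symmetric interval; `a = 0`: if there are only two then `v` is diagonal on them (`plane`, I03, `v (i) (rev i) = 0`), `σ i = i`. If there are more than two (at least four, so `r`, `r + 1`, `r + 2`, `r + 3` have level zero) they are connected by the pairs `(i, i + 1)`, `i ≤ r`, `(r, r + 2)` and their mirrors `(rev j, rev i)`, so `d` is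 constant (for the mirrors: `d (rev j) = (d j)⁻¹ = (d i)⁻¹ = d (rev i)`). `a ≠ 0`: if only the middle indices have level zero there is nothing to show. Otherwise `r` has level zero, the pair `(r, q)`, `q` in the middle, has `<rto a r q, y'> = 0`, so `acO m (rto a r q) = rto a (π r) q ∈ Dlo n a`, so `π r = r` (the simple roots `rto a p q'` with `q'` not in the middle are different from `rto a (π r) q`: evaluate at a point), and `rel_mid` gives `m r r = 1`, `d r = 1`; by (A) `d i = 1` for all `i ≤ r` of level zero, and `d (rev i) = 1`.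
(C) the middle block of `v` is symmetric if `a ≠ 0`: if only the middle indices have level zero: let `t` be the matrix with the middle block of `v` and the identity elsewhere; it is in `OQ n a`, and by `ev_levels_iff` (for `cx y'`, `v ∈ Lo y'`) in `Om n a`; `T_mid` (E07) gives the symmetry. Otherwise (`r` has level zero) `rel_mid`: `m i j = m j i`, `m i j = m (rev i) (rev j)` for the middle indices; `v i j = m (py i) j` with `py i = i` or `py i = rev i` (K03), so the middle block of `v` is symmetric.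
`v_symm`: for `i`, `j` both in the middle and `a ≠ 0` by (C). Otherwise `v i j ≠ 0` iff `i = σ j` iff `j = σ i` (`sig_invol`), `v (σ j) j = d j = d (σ j) = v j (σ j)`.
`rel_tau`: the entry `(i, j)` of `tau (py y) m` is `m (py j) (py i) = v j (py i)` [`v = PM y * m`: `v k l = m (py k) l`] `= v (py i) j` (`v_symm`) `= m (py (py i)) j = m i j`.
-/

namespace OR

noncomputable section

open Classical Matrix CF

open LieP (En UG UL Lin Al dl sb el)

open LieP.GI (pinv pinv' UU mem_UU mem_UL lev)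

variable {n : ℕ} {F : Type} [Field F] [Finite F] [CharP F 2] {a : F}

omit [Finite F] [CharP F 2] in
/-- the coordinates of a test point -/
private def ef (k l : Fin n) : ℝ := (if l = k then 1 else 0) - (if l = Fin.rev k then 1 else 0)

/-- test points -/
private def ek (hn : Even n) (k : Fin n) (hk : a = 0 ∨ ¬ Mid n k) : EA n a :=
  ofx a (ef k) (by
    intro l
    unfold ef
    have h1 : (Fin.rev l = k) ↔ (l = Fin.rev k) := ⟨fun h => by rw [← h, Fin.rev_rev], fun h => by rw [h, Fin.rev_rev]⟩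
    have h2 : (Fin.rev l = Fin.rev k) ↔ (l = k) := ⟨fun h => Fin.rev_injective h, fun h => by rw [h]⟩
    rw [if_congr h1 rfl rfl, if_congr h2 rfl rfl]
    ring) (by
    intro ha l hl
    have hk' : ¬ Mid n k := hk.resolve_left ha
    have h1 : ¬ l = k := by
      rintro rfl
      exact hk' hl
    have h2 : ¬ l = Fin.rev k := by
      rintro rfl
      exact hk' ((Mid_rev hn).1 hl)
    unfold ef
    rw [if_neg h1, if_neg h2, sub_zero])

omit [Finite F] [CharP F 2] in
private theorem cx_ek (hn : Even n) (k : Fin n) (hk : a = 0 ∨ ¬ Mid n k) (l : Fin n) :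
    cx (ek hn k hk) l = ef k l := rfl

omit [Finite F] [CharP F 2] in
private theorem rto_ev {i j p q : Fin n} (h : rto a i j = rto a p q) (x : EA n a) :
    cx x i - cx x j = cx x p - cx x q := by
  rw [← inner_rto, h, inner_rto]

private theorem ef_self (hn : Even n) (k : Fin n) : ef k k = 1 := by
  unfold ef
  rw [if_pos rfl, if_neg (rev_ne hn k).symm, sub_zero]

private theorem ef_zero {k l : Fin n} (h : l ≠ k) (h' : l ≠ Fin.rev k) : ef k l = 0 := by
  unfold ef
  rw [if_neg h, if_neg h', sub_zero]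

omit [Finite F] [CharP F 2] in
private theorem rto_pair (hn : Even n) {i j p q : Fin n} (hi : a = 0 ∨ ¬ Mid n i) (hj : a = 0 ∨ ¬ Mid n j)
    (h1 : i ≠ j) (h2 : j ≠ Fin.rev i) (h : rto a i j = rto a p q) :
    (p = i ∧ q = j) ∨ (p = Fin.rev j ∧ q = Fin.rev i) := by
  have h3 : i ≠ Fin.rev j := fun h' => h2 (by rw [h', Fin.rev_rev])
  have e1 := rto_ev h (ek hn i hi)
  have e2 := rto_ev h (ek hn j hj)
  rw [cx_ek, cx_ek, cx_ek, cx_ek, ef_self hn, ef_zero h1.symm h2, sub_zero] at e1
  rw [cx_ek, cx_ek, cx_ek, cx_ek, ef_self hn, ef_zero h1 h3, zero_sub] at e2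
  have c1 : p = i ∨ q = Fin.rev i := by
    by_contra hc
    rw [not_or] at hc
    unfold ef at e1
    rw [if_neg hc.1, if_neg hc.2] at e1
    split_ifs at e1 <;> linarith
  have c2 : p = Fin.rev j ∨ q = j := by
    by_contra hc
    rw [not_or] at hc
    unfold ef at e2
    rw [if_neg hc.1, if_neg hc.2] at e2
    split_ifs at e2 <;> linarith
  rcases c1 with c1 | c1
  · rcases c2 with c2 | c2
    · exact absurd (c1.symm.trans c2) h3
    · exact Or.inl ⟨c1, c2⟩
  · rcases c2 with c2 | c2
    · exact Or.inr ⟨c2, c1⟩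
    · exact absurd (c2.symm.trans c1) h2

omit [Finite F] [CharP F 2] in
private theorem rto_mid (hn : Even n) (ha : a ≠ 0) {i q p q' : Fin n} (hi : ¬ Mid n i) (hq : Mid n q)
    (hs : Sm n p q') (h : rto a i q = rto a p q') : p = i ∧ Mid n q' := by
  have hp : ¬ Mid n p := hs.nmid
  have key : ∀ x : EA n a, cx x i = cx x p - cx x q' := by
    intro x
    have h1 := rto_ev h x
    rw [cx_mid ha x hq, sub_zero] at h1
    exact h1
  by_cases hq' : Mid n q'
  · refine ⟨?_, hq'⟩
    have e1 := key (ek hn i (Or.inr hi))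
    rw [cx_mid ha _ hq', sub_zero, cx_ek, cx_ek, ef_self hn] at e1
    by_contra hc
    unfold ef at e1
    rw [if_neg hc] at e1
    split_ifs at e1 <;> linarith
  · exfalso
    have h1 : q' ≠ p := hs.ne.symm
    have h2 : q' ≠ Fin.rev p := hs.ne_rev
    have h3 : p ≠ Fin.rev q' := fun h' => h2 (by rw [h', Fin.rev_rev])
    have e1 := key (ek hn p (Or.inr hp))
    have e2 := key (ek hn q' (Or.inr hq'))
    rw [cx_ek, cx_ek, cx_ek, ef_self hn, ef_zero h1 h2, sub_zero] at e1
    rw [cx_ek, cx_ek, cx_ek, ef_self hn, ef_zero h1.symm h3, zero_sub] at e2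
    have c1 : i = p := by
      by_contra hc
      unfold ef at e1
      rw [if_neg hc] at e1
      split_ifs at e1 <;> linarith
    have c2 : i = Fin.rev q' := by
      by_contra hc
      unfold ef at e2
      rw [if_neg hc] at e2
      split_ifs at e2 <;> linarith
    exact h3 (c1.symm.trans c2)

private theorem v_apply (hn : Even n) {y : EA n a} (hy : Antitone (cx y)) (m : GL (Fin n) F) (k l : Fin n) :
    ((PM y * m : GL (Fin n) F) : Matrix (Fin n) (Fin n) F) k l = (m : Matrix (Fin n) (Fin n) F) (py y k) l := by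
  rw [Units.val_mul, Matrix.mul_apply, Finset.sum_eq_single (py y k)]
  · unfold PM
    rw [pmt_apply, if_pos (py_py hn hy k).symm, one_mul]
  · intro j _ hj
    unfold PM
    rw [pmt_apply, if_neg, zero_mul]
    intro h
    exact hj (by rw [h, py_py hn hy])
  · exact fun h => absurd (Finset.mem_univ _) h

theorem v_symm (hn : Even n) (ha : a = 0 ∨ Aniso a) {y : EA n a} (hy : Antitone (cx y)) {ψ : F → ℤˣ} (hψ : Ps ψ)
    {m : GL (Fin n) F} (hm : Rel y ψ m) (i j : Fin n) :
    ((PM y * m : GL (Fin n) F) : Matrix (Fin n) (Fin n) F) i j =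
      ((PM y * m : GL (Fin n) F) : Matrix (Fin n) (Fin n) F) j i := by
  obtain ⟨v, hvd⟩ : ∃ v : GL (Fin n) F, v = PM y * m := ⟨_, rfl⟩
  obtain ⟨y', hP1, hP2, hP3⟩ := exists_pt' hn hy hψ hm
  have hinv : ∀ i, pmo a v (pmo a v i) = i := by
    rw [hvd]
    exact sig_invol hn hy hψ hm
  have hve : ∀ k l, (v : Matrix (Fin n) (Fin n) F) k l = (m : Matrix (Fin n) (Fin n) F) (py y k) l := by
    rw [hvd]
    exact v_apply hn hy m
  have hvno : v ∈ NO n a := by
    rw [hvd]
    exact Subgroup.mul_mem _ (PM_NO hn hy) hm.no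
  have hvOm : v ∈ Om n a := hvno.1
  have hvO : v ∈ OQ n a := Om_le n a hvOm
  have hvLo : v ∈ Lo y' := by
    rw [hvd]
    exact hP3
  rw [← hvd]
  obtain ⟨σ, hσ⟩ : ∃ σ, σ = pmo a v := ⟨_, rfl⟩
  obtain ⟨π, hπ⟩ : ∃ π, π = pmo a m := ⟨_, rfl⟩
  rw [← hσ] at hinv
  have sp : IsN a v σ := by
    rw [hσ]
    exact pmo_spec hvno
  have spm : IsN a m π := by
    rw [hπ]
    exact pmo_spec hm.no
  have hσrev : ∀ i, σ (Fin.rev i) = Fin.rev (σ i) := by
    rw [hσ]
    exact pmo_rev hn hvno
  have hπrev : ∀ i, π (Fin.rev i) = Fin.rev (π i) := by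
    rw [hπ]
    exact pmo_rev hn hm.no
  have okrev : ∀ i : Fin n, (a = 0 ∨ ¬ Mid n i) → (a = 0 ∨ ¬ Mid n (Fin.rev i)) := by
    intro i hi
    rcases hi with hi | hi
    · exact Or.inl hi
    · exact Or.inr fun h => hi ((Mid_rev hn).1 h)
  have okσ : ∀ i : Fin n, (a = 0 ∨ ¬ Mid n i) → (a = 0 ∨ ¬ Mid n (σ i)) := by
    intro i hi
    rcases hi with hi | hi
    · exact Or.inl hi
    · by_cases ha0 : a = 0
      · exact Or.inl ha0
      · refine Or.inr fun h => hi ?_
        have h1 := sp.2 ha0 (σ i) h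
        rw [hinv] at h1
        rw [h1]
        exact h
  have okπ : ∀ i : Fin n, (a = 0 ∨ ¬ Mid n i) → (a = 0 ∨ ¬ Mid n (π i)) := by
    intro i hi
    rcases hi with hi | hi
    · exact Or.inl hi
    · by_cases ha0 : a = 0
      · exact Or.inl ha0
      · refine Or.inr fun h => hi ?_
        have h1 := spm.2 ha0 (π i) h
        have h2 : π i = i := π.injective h1
        rw [← h2]
        exact h
  obtain ⟨d, hd⟩ : ∃ d : Fin n → F, d = fun i => (v : Matrix (Fin n) (Fin n) F) (σ i) i := ⟨_, rfl⟩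
  have hd' : ∀ i, (v : Matrix (Fin n) (Fin n) F) (σ i) i = d i := by
    intro i
    rw [hd]
  have hdne : ∀ i : Fin n, (a = 0 ∨ ¬ Mid n i) → d i ≠ 0 := by
    intro i hi
    rw [← hd']
    exact sp.ne hi
  have hdm : ∀ i : Fin n, (a = 0 ∨ ¬ Mid n i) → d i = (m : Matrix (Fin n) (Fin n) F) (π i) i := by
    intro i hi
    have h1 : py y (σ i) = π i := by
      by_contra hc
      have h2 := hdne i hi
      rw [← hd', hve] at h2
      refine h2 (spm.1 _ _ hc fun h3 => ?_)
      rcases hi with hi | hi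
      · exact h3.1 hi
      · exact hi h3.2.2
    rw [← hd', hve, h1]
  have hd1 : ∀ i : Fin n, (a = 0 ∨ ¬ Mid n i) → d i * d (Fin.rev i) = 1 := by
    intro i hi
    have hcol : ∀ j : Fin n, (a = 0 ∨ ¬ Mid n j) → mv v (sv j) = d j • sv (σ j) := by
      intro j hj
      funext k
      rw [mv_sv, Pi.smul_apply, smul_eq_mul]
      by_cases hk : k = σ j
      · rw [hk, sv, Pi.single_eq_same, mul_one, hd']
      · rw [sv, Pi.single_eq_of_ne hk, mul_zero]
        refine sp.1 k j hk fun h2 => ?_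
        rcases hj with hj | hj
        · exact h2.1 hj
        · exact hj h2.2.2
    have h1 := OQ_bf hn hvO (sv i) (sv (Fin.rev i))
    rw [hcol i hi, hcol _ (okrev i hi), bf_smul_left, bf_smul_right, bf_sv_left, bf_sv_left, hσrev, sv,
      Pi.single_eq_same, sv, Pi.single_eq_same, mul_one] at h1
    exact h1
  have hlev : ∀ i, cx y' (σ i) = cx y' i := by
    intro i
    by_cases hi : a = 0 ∨ ¬ Mid n i
    · by_contra hc
      exact sp.ne hi (((mem_Lo hn).1 hvLo).2 _ _ hc)
    · rw [not_or, not_not] at hi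
      rw [sp.2 hi.1 i hi.2]
  have hlevm : ∀ i, (a = 0 ∨ ¬ Mid n i) → cx y (π i) = cx y i := by
    intro i hi
    by_contra hc
    exact spm.ne hi (((mem_Lo hn).1 hm.lo).2 _ _ hc)
  -- the values for simple pairs
  have hA : ∀ i j : Fin n, Sm n i j → cx y' i = cx y' j → (a = 0 ∨ ¬ Mid n j) → d i = d j := by
    intro i j hs hY hj
    have hi : a = 0 ∨ ¬ Mid n i := Or.inr hs.nmid
    have hα : rto a i j ∈ Dlo n a := mem_Dlo.2 ⟨i, j, hs, rfl⟩
    obtain ⟨h1, h2⟩ := (hP2 _ hα).1 (zero_rto.2 hY)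
    rw [zero_rto] at h1
    rw [acO_rto hn hm.no, ← hπ, mem_Dlo] at h2
    obtain ⟨p, q, hpq, h3⟩ := h2
    have hne : π i ≠ π j := fun h => hs.ne (π.injective h)
    have hne' : π j ≠ Fin.rev (π i) := by
      rw [← hπrev]
      exact fun h => hs.ne_rev (π.injective h)
    rcases rto_pair hn (okπ i hi) (okπ j hj) hne hne' h3 with ⟨h4, h5⟩ | ⟨h4, h5⟩
    · subst h4 h5
      have h6 := rel_coef hn hy hψ hm hpq (by rw [hlevm i hi, hlevm j hj, h1]) (okπ j hj)
      rw [← hπ, pinv, pinv] at h6
      rw [hdm i hi, hdm j hj]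
      exact h6 hs.pl
    · rw [← hπrev] at h4 h5
      subst h4 h5
      have h6 := rel_coef hn hy hψ hm hpq (by
        rw [hlevm _ (okrev j hj), hlevm _ (okrev i hi), cx_rev, cx_rev, h1]) (okπ _ (okrev i hi))
      rw [← hπ, pinv, pinv] at h6
      have h7 : d (Fin.rev j) = d (Fin.rev i) := by
        rw [hdm _ (okrev j hj), hdm _ (okrev i hi)]
        refine h6 ⟨Fin.rev_lt_rev.2 hs.pl.1, fun h8 => ?_⟩
        exact hs.pl.2 ⟨(Mid_rev hn).1 h8.2, (Mid_rev hn).1 h8.1⟩
      have h8 := hd1 i hi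
      have h9 := hd1 j hj
      rw [h7] at h9
      exact mul_right_cancel₀ (hdne _ (okrev i hi)) (h8.trans h9.symm)
  -- the levels of `y'`
  have hn2 : n % 2 = 0 := Nat.even_iff.1 hn
  have hrv : ∀ i : Fin n, ((Fin.rev i : Fin n) : ℕ) = n - (i + 1) := fun i => Fin.val_rev i
  have hD : ∀ i j : Fin n, i < j → j ≠ Fin.rev i → cx y' j ≤ cx y' i := by
    intro i j hij hne
    by_contra hc
    have h1 := (le_zo hn).1 hP1 j i (fun h => hne (by rw [h, Fin.rev_rev])) (not_le.1 hc)
    exact absurd h1 (not_lt.2 hij.le)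
  have hA1 : ∀ t : ℕ, ∀ i j : Fin n, (j : ℕ) = i + t → (j : ℕ) + 1 ≤ n / 2 → (a = 0 ∨ ¬ Mid n j) →
      cx y' i = cx y' j → d i = d j := by
    intro t
    induction t with
    | zero =>
      intro i j hij _ _ _
      rw [Fin.ext hij.symm]
    | succ t ih =>
      intro i j hij hj2 hj hY
      have hjl := j.isLt
      obtain ⟨k, hk⟩ : ∃ k : Fin n, (k : ℕ) = i + 1 := ⟨⟨i + 1, by omega⟩, rfl⟩
      have h1 : cx y' k ≤ cx y' i := by
        refine hD i k (by rw [Fin.lt_def]; omega) fun h => ?_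
        rw [h, hrv] at hk
        omega
      have h2 : cx y' j ≤ cx y' k := by
        by_cases hkj : k = j
        · rw [hkj]
        · have hkj' : (k : ℕ) ≠ (j : ℕ) := fun h => hkj (Fin.ext h)
          refine hD k j (by rw [Fin.lt_def]; omega) fun h => ?_
          have h3 := hrv k
          rw [← h] at h3
          omega
      have hYk : cx y' i = cx y' k := le_antisymm (by rw [hY]; exact h2) h1
      have hok : a = 0 ∨ ¬ Mid n k := by
        by_cases hkj : k = j
        · rw [hkj]
          exact hj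
        · have hkj' : (k : ℕ) ≠ (j : ℕ) := fun h => hkj (Fin.ext h)
          right
          unfold Mid
          omega
      rw [hA i k (Or.inl ⟨hk, by omega⟩) hYk hok]
      exact ih k j (by omega) hj2 hj (hYk.symm.trans hY)
  have hpos2 : ∀ k : Fin n, 0 < cx y' k → (k : ℕ) ≤ n / 2 := by
    intro k hk
    by_contra hc
    have hkl := k.isLt
    have h0 := hrv k
    obtain ⟨e1, he1⟩ : ∃ e1 : Fin n, (e1 : ℕ) + 1 = n / 2 := ⟨⟨n / 2 - 1, by omega⟩, by
      show n / 2 - 1 + 1 = n / 2
      omega⟩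
    obtain ⟨e2, he2⟩ : ∃ e2 : Fin n, (e2 : ℕ) = n / 2 := ⟨⟨n / 2, by omega⟩, rfl⟩
    have hr12 : Fin.rev e1 = e2 := Fin.ext (by rw [hrv]; omega)
    have h1 : cx y' (Fin.rev k) < 0 := by
      rw [cx_rev]
      linarith
    have h2 : cx y' e1 ≤ cx y' (Fin.rev k) := by
      refine hD _ _ (by rw [Fin.lt_def]; omega) fun h => ?_
      rw [Fin.rev_rev] at h
      rw [h] at he1
      omega
    have h3 : cx y' e2 ≤ cx y' (Fin.rev k) := by
      refine hD _ _ (by rw [Fin.lt_def]; omega) fun h => ?_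
      rw [Fin.rev_rev] at h
      rw [h] at he2
      omega
    rw [← hr12, cx_rev] at h3
    linarith
  have hBlt : ∀ i j : Fin n, i < j → (a = 0 ∨ ¬ Mid n j) → cx y' i = cx y' j → 0 < cx y' i → d i = d j := by
    intro i j hij hj hY hpos
    have hj2 : (j : ℕ) ≤ n / 2 := hpos2 j (by rw [← hY]; exact hpos)
    rw [Fin.lt_def] at hij
    by_cases hj3 : (j : ℕ) + 1 ≤ n / 2
    · exact hA1 (j - i) i j (by omega) hj3 hj hY
    · have hjm : (j : ℕ) = n / 2 := by omega
      have hjl := j.isLt
      have hi2 : (i : ℕ) + 2 ≤ n / 2 := by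
        by_contra hc
        have h1 : j = Fin.rev i := Fin.ext (by rw [hrv]; omega)
        rw [h1, cx_rev] at hY
        linarith
      obtain ⟨r, hr⟩ : ∃ r : Fin n, (r : ℕ) + 2 = n / 2 := ⟨⟨n / 2 - 2, by omega⟩, by
        show n / 2 - 2 + 2 = n / 2
        omega⟩
      have h1 : cx y' j ≤ cx y' r := by
        refine hD r j (by rw [Fin.lt_def]; omega) fun h => ?_
        have h2 := hrv r
        rw [← h] at h2
        omega
      have h2 : cx y' r ≤ cx y' i := by
        by_cases hir : i = r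
        · rw [hir]
        · have hir' : (i : ℕ) ≠ (r : ℕ) := fun h => hir (Fin.ext h)
          refine hD i r (by rw [Fin.lt_def]; omega) fun h => ?_
          have h3 := hrv i
          rw [← h] at h3
          omega
      have hYr : cx y' i = cx y' r := le_antisymm (by rw [hY]; exact h1) h2
      rw [hA1 (r - i) i r (by omega) (by omega) (Or.inr (by unfold Mid; omega)) hYr]
      exact hA r j (Or.inr ⟨by omega, by omega⟩) (hYr.symm.trans hY) hj
  have hBpos : ∀ i j : Fin n, (a = 0 ∨ ¬ Mid n i) → (a = 0 ∨ ¬ Mid n j) → cx y' i = cx y' j → 0 < cx y' i →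
      d i = d j := by
    intro i j hi hj hY hpos
    rcases lt_trichotomy i j with h | h | h
    · exact hBlt i j h hj hY hpos
    · rw [h]
    · exact (hBlt j i h hi hY.symm (by rw [← hY]; exact hpos)).symm
  have hBneg : ∀ i j : Fin n, (a = 0 ∨ ¬ Mid n i) → (a = 0 ∨ ¬ Mid n j) → cx y' i = cx y' j → cx y' i < 0 →
      d i = d j := by
    intro i j hi hj hY hneg
    have h1 := hBpos (Fin.rev i) (Fin.rev j) (okrev i hi) (okrev j hj) (by rw [cx_rev, cx_rev, hY])
      (by rw [cx_rev]; linarith)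
    have h8 := hd1 i hi
    have h9 := hd1 j hj
    rw [← h1] at h9
    exact mul_right_cancel₀ (hdne _ (okrev i hi)) (h8.trans h9.symm)
  -- the level zero
  have hsq : ∀ x : F, x * x = 1 → x = 1 := by
    intro x hx
    apply frobenius_inj F 2
    show x ^ 2 = 1 ^ 2
    rw [sq, hx, one_pow]
  have hZ : ∀ k : Fin n, 2 * (k : ℕ) + 4 ≤ n → cx y' k = 0 → ∃ r e1 e2 : Fin n, (r : ℕ) + 2 = n / 2 ∧
      (e1 : ℕ) + 1 = n / 2 ∧ (e2 : ℕ) = n / 2 ∧ cx y' r = 0 ∧ cx y' e1 = 0 ∧ cx y' e2 = 0 := by
    intro k hk hYk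
    have hkl := k.isLt
    have hkr := hrv k
    obtain ⟨r, hr⟩ : ∃ r : Fin n, (r : ℕ) + 2 = n / 2 := ⟨⟨n / 2 - 2, by omega⟩, by
      show n / 2 - 2 + 2 = n / 2
      omega⟩
    obtain ⟨e1, he1⟩ : ∃ e1 : Fin n, (e1 : ℕ) + 1 = n / 2 := ⟨⟨n / 2 - 1, by omega⟩, by
      show n / 2 - 1 + 1 = n / 2
      omega⟩
    obtain ⟨e2, he2⟩ : ∃ e2 : Fin n, (e2 : ℕ) = n / 2 := ⟨⟨n / 2, by omega⟩, rfl⟩
    have hr12 : Fin.rev e1 = e2 := Fin.ext (by rw [hrv]; omega)
    have h1 : cx y' e1 ≤ cx y' k := by
      refine hD _ _ (by rw [Fin.lt_def]; omega) fun h => ?_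
      rw [← h] at hkr
      omega
    have h2 : cx y' e2 ≤ cx y' k := by
      refine hD _ _ (by rw [Fin.lt_def]; omega) fun h => ?_
      rw [← h] at hkr
      omega
    have h3 : cx y' e2 = - cx y' e1 := by
      rw [← hr12, cx_rev]
    have h4 : cx y' e1 = 0 := by linarith
    have h5 : cx y' e2 = 0 := by linarith
    refine ⟨r, e1, e2, hr, he1, he2, ?_, h4, h5⟩
    have h6 : cx y' e1 ≤ cx y' r := by
      have hrr := hrv r
      refine hD _ _ (by rw [Fin.lt_def]; omega) fun h => ?_
      rw [← h] at hrr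
      omega
    have h7 : cx y' r ≤ cx y' k := by
      by_cases hkr' : k = r
      · rw [hkr']
      · have hkr2 : (k : ℕ) ≠ (r : ℕ) := fun h => hkr' (Fin.ext h)
        refine hD k r (by rw [Fin.lt_def]; omega) fun h => ?_
        rw [← h] at hkr
        omega
    linarith
  -- the consequences of `rel_mid`
  have hM : a ≠ 0 → ∀ r q : Fin n, (r : ℕ) + 2 = n / 2 → Mid n q → cx y' r = 0 →
      (m : Matrix (Fin n) (Fin n) F) (π r) r = 1 ∧ ∀ i j : Fin n, Mid n i → Mid n j →
      (m : Matrix (Fin n) (Fin n) F) i j = (m : Matrix (Fin n) (Fin n) F) j i ∧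
      (m : Matrix (Fin n) (Fin n) F) i j = (m : Matrix (Fin n) (Fin n) F) (Fin.rev i) (Fin.rev j) := by
    intro ha0 r q hr hq hYr
    have hs : Sm n r q := by
      unfold Mid at hq
      unfold Sm
      omega
    have hrm : ¬ Mid n r := hs.nmid
    have hα : rto a r q ∈ Dlo n a := mem_Dlo.2 ⟨r, q, hs, rfl⟩
    obtain ⟨h1, h2⟩ := (hP2 _ hα).1 (zero_rto.2 (by rw [hYr, cx_mid ha0 y' hq]))
    rw [zero_rto] at h1
    rw [acO_rto hn hm.no, ← hπ, spm.2 ha0 q hq, mem_Dlo] at h2
    obtain ⟨p, q', hpq, h3⟩ := h2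
    obtain ⟨h4, h5⟩ := rto_mid hn ha0 ((okπ r (Or.inr hrm)).resolve_left ha0) hq hpq h3
    have h6 : π r = r := by
      rw [← h4]
      apply Fin.ext
      unfold Sm at hpq
      unfold Mid at h5
      omega
    have h7 : (pmo a m)⁻¹ r = r := by
      rw [← hπ]
      apply π.injective
      rw [pinv', h6]
    obtain ⟨-, h8, h9⟩ := rel_mid hn hy hψ hm hs h1 ha0 hq (by rw [h7]; exact hs.pl)
    rw [h6]
    exact ⟨h8, h9⟩
  have hone : (∃ k : Fin n, 2 * (k : ℕ) + 4 ≤ n ∧ cx y' k = 0) → ∀ k : Fin n, (a = 0 ∨ ¬ Mid n k) →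
      cx y' k = 0 → d k = 1 := by
    rintro ⟨k0, hk0, hYk0⟩
    obtain ⟨r, e1, e2, hr, he1, he2, hYr, hY1, hY2⟩ := hZ k0 hk0 hYk0
    have hrl := r.isLt
    have hr12 : Fin.rev e1 = e2 := Fin.ext (by rw [hrv]; omega)
    have hrm : ¬ Mid n r := by
      unfold Mid
      omega
    have hdr : d r = 1 := by
      by_cases ha0 : a = 0
      · have h1 : d r = d e1 := hA r e1 (Or.inl ⟨by omega, by omega⟩) (by rw [hYr, hY1]) (Or.inl ha0)
        have h2 : d r = d e2 := hA r e2 (Or.inr ⟨by omega, by omega⟩) (by rw [hYr, hY2]) (Or.inl ha0)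
        have h3 := hd1 e1 (Or.inl ha0)
        rw [hr12, ← h1, ← h2] at h3
        exact hsq _ h3
      · rw [hdm r (Or.inr hrm)]
        exact (hM ha0 r e1 hr (Or.inl he1) hYr).1
    have hfirst : ∀ k : Fin n, (a = 0 ∨ ¬ Mid n k) → (k : ℕ) + 1 ≤ n / 2 → cx y' k = 0 → d k = 1 := by
      intro k hk hk2 hYk
      by_cases hkr : (k : ℕ) ≤ r
      · rw [hA1 (r - k) k r (by omega) (by omega) (Or.inr hrm) (by rw [hYk, hYr])]
        exact hdr
      · have h1 : (k : ℕ) = r + 1 := by omega
        rw [← hA r k (Or.inl ⟨h1, by omega⟩) (by rw [hYk, hYr]) hk]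
        exact hdr
    intro k hk hYk
    by_cases hk2 : (k : ℕ) + 1 ≤ n / 2
    · exact hfirst k hk hk2 hYk
    · have h1 := hfirst (Fin.rev k) (okrev k hk) (by rw [hrv]; omega) (by rw [cx_rev, hYk, neg_zero])
      have h2 := hd1 k hk
      rw [h1, mul_one] at h2
      exact h2
  -- only the middle indices have level zero
  have hmid0 : (¬ ∃ k : Fin n, 2 * (k : ℕ) + 4 ≤ n ∧ cx y' k = 0) → ∀ k : Fin n, cx y' k = 0 → Mid n k := by
    intro hno k hYk
    have hkl := k.isLt
    by_contra hc
    unfold Mid at hc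
    by_cases hk2 : (k : ℕ) + 1 ≤ n / 2
    · exact hno ⟨k, by omega, hYk⟩
    · exact hno ⟨Fin.rev k, by rw [hrv]; omega, by rw [cx_rev, hYk, neg_zero]⟩
  have hB : ∀ i : Fin n, (a = 0 ∨ ¬ Mid n i) → d (σ i) = d i := by
    intro i hi
    rcases lt_trichotomy (cx y' i) 0 with h | h | h
    · exact (hBneg i (σ i) hi (okσ i hi) (hlev i).symm h).symm
    · by_cases hz : ∃ k : Fin n, 2 * (k : ℕ) + 4 ≤ n ∧ cx y' k = 0
      · rw [hone hz i hi h, hone hz (σ i) (okσ i hi) (by rw [hlev, h])]
      · have hmi : Mid n i := hmid0 hz i h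
        have ha0 : a = 0 := by
          rcases hi with hi | hi
          · exact hi
          · exact absurd hmi hi
        have hσi : σ i = i := by
          rcases mid_pair hn hmi (hmid0 hz (σ i) (by rw [hlev, h])) with h1 | h1
          · exact h1
          · exfalso
            have hvOm0 : v ∈ Om n (0 : F) := by
              rw [← ha0]
              exact hvOm
            have h2 := plane hn (x := cx y') (cx_rev y') (i := Fin.rev i) (by rw [cx_rev, h, neg_zero]) (by
              intro j hj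
              rcases mid_pair hn hmi (hmid0 hz j hj) with h3 | h3
              · right
                rw [h3, Fin.rev_rev]
              · left
                exact h3) hvOm0 (fun j k hjk => ((mem_Lo hn).1 hvLo).2 j k hjk)
            rw [Fin.rev_rev, ← h1] at h2
            exact sp.ne hi h2
        rw [hσi]
    · exact (hBpos i (σ i) hi (okσ i hi) (hlev i).symm h).symm
  -- the middle block
  have hC : a ≠ 0 → ∀ i j : Fin n, Mid n i → Mid n j →
      (v : Matrix (Fin n) (Fin n) F) i j = (v : Matrix (Fin n) (Fin n) F) j i := by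
    intro ha0 i j hi hj
    rcases mid_pair hn hi hj with h | h
    · rw [h]
    by_cases hz : ∃ k : Fin n, 2 * (k : ℕ) + 4 ≤ n ∧ cx y' k = 0
    · obtain ⟨k0, hk0, hYk0⟩ := hz
      obtain ⟨r, e1, e2, hr, he1, he2, hYr, hY1, hY2⟩ := hZ k0 hk0 hYk0
      obtain ⟨-, h9⟩ := hM ha0 r i hr hi hYr
      have hpi : Mid n (py y i) := (py_mid hn hy ha0 i).2 hi
      have hpj : py y j = Fin.rev (py y i) := by
        rw [h, py_rev hn hy]
      rw [hve, hve, hpj]
      rcases mid_pair hn hi hpi with h1 | h1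
      · rw [h1, h]
        exact (h9 i (Fin.rev i) hi ((Mid_rev hn).2 hi)).1
      · rw [h1, Fin.rev_rev, h]
        have h2 := (h9 i i hi hi).2
        exact h2.symm
    · obtain ⟨t, ht⟩ : ∃ t : GL (Fin n) F, t = v * pmt F σ := ⟨_, rfl⟩
      have hσm : ∀ k : Fin n, Mid n (σ k) ↔ Mid n k := by
        intro k
        constructor
        · intro h1
          by_contra h2
          exact (okσ k (Or.inr h2)).elim (fun h3 => ha0 h3) (fun h3 => h3 h1)
        · intro h1
          rw [sp.2 ha0 k h1]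
          exact h1
      have hpO : pmt F σ ∈ OQ n a := pmt_OQ hn a hσrev (fun _ => hσm)
      have hpOm : pmt F σ ∈ Om n a := by
        refine ev_levels hn hpO (y := cx y') (cx_rev y') (cx_mid' y') ?_ ?_
        · intro k l hkl
          rw [pmt_apply, if_neg]
          intro h1
          rw [h1, hlev] at hkl
          exact lt_irrefl _ hkl
        · intro k l hk hl
          rw [pmt_apply, sp.2 ha0 l (hmid0 hz l hl), Matrix.one_apply]
      have htOm : t ∈ Om n a := by
        rw [ht]
        exact Subgroup.mul_mem _ hvOm hpOm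
      have hte : ∀ k l, (t : Matrix (Fin n) (Fin n) F) k l = (v : Matrix (Fin n) (Fin n) F) k (σ l) := by
        intro k l
        rw [ht, Units.val_mul, Matrix.mul_apply, Finset.sum_eq_single (σ l)]
        · rw [pmt_apply, if_pos rfl, mul_one]
        · intro q _ hq
          rw [pmt_apply, if_neg hq, mul_zero]
        · exact fun h1 => absurd (Finset.mem_univ _) h1
      have htT : IsT t := by
        intro k l hkl hml
        rw [hte]
        refine sp.1 k (σ l) (by rw [hinv]; exact hkl) fun h1 => hml ⟨h1.2.1, (hσm l).1 h1.2.2⟩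
      have hil := i.isLt
      have key : ∀ k l : Fin n, (k : ℕ) + 1 = n / 2 → (l : ℕ) = n / 2 →
          (v : Matrix (Fin n) (Fin n) F) k l = (v : Matrix (Fin n) (Fin n) F) l k := by
        intro k l hk hl
        obtain ⟨h1, h2, -⟩ := T_mid hn htOm htT hk hl
        have h3 : σ k = k := sp.2 ha0 k (Or.inl hk)
        have h4 : σ l = l := sp.2 ha0 l (Or.inr hl)
        rw [← h2, hte, hte, h3, h4] at h1
        exact h1
      have hri := hrv i
      rcases hi with hi | hi
      · exact key i j hi (by rw [h, hri]; omega)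
      · exact (key j i (by rw [h, hri]; omega) hi).symm
  by_cases hmm : a ≠ 0 ∧ Mid n i ∧ Mid n j
  · exact hC hmm.1 i j hmm.2.1 hmm.2.2
  · have hmm' : ¬ (a ≠ 0 ∧ Mid n j ∧ Mid n i) := fun h => hmm ⟨h.1, h.2.2, h.2.1⟩
    by_cases hij : i = σ j
    · by_cases hj : a = 0 ∨ ¬ Mid n j
      · have h1 : σ i = j := by rw [hij, hinv]
        have h2 : (v : Matrix (Fin n) (Fin n) F) i j = d j := by rw [hij, hd']
        have h3 : (v : Matrix (Fin n) (Fin n) F) j i = d i := by rw [← hd', h1]
        rw [h2, h3, hij, hB j hj]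
      · rw [not_or, not_not] at hj
        rw [sp.2 hj.1 j hj.2] at hij
        rw [hij]
    · rw [sp.1 i j hij hmm, sp.1 j i (fun h => hij (by rw [h, hinv])) hmm']

theorem rel_tau (hn : Even n) (ha : a = 0 ∨ Aniso a) {y : EA n a} (hy : Antitone (cx y)) {ψ : F → ℤˣ} (hψ : Ps ψ)
    {m : GL (Fin n) F} (hm : Rel y ψ m) : tau (py y) m = m := by
  apply Units.ext
  ext i j
  have key : ∀ k l, (m : Matrix (Fin n) (Fin n) F) k l =
      ((PM y * m : GL (Fin n) F) : Matrix (Fin n) (Fin n) F) (py y k) l := by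
    intro k l
    rw [v_apply hn hy, py_py hn hy]
  rw [tau_apply, key (py y j), py_py hn hy, v_symm hn ha hy hψ hm, ← key]

end

end OR
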