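import Pool.Agent.OR.K02
import Pool.Agent.OR.K05
import Pool.Agent.OR.K07
import Pool.Agent.OR.I20
import Pool.Agent.OR.I24
import Pool.Agent.OR.I25

/-!
# MP_6c3636_al, OR, module K10: extension and twist (stub of helper40)

As LieP/I45, I49. `ext_lin_o`: `par_UZ`, `levO_mul`, `levO_UZ`. Let `l~ g = l (lev (cx y) g)`. `ext_face`: for a simple root `β = rto a p q`, `Sm n p q`: (1) if `cx y p ≠ cx y q` then `cx y q < cx y p` (`p < q`, antitone), `xs a p q s ∈ Uo y` (`xs_U`), `lev = 1` (`levO_one`), so `l~ (xs a p q s) = l 1 = 1`, and `l00 y ψ (xs a p q s) = 1` (`l00_xs`). (2) If `cx y p = cx y q`: `l00 y ψ (xs a p q s) = ψ s` is not `1` for some `s`. And there are a simple pair `(p', q')` with `rto a p' q' = β` and `s` with `l~ (xs a p' q' s) ≠ 1`: otherwise let `y'` be the coweight of `β` (`exists_cw`, `dom_of`); by `face_o` (for `l~` and `y'`: the simple pairs with `cx y' j < cx y' i` are those with the root `β`)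 `l~ u = 1` for all `u ∈ Uo y'`, so `l u = l~ u = 1` for all `u ∈ Uo y'`, `u ∈ Lo y` (`levO_id`), so by the regularity hypothesis `<β, y'> = 0` because of `<β, y> = 0`, contradiction.
So for every dominant `x` both `l~` and `l00 y ψ` are trivial on `Uo x` (`face_o`) iff `<β, x> = 0` for all simple roots `β` with `<β, y> = 0` (`face_o` says: trivial on all `xs a i j s` with `Sm n i j`, `cx x j < cx x i`; the condition `cx x j < cx x i` depends only on `rto a i j`). So `bw2_split` or `bw2_aniso` gives `t ∈ Lo (zo n a)` with `l~ u = l00 y ψ (t * u * t⁻¹)` for all `u ∈ UZ n a`; restrict to `Lo y` (`levO_id`).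
-/

namespace OR

noncomputable section

open Classical Matrix CF

open LieP (En UG UL Lin Al dl sb el)

open LieP.GI (pinv pinv' UU mem_UU mem_UL lev)

variable {n : ℕ} {F : Type} [Field F] [Finite F] [CharP F 2] {a : F}

theorem ext_lin_o (hn : Even n) {y : EA n a} (hy : Antitone (cx y)) {l : GL (Fin n) F → ℤˣ}
    (hl : Lin (UZ n a ⊓ Lo y) l) : Lin (UZ n a) (fun g => l (lev (cx y) g)) := by
  intro u hu v hv
  show l (lev (cx y) (u * v)) = l (lev (cx y) u) * l (lev (cx y) v)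
  rw [levO_mul hn (UZ_le n a hu) (UZ_le n a hv) (par_UZ hn hy hu) (par_UZ hn hy hv)]
  exact hl _ (levO_UZ hn hy hu) _ (levO_UZ hn hy hv)

namespace K10_aux

omit [Finite F] [CharP F 2] in
theorem one_lt {y : EA n a} (hy : Antitone (cx y)) {i j : Fin n} (h : Sm n i j) (hne : cx y i ≠ cx y j) :
    cx y j < cx y i :=
  lt_of_le_of_ne (hy h.pl.1.le) hne.symm

theorem face_l (hn : Even n) {x y : EA n a} {ψ : F → ℤˣ} (hψ : Ps ψ)
    (hx : ∀ α ∈ Ro n a, 0 < inner ℝ α x → 0 < inner ℝ α (zo n a)) :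
    (∀ u ∈ Uo x, l00 y ψ u = 1) ↔ ∀ i j : Fin n, Sm n i j → cx x j < cx x i → cx y i ≠ cx y j := by
  rw [face_o hn (l00_lin hn y hψ) hx]
  constructor
  · intro h i j hij hlt heq
    obtain ⟨s, hs⟩ := hψ.nt
    have h1 := h i j hij hlt s
    rw [l00_xs hn y hψ hij, if_pos heq] at h1
    exact hs h1
  · intro h i j hij hlt s
    rw [l00_xs hn y hψ hij, if_neg (h i j hij hlt)]

theorem cw_dom (hn : Even n) {β : EA n a} (hβ : β ∈ Dlo n a) : ∃ y : EA n a,
    (∀ α ∈ Ro n a, 0 < inner ℝ α y → 0 < inner ℝ α (zo n a)) ∧ 0 < inner ℝ β y ∧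
    ∀ p q : Fin n, Sm n p q → cx y q < cx y p → rto a p q = β := by
  obtain ⟨y, hy1, hy2⟩ := exists_cw hn hβ
  refine ⟨y, ?_, hy1, ?_⟩
  · refine dom_of hn fun β' hβ' => ?_
    by_cases hb : β' = β
    · rw [hb]
      exact hy1.le
    · exact (hy2 β' hβ' hb).ge
  · intro p q hpq hlt
    by_contra hne
    have h1 := hy2 (rto a p q) (mem_Dlo.2 ⟨p, q, hpq, rfl⟩) hne
    rw [zero_rto] at h1
    exact absurd h1 (ne_of_gt hlt)

theorem face_lt (hn : Even n) {x y : EA n a} (hy : Antitone (cx y)) {l : GL (Fin n) F → ℤˣ}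
    (hl : Lin (UZ n a ⊓ Lo y) l)
    (hreg : ∀ y' : EA n a, (∀ α ∈ Ro n a, 0 < inner ℝ α y' → 0 < inner ℝ α (zo n a)) →
      (∀ u ∈ Uo y', u ∈ Lo y → l u = 1) → ∀ α ∈ Ro n a, inner ℝ α y = 0 → inner ℝ α y' = 0)
    (hx : ∀ α ∈ Ro n a, 0 < inner ℝ α x → 0 < inner ℝ α (zo n a)) :
    (∀ u ∈ Uo x, l (lev (cx y) u) = 1) ↔
      ∀ i j : Fin n, Sm n i j → cx x j < cx x i → cx y i ≠ cx y j := by
  have hL := ext_lin_o hn hy hl
  have hf := face_o hn hL hx
  constructor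
  · intro h i j hij hlt heq
    have h1 := hf.1 h
    have hβ : rto a i j ∈ Dlo n a := mem_Dlo.2 ⟨i, j, hij, rfl⟩
    obtain ⟨y', hy', hpos, hq⟩ := cw_dom hn hβ
    have h2 : ∀ u ∈ Uo y', l (lev (cx y) u) = 1 := by
      refine (face_o hn hL hy').2 fun p q hpq hlt' s => ?_
      refine h1 p q hpq ?_ s
      rw [← pos_rto, hq p q hpq hlt', pos_rto]
      exact hlt
    have h3 := hreg y' hy' (fun u hu hu' => by
      have h4 := h2 u hu
      rw [levO_id hn hu'] at h4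
      exact h4) (rto a i j) (o_b14 hn _ hβ).1 (zero_rto.2 heq)
    exact absurd h3 (ne_of_gt hpos)
  · intro h
    refine hf.2 fun i j hij hlt s => ?_
    show l (lev (cx y) (xs a i j s)) = 1
    rw [levO_one hn (xs_U hn hij s (one_lt hy hij (h i j hij hlt)))]
    exact lin_one hl

end K10_aux

theorem twist_o (hn : Even n) (ha : a = 0 ∨ Aniso a) {y : EA n a} (hy : Antitone (cx y)) {ψ : F → ℤˣ} (hψ : Ps ψ)
    {l : GL (Fin n) F → ℤˣ} (hl : Lin (UZ n a ⊓ Lo y) l)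
    (hreg : ∀ y' : EA n a, (∀ α ∈ Ro n a, 0 < inner ℝ α y' → 0 < inner ℝ α (zo n a)) →
      (∀ u ∈ Uo y', u ∈ Lo y → l u = 1) → ∀ α ∈ Ro n a, inner ℝ α y = 0 → inner ℝ α y' = 0) :
    ∃ t ∈ Lo (zo n a), ∀ u ∈ UZ n a ⊓ Lo y, l u = l00 y ψ (t * u * t⁻¹) := by
  have hL : Lin (Uo (zo n a)) (fun g => l (lev (cx y) g)) := ext_lin_o hn hy hl
  have hL0 : Lin (Uo (zo n a)) (l00 y ψ) := l00_lin hn y hψ
  have hface : ∀ x : EA n a, (∀ α ∈ Ro n a, 0 < inner ℝ α x → 0 < inner ℝ α (zo n a)) →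
      ((∀ u ∈ Uo x, l00 y ψ u = 1) ↔ ∀ u ∈ Uo x, l (lev (cx y) u) = 1) := fun x hx =>
    (K10_aux.face_l hn hψ hx).trans (K10_aux.face_lt hn hy hl hreg hx).symm
  have key : ∃ s ∈ Lo (zo n a), ∀ u ∈ Uo (zo n a), l (lev (cx y) u) = l00 y ψ (s * u * s⁻¹) := by
    rcases ha with rfl | ha
    · exact bw2_split hn (l00 y ψ) (fun g => l (lev (cx y) g)) hL0 hL hface
    · exact bw2_aniso hn ha (l00 y ψ) (fun g => l (lev (cx y) g)) hL0 hL hface
  obtain ⟨t, ht, h⟩ := key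
  refine ⟨t, ht, fun u hu => ?_⟩
  have h1 := h u hu.1
  rw [levO_id hn hu.2] at h1
  exact h1

end

end OR
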