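import Pool.Agent.OR.K09
import Pool.Agent.OR.K10
import Pool.Agent.OR.I08
import Pool.Agent.LieP.I07
import Pool.Agent.LieP.I30
import Pool.Agent.LieP.I41
import Pool.Agent.LieP.I49

/-!
# MP_6c3636_al, OR, module K11: (W4) for antitone points (stub of helper40)

As LieP/I49 `c_bw4`. `ψ` from `ff5'` (LieP/I30; `Ps`). `t` of `twist_o`; `t ∈ Lo zo ≤ Lo y` (`Lo_zo_le`, I08), and `t` normalizes `UZ n a` (`o_s4`), so `V = UZ n a ⊓ Lo y` is normalized by `t`. `gelfand` (LieP/I41) for `H = Lo y`, `U = V`, `N = NO n a ⊓ Lo y`, `τ = tau (py y)`, `l00 y ψ` (`levi_bruhat_o`, `tau_mul`, `tau_tau` with `py_py`, `tau_Lo`, `tau_V`, `l00_lin` restricted to `V`, `l00_tau`, `rel_tau`) gives the commutativity for `el k V (l00 y ψ)`; `conj_el` (LieP/I07): `el k V l = dl t⁻¹ * el k V (l00 y ψ) * dl t`; replace `b`, `c` by `dl t * b * dl t⁻¹` (in `sb k (Lo y)`, `conj_sb`), see `I49_ring`.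
-/

namespace OR

noncomputable section

open Classical Matrix CF

open LieP (En UG UL Lin Al dl sb el)

open LieP.GI (pinv pinv' UU mem_UU mem_UL lev)

variable {n : ℕ} {F : Type} [Field F] [Finite F] [CharP F 2] {a : F}

theorem bw4_anti (hn : Even n) (ha : a = 0 ∨ Aniso a) {y : EA n a} (hy : Antitone (cx y))
    {l : GL (Fin n) F → ℤˣ} (hl : Lin (UZ n a ⊓ Lo y) l)
    (hreg : ∀ y' : EA n a, (∀ α ∈ Ro n a, 0 < inner ℝ α y' → 0 < inner ℝ α (zo n a)) →
      (∀ u ∈ Uo y', u ∈ Lo y → l u = 1) → ∀ α ∈ Ro n a, inner ℝ α y = 0 → inner ℝ α y' = 0)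
    [Finite (GL (Fin n) F)] (k : Type) [Field k] [CharZero k] :
    ∀ b ∈ sb k (Lo y), ∀ c ∈ sb k (Lo y),
      el k (UZ n a ⊓ Lo y) l * b * el k (UZ n a ⊓ Lo y) l * c * el k (UZ n a ⊓ Lo y) l =
        el k (UZ n a ⊓ Lo y) l * c * el k (UZ n a ⊓ Lo y) l * b * el k (UZ n a ⊓ Lo y) l := by
  intro b hb d hd
  obtain ⟨ψ, hψ1, hψ2⟩ := LieP.ff5' (F := F)
  have hψ : Ps ψ := ⟨hψ1, 1, hψ2⟩
  obtain ⟨t, ht, htl⟩ := twist_o hn ha hy hψ hl hreg
  have htL : t ∈ Lo y := Lo_zo_le hn y ht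
  have hmem : ∀ t ∈ Lo y, ∀ g : GL (Fin n) F, g ∈ Lo y ↔ t⁻¹ * g * t ∈ Lo y := by
    intro t ht g
    constructor
    · intro h
      exact (Lo y).mul_mem ((Lo y).mul_mem ((Lo y).inv_mem ht) h) ht
    · intro h
      have := (Lo y).mul_mem ((Lo y).mul_mem ht h) ((Lo y).inv_mem ht)
      rwa [show t * (t⁻¹ * g * t) * t⁻¹ = g by group] at this
  obtain ⟨V, hVdef⟩ : ∃ V : Subgroup (GL (Fin n) F), V = UZ n a ⊓ Lo y := ⟨_, rfl⟩
  have htV : ∀ g, g ∈ V ↔ t⁻¹ * g * t ∈ V := by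
    intro g
    rw [hVdef, Subgroup.mem_inf, Subgroup.mem_inf, ← hmem t htL g]
    refine and_congr_left fun _ => ?_
    constructor
    · intro h
      have := o_s4 hn (zo n a) t⁻¹ (Subgroup.inv_mem _ ht) g h
      rwa [inv_inv] at this
    · intro h
      have := o_s4 hn (zo n a) t ht _ h
      rwa [show t * (t⁻¹ * g * t) * t⁻¹ = g by group] at this
  have hl0 : ∀ g ∈ V, l00 y ψ g = l (t⁻¹ * g * t) := by
    intro g hg
    have h1 := (htV g).1 hg
    rw [hVdef] at h1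
    have h2 := htl _ h1
    rw [show t * (t⁻¹ * g * t) * t⁻¹ = g by group] at h2
    exact h2.symm
  have hE : dl t * el k V l * dl t⁻¹ = el k V (l00 y ψ) := LieP.GI.conj_el (k := k) t htV hl0
  have he : el k V l = dl t⁻¹ * el k V (l00 y ψ) * dl t := by
    rw [← hE]
    rw [show (dl t⁻¹ * (dl t * el k V l * dl t⁻¹) * dl t : Al k (GL (Fin n) F)) =
      (dl t⁻¹ * dl t) * el k V l * (dl t⁻¹ * dl t) by simp only [mul_assoc]]
    rw [LieP.GI.I49_dl_mul', one_mul, mul_one]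
  have hG := LieP.GI.gelfand (k := k) (H := Lo y) (U := V) (by rw [hVdef]; exact inf_le_right)
    (N := {m | m ∈ NO n a ⊓ Lo y}) (fun m hm => hm.2) (τ := tau (py y))
    (fun g h => tau_mul (py y) g h) (fun g => tau_tau (fun i => py_py hn hy i) g)
    (fun g hg => tau_Lo hn hy hg)
    (fun g hg => by rw [hVdef] at hg ⊢; exact tau_V hn hy hg) (l := l00 y ψ)
    (fun u hu v hv => by
      rw [hVdef] at hu hv
      exact l00_lin hn y hψ u hu.1 v hv.1)
    (fun u hu => l00_tau hn hy hψ u (by rw [hVdef] at hu; exact hu))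
    (fun g hg => by rw [hVdef]; exact levi_bruhat_o hn ha hy g hg)
    (fun m hm h => rel_tau hn ha hy hψ ⟨hm.1, hm.2, fun u hu hu' => by
      rw [hVdef] at h
      exact h u hu hu'⟩)
  have hconj : ∀ c ∈ sb k (Lo y), dl t * c * dl t⁻¹ ∈ sb k (Lo y) := by
    intro c hc
    have := LieP.GI.conj_sb (k := k) t⁻¹ (H := Lo y) (K := Lo y)
      (fun g => hmem _ (Subgroup.inv_mem _ htL) g) hc
    rwa [inv_inv] at this
  have h := LieP.GI.I49_ring he (hG _ (hconj b hb) _ (hconj d hd))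
  rw [hVdef] at h
  exact h

end

end OR
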