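import Pool.Agent.OR.QDefs

/-!
# MP_6c3636_al, OR, module P01: two quadratic forms with the same polar form (P1) (helper96)

`F` is finite of characteristic two, so squaring is a bijection (`frobenius`, injective: `a ^ 2 = b ^ 2 → (a + b) ^ 2 = 0`), let `r` be its inverse: `r (a + b) = r a + r b`, `r (c ^ 2 * a) = c * r a`. `f v := r (Q v + Q' v)`: the polar forms cancel, so `f` is additive, and
`f (c • v) = c * f v`. `Sy.exists_rep` (P03 of LieP): `f v = ω v w`. So `Q v + Q' v = ω v w ^ 2`, `Q' v = Q v + ω v w ^ 2`.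
-/

namespace OR

noncomputable section

open Classical

variable {F : Type} [Field F] [Finite F] [CharP F 2] {V : Type} [AddCommGroup V] [Module F V] [FiniteDimensional F V]
  {ω : V →ₗ[F] V →ₗ[F] F} {Q Q' : V → F}

namespace P01_aux

theorem exists_root (a : F) : ∃ b : F, b ^ 2 = a := by
  have hinj : Function.Injective fun b : F => b ^ 2 := by
    intro b c hbc
    have h1 : (b + c) ^ 2 = 0 := by
      have h2 := CharTwo.add_sq b c
      rw [h2]
      have h3 : b ^ 2 = c ^ 2 := hbc
      rw [h3]
      exact CharTwo.add_self_eq_zero _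
    have h4 : b + c = 0 := pow_eq_zero_iff (two_ne_zero) |>.mp h1
    exact CharTwo.add_eq_zero.mp h4
  obtain ⟨b, hb⟩ := (Finite.surjective_of_injective hinj) a
  exact ⟨b, hb⟩

end P01_aux

theorem exists_w (h : QS ω Q) (h' : QS ω Q') : ∃ w, ∀ v, Q' v = Q v + ω v w ^ 2 := by
  have hr : ∀ a : F, ∃ b : F, b ^ 2 = a := P01_aux.exists_root
  choose r hr using hr
  have hru : ∀ a b : F, b ^ 2 = a → b = r a := by
    intro a b hb
    have h1 : (b + r a) ^ 2 = 0 := by
      rw [CharTwo.add_sq, hb, hr]
      exact CharTwo.add_self_eq_zero _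
    exact CharTwo.add_eq_zero.mp (pow_eq_zero_iff (two_ne_zero) |>.mp h1)
  let f : V →ₗ[F] F :=
    { toFun := fun v => r (Q v + Q' v)
      map_add' := by
        intro v w
        symm
        apply hru
        rw [CharTwo.add_sq, hr, hr, h.add, h'.add]
        have h1 := CharTwo.add_self_eq_zero (ω v w)
        calc Q v + Q' v + (Q w + Q' w) = Q v + Q' v + (Q w + Q' w) + (ω v w + ω v w) := by rw [h1, add_zero]
          _ = _ := by ring
      map_smul' := by
        intro c v
        symm
        apply hru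
        rw [RingHom.id_apply, smul_eq_mul, mul_pow, hr, h.smul, h'.smul]
        ring }
  obtain ⟨w, hw⟩ := h.sy.exists_rep f
  refine ⟨w, fun v => ?_⟩
  rw [← hw v]
  show Q' v = Q v + r (Q v + Q' v) ^ 2
  rw [hr, ← add_assoc, CharTwo.add_self_eq_zero, zero_add]

end

end OR
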