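import Pool.Agent.OR.P01
import Pool.Agent.LieP.P14

/-!
# MP_6c3636_al, OR, module P02: the symplectic conjugating element (P1) (helper96)

`V` is finite (`Module.finite_of_finite F` or similar). `LieP.PS.cj_symp` (P14) for `x` (`QI.iso`) gives `g : V ≃ₗ[F] V`, `ω (g v) (g w) = ω v w`, `g (x v) = (x ^ j) (g v)`. `Q' v := Q (g.symm v)` has the same polar form (`QS ω Q'`), so `w` by P01.
`Q' ((x ^ j) v) = Q' v` (`g.symm ((x ^ j) v) = x (g.symm v)`) and `Q ((x ^ j) v) = Q v` (`QI.pow`), so `ω ((x ^ j) v) w ^ 2 = ω v w ^ 2`, `ω ((x ^ j) v) w = ω v w = ω ((x ^ j) v) ((x ^ j) w)`; `x ^ j` is surjective, so `(x ^ j) w = w`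
(nondegeneracy). `j` is prime to `2 ^ k * r` (`j` odd, `j ≡ 1 mod r`), so `x = (x ^ j) ^ i` for some `i` (`j * i ≡ 1 mod 2 ^ k * r`), and `x w = w`.
-/

namespace OR

noncomputable section

open Classical

variable {F : Type} [Field F] [Finite F] [CharP F 2] {V : Type} [AddCommGroup V] [Module F V] [FiniteDimensional F V]
  {ω : V →ₗ[F] V →ₗ[F] F} {Q : V → F}

theorem exists_gw (h : QS ω Q) {x : Module.End F V} (hx : QI Q x) {k r j : ℕ}
    (hxr : x ^ (2 ^ k * r) = 1) (hr : Odd r) (hj : Odd j) (hjr : j ≡ 1 [MOD r]) :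
    ∃ (g : V ≃ₗ[F] V) (w : V), (∀ v u, ω (g v) (g u) = ω v u) ∧ (∀ v, g (x v) = (x ^ j) (g v)) ∧
      x w = w ∧ ∀ v, Q (g.symm v) = Q v + ω v w ^ 2 := by
  have hV : Finite V := Module.finite_of_finite F
  obtain ⟨g, hg1, hg2⟩ := LieP.PS.cj_symp h.sy (hx.iso h) hxr hr hj hjr
  have hg3 : ∀ v u, ω (g.symm v) (g.symm u) = ω v u := by
    intro v u
    rw [← hg1, LinearEquiv.apply_symm_apply, LinearEquiv.apply_symm_apply]
  have h' : QS ω fun v => Q (g.symm v) := by
    refine ⟨h.sy, fun v u => ?_, fun c v => ?_⟩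
    · show Q (g.symm (v + u)) = Q (g.symm v) + Q (g.symm u) + ω v u
      rw [map_add, h.add, hg3]
    · show Q (g.symm (c • v)) = c ^ 2 * Q (g.symm v)
      rw [map_smul, h.smul]
  obtain ⟨w, hw⟩ := exists_w h h'
  have hw' : ∀ v, Q (g.symm v) = Q v + ω v w ^ 2 := hw
  refine ⟨g, w, hg1, hg2, ?_, hw'⟩
  -- `x ^ j` fixes `w`
  have hy : QI Q (x ^ j) := hx.pow j
  have hyg : ∀ v, g.symm ((x ^ j) v) = x (g.symm v) := by
    intro v
    rw [LinearEquiv.symm_apply_eq, hg2, LinearEquiv.apply_symm_apply]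
  have h1 : ∀ v, ω ((x ^ j) v) w = ω v w := by
    intro v
    have e1 := hw' ((x ^ j) v)
    rw [hyg, hx, hw', hy] at e1
    have e2 : ω v w ^ 2 = ω ((x ^ j) v) w ^ 2 := add_left_cancel e1
    exact ((frobenius_inj F 2) e2).symm
  have h2 : (x ^ j) w = w := by
    have hinj := h.inj hy
    have hsur : Function.Surjective (x ^ j) := Finite.surjective_of_injective hinj
    rw [← sub_eq_zero]
    apply h.sy.nd
    intro u
    obtain ⟨v, rfl⟩ := hsur u
    rw [map_sub, LinearMap.sub_apply, h.symm w, h1, hy.iso h, h.symm w v, sub_self]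
  rcases Nat.lt_or_ge 1 (2 ^ k * r) with hN | hN
  · have hcop : Nat.Coprime j (2 ^ k * r) := by
      refine Nat.Coprime.mul_right ?_ ?_
      · exact Nat.Coprime.pow_right k (Nat.coprime_two_right.2 hj)
      · have h3 : Nat.gcd j r = Nat.gcd 1 r := hjr.gcd_eq
        rw [Nat.gcd_one_left] at h3
        exact h3
    obtain ⟨i, -, hi⟩ := Nat.exists_mul_mod_eq_one_of_coprime hcop hN
    have h4 : x ^ (j * i) = x := by
      have h5 := Nat.div_add_mod (j * i) (2 ^ k * r)
      rw [← h5, hi, pow_add, pow_mul, hxr, one_pow, one_mul, pow_one]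
    have h6 : ∀ n, ((x ^ j) ^ n) w = w := by
      intro n
      induction n with
      | zero => rfl
      | succ n ih => rw [pow_succ, Module.End.mul_apply, h2, ih]
    have h7 := h6 i
    rw [← pow_mul, h4] at h7
    exact h7
  · have hN1 : 2 ^ k * r = 1 := by
      have h3 : 0 < 2 ^ k * r := Nat.mul_pos (Nat.pow_pos (by norm_num)) hr.pos
      omega
    rw [hN1, pow_one] at hxr
    rw [hxr]
    rfl

end

end OR
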