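import Pool.Agent.OR.QDefs

/-!
# MP_6c3636_al, OR, module P03: correction by a transvection (P1) (helper96)

`t v := v + (c * ω v w) • w`. `t (t v) = v` (`ω w w = 0`, characteristic two), so `t` is a linear equivalence. `Q (t v) = Q v + (c * ω v w) ^ 2 * Q w + c * ω v w * ω v w = Q v + (c + c ^ 2 * Q w) * ω v w ^ 2 = Q v + ω v w ^ 2 = Q (g.symm v)`.
So `t ∘ g` is an isometry: `Q (t (g v)) = Q (g.symm (g v)) = Q v`. `t (y v) = y (t v)` as `y w = w` and `ω (y v) w = ω (y v) (y w) = ω v w` (`QI.iso`). So `t (g (x v)) = t (y (g v)) = y (t (g v))`.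
-/

namespace OR

noncomputable section

open Classical

variable {F : Type} [Field F] [CharP F 2] {V : Type} [AddCommGroup V] [Module F V] [FiniteDimensional F V]
  {ω : V →ₗ[F] V →ₗ[F] F} {Q : V → F}

theorem cq_of_c (h : QS ω Q) {x y : Module.End F V} (hy : QI Q y) (g : V ≃ₗ[F] V) {w : V} {c : F}
    (hg : ∀ v, g (x v) = y (g v)) (hw : y w = w) (hQ : ∀ v, Q (g.symm v) = Q v + ω v w ^ 2)
    (hc : c + c ^ 2 * Q w = 1) : CQ Q x y := by
  have hww : ω w w = 0 := h.sy.alt w
  let t : V →ₗ[F] V := LinearMap.id + LinearMap.smulRight (ω.flip w) (c • w)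
  have ht : ∀ v, t v = v + (c * ω v w) • w := by
    intro v
    show v + ω v w • (c • w) = _
    rw [smul_smul, mul_comm (ω v w) c]
  have htt : ∀ v, t (t v) = v := by
    intro v
    rw [ht, ht v, map_add, LinearMap.add_apply, map_smul, LinearMap.smul_apply, hww, smul_zero, add_zero,
      add_assoc, ← add_smul, CharTwo.add_self_eq_zero, zero_smul, add_zero]
  have hinv : Function.Involutive t := htt
  let T : V ≃ₗ[F] V := LinearEquiv.ofInvolutive t hinv
  have hT : ∀ v, T v = v + (c * ω v w) • w := ht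
  have hQT : ∀ v, Q (T v) = Q v + ω v w ^ 2 := by
    intro v
    rw [hT, h.add, h.smul, map_smul, smul_eq_mul]
    calc Q v + (c * ω v w) ^ 2 * Q w + c * ω v w * ω v w = Q v + (c + c ^ 2 * Q w) * ω v w ^ 2 := by ring
      _ = _ := by rw [hc, one_mul]
  refine ⟨g ≪≫ₗ T, ?_, ?_⟩
  · intro v
    rw [LinearEquiv.trans_apply, hQT, ← hQ, LinearEquiv.symm_apply_apply]
  · intro v
    rw [LinearEquiv.trans_apply, LinearEquiv.trans_apply, hg, hT, hT, map_add, map_smul, hw]
    have h1 : ω (y (g v)) w = ω (g v) w := by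
      conv_lhs => rw [← hw]
      exact QI.iso h hy _ _
    rw [h1]

end

end OR
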