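import Pool.Agent.OR.QDefs

/-!
# MP_6c3636_al, OR, module P04: the character of the subgroup `{d + d ^ 2 q}` (P2) (helper96)

`F` finite of characteristic two, `q ≠ 0`. `φ d := d + d ^ 2 * q` is additive, `φ d = 0 ↔ d = 0 ∨ d = q⁻¹`, so all fibres over the image `A` have two elements (`card_fib`) and `2 * #A = #F`: the index of `A` in `F` is two, so
`c + d ∈ A ↔ (c ∈ A ↔ d ∈ A)` (`AddSubgroup.add_mem_iff_of_index_two`), which is `chq_add`. `exists_neg`: the index is not one.
-/

namespace OR

noncomputable section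

open Classical

variable {F : Type} [Field F]

/-- `1` on `{d + d ^ 2 * q}` and `-1` outside -/
def chq (q c : F) : ℤ := if ∃ d, d + d ^ 2 * q = c then 1 else -1

theorem chq_sq (q c : F) : chq q c * chq q c = 1 := by
  unfold chq
  split_ifs <;> norm_num

theorem chq_self (q d : F) : chq q (d + d ^ 2 * q) = 1 := by
  unfold chq
  rw [if_pos ⟨d, rfl⟩]

theorem chq_eq_one_iff {q c : F} : chq q c = 1 ↔ ∃ d, d + d ^ 2 * q = c := by
  unfold chq
  constructor
  · intro h
    by_contra hcon
    rw [if_neg hcon] at h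
    norm_num at h
  · intro h
    rw [if_pos h]

theorem chq_ne_one {q c : F} (h : chq q c ≠ 1) : chq q c = -1 := by
  have h1 : ¬ ∃ d, d + d ^ 2 * q = c := fun h' => h (chq_eq_one_iff.2 h')
  unfold chq
  rw [if_neg h1]

variable [Fintype F] [CharP F 2]

namespace P04_aux

/-- the additive map -/
def ph (q : F) : F →+ F where
  toFun d := d + d ^ 2 * q
  map_zero' := by ring
  map_add' a b := by
    rw [CharTwo.add_sq]
    ring

omit [Fintype F] in
theorem ph_apply (q d : F) : ph q d = d + d ^ 2 * q := rfl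

omit [Fintype F] in
theorem ker_iff {q : F} (hq : q ≠ 0) (d : F) : ph q d = 0 ↔ d = 0 ∨ d = q⁻¹ := by
  rw [ph_apply]
  constructor
  · intro h
    by_cases hd : d = 0
    · exact Or.inl hd
    · right
      have h1 : d * (1 + d * q) = 0 := by
        rw [← h]
        ring
      rcases mul_eq_zero.1 h1 with h2 | h2
      · exact absurd h2 hd
      · have h3 : d * q = 1 := by
          have h4 := CharTwo.add_eq_zero.1 h2
          exact h4.symm
        exact eq_inv_of_mul_eq_one_left h3
  · rintro (rfl | rfl)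
    · ring
    · have h1 : q⁻¹ ^ 2 * q = q⁻¹ := by
        field_simp
      rw [h1]
      exact CharTwo.add_self_eq_zero _

theorem index_two {q : F} (hq : q ≠ 0) : (ph q).range.index = 2 := by
  have h1 : Nat.card (ph q).ker = 2 := by
    have h2 : ((ph q).ker : Set F) = {0, q⁻¹} := by
      ext d
      rw [SetLike.mem_coe, AddMonoidHom.mem_ker, ker_iff hq]
      rfl
    have h3 : Nat.card (ph q).ker = Set.ncard ((ph q).ker : Set F) := rfl
    rw [h3, h2]
    exact Set.ncard_pair (inv_ne_zero hq).symm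
  have h2 := (ph q).ker.card_mul_index
  rw [AddSubgroup.index_ker, h1] at h2
  have h3 := (ph q).range.card_mul_index
  rw [← h2, mul_comm] at h3
  exact Nat.eq_of_mul_eq_mul_right Nat.card_pos h3

omit [Fintype F] in
theorem mem_range {q c : F} : c ∈ (ph q).range ↔ chq q c = 1 := by
  rw [chq_eq_one_iff]
  rfl

end P04_aux

open P04_aux

theorem chq_add {q : F} (hq : q ≠ 0) (c d : F) : chq q (c + d) = chq q c * chq q d := by
  have h1 : c + d ∈ (ph q).range ↔ (c ∈ (ph q).range ↔ d ∈ (ph q).range) :=
    AddSubgroup.add_mem_iff_of_index_two (index_two hq)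
  rw [mem_range, mem_range, mem_range] at h1
  by_cases hc : chq q c = 1
  · by_cases hd : chq q d = 1
    · rw [hc, hd, mul_one]
      exact h1.2 (by rw [hc, hd])
    · rw [hc, one_mul, chq_ne_one hd]
      apply chq_ne_one
      intro h
      exact hd ((h1.1 h).1 hc)
  · by_cases hd : chq q d = 1
    · rw [hd, mul_one, chq_ne_one hc]
      apply chq_ne_one
      intro h
      exact hc ((h1.1 h).2 hd)
    · rw [h1.2 ⟨fun h => absurd h hc, fun h => absurd h hd⟩, chq_ne_one hc, chq_ne_one hd]
      norm_num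

theorem exists_neg {q : F} (hq : q ≠ 0) : ∃ c, chq q c = -1 := by
  by_contra hcon
  have h1 : (ph q).range = ⊤ := by
    rw [eq_top_iff]
    intro c _
    rw [mem_range]
    by_contra h
    exact hcon ⟨c, chq_ne_one h⟩
  have h2 := index_two hq
  rw [h1, AddSubgroup.index_top] at h2
  exact absurd h2 (by norm_num)

theorem card_fib {q : F} (hq : q ≠ 0) {c : F} (hc : chq q c = 1) :
    (Finset.univ.filter fun d : F => d + d ^ 2 * q = c).card = 2 := by
  obtain ⟨d₀, hd₀⟩ := chq_eq_one_iff.1 hc
  have h1 : (Finset.univ.filter fun d : F => d + d ^ 2 * q = c) = {d₀, d₀ + q⁻¹} := by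
    ext d
    rw [Finset.mem_filter, Finset.mem_insert, Finset.mem_singleton]
    have h2 : (d + d ^ 2 * q = c) ↔ ph q (d - d₀) = 0 := by
      rw [map_sub, ph_apply, ph_apply, hd₀, sub_eq_zero]
    rw [h2, ker_iff hq]
    constructor
    · rintro ⟨_, h | h⟩
      · exact Or.inl (sub_eq_zero.1 h)
      · right
        rw [← h]
        ring
    · rintro (rfl | rfl)
      · exact ⟨Finset.mem_univ _, Or.inl (sub_self _)⟩
      · exact ⟨Finset.mem_univ _, Or.inr (by ring)⟩
  rw [h1]
  apply Finset.card_pair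
  intro h
  have h2 := left_eq_add.1 h
  exact inv_ne_zero hq h2

theorem sum_chq {q : F} (hq : q ≠ 0) : ∑ c : F, chq q c = 0 := by
  obtain ⟨c₀, hc₀⟩ := exists_neg hq
  have h1 : ∑ c : F, chq q (c + c₀) = ∑ c : F, chq q c := Equiv.sum_comp (Equiv.addRight c₀) (chq q)
  have h2 : ∑ c : F, chq q (c + c₀) = -∑ c : F, chq q c := by
    rw [← Finset.sum_neg_distrib]
    refine Finset.sum_congr rfl fun c _ => ?_
    rw [chq_add hq, hc₀]
    ring
  rw [h1] at h2
  omega

end

end OR
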