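import Pool.Agent.OR.P04

/-!
# MP_6c3636_al, OR, module P05: the Gauss sum (P2) (helper96)

`q := Q w ≠ 0`, `H₁ := {v | ω v w = 1}`, `H₀ := {v | ω v w = 0}`, `χ := chq q`, `S := ∑_{v ∈ H₁} χ (Q v)`. `S * S = ∑_{v, v' ∈ H₁} χ (Q v + Q v') = ∑_{v, v'} χ (Q (v + v') + ω v v')` (`chq_add`, `QS.add`), with `k := v + v' ∈ H₀`, `v' = v + k`, `ω v v' = ω v k`:
`S * S = ∑_{k ∈ H₀} χ (Q k) * ∑_{v ∈ H₁} χ (ω v k)`. (1) If `k ∈ H₀` is not in `F w` then `ω · k` is not a multiple of `ω · w`, so there is `h` with `ω h w = 0`, `ω h k = 1` [D01-like: `{w}⊥ ≤ {k}⊥` would give `k ∈ F w`]; choose `c₀` with `χ c₀ = -1`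
(`exists_neg`); the translation `v ↦ v + c₀ • h` of `H₁` changes the sign of `χ (ω v k)`, so the inner sum is `0`. (2) If `k = c • w` then `ω v k = c` for `v ∈ H₁`, `Q k = c ^ 2 * q`, so `χ (Q k) * χ (ω v k) = χ (c + c ^ 2 * q) = 1` (`chq_self`). So
`S * S = #H₁ * #F` (`c ↦ c • w` is injective as `w ≠ 0`), and `H₁` is not empty (nondegeneracy, `w ≠ 0`). So `S ≠ 0`.
(Here: every term of the sum over `k` is nonnegative and the term of `k = 0` is `#H₁ > 0`.)
-/

namespace OR

noncomputable section

open Classical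

variable {F : Type} [Field F] [Fintype F] [CharP F 2] {V : Type} [AddCommGroup V] [Module F V] [FiniteDimensional F V]
  [Fintype V] {ω : V →ₗ[F] V →ₗ[F] F} {Q : V → F}

namespace P05_aux

/-- the inner sum vanishes outside the line of `w` -/
theorem inner_zero {q : F} (hq : q ≠ 0) {w k h₀ : V} (h1 : ω h₀ w = 0) (h2 : ω h₀ k = 1) :
    (∑ v : V, if ω v w = 1 then chq q (ω v k) else 0) = 0 := by
  obtain ⟨c, hc⟩ := exists_neg hq
  have h3 : (∑ v : V, if ω v w = 1 then chq q (ω v k) else 0) =
      ∑ v : V, -(if ω v w = 1 then chq q (ω v k) else 0) := by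
    rw [← Equiv.sum_comp (Equiv.addRight (c • h₀))]
    refine Finset.sum_congr rfl fun v _ => ?_
    have e1 : ω ((Equiv.addRight (c • h₀)) v) w = ω v w := by
      rw [Equiv.coe_addRight, map_add, LinearMap.add_apply, map_smul, LinearMap.smul_apply, h1,
        smul_zero, add_zero]
    have e2 : ω ((Equiv.addRight (c • h₀)) v) k = ω v k + c := by
      rw [Equiv.coe_addRight, map_add, LinearMap.add_apply, map_smul, LinearMap.smul_apply, h2,
        smul_eq_mul, mul_one]
    rw [e1, e2, chq_add hq, hc]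
    split_ifs
    · ring
    · ring
  rw [Finset.sum_neg_distrib] at h3
  linarith

/-- the square of the Gauss sum -/
theorem sq_sum (h : QS ω Q) {w : V} {q : F} (hq : q ≠ 0) :
    (∑ v : V, if ω v w = 1 then chq q (Q v) else 0) * (∑ v : V, if ω v w = 1 then chq q (Q v) else 0) =
      ∑ k : V, if ω k w = 0 then chq q (Q k) * ∑ v : V, (if ω v w = 1 then chq q (ω v k) else 0) else 0 := by
  have h1 : ∀ v : V, (∑ v' : V, if ω v' w = 1 then chq q (Q v') else 0) =
      ∑ k : V, if ω (v + k) w = 1 then chq q (Q (v + k)) else 0 := by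
    intro v
    rw [← Equiv.sum_comp (Equiv.addLeft v)]
    rfl
  rw [Finset.sum_mul]
  have h2 : ∀ v : V, (if ω v w = 1 then chq q (Q v) else 0) * (∑ v' : V, if ω v' w = 1 then chq q (Q v') else 0) =
      ∑ k : V, if ω k w = 0 then chq q (Q k) * (if ω v w = 1 then chq q (ω v k) else 0) else 0 := by
    intro v
    rw [h1 v, Finset.mul_sum]
    refine Finset.sum_congr rfl fun k _ => ?_
    by_cases hv : ω v w = 1
    · have e1 : ω (v + k) w = 1 ↔ ω k w = 0 := by
        rw [map_add, LinearMap.add_apply, hv]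
        constructor
        · intro h4
          have : (1 : F) + ω k w = 1 + 0 := by rw [h4, add_zero]
          exact add_left_cancel this
        · intro h4
          rw [h4, add_zero]
      rw [if_pos hv, if_pos hv]
      by_cases hk : ω k w = 0
      · rw [if_pos hk, if_pos (e1.2 hk), h.add, chq_add hq, chq_add hq]
        have := chq_sq q (Q v)
        calc chq q (Q v) * (chq q (Q v) * chq q (Q k) * chq q (ω v k))
            = (chq q (Q v) * chq q (Q v)) * (chq q (Q k) * chq q (ω v k)) := by ring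
          _ = _ := by rw [this, one_mul]
      · rw [if_neg hk, if_neg (fun h4 => hk (e1.1 h4)), mul_zero]
    · rw [if_neg hv, if_neg hv, zero_mul, mul_zero, ite_self]
  rw [Finset.sum_congr rfl fun v _ => h2 v, Finset.sum_comm]
  refine Finset.sum_congr rfl fun k _ => ?_
  by_cases hk : ω k w = 0
  · simp only [if_pos hk]
    rw [Finset.mul_sum]
  · simp only [if_neg hk]
    exact Finset.sum_const_zero

end P05_aux

open P05_aux

theorem gauss (h : QS ω Q) {w : V} (hw : Q w ≠ 0) :
    (∑ v : V, if ω v w = 1 then chq (Q w) (Q v) else 0) ≠ 0 := by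
  have hw0 : w ≠ 0 := by
    rintro rfl
    exact hw h.zero
  obtain ⟨u, hu⟩ : ∃ u, ω u w = 1 := by
    by_contra hno
    apply hw0
    refine LieP.PS.Sy.nd' h.sy _ fun v => ?_
    by_contra hv
    exact hno ⟨(ω v w)⁻¹ • v, by
      rw [map_smul, LinearMap.smul_apply, smul_eq_mul, inv_mul_cancel₀ hv]⟩
  have line : ∀ c : F, 0 < chq (Q w) (Q (c • w)) *
      ∑ v : V, (if ω v w = 1 then chq (Q w) (ω v (c • w)) else 0) := by
    intro c
    rw [Finset.mul_sum]
    have e : ∀ v : V, chq (Q w) (Q (c • w)) * (if ω v w = 1 then chq (Q w) (ω v (c • w)) else 0) =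
        if ω v w = 1 then 1 else 0 := by
      intro v
      by_cases hv : ω v w = 1
      · rw [if_pos hv, if_pos hv, h.smul, map_smul, smul_eq_mul, hv, mul_one, mul_comm,
          ← chq_add hw, chq_self]
      · rw [if_neg hv, if_neg hv, mul_zero]
    rw [Finset.sum_congr rfl fun v _ => e v]
    refine Finset.sum_pos' (fun v _ => ?_) ⟨u, Finset.mem_univ _, ?_⟩
    · split_ifs
      · exact zero_le_one
      · exact le_refl _
    · rw [if_pos hu]
      exact zero_lt_one
  intro hS
  have hSS := sq_sum (w := w) h hw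
  rw [hS, mul_zero] at hSS
  have hpos : 0 < ∑ k : V, if ω k w = 0 then chq (Q w) (Q k) *
      ∑ v : V, (if ω v w = 1 then chq (Q w) (ω v k) else 0) else 0 := by
    refine Finset.sum_pos' (fun k _ => ?_) ⟨0, Finset.mem_univ _, ?_⟩
    · by_cases hk : ω k w = 0
      · rw [if_pos hk]
        by_cases hl : ∃ c : F, k = c • w
        · obtain ⟨c, rfl⟩ := hl
          exact (line c).le
        · obtain ⟨h₀, h1, h2⟩ : ∃ h₀, ω h₀ w = 0 ∧ ω h₀ k = 1 := by
            by_contra hno
            apply hl
            refine ⟨ω u k, ?_⟩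
            rw [← sub_eq_zero]
            refine LieP.PS.Sy.nd' h.sy _ fun v => ?_
            have h3 : ω (v - ω v w • u) w = 0 := by
              rw [map_sub, LinearMap.sub_apply, map_smul, LinearMap.smul_apply, hu, smul_eq_mul,
                mul_one, sub_self]
            have h4 : ω (v - ω v w • u) k = 0 := by
              by_contra h5
              exact hno ⟨(ω (v - ω v w • u) k)⁻¹ • (v - ω v w • u), by
                rw [map_smul, LinearMap.smul_apply, h3, smul_zero], by
                rw [map_smul, LinearMap.smul_apply, smul_eq_mul, inv_mul_cancel₀ h5]⟩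
            rw [map_sub, LinearMap.sub_apply, map_smul, LinearMap.smul_apply, smul_eq_mul] at h4
            rw [map_sub, map_smul, smul_eq_mul, mul_comm]
            exact h4
          rw [inner_zero hw h1 h2, mul_zero]
      · rw [if_neg hk]
    · rw [if_pos (by rw [map_zero, LinearMap.zero_apply])]
      have := line 0
      rwa [zero_smul] at this
  rw [← hSS] at hpos
  exact lt_irrefl _ hpos

end

end OR
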