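import Pool.Agent.OR.P05

/-!
# MP_6c3636_al, OR, module P06: the equation c + c^2 Q(w) = 1 (P2) (helper96)

If `Q w = 0` take `c = 1`. Let `q := Q w ≠ 0` and suppose `chq q 1 ≠ 1`, so `chq q 1 = -1`. `H_s := {v | ω v w = s}`, `N t := #{v ∈ H₁ | Q v = t}`. (a) `N 0 = N 1`: `#{v | Q v = 0} = #{v | Q (g v) = 0} = #{v | Q v = ω v w ^ 2}`; split by `s = ω v w`: for `s = 0` the two
sets agree, for `s ≠ 0` the map `v ↦ s⁻¹ • v` is a bijection from `{v ∈ H_s | Q v = 0}` to `{v ∈ H₁ | Q v = 0}` and from `{v ∈ H_s | Q v = s ^ 2}` to `{v ∈ H₁ | Q v = 1}`. So `(#F - 1) * N 0 = (#F - 1) * N 1`, and `#F > 1`. [Or directly: the map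
`v ↦ ((ω v w)⁻¹ • v, ω v w)`.] (b) `#F * N t = 2 * #{v ∈ H₁ | chq q (Q v) = chq q t}`: count the pairs `(v, c)`, `v ∈ H₁`, `c : F`, with `Q (v + c • w) = t`. `(v, c) ↦ (v + c • w, c)` shows that the number is `N t * #F`. `Q (v + c • w) = Q v + c + c ^ 2 * q`, so for
`v ∈ H₁` the number of `c` is `2` if `chq q (Q v + t) = 1` (`card_fib`) and `0` otherwise, and `chq q (Q v + t) = chq q (Q v) * chq q t` (`chq_add`). (c) So `#{v ∈ H₁ | chq q (Q v) = 1} = #F * N 0 / 2 = #F * N 1 / 2 = #{v ∈ H₁ | chq q (Q v) = -1}`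
(`chq q 0 = 1`), and the sum of `gauss` (P05) is zero, contradiction. So `chq q 1 = 1`, which gives `c`.
-/

namespace OR

noncomputable section

open Classical

variable {F : Type} [Field F] [Finite F] [CharP F 2] {V : Type} [AddCommGroup V] [Module F V] [FiniteDimensional F V]
  {ω : V →ₗ[F] V →ₗ[F] F} {Q : V → F}

namespace P06_aux

variable [Fintype F] [Fintype V]

omit [Finite F] [CharP F 2] [FiniteDimensional F V] in
/-- scaling -/
theorem scale (h : QS ω Q) (w : V) (a : F) :
    (Finset.univ.filter fun v : V => Q v = a * ω v w ^ 2 ∧ ω v w ≠ 0).card =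
      (Finset.univ.filter fun s : F => s ≠ 0).card *
        (Finset.univ.filter fun v : V => ω v w = 1 ∧ Q v = a).card := by
  rw [← Finset.card_product]
  refine Finset.card_nbij' (fun v => (ω v w, (ω v w)⁻¹ • v)) (fun p => p.1 • p.2) ?_ ?_ ?_ ?_
  · intro v hv
    simp only [Finset.coe_filter, Finset.mem_univ, true_and, Set.mem_ofPred_eq] at hv
    simp only [Finset.coe_product, Finset.coe_filter, Finset.mem_univ, true_and, Set.mem_prod, Set.mem_ofPred_eq]
    refine ⟨hv.2, ?_, ?_⟩
    · rw [map_smul, LinearMap.smul_apply, smul_eq_mul, inv_mul_cancel₀ hv.2]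
    · rw [h.smul, hv.1, inv_pow]
      field_simp [hv.2]
  · rintro ⟨t, v⟩ hv
    simp only [Finset.coe_product, Finset.coe_filter, Finset.mem_univ, true_and, Set.mem_prod,
      Set.mem_ofPred_eq] at hv
    simp only [Finset.coe_filter, Finset.mem_univ, true_and, Set.mem_ofPred_eq]
    obtain ⟨h1, h2, h3⟩ := hv
    rw [map_smul, LinearMap.smul_apply, smul_eq_mul, h2, h.smul, h3, mul_one]
    exact ⟨mul_comm _ _, h1⟩
  · intro v hv
    simp only [Finset.coe_filter, Finset.mem_univ, true_and, Set.mem_ofPred_eq] at hv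
    simp only
    rw [smul_smul, mul_inv_cancel₀ hv.2, one_smul]
  · rintro ⟨t, v⟩ hv
    simp only [Finset.coe_product, Finset.coe_filter, Finset.mem_univ, true_and, Set.mem_prod,
      Set.mem_ofPred_eq] at hv
    obtain ⟨h1, h2, h3⟩ := hv
    simp only
    rw [map_smul, LinearMap.smul_apply, smul_eq_mul, h2, mul_one, smul_smul, inv_mul_cancel₀ h1, one_smul]

omit [Finite F] [FiniteDimensional F V] in
/-- step (a) -/
theorem stepA (h : QS ω Q) {w : V} (g : V ≃ V) (hQ : ∀ v, Q (g v) = Q v + ω v w ^ 2) :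
    (Finset.univ.filter fun v : V => ω v w = 1 ∧ Q v = 0).card =
      (Finset.univ.filter fun v : V => ω v w = 1 ∧ Q v = 1).card := by
  have h0 := scale h w 0
  have h1 := scale h w 1
  have hsplit : ∀ a : F, (Finset.univ.filter fun v : V => Q v = a * ω v w ^ 2).card =
      (Finset.univ.filter fun v : V => Q v = 0 ∧ ω v w = 0).card +
        (Finset.univ.filter fun v : V => Q v = a * ω v w ^ 2 ∧ ω v w ≠ 0).card := by
    intro a
    rw [← Finset.card_filter_add_card_filter_not (s := Finset.univ.filter fun v : V => Q v = a * ω v w ^ 2)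
      (fun v => ω v w = 0), Finset.filter_filter, Finset.filter_filter]
    congr 2
    ext v
    simp only [Finset.mem_filter, Finset.mem_univ, true_and]
    constructor
    · rintro ⟨h2, h3⟩
      rw [h3] at h2
      refine ⟨by rw [h2]; ring, h3⟩
    · rintro ⟨h2, h3⟩
      refine ⟨by rw [h2, h3]; ring, h3⟩
  have hg : (Finset.univ.filter fun v : V => Q v = 0 * ω v w ^ 2).card =
      (Finset.univ.filter fun v : V => Q v = 1 * ω v w ^ 2).card := by
    symm
    refine Finset.card_nbij' (fun v => g v) (fun v => g.symm v) ?_ ?_ ?_ ?_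
    · intro v hv
      simp only [Finset.coe_filter, Finset.mem_univ, true_and, Set.mem_ofPred_eq] at hv ⊢
      rw [hQ, hv, one_mul, CharTwo.add_self_eq_zero, zero_mul]
    · intro v hv
      simp only [Finset.coe_filter, Finset.mem_univ, true_and, Set.mem_ofPred_eq] at hv ⊢
      have h2 := hQ (g.symm v)
      rw [Equiv.apply_symm_apply, hv, zero_mul] at h2
      rw [one_mul]
      have h3 := congrArg (fun t => t + ω (g.symm v) w ^ 2) h2
      rw [zero_add, add_assoc, CharTwo.add_self_eq_zero, add_zero] at h3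
      exact h3.symm
    · intro v _
      exact g.symm_apply_apply v
    · intro v _
      exact g.apply_symm_apply v
  have h2 := hsplit 0
  have h3 := hsplit 1
  have h4 : (Finset.univ.filter fun s : F => s ≠ 0).card *
        (Finset.univ.filter fun v : V => ω v w = 1 ∧ Q v = 0).card =
      (Finset.univ.filter fun s : F => s ≠ 0).card *
        (Finset.univ.filter fun v : V => ω v w = 1 ∧ Q v = 1).card := by
    rw [← h0, ← h1]
    omega
  refine Nat.eq_of_mul_eq_mul_left ?_ h4
  refine Finset.card_pos.2 ⟨1, ?_⟩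
  simp only [Finset.mem_filter, Finset.mem_univ, true_and]
  exact one_ne_zero

omit [Finite F] [FiniteDimensional F V] in
/-- step (b) -/
theorem stepB (h : QS ω Q) {w : V} (hw : Q w ≠ 0) (t : F) :
    Fintype.card F * (Finset.univ.filter fun v : V => ω v w = 1 ∧ Q v = t).card =
      2 * (Finset.univ.filter fun v : V => ω v w = 1 ∧ chq (Q w) (Q v + t) = 1).card := by
  have hww : ω w w = 0 := h.sy.alt w
  have hA : ((Finset.univ.filter fun v : V => ω v w = 1) ×ˢ (Finset.univ : Finset F) |>.filter
      fun p => Q (p.1 + p.2 • w) = t).card =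
      (Finset.univ.filter fun v : V => ω v w = 1 ∧ Q v = t).card * Fintype.card F := by
    rw [← Finset.card_univ, ← Finset.card_product]
    refine Finset.card_nbij' (fun p => (p.1 + p.2 • w, p.2)) (fun p => (p.1 - p.2 • w, p.2)) ?_ ?_ ?_ ?_
    · rintro ⟨v, c⟩ hv
      simp only [Finset.coe_filter, Finset.mem_product, Finset.mem_filter, Finset.mem_univ, true_and, and_true,
        Set.mem_ofPred_eq] at hv
      simp only [Finset.coe_product, Finset.coe_filter, Finset.mem_univ, true_and, Finset.coe_univ, Set.mem_prod,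
        Set.mem_ofPred_eq, Set.mem_univ, and_true]
      refine ⟨?_, hv.2⟩
      rw [map_add, LinearMap.add_apply, map_smul, LinearMap.smul_apply, hww, smul_zero, add_zero, hv.1]
    · rintro ⟨v, c⟩ hv
      simp only [Finset.coe_product, Finset.coe_filter, Finset.mem_univ, true_and, Finset.coe_univ, Set.mem_prod,
        Set.mem_ofPred_eq, Set.mem_univ, and_true] at hv
      simp only [Finset.coe_filter, Finset.mem_product, Finset.mem_filter, Finset.mem_univ, true_and, and_true,
        Set.mem_ofPred_eq]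
      refine ⟨?_, ?_⟩
      · rw [map_sub, LinearMap.sub_apply, map_smul, LinearMap.smul_apply, hww, smul_zero, sub_zero, hv.1]
      · rw [sub_add_cancel, hv.2]
    · rintro ⟨v, c⟩ _
      simp only [add_sub_cancel_right]
    · rintro ⟨v, c⟩ _
      simp only [sub_add_cancel]
  have hB : ((Finset.univ.filter fun v : V => ω v w = 1) ×ˢ (Finset.univ : Finset F) |>.filter
      fun p => Q (p.1 + p.2 • w) = t).card =
      2 * (Finset.univ.filter fun v : V => ω v w = 1 ∧ chq (Q w) (Q v + t) = 1).card := by
    rw [Finset.card_filter, Finset.sum_product]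
    have h1 : ∀ v ∈ Finset.univ.filter (fun v : V => ω v w = 1),
        (∑ c : F, if Q (v + c • w) = t then 1 else 0) = if chq (Q w) (Q v + t) = 1 then 2 else 0 := by
      intro v hv
      rw [← Finset.card_filter]
      simp only [Finset.mem_filter, Finset.mem_univ, true_and] at hv
      have h2 : (Finset.univ.filter fun c : F => Q (v + c • w) = t) =
          Finset.univ.filter fun c : F => c + c ^ 2 * Q w = Q v + t := by
        ext c
        simp only [Finset.mem_filter, Finset.mem_univ, true_and]
        rw [h.add, h.smul, map_smul, hv, smul_eq_mul, mul_one]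
        have h3 : ∀ a b : F, a = b ↔ a + b = 0 := by
          intro a b
          rw [← CharTwo.sub_eq_add, sub_eq_zero]
        rw [h3, h3 (c + c ^ 2 * Q w)]
        have h4 : Q v + c ^ 2 * Q w + c + t = c + c ^ 2 * Q w + (Q v + t) := by ring
        rw [h4]
      rw [h2]
      by_cases h5 : chq (Q w) (Q v + t) = 1
      · rw [if_pos h5, card_fib hw h5]
      · rw [if_neg h5, Finset.card_eq_zero, Finset.filter_eq_empty_iff]
        intro c _ h6
        exact h5 (chq_eq_one_iff.2 ⟨c, h6⟩)
    rw [Finset.sum_congr rfl h1, Finset.sum_ite, Finset.sum_const_zero, add_zero, Finset.sum_const,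
      smul_eq_mul, Finset.filter_filter, mul_comm]
  rw [mul_comm, ← hA, hB]

end P06_aux

theorem exists_c (h : QS ω Q) {w : V} (g : V ≃ V) (hQ : ∀ v, Q (g v) = Q v + ω v w ^ 2) :
    ∃ c : F, c + c ^ 2 * Q w = 1 := by
  have : Fintype F := Fintype.ofFinite F
  have : Finite V := Module.finite_of_finite F
  have : Fintype V := Fintype.ofFinite V
  by_cases hw : Q w = 0
  · exact ⟨1, by rw [hw]; ring⟩
  by_contra hne
  have h1 : chq (Q w) 1 = -1 := chq_ne_one fun h2 => hne (chq_eq_one_iff.1 h2)
  have h0 : chq (Q w) 0 = 1 := by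
    have h2 := chq_self (Q w) 0
    have h3 : (0 : F) + 0 ^ 2 * Q w = 0 := by ring
    rwa [h3] at h2
  have hA := P06_aux.stepA h g hQ
  have hB0 := P06_aux.stepB h hw 0
  have hB1 := P06_aux.stepB h hw 1
  have h2 : (Finset.univ.filter fun v : V => ω v w = 1 ∧ chq (Q w) (Q v + 0) = 1).card =
      (Finset.univ.filter fun v : V => ω v w = 1 ∧ chq (Q w) (Q v + 1) = 1).card := by
    rw [hA] at hB0
    omega
  apply gauss h hw
  rw [← Finset.sum_filter,
    ← Finset.sum_filter_add_sum_filter_not _ (fun v => chq (Q w) (Q v) = 1), Finset.filter_filter,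
    Finset.filter_filter]
  have h3 : (∑ v ∈ Finset.univ.filter (fun v : V => ω v w = 1 ∧ chq (Q w) (Q v) = 1), chq (Q w) (Q v)) =
      ((Finset.univ.filter fun v : V => ω v w = 1 ∧ chq (Q w) (Q v + 0) = 1).card : ℤ) := by
    rw [Finset.card_eq_sum_ones, Nat.cast_sum]
    refine Finset.sum_congr ?_ ?_
    · ext v
      simp only [Finset.mem_filter, Finset.mem_univ, true_and, add_zero]
    · intro v hv
      simp only [Finset.mem_filter, Finset.mem_univ, true_and, add_zero] at hv
      rw [hv.2, Nat.cast_one]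
  have h4 : (∑ v ∈ Finset.univ.filter (fun v : V => ω v w = 1 ∧ ¬ chq (Q w) (Q v) = 1), chq (Q w) (Q v)) =
      -((Finset.univ.filter fun v : V => ω v w = 1 ∧ chq (Q w) (Q v + 1) = 1).card : ℤ) := by
    rw [Finset.card_eq_sum_ones, Nat.cast_sum, ← Finset.sum_neg_distrib]
    refine Finset.sum_congr ?_ ?_
    · ext v
      simp only [Finset.mem_filter, Finset.mem_univ, true_and]
      rw [chq_add hw, h1]
      constructor
      · rintro ⟨h5, h6⟩
        refine ⟨h5, ?_⟩
        rw [chq_ne_one h6]
        norm_num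
      · rintro ⟨h5, h6⟩
        refine ⟨h5, fun h7 => ?_⟩
        rw [h7] at h6
        norm_num at h6
    · intro v hv
      simp only [Finset.mem_filter, Finset.mem_univ, true_and] at hv
      have h5 : chq (Q w) (Q v) ≠ 1 := by
        intro h7
        have h6 := hv.2
        rw [chq_add hw, h1, h7] at h6
        norm_num at h6
      rw [chq_ne_one h5, Nat.cast_one]
  rw [h3, h4, h2]
  ring

end

end OR
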