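import Pool.Agent.OR.P02
import Pool.Agent.OR.P03
import Pool.Agent.OR.P06

/-!
# MP_6c3636_al, OR, module P07: odd powers are conjugate by isometries (P1) (helper96)

P02 `exists_gw`, P06 `exists_c` for the bijection `g.symm`, P03 `cq_of_c` for `y = x ^ j` (`QI.pow`, `(x ^ j) w = w` from `x w = w`).
-/

namespace OR

noncomputable section

open Classical

variable {F : Type} [Field F] [Finite F] [CharP F 2] {V : Type} [AddCommGroup V] [Module F V] [FiniteDimensional F V]
  {ω : V →ₗ[F] V →ₗ[F] F} {Q : V → F}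

omit [Finite F] [CharP F 2] [FiniteDimensional F V] in
theorem P07_aux.pow_fix {x : Module.End F V} {w : V} (hxw : x w = w) (j : ℕ) : (x ^ j) w = w := by
  induction j with
  | zero => rw [pow_zero, Module.End.one_apply]
  | succ j ih => rw [pow_succ, Module.End.mul_apply, hxw, ih]

theorem cq_pow (h : QS ω Q) {x : Module.End F V} (hx : QI Q x) {k r j : ℕ}
    (hxr : x ^ (2 ^ k * r) = 1) (hr : Odd r) (hj : Odd j) (hjr : j ≡ 1 [MOD r]) : CQ Q x (x ^ j) := by
  obtain ⟨g, w, -, hgx, hxw, hQ⟩ := exists_gw h hx hxr hr hj hjr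
  obtain ⟨c, hc⟩ := exists_c h g.symm.toEquiv (fun v => hQ v)
  exact cq_of_c h (QI.pow hx j) g hgx (P07_aux.pow_fix hxw j) hQ hc

end

end OR
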