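import Pool.Agent.OR.QDefs

/-!
# MP_6c3636_al, OR, module P08: a nondegenerate invariant form and no fixed vector (P3) (helper96)

`β` is a bilinear form on `R` (not symmetric) with trivial left kernel, `s` preserves `β` and has no fixed vector, characteristic two: the dimension `d` is even. Proof: `s` is injective (`s u = 0` gives `β u v = β (s u) (s v) = 0`), so bijective.
In a basis: `M` the matrix of `β` (`β u v = uᵀ M v`), `det M ≠ 0`, `S` the matrix of `s`: `Sᵀ * M * S = M`. So `Sᵀ = M * S⁻¹ * M⁻¹`, and with `p := S.charpoly = Sᵀ.charpoly`: `p = (M * S⁻¹ * M⁻¹).charpoly = (S⁻¹).charpoly`.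
`det (S) * det (X - S⁻¹) = det (X * S - 1) = det (1 - X * S)` (`-1 = 1`) `= S.charpolyRev = p.reverse` (`Matrix.reverse_charpoly`; `p.coeff 0 ≠ 0` as `S` is invertible). So `C c * p = p.reverse`, `c := det S ≠ 0`, i.e. `c * p.coeff i = p.coeff (d - i)` for `i ≤ d`
(`p` is monic of degree `d`, `Polynomial.coeff_reverse`, `revAt`). `i = 0, d`: `c * p.coeff 0 = 1`, `c = p.coeff 0`, so `c ^ 2 = 1`, `c = 1` in characteristic two. `p.eval 1 = det (1 - S) ≠ 0` (no fixed vector). If `d` is odd then
`p.eval 1 = ∑_{i ≤ d} p.coeff i = 0` by the involution `i ↦ d - i` without fixed point (`Finset.sum_involution`), contradiction.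
-/

namespace OR

noncomputable section

open Classical

theorem even_of_form {F : Type} [Field F] [CharP F 2] {R : Type} [AddCommGroup R] [Module F R]
    [FiniteDimensional F R] (β : R →ₗ[F] R →ₗ[F] F) (hβ : ∀ u, (∀ v, β u v = 0) → u = 0)
    (s : Module.End F R) (hs : ∀ u v, β (s u) (s v) = β u v) (hfix : ∀ v, s v = v → v = 0) :
    Even (Module.finrank F R) := by
  -- `T = 1 + s` is injective, hence bijective; `N = T⁻¹` satisfies `β (N u) v + β u (N v) = β u v`
  have h2 : (2 : F) = 0 := by exact_mod_cast CharP.cast_eq_zero F 2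
  have hxx : ∀ x : R, x + x = 0 := by
    intro x
    rw [← two_smul F x, h2, zero_smul]
  have hinj : Function.Injective ((LinearMap.id : R →ₗ[F] R) + s) := by
    rw [← LinearMap.ker_eq_bot, LinearMap.ker_eq_bot']
    intro v hv
    apply hfix
    have h1 : v + s v = 0 := hv
    have h3 := hxx v
    have : s v = v := by
      have h4 : v + s v = v + v := by rw [h1, h3]
      exact add_left_cancel h4
    exact this
  let T : R ≃ₗ[F] R := LinearEquiv.ofInjectiveEndo ((LinearMap.id : R →ₗ[F] R) + s) hinj
  have hT : ∀ u, T u = u + s u := fun u => rfl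
  let N : R →ₗ[F] R := (T.symm : R →ₗ[F] R)
  have hN : ∀ u v, β (N u) v + β u (N v) = β u v := by
    intro u v
    obtain ⟨u', rfl⟩ := T.surjective u
    obtain ⟨v', rfl⟩ := T.surjective v
    have e1 : N (T u') = u' := T.symm_apply_apply u'
    have e2 : N (T v') = v' := T.symm_apply_apply v'
    rw [e1, e2, hT, hT]
    simp only [map_add, LinearMap.add_apply]
    rw [hs]
    ring
  have hbinj : Function.Injective β := by
    rw [← LinearMap.ker_eq_bot, LinearMap.ker_eq_bot']
    intro u hu
    apply hβ
    intro v
    rw [hu]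
    rfl
  have hfr : Module.finrank F R = Module.finrank F (Module.Dual F R) :=
    (Subspace.dual_finrank_eq).symm
  let b : R ≃ₗ[F] Module.Dual F R := LinearEquiv.ofInjectiveOfFinrankEq β hbinj hfr
  have hb : ∀ u, b u = β u := fun u => rfl
  have key : b.conj N + Module.Dual.transpose (R := F) N = LinearMap.id := by
    apply LinearMap.ext
    intro f
    obtain ⟨u, rfl⟩ := b.surjective f
    apply LinearMap.ext
    intro v
    rw [LinearMap.add_apply, LinearEquiv.conj_apply_apply, LinearEquiv.symm_apply_apply]
    rw [LinearMap.add_apply, Module.Dual.transpose_apply, hb, hb]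
    exact hN u v
  have htr := congrArg (LinearMap.trace F (Module.Dual F R)) key
  rw [map_add, LinearMap.trace_conj', LinearMap.trace_transpose', LinearMap.trace_id] at htr
  have h5 : ((Module.finrank F R : ℕ) : F) = 0 := by
    rw [hfr, ← htr, ← two_mul, h2, zero_mul]
  have h6 := (CharP.cast_eq_zero_iff F 2 _).1 h5
  exact (even_iff_two_dvd).2 h6

end

end OR
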