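import Pool.Agent.OR.P08

/-!
# MP_6c3636_al, OR, module P09: the Wall form (P3) (helper96)

`R := range (g - 1)`. Choose a linear map `σ : R → V` with `(g - 1) (σ u) = u` (`LinearMap.exists_rightInverse_of_surjective` for `(g - 1).rangeRestrict`). `β u u' := ω (σ u) u'` on `R`. (1) If `(g - 1) a = 0` then `ω a u' = 0` for `u' ∈ R`:
`ω a (g b - b) = ω (g a) (g b) - ω a b = 0`. (2) `β` is invariant under the restriction of `s` to `R` (`s (g - 1) = (g - 1) s`): `σ (s u) - s (σ u)` is in the kernel of `g - 1`, so `ω (σ (s u)) (s u') = ω (s (σ u)) (s u') = ω (σ u) u'`. (3) If `β u u' = 0` for all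
`u' ∈ R` then for `a := σ u`: `ω a (g b) = ω a b = ω (g a) (g b)` for all `b`, `g` is surjective (`p05_inj`, finite dimension), so `g a = a` and `u = (g - 1) a = 0`. P08 for `R`, `β`, the restriction of `s` (no fixed vectors).
-/

namespace OR

noncomputable section

open Classical

open LieP.PS (Sy Iso adj rsf oc)

variable {F : Type} [Field F] [CharP F 2] {V : Type} [AddCommGroup V] [Module F V] [FiniteDimensional F V]
  {ω : V →ₗ[F] V →ₗ[F] F}

theorem even_rk_of_comm (h : Sy ω) {g s : Module.End F V} (hg : Iso ω g) (hs : Iso ω s)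
    (hgs : g * s = s * g) (hfix : ∀ v, s v = v → v = 0) : Even (rk g) := by
  have happ : ∀ v, g (s v) = s (g v) := by
    intro v
    have h1 : (g * s) v = (s * g) v := by rw [hgs]
    exact h1
  have hN : ∀ v, (g - 1) v = g v - v := fun v => rfl
  have hcomm : ∀ v, (g - 1) (s v) = s ((g - 1) v) := by
    intro v
    rw [hN, hN, map_sub, happ]
  have hginj : Function.Injective g := LieP.PS.p05_inj h hg
  have hgsurj : Function.Surjective g := LinearMap.surjective_of_injective hginj
  obtain ⟨σ, hσ⟩ := LinearMap.exists_rightInverse_of_surjective (g - 1).rangeRestrict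
    (LinearMap.range_rangeRestrict (g - 1))
  have hσ' : ∀ u : LinearMap.range (g - 1), (g - 1) (σ u) = u := by
    intro u
    have h1 : (g - 1).rangeRestrict (σ u) = u := by
      have h2 : ((g - 1).rangeRestrict ∘ₗ σ) u = u := by rw [hσ, LinearMap.id_apply]
      exact h2
    exact congrArg Subtype.val h1
  -- the kernel of `g - 1` is orthogonal to the range
  have hort : ∀ a, (g - 1) a = 0 → ∀ u ∈ LinearMap.range (g - 1), ω a u = 0 := by
    rintro a ha u ⟨b, rfl⟩
    rw [hN] at ha
    have h1 : g a = a := sub_eq_zero.1 ha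
    rw [hN, map_sub, sub_eq_zero]
    calc ω a (g b) = ω (g a) (g b) := by rw [h1]
      _ = ω a b := hg a b
  have hsR : ∀ u ∈ LinearMap.range (g - 1), s u ∈ LinearMap.range (g - 1) := by
    rintro u ⟨b, rfl⟩
    exact ⟨s b, hcomm b⟩
  refine even_of_form (R := LinearMap.range (g - 1))
    (LinearMap.compl₁₂ ω σ (LinearMap.range (g - 1)).subtype) ?_ (s.restrict hsR) ?_ ?_
  · intro u hu
    have h1 : ∀ b, ω (g (σ u) - σ u) (g b) = 0 := by
      intro b
      have h2 : ω (σ u) ((g - 1) b) = 0 := hu ⟨(g - 1) b, ⟨b, rfl⟩⟩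
      rw [hN, map_sub, sub_eq_zero] at h2
      rw [map_sub, LinearMap.sub_apply, hg, h2, sub_self]
    have h3 : g (σ u) - σ u = 0 := by
      apply h.nd
      intro w
      obtain ⟨b, rfl⟩ := hgsurj w
      exact h1 b
    have h4 := hσ' u
    rw [hN, h3] at h4
    exact Subtype.ext h4.symm
  · intro u u'
    show ω (σ (s.restrict hsR u)) (s u') = ω (σ u) u'
    have h1 : (g - 1) (σ (s.restrict hsR u) - s (σ u)) = 0 := by
      rw [map_sub, hσ', hcomm, hσ']
      exact sub_self _
    have h2 := hort _ h1 (s u') (hsR _ u'.2)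
    rw [map_sub, LinearMap.sub_apply, sub_eq_zero] at h2
    rw [h2]
    exact hs _ _
  · intro v hv
    have h1 : s (v : V) = v := congrArg Subtype.val hv
    exact Subtype.ext (hfix _ h1)

end

end OR
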