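import Pool.Agent.OR.QDefs

/-!
# MP_6c3636_al, OR, module P10: orthogonal sums (P3) (helper96)

Model: `LieP.PS.glue` (P05): `e : W × oc ω W ≃ V` (`isCompl_oc`), `g := e.symm ≪≫ₗ (prodCongr g₁ g₂) ≪≫ₗ e`. `Q (a + b) = Q a + Q b` for `a ∈ W`, `b ∈ oc ω W` (`ω b a = 0`). `rk g = rk g₁ + rk g₂`: `(g - 1) (a + b) = (g₁ - 1) a + (g₂ - 1) b`, so `range (g - 1)` is the image of
`range (g₁ - 1) × range (g₂ - 1)` under `e`. `glueO`: `exists_sum` for the two conjugating isometries.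
-/

namespace OR

noncomputable section

open Classical

open LieP.PS (Sy Iso adj rsf oc)

variable {F : Type} [Field F] [CharP F 2] {V : Type} [AddCommGroup V] [Module F V] [FiniteDimensional F V]
  {ω : V →ₗ[F] V →ₗ[F] F} {Q : V → F}

theorem exists_sum (h : QS ω Q) {W : Submodule F V} (hW : ∀ w ∈ W, (∀ w' ∈ W, ω w w' = 0) → w = 0)
    (g₁ : W ≃ₗ[F] W) (g₂ : oc ω W ≃ₗ[F] oc ω W) (h₁ : ∀ w : W, Q (g₁ w) = Q w)
    (h₂ : ∀ w : oc ω W, Q (g₂ w) = Q w) :
    ∃ g : V ≃ₗ[F] V, (∀ w : W, g w = g₁ w) ∧ (∀ w : oc ω W, g w = g₂ w) ∧ (∀ v, Q (g v) = Q v) ∧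
      rk (g : Module.End F V) = rk (g₁ : Module.End F W) + rk (g₂ : Module.End F (oc ω W)) := by
  have hcompl := LieP.PS.isCompl_oc h.sy hW
  set e := Submodule.prodEquivOfIsCompl W (oc ω W) hcompl with he
  have hee : ∀ (a : W) (b : oc ω W), e (a, b) = (a : V) + (b : V) := fun a b => by
    rw [he, Submodule.coe_prodEquivOfIsCompl']
  set g : V ≃ₗ[F] V := e.symm ≪≫ₗ (LinearEquiv.prodCongr g₁ g₂) ≪≫ₗ e with hg
  have hge : ∀ (a : W) (b : oc ω W), g ((a : V) + (b : V)) = (g₁ a : V) + (g₂ b : V) := by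
    intro a b
    rw [← hee a b, hg, LinearEquiv.trans_apply, LinearEquiv.trans_apply,
      LinearEquiv.symm_apply_apply]
    exact hee _ _
  have hcr' : ∀ (a : W) (b : oc ω W), ω (a : V) (b : V) = 0 := fun a b => by
    rw [h.symm]
    exact b.2 a a.2
  refine ⟨g, fun w => ?_, fun w => ?_, fun v => ?_, ?_⟩
  · have h1 := hge w 0
    rw [map_zero, Submodule.coe_zero, add_zero, add_zero] at h1
    exact h1
  · have h1 := hge 0 w
    rw [map_zero, Submodule.coe_zero, zero_add, zero_add] at h1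
    exact h1
  · obtain ⟨⟨a, b⟩, rfl⟩ := e.surjective v
    rw [hee, hge, h.add, h.add, h₁, h₂, hcr', hcr']
  · set R₁ := (LinearMap.range ((g₁ : Module.End F W) - 1)).map W.subtype with hR1
    set R₂ := (LinearMap.range ((g₂ : Module.End F (oc ω W)) - 1)).map (oc ω W).subtype with hR2
    have e1 : Module.finrank F R₁ = rk (g₁ : Module.End F W) := by
      rw [hR1, Submodule.finrank_map_subtype_eq]
      rfl
    have e2 : Module.finrank F R₂ = rk (g₂ : Module.End F (oc ω W)) := by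
      rw [hR2, Submodule.finrank_map_subtype_eq]
      rfl
    have hr : LinearMap.range ((g : Module.End F V) - 1) = R₁ ⊔ R₂ := by
      ext v
      constructor
      · rintro ⟨z, rfl⟩
        obtain ⟨⟨a, b⟩, rfl⟩ := e.surjective z
        have h1 : ((g : Module.End F V) - 1) (e (a, b)) = ((g₁ a : V) - a) + ((g₂ b : V) - b) := by
          rw [hee, LinearMap.sub_apply, Module.End.one_apply]
          show g ((a : V) + (b : V)) - ((a : V) + (b : V)) = _
          rw [hge]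
          abel
        rw [h1]
        refine Submodule.add_mem_sup ?_ ?_
        · exact ⟨g₁ a - a, ⟨a, rfl⟩, rfl⟩
        · exact ⟨g₂ b - b, ⟨b, rfl⟩, rfl⟩
      · intro hv
        obtain ⟨p, hp, q, hq, rfl⟩ := Submodule.mem_sup.1 hv
        obtain ⟨p', ⟨a, rfl⟩, rfl⟩ := hp
        obtain ⟨q', ⟨b, rfl⟩, rfl⟩ := hq
        refine ⟨(a : V) + (b : V), ?_⟩
        rw [LinearMap.sub_apply, Module.End.one_apply]
        show g ((a : V) + (b : V)) - ((a : V) + (b : V)) = ((g₁ a : V) - a) + ((g₂ b : V) - b)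
        rw [hge]
        abel
    have hd : R₁ ⊓ R₂ = ⊥ := by
      rw [Submodule.eq_bot_iff]
      rintro x ⟨⟨p, _, hp⟩, ⟨q, _, hq⟩⟩
      have h1 : x ∈ W := by
        rw [← hp]
        exact p.2
      have h2 : x ∈ oc ω W := by
        rw [← hq]
        exact q.2
      have h3 := hcompl.disjoint
      rw [Submodule.disjoint_def] at h3
      exact h3 x h1 h2
    have h3 := Submodule.finrank_sup_add_finrank_inf_eq R₁ R₂
    rw [hd, finrank_bot, add_zero, e1, e2] at h3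
    rw [← h3]
    show Module.finrank F (LinearMap.range ((g : Module.End F V) - 1)) = _
    rw [hr]

theorem glueO (h : QS ω Q) {x y : Module.End F V} {W : Submodule F V}
    (hW : ∀ w ∈ W, (∀ w' ∈ W, ω w w' = 0) → w = 0)
    (hxW : ∀ w ∈ W, x w ∈ W) (hyW : ∀ w ∈ W, y w ∈ W)
    (hxO : ∀ w ∈ oc ω W, x w ∈ oc ω W) (hyO : ∀ w ∈ oc ω W, y w ∈ oc ω W)
    (h1 : CO (fun w : W => Q w) (x.restrict hxW) (y.restrict hyW))
    (h2 : CO (fun w : oc ω W => Q w) (x.restrict hxO) (y.restrict hyO)) : CO Q x y := by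
  obtain ⟨g₁, ha, hb, hc⟩ := h1
  obtain ⟨g₂, ha', hb', hc'⟩ := h2
  obtain ⟨g, k1, k2, k3, k4⟩ := exists_sum h hW g₁ g₂ ha ha'
  refine ⟨g, k3, ?_, fun v => ?_⟩
  · rw [k4]
    exact hb.add hb'
  · have hv : v ∈ W ⊔ oc ω W := by
      rw [(LieP.PS.isCompl_oc h.sy hW).sup_eq_top]
      exact Submodule.mem_top
    obtain ⟨a, haW, b, hbO, rfl⟩ := Submodule.mem_sup.mp hv
    have e1 := congrArg Subtype.val (hc ⟨a, haW⟩)
    have e2 := congrArg Subtype.val (hc' ⟨b, hbO⟩)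
    rw [LinearMap.coe_restrict_apply] at e1 e2
    have e3 : g (x a) = (g₁ (x.restrict hxW ⟨a, haW⟩) : V) := k1 (x.restrict hxW ⟨a, haW⟩)
    have e4 : g (x b) = (g₂ (x.restrict hxO ⟨b, hbO⟩) : V) := k2 (x.restrict hxO ⟨b, hbO⟩)
    have e5 : g a = (g₁ ⟨a, haW⟩ : V) := k1 ⟨a, haW⟩
    have e6 : g b = (g₂ ⟨b, hbO⟩ : V) := k2 ⟨b, hbO⟩
    rw [map_add, map_add, map_add, map_add, e3, e4, e1, e2, e5, e6]

end

end OR
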