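import Pool.Agent.OR.QDefs

/-!
# MP_6c3636_al, OR, module P11: isometries from Wall forms (P4) (helper96)

`U` is stable under the isometry `x`, `χ` a bilinear form on `U` with `χ u u = Q u`, trivial (left, so also right) kernel, invariant under `x`. For `z ∈ V` there is a unique `T z ∈ U` with `χ (T z) u = ω z u` for all `u ∈ U` (`u ↦ χ u ·` is an isomorphism
from `U` to its dual), `T` is linear. `g z := z + T z`: `Q (g z) = Q z + Q (T z) + ω z (T z) = Q z + χ (T z) (T z) + χ (T z) (T z) = Q z`. `T (x z) = x (T z)`: `χ (x (T z)) (x u) = χ (T z) u = ω z u = ω (x z) (x u)` and `x` maps `U` onto `U` (injective, finite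
dimension). The range of `T = g - 1` is `U`: for `u₀ ∈ U` the linear form `χ u₀ ·` on `U` extends to `V` (`Submodule` of a vector space, `LinearMap.exists_extend`) and is `ω z ·` for some `z` (nondegeneracy, `Sy.exists_rep` and `Sy.neg` of P03, characteristic two), so `T z = u₀`. `g` is injective
(`QS.inj`), so a linear equivalence.
-/

namespace OR

noncomputable section

open Classical

variable {F : Type} [Field F] [CharP F 2] {V : Type} [AddCommGroup V] [Module F V] [FiniteDimensional F V]
  {ω : V →ₗ[F] V →ₗ[F] F} {Q : V → F}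

theorem exists_wall (h : QS ω Q) {x : Module.End F V} (hx : QI Q x) {U : Submodule F V}
    (hxU : ∀ u ∈ U, x u ∈ U) (χ : U →ₗ[F] U →ₗ[F] F) (hQ : ∀ u : U, χ u u = Q u)
    (hnd : ∀ u, (∀ v, χ u v = 0) → u = 0)
    (hxχ : ∀ u v : U, χ (x.restrict hxU u) (x.restrict hxU v) = χ u v) :
    ∃ g : V ≃ₗ[F] V, (∀ v, Q (g v) = Q v) ∧ (∀ v, g (x v) = x (g v)) ∧
      rk (g : Module.End F V) = Module.finrank F U := by
  have hinj : Function.Injective χ := by
    rw [← LinearMap.ker_eq_bot, LinearMap.ker_eq_bot']
    intro u hu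
    exact hnd u fun v => by rw [hu, LinearMap.zero_apply]
  have hfr : Module.finrank F U = Module.finrank F (U →ₗ[F] F) := (Subspace.dual_finrank_eq).symm
  set e : U ≃ₗ[F] (U →ₗ[F] F) := LinearEquiv.ofInjectiveOfFinrankEq χ hinj hfr with he
  have he' : ∀ u, e u = χ u := fun u => rfl
  set S : V →ₗ[F] U := e.symm.toLinearMap ∘ₗ ω.compl₂ U.subtype with hSdef
  have hS : ∀ (z : V) (u : U), χ (S z) u = ω z u := by
    intro z u
    rw [← he', hSdef, LinearMap.comp_apply, LinearEquiv.coe_coe, LinearEquiv.apply_symm_apply,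
      LinearMap.compl₂_apply, Submodule.subtype_apply]
  have hxinj : Function.Injective (x.restrict hxU) := by
    intro a b hab
    refine Subtype.ext (QS.inj h hx ?_)
    have := congrArg (Subtype.val) hab
    simpa using this
  have hxsurj : Function.Surjective (x.restrict hxU) := LinearMap.injective_iff_surjective.mp hxinj
  have hSx : ∀ z, S (x z) = x.restrict hxU (S z) := by
    intro z
    apply hinj
    ext u
    obtain ⟨u', rfl⟩ := hxsurj u
    rw [hS, hxχ, hS, LinearMap.coe_restrict_apply, QI.iso h hx]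
  have hSsurj : Function.Surjective S := by
    intro u₀
    obtain ⟨f, hf⟩ := LinearMap.exists_extend (χ u₀)
    obtain ⟨z, hz⟩ := h.sy.exists_rep f
    refine ⟨z, hinj ?_⟩
    ext u
    rw [hS, h.symm, ← hz, ← hf]
    rfl
  set T : Module.End F V := U.subtype ∘ₗ S with hT
  have hTv : ∀ z, T z = (S z : V) := fun z => rfl
  have hQT : QI Q (1 + T) := by
    intro z
    rw [LinearMap.add_apply, Module.End.one_apply, h.add, hTv, ← hQ, ← hS z (S z), add_assoc,
      CharTwo.add_self_eq_zero, add_zero]
  set g : V ≃ₗ[F] V := LinearEquiv.ofInjectiveEndo (1 + T) (QS.inj h hQT) with hg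
  have hgv : ∀ z, g z = z + T z := fun z => rfl
  refine ⟨g, fun v => hQT v, fun v => ?_, ?_⟩
  · rw [hgv, hgv, map_add, hTv, hTv, hSx]
    rfl
  · have h1 : (g : Module.End F V) - 1 = T := by
      ext z
      rw [LinearMap.sub_apply, LinearEquiv.coe_coe, hgv, Module.End.one_apply, add_sub_cancel_left]
    rw [rk, h1, hT, LinearMap.range_comp, LinearMap.range_eq_top.mpr hSsurj, Submodule.map_top,
      Submodule.range_subtype]

end

end OR
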