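import Mathlib

/-!
# MP_6c3636_al, OR, module P12: cyclic subspaces of a nilpotent operator (P4) (helper96)

`cyc Y v = F[Y] v`. Let `a ≥ 1`, `Y ^ a v = 0`, `Y ^ (a - 1) v ≠ 0`. `aeval_eq_zero_iff`: if `p = X ^ l * q` with `q.coeff 0 ≠ 0`, `l < a`, then `Y ^ (a - 1 - l)` maps `p(Y) v` to `q.coeff 0 • Y ^ (a - 1) v ≠ 0`. So `cyc Y v ≃ F[X] / (X ^ a)` has dimension `a`.
`exists_form`: a linear form on `V` with prescribed values on `Y ^ i v`, `i < a` (they are linearly independent). Use e.g. `LinearIndependent` of `fun i : Fin a => (Y ^ (i : ℕ)) v` and `LinearIndependent.extend` / `Basis.constr`, or `exists_extend`.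
`gen_induction`: every element of `cyc Y v` is a sum of multiples of `Y ^ i v`.
-/

namespace OR

noncomputable section

open Classical Polynomial

variable {F : Type} [Field F] {V : Type} [AddCommGroup V] [Module F V]

/-- the cyclic subspace -/
def cyc (Y : Module.End F V) (v : V) : Submodule F V :=
  Submodule.span F (Set.range fun i : ℕ => (Y ^ i) v)

theorem mem_cyc_iff {Y : Module.End F V} {v z : V} : z ∈ cyc Y v ↔ ∃ p : F[X], z = (aeval Y p) v := by
  constructor
  · intro hz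
    refine Submodule.span_induction (p := fun z _ => ∃ p : F[X], z = (aeval Y p) v) ?_ ?_ ?_ ?_ hz
    · rintro _ ⟨i, rfl⟩
      refine ⟨X ^ i, ?_⟩
      rw [map_pow, aeval_X]
    · refine ⟨0, ?_⟩
      rw [map_zero, LinearMap.zero_apply]
    · rintro x y _ _ ⟨p, hp⟩ ⟨q, hq⟩
      refine ⟨p + q, ?_⟩
      rw [map_add, LinearMap.add_apply, ← hp, ← hq]
    · rintro c x _ ⟨p, hp⟩
      refine ⟨c • p, ?_⟩
      rw [map_smul, LinearMap.smul_apply, ← hp]
  · rintro ⟨p, rfl⟩
    rw [aeval_eq_sum_range, LinearMap.sum_apply]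
    refine Submodule.sum_mem _ fun i _ => ?_
    rw [LinearMap.smul_apply]
    exact Submodule.smul_mem _ _ (Submodule.subset_span ⟨i, rfl⟩)

theorem self_mem_cyc (Y : Module.End F V) (v : V) : v ∈ cyc Y v :=
  Submodule.subset_span ⟨0, rfl⟩

/-- the cyclic subspace is stable under all polynomials in `Y` -/
theorem cyc_aeval {Y : Module.End F V} {v z : V} (hz : z ∈ cyc Y v) (p : F[X]) : (aeval Y p) z ∈ cyc Y v := by
  obtain ⟨q, rfl⟩ := mem_cyc_iff.1 hz
  refine mem_cyc_iff.2 ⟨p * q, ?_⟩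
  rw [map_mul, Module.End.mul_apply]

theorem cyc_stable {Y : Module.End F V} {v z : V} (hz : z ∈ cyc Y v) : Y z ∈ cyc Y v := by
  have h := cyc_aeval hz X
  rwa [aeval_X] at h

theorem cyc_le {Y : Module.End F V} {v : V} {W : Submodule F V} (hv : v ∈ W) (hW : ∀ w ∈ W, Y w ∈ W) :
    cyc Y v ≤ W := by
  refine Submodule.span_le.2 ?_
  rintro _ ⟨i, rfl⟩
  induction i with
  | zero => exact hv
  | succ i ih =>
    show (Y ^ (i + 1)) v ∈ W
    rw [pow_succ', Module.End.mul_apply]
    exact hW _ ih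

namespace P12_aux

theorem top {Y : Module.End F V} {v : V} {a : ℕ} (h0 : (Y ^ (a + 1)) v = 0) (q : F[X]) :
    (aeval Y (X ^ a * q)) v = q.coeff 0 • (Y ^ a) v := by
  have h1 : X ^ a * q = q.divX * X ^ (a + 1) + C (q.coeff 0) * X ^ a := by
    have h2 := divX_mul_X_add q
    calc X ^ a * q = X ^ a * (divX q * X + C (q.coeff 0)) := by rw [h2]
      _ = _ := by ring
  rw [h1, map_add, map_mul, map_mul, LinearMap.add_apply, Module.End.mul_apply, Module.End.mul_apply, map_pow,
    map_pow, aeval_X, h0, map_zero, zero_add, aeval_C]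
  rfl

theorem low {Y : Module.End F V} {v : V} {a : ℕ} (h0 : (Y ^ (a + 1)) v = 0) (p : F[X]) {d : ℕ} (hd : d ≤ a)
    (hp : ∀ i < d, p.coeff i = 0) : (Y ^ (a - d)) ((aeval Y p) v) = p.coeff d • (Y ^ a) v := by
  obtain ⟨q, hq⟩ := X_pow_dvd_iff.2 hp
  have h1 : p.coeff d = q.coeff 0 := by
    rw [hq]
    have := coeff_X_pow_mul q d 0
    rwa [zero_add] at this
  have h2 : (Y ^ (a - d)) ((aeval Y p) v) = (aeval Y (X ^ a * q)) v := by
    rw [hq]
    have h3 : X ^ a * q = X ^ (a - d) * (X ^ d * q) := by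
      rw [← mul_assoc, ← pow_add, Nat.sub_add_cancel hd]
    rw [h3, map_mul (aeval Y) (X ^ (a - d)), Module.End.mul_apply, map_pow, aeval_X]
  rw [h2, top h0, h1]

end P12_aux

open P12_aux

theorem aeval_eq_zero_iff {Y : Module.End F V} {v : V} {a : ℕ} (h0 : (Y ^ (a + 1)) v = 0)
    (h1 : (Y ^ a) v ≠ 0) (p : F[X]) : (aeval Y p) v = 0 ↔ X ^ (a + 1) ∣ p := by
  constructor
  · intro hp
    rw [X_pow_dvd_iff]
    intro d
    induction d using Nat.strong_induction_on with
    | _ d ih =>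
      intro hd
      have h2 := low h0 p (by omega : d ≤ a) fun i hi => ih i hi (by omega)
      rw [hp, map_zero] at h2
      exact (smul_eq_zero.1 h2.symm).resolve_right h1
  · rintro ⟨q, rfl⟩
    rw [mul_comm, map_mul, Module.End.mul_apply, map_pow, aeval_X, h0, map_zero]

/-- if `z ≠ 0` then some power of `Y` maps it to a nonzero multiple of the last vector -/
theorem cyc_top {Y : Module.End F V} {v : V} {a : ℕ} (h0 : (Y ^ (a + 1)) v = 0) {z : V}
    (hz : z ∈ cyc Y v) (hz0 : z ≠ 0) : ∃ (l : ℕ) (c : F), c ≠ 0 ∧ (Y ^ l) z = c • (Y ^ a) v := by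
  obtain ⟨p, rfl⟩ := mem_cyc_iff.1 hz
  have h2 : ∃ d, d ≤ a ∧ p.coeff d ≠ 0 := by
    by_contra hcon
    push Not at hcon
    apply hz0
    obtain ⟨q, rfl⟩ := X_pow_dvd_iff.2 (fun i (hi : i < a + 1) => hcon i (by omega))
    rw [mul_comm, map_mul, Module.End.mul_apply, map_pow, aeval_X, h0, map_zero]
  have h3 := Nat.find_spec h2
  refine ⟨a - Nat.find h2, p.coeff (Nat.find h2), h3.2, low h0 p h3.1 fun i hi => ?_⟩
  by_contra hc
  exact Nat.find_min h2 hi ⟨by omega, hc⟩

theorem linearIndependent_cyc {Y : Module.End F V} {v : V} {a : ℕ} (h0 : (Y ^ (a + 1)) v = 0)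
    (h1 : (Y ^ a) v ≠ 0) : LinearIndependent F fun i : Fin (a + 1) => (Y ^ (i : ℕ)) v := by
  rw [Fintype.linearIndependent_iff]
  intro g hg i
  have h2 : (aeval Y (∑ i : Fin (a + 1), C (g i) * X ^ (i : ℕ))) v = 0 := by
    rw [map_sum, LinearMap.sum_apply, ← hg]
    refine Finset.sum_congr rfl fun i _ => ?_
    rw [map_mul, Module.End.mul_apply, map_pow, aeval_X, aeval_C]
    rfl
  rw [aeval_eq_zero_iff h0 h1, X_pow_dvd_iff] at h2
  have h3 := h2 i i.2
  rw [finsetSum_coeff, Finset.sum_eq_single i] at h3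
  · rw [coeff_C_mul, coeff_X_pow, if_pos rfl, mul_one] at h3
    exact h3
  · intro j _ hj
    rw [coeff_C_mul, coeff_X_pow, if_neg (fun h => hj (Fin.ext h.symm)), mul_zero]
  · intro h
    exact absurd (Finset.mem_univ _) h

theorem finrank_cyc {Y : Module.End F V} {v : V} {a : ℕ} (h0 : (Y ^ (a + 1)) v = 0)
    (h1 : (Y ^ a) v ≠ 0) : Module.finrank F (cyc Y v) = a + 1 := by
  have h2 : cyc Y v = Submodule.span F (Set.range fun i : Fin (a + 1) => (Y ^ (i : ℕ)) v) := by
    apply le_antisymm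
    · refine Submodule.span_le.2 ?_
      rintro _ ⟨i, rfl⟩
      by_cases hi : i < a + 1
      · exact Submodule.subset_span ⟨⟨i, hi⟩, rfl⟩
      · have h3 : (Y ^ i) v = 0 := by
          obtain ⟨j, rfl⟩ : ∃ j, i = j + (a + 1) := ⟨i - (a + 1), by omega⟩
          rw [pow_add, Module.End.mul_apply, h0, map_zero]
        show (Y ^ i) v ∈ _
        rw [h3]
        exact Submodule.zero_mem _
    · refine Submodule.span_mono ?_
      rintro _ ⟨i, rfl⟩
      exact ⟨i, rfl⟩
  rw [h2, finrank_span_eq_card (linearIndependent_cyc h0 h1), Fintype.card_fin]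

/-- the range of the restriction of `Y` to the cyclic subspace -/
theorem finrank_range_cyc {Y : Module.End F V} {v : V} {a : ℕ} (h0 : (Y ^ (a + 1)) v = 0)
    (h1 : (Y ^ a) v ≠ 0) (hs : ∀ w ∈ cyc Y v, Y w ∈ cyc Y v) :
    Module.finrank F (LinearMap.range (Y.restrict hs)) = a := by
  have h2 : (LinearMap.range (Y.restrict hs)).map (cyc Y v).subtype = cyc Y (Y v) := by
    ext z
    constructor
    · rintro ⟨_, ⟨⟨w, hw⟩, rfl⟩, rfl⟩
      show Y w ∈ cyc Y (Y v)
      obtain ⟨p, rfl⟩ := mem_cyc_iff.1 hw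
      refine mem_cyc_iff.2 ⟨p, ?_⟩
      have h3 : (aeval Y (X * p)) v = (aeval Y (p * X)) v := by rw [mul_comm]
      rw [map_mul, map_mul, Module.End.mul_apply, Module.End.mul_apply, aeval_X] at h3
      exact h3
    · intro hz
      obtain ⟨p, rfl⟩ := mem_cyc_iff.1 hz
      refine ⟨⟨Y ((aeval Y p) v), hs _ (cyc_aeval (self_mem_cyc Y v) p)⟩,
        ⟨⟨(aeval Y p) v, cyc_aeval (self_mem_cyc Y v) p⟩, rfl⟩, ?_⟩
      show Y ((aeval Y p) v) = (aeval Y p) (Y v)
      have h3 : (aeval Y (X * p)) v = (aeval Y (p * X)) v := by rw [mul_comm]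
      rw [map_mul, map_mul, Module.End.mul_apply, Module.End.mul_apply, aeval_X] at h3
      exact h3
  rw [← Submodule.finrank_map_subtype_eq, h2]
  rcases a with _ | a
  · have h3 : Y v = 0 := by
      rw [zero_add, pow_one] at h0
      exact h0
    have h4 : cyc Y (Y v) = ⊥ := by
      rw [eq_bot_iff]
      refine cyc_le ?_ ?_
      · rw [h3]
        exact Submodule.zero_mem _
      · intro w hw
        rw [Submodule.mem_bot] at hw
        rw [hw, map_zero]
        exact Submodule.zero_mem _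
    rw [h4, finrank_bot]
  · refine finrank_cyc ?_ ?_
    · rw [← Module.End.mul_apply, ← pow_succ]
      exact h0
    · rw [← Module.End.mul_apply, ← pow_succ]
      exact h1

theorem exists_form {Y : Module.End F V} {v : V} {a : ℕ} (h0 : (Y ^ (a + 1)) v = 0)
    (h1 : (Y ^ a) v ≠ 0) (c : ℕ → F) : ∃ φ : V →ₗ[F] F, ∀ i ≤ a, φ ((Y ^ i) v) = c i := by
  have hli := linearIndependent_cyc h0 h1
  obtain ⟨φ, hφ⟩ := ((Module.Basis.span hli).constr F fun i : Fin (a + 1) => c i).exists_extend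
  refine ⟨φ, fun i hi => ?_⟩
  have h2 := LinearMap.congr_fun hφ (Module.Basis.span hli ⟨i, by omega⟩)
  rw [LinearMap.comp_apply, Module.Basis.constr_basis, Submodule.subtype_apply, Module.Basis.span_apply] at h2
  exact h2

end

end OR
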