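import Pool.Agent.OR.QDefs

/-!
# MP_6c3636_al, OR, module P13: identities for `N = x - 1` (P4) (helper96)

`x` is an isometry of `Q`, `x' := adj ω x` is its inverse (`Iso.adj_mul_self`, `Iso.self_mul_adj` in LieP P03). `N := x - 1`, `N' := x' - 1 = adj ω N = x' * N` (characteristic two: `x' - 1 = x' * (1 - x) = x' * (x - 1)`), `th := N * N' = x + x'` (`(x - 1) (x' - 1) = 1 - x - x' + 1`).
All these operators commute. `th` is self adjoint. `om_th`: `ω (th ^ i v) v = 0` for all `i`: `i = 2 l`: `ω (th ^ l v) (th ^ l v) = 0`; `i = 2 l + 1`: `ω (th u) u = ω (x u) u + ω (x' u) u = ω (x u) u + ω u (x u) = 0`, `u := th ^ l v`.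
`q_N`: `Q (x u - u) = Q (x u) + Q u + ω (x u) u = ω (x u) u = ω (N u) u` (`ω u u = 0`). `om_pow`: `ω (N ^ i u) (N ^ i v) = ω (N' ^ i N ^ i u) v = ω (th ^ i u) v`. `q_pow`: `Q (N ^ (i+1) v) = ω (N (N ^ i v)) (N ^ i v) = ω (N (th ^ i v)) v` (`q_N`, adjoint).
`q_th`: `th = x' * N ^ 2`, so `Q (th ^ i v) = Q (x' ^ i (N ^ (2 i) v)) = Q (N ^ (2 i) v)` (`x'` is an isometry of `Q`). `th_pow_eq`: `th ^ i = x' ^ i * N ^ (2 i)`.
-/

namespace OR

noncomputable section

open Classical

open LieP.PS (Sy Iso adj rsf oc)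

variable {F : Type} [Field F] [CharP F 2] {V : Type} [AddCommGroup V] [Module F V] [FiniteDimensional F V]
  {ω : V →ₗ[F] V →ₗ[F] F} {Q : V → F}

/-- the operator `(x - 1) (x⁻¹ - 1)` -/
def th (ω : V →ₗ[F] V →ₗ[F] F) (x : Module.End F V) : Module.End F V := (x - 1) * (adj ω x - 1)

namespace P13_aux

omit [FiniteDimensional F V] in
theorem add_self (A : Module.End F V) : A + A = 0 := by
  ext v
  rw [LinearMap.add_apply, ← two_smul F, CharTwo.two_eq_zero, zero_smul, LinearMap.zero_apply]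

omit [FiniteDimensional F V] in
theorem neg_self (A : Module.End F V) : -A = A := neg_eq_of_add_eq_zero_left (add_self A)

end P13_aux

theorem qi_adj (h : QS ω Q) {x : Module.End F V} (hx : QI Q x) : QI Q (adj ω x) := by
  intro v
  rw [← hx, ← Module.End.mul_apply, (QI.iso h hx).self_mul_adj h.sy, Module.End.one_apply]

theorem th_eq (h : QS ω Q) {x : Module.End F V} (hx : QI Q x) : th ω x = x + adj ω x := by
  have h1 := (QI.iso h hx).self_mul_adj h.sy
  have e : th ω x = x * adj ω x + 1 - (x + adj ω x) := by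
    unfold th
    noncomm_ring
  rw [e, h1, P13_aux.add_self, zero_sub, P13_aux.neg_self]

theorem adj_N (h : QS ω Q) {x : Module.End F V} (hx : QI Q x) :
    adj ω (x - 1) = adj ω x - 1 ∧ adj ω x - 1 = adj ω x * (x - 1) := by
  refine ⟨by rw [LieP.PS.adj_sub h.sy, LieP.PS.adj_one h.sy], ?_⟩
  rw [mul_sub, (QI.iso h hx).adj_mul_self h.sy, mul_one, ← neg_sub, P13_aux.neg_self]

theorem comm_adj (h : QS ω Q) {x : Module.End F V} (hx : QI Q x) : Commute x (adj ω x) := by
  rw [Commute, SemiconjBy, (QI.iso h hx).self_mul_adj h.sy, (QI.iso h hx).adj_mul_self h.sy]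

theorem comm_th (h : QS ω Q) {x : Module.End F V} (hx : QI Q x) :
    Commute (th ω x) x ∧ Commute (th ω x) (adj ω x) ∧ Commute (th ω x) (x - 1) := by
  have h1 : Commute (th ω x) x := by
    rw [th_eq h hx]
    exact (Commute.refl x).add_left (comm_adj h hx).symm
  have h2 : Commute (th ω x) (adj ω x) := by
    rw [th_eq h hx]
    exact (comm_adj h hx).add_left (Commute.refl _)
  exact ⟨h1, h2, h1.sub_right (Commute.one_right _)⟩

theorem th_pow_eq (h : QS ω Q) {x : Module.End F V} (hx : QI Q x) (i : ℕ) :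
    th ω x ^ i = adj ω x ^ i * (x - 1) ^ (2 * i) := by
  have hc : Commute (adj ω x) (x - 1) := (comm_adj h hx).symm.sub_right (Commute.one_right _)
  have e : th ω x = adj ω x * (x - 1) ^ 2 := by
    unfold th
    rw [(adj_N h hx).2, ← mul_assoc, ← hc.eq, mul_assoc, sq]
  rw [e, (hc.pow_right 2).mul_pow, pow_mul]

theorem th_self_adj (h : QS ω Q) {x : Module.End F V} (hx : QI Q x) (i : ℕ) (u v : V) :
    ω ((th ω x ^ i) u) v = ω u ((th ω x ^ i) v) := by
  have e : adj ω (th ω x) = th ω x := by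
    rw [th_eq h hx, LieP.PS.adj_add h.sy, LieP.PS.adj_adj h.sy, add_comm]
  rw [LieP.PS.adj_spec h.sy, LieP.PS.adj_pow h.sy, e]

theorem om_th (h : QS ω Q) {x : Module.End F V} (hx : QI Q x) (i : ℕ) (v : V) :
    ω ((th ω x ^ i) v) v = 0 := by
  rcases Nat.even_or_odd' i with ⟨l, hl | hl⟩
  · rw [hl, two_mul, pow_add, Module.End.mul_apply, th_self_adj h hx]
    exact h.sy.alt _
  · rw [hl, two_mul, add_assoc, pow_add, Module.End.mul_apply, th_self_adj h hx, pow_succ',
      Module.End.mul_apply]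
    rw [th_eq h hx, LinearMap.add_apply, map_add, LinearMap.add_apply, LieP.PS.adj_spec' h.sy,
      h.symm _ (x _)]
    exact CharTwo.add_self_eq_zero _

theorem om_pow (h : QS ω Q) {x : Module.End F V} (hx : QI Q x) (i : ℕ) (u v : V) :
    ω (((x - 1) ^ i) u) (((x - 1) ^ i) v) = ω ((th ω x ^ i) u) v := by
  have hc : Commute (adj ω x - 1) (x - 1) :=
    ((comm_adj h hx).symm.sub_right (Commute.one_right _)).sub_left (Commute.one_left _)
  have e : th ω x ^ i = (adj ω x - 1) ^ i * (x - 1) ^ i := by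
    unfold th
    rw [← hc.eq, hc.mul_pow]
  rw [← LieP.PS.adj_spec' h.sy, LieP.PS.adj_pow h.sy, (adj_N h hx).1, ← Module.End.mul_apply, e]

theorem q_N (h : QS ω Q) {x : Module.End F V} (hx : QI Q x) (u : V) :
    Q ((x - 1) u) = ω ((x - 1) u) u := by
  rw [LinearMap.sub_apply, Module.End.one_apply, h.sub, hx, CharTwo.add_self_eq_zero, zero_add, map_sub,
    LinearMap.sub_apply, h.sy.alt, sub_zero]

theorem q_pow (h : QS ω Q) {x : Module.End F V} (hx : QI Q x) (i : ℕ) (v : V) :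
    Q (((x - 1) ^ (i + 1)) v) = ω ((x - 1) ((th ω x ^ i) v)) v := by
  have e1 : (x - 1) (((x - 1) ^ i) v) = ((x - 1) ^ i) ((x - 1) v) := by
    rw [← Module.End.mul_apply, ← Module.End.mul_apply, ← pow_succ', pow_succ]
  have e2 : (x - 1) ((th ω x ^ i) v) = (th ω x ^ i) ((x - 1) v) := by
    rw [← Module.End.mul_apply, ← Module.End.mul_apply, ((comm_th h hx).2.2.pow_left i).eq]
  rw [pow_succ', Module.End.mul_apply, q_N h hx, e1, om_pow h hx, e2]

theorem q_th (h : QS ω Q) {x : Module.End F V} (hx : QI Q x) (i : ℕ) (v : V) :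
    Q ((th ω x ^ i) v) = Q (((x - 1) ^ (2 * i)) v) ∧
      Q ((x - 1) ((th ω x ^ i) v)) = Q (((x - 1) ^ (2 * i + 1)) v) := by
  have e1 : ∀ w, Q ((th ω x ^ i) w) = Q (((x - 1) ^ (2 * i)) w) := by
    intro w
    rw [th_pow_eq h hx, Module.End.mul_apply, (qi_adj h hx).pow i]
  refine ⟨e1 v, ?_⟩
  have e2 : (x - 1) ((th ω x ^ i) v) = (th ω x ^ i) ((x - 1) v) := by
    rw [← Module.End.mul_apply, ← Module.End.mul_apply, ((comm_th h hx).2.2.pow_left i).eq]
  rw [e2, e1, ← Module.End.mul_apply, ← pow_succ]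

/-- the inverse is a polynomial in `x - 1` -/
theorem adj_aeval (h : QS ω Q) {x : Module.End F V} (hx : QI Q x) {k : ℕ} (hxk : x ^ (2 ^ k) = 1) :
    ∃ P : Polynomial F, adj ω x = Polynomial.aeval (x - 1) P := by
  refine ⟨(Polynomial.X + 1) ^ (2 ^ k - 1), ?_⟩
  rw [map_pow, map_add, Polynomial.aeval_X, map_one, sub_add_cancel]
  have e : x ^ (2 ^ k) = x * x ^ (2 ^ k - 1) := by
    rw [← pow_succ']
    congr 1
    have := Nat.one_le_two_pow (n := k)
    omega
  calc adj ω x = adj ω x * x ^ (2 ^ k) := by rw [hxk, mul_one]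
    _ = adj ω x * x * x ^ (2 ^ k - 1) := by rw [e, mul_assoc]
    _ = x ^ (2 ^ k - 1) := by rw [(QI.iso h hx).adj_mul_self h.sy, one_mul]

end

end OR
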