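import Pool.Agent.OR.P12
import Pool.Agent.OR.P13

/-!
# MP_6c3636_al, OR, module P14: cyclic subspaces of `N = x - 1` (P4) (helper96)

`N := x - 1`, `th = N * (adj ω x - 1)`. `cyc_stab`: `cyc N v` is stable under `x = N + 1` and under `adj ω x` (a polynomial in `N`, `adj_aeval` of P13, `cyc_aeval`). `cyc_eq_span`: `S :=` the span of the `th ^ i v` and the `N th ^ i v`. `S ≤ cyc N v`. `v ∈ S` and `S` is stable under `N`:
`N (N th ^ i v) = x (N (adj ω x (N (th ^ i v)))) = x (th ^ (i+1) v) = (N + 1) (th ^ (i+1) v)` (`th = adj ω x * N ^ 2` by `adj_N`, `x * adj ω x = 1`), so `cyc N v ≤ S` (`cyc_le`). `tsi_of_span`: if a set `A` spans `X`, `Q = 0` on `A` and `ω = 0` on `A × A` then `X` is totally singular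
(`Submodule.span_induction`, first `ω z z' = 0` for `z, z' ∈ X`). `tsi_cyc`: if `Q (N ^ i v) = 0` for all `i` then `cyc N v` is totally singular: `Q (th ^ i v) = Q (N ^ (2 i) v) = 0`, `Q (N th ^ i v) = 0` (`q_th`), `ω (th ^ i v) (th ^ j v) = ω (th ^ (i+j) v) v = 0` (`th_self_adj`, `om_th`),
`ω (N th ^ i v) (th ^ j v) = ω (N th ^ (i+j) v) v = Q (N ^ (i+j+1) v) = 0` (`q_pow`), `ω (N th ^ i v) (N th ^ j v) = ω (th ^ (i+j+1) v) v = 0` (`om_pow` with exponent one).
-/

namespace OR

noncomputable section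

open Classical Polynomial

open LieP.PS (Sy Iso adj rsf oc)

variable {F : Type} [Field F] [CharP F 2] {V : Type} [AddCommGroup V] [Module F V] [FiniteDimensional F V]
  {ω : V →ₗ[F] V →ₗ[F] F} {Q : V → F}

namespace P14_aux

theorem xx (h : QS ω Q) {x : Module.End F V} (hx : QI Q x) : x * adj ω x = 1 :=
  Iso.self_mul_adj h.sy (QI.iso h hx)

/-- `N ^ 2 = x th` -/
theorem NN (h : QS ω Q) {x : Module.End F V} (hx : QI Q x) : (x - 1) * (x - 1) = x * th ω x := by
  have h1 := (adj_N h hx).2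
  have h2 := xx h hx
  unfold th
  rw [h1]
  have h3 : x * ((x - 1) * (adj ω x * (x - 1))) = (x - 1) * ((x * adj ω x) * (x - 1)) := by
    noncomm_ring
  rw [h3, h2, one_mul]

theorem NN_apply (h : QS ω Q) {x : Module.End F V} (hx : QI Q x) (u : V) :
    (x - 1) ((x - 1) u) = (x - 1) ((th ω x) u) + (th ω x) u := by
  have h1 : ((x - 1) * (x - 1)) u = (x * th ω x) u := by rw [NN h hx]
  rw [Module.End.mul_apply, Module.End.mul_apply] at h1
  rw [h1]
  simp only [LinearMap.sub_apply, Module.End.one_apply, sub_add_cancel]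

theorem th_succ (ω : V →ₗ[F] V →ₗ[F] F) (x : Module.End F V) (i : ℕ) (v : V) :
    (th ω x) ((th ω x ^ i) v) = (th ω x ^ (i + 1)) v := by
  rw [pow_succ', Module.End.mul_apply]

theorem th_add (ω : V →ₗ[F] V →ₗ[F] F) (x : Module.End F V) (i j : ℕ) (v : V) :
    (th ω x ^ i) ((th ω x ^ j) v) = (th ω x ^ (i + j)) v := by
  rw [pow_add, Module.End.mul_apply]

theorem th_N (h : QS ω Q) {x : Module.End F V} (hx : QI Q x) (i : ℕ) (v : V) :
    (th ω x ^ i) ((x - 1) v) = (x - 1) ((th ω x ^ i) v) := by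
  have h1 := ((comm_th h hx).2.2.pow_left i).eq
  have h2 : (th ω x ^ i * (x - 1)) v = ((x - 1) * th ω x ^ i) v := by rw [h1]
  rw [Module.End.mul_apply, Module.End.mul_apply] at h2
  exact h2

theorem om_tt (h : QS ω Q) {x : Module.End F V} (hx : QI Q x) (i j : ℕ) (v : V) :
    ω ((th ω x ^ i) v) ((th ω x ^ j) v) = 0 := by
  rw [← th_self_adj h hx, th_add]
  exact om_th h hx _ v

theorem om_Nt (h : QS ω Q) {x : Module.End F V} (hx : QI Q x) {v : V}
    (hv : ∀ i : ℕ, Q (((x - 1) ^ i) v) = 0) (i j : ℕ) :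
    ω ((x - 1) ((th ω x ^ i) v)) ((th ω x ^ j) v) = 0 := by
  rw [← th_self_adj h hx, th_N h hx, th_add, ← q_pow h hx]
  exact hv _

theorem om_NN (h : QS ω Q) {x : Module.End F V} (hx : QI Q x) (i j : ℕ) (v : V) :
    ω ((x - 1) ((th ω x ^ i) v)) ((x - 1) ((th ω x ^ j) v)) = 0 := by
  have h1 := om_pow h hx 1 ((th ω x ^ i) v) ((th ω x ^ j) v)
  rw [pow_one, pow_one, th_succ] at h1
  rw [h1]
  exact om_tt h hx _ _ v

end P14_aux

theorem cyc_stab (h : QS ω Q) {x : Module.End F V} (hx : QI Q x) {k : ℕ} (hxk : x ^ (2 ^ k) = 1) {v z : V}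
    (hz : z ∈ cyc (x - 1) v) : x z ∈ cyc (x - 1) v ∧ adj ω x z ∈ cyc (x - 1) v := by
  constructor
  · have h1 : x z = (x - 1) z + z := by
      rw [LinearMap.sub_apply, Module.End.one_apply, sub_add_cancel]
    rw [h1]
    exact Submodule.add_mem _ (cyc_stable hz) hz
  · obtain ⟨P, hP⟩ := adj_aeval h hx hxk
    rw [hP]
    exact cyc_aeval hz P

theorem cyc_eq_span (h : QS ω Q) {x : Module.End F V} (hx : QI Q x) {k : ℕ} (hxk : x ^ (2 ^ k) = 1) (v : V) :
    cyc (x - 1) v = Submodule.span F (Set.range (fun i : ℕ => (th ω x ^ i) v) ∪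
      Set.range fun i : ℕ => (x - 1) ((th ω x ^ i) v)) := by
  apply le_antisymm
  · apply cyc_le
    · apply Submodule.subset_span
      left
      refine ⟨0, ?_⟩
      show (th ω x ^ 0) v = v
      rw [pow_zero, Module.End.one_apply]
    · intro w hw
      induction hw using Submodule.span_induction with
      | mem a ha =>
        rcases ha with ⟨i, rfl⟩ | ⟨i, rfl⟩
        · apply Submodule.subset_span
          right
          exact ⟨i, rfl⟩
        · show (x - 1) ((x - 1) ((th ω x ^ i) v)) ∈ _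
          rw [P14_aux.NN_apply h hx, P14_aux.th_succ]
          apply Submodule.add_mem
          · apply Submodule.subset_span
            right
            exact ⟨i + 1, rfl⟩
          · apply Submodule.subset_span
            left
            exact ⟨i + 1, rfl⟩
      | zero =>
        rw [map_zero]
        exact Submodule.zero_mem _
      | add a b _ _ iha ihb =>
        rw [map_add]
        exact Submodule.add_mem _ iha ihb
      | smul c a _ iha =>
        rw [map_smul]
        exact Submodule.smul_mem _ _ iha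
  · rw [Submodule.span_le]
    have key : ∀ i : ℕ, (th ω x ^ i) v ∈ cyc (x - 1) v := by
      intro i
      induction i with
      | zero =>
        rw [pow_zero, Module.End.one_apply]
        exact self_mem_cyc _ _
      | succ i ih =>
        rw [← P14_aux.th_succ]
        have h1 : (th ω x) ((th ω x ^ i) v) =
            (x - 1) (adj ω x ((th ω x ^ i) v) - (th ω x ^ i) v) := rfl
        rw [h1]
        exact cyc_stable (Submodule.sub_mem _ (cyc_stab h hx hxk ih).2 ih)
    rintro a (⟨i, rfl⟩ | ⟨i, rfl⟩)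
    · exact key i
    · exact cyc_stable (key i)

theorem tsi_of_span (h : QS ω Q) {A : Set V} (h1 : ∀ a ∈ A, Q a = 0) (h2 : ∀ a ∈ A, ∀ b ∈ A, ω a b = 0) :
    TSi Q (Submodule.span F A) := by
  have k1 : ∀ a ∈ A, ∀ z ∈ Submodule.span F A, ω a z = 0 := by
    intro a ha z hz
    induction hz using Submodule.span_induction with
    | mem b hb => exact h2 a ha b hb
    | zero => rw [map_zero]
    | add b c _ _ ihb ihc => rw [map_add, ihb, ihc, add_zero]
    | smul c b _ ihb => rw [map_smul, ihb, smul_zero]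
  have k2 : ∀ z ∈ Submodule.span F A, ∀ z' ∈ Submodule.span F A, ω z z' = 0 := by
    intro z hz z' hz'
    induction hz using Submodule.span_induction with
    | mem b hb => exact k1 b hb z' hz'
    | zero => rw [map_zero, LinearMap.zero_apply]
    | add b c _ _ ihb ihc => rw [map_add, LinearMap.add_apply, ihb, ihc, add_zero]
    | smul c b _ ihb => rw [map_smul, LinearMap.smul_apply, ihb, smul_zero]
  intro z hz
  induction hz using Submodule.span_induction with
  | mem b hb => exact h1 b hb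
  | zero => exact h.zero
  | add b c hb hc ihb ihc => rw [h.add, ihb, ihc, k2 b hb c hc, add_zero, add_zero]
  | smul c b _ ihb => rw [h.smul, ihb, mul_zero]

theorem tsi_cyc (h : QS ω Q) {x : Module.End F V} (hx : QI Q x) {k : ℕ} (hxk : x ^ (2 ^ k) = 1) {v : V}
    (hv : ∀ i : ℕ, Q (((x - 1) ^ i) v) = 0) : TSi Q (cyc (x - 1) v) := by
  rw [cyc_eq_span h hx hxk v]
  apply tsi_of_span h
  · rintro a (⟨i, rfl⟩ | ⟨i, rfl⟩)
    · show Q ((th ω x ^ i) v) = 0
      rw [(q_th h hx i v).1]
      exact hv _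
    · show Q ((x - 1) ((th ω x ^ i) v)) = 0
      rw [(q_th h hx i v).2]
      exact hv _
  · rintro a (⟨i, rfl⟩ | ⟨i, rfl⟩) b (⟨j, rfl⟩ | ⟨j, rfl⟩)
    · exact P14_aux.om_tt h hx i j v
    · show ω ((th ω x ^ i) v) ((x - 1) ((th ω x ^ j) v)) = 0
      rw [h.symm]
      exact P14_aux.om_Nt h hx hv j i
    · exact P14_aux.om_Nt h hx hv i j
    · exact P14_aux.om_NN h hx i j v

end

end OR
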