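import Pool.Agent.OR.P14

/-!
# MP_6c3636_al, OR, module P15: the linear form of case (I) (P4) (helper96)

`N := x - 1`, `x' := adj ω x`, `a = 2 s + 1`, `N ^ a v = 0`, `N ^ (2 s) v ≠ 0`. There is a linear form `φ` on `V` with `φ (th ^ j v) = Q (N ^ j v)` for all `j`. (a) `j > s`: `th ^ j v = x' ^ j (N ^ (2 j) v) = 0` (`th_pow_eq`, `2 j ≥ a`) and `Q (N ^ j v) = 0`: `j = i + 1`, `i ≥ s`,
`q_pow`: `= ω (N (th ^ i v)) v = ω (x' ^ i (N ^ (2 i + 1) v)) v = 0` as `2 i + 1 ≥ a`. (b) The vectors `th ^ j v`, `j ≤ s`, are linearly independent: if `∑_{j ≤ s} c j • th ^ j v = 0` and `l` is the smallest index with `c l ≠ 0`, apply `th ^ (s - l)`: `c l • th ^ s v = 0` (the other terms are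
`th ^ (j + s - l) v = 0`), but `th ^ s v = x' ^ s (N ^ (2 s) v) ≠ 0` (`x'` is injective). So a linear form with the values `Q (N ^ j v)`, `j ≤ s`, exists (e.g. `LinearIndependent` of the family `Fin (s + 1) → V`, `LinearIndependent.linearCombination_repr`/`Basis.constr` on the span and
`LinearMap.exists_extend`; compare `exists_form` of P12: it is `exists_form` for `Y := th ω x`, exponent `s`: `th ^ (s+1) v = 0`, `th ^ s v ≠ 0`!).
-/

namespace OR

noncomputable section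

open Classical Polynomial

open LieP.PS (Sy Iso adj rsf oc)

variable {F : Type} [Field F] [CharP F 2] {V : Type} [AddCommGroup V] [Module F V] [FiniteDimensional F V]
  {ω : V →ₗ[F] V →ₗ[F] F} {Q : V → F}

theorem exists_phi (h : QS ω Q) {x : Module.End F V} (hx : QI Q x) {s : ℕ} {v : V}
    (hv : ((x - 1) ^ (2 * s + 1)) v = 0) (hv' : ((x - 1) ^ (2 * s)) v ≠ 0) :
    ∃ φ : V →ₗ[F] F, ∀ j : ℕ, φ ((th ω x ^ j) v) = Q (((x - 1) ^ j) v) := by
  have hz : ∀ i, 2 * s + 1 ≤ i → ((x - 1) ^ i) v = 0 := by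
    intro i hi
    obtain ⟨k, rfl⟩ := Nat.exists_eq_add_of_le' hi
    rw [pow_add, Module.End.mul_apply, hv, map_zero]
  have hth : ∀ i w, (th ω x ^ i) w = (adj ω x ^ i) (((x - 1) ^ (2 * i)) w) := by
    intro i w
    rw [th_pow_eq h hx, Module.End.mul_apply]
  have hz' : ∀ i, s + 1 ≤ i → (th ω x ^ i) v = 0 := by
    intro i hi
    rw [hth, hz _ (by omega), map_zero]
  have h0 : (th ω x ^ s) v ≠ 0 := by
    rw [hth]
    intro h1
    apply hv'
    apply h.inj ((qi_adj h hx).pow s)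
    rw [h1, map_zero]
  obtain ⟨φ, hφ⟩ := exists_form (hz' (s + 1) le_rfl) h0 (fun i => Q (((x - 1) ^ i) v))
  refine ⟨φ, fun j => ?_⟩
  rcases Nat.lt_or_ge s j with hj | hj
  · obtain ⟨i, rfl⟩ : ∃ i, j = i + 1 := ⟨j - 1, by omega⟩
    rw [hz' _ (by omega), map_zero, q_pow h hx]
    have hc : Commute (th ω x ^ i) (x - 1) := (comm_th h hx).2.2.pow_left i
    have h1 : (x - 1) ((th ω x ^ i) v) = (th ω x ^ i) ((x - 1) v) := by
      rw [← Module.End.mul_apply, ← Module.End.mul_apply, hc.eq]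
    have h2 : ((x - 1) ^ (2 * i)) ((x - 1) v) = ((x - 1) ^ (2 * i + 1)) v := by
      rw [pow_succ, Module.End.mul_apply]
    rw [h1, hth, h2, hz _ (by omega), map_zero, map_zero, LinearMap.zero_apply]
  · exact hφ j hj

end

end OR
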