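import Pool.Agent.OR.P14

/-!
# MP_6c3636_al, OR, module P16: the bilinear form on a cyclic subspace (P4) (helper96)

`N := x - 1`, `N' := adj ω x - 1 = adj ω x * N`; `N`, `N'`, `adj ω x` commute. `χ (p(N) v) (q(N) v) := φ (p(N) q(N') v)`. Well defined: if `p(N) v = 0` then `p(N) q(N') v = q(N') p(N) v = 0`. If `q(N) v = 0` then `q(N') v = 0`: `N` is nilpotent (`N ^ (2 ^ k) = x ^ (2 ^ k) - 1 = 0`); if `v ≠ 0` let `a`
be minimal with `N ^ (a + 1) v = 0`, so `N ^ a v ≠ 0`, `X ^ (a + 1) ∣ q` (`aeval_eq_zero_iff`), `q = X ^ (a + 1) * q₁`, `q(N') v = q₁(N') (N' ^ (a + 1) v) = q₁(N') (adj ω x ^ (a + 1) (N ^ (a + 1) v)) = 0`. Construction: choose a linear right inverse `ρ : cyc N v → F[X]` of the surjective map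
`p ↦ p(N) v` (`mem_cyc_iff`), `χ u u' := φ ((aeval N (ρ u)) ((aeval N' (ρ u')) v))` (`LinearMap.mk₂`), and use the well-definedness to replace `ρ u` by `p`, `ρ u'` by `q`.
-/

namespace OR

noncomputable section

open Classical Polynomial

open LieP.PS (Sy Iso adj rsf oc)

variable {F : Type} [Field F] [CharP F 2] {V : Type} [AddCommGroup V] [Module F V] [FiniteDimensional F V]
  {ω : V →ₗ[F] V →ₗ[F] F} {Q : V → F}

namespace P16_aux

omit [FiniteDimensional F V] in
theorem nil (x : Module.End F V) {k : ℕ} (hxk : x ^ (2 ^ k) = 1) : (x - 1) ^ (2 ^ k) = 0 := by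
  have h1 : ((X : F[X]) - 1) ^ (2 ^ k) = X ^ (2 ^ k) - 1 := by
    have h2 := sub_pow_char_pow (p := 2) (X : F[X]) 1 k
    rw [h2, one_pow]
  have h3 := congrArg (aeval x) h1
  rw [map_pow, map_sub, map_sub, map_pow, aeval_X, map_one, hxk, sub_self] at h3
  exact h3

theorem key (h : QS ω Q) {x : Module.End F V} (hx : QI Q x) {k : ℕ} (hxk : x ^ (2 ^ k) = 1) (v : V)
    (q : F[X]) (hq : (aeval (x - 1) q) v = 0) : (aeval (adj ω x - 1) q) v = 0 := by
  by_cases hv : v = 0
  · rw [hv, map_zero]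
  obtain ⟨P, hP⟩ := adj_aeval h hx hxk
  have h1 := (adj_N h hx).2
  have hex : ∃ a : ℕ, ((x - 1) ^ (a + 1)) v = 0 :=
    ⟨2 ^ k, by rw [pow_succ', Module.End.mul_apply, nil x hxk, LinearMap.zero_apply, map_zero]⟩
  have h2 := Nat.find_spec hex
  have h3 : ((x - 1) ^ (Nat.find hex)) v ≠ 0 := by
    rcases Nat.eq_zero_or_pos (Nat.find hex) with h4 | h4
    · rw [h4, pow_zero, Module.End.one_apply]; exact hv
    · intro h5
      have h6 := Nat.find_min hex (m := Nat.find hex - 1) (by omega)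
      exact h6 (by rwa [Nat.sub_add_cancel h4])
  obtain ⟨q1, hq1⟩ := (aeval_eq_zero_iff h2 h3 q).1 hq
  have hc : Commute (adj ω x) (x - 1) := by
    have h7 := (Commute.all (P : F[X]) X).map (aeval (x - 1))
    rw [aeval_X, ← hP] at h7
    exact h7
  rw [hq1, mul_comm, map_mul, Module.End.mul_apply, map_pow, aeval_X, h1, hc.mul_pow, Module.End.mul_apply, h2,
    map_zero, map_zero]

end P16_aux

theorem exists_chi (h : QS ω Q) {x : Module.End F V} (hx : QI Q x) {k : ℕ} (hxk : x ^ (2 ^ k) = 1) (v : V)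
    (φ : V →ₗ[F] F) :
    ∃ χ : cyc (x - 1) v →ₗ[F] cyc (x - 1) v →ₗ[F] F, ∀ (p q : F[X]) (u u' : cyc (x - 1) v),
      (u : V) = (aeval (x - 1) p) v → (u' : V) = (aeval (x - 1) q) v →
        χ u u' = φ ((aeval (x - 1) p) ((aeval (adj ω x - 1) q) v)) := by
  obtain ⟨P, hP⟩ := adj_aeval h hx hxk
  set N := x - 1 with hN
  have hN' : adj ω x - 1 = aeval N (P - 1) := by rw [map_sub, map_one, ← hP]
  have hcm : ∀ p q : F[X], aeval N p * aeval (adj ω x - 1) q = aeval (adj ω x - 1) q * aeval N p := by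
    intro p q
    rw [hN', ← aeval_comp, ← map_mul, ← map_mul, mul_comm]
  let f : F[X] →ₗ[F] cyc N v :=
    { toFun := fun p => ⟨(aeval N p) v, mem_cyc_iff.2 ⟨p, rfl⟩⟩
      map_add' := fun p q => by
        apply Subtype.ext
        rw [Submodule.coe_add]
        simp only [map_add, LinearMap.add_apply]
      map_smul' := fun c p => by
        apply Subtype.ext
        rw [Submodule.coe_smul]
        simp only [map_smul, LinearMap.smul_apply, RingHom.id_apply] }
  have hf : ∀ p, ((f p : cyc N v) : V) = (aeval N p) v := fun _ => rfl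
  have hsurj : LinearMap.range f = ⊤ := by
    rw [LinearMap.range_eq_top]
    rintro ⟨u, hu⟩
    obtain ⟨p, hp⟩ := mem_cyc_iff.1 hu
    exact ⟨p, Subtype.ext hp.symm⟩
  obtain ⟨ρ, hρ⟩ := f.exists_rightInverse_of_surjective hsurj
  have hρ' : ∀ u : cyc N v, (aeval N (ρ u)) v = u := by
    intro u
    have h1 := LinearMap.congr_fun hρ u
    rw [LinearMap.comp_apply, LinearMap.id_apply] at h1
    rw [← hf, h1]
  refine ⟨LinearMap.mk₂ F (fun u u' => φ ((aeval N (ρ u)) ((aeval (adj ω x - 1) (ρ u')) v))) ?_ ?_ ?_ ?_, ?_⟩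
  · intro a b c
    simp only [map_add, LinearMap.add_apply]
  · intro r a b
    simp only [map_smul, LinearMap.smul_apply]
  · intro a b c
    simp only [map_add, LinearMap.add_apply]
  · intro r a b
    simp only [map_smul, LinearMap.smul_apply]
  · intro p q u u' hu hu'
    rw [LinearMap.mk₂_apply]
    have h1 : (aeval (adj ω x - 1) (ρ u')) v = (aeval (adj ω x - 1) q) v := by
      rw [← sub_eq_zero, ← LinearMap.sub_apply, ← map_sub]
      refine P16_aux.key h hx hxk v _ ?_
      rw [map_sub, LinearMap.sub_apply, sub_eq_zero]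
      rw [hρ' u', hu']
    rw [h1, ← Module.End.mul_apply, ← Module.End.mul_apply, hcm, hcm, Module.End.mul_apply, Module.End.mul_apply,
      hρ' u, hu]

end

end OR
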