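import Pool.Agent.OR.P15
import Pool.Agent.OR.P16

/-!
# MP_6c3636_al, OR, module P17: the Wall form of case (I) (P4) (helper96)

`N := x - 1`, `x' := adj ω x`, `N' := x' - 1 = adj ω N`, `th = N * N' = N + N'` (`th_eq`), `U := cyc N v`. `φ` from P15, `χ` from P16. It is convenient to have first: for operators `A`, `B` which are polynomials in `N` (`x`, `x'`, `th`, `N`, `N'` are, by `adj_aeval`) `χ (A v) (B v) = φ (A (adj ω B) v)`
(`adj ω (q(N)) = q(N')`: LieP `P10_adj_aeval`). Invariance: `χ (x A v) (x B v) = φ (x A (adj ω B) x' v) = φ (A (adj ω B) v)`. `χ u u = Q u`: by `cyc_eq_span` `U` is spanned by the vectors `th ^ i v`, `N th ^ i v`; both sides are quadratic in `u`, so it is enough to check the values on these vectors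
and the polar forms `χ u u' + χ u' u = ω u u'` on pairs (then `D := {u | ...}`; e.g. first prove `χ u u' + χ u' u = ω u u'` for all `u, u' ∈ U` by bilinearity, then `{u | χ u u = Q u}` is closed under sums and multiples). (a) `χ (th ^ i v) (th ^ i v) = φ (th ^ (2 i) v) = Q (N ^ (2 i) v) = Q (th ^ i v)`
(`q_th`). (b) `χ (N th ^ i v) (N th ^ i v) = φ (N N' th ^ (2 i) v) = φ (th ^ (2 i + 1) v) = Q (N ^ (2 i + 1) v) = Q (N th ^ i v)`. (c) `χ (th ^ i v) (th ^ j v) + χ (th ^ j v) (th ^ i v) = 2 φ (th ^ (i+j) v) = 0 = ω (th ^ i v) (th ^ j v)` (`th_self_adj`, `om_th`). (d) the same for `N th ^ i v`, `N th ^ j v`: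
`ω (N th ^ i v) (N th ^ j v) = ω (th ^ (i+j+1) v) v = 0`. (e) `χ (th ^ i v) (N th ^ j v) + χ (N th ^ j v) (th ^ i v) = φ ((N' + N) th ^ (i+j) v) = φ (th ^ (i+j+1) v) = Q (N ^ (i+j+1) v) = ω (N th ^ (i+j) v) v = ω (N th ^ j v) (th ^ i v)` (`q_pow`, `th_self_adj`).
Nondegenerate: if `u ∈ U`, `u ≠ 0` then `N ^ l u = c • N ^ (2 s) v`, `c ≠ 0` (`cyc_top` with `a = 2 s`), and `χ (N ^ l u) v = χ u (N' ^ l v)` (`u = A v`: both are `φ (A N ^ l v)`), while `χ (N ^ (2 s) v) v = φ (N ^ (2 s) v) = φ (th ^ s v) = Q (N ^ s v) ≠ 0`: `th ^ s v = x' ^ s (N ^ (2 s) v)` and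
`x' (N ^ (2 s) v) = N ^ (2 s) v` as `N ^ (2 s + 1) v = 0`.
-/

namespace OR

noncomputable section

open Classical Polynomial

open LieP.PS (Sy Iso adj rsf oc)

variable {F : Type} [Field F] [CharP F 2] {V : Type} [AddCommGroup V] [Module F V] [FiniteDimensional F V]
  {ω : V →ₗ[F] V →ₗ[F] F} {Q : V → F}

namespace P17_aux

/-- polynomials in `x - 1` -/
def PO (x A : Module.End F V) : Prop := ∃ p : F[X], A = aeval (x - 1) p

omit [CharP F 2] [FiniteDimensional F V] in
theorem PO.one (x : Module.End F V) : PO x (1 : Module.End F V) := ⟨1, by rw [map_one]⟩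

omit [CharP F 2] [FiniteDimensional F V] in
theorem PO.mul {x A B : Module.End F V} (hA : PO x A) (hB : PO x B) : PO x (A * B) := by
  obtain ⟨p, rfl⟩ := hA
  obtain ⟨q, rfl⟩ := hB
  exact ⟨p * q, by rw [map_mul]⟩

omit [CharP F 2] [FiniteDimensional F V] in
theorem PO.sub {x A B : Module.End F V} (hA : PO x A) (hB : PO x B) : PO x (A - B) := by
  obtain ⟨p, rfl⟩ := hA
  obtain ⟨q, rfl⟩ := hB
  exact ⟨p - q, by rw [map_sub]⟩

omit [CharP F 2] [FiniteDimensional F V] in
theorem PO.pow {x A : Module.End F V} (hA : PO x A) (n : ℕ) : PO x (A ^ n) := by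
  obtain ⟨p, rfl⟩ := hA
  exact ⟨p ^ n, by rw [map_pow]⟩

omit [CharP F 2] [FiniteDimensional F V] in
theorem PO.comm {x A B : Module.End F V} (hA : PO x A) (hB : PO x B) : A * B = B * A := by
  obtain ⟨p, rfl⟩ := hA
  obtain ⟨q, rfl⟩ := hB
  rw [← map_mul, mul_comm, map_mul]

omit [CharP F 2] [FiniteDimensional F V] in
theorem PO.N (x : Module.End F V) : PO x (x - 1) := ⟨X, by rw [aeval_X]⟩

omit [CharP F 2] [FiniteDimensional F V] in
theorem PO.self (x : Module.End F V) : PO x x := by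
  refine ⟨X + 1, ?_⟩
  rw [map_add, aeval_X, map_one, sub_add_cancel]

theorem PO.ax (h : QS ω Q) {x : Module.End F V} (hx : QI Q x) {k : ℕ} (hxk : x ^ (2 ^ k) = 1) :
    PO x (adj ω x) := adj_aeval h hx hxk

theorem PO.th (h : QS ω Q) {x : Module.End F V} (hx : QI Q x) {k : ℕ} (hxk : x ^ (2 ^ k) = 1) :
    PO x (th ω x) := by
  unfold OR.th
  exact (PO.N x).mul ((PO.ax h hx hxk).sub (PO.one x))

omit [CharP F 2] in
theorem adj_poly (h : Sy ω) (A : Module.End F V) (p : F[X]) :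
    adj ω (aeval A p) = aeval (adj ω A) p := by
  induction p using Polynomial.induction_on' with
  | add p q hp hq => rw [map_add, map_add, LieP.PS.adj_add h, hp, hq]
  | monomial n r =>
    rw [aeval_monomial, aeval_monomial, ← Algebra.smul_def, ← Algebra.smul_def, LieP.PS.adj_smul h,
      LieP.PS.adj_pow h]

theorem PO.adj (h : QS ω Q) {x : Module.End F V} (hx : QI Q x) {k : ℕ} (hxk : x ^ (2 ^ k) = 1)
    {A : Module.End F V} (hA : PO x A) : PO x (adj ω A) := by
  obtain ⟨p, rfl⟩ := hA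
  obtain ⟨P, hP⟩ := (PO.ax h hx hxk).sub (PO.one x)
  refine ⟨p.comp P, ?_⟩
  rw [adj_poly h.sy, (adj_N h hx).1, hP, aeval_comp]

omit [CharP F 2] [FiniteDimensional F V] in
theorem PO.mem {x A : Module.End F V} (hA : PO x A) (v : V) : A v ∈ cyc (x - 1) v := by
  obtain ⟨p, rfl⟩ := hA
  exact mem_cyc_iff.mpr ⟨p, rfl⟩

/-- the defining property of the form of P16 -/
def Chi (ω : V →ₗ[F] V →ₗ[F] F) (x : Module.End F V) (v : V) (φ : V →ₗ[F] F)
    (χ : cyc (x - 1) v →ₗ[F] cyc (x - 1) v →ₗ[F] F) : Prop :=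
  ∀ (p q : F[X]) (u u' : cyc (x - 1) v),
      (u : V) = (aeval (x - 1) p) v → (u' : V) = (aeval (x - 1) q) v →
        χ u u' = φ ((aeval (x - 1) p) ((aeval (adj ω x - 1) q) v))

theorem chi_op (h : QS ω Q) {x : Module.End F V} (hx : QI Q x) {v : V} {φ : V →ₗ[F] F}
    {χ : cyc (x - 1) v →ₗ[F] cyc (x - 1) v →ₗ[F] F} (hχ : Chi ω x v φ χ) {A B : Module.End F V} (hA : PO x A)
    (hB : PO x B) {u u' : cyc (x - 1) v} (hu : (u : V) = A v) (hu' : (u' : V) = B v) :
    χ u u' = φ ((A * adj ω B) v) := by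
  obtain ⟨p, rfl⟩ := hA
  obtain ⟨q, rfl⟩ := hB
  rw [hχ p q u u' hu hu', adj_poly h.sy, (adj_N h hx).1, Module.End.mul_apply]

/-- the polar form against `v` -/
theorem polar_one (h : QS ω Q) {x : Module.End F V} (hx : QI Q x) {k : ℕ} (hxk : x ^ (2 ^ k) = 1) {v : V}
    {φ : V →ₗ[F] F} (hφ : ∀ j : ℕ, φ ((th ω x ^ j) v) = Q (((x - 1) ^ j) v))
    {χ : cyc (x - 1) v →ₗ[F] cyc (x - 1) v →ₗ[F] F} (hχ : Chi ω x v φ χ) (v₀ : cyc (x - 1) v) (hv₀ : (v₀ : V) = v)
    (u : cyc (x - 1) v) : χ u v₀ + χ v₀ u = ω u v := by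
  have hv1 : (v₀ : V) = (1 : Module.End F V) v := by rw [hv₀, Module.End.one_apply]
  have hth := PO.th h hx hxk
  have e1 : adj ω (1 : Module.End F V) = 1 := LieP.PS.adj_one h.sy
  have key : ∀ z (hz : z ∈ Submodule.span F (Set.range (fun i : ℕ => (th ω x ^ i) v) ∪
      Set.range fun i : ℕ => (x - 1) ((th ω x ^ i) v))), ∀ u : cyc (x - 1) v, (u : V) = z →
      χ u v₀ + χ v₀ u = ω u v := by
    intro z hz
    induction hz using Submodule.span_induction with
    | mem z hz =>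
      intro u hu
      rcases hz with ⟨i, rfl⟩ | ⟨i, rfl⟩
      · have hA : PO x (th ω x ^ i) := hth.pow i
        have e2 : adj ω (th ω x ^ i) = th ω x ^ i := by
          apply LieP.PS.adj_eq h.sy
          exact fun a b => th_self_adj h hx i a b
        rw [chi_op h hx hχ hA (PO.one x) hu hv1, chi_op h hx hχ (PO.one x) hA hv1 hu, e1, e2, mul_one, one_mul,
          CharTwo.add_self_eq_zero, hu, om_th h hx]
      · have hA : PO x ((x - 1) * th ω x ^ i) := (PO.N x).mul (hth.pow i)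
        have hu' : (u : V) = ((x - 1) * th ω x ^ i) v := hu
        have e2 : adj ω (th ω x ^ i) = th ω x ^ i := by
          apply LieP.PS.adj_eq h.sy
          exact fun a b => th_self_adj h hx i a b
        have e3 : adj ω ((x - 1) * th ω x ^ i) = th ω x ^ i * (adj ω x - 1) := by
          rw [LieP.PS.adj_mul h.sy, e2, (adj_N h hx).1]
        have e4 : th ω x ^ i * (adj ω x - 1) = (adj ω x - 1) * th ω x ^ i :=
          (hth.pow i).comm ((PO.ax h hx hxk).sub (PO.one x))
        have e5 : (x - 1) * th ω x ^ i + (adj ω x - 1) * th ω x ^ i = th ω x ^ (i + 1) := by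
          rw [← add_mul, pow_succ']
          congr 1
          have h2 : (2 : Module.End F V) = 0 := by
            ext w
            have h3 : ((2 : Module.End F V)) = 1 + 1 := one_add_one_eq_two.symm
            rw [h3, LinearMap.add_apply, Module.End.one_apply, LinearMap.zero_apply, ← two_smul F w,
              CharTwo.two_eq_zero, zero_smul]
          rw [th_eq h hx]
          calc x - 1 + (adj ω x - 1) = (x + adj ω x) - (1 + 1) := by abel
            _ = x + adj ω x := by rw [one_add_one_eq_two, h2, sub_zero]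
        rw [chi_op h hx hχ hA (PO.one x) hu' hv1, chi_op h hx hχ (PO.one x) hA hv1 hu', e1, e3, e4, mul_one, one_mul,
          ← map_add, ← LinearMap.add_apply, e5, hφ, hu', q_pow h hx, Module.End.mul_apply]
    | zero =>
      intro u hu
      have : u = 0 := Subtype.ext hu
      rw [this, map_zero, LinearMap.zero_apply, map_zero, add_zero, Submodule.coe_zero, map_zero,
        LinearMap.zero_apply]
    | add a b ha hb iha ihb =>
      intro u hu
      rw [← cyc_eq_span h hx hxk] at ha hb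
      have e : u = ⟨a, ha⟩ + ⟨b, hb⟩ := Subtype.ext hu
      have i1 := iha ⟨a, ha⟩ rfl
      have i2 := ihb ⟨b, hb⟩ rfl
      rw [e, map_add, LinearMap.add_apply, map_add, Submodule.coe_add, map_add, LinearMap.add_apply, ← i1, ← i2]
      ring
    | smul c a ha iha =>
      intro u hu
      rw [← cyc_eq_span h hx hxk] at ha
      have e : u = c • ⟨a, ha⟩ := Subtype.ext hu
      have i1 := iha ⟨a, ha⟩ rfl
      rw [e, map_smul, LinearMap.smul_apply, map_smul, Submodule.coe_smul, map_smul, LinearMap.smul_apply, ← i1,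
        smul_eq_mul, smul_eq_mul, smul_eq_mul]
      ring
  exact key _ ((le_of_eq (cyc_eq_span h hx hxk v)) u.2) u rfl

omit [CharP F 2] [FiniteDimensional F V] in
theorem exists_op {x : Module.End F V} {v : V} (u : cyc (x - 1) v) : ∃ A, PO x A ∧ (u : V) = A v := by
  obtain ⟨p, hp⟩ := mem_cyc_iff.mp u.2
  exact ⟨_, ⟨p, rfl⟩, hp⟩

theorem polar (h : QS ω Q) {x : Module.End F V} (hx : QI Q x) {k : ℕ} (hxk : x ^ (2 ^ k) = 1) {v : V}
    {φ : V →ₗ[F] F} (hφ : ∀ j : ℕ, φ ((th ω x ^ j) v) = Q (((x - 1) ^ j) v))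
    {χ : cyc (x - 1) v →ₗ[F] cyc (x - 1) v →ₗ[F] F} (hχ : Chi ω x v φ χ) (u u' : cyc (x - 1) v) :
    χ u u' + χ u' u = ω u u' := by
  obtain ⟨A, hA, hu⟩ := exists_op u
  obtain ⟨B, hB, hu'⟩ := exists_op u'
  have hBa := PO.adj h hx hxk hB
  have hAa := PO.adj h hx hxk hA
  have hC : PO x (adj ω B * A) := hBa.mul hA
  have h1 := polar_one h hx hxk hφ hχ ⟨v, self_mem_cyc _ v⟩ rfl ⟨(adj ω B * A) v, hC.mem v⟩
  have hv1 : ((⟨v, self_mem_cyc _ v⟩ : cyc (x - 1) v) : V) = (1 : Module.End F V) v := rfl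
  rw [chi_op h hx hχ hC (PO.one x) rfl hv1, chi_op h hx hχ (PO.one x) hC hv1 rfl, LieP.PS.adj_one h.sy, mul_one,
    one_mul, LieP.PS.adj_mul h.sy, LieP.PS.adj_adj h.sy] at h1
  rw [chi_op h hx hχ hA hB hu hu', chi_op h hx hχ hB hA hu' hu, hA.comm hBa, hB.comm hAa, h1, hu, hu']
  show ω ((adj ω B * A) v) v = _
  rw [Module.End.mul_apply, LieP.PS.adj_spec' h.sy]

theorem quad (h : QS ω Q) {x : Module.End F V} (hx : QI Q x) {k : ℕ} (hxk : x ^ (2 ^ k) = 1) {v : V}
    {φ : V →ₗ[F] F} (hφ : ∀ j : ℕ, φ ((th ω x ^ j) v) = Q (((x - 1) ^ j) v))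
    {χ : cyc (x - 1) v →ₗ[F] cyc (x - 1) v →ₗ[F] F} (hχ : Chi ω x v φ χ) (u : cyc (x - 1) v) :
    χ u u = Q u := by
  have hth := PO.th h hx hxk
  have key : ∀ z (hz : z ∈ Submodule.span F (Set.range (fun i : ℕ => (th ω x ^ i) v) ∪
      Set.range fun i : ℕ => (x - 1) ((th ω x ^ i) v))), ∀ u : cyc (x - 1) v, (u : V) = z →
      χ u u = Q u := by
    intro z hz
    induction hz using Submodule.span_induction with
    | mem z hz =>
      intro u hu
      rcases hz with ⟨i, rfl⟩ | ⟨i, rfl⟩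
      · have hA : PO x (th ω x ^ i) := hth.pow i
        have e2 : adj ω (th ω x ^ i) = th ω x ^ i := by
          apply LieP.PS.adj_eq h.sy
          exact fun a b => th_self_adj h hx i a b
        rw [chi_op h hx hχ hA hA hu hu, e2, ← pow_add, hφ, hu, (q_th h hx i v).1, two_mul]
      · have hA : PO x ((x - 1) * th ω x ^ i) := (PO.N x).mul (hth.pow i)
        have hu' : (u : V) = ((x - 1) * th ω x ^ i) v := hu
        have e2 : adj ω (th ω x ^ i) = th ω x ^ i := by
          apply LieP.PS.adj_eq h.sy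
          exact fun a b => th_self_adj h hx i a b
        have e3 : adj ω ((x - 1) * th ω x ^ i) = th ω x ^ i * (adj ω x - 1) := by
          rw [LieP.PS.adj_mul h.sy, e2, (adj_N h hx).1]
        have hN' := (PO.ax h hx hxk).sub (PO.one x)
        have e4 : (x - 1) * th ω x ^ i * (th ω x ^ i * (adj ω x - 1)) = th ω x ^ (2 * i + 1) := by
          have e5 : th ω x ^ i * (adj ω x - 1) = (adj ω x - 1) * th ω x ^ i := (hth.pow i).comm hN'
          calc (x - 1) * th ω x ^ i * (th ω x ^ i * (adj ω x - 1))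
              = (x - 1) * (th ω x ^ i * (th ω x ^ i * (adj ω x - 1))) := mul_assoc _ _ _
            _ = (x - 1) * ((adj ω x - 1) * (th ω x ^ i * th ω x ^ i)) := by
                rw [e5, ← mul_assoc (th ω x ^ i) (adj ω x - 1), e5, mul_assoc (adj ω x - 1)]
            _ = ((x - 1) * (adj ω x - 1)) * (th ω x ^ i * th ω x ^ i) := (mul_assoc _ _ _).symm
            _ = th ω x ^ (2 * i + 1) := by
                rw [← pow_add, ← two_mul, pow_succ']
                rfl
        rw [chi_op h hx hχ hA hA hu' hu', e3, e4, hφ, hu', Module.End.mul_apply, (q_th h hx i v).2]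
    | zero =>
      intro u hu
      have : u = 0 := Subtype.ext hu
      rw [this, map_zero, Submodule.coe_zero, h.zero]
    | add a b ha hb iha ihb =>
      intro u hu
      rw [← cyc_eq_span h hx hxk] at ha hb
      have e : u = ⟨a, ha⟩ + ⟨b, hb⟩ := Subtype.ext hu
      have i1 := iha ⟨a, ha⟩ rfl
      have i2 := ihb ⟨b, hb⟩ rfl
      have i3 := polar h hx hxk hφ hχ ⟨a, ha⟩ ⟨b, hb⟩
      rw [e, map_add, map_add, LinearMap.add_apply, LinearMap.add_apply, Submodule.coe_add, h.add, ← i1,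
        ← i2, ← i3]
      ring
    | smul c a ha iha =>
      intro u hu
      rw [← cyc_eq_span h hx hxk] at ha
      have e : u = c • ⟨a, ha⟩ := Subtype.ext hu
      have i1 := iha ⟨a, ha⟩ rfl
      rw [e, map_smul, map_smul, LinearMap.smul_apply, Submodule.coe_smul, h.smul, ← i1, smul_eq_mul, smul_eq_mul]
      ring
  exact key _ ((le_of_eq (cyc_eq_span h hx hxk v)) u.2) u rfl

end P17_aux

theorem exists_form_one (h : QS ω Q) {x : Module.End F V} (hx : QI Q x) {k : ℕ} (hxk : x ^ (2 ^ k) = 1) {s : ℕ} {v : V}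
    (hv : ((x - 1) ^ (2 * s + 1)) v = 0) (hv' : ((x - 1) ^ (2 * s)) v ≠ 0) (hQ : Q (((x - 1) ^ s) v) ≠ 0)
    (hxU : ∀ u ∈ cyc (x - 1) v, x u ∈ cyc (x - 1) v) :
    ∃ χ : cyc (x - 1) v →ₗ[F] cyc (x - 1) v →ₗ[F] F,
      (∀ u : cyc (x - 1) v, χ u u = Q u) ∧ (∀ u, (∀ v, χ u v = 0) → u = 0) ∧
      ∀ u u' : cyc (x - 1) v, χ (x.restrict hxU u) (x.restrict hxU u') = χ u u' := by
  obtain ⟨φ, hφ⟩ := exists_phi h hx hv hv'
  obtain ⟨χ, hχ⟩ := exists_chi h hx hxk v φ
  have hχ' : P17_aux.Chi ω x v φ χ := hχ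
  refine ⟨χ, P17_aux.quad h hx hxk hφ hχ', ?_, ?_⟩
  · intro u hu
    by_contra hne
    have hne' : (u : V) ≠ 0 := fun h0 => hne (Subtype.ext h0)
    obtain ⟨l, c, hc, hl⟩ := cyc_top (Y := x - 1) (a := 2 * s) hv u.2 hne'
    obtain ⟨A, hA, hAu⟩ := P17_aux.exists_op u
    have hN' := (P17_aux.PO.ax h hx hxk).sub (P17_aux.PO.one x)
    have hB := hN'.pow l
    have h1 := hu ⟨((adj ω x - 1) ^ l) v, hB.mem v⟩
    rw [P17_aux.chi_op h hx hχ' hA hB hAu rfl] at h1
    have e1 : adj ω ((adj ω x - 1) ^ l) = (x - 1) ^ l := by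
      rw [LieP.PS.adj_pow h.sy, ← (adj_N h hx).1, LieP.PS.adj_adj h.sy]
    rw [e1, hA.comm ((P17_aux.PO.N x).pow l), Module.End.mul_apply, ← hAu, hl, map_smul, smul_eq_mul] at h1
    have e2 : ((x - 1) ^ (2 * s)) v = (th ω x ^ s) v := by
      rw [th_pow_eq h hx, Module.End.mul_apply]
      have h3 : (x - 1) (((x - 1) ^ (2 * s)) v) = 0 := by
        rw [← Module.End.mul_apply, ← pow_succ']
        exact hv
      have h4 : adj ω x (((x - 1) ^ (2 * s)) v) = ((x - 1) ^ (2 * s)) v := by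
        have h2 := LinearMap.congr_fun (adj_N h hx).2 (((x - 1) ^ (2 * s)) v)
        rw [LinearMap.sub_apply, Module.End.one_apply, Module.End.mul_apply, h3, map_zero] at h2
        exact sub_eq_zero.mp h2
      have h5 : ∀ i : ℕ, (adj ω x ^ i) (((x - 1) ^ (2 * s)) v) = ((x - 1) ^ (2 * s)) v := by
        intro i
        induction i with
        | zero => rw [pow_zero, Module.End.one_apply]
        | succ i ih => rw [pow_succ, Module.End.mul_apply, h4, ih]
      rw [h5]
    rw [e2, hφ] at h1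
    rcases mul_eq_zero.mp h1 with h2 | h2
    · exact hc h2
    · exact hQ h2
  · intro u u'
    obtain ⟨A, hA, hAu⟩ := P17_aux.exists_op u
    obtain ⟨B, hB, hBu⟩ := P17_aux.exists_op u'
    have hX := P17_aux.PO.self x
    have hBa := P17_aux.PO.adj h hx hxk hB
    have e1 : ((x.restrict hxU u : cyc (x - 1) v) : V) = (x * A) v := by
      rw [Module.End.mul_apply, ← hAu]
      rfl
    have e2 : ((x.restrict hxU u' : cyc (x - 1) v) : V) = (x * B) v := by
      rw [Module.End.mul_apply, ← hBu]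
      rfl
    rw [P17_aux.chi_op h hx hχ' (hX.mul hA) (hX.mul hB) e1 e2, P17_aux.chi_op h hx hχ' hA hB hAu hBu,
      LieP.PS.adj_mul h.sy]
    congr 2
    calc x * A * (adj ω B * adj ω x) = (A * adj ω B) * (x * adj ω x) := by
          rw [hX.comm hA, mul_assoc, mul_assoc, ← mul_assoc x, hX.comm hBa, mul_assoc]
      _ = A * adj ω B := by
          rw [LieP.PS.Iso.self_mul_adj h.sy (QI.iso h hx), mul_one]

end

end OR
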