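import Pool.Agent.OR.P10
import Pool.Agent.OR.P11
import Pool.Agent.OR.P17

/-!
# MP_6c3636_al, OR, module P18: commuting isometries with odd rank (P4 (I), (II)) (helper96, proofs helper88)

`case_one`: `exists_wall` (P11) for `U = cyc (x - 1) v` and `χ` of P17; `finrank U = 2 s + 1` (`finrank_cyc` with `a = 2 s`). `case_two`: `N := x - 1`, `N ^ (m + 1) v = 0`, `m` odd, `ω v (N ^ m v) ≠ 0` (so `N ^ m v ≠ 0`). `W := cyc N v` is nondegenerate: if `z ∈ W`, `z ≠ 0` then `N ^ l z = c • N ^ m v`, `c ≠ 0`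
(`cyc_top`), `ω z ((adj ω x - 1) ^ l v) = ω (N ^ l z) v = c * ω (N ^ m v) v ≠ 0`, and `(adj ω x - 1) ^ l v ∈ W` (`cyc_stab`). `exists_sum` (P10) for `g₁ =` the restriction of `x` to `W` and `g₂ = 1`: `rk g = finrank (range (N restricted to W)) + 0 = m` (`finrank_range_cyc`). `g` commutes with `x`:
check on `W` and on `oc ω W` (`isCompl_oc`, `oc_stable` of LieP P05). `one_or_two`: the hypothesis `h1` (I) with `N ^ (2 s) v ≠ 0` is `case_one`; if `N ^ (2 s) v = 0` then `s ≥ 1` (`s = 0`: `v = 0`, `Q v = 0`), `s = i + 1`, `0 ≠ Q (N ^ s v) = ω (N (th ^ i v)) v` (`q_pow`) and `th ^ i = adj ω x ^ i * N ^ (2 i)`,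
`N ^ (2 i + 2) v = 0`, so `N (th ^ i v) = adj ω x ^ i (N ^ (2 i + 1) v) = N ^ (2 i + 1) v`: `case_two` with `m = 2 i + 1`.
-/

namespace OR

noncomputable section

open Classical Polynomial

open LieP.PS (Sy Iso adj rsf oc)

variable {F : Type} [Field F] [CharP F 2] {V : Type} [AddCommGroup V] [Module F V] [FiniteDimensional F V]
  {ω : V →ₗ[F] V →ₗ[F] F} {Q : V → F}

/-- there is an isometry with odd rank which commutes with `x` -/
def OddC (Q : V → F) (x : Module.End F V) : Prop :=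
  ∃ g : V ≃ₗ[F] V, (∀ v, Q (g v) = Q v) ∧ (∀ v, g (x v) = x (g v)) ∧ Odd (rk (g : Module.End F V))

namespace P18_aux

/-- powers of `adj ω x - 1` preserve the cyclic subspace -/
theorem pow_mem (h : QS ω Q) {x : Module.End F V} (hx : QI Q x) {k : ℕ} (hxk : x ^ (2 ^ k) = 1) {v : V} (l : ℕ)
    {z : V} (hz : z ∈ cyc (x - 1) v) : ((adj ω x - 1) ^ l) z ∈ cyc (x - 1) v := by
  induction l with
  | zero => rw [pow_zero]; exact hz
  | succ l ih =>
    rw [pow_succ', Module.End.mul_apply, LinearMap.sub_apply, Module.End.one_apply]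
    exact Submodule.sub_mem _ (cyc_stab h hx hxk ih).2 ih

/-- the adjoint of the powers of `x - 1` -/
theorem om_adj (h : QS ω Q) (x : Module.End F V) (l : ℕ) (u v : V) :
    ω (((x - 1) ^ l) u) v = ω u (((adj ω x - 1) ^ l) v) := by
  rw [LieP.PS.adj_spec h.sy, LieP.PS.adj_pow h.sy, LieP.PS.adj_sub h.sy, LieP.PS.adj_one h.sy]

/-- the rank of the identity -/
theorem rk_refl (W : Type) [AddCommGroup W] [Module F W] :
    rk ((LinearEquiv.refl F W : W ≃ₗ[F] W) : Module.End F W) = 0 := by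
  have h1 : ((LinearEquiv.refl F W : W ≃ₗ[F] W) : Module.End F W) - 1 = 0 := by
    ext w
    rw [LinearMap.sub_apply, LinearEquiv.coe_coe, LinearEquiv.refl_apply, Module.End.one_apply, sub_self,
      LinearMap.zero_apply]
  rw [rk, h1, LinearMap.range_zero, finrank_bot]

end P18_aux

theorem case_one (h : QS ω Q) {x : Module.End F V} (hx : QI Q x) {k : ℕ} (hxk : x ^ (2 ^ k) = 1) {s : ℕ} {v : V}
    (hv : ((x - 1) ^ (2 * s + 1)) v = 0) (hv' : ((x - 1) ^ (2 * s)) v ≠ 0) (hQ : Q (((x - 1) ^ s) v) ≠ 0) :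
    OddC Q x := by
  have hxU : ∀ u ∈ cyc (x - 1) v, x u ∈ cyc (x - 1) v := fun u hu => (cyc_stab h hx hxk hu).1
  obtain ⟨χ, h1, h2, h3⟩ := exists_form_one h hx hxk hv hv' hQ hxU
  obtain ⟨g, g1, g2, g3⟩ := exists_wall h hx hxU χ h1 h2 h3
  refine ⟨g, g1, g2, ?_⟩
  rw [g3, finrank_cyc hv hv']
  exact ⟨s, rfl⟩

theorem case_two (h : QS ω Q) {x : Module.End F V} (hx : QI Q x) {k : ℕ} (hxk : x ^ (2 ^ k) = 1) {m : ℕ} {v : V}
    (hm : Odd m) (hv : ((x - 1) ^ (m + 1)) v = 0) (hv' : ω v (((x - 1) ^ m) v) ≠ 0) : OddC Q x := by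
  have hne : ((x - 1) ^ m) v ≠ 0 := by
    intro h0
    rw [h0, map_zero] at hv'
    exact hv' rfl
  have hxW : ∀ u ∈ cyc (x - 1) v, x u ∈ cyc (x - 1) v := fun u hu => (cyc_stab h hx hxk hu).1
  have hNW : ∀ u ∈ cyc (x - 1) v, (x - 1) u ∈ cyc (x - 1) v := fun u hu => cyc_stable hu
  have hW : ∀ w ∈ cyc (x - 1) v, (∀ w' ∈ cyc (x - 1) v, ω w w' = 0) → w = 0 := by
    intro z hz hz'
    by_contra hz0
    obtain ⟨l, c, hc, hl⟩ := cyc_top hv hz hz0
    have h1 : ω (((x - 1) ^ l) z) v = 0 := by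
      rw [P18_aux.om_adj h]
      exact hz' _ (P18_aux.pow_mem h hx hxk l (self_mem_cyc _ _))
    rw [hl, map_smul, LinearMap.smul_apply, smul_eq_mul, h.symm] at h1
    exact (mul_ne_zero hc hv') h1
  have hxO := LieP.PS.oc_stable h.sy (QI.iso h hx) hxW
  have hinj : Function.Injective (x.restrict hxW) := by
    intro a b hab
    have h1 := congrArg Subtype.val hab
    exact Subtype.ext (h.inj hx h1)
  obtain ⟨g, g1, g2, g3, g4⟩ := exists_sum h hW (LinearEquiv.ofInjectiveEndo (x.restrict hxW) hinj)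
    (LinearEquiv.refl F (oc ω (cyc (x - 1) v)))
    (fun w => by
      rw [LinearEquiv.coe_ofInjectiveEndo]
      exact hx w)
    (fun w => rfl)
  refine ⟨g, g3, fun z => ?_, ?_⟩
  · have hz : z ∈ cyc (x - 1) v ⊔ oc ω (cyc (x - 1) v) := by
      rw [(LieP.PS.isCompl_oc h.sy hW).sup_eq_top]
      exact Submodule.mem_top
    obtain ⟨a, ha, b, hb, rfl⟩ := Submodule.mem_sup.mp hz
    have e1 : g a = x a := g1 ⟨a, ha⟩
    have e2 : g (x a) = x (x a) := g1 ⟨x a, hxW a ha⟩
    have e3 : g b = b := g2 ⟨b, hb⟩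
    have e4 : g (x b) = x b := g2 ⟨x b, hxO b hb⟩
    rw [map_add, map_add, map_add, map_add, e1, e2, e3, e4]
  · rw [g4, P18_aux.rk_refl, add_zero]
    have h1 : ((LinearEquiv.ofInjectiveEndo (x.restrict hxW) hinj : cyc (x - 1) v ≃ₗ[F] cyc (x - 1) v) :
        Module.End F (cyc (x - 1) v)) - 1 = (x - 1).restrict hNW := by
      ext w
      rfl
    rw [rk, h1, finrank_range_cyc hv hne hNW]
    exact hm

theorem one_or_two (h : QS ω Q) {x : Module.End F V} (hx : QI Q x) {k : ℕ} (hxk : x ^ (2 ^ k) = 1) {s : ℕ} {v : V}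
    (hv : ((x - 1) ^ (2 * s + 1)) v = 0) (hQ : Q (((x - 1) ^ s) v) ≠ 0) : OddC Q x := by
  by_cases hv' : ((x - 1) ^ (2 * s)) v = 0
  · obtain _ | i := s
    · exfalso
      rw [Nat.mul_zero, pow_zero, Module.End.one_apply] at hv'
      rw [hv', map_zero, h.zero] at hQ
      exact hQ rfl
    · have hz : ((x - 1) ^ (2 * i + 1 + 1)) v = 0 := hv'
      have hfix : x (((x - 1) ^ (2 * i + 1)) v) = ((x - 1) ^ (2 * i + 1)) v := by
        rw [pow_succ', Module.End.mul_apply, LinearMap.sub_apply, Module.End.one_apply, sub_eq_zero] at hz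
        exact hz
      have hfix' : adj ω x (((x - 1) ^ (2 * i + 1)) v) = ((x - 1) ^ (2 * i + 1)) v := by
        have h1 := LinearMap.congr_fun (LieP.PS.Iso.adj_mul_self h.sy (QI.iso h hx)) (((x - 1) ^ (2 * i + 1)) v)
        rw [Module.End.mul_apply, Module.End.one_apply, hfix] at h1
        exact h1
      have hfixi : ∀ j : ℕ, (adj ω x ^ j) (((x - 1) ^ (2 * i + 1)) v) = ((x - 1) ^ (2 * i + 1)) v := by
        intro j
        induction j with
        | zero => rfl
        | succ j ih => rw [pow_succ, Module.End.mul_apply, hfix', ih]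
      have hc : Commute (x - 1) (adj ω x ^ i) :=
        ((comm_adj h hx).sub_left (Commute.one_left _)).pow_right i
      have h2 : (x - 1) ((th ω x ^ i) v) = ((x - 1) ^ (2 * i + 1)) v := by
        have e1 := LinearMap.congr_fun hc.eq (((x - 1) ^ (2 * i)) v)
        rw [Module.End.mul_apply, Module.End.mul_apply] at e1
        rw [th_pow_eq h hx, Module.End.mul_apply, e1, ← Module.End.mul_apply (x - 1), ← pow_succ', hfixi]
      rw [q_pow h hx, h2, h.symm] at hQ
      exact case_two h hx hxk (m := 2 * i + 1) ⟨i, rfl⟩ hz hQ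
  · exact case_one h hx hxk hv hv' hQ

end

end OR
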