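import Pool.Agent.OR.D05

/-!
# MP_6c3636_al, OR, module P19: correction by a commuting isometry (P4) (helper96)

`g` from `CQ`. If `rk g` is even we are done. Otherwise `g ∘ k` (`k` the commuting isometry with `rk k` odd): `g (k (x v)) = g (x (k v)) = y (g (k v))`, and `rk (g * k) + rk g + rk k` is even (`rk_mul`, D05), so `rk (g * k)` is even.
-/

namespace OR

noncomputable section

open Classical

variable {F : Type} [Field F] [CharP F 2] {V : Type} [AddCommGroup V] [Module F V] [FiniteDimensional F V]
  {ω : V →ₗ[F] V →ₗ[F] F} {Q : V → F}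

theorem co_of_odd (h : QS ω Q) {x y : Module.End F V} (hxy : CQ Q x y)
    (hg : ∃ g : V ≃ₗ[F] V, (∀ v, Q (g v) = Q v) ∧ (∀ v, g (x v) = x (g v)) ∧ Odd (rk (g : Module.End F V))) :
    CO Q x y := by
  obtain ⟨g, hgQ, hgx⟩ := hxy
  rcases Nat.even_or_odd (rk (g : Module.End F V)) with he | ho
  · exact ⟨g, hgQ, he, hgx⟩
  obtain ⟨k, hkQ, hkx, hko⟩ := hg
  refine ⟨k.trans g, fun v => ?_, ?_, fun v => ?_⟩
  · rw [LinearEquiv.trans_apply, hgQ, hkQ]
  · have h1 : ((k.trans g : V ≃ₗ[F] V) : Module.End F V) =
        (g : Module.End F V) * (k : Module.End F V) := by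
      apply LinearMap.ext
      intro v
      rfl
    have h2 := rk_mul h (g := (g : Module.End F V)) (k := (k : Module.End F V))
      (fun v => hgQ v) (fun v => hkQ v)
    rw [h1]
    rcases Nat.even_or_odd (rk ((g : Module.End F V) * (k : Module.End F V))) with h3 | h3
    · exact h3
    · exact absurd h2 (by
        rw [Nat.not_even_iff_odd]
        exact (h3.add_odd ho).add_odd hko)
  · rw [LinearEquiv.trans_apply, LinearEquiv.trans_apply, hkx, hgx]

end

end OR
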