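import Pool.Agent.OR.D05
import Pool.Agent.ParkerGL.A10

/-!
# MP_6c3636_al, OR, module P20: two complementary totally singular subspaces (P4 (III)) (helper96)

`finrank_hyp`: `X ≤ oc ω X` (`TSi.le_oc`, `finrank_oc`) gives `2 * finrank X ≤ finrank V`, the same for `Y`, and `finrank X + finrank Y = finrank V`. `exists_hyp`: the pairing `Y → Dual X`, `y ↦ ω · y` is an isomorphism (injective: `ω u y = 0` for `u ∈ X` and for `u ∈ Y` (`TSi.om`), so for all `u`; dimension). Let `g₂ y ∈ Y` be the element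
with `ω (g₁ u) (g₂ y) = ω u y` for all `u ∈ X`, i.e. `ω u (g₂ y) = ω (g₁.symm u) y`. `g (u + y) := g₁ u + g₂ y` (`Submodule.prodEquivOfIsCompl`). `Q (u + y) = ω u y`, so `g` is an isometry; `Even (rk g)`: `rk_ts'` (D05). It is injective (`QS.inj`), so a linear equivalence.
`co_hyp`: the restriction of `x` to `X` as an element of `ParkerGL.GV` (`X ≃ₗ[F] X`) and `ParkerGL.conj_pow` (A10) give `g₁` with `g₁ x = x ^ j g₁` on `X` (`X` is finite). `g` from `exists_hyp`. On `Y`: for `y ∈ Y`, `u ∈ X`: `ω (g (x u)) (g (x y)) = ω u y = ω ((x ^ j) (g u)) ((x ^ j) (g y))` and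
`g (x u) = (x ^ j) (g u)` runs through `X`, so `g (x y) - (x ^ j) (g y) ∈ Y` is orthogonal to `X` and to `Y`.
-/

namespace OR

noncomputable section

open Classical

open LieP.PS (Sy Iso adj rsf oc)

variable {F : Type} [Field F] [CharP F 2] {V : Type} [AddCommGroup V] [Module F V] [FiniteDimensional F V]
  {ω : V →ₗ[F] V →ₗ[F] F} {Q : V → F}

theorem finrank_hyp (h : QS ω Q) {X Y : Submodule F V} (hXY : IsCompl X Y) (hX : TSi Q X) (hY : TSi Q Y) :
    2 * Module.finrank F X = Module.finrank F V := by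
  have h1 := Submodule.finrank_mono (TSi.le_oc h hX)
  have h2 := Submodule.finrank_mono (TSi.le_oc h hY)
  have h3 := finrank_oc h.sy X
  have h4 := finrank_oc h.sy Y
  have h5 := Submodule.finrank_add_eq_of_isCompl hXY
  omega

namespace P20_aux

theorem eq_zero (h : QS ω Q) {X Y : Submodule F V} (hXY : IsCompl X Y) (hY : TSi Q Y) {d : V} (hd : d ∈ Y)
    (h1 : ∀ u ∈ X, ω u d = 0) : d = 0 := by
  apply h.sy.nd
  intro v
  rw [h.symm]
  have hv : v ∈ X ⊔ Y := by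
    rw [hXY.sup_eq_top]
    exact Submodule.mem_top
  obtain ⟨a, ha, b, hb, rfl⟩ := Submodule.mem_sup.1 hv
  rw [map_add, LinearMap.add_apply, h1 a ha, TSi.om h hY hb hd, add_zero]

/-- the pairing -/
def pair (ω : V →ₗ[F] V →ₗ[F] F) (X Y : Submodule F V) : Y →ₗ[F] Module.Dual F X :=
  X.subtype.dualMap ∘ₗ ω.flip ∘ₗ Y.subtype

omit [CharP F 2] [FiniteDimensional F V] in
theorem pair_apply (X Y : Submodule F V) (y : Y) (u : X) : pair ω X Y y u = ω (u : V) (y : V) := rfl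

theorem pair_inj (h : QS ω Q) {X Y : Submodule F V} (hXY : IsCompl X Y) (hY : TSi Q Y) :
    Function.Injective (pair ω X Y) := by
  rw [injective_iff_map_eq_zero]
  intro y hy
  apply Subtype.ext
  apply eq_zero h hXY hY y.2
  intro u hu
  have := LinearMap.congr_fun hy ⟨u, hu⟩
  rw [pair_apply] at this
  exact this

theorem exists_g2 (h : QS ω Q) {X Y : Submodule F V} (hXY : IsCompl X Y) (hX : TSi Q X) (hY : TSi Q Y)
    (g₁ : X ≃ₗ[F] X) : ∃ g₂ : Y ≃ₗ[F] Y, ∀ (y : Y) (u : X), ω (g₁ u : V) (g₂ y : V) = ω (u : V) (y : V) := by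
  have hd : Module.finrank F Y = Module.finrank F (Module.Dual F X) := by
    rw [Subspace.dual_finrank_eq]
    have h1 := finrank_hyp h hXY hX hY
    have h2 := finrank_hyp h hXY.symm hY hX
    omega
  obtain ⟨Φ, hΦ⟩ : ∃ Φ : Y ≃ₗ[F] Module.Dual F X, ∀ (y : Y) (u : X), Φ y u = ω (u : V) (y : V) :=
    ⟨LinearMap.linearEquivOfInjective (pair ω X Y) (pair_inj h hXY hY) hd, fun y u => rfl⟩
  refine ⟨(Φ.trans g₁.symm.dualMap).trans Φ.symm, fun y u => ?_⟩
  have e : Φ (((Φ.trans g₁.symm.dualMap).trans Φ.symm) y) = g₁.symm.dualMap (Φ y) := by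
    rw [LinearEquiv.trans_apply, LinearEquiv.trans_apply, LinearEquiv.apply_symm_apply]
  rw [← hΦ, e, LinearEquiv.dualMap_apply, LinearEquiv.symm_apply_apply, hΦ]

end P20_aux

open P20_aux in
theorem exists_hyp (h : QS ω Q) {X Y : Submodule F V} (hXY : IsCompl X Y) (hX : TSi Q X) (hY : TSi Q Y)
    (g₁ : X ≃ₗ[F] X) :
    ∃ g : V ≃ₗ[F] V, (∀ u : X, g u = g₁ u) ∧ (∀ y ∈ Y, g y ∈ Y) ∧ (∀ v, Q (g v) = Q v) ∧
      Even (rk (g : Module.End F V)) := by
  obtain ⟨g₂, hg₂⟩ := exists_g2 h hXY hX hY g₁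
  obtain ⟨g, hg⟩ : ∃ g : V ≃ₗ[F] V, ∀ (u : X) (y : Y), g ((u : V) + (y : V)) = (g₁ u : V) + (g₂ y : V) := by
    refine ⟨((X.prodEquivOfIsCompl Y hXY).symm.trans (g₁.prodCongr g₂)).trans (X.prodEquivOfIsCompl Y hXY),
      fun u y => ?_⟩
    have e : (X.prodEquivOfIsCompl Y hXY).symm ((u : V) + (y : V)) = (u, y) := by
      rw [LinearEquiv.symm_apply_eq]
      rfl
    rw [LinearEquiv.trans_apply, LinearEquiv.trans_apply, e]
    rfl
  have hgX : ∀ u : X, g u = g₁ u := by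
    intro u
    have := hg u 0
    rw [map_zero, Submodule.coe_zero, add_zero, add_zero] at this
    exact this
  have hgY : ∀ y : Y, g y = g₂ y := by
    intro y
    have := hg 0 y
    rw [map_zero, Submodule.coe_zero, zero_add, zero_add] at this
    exact this
  have hQ : ∀ v, Q (g v) = Q v := by
    intro v
    have hv : v ∈ X ⊔ Y := by
      rw [hXY.sup_eq_top]
      exact Submodule.mem_top
    obtain ⟨a, ha, b, hb, rfl⟩ := Submodule.mem_sup.1 hv
    have e1 := hg ⟨a, ha⟩ ⟨b, hb⟩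
    rw [e1, h.add, h.add, hX _ (g₁ ⟨a, ha⟩).2, hY _ (g₂ ⟨b, hb⟩).2, hX _ ha, hY _ hb, hg₂]
  refine ⟨g, hgX, ?_, hQ, ?_⟩
  · intro y hy
    rw [hgY ⟨y, hy⟩]
    exact (g₂ ⟨y, hy⟩).2
  · refine rk_ts' h (g := (g : Module.End F V)) hQ hX (finrank_hyp h hXY hX hY) ?_
    intro v hv
    have := hgX ⟨v, hv⟩
    show g v ∈ X
    rw [this]
    exact (g₁ ⟨v, hv⟩).2

namespace P20_aux

omit [CharP F 2] [FiniteDimensional F V] in
theorem pow_mem {x : Module.End F V} {X : Submodule F V} (hxX : ∀ v ∈ X, x v ∈ X) (n : ℕ) :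
    ∀ v ∈ X, (x ^ n) v ∈ X := by
  induction n with
  | zero => intro v hv; exact hv
  | succ n ih =>
    intro v hv
    rw [pow_succ', Module.End.mul_apply]
    exact hxX _ (ih v hv)

omit [CharP F 2] [FiniteDimensional F V] in
theorem pow_coe {x : Module.End F V} {X : Submodule F V} {y : X ≃ₗ[F] X} (hy : ∀ u : X, (y u : V) = x u)
    (n : ℕ) : ∀ u : X, ((y ^ n) u : V) = (x ^ n) u := by
  induction n with
  | zero => intro u; rfl
  | succ n ih =>
    intro u
    rw [pow_succ', pow_succ', LinearEquiv.mul_apply, Module.End.mul_apply, hy, ih]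

end P20_aux

open P20_aux in
theorem co_hyp [Finite F] (h : QS ω Q) {x : Module.End F V} (hx : QI Q x) {X Y : Submodule F V}
    (hXY : IsCompl X Y) (hX : TSi Q X) (hY : TSi Q Y) (hxX : ∀ v ∈ X, x v ∈ X) (hxY : ∀ v ∈ Y, x v ∈ Y)
    {k r j : ℕ} (hxr : x ^ (2 ^ k * r) = 1) (hr : Odd r) (hj : Odd j) (hjr : j ≡ 1 [MOD r]) :
    CO Q x (x ^ j) := by
  have hfin : Finite X := Module.finite_of_finite F
  have hinj : Function.Injective (x.restrict hxX) := by
    intro a b hab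
    apply Subtype.ext
    apply h.inj hx
    have := congrArg Subtype.val hab
    exact this
  obtain ⟨y, hy⟩ : ∃ y : X ≃ₗ[F] X, ∀ u : X, (y u : V) = x u :=
    ⟨LinearEquiv.ofInjectiveEndo (x.restrict hxX) hinj, fun u => rfl⟩
  have hy1 : y ^ (2 ^ k * r) = 1 := by
    apply LinearEquiv.ext
    intro u
    apply Subtype.ext
    rw [pow_coe hy, hxr]
    rfl
  obtain ⟨g₁, hg₁⟩ := ParkerGL.conj_pow (F := F) (V := X) y hy1 hr hjr hj
  have hg₁' : ∀ u : X, g₁ (y u) = (y ^ j) (g₁ u) := by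
    intro u
    rw [mul_inv_eq_iff_eq_mul] at hg₁
    exact LinearEquiv.congr_fun hg₁ u
  obtain ⟨g, hgX, hgY, hQ, hev⟩ := exists_hyp h hXY hX hY g₁
  have hxj : QI Q (x ^ j) := hx.pow j
  have hX1 : ∀ u : X, g (x u) = (x ^ j) (g u) := by
    intro u
    rw [← hy, hgX, hg₁', pow_coe hy, hgX]
  have hY1 : ∀ b ∈ Y, g (x b) = (x ^ j) (g b) := by
    intro b hb
    rw [← sub_eq_zero]
    apply eq_zero h hXY hY
    · exact Y.sub_mem (hgY _ (hxY b hb)) (pow_mem hxY j _ (hgY b hb))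
    · intro u hu
      obtain ⟨a, ha⟩ : ∃ a : X, g (x a) = u := by
        refine ⟨y.symm (g₁.symm ⟨u, hu⟩), ?_⟩
        rw [← hy, hgX, LinearEquiv.apply_symm_apply, LinearEquiv.apply_symm_apply]
      have e1 : ω (g (x a)) (g (x b)) = ω (a : V) b := by
        have e0 : ω (g (x a)) (g (x b)) = ω (x a) (x b) := QI.iso h (g := (g : Module.End F V)) hQ (x a) (x b)
        rw [e0, QI.iso h hx]
      have e2 : ω ((x ^ j) (g a)) ((x ^ j) (g b)) = ω (a : V) b := by
        rw [QI.iso h hxj]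
        exact QI.iso h (g := (g : Module.End F V)) hQ a b
      rw [map_sub, ← ha, e1, hX1, e2, sub_self]
  refine ⟨g, hQ, hev, ?_⟩
  intro v
  have hv : v ∈ X ⊔ Y := by
    rw [hXY.sup_eq_top]
    exact Submodule.mem_top
  obtain ⟨a, ha, b, hb, rfl⟩ := Submodule.mem_sup.1 hv
  rw [map_add, map_add, map_add, map_add, hX1 ⟨a, ha⟩, hY1 b hb]

end

end OR
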