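import Pool.Agent.OR.P14

/-!
# MP_6c3636_al, OR, module P21: totally singular generators (P4 (III)) (helper96)

`N := x - 1`, `N ^ (2 b) = 0`, `b ≥ 1`, `f v w := ω v (N ^ (2 b - 1) w)`; `f` is not zero (`hN'`) and `f v v = 0` for all `v` (`hII`), so `f v w ≠ 0` for some `v`, `w`. Write `q i v := Q (N ^ i v)`. (0) `q i v = 0` for all `v` and all `i ≥ b`: `i = l + 1` (`b ≥ 1`), `q_pow`: `q i v = ω (N (th ^ l v)) v = ω (x' ^ l (N ^ (2 l + 1) v)) v`
(`th_pow_eq`, `x' = adj ω x`); for `i > b` `2 l + 1 ≥ 2 b`, so this is `0`; for `i = b` `2 l + 1 = 2 b - 1`, `x'` fixes `N ^ (2 b - 1) v`, so it is `ω (N ^ (2 b - 1) v) v = f v v = 0`. (1) Claim by induction on `t = b - i`: for `i ≤ b` there are `v`, `w` with `ω v (N ^ (2 b - 1) w) ≠ 0` and `q j v = q j w = 0` for all `j ≥ i`.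
Step from `i + 1` to `i` (`i + 1 ≤ b`): `m := 2 b - 1 - 2 i ≥ 1`. `fix` (one correction): for `v`, `w` with `q j v = 0`, `q j w = 0` for `j ≥ i + 1` and `f v w ≠ 0`, `v' := v + κ • N ^ m w`, `κ := q i v / ω (th ^ i v) (N ^ m w)`, where `ω (th ^ i v) (N ^ m w) = ω v (th ^ i (N ^ m w)) = ω v (x' ^ i (N ^ (2 b - 1) w)) = f v w`
(`th_self_adj`, `th_pow_eq`, `x'` fixes `N ^ (2 b - 1) w`). For `j ≥ i`: `q j v' = q j v + κ ^ 2 * q (j + m) w + κ * ω (N ^ j v) (N ^ j (N ^ m w))`, `q (j + m) w = 0` as `j + m ≥ i + 1`, and `ω (N ^ j v) (N ^ j (N ^ m w)) = ω (th ^ j v) (N ^ m w) = ω v (x' ^ j (N ^ (2 j + m) w))` (`om_pow`), which is `f v w` for `j = i` and `0` for `j > i`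
(`2 j + m ≥ 2 b`). So `q j v' = 0` for `j > i` and `q i v' = q i v + κ * f v w = 0` (characteristic two; `κ = q i v / f v w`). `f v' w = f v w + κ * ω (N ^ m w) (N ^ (2 b - 1) w) = f v w`: `ω (N ^ m w) (N ^ (2 b - 1) w) = ω w ((adj ω N) ^ m (N ^ (2 b - 1) w)) = 0` (`adj_N`, `m ≥ 1`). Apply `fix` twice (to `v`, then to `w`; `f` is
symmetric: `ω v (N ^ (2 b - 1) w) = ω ((adj ω N) ^ (2 b - 1) v) w = ω (x' ^ (2 b - 1) (N ^ (2 b - 1) v)) w = ω (N ^ (2 b - 1) v) w`). `i = 0` is the theorem.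
-/

namespace OR

noncomputable section

open Classical Polynomial

open LieP.PS (Sy Iso adj rsf oc)

variable {F : Type} [Field F] [CharP F 2] {V : Type} [AddCommGroup V] [Module F V] [FiniteDimensional F V]
  {ω : V →ₗ[F] V →ₗ[F] F} {Q : V → F}

namespace P21_aux

/-- the inverse fixes the kernel of `x - 1` -/
theorem fix (h : QS ω Q) {x : Module.End F V} (hx : QI Q x) {u : V} (hu : (x - 1) u = 0) (l : ℕ) :
    (adj ω x ^ l) u = u := by
  have h1 : adj ω x u = u := by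
    have h2 := LinearMap.congr_fun (adj_N h hx).2 u
    rw [LinearMap.sub_apply, Module.End.one_apply, Module.End.mul_apply, hu, map_zero] at h2
    exact sub_eq_zero.mp h2
  induction l with
  | zero => rw [pow_zero, Module.End.one_apply]
  | succ l ih => rw [pow_succ, Module.End.mul_apply, h1, ih]

theorem top {x : Module.End F V} {b : ℕ} (hN : (x - 1) ^ (2 * b) = 0) {m : ℕ} (hm : 2 * b ≤ m) (w : V) :
    ((x - 1) ^ m) w = 0 := by
  rw [pow_eq_zero_of_le hm hN, LinearMap.zero_apply]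

theorem comp (x : Module.End F V) (i j : ℕ) (w : V) : ((x - 1) ^ i) (((x - 1) ^ j) w) = ((x - 1) ^ (i + j)) w := by
  rw [pow_add, Module.End.mul_apply]

/-- the pairing with a power of `th` -/
theorem th_top (h : QS ω Q) {x : Module.End F V} (hx : QI Q x) {b : ℕ} (hb : 1 ≤ b)
    (hN : (x - 1) ^ (2 * b) = 0) {j m : ℕ} (v w : V) :
    (2 * j + m = 2 * b - 1 → ω (((x - 1) ^ j) v) (((x - 1) ^ j) (((x - 1) ^ m) w)) = ω v (((x - 1) ^ (2 * b - 1)) w)) ∧
    (2 * b ≤ 2 * j + m → ω (((x - 1) ^ j) v) (((x - 1) ^ j) (((x - 1) ^ m) w)) = 0) := by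
  have h1 : ω (((x - 1) ^ j) v) (((x - 1) ^ j) (((x - 1) ^ m) w)) =
      ω v ((adj ω x ^ j) (((x - 1) ^ (2 * j + m)) w)) := by
    rw [om_pow h hx, th_self_adj h hx, th_pow_eq h hx, Module.End.mul_apply, comp]
  constructor
  · intro hm
    rw [h1, hm, fix h hx]
    have h2 : (x - 1) (((x - 1) ^ (2 * b - 1)) w) = ((x - 1) ^ (1 + (2 * b - 1))) w := by
      rw [← comp, pow_one]
    rw [h2]
    exact top hN (by omega) w
  · intro hm
    rw [h1, top hN hm, map_zero, map_zero]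

theorem symm (_ : QS ω Q) {x : Module.End F V} {b : ℕ} (hII : ∀ v, ω v (((x - 1) ^ (2 * b - 1)) v) = 0) (v w : V) :
    ω v (((x - 1) ^ (2 * b - 1)) w) = ω w (((x - 1) ^ (2 * b - 1)) v) := by
  have h1 := hII (v + w)
  rw [map_add, map_add, map_add, LinearMap.add_apply, LinearMap.add_apply, hII v, hII w, zero_add, add_zero] at h1
  have h2 := eq_neg_of_add_eq_zero_left h1
  rw [CharTwo.neg_eq] at h2
  exact h2.symm

/-- the high powers are singular -/
theorem high (h : QS ω Q) {x : Module.End F V} (hx : QI Q x) {b : ℕ} (hb : 1 ≤ b)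
    (hN : (x - 1) ^ (2 * b) = 0) (hII : ∀ v, ω v (((x - 1) ^ (2 * b - 1)) v) = 0) {i : ℕ} (hi : b ≤ i) (v : V) :
    Q (((x - 1) ^ i) v) = 0 := by
  obtain ⟨l, rfl⟩ : ∃ l, i = l + 1 := ⟨i - 1, by omega⟩
  rw [q_pow h hx, th_pow_eq h hx, Module.End.mul_apply]
  have hc : (x - 1) ((adj ω x ^ l) (((x - 1) ^ (2 * l)) v)) = (adj ω x ^ l) (((x - 1) ^ (2 * l + 1)) v) := by
    have h1 : Commute (x - 1) (adj ω x ^ l) :=
      ((comm_adj h hx).sub_left (Commute.one_left _)).pow_right l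
    have h2 := LinearMap.congr_fun h1.eq (((x - 1) ^ (2 * l)) v)
    rw [Module.End.mul_apply, Module.End.mul_apply] at h2
    rw [h2, pow_succ', Module.End.mul_apply]
  rw [hc]
  rcases Nat.lt_or_ge b (l + 1) with h3 | h3
  · rw [top hN (by omega), map_zero, map_zero, LinearMap.zero_apply]
  · have h4 : 2 * l + 1 = 2 * b - 1 := by omega
    rw [h4, fix h hx, h.symm, hII]
    have h5 : (x - 1) (((x - 1) ^ (2 * b - 1)) v) = ((x - 1) ^ (1 + (2 * b - 1))) v := by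
      rw [← comp, pow_one]
    rw [h5]
    exact top hN (by omega) v

/-- one correction -/
theorem corr (h : QS ω Q) {x : Module.End F V} (hx : QI Q x) {b : ℕ} (hb : 1 ≤ b)
    (hN : (x - 1) ^ (2 * b) = 0) (hII : ∀ v, ω v (((x - 1) ^ (2 * b - 1)) v) = 0) {i : ℕ} (hi : i + 1 ≤ b)
    {v w : V} (hv : ∀ j, i + 1 ≤ j → Q (((x - 1) ^ j) v) = 0) (hw : ∀ j, i + 1 ≤ j → Q (((x - 1) ^ j) w) = 0)
    (hf : ω v (((x - 1) ^ (2 * b - 1)) w) ≠ 0) :
    ∃ v' : V, ω v' (((x - 1) ^ (2 * b - 1)) w) ≠ 0 ∧ ∀ j, i ≤ j → Q (((x - 1) ^ j) v') = 0 := by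
  obtain ⟨m, hm⟩ : ∃ m, 2 * i + m = 2 * b - 1 := ⟨2 * b - 1 - 2 * i, by omega⟩
  have hm1 : 1 ≤ m := by omega
  set κ : F := Q (((x - 1) ^ i) v) / ω v (((x - 1) ^ (2 * b - 1)) w) with hκ
  refine ⟨v + κ • ((x - 1) ^ m) w, ?_, ?_⟩
  · have h1 : ω (((x - 1) ^ m) w) (((x - 1) ^ (2 * b - 1)) w) = 0 := by
      rw [symm h hII, comp, top hN (by omega), map_zero]
    rw [map_add, LinearMap.add_apply, map_smul, LinearMap.smul_apply, h1, smul_zero, add_zero]
    exact hf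
  · intro j hj
    have h2 : Q (((x - 1) ^ j) (v + κ • ((x - 1) ^ m) w)) = Q (((x - 1) ^ j) v) +
        κ * ω (((x - 1) ^ j) v) (((x - 1) ^ j) (((x - 1) ^ m) w)) := by
      rw [map_add, map_smul, h.add, h.smul, map_smul, smul_eq_mul, comp, hw (j + m) (by omega)]
      ring
    rw [h2]
    rcases Nat.eq_or_lt_of_le hj with h3 | h3
    · subst h3
      rw [(th_top h hx hb hN v w).1 hm, hκ, div_mul_cancel₀ _ hf, CharTwo.add_self_eq_zero]
    · rw [(th_top h hx hb hN v w).2 (by omega), mul_zero, add_zero]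
      exact hv j h3

end P21_aux

theorem exists_ts (h : QS ω Q) {x : Module.End F V} (hx : QI Q x) {b : ℕ} (hb : 1 ≤ b)
    (hN : (x - 1) ^ (2 * b) = 0) (hN' : (x - 1) ^ (2 * b - 1) ≠ 0)
    (hII : ∀ v, ω v (((x - 1) ^ (2 * b - 1)) v) = 0) :
    ∃ v w : V, ω v (((x - 1) ^ (2 * b - 1)) w) ≠ 0 ∧ (∀ i : ℕ, Q (((x - 1) ^ i) v) = 0) ∧
      ∀ i : ℕ, Q (((x - 1) ^ i) w) = 0 := by
  have hst : ∃ v w : V, ω v (((x - 1) ^ (2 * b - 1)) w) ≠ 0 := by
    by_contra hcon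
    push Not at hcon
    apply hN'
    ext w
    rw [LinearMap.zero_apply]
    exact h.sy.nd' _ fun v => hcon v w
  have key : ∀ t : ℕ, t ≤ b → ∃ v w : V, ω v (((x - 1) ^ (2 * b - 1)) w) ≠ 0 ∧
      (∀ j, b - t ≤ j → Q (((x - 1) ^ j) v) = 0) ∧ ∀ j, b - t ≤ j → Q (((x - 1) ^ j) w) = 0 := by
    intro t
    induction t with
    | zero =>
      intro _
      obtain ⟨v, w, hvw⟩ := hst
      exact ⟨v, w, hvw, fun j hj => P21_aux.high h hx hb hN hII (by omega) v,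
        fun j hj => P21_aux.high h hx hb hN hII (by omega) w⟩
    | succ t ih =>
      intro ht
      obtain ⟨v, w, h1, h2, h3⟩ := ih (by omega)
      obtain ⟨v', h4, h5⟩ := P21_aux.corr h hx hb hN hII (i := b - (t + 1)) (by omega)
        (fun j hj => h2 j (by omega)) (fun j hj => h3 j (by omega)) h1
      rw [P21_aux.symm h hII] at h4
      obtain ⟨w', h6, h7⟩ := P21_aux.corr h hx hb hN hII (i := b - (t + 1)) (by omega)
        (fun j hj => h3 j (by omega)) (fun j hj => h5 j (by omega)) h4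
      rw [P21_aux.symm h hII] at h6
      exact ⟨v', w', h6, h5, h7⟩
  obtain ⟨v, w, h1, h2, h3⟩ := key b le_rfl
  exact ⟨v, w, h1, fun i => h2 i (by omega), fun i => h3 i (by omega)⟩

end

end OR
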