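import Pool.Agent.OR.P14

/-!
# MP_6c3636_al, OR, module P22: the block of two totally singular generators (P4 (III)) (helper96)

`N := x - 1`, `N ^ (a + 1) = 0`, `ω v (N ^ a w) ≠ 0`, `X₀ := cyc N v`, `Y₀ := cyc N w`, totally singular (`tsi_cyc`), stable under `x` and `x' := adj ω x` (`cyc_stab`); `W := X₀ ⊔ Y₀`. `X₀ ⊓ Y₀ = ⊥`: if `z ≠ 0` is in both, `N ^ l z = c • N ^ a v`, `N ^ m z = d • N ^ a w`, `c, d ≠ 0` (`cyc_top`); `N ^ (a+1) = 0` gives `l = m`
(if `l < m` then `N ^ m z = N ^ (m - l) (N ^ l z) = 0`; note `N ^ a v ≠ 0`, `N ^ a w ≠ 0`), so `c • N ^ a v = d • N ^ a w`, and `ω v (N ^ a v) = 0` (`v`, `N ^ a v` are in the totally singular `X₀`), so `d * ω v (N ^ a w) = 0`, contradiction. `W` is nondegenerate: let `z ∈ W`, `z ≠ 0`, `z = z₁ + z₂`. Let `l` be maximal with `N ^ l z ≠ 0`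
(`N` nilpotent). `N (N ^ l z₁) + N (N ^ l z₂) = 0`, both are in `X₀`, `Y₀`, so both are `0` (`X₀ ⊓ Y₀ = ⊥`), so `N ^ l z₁ = α • N ^ a v` and `N ^ l z₂ = β • N ^ a w` (an element `u` of `cyc N v` with `N u = 0` is a multiple of `N ^ a v`: by `cyc_top` `N ^ t u = c • N ^ a v` with `c ≠ 0`, so `t = 0` or `u = 0`). `(α, β) ≠ 0`. `ω v (N ^ l z) = β * ω v (N ^ a w)`,
`ω w (N ^ l z) = α * ω w (N ^ a v)` (total singularity), and `ω w (N ^ a v) = ω v (N ^ a w)` up to sign: `ω (N ^ a v) w = ω v (x' ^ a (N ^ a w)) = ω v (N ^ a w)` (`adj_N`). So one of `ω (N ^ l z) v`, `ω (N ^ l z) w` is not zero, i.e. `ω z u ≠ 0` for `u = (x' - 1) ^ l v` or `(x' - 1) ^ l w`, which is in `W`. In `W`: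
`X := X₀.comap W.subtype`, `Y := Y₀.comap W.subtype`.
-/

namespace OR

noncomputable section

open Classical Polynomial

open LieP.PS (Sy Iso adj rsf oc)

variable {F : Type} [Field F] [CharP F 2] {V : Type} [AddCommGroup V] [Module F V] [FiniteDimensional F V]
  {ω : V →ₗ[F] V →ₗ[F] F} {Q : V → F}

namespace P22_aux

omit [FiniteDimensional F V] [CharP F 2] in
/-- an element of `cyc N v` which is killed by `N` is a multiple of `N ^ a v` -/
theorem ker_cyc {N : Module.End F V} {a : ℕ} {v : V} (h0 : (N ^ (a + 1)) v = 0) (h1 : (N ^ a) v ≠ 0) {u : V}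
    (hu : u ∈ cyc N v) (hNu : N u = 0) : ∃ c : F, u = c • (N ^ a) v := by
  by_cases hu0 : u = 0
  · exact ⟨0, by rw [hu0, zero_smul]⟩
  obtain ⟨t, c, hc, htc⟩ := cyc_top h0 hu hu0
  rcases Nat.eq_zero_or_pos t with ht | ht
  · refine ⟨c, ?_⟩
    rw [ht, pow_zero, Module.End.one_apply] at htc
    exact htc
  · exfalso
    obtain ⟨s, rfl⟩ : ∃ s, t = s + 1 := ⟨t - 1, by omega⟩
    rw [pow_succ, Module.End.mul_apply, hNu, map_zero] at htc
    exact (smul_ne_zero hc h1) htc.symm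

omit [FiniteDimensional F V] [CharP F 2] in
theorem pow_big {N : Module.End F V} {a : ℕ} (hN : N ^ (a + 1) = 0) {m : ℕ} (hm : a < m) (v : V) :
    (N ^ m) v = 0 := by
  obtain ⟨s, rfl⟩ : ∃ s, m = s + (a + 1) := ⟨m - (a + 1), by omega⟩
  rw [pow_add, hN, mul_zero, LinearMap.zero_apply]

omit [FiniteDimensional F V] [CharP F 2] in
theorem pow_stable {N : Module.End F V} {v z : V} (hz : z ∈ cyc N v) (l : ℕ) : (N ^ l) z ∈ cyc N v := by
  induction l with
  | zero => rw [pow_zero, Module.End.one_apply]; exact hz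
  | succ l ih => rw [pow_succ', Module.End.mul_apply]; exact cyc_stable ih

theorem adj_stable (h : QS ω Q) {x : Module.End F V} (hx : QI Q x) {k : ℕ} (hxk : x ^ (2 ^ k) = 1) {v z : V}
    (hz : z ∈ cyc (x - 1) v) (l : ℕ) : ((adj ω x - 1) ^ l) z ∈ cyc (x - 1) v := by
  induction l with
  | zero => rw [pow_zero, Module.End.one_apply]; exact hz
  | succ l ih =>
    rw [pow_succ', Module.End.mul_apply, LinearMap.sub_apply, Module.End.one_apply]
    exact Submodule.sub_mem _ (cyc_stab h hx hxk ih).2 ih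

theorem om_adj (h : QS ω Q) {x : Module.End F V} (hx : QI Q x) (l : ℕ) (u v : V) :
    ω (((x - 1) ^ l) u) v = ω u (((adj ω x - 1) ^ l) v) := by
  rw [LieP.PS.adj_spec h.sy, LieP.PS.adj_pow h.sy, (adj_N h hx).1]

/-- the pairing of the two chains is symmetric -/
theorem om_top (h : QS ω Q) {x : Module.End F V} (hx : QI Q x) {a : ℕ} (hN : (x - 1) ^ (a + 1) = 0) (v w : V) :
    ω (((x - 1) ^ a) v) w = ω v (((x - 1) ^ a) w) := by
  have hc : Commute (adj ω x) (x - 1) := by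
    have h1 := (comm_adj h hx).symm
    exact h1.sub_right (Commute.one_right _)
  have hx1 : adj ω x * x = 1 := LieP.PS.Iso.adj_mul_self h.sy (QI.iso h hx)
  have hfix : adj ω x (((x - 1) ^ a) w) = ((x - 1) ^ a) w := by
    have h1 : x (((x - 1) ^ a) w) = ((x - 1) ^ a) w := by
      have h2 : (x - 1) (((x - 1) ^ a) w) = 0 := by
        rw [← Module.End.mul_apply, ← pow_succ', hN, LinearMap.zero_apply]
      rw [LinearMap.sub_apply, Module.End.one_apply] at h2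
      exact sub_eq_zero.1 h2
    have h3 : adj ω x (x (((x - 1) ^ a) w)) = ((x - 1) ^ a) w := by
      rw [← Module.End.mul_apply, hx1, Module.End.one_apply]
    rwa [h1] at h3
  have hpow : ∀ j : ℕ, (adj ω x ^ j) (((x - 1) ^ a) w) = ((x - 1) ^ a) w := by
    intro j
    induction j with
    | zero => rw [pow_zero, Module.End.one_apply]
    | succ j ih => rw [pow_succ, Module.End.mul_apply, hfix, ih]
  rw [om_adj h hx, (adj_N h hx).2, hc.mul_pow, Module.End.mul_apply, hpow]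

/-- the two cyclic subspaces are independent -/
theorem inf_cyc (h : QS ω Q) {x : Module.End F V} (hx : QI Q x) {k : ℕ} (hxk : x ^ (2 ^ k) = 1) {a : ℕ}
    (hN : (x - 1) ^ (a + 1) = 0) {v w : V} (hvw : ω v (((x - 1) ^ a) w) ≠ 0)
    (hv : ∀ i : ℕ, Q (((x - 1) ^ i) v) = 0) {z : V} (hz : z ∈ cyc (x - 1) v) (hz' : z ∈ cyc (x - 1) w) :
    z = 0 := by
  by_contra hz0
  have hv0 : ((x - 1) ^ (a + 1)) v = 0 := by rw [hN, LinearMap.zero_apply]
  have hw0 : ((x - 1) ^ (a + 1)) w = 0 := by rw [hN, LinearMap.zero_apply]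
  have hva : ((x - 1) ^ a) v ≠ 0 := by
    intro h1
    rw [← om_top h hx hN, h1, map_zero, LinearMap.zero_apply] at hvw
    exact hvw rfl
  have hwa : ((x - 1) ^ a) w ≠ 0 := by
    intro h1
    rw [h1, map_zero] at hvw
    exact hvw rfl
  obtain ⟨l, c, hc, hl⟩ := cyc_top hv0 hz hz0
  obtain ⟨m, d, hd, hm⟩ := cyc_top hw0 hz' hz0
  have hlm : l = m := by
    rcases lt_trichotomy l m with hlt | heq | hgt
    · exfalso
      obtain ⟨s, rfl⟩ : ∃ s, m = s + l := ⟨m - l, by omega⟩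
      rw [pow_add, Module.End.mul_apply, hl, map_smul, ← Module.End.mul_apply, ← pow_add,
        pow_big hN (by omega), smul_zero] at hm
      exact (smul_ne_zero hd hwa) hm.symm
    · exact heq
    · exfalso
      obtain ⟨s, rfl⟩ : ∃ s, l = s + m := ⟨l - m, by omega⟩
      rw [pow_add, Module.End.mul_apply, hm, map_smul, ← Module.End.mul_apply, ← pow_add,
        pow_big hN (by omega), smul_zero] at hl
      exact (smul_ne_zero hc hva) hl.symm
  subst hlm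
  have h1 : ω v (((x - 1) ^ a) v) = 0 :=
    (tsi_cyc h hx hxk hv).om h (self_mem_cyc _ _) (pow_stable (self_mem_cyc _ _) a)
  have h2 : ω v (c • ((x - 1) ^ a) v) = ω v (d • ((x - 1) ^ a) w) := by rw [← hl, ← hm]
  rw [map_smul, map_smul, h1, smul_zero, smul_eq_mul] at h2
  rcases mul_eq_zero.1 h2.symm with h3 | h3
  · exact hd h3
  · exact hvw h3

/-- the sum of the two cyclic subspaces is nondegenerate -/
theorem nondeg (h : QS ω Q) {x : Module.End F V} (hx : QI Q x) {k : ℕ} (hxk : x ^ (2 ^ k) = 1) {a : ℕ}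
    (hN : (x - 1) ^ (a + 1) = 0) {v w : V} (hvw : ω v (((x - 1) ^ a) w) ≠ 0)
    (hv : ∀ i : ℕ, Q (((x - 1) ^ i) v) = 0) (hw : ∀ i : ℕ, Q (((x - 1) ^ i) w) = 0) {z : V}
    (hz : z ∈ cyc (x - 1) v ⊔ cyc (x - 1) w)
    (hort : ∀ u ∈ cyc (x - 1) v ⊔ cyc (x - 1) w, ω z u = 0) : z = 0 := by
  by_contra hz0
  have hv0 : ((x - 1) ^ (a + 1)) v = 0 := by rw [hN, LinearMap.zero_apply]
  have hw0 : ((x - 1) ^ (a + 1)) w = 0 := by rw [hN, LinearMap.zero_apply]
  have hva : ((x - 1) ^ a) v ≠ 0 := by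
    intro h1
    rw [← om_top h hx hN, h1, map_zero, LinearMap.zero_apply] at hvw
    exact hvw rfl
  have hwa : ((x - 1) ^ a) w ≠ 0 := by
    intro h1
    rw [h1, map_zero] at hvw
    exact hvw rfl
  have hex : ∃ m : ℕ, ((x - 1) ^ m) z = 0 := ⟨a + 1, by rw [hN, LinearMap.zero_apply]⟩
  have hm0 : Nat.find hex ≠ 0 := by
    intro h1
    have h2 := Nat.find_spec hex
    rw [h1, pow_zero, Module.End.one_apply] at h2
    exact hz0 h2
  obtain ⟨l, hl⟩ : ∃ l, Nat.find hex = l + 1 := ⟨Nat.find hex - 1, by omega⟩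
  have hl1 : ((x - 1) ^ (l + 1)) z = 0 := by
    have h2 := Nat.find_spec hex
    rwa [hl] at h2
  have hl0 : ((x - 1) ^ l) z ≠ 0 := Nat.find_min hex (by omega)
  obtain ⟨z₁, hz₁, z₂, hz₂, hz12⟩ := Submodule.mem_sup.1 hz
  have hs : ((x - 1) ^ (l + 1)) z₁ + ((x - 1) ^ (l + 1)) z₂ = 0 := by
    rw [← map_add, hz12, hl1]
  have hz₁0 : ((x - 1) ^ (l + 1)) z₁ = 0 := by
    refine inf_cyc h hx hxk hN hvw hv (pow_stable hz₁ _) ?_
    rw [eq_neg_of_add_eq_zero_left hs]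
    exact Submodule.neg_mem _ (pow_stable hz₂ _)
  have hz₂0 : ((x - 1) ^ (l + 1)) z₂ = 0 := by
    rw [hz₁0, zero_add] at hs
    exact hs
  obtain ⟨α, hα⟩ := ker_cyc hv0 hva (pow_stable hz₁ l)
    (by rw [← Module.End.mul_apply, ← pow_succ']; exact hz₁0)
  obtain ⟨β, hβ⟩ := ker_cyc hw0 hwa (pow_stable hz₂ l)
    (by rw [← Module.End.mul_apply, ← pow_succ']; exact hz₂0)
  have hzl : ((x - 1) ^ l) z = α • ((x - 1) ^ a) v + β • ((x - 1) ^ a) w := by
    rw [← hα, ← hβ, ← map_add, hz12]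
  have hvv : ω (((x - 1) ^ a) v) v = 0 :=
    (tsi_cyc h hx hxk hv).om h (pow_stable (self_mem_cyc _ _) a) (self_mem_cyc _ _)
  have hww : ω (((x - 1) ^ a) w) w = 0 :=
    (tsi_cyc h hx hxk hw).om h (pow_stable (self_mem_cyc _ _) a) (self_mem_cyc _ _)
  have hβ0 : β = 0 := by
    have h1 : ω (((x - 1) ^ l) z) v = 0 := by
      rw [om_adj h hx]
      exact hort _ (Submodule.mem_sup_left (adj_stable h hx hxk (self_mem_cyc _ _) l))
    rw [hzl, map_add, LinearMap.add_apply, map_smul, map_smul, LinearMap.smul_apply, LinearMap.smul_apply,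
      hvv, smul_zero, zero_add, smul_eq_mul, h.symm] at h1
    exact (mul_eq_zero.1 h1).resolve_right hvw
  have hα0 : α = 0 := by
    have h1 : ω (((x - 1) ^ l) z) w = 0 := by
      rw [om_adj h hx]
      exact hort _ (Submodule.mem_sup_right (adj_stable h hx hxk (self_mem_cyc _ _) l))
    rw [hzl, map_add, LinearMap.add_apply, map_smul, map_smul, LinearMap.smul_apply, LinearMap.smul_apply,
      hww, smul_zero, add_zero, smul_eq_mul, om_top h hx hN] at h1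
    exact (mul_eq_zero.1 h1).resolve_right hvw
  refine hl0 ?_
  rw [hzl, hα0, hβ0, zero_smul, zero_smul, add_zero]

end P22_aux

theorem block_hyp (h : QS ω Q) {x : Module.End F V} (hx : QI Q x) {k : ℕ} (hxk : x ^ (2 ^ k) = 1) {a : ℕ}
    (hN : (x - 1) ^ (a + 1) = 0) {v w : V} (hvw : ω v (((x - 1) ^ a) w) ≠ 0)
    (hv : ∀ i : ℕ, Q (((x - 1) ^ i) v) = 0) (hw : ∀ i : ℕ, Q (((x - 1) ^ i) w) = 0) :
    ∃ (W : Submodule F V) (hxW : ∀ u ∈ W, x u ∈ W), W ≠ ⊥ ∧
      (∀ w ∈ W, (∀ w' ∈ W, ω w w' = 0) → w = 0) ∧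
      ∃ X Y : Submodule F W, IsCompl X Y ∧ TSi (fun u : W => Q u) X ∧ TSi (fun u : W => Q u) Y ∧
        (∀ u ∈ X, x.restrict hxW u ∈ X) ∧ ∀ u ∈ Y, x.restrict hxW u ∈ Y := by
  have hxW : ∀ u ∈ cyc (x - 1) v ⊔ cyc (x - 1) w, x u ∈ cyc (x - 1) v ⊔ cyc (x - 1) w := by
    intro u hu
    obtain ⟨u₁, hu₁, u₂, hu₂, rfl⟩ := Submodule.mem_sup.1 hu
    rw [map_add]
    exact Submodule.add_mem _ (Submodule.mem_sup_left (cyc_stab h hx hxk hu₁).1)
      (Submodule.mem_sup_right (cyc_stab h hx hxk hu₂).1)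
  refine ⟨cyc (x - 1) v ⊔ cyc (x - 1) w, hxW, ?_, ?_, ?_⟩
  · intro hbot
    have h1 : v ∈ cyc (x - 1) v ⊔ cyc (x - 1) w := Submodule.mem_sup_left (self_mem_cyc _ _)
    rw [hbot, Submodule.mem_bot] at h1
    rw [h1, map_zero, LinearMap.zero_apply] at hvw
    exact hvw rfl
  · intro z hz hort
    exact P22_aux.nondeg h hx hxk hN hvw hv hw hz hort
  · refine ⟨(cyc (x - 1) v).comap (cyc (x - 1) v ⊔ cyc (x - 1) w).subtype,
      (cyc (x - 1) w).comap (cyc (x - 1) v ⊔ cyc (x - 1) w).subtype, ⟨?_, ?_⟩, ?_, ?_, ?_, ?_⟩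
    · rw [Submodule.disjoint_def]
      intro z hz hz'
      exact Subtype.ext (P22_aux.inf_cyc h hx hxk hN hvw hv hz hz')
    · rw [codisjoint_iff, eq_top_iff]
      rintro ⟨z, hz⟩ -
      obtain ⟨z₁, hz₁, z₂, hz₂, hz12⟩ := Submodule.mem_sup.1 hz
      refine Submodule.mem_sup.2 ⟨⟨z₁, Submodule.mem_sup_left hz₁⟩, hz₁,
        ⟨z₂, Submodule.mem_sup_right hz₂⟩, hz₂, ?_⟩
      exact Subtype.ext hz12
    · intro u hu
      exact tsi_cyc h hx hxk hv _ hu
    · intro u hu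
      exact tsi_cyc h hx hxk hw _ hu
    · intro u hu
      exact (cyc_stab h hx hxk hu).1
    · intro u hu
      exact (cyc_stab h hx hxk hu).1

end

end OR
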