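import Pool.Agent.OR.P07
import Pool.Agent.OR.P18
import Pool.Agent.OR.P19
import Pool.Agent.OR.P20
import Pool.Agent.OR.P21
import Pool.Agent.OR.P22

/-!
# MP_6c3636_al, OR, module P23: unipotent elements (P4) (helper96)

Strong induction on `finrank V` (for all `V`, `ω`, `Q`, `x`). `N := x - 1`, `N ^ (2 ^ k) = 0`. `V = 0` (`Subsingleton V`): `g = 1` (`rk 1 = 0`). If `OddC Q x` (P18): `cq_pow` (P07, `r = 1`) and `co_of_odd` (P19). Otherwise: `V ≠ 0`, let `a` be minimal with `N ^ a = 0`, `a ≥ 1`.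
(1) `a` is even: suppose `a = 2 s + 1`. By `one_or_two` (P18) `Q (N ^ s v) = 0` for all `v` (as `N ^ (2 s + 1) v = 0`), so the polar form is zero: `ω (N ^ s v) (N ^ s w) = 0`, `= ω (th ^ s v) w` (`om_pow`), so `th ^ s = 0`, and `th ^ s = adj ω x ^ s * N ^ (2 s)` (`th_pow_eq`), so `N ^ (2 s) = 0`, contradiction. So
`a = 2 b`, `b ≥ 1`. (2) `ω v (N ^ (2 b - 1) v) = 0` for all `v` by `case_two` (P18, `m = 2 b - 1`). `exists_ts` (P21) gives `v`, `w`, `block_hyp` (P22, `a := 2 b - 1`) gives `W`, `X`, `Y`. On `W` (`QS.restrict`, `QI.restrict`; `(x.restrict) ^ (2 ^ k * 1) = 1`): `co_hyp` (P20, `r = 1`). On `oc ω W`: induction (`finrank (oc ω W) < finrank V` as `W ≠ ⊥`;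
`LieP.PS.sy_oc` or `QS.restrict` for `oc ω W`, `oc_stable` of LieP P05). `glueO` (P10); `(x ^ j).restrict = (x.restrict) ^ j` (compare `P14_aux.restrict_pow` in LieP P14).
-/

namespace OR

noncomputable section

open Classical

open LieP.PS (Sy Iso adj rsf oc)

namespace P23_aux

theorem sub_pow_two {F : Type} [Field F] [CharP F 2] {V : Type} [AddCommGroup V] [Module F V]
    {x : Module.End F V} {k : ℕ} (hxk : x ^ (2 ^ k) = 1) : (x - 1) ^ (2 ^ k) = 0 := by
  have h1 : (Polynomial.X - 1 : Polynomial F) ^ (2 ^ k) = Polynomial.X ^ (2 ^ k) - 1 := by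
    rw [sub_pow_char_pow, one_pow]
  have h2 := congrArg (Polynomial.aeval x) h1
  rw [map_pow, map_sub, map_sub, map_pow, Polynomial.aeval_X, map_one, hxk, sub_self] at h2
  exact h2

theorem main {F : Type} [Field F] [Finite F] [CharP F 2] (d : ℕ) : ∀ (V : Type) [AddCommGroup V] [Module F V]
    [FiniteDimensional F V] (ω : V →ₗ[F] V →ₗ[F] F) (Q : V → F), QS ω Q → ∀ x : Module.End F V, QI Q x →
    ∀ k j : ℕ, x ^ (2 ^ k) = 1 → Odd j → Module.finrank F V = d → CO Q x (x ^ j) := by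
  induction d using Nat.strong_induction_on with
  | _ d ih =>
  intro V _ _ _ ω Q h x hx k j hxk hj hd
  rcases subsingleton_or_nontrivial V with hV | hV
  · refine ⟨LinearEquiv.refl F V, fun v => rfl, ?_, fun v => Subsingleton.elim _ _⟩
    have h1 : rk ((LinearEquiv.refl F V : V ≃ₗ[F] V) : Module.End F V) = 0 := by
      unfold rk
      rw [LinearMap.range_eq_bot.2 (LinearMap.ext fun v => Subsingleton.elim _ _), finrank_bot]
    rw [h1]
    exact ⟨0, rfl⟩
  by_cases hodd : OddC Q x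
  · exact co_of_odd h (cq_pow h hx (k := k) (r := 1) (by rw [mul_one]; exact hxk) odd_one hj (Nat.modEq_one)) hodd
  have hI : ∀ (s : ℕ) (v : V), ((x - 1) ^ (2 * s + 1)) v = 0 → Q (((x - 1) ^ s) v) = 0 := by
    intro s v hv
    by_contra hcon
    exact hodd (one_or_two h hx hxk hv hcon)
  have hII : ∀ (m : ℕ) (v : V), Odd m → ((x - 1) ^ (m + 1)) v = 0 → ω v (((x - 1) ^ m) v) = 0 := by
    intro m v hm hv
    by_contra hcon
    exact hodd (case_two h hx hxk hm hv hcon)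
  have hex : ∃ a : ℕ, (x - 1) ^ a = 0 := ⟨2 ^ k, sub_pow_two hxk⟩
  obtain ⟨a, ha0, hamin⟩ : ∃ a : ℕ, (x - 1) ^ a = 0 ∧ ∀ b, b < a → (x - 1) ^ b ≠ 0 :=
    ⟨Nat.find hex, Nat.find_spec hex, fun b hb => Nat.find_min hex hb⟩
  have ha1 : 1 ≤ a := by
    rcases Nat.eq_zero_or_pos a with h0 | h0
    · rw [h0, pow_zero] at ha0
      exact absurd ha0 one_ne_zero
    · exact h0
  have heven : Even a := by
    rw [← Nat.not_odd_iff_even]
    rintro ⟨s, hs⟩
    apply hamin (2 * s) (by omega)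
    have hQ : ∀ v, Q (((x - 1) ^ s) v) = 0 := by
      intro v
      apply hI
      rw [← hs, ha0, LinearMap.zero_apply]
    have hom : ∀ v w, ω ((th ω x ^ s) v) w = 0 := by
      intro v w
      rw [← om_pow h hx, h.polar, ← map_add, hQ, hQ, hQ, add_zero, add_zero]
    have hth : ∀ v, (th ω x ^ s) v = 0 := fun v => h.sy.nd _ (hom v)
    apply LinearMap.ext
    intro v
    have h1 := hth v
    rw [th_pow_eq h hx, Module.End.mul_apply] at h1
    have h2 : Function.Injective (adj ω x ^ s) := h.inj ((qi_adj h hx).pow s)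
    rw [LinearMap.zero_apply]
    apply h2
    rw [h1, map_zero]
  obtain ⟨b, hb⟩ := heven
  have hb1 : 1 ≤ b := by omega
  have hN : (x - 1) ^ (2 * b) = 0 := by
    rw [two_mul, ← hb]
    exact ha0
  have hN' : (x - 1) ^ (2 * b - 1) ≠ 0 := hamin _ (by omega)
  have hodd1 : Odd (2 * b - 1) := ⟨b - 1, by omega⟩
  have e1 : 2 * b - 1 + 1 = 2 * b := by omega
  have hII' : ∀ v, ω v (((x - 1) ^ (2 * b - 1)) v) = 0 := by
    intro v
    apply hII _ _ hodd1
    rw [e1, hN, LinearMap.zero_apply]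
  obtain ⟨v, w, hvw, hv, hw⟩ := exists_ts h hx hb1 hN hN' hII'
  obtain ⟨W, hxW, hWne, hWnd, X, Y, hXY, hX, hY, hXx, hYx⟩ :=
    block_hyp h hx hxk (a := 2 * b - 1) (by rw [e1]; exact hN) hvw hv hw
  have hO : ∀ w ∈ oc ω W, (∀ w' ∈ oc ω W, ω w w' = 0) → w = 0 := by
    intro w hw hw'
    have h1 := (LieP.PS.sy_oc h.sy hWnd).nd ⟨w, hw⟩ (fun w' => hw' w' w'.2)
    exact congrArg Subtype.val h1
  have hxO : ∀ w ∈ oc ω W, x w ∈ oc ω W := LieP.PS.oc_stable h.sy (QI.iso h hx) hxW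
  have hlt : Module.finrank F (oc ω W) < d := by
    have h1 := Submodule.finrank_add_eq_of_isCompl (LieP.PS.isCompl_oc h.sy hWnd)
    have h2 : 1 ≤ Module.finrank F W := Submodule.one_le_finrank_iff.2 hWne
    omega
  have hpow : ∀ (U : Submodule F V) (hU : ∀ w ∈ U, x w ∈ U), (x.restrict hU) ^ (2 ^ k) = 1 := by
    intro U hU
    rw [← LieP.PS.P14_aux.restrict_pow hU (2 ^ k) (LieP.PS.P14_aux.pow_mem hU _)]
    apply LinearMap.ext
    intro w
    apply Subtype.ext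
    show (x ^ (2 ^ k)) w.1 = w.1
    rw [hxk]
    rfl
  refine glueO h hWnd hxW (LieP.PS.P14_aux.pow_mem hxW j) hxO (LieP.PS.P14_aux.pow_mem hxO j) ?_ ?_
  · rw [LieP.PS.P14_aux.restrict_pow hxW j (LieP.PS.P14_aux.pow_mem hxW j)]
    exact co_hyp (h.restrict hWnd) (hx.restrict hxW) hXY hX hY hXx hYx (k := k) (r := 1)
      (by rw [mul_one]; exact hpow W hxW) odd_one hj Nat.modEq_one
  · rw [LieP.PS.P14_aux.restrict_pow hxO j (LieP.PS.P14_aux.pow_mem hxO j)]
    exact ih _ hlt (oc ω W) (rsf ω (oc ω W)) (fun w => Q w) (h.restrict hO) (x.restrict hxO) (hx.restrict hxO)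
      k j (hpow _ hxO) hj rfl

end P23_aux

theorem co_unip {F : Type} [Field F] [Finite F] [CharP F 2] {V : Type} [AddCommGroup V] [Module F V]
    [FiniteDimensional F V] {ω : V →ₗ[F] V →ₗ[F] F} {Q : V → F} (h : QS ω Q) {x : Module.End F V} (hx : QI Q x)
    {k j : ℕ} (hxk : x ^ (2 ^ k) = 1) (hj : Odd j) : CO Q x (x ^ j) :=
  P23_aux.main _ V ω Q h x hx k j hxk hj rfl

end

end OR
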