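import Pool.Agent.OR.P09
import Pool.Agent.OR.P23

/-!
# MP_6c3636_al, OR, module P24: odd powers are conjugate in the group of the isometries with even rank (P3) (helper96)

Model: `LieP.PS.cj_symp` (P14 of LieP). `z := x ^ (2 ^ k)`, `z ^ r = 1`, `W := ker (z - 1)`. `W` is nondegenerate: `e := ∑_{i < r} z ^ i`, `z e = e`, `e w = r w = w` for `w ∈ W` (`r` odd), `ω (e v) w = ω v (e w)`; if `w ∈ W` is orthogonal to `W` then `ω w v = ω (e w) v = ω w (e v) = 0` for all `v`. `x` preserves `W` and `oc ω W` (`oc_stable`).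
On `W` `x ^ (2 ^ k) = 1`: `co_unip` (P23). On `W' := oc ω W`: `x` restricted satisfies `x ^ (2 ^ k * r) = 1`, `cq_pow` (P07) gives an isometry `g` with `g x = x ^ j g`. Let `e ≡ 1 mod r`, `e ≡ 0 mod 2 ^ k` (Chinese remainder, `r` odd) and `s := x ^ e`: `g s = (x ^ j) ^ e g = x ^ (e * j) g = s g` as `e * j ≡ e mod 2 ^ k * r`. `s` has no fixed vector
in `W'`: `s v = v` implies `s ^ (2 ^ k) v = v`, and `s ^ (2 ^ k) = x ^ (e * 2 ^ k) = x ^ (2 ^ k) = z` (`e * 2 ^ k ≡ 2 ^ k mod 2 ^ k * r`), so `v ∈ W ⊓ W' = ⊥`. `even_rk_of_comm` (P09): `rk g` is even: `CO` on `W'`. `glueO` (P10).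
-/

namespace OR

noncomputable section

open Classical

open LieP.PS (Sy Iso adj rsf oc)

namespace P24_aux

theorem pow_congr {M : Type} [Monoid M] {x : M} {N n m : ℕ} (hx : x ^ N = 1) (h : n ≡ m [MOD N]) :
    x ^ n = x ^ m := by
  have h1 : n ≡ m [MOD orderOf x] := h.of_dvd (orderOf_dvd_of_pow_eq_one hx)
  rw [← pow_mod_orderOf x n, ← pow_mod_orderOf x m, h1]

theorem fix_pow {F : Type} [Field F] {V : Type} [AddCommGroup V] [Module F V] {x : Module.End F V} {v : V}
    (h : x v = v) (n : ℕ) : (x ^ n) v = v := by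
  induction n with
  | zero => rfl
  | succ n ih => rw [pow_succ, Module.End.mul_apply, h, ih]

theorem comm_pow {M : Type} [Monoid M] {g x y : M} (h : g * x = y * g) (n : ℕ) : g * x ^ n = y ^ n * g := by
  induction n with
  | zero => rw [pow_zero, pow_zero, mul_one, one_mul]
  | succ n ih => rw [pow_succ, ← mul_assoc, ih, mul_assoc, h, ← mul_assoc, ← pow_succ]

/-- the case without fixed vectors of `x ^ (2 ^ k)` -/
theorem co_free {F : Type} [Field F] [Finite F] [CharP F 2] {V : Type} [AddCommGroup V] [Module F V]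
    [FiniteDimensional F V] {ω : V →ₗ[F] V →ₗ[F] F} {Q : V → F} (h : QS ω Q) {x : Module.End F V} (hx : QI Q x)
    {k r j : ℕ} (hxr : x ^ (2 ^ k * r) = 1) (hr : Odd r) (hj : Odd j) (hjr : j ≡ 1 [MOD r])
    (hf : ∀ v, (x ^ (2 ^ k)) v = v → v = 0) : CO Q x (x ^ j) := by
  obtain ⟨g, hg1, hg2⟩ := cq_pow h hx hxr hr hj hjr
  have hcop : Nat.Coprime (2 ^ k) r := Nat.Coprime.pow_left k (Nat.coprime_two_left.2 hr)
  obtain ⟨e, he1, he2⟩ := Nat.chineseRemainder hcop 0 1
  have hG : (g : Module.End F V) * x = x ^ j * (g : Module.End F V) := by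
    apply LinearMap.ext
    intro v
    exact hg2 v
  have hs : (g : Module.End F V) * x ^ e = x ^ e * (g : Module.End F V) := by
    rw [comm_pow hG e, ← pow_mul]
    congr 1
    apply pow_congr hxr
    have h1 : j * e ≡ e [MOD 2 ^ k] := by
      have h2 : j * e ≡ j * 0 [MOD 2 ^ k] := he1.mul_left j
      rw [mul_zero] at h2
      exact h2.trans he1.symm
    have h3 : j * e ≡ e [MOD r] := by
      have h4 := hjr.mul_right e
      rw [one_mul] at h4
      exact h4
    exact (Nat.modEq_and_modEq_iff_modEq_mul hcop).1 ⟨h1, h3⟩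
  refine ⟨g, hg1, ?_, hg2⟩
  have hgQ : QI Q (g : Module.End F V) := hg1
  refine even_rk_of_comm h.sy (hgQ.iso h) ((hx.pow e).iso h) hs fun v hv => hf v ?_
  have h1 : (x ^ e) ^ (2 ^ k) = x ^ (2 ^ k) := by
    rw [← pow_mul]
    apply pow_congr hxr
    have h2 : 2 ^ k * e ≡ 2 ^ k * 1 [MOD 2 ^ k * r] := Nat.ModEq.mul_left' _ he2
    rw [mul_one] at h2
    rw [mul_comm e]
    exact h2
  rw [← h1]
  exact fix_pow hv _

end P24_aux

open P24_aux LieP.PS.P14_aux

theorem co_pow {F : Type} [Field F] [Finite F] [CharP F 2] {V : Type} [AddCommGroup V] [Module F V]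
    [FiniteDimensional F V] {ω : V →ₗ[F] V →ₗ[F] F} {Q : V → F} (h : QS ω Q) {x : Module.End F V} (hx : QI Q x)
    {k r j : ℕ} (hxr : x ^ (2 ^ k * r) = 1) (hr : Odd r) (hj : Odd j) (hjr : j ≡ 1 [MOD r]) : CO Q x (x ^ j) := by
  obtain ⟨z, hz⟩ : ∃ z : Module.End F V, z = x ^ (2 ^ k) := ⟨_, rfl⟩
  have hzr : z ^ r = 1 := by rw [hz, ← pow_mul, hxr]
  have hziso : Iso ω z := by
    rw [hz]
    exact (hx.pow _).iso h
  let W : Submodule F V := LinearMap.ker (z - 1)
  have hWm : ∀ v, v ∈ W ↔ z v = v := by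
    intro v
    rw [LinearMap.mem_ker, LinearMap.sub_apply, Module.End.one_apply, sub_eq_zero]
  -- the projection
  have hze : ∀ v, z (∑ i ∈ Finset.range r, (z ^ i) v) = ∑ i ∈ Finset.range r, (z ^ i) v := by
    intro v
    rw [map_sum]
    have h1 : ∀ i, z ((z ^ i) v) = (z ^ (i + 1)) v := by
      intro i
      rw [pow_succ', Module.End.mul_apply]
    rw [Finset.sum_congr rfl (fun i _ => h1 i)]
    have h2 := Finset.sum_range_succ (fun i => (z ^ i) v) r
    have h3 := Finset.sum_range_succ' (fun i => (z ^ i) v) r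
    rw [h2] at h3
    simp only [hzr, pow_zero] at h3
    exact (add_right_cancel h3).symm
  have hr1 : (r : F) = 1 := by
    obtain ⟨m, hm⟩ := hr
    rw [hm, Nat.cast_add, Nat.cast_mul, Nat.cast_two, CharTwo.two_eq_zero, zero_mul, zero_add, Nat.cast_one]
  have hW : ∀ w ∈ W, (∀ w' ∈ W, ω w w' = 0) → w = 0 := by
    intro w hw hw'
    apply h.sy.nd
    intro v
    have h1 := hw' _ ((hWm _).2 (hze v))
    rw [map_sum] at h1
    have h2 : ∀ i, ω w ((z ^ i) v) = ω w v := by
      intro i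
      conv_lhs => rw [← fix_pow ((hWm w).1 hw) i]
      exact iso_pow hziso i w v
    rw [Finset.sum_congr rfl (fun i _ => h2 i), Finset.sum_const, Finset.card_range, nsmul_eq_mul, hr1,
      one_mul] at h1
    exact h1
  have hxW : ∀ w ∈ W, x w ∈ W := by
    intro w hw
    rw [hWm] at hw ⊢
    have h1 : z * x = x * z := by rw [hz, ← pow_succ, pow_succ']
    calc z (x w) = (z * x) w := rfl
      _ = x (z w) := by rw [h1]; rfl
      _ = x w := by rw [hw]
  have hxO := LieP.PS.oc_stable h.sy (hx.iso h) hxW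
  have hO : ∀ w ∈ oc ω W, (∀ w' ∈ oc ω W, ω w w' = 0) → w = 0 := by
    intro w hw hw'
    have h1 := (LieP.PS.sy_oc h.sy hW).nd ⟨w, hw⟩ fun w' => hw' w'.1 w'.2
    exact congrArg Subtype.val h1
  refine glueO h hW hxW (pow_mem hxW j) hxO (pow_mem hxO j) ?_ ?_
  · rw [restrict_pow hxW j (pow_mem hxW j)]
    refine co_unip (h.restrict hW) (hx.restrict hxW) (k := k) ?_ hj
    rw [← restrict_pow hxW (2 ^ k) (pow_mem hxW _)]
    apply LinearMap.ext
    intro w
    apply Subtype.ext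
    have h1 := (hWm _).1 w.2
    rw [hz] at h1
    exact h1
  · rw [restrict_pow hxO j (pow_mem hxO j)]
    refine co_free (h.restrict hO) (hx.restrict hxO) (k := k) (r := r) ?_ hr hj hjr ?_
    · rw [← restrict_pow hxO (2 ^ k * r) (pow_mem hxO _)]
      apply LinearMap.ext
      intro w
      apply Subtype.ext
      show (x ^ (2 ^ k * r)) w.1 = w.1
      rw [hxr]
      rfl
    · intro v hv
      rw [← restrict_pow hxO (2 ^ k) (pow_mem hxO _)] at hv
      have h1 : (x ^ (2 ^ k)) v.1 = v.1 := congrArg Subtype.val hv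
      apply Subtype.ext
      refine hW v.1 ((hWm _).2 ?_) (fun w' hw' => v.2 w' hw')
      rw [hz]
      exact h1

end

end OR
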